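import Pool.Agent.H75.Idl.I0

/-! # LIY, module ELY: elimination of the linear variables -/

set_option autoImplicit false

namespace Pool.Agent.H75.Mono

open MvPolynomial Pool.Agent.H39.MonoR

section ELY

variable {k : Type} [Field k] [Algebra k ℂ] {r : ℕ}

/-! ### changing one coordinate -/

/-- if changing one coordinate of the arc changes the value, then the value does not matter -/
private theorem ely_trans {σ : Type} [Finite σ] (f : MvPolynomial σ k) {d : ℕ}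
    {P : Set (σ × Fin (d + 1) → ℂ)} (hP : ICons k P) [DecidableEq (σ × Fin (d + 1))]
    (q0 : σ × Fin (d + 1))
    {u : (σ × Fin (d + 1) → ℂ) → ℂ} (hu : PFun k u) (hu0 : ∀ φ ∈ P, u φ ≠ 0)
    (hPu : ∀ φ ε, φ ∈ P → Function.update φ q0 (φ q0 + ε) ∈ P)
    (huu : ∀ φ ε, u (Function.update φ q0 (φ q0 + ε)) = u φ)
    (hh : ∀ φ ∈ P, ∀ c ε, Hit f d φ c → Hit f d (Function.update φ q0 (φ q0 + ε)) (c + ε * u φ))
    (t : Test k) :
    mo k {x : (σ × Fin (d + 1) → ℂ) × t.E | x.2 ∈ t.W ∧ x.1 ∈ P ∧ Hit f d x.1 (t.c x.2)} =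
    mo k {x : (σ × Fin (d + 1) → ℂ) × t.E | x.2 ∈ t.W ∧ x.1 ∈ P ∧ Hit f d x.1 0} := by
  have hcons : ∀ c : t.E → ℂ, PFun k c → ICons k {x : (σ × Fin (d + 1) → ℂ) × t.E |
      x.2 ∈ t.W ∧ x.1 ∈ P ∧ Hit f d x.1 (c x.2)} := fun c hc =>
    (t.cW.mem PMap.snd).and ((hP.mem PMap.fst).and (ICons.hit d f PMap.fst (hc.comp PMap.snd)))
  have hA : ∀ c : t.E → ℂ, PFun k c → ICons k
      {y : ((σ × Fin (d + 1) → ℂ) × t.E) × ℂ |
        y.1 ∈ {x : (σ × Fin (d + 1) → ℂ) × t.E | x.2 ∈ t.W ∧ x.1 ∈ P ∧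
          Hit f d x.1 (c x.2)} ∧ y.2 * u y.1.1 = t.c y.1.2} := by
    intro c hc
    refine ICons.and ((hcons c hc).mem PMap.fst) (ICons.eq ?_ ?_)
    · refine PFun.mul (PFun.comp (f := fun x : ℂ => x) PFun.id' PMap.snd) ?_
      exact PFun.comp hu (PMap.fst.comp PMap.fst)
    · exact t.pf.comp (PMap.snd.comp PMap.fst)
  have h1 : ∀ c : t.E → ℂ, PFun k c →
      mo k {x : (σ × Fin (d + 1) → ℂ) × t.E | x.2 ∈ t.W ∧ x.1 ∈ P ∧ Hit f d x.1 (c x.2)} =
      mo k {y : ((σ × Fin (d + 1) → ℂ) × t.E) × ℂ |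
        y.1 ∈ {x : (σ × Fin (d + 1) → ℂ) × t.E | x.2 ∈ t.W ∧ x.1 ∈ P ∧
          Hit f d x.1 (c x.2)} ∧ y.2 * u y.1.1 = t.c y.1.2} := by
    intro c hc
    refine (mo_bij (hA c hc) (hcons c hc) (f := fun y => y.1) PMap.fst ⟨?_, ?_, ?_⟩).symm
    · intro y hy
      exact hy.1
    · rintro ⟨x, ε⟩ hy ⟨x', ε'⟩ hy' he
      simp only at he
      subst he
      have h2 : ε * u x.1 = ε' * u x.1 := hy.2.trans hy'.2.symm
      rw [mul_right_cancel₀ (hu0 _ hy.1.2.1) h2]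
    · intro x hx
      refine ⟨(x, t.c x.2 / u x.1), ⟨hx, ?_⟩, rfl⟩
      exact div_mul_cancel₀ _ (hu0 _ hx.2.1)
  rw [h1 t.c t.pf, h1 (fun _ => 0) PFun.zero]
  have hmap : PMap k (fun y : ((σ × Fin (d + 1) → ℂ) × t.E) × ℂ =>
      ((Function.update y.1.1 q0 (y.1.1 q0 + -y.2), y.1.2), y.2)) := by
    refine PMap.prodMk (PMap.prodMk (PMap.pi fun q => ?_) (PMap.snd.comp PMap.fst)) PMap.snd
    have h3 : ∀ q : σ × Fin (d + 1), PFun k
        (fun y : ((σ × Fin (d + 1) → ℂ) × t.E) × ℂ => y.1.1 q) := fun q =>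
      PFun.comp (f := fun φ : σ × Fin (d + 1) → ℂ => φ q) (PFun.apply q)
        (PMap.fst.comp PMap.fst)
    by_cases hq : q = q0
    · subst hq
      simp only [Function.update_self]
      exact (h3 _).add (PFun.comp (f := fun x : ℂ => x) PFun.id' PMap.snd).neg
    · simp only [Function.update_of_ne hq]
      exact h3 q
  refine mo_bij (hA _ t.pf) (hA _ PFun.zero) hmap ⟨?_, ?_, ?_⟩
  · rintro ⟨⟨φ, w⟩, ε⟩ ⟨⟨hw, ho, hh'⟩, he⟩
    simp only at hw ho hh' he
    refine ⟨⟨hw, hPu _ _ ho, ?_⟩, ?_⟩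
    · simp only
      have h2 := hh φ ho _ (-ε) hh'
      have e : t.c w + -ε * u φ = 0 := by rw [← he]; ring
      rwa [e] at h2
    · simp only
      rw [huu]
      exact he
  · rintro ⟨⟨φ, w⟩, ε⟩ _ ⟨⟨φ', w'⟩, ε'⟩ _ hxy
    simp only [Prod.mk.injEq] at hxy
    obtain ⟨⟨h2, h3⟩, h4⟩ := hxy
    subst h3 h4
    have : φ = φ' := by
      funext q
      have h5 := congrFun h2 q
      by_cases hq : q = q0
      · subst hq
        rw [Function.update_self, Function.update_self] at h5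
        exact add_right_cancel h5
      · rwa [Function.update_of_ne hq, Function.update_of_ne hq] at h5
    rw [this]
  · rintro ⟨⟨φ, w⟩, ε⟩ ⟨⟨hw, ho, hh'⟩, he⟩
    simp only at hw ho hh' he
    refine ⟨((Function.update φ q0 (φ q0 + ε), w), ε), ⟨⟨hw, hPu _ _ ho, ?_⟩, ?_⟩, ?_⟩
    · simp only
      have h2 := hh φ ho _ ε hh'
      have e : 0 + ε * u φ = t.c w := by rw [← he]; ring
      rwa [e] at h2
    · simp only
      rw [huu]
      exact he
    · simp only [Function.update_idem, Function.update_self, add_neg_cancel_right,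
        Function.update_eq_self]

/-! ### the two parts of an arc -/

/-- the part of the arc in the variables `x` -/
private def xpart {N : ℕ} (φ : (Fin 2 ⊕ Fin r) × Fin N → ℂ) : Fin 2 × Fin N → ℂ :=
  fun p => φ (Sum.inl p.1, p.2)

/-- the part of the arc in the variables `y` -/
private def ypart {N : ℕ} (φ : (Fin 2 ⊕ Fin r) × Fin N → ℂ) : Fin r × Fin N → ℂ :=
  fun p => φ (Sum.inr p.1, p.2)

private theorem pmap_xpart {N : ℕ} :
    PMap k (fun φ : (Fin 2 ⊕ Fin r) × Fin N → ℂ => xpart φ) :=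
  PMap.pi fun p => PFun.apply (k := k) ((Sum.inl p.1, p.2) : (Fin 2 ⊕ Fin r) × Fin N)

private theorem pmap_ypart {N : ℕ} :
    PMap k (fun φ : (Fin 2 ⊕ Fin r) × Fin N → ℂ => ypart φ) :=
  PMap.pi fun p => PFun.apply (k := k) ((Sum.inr p.1, p.2) : (Fin 2 ⊕ Fin r) × Fin N)

private theorem ely_inl {N : ℕ} (φ : (Fin 2 ⊕ Fin r) × Fin N → ℂ)
    (g : MvPolynomial (Fin 2) k) :
    arcEval k φ (rename Sum.inl g) = arcEval k (xpart φ) g := by
  unfold arcEval
  rw [aeval_rename]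
  rfl

private theorem ely_tot {N : ℕ} (F : Fin (r + 1) → MvPolynomial (Fin 2) k)
    (φ : (Fin 2 ⊕ Fin r) × Fin N → ℂ) :
    arcEval k φ (tot F) = arcEval k (xpart φ) (F 0) +
      ∑ i : Fin r, arc φ (Sum.inr i) * arcEval k (xpart φ) (F i.succ) := by
  have h : ∀ g h : MvPolynomial (Fin 2 ⊕ Fin r) k,
      arcEval k φ (g + h) = arcEval k φ g + arcEval k φ h := by
    intro g h
    unfold arcEval
    rw [map_add]
  have h2 : arcEval k φ (∑ i : Fin r, X (Sum.inr i) * rename Sum.inl (F i.succ)) =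
      ∑ i : Fin r, arc φ (Sum.inr i) * arcEval k φ (rename Sum.inl (F i.succ)) := by
    unfold arcEval
    rw [map_sum]
    refine Finset.sum_congr rfl fun i _ => ?_
    rw [map_mul, aeval_X]
  unfold tot
  rw [h, h2, ely_inl]
  congr 1
  refine Finset.sum_congr rfl fun i _ => ?_
  rw [ely_inl]

private theorem ely_arc_update {d : ℕ}
    [DecidableEq ((Fin 2 ⊕ Fin r) × Fin (d + 1))]
    (φ : (Fin 2 ⊕ Fin r) × Fin (d + 1) → ℂ) (i : Fin r) (n : Fin (d + 1)) (ε : ℂ) (j : Fin r) :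
    arc (Function.update φ (Sum.inr i, n) (φ (Sum.inr i, n) + ε)) (Sum.inr j) =
      arc φ (Sum.inr j) + if j = i then PowerSeries.X ^ (n : ℕ) * PowerSeries.C ε else 0 := by
  ext l
  rw [map_add, coeff_arc, coeff_arc]
  by_cases hj : j = i
  · subst hj
    rw [if_pos rfl, PowerSeries.coeff_X_pow_mul']
    by_cases hl : l < d + 1
    · rw [dif_pos hl, dif_pos hl]
      by_cases hln : (⟨l, hl⟩ : Fin (d + 1)) = n
      · subst hln
        rw [Function.update_self, if_pos le_rfl, Nat.sub_self, PowerSeries.coeff_zero_C]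
      · have hne : l ≠ (n : ℕ) := fun h => hln (Fin.ext h)
        rw [Function.update_of_ne]
        · by_cases h1 : (n : ℕ) ≤ l
          · rw [if_pos h1, PowerSeries.coeff_C, if_neg (by omega), add_zero]
          · rw [if_neg h1, add_zero]
        · intro h
          exact hln (congrArg Prod.snd h)
    · rw [dif_neg hl, dif_neg hl]
      have hn := n.2
      by_cases h1 : (n : ℕ) ≤ l
      · rw [if_pos h1, PowerSeries.coeff_C, if_neg (by omega), add_zero]
      · rw [if_neg h1, add_zero]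
  · rw [if_neg hj, map_zero, add_zero]
    by_cases hl : l < d + 1
    · rw [dif_pos hl, dif_pos hl, Function.update_of_ne]
      intro h
      exact hj (Sum.inr_injective (congrArg Prod.fst h))
    · rw [dif_neg hl, dif_neg hl]

private theorem xpart_update {d : ℕ} [DecidableEq ((Fin 2 ⊕ Fin r) × Fin (d + 1))]
    (φ : (Fin 2 ⊕ Fin r) × Fin (d + 1) → ℂ) (i : Fin r) (n : Fin (d + 1)) (a : ℂ) :
    xpart (Function.update φ (Sum.inr i, n) a) = xpart φ := by
  funext p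
  unfold xpart
  rw [Function.update_of_ne]
  intro h
  cases congrArg Prod.fst h

/-- the coefficients of `F_(i+1)(x)` -/
private noncomputable def yc (F : Fin (r + 1) → MvPolynomial (Fin 2) k) {N : ℕ}
    (φ : (Fin 2 ⊕ Fin r) × Fin N → ℂ) (i : Fin r) (l : ℕ) : ℂ :=
  PowerSeries.coeff l (arcEval k (xpart φ) (F i.succ))

private theorem pfun_yc (F : Fin (r + 1) → MvPolynomial (Fin 2) k) {N : ℕ} (i : Fin r) (l : ℕ) :
    PFun k (fun φ : (Fin 2 ⊕ Fin r) × Fin N → ℂ => yc F φ i l) :=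
  PFun.coeff_arcEval l (F i.succ) pmap_xpart

/-- the strata -/
private def ystr (F : Fin (r + 1) → MvPolynomial (Fin 2) k) (d : ℕ) (j : Fin r × Fin (d + 1)) :
    Set ((Fin 2 ⊕ Fin r) × Fin (d + 1) → ℂ) :=
  {φ | (∀ i', i' < j.1 → ∀ l : Fin (d + 1), yc F φ i' l = 0) ∧
    (∀ l : Fin (d + 1), l < j.2 → yc F φ j.1 l = 0) ∧ yc F φ j.1 j.2 ≠ 0}

private theorem icons_imp {E : Type} [Aff E] (p : Prop) {q : E → Prop} (h : ICons k {x | q x}) :
    ICons k {x | p → q x} := by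
  by_cases hp : p
  · simpa only [hp, true_implies] using h
  · have e : {x : E | p → q x} = Set.univ := by
      ext x
      simp [hp]
    rw [e]
    exact ICons.univ

private theorem icons_ystr (F : Fin (r + 1) → MvPolynomial (Fin 2) k) (d : ℕ)
    (j : Fin r × Fin (d + 1)) : ICons k (ystr F d j) := by
  refine ICons.and (ICons.forall_fin fun i' => icons_imp _ (ICons.forall_fin fun l => ?_))
    (ICons.and (ICons.forall_fin fun l => icons_imp _ ?_) ?_)
  · exact ICons.eq (pfun_yc F i' l) PFun.zero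
  · exact ICons.eq (pfun_yc F j.1 l) PFun.zero
  · exact ICons.ne (pfun_yc F j.1 j.2) PFun.zero

private theorem ystr_unique (F : Fin (r + 1) → MvPolynomial (Fin 2) k) (d : ℕ)
    {φ : (Fin 2 ⊕ Fin r) × Fin (d + 1) → ℂ} {j j' : Fin r × Fin (d + 1)} (h : φ ∈ ystr F d j)
    (h' : φ ∈ ystr F d j') : j = j' := by
  obtain ⟨i, l⟩ := j
  obtain ⟨i', l'⟩ := j'
  have h1 : i = i' := by
    rcases lt_trichotomy i i' with h1 | h1 | h1
    · exact absurd (h'.1 i h1 l) h.2.2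
    · exact h1
    · exact absurd (h.1 i' h1 l') h'.2.2
  subst h1
  have h2 : l = l' := by
    rcases lt_trichotomy l l' with h2 | h2 | h2
    · exact absurd (h'.2.1 l h2) h.2.2
    · exact h2
    · exact absurd (h.2.1 l' h2) h'.2.2
  rw [h2]

private theorem ystr_exists (F : Fin (r + 1) → MvPolynomial (Fin 2) k) (d : ℕ)
    {φ : (Fin 2 ⊕ Fin r) × Fin (d + 1) → ℂ} (h : ∃ i, ∃ l : Fin (d + 1), yc F φ i l ≠ 0) :
    ∃ j, φ ∈ ystr F d j := by
  classical
  let s : Finset (Fin r) := Finset.univ.filter fun i => ∃ l : Fin (d + 1), yc F φ i l ≠ 0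
  have hs : s.Nonempty := by
    obtain ⟨i, hi⟩ := h
    exact ⟨i, Finset.mem_filter.2 ⟨Finset.mem_univ _, hi⟩⟩
  let i := s.min' hs
  have hi : ∃ l : Fin (d + 1), yc F φ i l ≠ 0 := (Finset.mem_filter.1 (s.min'_mem hs)).2
  let u : Finset (Fin (d + 1)) := Finset.univ.filter fun l => yc F φ i l ≠ 0
  have hu : u.Nonempty := by
    obtain ⟨l, hl⟩ := hi
    exact ⟨l, Finset.mem_filter.2 ⟨Finset.mem_univ _, hl⟩⟩
  refine ⟨(i, u.min' hu), ?_, ?_, ?_⟩
  · intro i' hi' l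
    by_contra hne
    have h1 : s.min' hs ≤ i' := s.min'_le i' (Finset.mem_filter.2 ⟨Finset.mem_univ _, l, hne⟩)
    exact absurd hi' (not_lt.2 h1)
  · intro l hl
    by_contra hne
    have h1 : u.min' hu ≤ l := u.min'_le l (Finset.mem_filter.2 ⟨Finset.mem_univ _, hne⟩)
    exact absurd hl (not_lt.2 h1)
  · exact (Finset.mem_filter.1 (u.min'_mem hu)).2

/-- one stratum -/
private theorem ely_stratum (F : Fin (r + 1) → MvPolynomial (Fin 2) k) (d : ℕ)
    (j : Fin r × Fin (d + 1)) (t : Test k) :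
    mo k {x : ((Fin 2 ⊕ Fin r) × Fin (d + 1) → ℂ) × t.E | x.2 ∈ t.W ∧ x.1 ∈ ystr F d j ∧
      Hit (tot F) d x.1 (t.c x.2)} =
    mo k {x : ((Fin 2 ⊕ Fin r) × Fin (d + 1) → ℂ) × t.E | x.2 ∈ t.W ∧ x.1 ∈ ystr F d j ∧
      Hit (tot F) d x.1 0} := by
  classical
  obtain ⟨i, l0⟩ := j
  have hl0 : d - (l0 : ℕ) < d + 1 := by omega
  have hl1 := l0.2
  have hyc : ∀ (φ : (Fin 2 ⊕ Fin r) × Fin (d + 1) → ℂ) (a : ℂ) (i' : Fin r) (l : ℕ),
      yc F (Function.update φ (Sum.inr i, ⟨d - l0, hl0⟩) a) i' l = yc F φ i' l := by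
    intro φ a i' l
    unfold yc
    rw [xpart_update]
  refine ely_trans (tot F) (icons_ystr F d (i, l0)) (Sum.inr i, ⟨d - l0, hl0⟩)
    (u := fun φ => yc F φ i l0) (pfun_yc F i l0) (fun φ h => h.2.2) ?_ ?_ ?_ t
  · rintro φ ε ⟨h1, h2, h3⟩
    refine ⟨fun i' hi' l => ?_, fun l hl => ?_, ?_⟩
    · rw [hyc]
      exact h1 i' hi' l
    · rw [hyc]
      exact h2 l hl
    · rw [hyc]
      exact h3
  · intro φ ε
    exact hyc _ _ _ _
  · rintro φ ⟨h1, h2, h3⟩ c ε hh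
    have e : arcEval k (Function.update φ (Sum.inr i, ⟨d - l0, hl0⟩)
        (φ (Sum.inr i, ⟨d - l0, hl0⟩) + ε)) (tot F) =
        arcEval k φ (tot F) + PowerSeries.X ^ (d - (l0 : ℕ)) *
          (PowerSeries.C ε * arcEval k (xpart φ) (F i.succ)) := by
      rw [ely_tot, ely_tot, xpart_update, add_assoc]
      congr 1
      have e1 : ∀ i' : Fin r, arc (Function.update φ (Sum.inr i, ⟨d - l0, hl0⟩)
          (φ (Sum.inr i, ⟨d - l0, hl0⟩) + ε)) (Sum.inr i') * arcEval k (xpart φ) (F i'.succ) =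
          arc φ (Sum.inr i') * arcEval k (xpart φ) (F i'.succ) +
            if i' = i then PowerSeries.X ^ (d - (l0 : ℕ)) *
              (PowerSeries.C ε * arcEval k (xpart φ) (F i'.succ)) else 0 := by
        intro i'
        rw [ely_arc_update φ i ⟨d - l0, hl0⟩ ε i', add_mul]
        congr 1
        by_cases h : i' = i
        · rw [if_pos h, if_pos h, mul_assoc]
        · rw [if_neg h, if_neg h, zero_mul]
      rw [Finset.sum_congr rfl fun i' _ => e1 i', Finset.sum_add_distrib,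
        Finset.sum_ite_eq' Finset.univ i, if_pos (Finset.mem_univ i)]
    rw [hit_iff] at hh ⊢
    constructor
    · intro l hl
      rw [e, map_add, hh.1 l hl, zero_add, PowerSeries.coeff_X_pow_mul']
      by_cases h4 : d - (l0 : ℕ) ≤ l
      · rw [if_pos h4, PowerSeries.coeff_C_mul]
        have h5 := h2 ⟨l - (d - l0), by omega⟩ (by
          rw [Fin.lt_def]
          show l - (d - (l0 : ℕ)) < (l0 : ℕ)
          omega)
        unfold yc at h5
        rw [h5, mul_zero]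
      · rw [if_neg h4]
    · rw [e, map_add, hh.2, PowerSeries.coeff_X_pow_mul', if_pos (by omega),
        PowerSeries.coeff_C_mul]
      have h5 : d - (d - (l0 : ℕ)) = l0 := by omega
      rw [h5]
      rfl

/-! ### the elimination -/

private theorem ely_key (F : Fin (r + 1) → MvPolynomial (Fin 2) k) (d : ℕ) (t : Test k) :
    mo k {x : ((Fin 2 ⊕ Fin r) × Fin (d + 1) → ℂ) × t.E | x.2 ∈ t.W ∧
      Hit (tot F) d x.1 (t.c x.2)} =
    mo k {x : ((Fin 2 ⊕ Fin r) × Fin (d + 1) → ℂ) × t.E | (x.2 ∈ t.W ∧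
      Hit (tot F) d x.1 0) ∧ ¬ ∀ i, ∀ l : Fin (d + 1), yc F x.1 i l = 0} +
    ↑(Lu k ^ (((r * (d + 1) : ℕ) : ℤ))) *
      mo k {x : (Fin 2 × Fin (d + 1) → ℂ) × t.E | x.2 ∈ t.W ∧ Htv F d x.1 (t.c x.2)} := by
  classical
  have hcons : ∀ c : t.E → ℂ, PFun k c → ICons k
      {x : ((Fin 2 ⊕ Fin r) × Fin (d + 1) → ℂ) × t.E | x.2 ∈ t.W ∧
        Hit (tot F) d x.1 (c x.2)} := fun c hc =>
    (t.cW.mem PMap.snd).and (ICons.hit d (tot F) PMap.fst (hc.comp PMap.snd))
  have hp : ICons k {x : ((Fin 2 ⊕ Fin r) × Fin (d + 1) → ℂ) × t.E |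
      ∀ i, ∀ l : Fin (d + 1), yc F x.1 i l = 0} := by
    apply ICons.forall_fin
    intro i
    apply ICons.forall_fin
    intro l
    exact ICons.eq ((pfun_yc F i l).comp PMap.fst) PFun.zero
  rw [mo_split (hcons t.c t.pf) hp, add_comm]
  congr 1
  · -- the strata
    have key : ∀ c : t.E → ℂ, PFun k c →
        mo k {x : ((Fin 2 ⊕ Fin r) × Fin (d + 1) → ℂ) × t.E | (x.2 ∈ t.W ∧
          Hit (tot F) d x.1 (c x.2)) ∧ ¬ ∀ i, ∀ l : Fin (d + 1), yc F x.1 i l = 0} =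
        ∑ j ∈ (Finset.univ : Finset (Fin r × Fin (d + 1))),
          mo k {x : ((Fin 2 ⊕ Fin r) × Fin (d + 1) → ℂ) × t.E |
            x.2 ∈ t.W ∧ x.1 ∈ ystr F d j ∧ Hit (tot F) d x.1 (c x.2)} := by
      intro c hc
      rw [← mo_biUnion]
      · congr 1
        ext x
        constructor
        · rintro ⟨⟨h1, h2⟩, h3⟩
          push Not at h3
          obtain ⟨j, hj⟩ := ystr_exists F d h3
          exact ⟨j, Finset.mem_univ _, h1, hj, h2⟩
        · rintro ⟨j, -, h1, hj, h2⟩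
          exact ⟨⟨h1, h2⟩, fun h => hj.2.2 (h _ _)⟩
      · intro j _
        exact (t.cW.mem PMap.snd).and (((icons_ystr F d j).mem PMap.fst).and
          (ICons.hit d (tot F) PMap.fst (hc.comp PMap.snd)))
      · intro j _ j' _ hne
        rw [Set.disjoint_left]
        rintro x ⟨-, h1, -⟩ ⟨-, h2, -⟩
        exact hne (ystr_unique F d h1 h2)
    have k1 := key t.c t.pf
    have k2 := key (fun _ => 0) PFun.zero
    refine k1.trans (Eq.trans ?_ k2.symm)
    exact Finset.sum_congr rfl fun j _ => ely_stratum F d j t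
  · -- the rest
    have hH : ICons k {x : (Fin 2 × Fin (d + 1) → ℂ) × t.E |
        x.2 ∈ t.W ∧ Htv F d x.1 (t.c x.2)} := by
      refine (t.cW.mem PMap.snd).and ?_
      unfold Htv
      apply ICons.forall_fin
      intro e
      apply ICons.hit d (F e) PMap.fst
      by_cases he : e = 0
      · simpa only [if_pos he] using t.pf.comp PMap.snd
      · simpa only [if_neg he] using PFun.zero
    have hB : ICons k {y : ((Fin 2 × Fin (d + 1) → ℂ) × t.E) × (Fin r × Fin (d + 1) → ℂ) |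
        y.1 ∈ {x : (Fin 2 × Fin (d + 1) → ℂ) × t.E | x.2 ∈ t.W ∧ Htv F d x.1 (t.c x.2)} ∧
          y.2 ∈ (Set.univ : Set (Fin r × Fin (d + 1) → ℂ))} := ICons.prod hH ICons.univ
    have hf : PMap k (fun x : ((Fin 2 ⊕ Fin r) × Fin (d + 1) → ℂ) × t.E =>
        ((xpart x.1, x.2), ypart x.1)) :=
      PMap.prodMk (PMap.prodMk (PMap.comp pmap_xpart PMap.fst) PMap.snd)
        (PMap.comp pmap_ypart PMap.fst)
    have hA : ICons k {x : ((Fin 2 ⊕ Fin r) × Fin (d + 1) → ℂ) × t.E |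
        x ∈ {x : ((Fin 2 ⊕ Fin r) × Fin (d + 1) → ℂ) × t.E | x.2 ∈ t.W ∧
          Hit (tot F) d x.1 (t.c x.2)} ∧ ∀ i, ∀ l : Fin (d + 1), yc F x.1 i l = 0} :=
      (hcons t.c t.pf).and hp
    have hiff : ∀ (φ : (Fin 2 ⊕ Fin r) × Fin (d + 1) → ℂ) (c : ℂ),
        (Hit (tot F) d φ c ∧ ∀ i, ∀ l : Fin (d + 1), yc F φ i l = 0) ↔
          Htv F d (xpart φ) c := by
      intro φ c
      have h0 : (∀ i, ∀ l : Fin (d + 1), yc F φ i l = 0) → ∀ l, l ≤ d →
          PowerSeries.coeff l (arcEval k φ (tot F)) =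
            PowerSeries.coeff l (arcEval k (xpart φ) (F 0)) := by
        intro h l hl
        rw [ely_tot, map_add, map_sum, Finset.sum_eq_zero, add_zero]
        intro i _
        rw [PowerSeries.coeff_mul]
        apply Finset.sum_eq_zero
        intro p hp'
        have h1 : p.1 + p.2 = l := Finset.HasAntidiagonal.mem_antidiagonal.1 hp'
        have h2 := h i ⟨p.2, by omega⟩
        unfold yc at h2
        simp only at h2
        rw [h2, mul_zero]
      constructor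
      · rintro ⟨h1, h2⟩ e
        by_cases he : e = 0
        · subst he
          rw [if_pos rfl]
          intro l hl
          rw [← h0 h2 l hl]
          exact h1 l hl
        · rw [if_neg he]
          intro l hl
          obtain ⟨i, rfl⟩ := Fin.exists_succ_eq.2 he
          have h3 := h2 i ⟨l, by omega⟩
          unfold yc at h3
          simp only at h3
          rw [h3]
          simp
      · intro h
        have h2 : ∀ i, ∀ l : Fin (d + 1), yc F φ i l = 0 := by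
          intro i l
          have h3 := h i.succ
          rw [if_neg (Fin.succ_ne_zero i)] at h3
          have h4 := h3 l (by omega)
          unfold yc
          rw [h4]
          simp
        refine ⟨?_, h2⟩
        intro l hl
        rw [h0 h2 l hl]
        have h3 := h 0
        rw [if_pos rfl] at h3
        exact h3 l hl
    rw [mo_bij hA hB hf ⟨?_, ?_, ?_⟩, mo_prod hH ICons.univ, mo_univ_pi, mul_comm]
    · congr 2
      simp [Nat.card_eq_fintype_card]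
    · rintro ⟨φ, w⟩ ⟨⟨hw, h1⟩, h2⟩
      exact ⟨⟨hw, (hiff φ _).1 ⟨h1, h2⟩⟩, Set.mem_univ _⟩
    · rintro ⟨φ, w⟩ _ ⟨φ', w'⟩ _ hxy
      simp only [Prod.mk.injEq] at hxy
      obtain ⟨⟨h1, h2⟩, h3⟩ := hxy
      refine Prod.ext ?_ h2
      funext p
      obtain ⟨i | i, l⟩ := p
      · exact congrFun h1 (i, l)
      · exact congrFun h3 (i, l)
    · rintro ⟨⟨χ, w⟩, ψ⟩ ⟨⟨hw, hh⟩, -⟩
      let φ : (Fin 2 ⊕ Fin r) × Fin (d + 1) → ℂ := fun p =>
        Sum.elim (fun i => χ (i, p.2)) (fun i => ψ (i, p.2)) p.1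
      have hx : xpart φ = χ := by
        funext p
        rfl
      have hy : ypart φ = ψ := by
        funext p
        rfl
      have h1 := (hiff φ (t.c w)).2 (by rw [hx]; exact hh)
      refine ⟨(φ, w), ⟨⟨hw, h1.1⟩, h1.2⟩, ?_⟩
      simp only
      rw [hx, hy]

theorem zt_tot (F : Fin (r + 1) → MvPolynomial (Fin 2) k) (d : ℕ) (t : Test k) :
    zt (tot F) d t - zt (tot F) d t.zr = ↑(Lu k ^ r) * (ztv F d t - ztv F d t.zr) := by
  have h1 := ely_key F d t
  have h2 := ely_key F d t.zr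
  have h3 : (↑(Lu k ^ (((r * (d + 1) : ℕ) : ℤ))) : M k) *
      ↑(Lu k ^ (-((Nat.card (Fin 2 ⊕ Fin r) * d : ℕ) : ℤ))) =
      ↑(Lu k ^ r) * ↑(Lu k ^ (-((Nat.card (Fin 2) * d : ℕ) : ℤ))) := by
    rw [← Units.val_mul, ← Units.val_mul, ← zpow_add, ← zpow_natCast (Lu k) r, ← zpow_add]
    congr 2
    have e1 : Nat.card (Fin 2 ⊕ Fin r) = 2 + r := by simp
    have e2 : Nat.card (Fin 2) = 2 := by simp
    rw [e1, e2]
    push_cast
    ring
  unfold zt ztv
  rw [← sub_mul, ← sub_mul]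
  have h4 : mo k {x : ((Fin 2 ⊕ Fin r) × Fin (d + 1) → ℂ) × t.E | x.2 ∈ t.W ∧
      Hit (tot F) d x.1 (t.c x.2)} -
      mo k {x : ((Fin 2 ⊕ Fin r) × Fin (d + 1) → ℂ) × t.zr.E | x.2 ∈ t.zr.W ∧
      Hit (tot F) d x.1 (t.zr.c x.2)} =
      ↑(Lu k ^ (((r * (d + 1) : ℕ) : ℤ))) *
      (mo k {x : (Fin 2 × Fin (d + 1) → ℂ) × t.E | x.2 ∈ t.W ∧ Htv F d x.1 (t.c x.2)} -
      mo k {x : (Fin 2 × Fin (d + 1) → ℂ) × t.zr.E | x.2 ∈ t.zr.W ∧
        Htv F d x.1 (t.zr.c x.2)}) := by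
    rw [h1, h2, mul_sub]
    have e : mo k {x : ((Fin 2 ⊕ Fin r) × Fin (d + 1) → ℂ) × t.zr.E | (x.2 ∈ t.zr.W ∧
      Hit (tot F) d x.1 0) ∧ ¬ ∀ i, ∀ l : Fin (d + 1), yc F x.1 i l = 0} =
      mo k {x : ((Fin 2 ⊕ Fin r) × Fin (d + 1) → ℂ) × t.E | (x.2 ∈ t.W ∧
      Hit (tot F) d x.1 0) ∧ ¬ ∀ i, ∀ l : Fin (d + 1), yc F x.1 i l = 0} := rfl
    rw [e]
    ring
  rw [h4]
  linear_combination (mo k {x : (Fin 2 × Fin (d + 1) → ℂ) × t.E | x.2 ∈ t.W ∧
    Htv F d x.1 (t.c x.2)} -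
      mo k {x : (Fin 2 × Fin (d + 1) → ℂ) × t.zr.E | x.2 ∈ t.zr.W ∧
        Htv F d x.1 (t.zr.c x.2)}) * h3

end ELY

end Pool.Agent.H75.Mono
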