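import Pool.Agent.H75.Idl.I0

/-! # LIY, module SMV: smooth parts of curves -/

set_option autoImplicit false

namespace Pool.Agent.H75.Mono

open MvPolynomial Pool.Agent.H39.MonoR

section SMV0

variable {k : Type} [Field k] [Algebra k ℂ] {σ : Type} [Finite σ]

private theorem smv_coeff {A B : PowerSeries ℂ} {m l : ℕ}
    (h : ∀ j < l, PowerSeries.coeff j A = 0) :
    (∀ j < m * l, PowerSeries.coeff j (A ^ m * B) = 0) ∧
      PowerSeries.coeff (m * l) (A ^ m * B) = PowerSeries.coeff l A ^ m * PowerSeries.coeff 0 B := by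
  obtain ⟨A', rfl⟩ := PowerSeries.X_pow_dvd_iff.2 h
  have e : (PowerSeries.X ^ l * A') ^ m * B = PowerSeries.X ^ (m * l) * (A' ^ m * B) := by
    rw [mul_pow, ← pow_mul, mul_comm l m]; ring
  constructor
  · intro j hj
    rw [e, PowerSeries.coeff_X_pow_mul', if_neg (by omega)]
  · rw [e, PowerSeries.coeff_X_pow_mul', if_pos le_rfl, Nat.sub_self,
      PowerSeries.coeff_X_pow_mul', if_pos le_rfl, Nat.sub_self]
    simp

private theorem smv_dvd {m d : ℕ} (hm : 0 < m) :
    (∀ l, l < (d + m - 1) / m ↔ m * l < d) ∧ (m ∣ d → m * ((d + m - 1) / m) = d) ∧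
      (¬ m ∣ d → d < m * ((d + m - 1) / m)) := by
  have hl0 : ∀ l, l < (d + m - 1) / m ↔ m * l < d := by
    intro l
    rw [Nat.lt_iff_add_one_le, Nat.le_div_iff_mul_le hm]
    constructor
    · intro h; nlinarith [Nat.sub_add_cancel (show 1 ≤ d + m by omega)]
    · intro h
      have : (l + 1) * m = m * l + m := by ring
      omega
  have hdv : m ∣ d → m * ((d + m - 1) / m) = d := by
    rintro ⟨e, rfl⟩
    have : (m * e + m - 1) / m = e := by
      have e1 : m * e + m - 1 = (m - 1) + m * e := by omega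
      rw [e1, Nat.add_mul_div_left _ _ hm, Nat.div_eq_of_lt (by omega), zero_add]
    rw [this]
  refine ⟨hl0, hdv, ?_⟩
  intro h
  have h1 : ¬ m * ((d + m - 1) / m) < d := fun h2 =>
    absurd ((hl0 _).2 h2) (lt_irrefl _)
  have h2 : m * ((d + m - 1) / m) ≠ d := fun h3 => h ⟨_, h3.symm⟩
  omega

private theorem smv_iff0 {A B : PowerSeries ℂ} {m d : ℕ} (hm : 0 < m)
    (h1 : ∀ l, l < (d + m - 1) / m → PowerSeries.coeff l A = 0) (c : ℂ) :
    (∀ l, l ≤ d → PowerSeries.coeff l (A ^ m * B) = if l = d then c else 0) ↔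
      ((m ∣ d → PowerSeries.coeff ((d + m - 1) / m) A ^ m * PowerSeries.coeff 0 B = c) ∧
          (¬ m ∣ d → c = 0)) := by
  obtain ⟨hl0, hdv, hnd⟩ := smv_dvd (m := m) (d := d) hm
  constructor
  · intro h
    have h2 := smv_coeff (A := A) (B := B) (m := m) h1
    refine ⟨fun hmd => ?_, fun hmd => ?_⟩
    · have h3 := h2.2
      rw [hdv hmd] at h3
      rw [← h3, h d le_rfl, if_pos rfl]
    · have h3 := h2.1 d (hnd hmd)
      rw [h d le_rfl, if_pos rfl] at h3
      exact h3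
  · rintro h2 l hl
    have h3 := smv_coeff (A := A) (B := B) (m := m) h1
    by_cases hmd : m ∣ d
    · have h2 := h2.1 hmd
      obtain ⟨h3, h4⟩ := h3
      rw [hdv hmd] at h3 h4
      by_cases hld : l = d
      · rw [if_pos hld, hld, h4, h2]
      · rw [if_neg hld]
        exact h3 l (by omega)
    · have h2 := h2.2 hmd
      have h4 := h3.1 l (lt_of_le_of_lt hl (hnd hmd))
      rw [h4, h2, ite_self]

private theorem smv_low {A B : PowerSeries ℂ} {m d : ℕ} (hm : 0 < m)
    (hB : PowerSeries.coeff 0 B ≠ 0) (c : ℂ)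
    (h : ∀ l, l ≤ d → PowerSeries.coeff l (A ^ m * B) = if l = d then c else 0) :
    ∀ l, l < (d + m - 1) / m → PowerSeries.coeff l A = 0 := by
  obtain ⟨hl0, hdv, hnd⟩ := smv_dvd (m := m) (d := d) hm
  intro l
  induction l using Nat.strong_induction_on with
  | _ l ih =>
    intro hl
    have h2 := (smv_coeff (A := A) (B := B) (m := m) (l := l)
      (fun j hj => ih j hj (by omega))).2
    have h3 := (hl0 l).1 hl
    rw [h _ h3.le, if_neg (by omega)] at h2
    rcases mul_eq_zero.1 h2.symm with h4 | h4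
    · exact pow_eq_zero_iff (by omega) |>.1 h4
    · exact absurd h4 hB

private theorem smv_iff {r : ℕ} {A : PowerSeries ℂ} {B : Fin (r + 1) → PowerSeries ℂ} {m d : ℕ}
    (hm : 0 < m) (hB : ∃ e, PowerSeries.coeff 0 (B e) ≠ 0) (c : ℂ) :
    (∀ e, ∀ l, l ≤ d → PowerSeries.coeff l (A ^ m * B e) =
        if l = d then (if e = 0 then c else 0) else 0) ↔
      (∀ l, l < (d + m - 1) / m → PowerSeries.coeff l A = 0) ∧
        ∀ e, ((m ∣ d → PowerSeries.coeff ((d + m - 1) / m) A ^ m * PowerSeries.coeff 0 (B e) =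
          (if e = 0 then c else 0)) ∧ (¬ m ∣ d → (if e = 0 then c else 0) = (0 : ℂ))) := by
  constructor
  · intro h
    obtain ⟨e, he⟩ := hB
    have h1 := smv_low hm he _ (h e)
    exact ⟨h1, fun e' => (smv_iff0 hm h1 _).1 (h e')⟩
  · rintro ⟨h1, h2⟩ e
    exact (smv_iff0 hm h1 _).2 (h2 e)

private theorem smv_sum_mul {J : Type*} (s : Finset J) (g : J → M k) (a : M k) :
    (∑ j ∈ s, g j) * a = ∑ j ∈ s, g j * a := Finset.sum_mul s g a

private theorem smv_mul_sum {J : Type*} (s : Finset J) (g : J → M k) (a : M k) :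
    a * (∑ j ∈ s, g j) = ∑ j ∈ s, a * g j := Finset.mul_sum s g a

omit [Finite σ] in
/-- an arc is determined by its other coordinates and its values in `P` -/
private theorem smv_inj {P : MvPolynomial σ k} {j : σ} {d : ℕ} {φ ψ : σ × Fin (d + 1) → ℂ}
    (h0 : org φ = org ψ) (hj : aeval (org φ) (pderiv j P) ≠ 0)
    (h1 : ∀ i ≠ j, ∀ l, φ (i, l) = ψ (i, l))
    (h2 : ∀ l, l ≤ d → PowerSeries.coeff l (arcEval k φ P) = PowerSeries.coeff l (arcEval k ψ P)) :
    φ = ψ := by
  classical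
  have key : ∀ (l : ℕ) (hl : l < d + 1), φ (j, ⟨l, hl⟩) = ψ (j, ⟨l, hl⟩) := by
    intro l
    induction l using Nat.strong_induction_on with
    | _ l ih =>
      intro hl
      rcases Nat.eq_zero_or_pos l with rfl | hl0
      · exact congrFun h0 j
      have h3 := (coeff_arcEval_add hl0 hl P φ j (ψ (j, ⟨l, hl⟩) - φ (j, ⟨l, hl⟩))).2
      rw [h2 l (by omega), add_sub_cancel] at h3
      have h4 : PowerSeries.coeff l (arcEval k
          (Function.update φ (j, ⟨l, hl⟩) (ψ (j, ⟨l, hl⟩))) P) =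
          PowerSeries.coeff l (arcEval k ψ P) := by
        refine coeff_arcEval_congr P _ _ (l + 1) ?_ (Nat.lt_succ_self l)
        intro i l' hl'
        rw [coeff_arc, coeff_arc, dif_pos (by omega), dif_pos (by omega)]
        by_cases hi : i = j
        · subst hi
          by_cases hll : l' = l
          · subst hll
            rw [Function.update_self]
          · rw [Function.update_of_ne]
            · exact ih l' (by omega) _
            · intro h
              have := congrArg (fun p => (p.2 : ℕ)) h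
              exact hll this
        · rw [Function.update_of_ne]
          · exact h1 i hi _
          · intro h
            exact hi (congrArg Prod.fst h)
      rw [h4] at h3
      have h5 : (ψ (j, ⟨l, hl⟩) - φ (j, ⟨l, hl⟩)) * aeval (org φ) (pderiv j P) = 0 := by
        linear_combination -h3
      rcases mul_eq_zero.1 h5 with h6 | h6
      · exact (sub_eq_zero.1 h6).symm
      · exact absurd h6 hj
  funext p
  obtain ⟨i, l, hl⟩ := p
  by_cases hi : i = j
  · subst hi
    exact key l hl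
  · exact h1 i hi _

omit [Finite σ] in
/-- existence of arcs with given values in `P` -/
private theorem smv_surj {P : MvPolynomial σ k} {j : σ} {d : ℕ} (φ : σ × Fin (d + 1) → ℂ)
    (hj : aeval (org φ) (pderiv j P) ≠ 0) (a : ℕ → ℂ) (n : ℕ) (hn : n ≤ d) :
    ∃ ψ : σ × Fin (d + 1) → ℂ, org ψ = org φ ∧ (∀ i ≠ j, ∀ l, ψ (i, l) = φ (i, l)) ∧
      ∀ l, 0 < l → l ≤ n → PowerSeries.coeff l (arcEval k ψ P) = a l := by
  classical
  induction n with
  | zero => exact ⟨φ, rfl, fun _ _ _ => rfl, fun l h1 h2 => by omega⟩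
  | succ n ih =>
    obtain ⟨ψ, h1, h2, h3⟩ := ih (by omega)
    have hl : n + 1 < d + 1 := by omega
    obtain ⟨ε, hε⟩ : ∃ ε : ℂ, ε = (a (n + 1) - PowerSeries.coeff (n + 1) (arcEval k ψ P)) /
      aeval (org φ) (pderiv j P) := ⟨_, rfl⟩
    have h4 := coeff_arcEval_add (Nat.succ_pos n) hl P ψ j ε
    refine ⟨Function.update ψ (j, ⟨n + 1, hl⟩) (ψ (j, ⟨n + 1, hl⟩) + ε), ?_, ?_, ?_⟩
    · funext i
      have h5 : Function.update ψ (j, ⟨n + 1, hl⟩) (ψ (j, ⟨n + 1, hl⟩) + ε) (i, 0) = ψ (i, 0) := by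
        rw [Function.update_of_ne]
        intro h
        have := congrArg (fun p => (p.2 : ℕ)) h
        have h6 : (0 : ℕ) = n + 1 := this
        omega
      exact h5.trans (congrFun h1 i)
    · intro i hi l
      rw [Function.update_of_ne, h2 i hi l]
      intro h
      exact hi (congrArg Prod.fst h)
    · intro l hl0 hl1
      by_cases hln : l = n + 1
      · subst hln
        rw [h4.2, h1, hε, div_mul_cancel₀ _ hj, add_sub_cancel]
      · rw [h4.1 l (by omega)]
        exact h3 l hl0 (by omega)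

private theorem smv_card (j : σ) (d l0 : ℕ) (h : l0 ≤ d) :
    Nat.card ({i : σ // i ≠ j} × Fin d) + Nat.card (Fin (d - l0)) = Nat.card σ * d - l0 := by
  classical
  have h1 : Nat.card σ = Nat.card {i : σ // i = j} + Nat.card {i : σ // i ≠ j} := by
    rw [← Nat.card_sum]
    exact (Nat.card_congr (Equiv.sumCompl (fun i => i = j))).symm
  have h2 : Nat.card {i : σ // i = j} = 1 := by
    rw [Nat.card_eq_one_iff_unique]
    exact ⟨⟨fun a b => Subtype.ext (a.2.trans b.2.symm)⟩, ⟨⟨j, rfl⟩⟩⟩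
  rw [Nat.card_prod, Nat.card_fin, Nat.card_fin, h1, h2, add_mul, one_mul]
  omega

/-- the class of a set of arcs given by the values in `P` -/
private theorem smv_class {E : Type} [Aff E] {P : MvPolynomial σ k} {j : σ} {d l0 : ℕ}
    (hl0 : 0 < l0) (hd : l0 ≤ d)
    {B : Set (((σ → ℂ) × ℂ) × E)} (hB : ICons k B)
    (h : ∀ y ∈ B, aeval y.1.1 P = 0 ∧ aeval y.1.1 (pderiv j P) ≠ 0) :
    mo k {x : (σ × Fin (d + 1) → ℂ) × E |
      (∀ l, l < l0 → PowerSeries.coeff l (arcEval k x.1 P) = 0) ∧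
        ((org x.1, PowerSeries.coeff l0 (arcEval k x.1 P)), x.2) ∈ B} =
      ↑(Lu k ^ ((Nat.card σ * d - l0 : ℕ) : ℤ)) * mo k B := by
  classical
  have hcf : ∀ l, PFun k (fun x : (σ × Fin (d + 1) → ℂ) × E =>
      PowerSeries.coeff l (arcEval k x.1 P)) := fun l => PFun.coeff_arcEval l P PMap.fst
  have horg : PMap k (fun x : (σ × Fin (d + 1) → ℂ) × E => org x.1) :=
    PMap.comp (f := fun φ : σ × Fin (d + 1) → ℂ => Mono.org φ) PMap.org PMap.fst
  have hbase : PMap k (fun x : (σ × Fin (d + 1) → ℂ) × E =>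
      ((org x.1, PowerSeries.coeff l0 (arcEval k x.1 P)), x.2)) :=
    (horg.prodMk (PMap.of_pFun (hcf l0))).prodMk PMap.snd
  have hA : ICons k {x : (σ × Fin (d + 1) → ℂ) × E |
      (∀ l, l < l0 → PowerSeries.coeff l (arcEval k x.1 P) = 0) ∧
        ((org x.1, PowerSeries.coeff l0 (arcEval k x.1 P)), x.2) ∈ B} :=
    ICons.and (ICons.forall_lt l0 fun l => ICons.eq (hcf l) PFun.zero) (hB.mem hbase)
  have hU : ICons k {y : ({i : σ // i ≠ j} × Fin d → ℂ) × (Fin (d - l0) → ℂ) |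
      y.1 ∈ (Set.univ : Set ({i : σ // i ≠ j} × Fin d → ℂ)) ∧
      y.2 ∈ (Set.univ : Set (Fin (d - l0) → ℂ))} := ICons.prod ICons.univ ICons.univ
  have hC := ICons.prod hB hU
  have hf : PMap k (fun x : (σ × Fin (d + 1) → ℂ) × E =>
      (((org x.1, PowerSeries.coeff l0 (arcEval k x.1 P)), x.2),
        ((fun p : {i : σ // i ≠ j} × Fin d => x.1 (p.1.1, ⟨p.2 + 1, by omega⟩)),
          fun l : Fin (d - l0) => PowerSeries.coeff (l0 + 1 + l) (arcEval k x.1 P)))) := by
    refine hbase.prodMk (PMap.prodMk (PMap.pi fun p => ?_) (PMap.pi fun l => hcf _))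
    exact (PFun.apply (k := k) ((p.1.1, ⟨p.2 + 1, by omega⟩) : σ × Fin (d + 1))).comp PMap.fst
  rw [mo_bij hA hC hf ⟨?_, ?_, ?_⟩, mo_prod hB hU, mo_prod ICons.univ ICons.univ, mo_univ_pi,
    mo_univ_pi, mul_comm, ← Units.val_mul, ← zpow_add, ← smv_card j d l0 hd]
  · push_cast
    rfl
  · rintro x ⟨-, hx⟩
    exact ⟨hx, Set.mem_univ _, Set.mem_univ _⟩
  · rintro ⟨φ, w⟩ ⟨hx1, hx2⟩ ⟨ψ, v⟩ ⟨hy1, hy2⟩ hxy
    simp only [Prod.mk.injEq] at hxy
    obtain ⟨⟨⟨h1, h2⟩, h3⟩, h4, h5⟩ := hxy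
    simp only at hx1 hx2 hy1 hy2
    refine Prod.ext ?_ h3
    refine smv_inj h1 (h _ hx2).2 ?_ ?_
    · intro i hi l
      obtain ⟨l, hl⟩ := l
      rcases Nat.eq_zero_or_pos l with rfl | hl0'
      · exact congrFun h1 i
      · have h6 := congrFun h4 (⟨i, hi⟩, ⟨l - 1, by omega⟩)
        have h7 : (⟨l - 1 + 1, by omega⟩ : Fin (d + 1)) = ⟨l, hl⟩ := by
          simp only [Fin.mk.injEq]; omega
        simp only [h7] at h6
        exact h6
    · intro l hl
      rcases lt_trichotomy l l0 with h6 | h6 | h6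
      · rw [hx1 l h6, hy1 l h6]
      · rw [h6]; exact h2
      · have h7 := congrFun h5 ⟨l - (l0 + 1), by omega⟩
        have h8 : l0 + 1 + (l - (l0 + 1)) = l := by omega
        simp only [h8] at h7
        exact h7
  · rintro ⟨⟨⟨p, β⟩, w⟩, χ, ξ⟩ ⟨hy, -⟩
    simp only at hy
    have hp := h _ hy
    simp only at hp
    let φ0 : σ × Fin (d + 1) → ℂ := fun q =>
      if h0 : (q.2 : ℕ) = 0 then p q.1 else
        if hq : q.1 ≠ j then χ (⟨q.1, hq⟩, ⟨q.2 - 1, by have := q.2.2; omega⟩) else 0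
    have ho : org φ0 = p := by
      funext i
      simp [org, φ0]
    obtain ⟨ψ, h1, h2, h3⟩ := smv_surj (k := k) (P := P) (j := j) φ0 (by rw [ho]; exact hp.2)
      (fun l => if l < l0 then 0 else if l = l0 then β else
        if h4 : l - (l0 + 1) < d - l0 then ξ ⟨l - (l0 + 1), h4⟩ else 0) d le_rfl
    have h4 : org ψ = p := h1.trans ho
    have h5 : PowerSeries.coeff l0 (arcEval k ψ P) = β := by
      rw [h3 l0 hl0 hd]
      simp
    refine ⟨(ψ, w), ⟨?_, ?_⟩, ?_⟩
    · intro l hl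
      rcases Nat.eq_zero_or_pos l with rfl | hl1
      · simp only
        rw [coeff_zero_arcEval, h4]
        exact hp.1
      · simp only
        rw [h3 l hl1 (by omega), if_pos hl]
    · simp only
      rw [h4, h5]
      exact hy
    · simp only [Prod.mk.injEq]
      refine ⟨⟨⟨h4, h5⟩, trivial⟩, ?_, ?_⟩
      · funext q
        obtain ⟨⟨i, hi⟩, l⟩ := q
        rw [h2 i hi]
        simp [φ0, hi]
      · funext l
        have hl := l.2
        rw [h3 _ (by omega) (by omega), if_neg (by omega), if_neg (by omega)]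
        have h6 : l0 + 1 + (l : ℕ) - (l0 + 1) = l := by omega
        rw [dif_pos (by omega)]
        congr 1
        exact Fin.ext h6

private theorem smv_ceil {m : ℕ} (hm : 0 < m) (d : ℕ) (hd : 0 < d) :
    (d + m + m - 1) / m = (d + m - 1) / m + 1 := by
  have : d + m + m - 1 = (d + m - 1) + m := by omega
  rw [this, Nat.add_div_right _ hm]


private theorem smv_ite {t : Test k} {c : t.E → ℂ} (hc : PFun k c) {r d : ℕ}
    (e' : Fin (r + 1)) : PFun k (fun x : (σ × Fin (d + 1) → ℂ) × t.E =>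
      if e' = 0 then c x.2 else 0) := by
  by_cases he : e' = 0
  · simp only [he, if_true]
    exact hc.comp PMap.snd
  · simp only [he, if_false]
    exact PFun.zero

private theorem smv_gen {r : ℕ} {F : Fin (r + 1) → MvPolynomial σ k} {P : MvPolynomial σ k}
    {Q : Fin (r + 1) → MvPolynomial σ k} {m : ℕ} (hm : 0 < m)
    (hF : ∀ e, F e = P ^ m * Q e) {Z : Set (σ → ℂ)} (hZ : ICons k Z)
    (h : ∀ x ∈ Z, aeval x P = 0 ∧ (∃ e, aeval x (Q e) ≠ 0) ∧ ∃ j, aeval x (pderiv j P) ≠ 0) :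
    RatF (Lu k) {(-1, m)} (fun t : Test k => PowerSeries.mk fun d =>
      if d = 0 then 0 else
        (mo k {x : (σ × Fin (d + 1) → ℂ) × t.E | x.2 ∈ t.W ∧ org x.1 ∈ Z ∧
            Htv F d x.1 (t.c x.2)} -
          mo k {x : (σ × Fin (d + 1) → ℂ) × t.E | x.2 ∈ t.W ∧ org x.1 ∈ Z ∧ Htv F d x.1 0}) *
        ↑(Lu k ^ (-((Nat.card σ * d : ℕ) : ℤ)))) := by
  classical
  obtain ⟨n, ⟨e⟩⟩ := Finite.exists_equiv_fin σ
  -- the strata
  let S : Fin n → Set (σ → ℂ) := fun j => {p | p ∈ Z ∧ aeval p (pderiv (e.symm j) P) ≠ 0 ∧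
    ∀ j', j' < j → aeval p (pderiv (e.symm j') P) = 0}
  have hpd : ∀ G : MvPolynomial σ k, PFun k (fun p : σ → ℂ => aeval p G) :=
    fun G => ⟨G, fun _ => rfl⟩
  have hSc : ∀ j, ICons k (S j) := by
    intro j
    refine ICons.and hZ (ICons.and (ICons.ne (hpd _) PFun.zero)
      (ICons.forall_fin fun j' => ?_))
    by_cases h : j' < j
    · have e1 : {x : σ → ℂ | j' < j → aeval x (pderiv (e.symm j') P) = 0} =
          {x : σ → ℂ | aeval x (pderiv (e.symm j') P) = 0} := by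
        ext x; simp [h]
      rw [e1]
      exact ICons.eq (hpd _) PFun.zero
    · have e1 : {x : σ → ℂ | j' < j → aeval x (pderiv (e.symm j') P) = 0} = Set.univ := by
        ext x; simp [h]
      rw [e1]
      exact ICons.univ
  have hSe : ∀ p : σ → ℂ, p ∈ Z ↔ ∃ j ∈ (Finset.univ : Finset (Fin n)), p ∈ S j := by
    intro p
    constructor
    · intro h1
      obtain ⟨-, -, i, hi⟩ := h p h1
      let s : Finset (Fin n) := Finset.univ.filter fun j => aeval p (pderiv (e.symm j) P) ≠ 0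
      have hs : s.Nonempty := ⟨e i, Finset.mem_filter.2 ⟨Finset.mem_univ _, by
        rw [Equiv.symm_apply_apply]; exact hi⟩⟩
      refine ⟨s.min' hs, Finset.mem_univ _, h1, (Finset.mem_filter.1 (s.min'_mem hs)).2,
        fun j hj => ?_⟩
      by_contra hne
      have : s.min' hs ≤ j := s.min'_le j (Finset.mem_filter.2 ⟨Finset.mem_univ _, hne⟩)
      exact absurd hj (not_lt.2 this)
    · rintro ⟨j, -, h1, -, -⟩
      exact h1
  have hSu : ∀ p : σ → ℂ, ∀ i j : Fin n, p ∈ S i → p ∈ S j → i = j := by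
    intro p i j hi hj
    rcases lt_trichotomy i j with h | h | h
    · exact absurd (hj.2.2 i h) hi.2.1
    · exact h
    · exact absurd (hi.2.2 j h) hj.2.1
  -- the base sets
  let B : Fin n → Prop → (t : Test k) → (t.E → ℂ) → Set (((σ → ℂ) × ℂ) × t.E) :=
    fun j pr t c => {y | y.2 ∈ t.W ∧ y.1.1 ∈ S j ∧
      ∀ e', ((pr → y.1.2 ^ m * aeval y.1.1 (Q e') = (if e' = 0 then c y.2 else 0)) ∧
        (¬ pr → (if e' = 0 then c y.2 else 0) = (0 : ℂ)))}
  have hBc : ∀ j pr (t : Test k) (c : t.E → ℂ), PFun k c → ICons k (B j pr t c) := by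
    intro j pr t c hc
    refine ICons.and (t.cW.mem PMap.snd) (ICons.and ((hSc j).mem (PMap.fst.comp PMap.fst))
      (ICons.forall_fin fun e' => ?_))
    have hc' : PFun k (fun y : ((σ → ℂ) × ℂ) × t.E => if e' = 0 then c y.2 else 0) := by
      by_cases he : e' = 0
      · simp only [he, if_true]
        exact hc.comp PMap.snd
      · simp only [he, if_false]
        exact PFun.zero
    by_cases hp : pr
    · simp only [hp, true_imp_iff, not_true_eq_false, false_imp_iff, and_true]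
      refine ICons.eq (PFun.mul (PFun.pow ?_ m) ?_) hc'
      · exact PFun.comp (f := fun x : ℂ => x) PFun.id' (PMap.snd.comp PMap.fst)
      · exact PFun.comp (f := fun p : σ → ℂ => aeval p (Q e')) (hpd (Q e'))
          (PMap.fst.comp PMap.fst)
    · simp only [hp, true_imp_iff, not_false_eq_true, false_imp_iff, true_and]
      exact ICons.eq hc' PFun.zero
  have hcls : ∀ (d : ℕ), 0 < d → ∀ (t : Test k) (c : t.E → ℂ), PFun k c →
      mo k {x : (σ × Fin (d + 1) → ℂ) × t.E | x.2 ∈ t.W ∧ org x.1 ∈ Z ∧ Htv F d x.1 (c x.2)} *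
        ↑(Lu k ^ (-((Nat.card σ * d : ℕ) : ℤ))) =
      ↑(Lu k ^ (-(((d + m - 1) / m : ℕ) : ℤ))) *
        ∑ j ∈ (Finset.univ : Finset (Fin n)), mo k (B j (m ∣ d) t c) := by
    intro d hd t c hc
    have hl0 : 0 < (d + m - 1) / m := Nat.div_pos (by omega) hm
    have hld : (d + m - 1) / m ≤ d := by
      refine Nat.div_le_of_le_mul ?_
      obtain ⟨m', rfl⟩ : ∃ m', m = m' + 1 := ⟨m - 1, by omega⟩
      obtain ⟨d', rfl⟩ : ∃ d', d = d' + 1 := ⟨d - 1, by omega⟩
      have : (m' + 1) * (d' + 1) = m' * d' + m' + d' + 1 := by ring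
      omega
    have hcc : ∀ j, ICons k {x : (σ × Fin (d + 1) → ℂ) × t.E |
        x.2 ∈ t.W ∧ org x.1 ∈ S j ∧ Htv F d x.1 (c x.2)} := by
      intro j
      exact (t.cW.mem PMap.snd).and (((hSc j).mem
        (PMap.comp (f := fun φ : σ × Fin (d + 1) → ℂ => Mono.org φ) PMap.org PMap.fst)).and
          (ICons.forall_fin fun e' => ICons.hit d (F e') PMap.fst (smv_ite hc e')))
    have h1 : mo k {x : (σ × Fin (d + 1) → ℂ) × t.E |
        x.2 ∈ t.W ∧ org x.1 ∈ Z ∧ Htv F d x.1 (c x.2)} =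
        ∑ j ∈ (Finset.univ : Finset (Fin n)), mo k {x : (σ × Fin (d + 1) → ℂ) × t.E |
        x.2 ∈ t.W ∧ org x.1 ∈ S j ∧ Htv F d x.1 (c x.2)} := by
      rw [← mo_biUnion]
      · congr 1
        ext x
        constructor
        · rintro ⟨h1, h2, h4⟩
          obtain ⟨j, hj, hj2⟩ := (hSe _).1 h2
          exact ⟨j, hj, h1, hj2, h4⟩
        · rintro ⟨j, hj, h1, h2, h4⟩
          exact ⟨h1, (hSe _).2 ⟨j, hj, h2⟩, h4⟩
      · exact fun j _ => hcc j
      · intro i _ j _ hij
        rw [Set.disjoint_left]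
        rintro x ⟨-, h1, -⟩ ⟨-, h2, -⟩
        exact hij (hSu _ i j h1 h2)
    have h2 : ∀ j, mo k {x : (σ × Fin (d + 1) → ℂ) × t.E |
        x.2 ∈ t.W ∧ org x.1 ∈ S j ∧ Htv F d x.1 (c x.2)} =
        ↑(Lu k ^ ((Nat.card σ * d - (d + m - 1) / m : ℕ) : ℤ)) * mo k (B j (m ∣ d) t c) := by
      intro j
      rw [← smv_class (P := P) (j := e.symm j) hl0 hld (hBc j (m ∣ d) t c hc) ?_]
      · congr 1
        ext x
        have key : org x.1 ∈ S j → (Htv F d x.1 (c x.2) ↔
            (∀ l, l < (d + m - 1) / m → PowerSeries.coeff l (arcEval k x.1 P) = 0) ∧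
            ∀ e', ((m ∣ d → PowerSeries.coeff ((d + m - 1) / m) (arcEval k x.1 P) ^ m *
              aeval (org x.1) (Q e') = (if e' = 0 then c x.2 else 0)) ∧
                (¬ m ∣ d → (if e' = 0 then c x.2 else 0) = (0 : ℂ)))) := by
          intro hx
          have h3 : ∃ e', PowerSeries.coeff 0 (arcEval k x.1 (Q e')) ≠ 0 := by
            obtain ⟨e', he'⟩ := (h _ hx.1).2.1
            refine ⟨e', ?_⟩
            rw [coeff_zero_arcEval]
            exact he'
          have h4 := smv_iff (A := arcEval k x.1 P) (B := fun e' => arcEval k x.1 (Q e'))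
            (d := d) hm h3 (c x.2)
          simp only [coeff_zero_arcEval] at h4
          rw [← h4]
          have h5 : ∀ e', arcEval k x.1 (F e') = arcEval k x.1 P ^ m * arcEval k x.1 (Q e') := by
            intro e'
            unfold arcEval
            rw [hF, map_mul, map_pow]
          unfold Htv Hit
          simp only [h5]
        constructor
        · rintro ⟨a1, a2, a3⟩
          obtain ⟨a4, a5⟩ := (key a2).1 a3
          exact ⟨a4, a1, a2, a5⟩
        · rintro ⟨a4, a1, a2, a5⟩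
          exact ⟨a1, a2, (key a2).2 ⟨a4, a5⟩⟩
      · rintro y ⟨-, hy, -⟩
        exact ⟨(h _ hy.1).1, hy.2.1⟩
    rw [h1, smv_sum_mul, smv_mul_sum]
    refine Finset.sum_congr rfl fun j _ => ?_
    have h0 : 0 < Nat.card σ := by
      have : Nonempty σ := ⟨e.symm j⟩
      exact Nat.card_pos
    have h00 : d ≤ Nat.card σ * d := Nat.le_mul_of_pos_left d h0
    rw [h2 j, mul_right_comm, ← Units.val_mul, ← zpow_add]
    congr 3
    rw [Nat.cast_sub (hld.trans h00)]
    ring
  -- periodicity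
  have hper : ∀ (t : Test k) (d : ℕ), 1 ≤ d → PowerSeries.coeff (d + m)
      ((fun t : Test k => PowerSeries.mk fun d =>
    if d = 0 then 0 else
      (mo k {x : (σ × Fin (d + 1) → ℂ) × t.E | x.2 ∈ t.W ∧ org x.1 ∈ Z ∧
          Htv F d x.1 (t.c x.2)} -
        mo k {x : (σ × Fin (d + 1) → ℂ) × t.E | x.2 ∈ t.W ∧ org x.1 ∈ Z ∧ Htv F d x.1 0}) *
      (↑(Lu k ^ (-((Nat.card σ * d : ℕ) : ℤ))) : M k)) t) =
      ↑(Lu k ^ (-1 : ℤ)) * PowerSeries.coeff d ((fun t : Test k => PowerSeries.mk fun d =>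
    if d = 0 then 0 else
      (mo k {x : (σ × Fin (d + 1) → ℂ) × t.E | x.2 ∈ t.W ∧ org x.1 ∈ Z ∧
          Htv F d x.1 (t.c x.2)} -
        mo k {x : (σ × Fin (d + 1) → ℂ) × t.E | x.2 ∈ t.W ∧ org x.1 ∈ Z ∧ Htv F d x.1 0}) *
      (↑(Lu k ^ (-((Nat.card σ * d : ℕ) : ℤ))) : M k)) t) := by
    intro t d hd
    simp only [PowerSeries.coeff_mk]
    rw [if_neg (by omega), if_neg (by omega), sub_mul, sub_mul,
      hcls (d + m) (by omega) t t.c t.pf, hcls (d + m) (by omega) t (fun _ => 0) PFun.zero,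
      hcls d hd t t.c t.pf, hcls d hd t (fun _ => 0) PFun.zero, smv_ceil hm d hd]
    have h1 : (m ∣ d + m) = (m ∣ d) := by
      rw [Nat.dvd_add_self_right]
    rw [h1, ← mul_sub, ← mul_sub, ← mul_assoc, ← Units.val_mul, ← zpow_add]
    congr 3
    push_cast
    ring
  refine ⟨{(-1, m)}, fun x hx => by simpa using hx, m + 1, fun t n hn => ?_⟩
  obtain ⟨d, rfl⟩ : ∃ d, n = d + m := ⟨n - m, by omega⟩
  rw [Multiset.map_singleton, Multiset.prod_singleton]
  unfold den'
  rw [sub_mul, one_mul, map_sub, mul_assoc, PowerSeries.coeff_C_mul,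
    PowerSeries.coeff_X_pow_mul', if_pos (by omega), hper t d (by omega),
    Nat.add_sub_cancel, sub_self]


end SMV0

section SMV

variable {k : Type} [Field k] [Algebra k ℂ] {r : ℕ}

theorem smv_rat {F : Fin (r + 1) → MvPolynomial (Fin 2) k} {P : MvPolynomial (Fin 2) k}
    {Q : Fin (r + 1) → MvPolynomial (Fin 2) k} {m : ℕ} (hm : 0 < m)
    (hF : ∀ e, F e = P ^ m * Q e) {Z : Set (Fin 2 → ℂ)} (hZ : ICons k Z)
    (h : ∀ x ∈ Z, aeval x P = 0 ∧ (∃ e, aeval x (Q e) ≠ 0) ∧ ∃ j, aeval x (pderiv j P) ≠ 0) :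
    RatF (Lu k) {(-1, m)} (fun t : Test k => PowerSeries.mk fun d =>
      if d = 0 then 0 else
        (mo k {x : (Fin 2 × Fin (d + 1) → ℂ) × t.E | x.2 ∈ t.W ∧ org x.1 ∈ Z ∧
            Htv F d x.1 (t.c x.2)} -
          mo k {x : (Fin 2 × Fin (d + 1) → ℂ) × t.E | x.2 ∈ t.W ∧ org x.1 ∈ Z ∧ Htv F d x.1 0}) *
        ↑(Lu k ^ (-((Nat.card (Fin 2) * d : ℕ) : ℤ)))) :=
  smv_gen hm hF hZ h

end SMV

end Pool.Agent.H75.Mono
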