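import Pool.Agent.H75.Idl.STV
import Pool.Agent.H75.Idl.SMV
import Pool.Agent.H75.Plc.EV1

/-! # LIY, module GLV: global decomposition -/

set_option autoImplicit false

namespace Pool.Agent.H75.Mono

open MvPolynomial Pool.Agent.H39.MonoR

section GLV

private theorem glv_alg {R : Type*} [CommRing R] {J J' : Type*} (s : Finset J) (s' : Finset J')
    (f : J → R) (g : J' → R) (w : R) :
    (∑ j ∈ s, f j + ∑ j ∈ s', g j) * w = ∑ j ∈ s, f j * w + ∑ j ∈ s', g j * w := by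
  rw [add_mul, Finset.sum_mul, Finset.sum_mul]

private theorem glv_alg2 {R : Type*} [CommRing R] {J J' : Type*} (s : Finset J) (s' : Finset J')
    (f f' : J → R) (g g' : J' → R) (w : R) :
    ∑ j ∈ s, (f j - f' j) + ∑ j ∈ s', (g j - g' j) * w =
    (∑ j ∈ s, f j + ∑ j ∈ s', g j * w) - (∑ j ∈ s, f' j + ∑ j ∈ s', g' j * w) := by
  simp only [Finset.sum_sub_distrib, sub_mul]
  ring

private theorem glv_fsum {R : Type*} [CommRing R] {u : Rˣ} {S : Set (ℤ × ℕ)} {T J : Type*}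
    (s : Finset J) {F : J → T → PowerSeries R} (h : ∀ j ∈ s, RatF u S (F j)) :
    RatF u S fun t => ∑ j ∈ s, F j t := by
  classical
  induction s using Finset.induction_on with
  | empty =>
    refine (RatF.of_fin 0 fun t n _ => ?_ : RatF u ∅ _).mono (Set.empty_subset _)
    simp
  | insert a s ha ih =>
    have h1 := (h a (Finset.mem_insert_self a s)).add
      (ih fun j hj => h j (Finset.mem_insert_of_mem hj))
    rw [Set.union_self] at h1
    refine h1.congr fun t => ?_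
    rw [Finset.sum_insert ha]

variable {k : Type} [Field k] [Algebra k ℂ]

/-- the point `P` -/
private def glvPt (P : Fin 2 → k) : Set (Fin 2 → ℂ) := {x | ∀ i, x i = algebraMap k ℂ (P i)}

private theorem glv_pt_cons (P : Fin 2 → k) : ICons k (glvPt P) :=
  ICons.forall_fin fun i => ICons.eq (PFun.apply i) (PFun.const (P i))

private theorem glv_arc {P : Fin 2 → k} {d : ℕ} {φ ψ : Fin 2 × Fin (d + 1) → ℂ}
    (h : ∀ p, φ p = ψ p + if p.2 = 0 then algebraMap k ℂ (P p.1) else 0) (i : Fin 2) :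
    arc φ i = arc ψ i + PowerSeries.C (algebraMap k ℂ (P i)) := by
  ext l
  rw [map_add, coeff_arc, coeff_arc, PowerSeries.coeff_C]
  by_cases hl : l < d + 1
  · rw [dif_pos hl, dif_pos hl, h]
    by_cases h0 : l = 0
    · subst h0
      simp
    · rw [if_neg h0, if_neg]
      intro h1
      exact h0 (by simpa using congrArg Fin.val h1)
  · rw [dif_neg hl, dif_neg hl, if_neg (by omega), add_zero]

private theorem glv_hit (F : MvPolynomial (Fin 2) k) {P : Fin 2 → k} {d : ℕ}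
    {φ ψ : Fin 2 × Fin (d + 1) → ℂ}
    (h : ∀ p, φ p = ψ p + if p.2 = 0 then algebraMap k ℂ (P p.1) else 0) (ho : org ψ = 0)
    (c : ℂ) : Hit F d φ c ↔ Hit (tp d (tay F P)) d ψ c := by
  have hcc : ∀ i, PowerSeries.constantCoeff (arc ψ i) = 0 := by
    intro i
    rw [← PowerSeries.coeff_zero_eq_constantCoeff_apply, coeff_arc, dif_pos (Nat.succ_pos d)]
    exact congrFun ho i
  have h1 := hit_ev 0 (tay F P) ψ ho c
  rw [pow_zero, one_mul] at h1
  have e1 : arc φ = fun i => aeval (arc ψ) (X i + C (P i) : MvPolynomial (Fin 2) k) := by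
    funext i
    rw [glv_arc h, map_add, aeval_X, aeval_C, PowerSeries.algebraMap_apply]
  have e2 : (![arc ψ 0, arc ψ 1] : Fin 2 → PowerSeries ℂ) = arc ψ := by
    funext i
    fin_cases i <;> rfl
  have e3 : arcEval k φ F = arc ψ 0 ^ 0 * ev (tay F P) (arc ψ 0) (arc ψ 1) := by
    rw [pow_zero, one_mul, tay, ev_coe (hcc 0) (hcc 1), e2, arcEval, e1, comp_aeval_apply]
  rw [h1, Hit, e3]

private theorem glv_icons {r : ℕ} (f : Fin (r + 1) → MvPolynomial (Fin 2) k) (d : ℕ)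
    (t : Test k) : ICons k {x : (Fin 2 × Fin (d + 1) → ℂ) × t.E | Htv f d x.1 (t.c x.2)} := by
  unfold Htv
  refine ICons.forall_fin fun e => ICons.hit d _ PMap.fst ?_
  by_cases he : e = 0
  · simpa only [if_pos he] using t.pf.comp PMap.snd
  · simpa only [if_neg he] using PFun.zero

/-- arcs which start at `P` -/
private theorem glv_loc {r : ℕ} (F : Fin (r + 1) → MvPolynomial (Fin 2) k) (P : Fin 2 → k) (d : ℕ)
    (t : Test k) :
    mo k {x : (Fin 2 × Fin (d + 1) → ℂ) × t.E | x.2 ∈ t.W ∧ org x.1 ∈ glvPt P ∧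
      Htv F d x.1 (t.c x.2)} * ↑(Lu k ^ (-((Nat.card (Fin 2) * d : ℕ) : ℤ))) =
      lcv (tav F P) d t := by
  rw [lcv, Nat.card_fin]
  congr 1
  have horg : PMap k (fun x : (Fin 2 × Fin (d + 1) → ℂ) × t.E => org x.1) :=
    PMap.comp (f := fun φ : Fin 2 × Fin (d + 1) → ℂ => Mono.org φ) PMap.org PMap.fst
  have hA : ICons k {x : (Fin 2 × Fin (d + 1) → ℂ) × t.E | x.2 ∈ t.W ∧ org x.1 ∈ glvPt P ∧
      Htv F d x.1 (t.c x.2)} :=
    (t.cW.mem PMap.snd).and (((glv_pt_cons P).mem horg).and (glv_icons F d t))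
  have h0 : ICons k {x : Fin 2 → ℂ | x = 0} := by
    have e : {x : Fin 2 → ℂ | x = 0} = {x : Fin 2 → ℂ | ∀ i, x i = 0} := by
      ext x
      exact ⟨fun h i => congrFun h i, fun h => funext h⟩
    rw [e]
    exact ICons.forall_fin fun i => ICons.eq (PFun.apply i) PFun.zero
  have hB : ICons k {x : (Fin 2 × Fin (d + 1) → ℂ) × t.E | x.2 ∈ t.W ∧ org x.1 = 0 ∧
      Htv (fun e => tp d (tav F P e)) d x.1 (t.c x.2)} :=
    (t.cW.mem PMap.snd).and ((h0.mem horg).and (glv_icons _ d t))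
  have hf : PMap k (fun x : (Fin 2 × Fin (d + 1) → ℂ) × t.E =>
      ((fun p => x.1 p - if p.2 = 0 then algebraMap k ℂ (P p.1) else 0 :
        Fin 2 × Fin (d + 1) → ℂ), x.2)) := by
    refine PMap.prodMk (PMap.pi fun p => PFun.sub ?_ ?_) PMap.snd
    · exact PFun.comp (f := fun φ : Fin 2 × Fin (d + 1) → ℂ => φ p) (PFun.apply p) PMap.fst
    · by_cases hp : p.2 = 0
      · simp only [if_pos hp]
        exact PFun.const _
      · simp only [if_neg hp]
        exact PFun.zero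
  refine mo_bij hA hB hf ⟨?_, ?_, ?_⟩
  · rintro ⟨φ, w⟩ ⟨h1, h2, h3⟩
    simp only at h1 h2 h3
    have h4 : org (fun p => φ p - if p.2 = 0 then algebraMap k ℂ (P p.1) else 0 :
        Fin 2 × Fin (d + 1) → ℂ) = 0 := by
      funext i
      have := h2 i
      simp only [org] at this ⊢
      rw [this]
      simp
    exact ⟨h1, h4, fun e => (glv_hit (F e) (fun p => (sub_add_cancel _ _).symm) h4 _).1 (h3 e)⟩
  · rintro ⟨φ, w⟩ _ ⟨φ', w'⟩ _ h
    simp only [Prod.mk.injEq] at h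
    refine Prod.ext (funext fun p => ?_) h.2
    exact sub_left_injective (congrFun h.1 p)
  · rintro ⟨ψ, w⟩ ⟨h1, h2, h3⟩
    simp only at h1 h2 h3
    refine ⟨(fun p => ψ p + if p.2 = 0 then algebraMap k ℂ (P p.1) else 0, w),
      ⟨h1, ?_, fun e => (glv_hit (F e) (fun p => rfl) h2 _).2 (h3 e)⟩, ?_⟩
    · intro i
      have := congrFun h2 i
      simp only [org] at this ⊢
      rw [this]
      simp
    · simp only [add_sub_cancel_right]

variable [IsAlgClosed k] {r : ℕ}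

theorem ztv_local {F : Fin (r + 1) → MvPolynomial (Fin 2) k} {Sg : Finset (Fin 2 → k)} {n : ℕ}
    {Pf : Fin n → MvPolynomial (Fin 2) k} {Qf : Fin n → Fin (r + 1) → MvPolynomial (Fin 2) k}
    {m : Fin n → ℕ} (hS : Stv F Sg Pf Qf m)
    {S : (Fin 2 → k) → Set (ℤ × ℕ)} (hL : ∀ P ∈ Sg, RatF (Lu k) (S P) (fun t : Test k =>
      PowerSeries.mk fun d => if d = 0 then 0 else
        lcv (tav F P) d t - lcv (tav F P) d t.zr)) :
    RatF (Lu k) {q | (∃ P ∈ Sg, q ∈ S P) ∨ ∃ i, q = (-1, m i)} (fun t : Test k =>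
      PowerSeries.mk fun d => if d = 0 then 0 else ztv F d t - ztv F d t.zr) := by
  classical
  obtain ⟨-, hS2, hS3⟩ := hS
  -- the strata
  let Z : Fin n → Set (Fin 2 → ℂ) := fun i => {x | (¬ ∃ P ∈ Sg, x ∈ glvPt P) ∧
    (aeval x (Pf i) = 0 ∧ (∃ e, aeval x (Qf i e) ≠ 0) ∧ ∃ j, aeval x (pderiv j (Pf i)) ≠ 0) ∧
      ∀ i', i' ≠ i → aeval x (Pf i') ≠ 0}
  have hpd : ∀ G : MvPolynomial (Fin 2) k, PFun k (fun p : Fin 2 → ℂ => aeval p G) :=
    fun G => ⟨G, fun _ => rfl⟩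
  have hT : ICons k {x : Fin 2 → ℂ | ∃ P ∈ Sg, x ∈ glvPt P} := by
    have e : {x : Fin 2 → ℂ | ∃ P ∈ Sg, x ∈ glvPt P} =
        {x : Fin 2 → ℂ | ∃ P : Sg, x ∈ glvPt P.1} := by
      ext x
      constructor
      · rintro ⟨P, h1, h2⟩
        exact ⟨⟨P, h1⟩, h2⟩
      · rintro ⟨⟨P, h1⟩, h2⟩
        exact ⟨P, h1, h2⟩
    rw [e]
    exact ICons.exists_fin fun P => glv_pt_cons P.1
  have hZ : ∀ i, ICons k (Z i) := by
    intro i
    refine ICons.and hT.not (ICons.and (ICons.and (ICons.eq (hpd _) PFun.zero)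
      (ICons.and (ICons.exists_fin fun e => ICons.ne (hpd _) PFun.zero)
        (ICons.exists_fin fun j => ICons.ne (hpd _) PFun.zero))) (ICons.forall_fin fun i' => ?_))
    by_cases h : i' ≠ i
    · simp only [h, true_implies, ne_eq, not_false_eq_true]
      exact ICons.ne (hpd _) PFun.zero
    · simp only [h, false_implies]
      exact ICons.const _
  have hR : ∀ i, RatF (Lu k) {(-1, m i)} (fun t : Test k =>
      PowerSeries.mk fun d => if d = 0 then 0 else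
        (mo k {x : (Fin 2 × Fin (d + 1) → ℂ) × t.E | x.2 ∈ t.W ∧ org x.1 ∈ Z i ∧
            Htv F d x.1 (t.c x.2)} -
          mo k {x : (Fin 2 × Fin (d + 1) → ℂ) × t.E | x.2 ∈ t.W ∧ org x.1 ∈ Z i ∧
            Htv F d x.1 0}) *
        ↑(Lu k ^ (-((Nat.card (Fin 2) * d : ℕ) : ℤ)))) := fun i =>
    smv_rat (hS2 i).1 (hS2 i).2.1 (hZ i) fun x hx => hx.2.1
  -- the decomposition
  have key : ∀ (d : ℕ), d ≠ 0 → ∀ t : Test k, ztv F d t = ∑ P ∈ Sg, lcv (tav F P) d t +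
      ∑ i ∈ (Finset.univ : Finset (Fin n)),
        mo k {x : (Fin 2 × Fin (d + 1) → ℂ) × t.E | x.2 ∈ t.W ∧ org x.1 ∈ Z i ∧
            Htv F d x.1 (t.c x.2)} * ↑(Lu k ^ (-((Nat.card (Fin 2) * d : ℕ) : ℤ))) := by
    intro d hd t
    have horg : PMap k (fun x : (Fin 2 × Fin (d + 1) → ℂ) × t.E => org x.1) :=
      PMap.comp (f := fun φ : Fin 2 × Fin (d + 1) → ℂ => Mono.org φ) PMap.org PMap.fst
    have hcc : ∀ Q : Set (Fin 2 → ℂ), ICons k Q → ICons k {x : (Fin 2 × Fin (d + 1) → ℂ) × t.E |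
        x.2 ∈ t.W ∧ org x.1 ∈ Q ∧ Htv F d x.1 (t.c x.2)} := fun Q hQ =>
      (t.cW.mem PMap.snd).and ((hQ.mem horg).and (glv_icons F d t))
    have e1 : {x : (Fin 2 × Fin (d + 1) → ℂ) × t.E | x ∈ {x : (Fin 2 × Fin (d + 1) → ℂ) × t.E |
        x.2 ∈ t.W ∧ Htv F d x.1 (t.c x.2)} ∧ ∃ P ∈ Sg, org x.1 ∈ glvPt P} =
        {x | ∃ P ∈ Sg, x ∈ {x : (Fin 2 × Fin (d + 1) → ℂ) × t.E | x.2 ∈ t.W ∧
          org x.1 ∈ glvPt P ∧ Htv F d x.1 (t.c x.2)}} := by
      ext x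
      constructor
      · rintro ⟨⟨h1, h2⟩, P, h3, h4⟩
        exact ⟨P, h3, h1, h4, h2⟩
      · rintro ⟨P, h3, h1, h4, h2⟩
        exact ⟨⟨h1, h2⟩, P, h3, h4⟩
    have e2 : {x : (Fin 2 × Fin (d + 1) → ℂ) × t.E | x ∈ {x : (Fin 2 × Fin (d + 1) → ℂ) × t.E |
        x.2 ∈ t.W ∧ Htv F d x.1 (t.c x.2)} ∧ ¬ ∃ P ∈ Sg, org x.1 ∈ glvPt P} =
        {x | ∃ i ∈ (Finset.univ : Finset (Fin n)), x ∈ {x : (Fin 2 × Fin (d + 1) → ℂ) × t.E |
          x.2 ∈ t.W ∧ org x.1 ∈ Z i ∧ Htv F d x.1 (t.c x.2)}} := by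
      ext x
      constructor
      · rintro ⟨⟨h1, h2⟩, h3⟩
        have h4 : ∀ e, aeval (org x.1) (F e) = 0 := by
          intro e
          have h4 := h2 e 0 (Nat.zero_le _)
          rwa [if_neg (fun h => hd h.symm), coeff_zero_arcEval] at h4
        obtain ⟨i, h5, h6⟩ := hS3 _ h4 h3
        exact ⟨i, Finset.mem_univ _, h1, ⟨h3, h5, h6⟩, h2⟩
      · rintro ⟨i, -, h1, h3, h2⟩
        exact ⟨⟨h1, h2⟩, h3.1⟩
    rw [ztv, mo_split ((t.cW.mem PMap.snd).and (glv_icons F d t)) (hT.mem horg)]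
    refine Eq.trans ?_ ((glv_alg Sg Finset.univ _ _ _).trans
      (congrArg (· + _) (Finset.sum_congr rfl fun P _ => glv_loc F P d t)))
    congr 2
    · refine Eq.trans ?_ (mo_biUnion Sg (fun P _ => hcc _ (glv_pt_cons P)) ?_)
      · exact congrArg _ e1
      · intro P _ P' _ hPP
        rw [Set.disjoint_left]
        rintro x ⟨-, h1, -⟩ ⟨-, h2, -⟩
        apply hPP
        funext i
        exact (algebraMap k ℂ).injective ((h1 i).symm.trans (h2 i))
    · refine Eq.trans ?_ (mo_biUnion Finset.univ (fun i _ => hcc _ (hZ i)) ?_)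
      · exact congrArg _ e2
      · intro i _ i' _ hii
        rw [Set.disjoint_left]
        rintro x ⟨-, h1, -⟩ ⟨-, h2, -⟩
        exact h1.2.2 i' (Ne.symm hii) h2.2.1.1
  have h1 := glv_fsum Sg (u := Lu k) (S := {q | (∃ P ∈ Sg, q ∈ S P) ∨ ∃ i,
    q = (-1, m i)}) fun P hP => (hL P hP).mono fun q hq => Or.inl ⟨P, hP, hq⟩
  have h2 := glv_fsum (Finset.univ : Finset (Fin n)) (u := Lu k)
    (S := {q | (∃ P ∈ Sg, q ∈ S P) ∨ ∃ i, q = (-1, m i)})
    fun i _ => (hR i).mono fun q hq => Or.inr ⟨i, hq⟩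
  have h3 := h1.add h2
  rw [Set.union_self] at h3
  refine h3.congr fun t => ?_
  ext d
  rw [map_add, map_sum, map_sum, PowerSeries.coeff_mk]
  simp only [PowerSeries.coeff_mk]
  by_cases hd : d = 0
  · simp only [if_pos hd, Finset.sum_const_zero, add_zero]
  · simp only [if_neg hd]
    rw [key d hd t, key d hd t.zr]
    exact glv_alg2 _ _ _ _ _ _ _

end GLV

end Pool.Agent.H75.Mono
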