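import Pool.Agent.H75.Idl.I0

/-! # LIY, module RDY: polynomials of degree at most one in y -/

set_option autoImplicit false

namespace Pool.Agent.H75.Mono

open MvPolynomial Pool.Agent.H39.MonoR

section RDY

variable {k : Type} [Field k] {r : ℕ}

private theorem rdy_tot_add (F G : Fin (r + 1) → MvPolynomial (Fin 2) k) :
    tot (fun e => F e + G e) = tot F + tot G := by
  unfold tot
  simp only [map_add, mul_add, Finset.sum_add_distrib]
  ring

private theorem rdy_tot_zero : tot (fun _ : Fin (r + 1) => (0 : MvPolynomial (Fin 2) k)) = 0 := by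
  unfold tot
  simp

private theorem rdy_tot_sum {ι : Type*} (s : Finset ι)
    (f : ι → MvPolynomial (Fin 2 ⊕ Fin r) k)
    (h : ∀ i ∈ s, ∃ F : Fin (r + 1) → MvPolynomial (Fin 2) k, f i = tot F) :
    ∃ F : Fin (r + 1) → MvPolynomial (Fin 2) k, ∑ i ∈ s, f i = tot F := by
  classical
  induction s using Finset.induction_on with
  | empty => exact ⟨fun _ => 0, by rw [rdy_tot_zero, Finset.sum_empty]⟩
  | insert a s ha ih =>
    obtain ⟨F, hF⟩ := ih (fun i hi => h i (Finset.mem_insert_of_mem hi))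
    obtain ⟨G, hG⟩ := h a (Finset.mem_insert_self a s)
    exact ⟨fun e => G e + F e, by rw [rdy_tot_add, Finset.sum_insert ha, hF, hG]⟩

private theorem rdy_mono {m : Fin 2 ⊕ Fin r →₀ ℕ} (c : k)
    (hm : ∑ i : Fin r, m (Sum.inr i) ≤ 1) :
    ∃ F : Fin (r + 1) → MvPolynomial (Fin 2) k, monomial m c = tot F := by
  classical
  let m0 : Fin 2 →₀ ℕ := m.comapDomain Sum.inl Sum.inl_injective.injOn
  have hm0 : ∀ i, m0 i = m (Sum.inl i) := fun i => rfl
  have hl : ∀ i : Fin 2, (Finsupp.mapDomain Sum.inl m0 : Fin 2 ⊕ Fin r →₀ ℕ) (Sum.inl i) =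
      m (Sum.inl i) := by
    intro i
    rw [Finsupp.mapDomain_apply Sum.inl_injective, hm0]
  have hr : ∀ i : Fin r, (Finsupp.mapDomain Sum.inl m0 : Fin 2 ⊕ Fin r →₀ ℕ) (Sum.inr i) = 0 := by
    intro i
    apply Finsupp.mapDomain_of_notMem_range
    rintro ⟨j, hj⟩
    cases hj
  by_cases h0 : ∀ i : Fin r, m (Sum.inr i) = 0
  · refine ⟨fun e => if e = 0 then monomial m0 c else 0, ?_⟩
    unfold tot
    have e1 : Finsupp.mapDomain Sum.inl m0 = m := by
      refine Finsupp.ext fun x => ?_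
      rcases x with i | i
      · exact hl i
      · rw [hr i, h0 i]
    simp only [if_true, Fin.succ_ne_zero, if_false, map_zero, mul_zero, Finset.sum_const_zero,
      add_zero]
    rw [rename_monomial, e1]
  · push Not at h0
    obtain ⟨i0, hi0⟩ := h0
    have h1 : m (Sum.inr i0) = 1 ∧ ∀ i, i ≠ i0 → m (Sum.inr i) = 0 := by
      have h2 := Finset.add_sum_erase Finset.univ (fun i : Fin r => m (Sum.inr i))
        (Finset.mem_univ i0)
      have h3 : m (Sum.inr i0) + ∑ i ∈ Finset.univ.erase i0, m (Sum.inr i) ≤ 1 := by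
        rw [h2]; exact hm
      have h4 : ∑ i ∈ Finset.univ.erase i0, m (Sum.inr i) = 0 := by omega
      refine ⟨by omega, fun i hi => ?_⟩
      exact (Finset.sum_eq_zero_iff.1 h4) i (Finset.mem_erase.2 ⟨hi, Finset.mem_univ _⟩)
    refine ⟨fun e => if e = i0.succ then monomial m0 c else 0, ?_⟩
    unfold tot
    have h5 : (0 : Fin (r + 1)) ≠ i0.succ := (Fin.succ_ne_zero i0).symm
    have e1 : Finsupp.single (Sum.inr i0) 1 + Finsupp.mapDomain Sum.inl m0 = m := by
      refine Finsupp.ext fun x => ?_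
      rcases x with i | i
      · rw [Finsupp.add_apply, hl i, Finsupp.single_apply, if_neg (by simp), zero_add]
      · rw [Finsupp.add_apply, hr i, add_zero]
        by_cases h6 : i = i0
        · subst h6
          rw [Finsupp.single_eq_same, h1.1]
        · rw [Finsupp.single_apply, if_neg (fun h => h6 (Sum.inr_injective h).symm), h1.2 i h6]
    rw [Finset.sum_eq_single i0]
    · simp only [if_neg h5, if_true, map_zero, zero_add]
      rw [rename_monomial, X, monomial_mul, one_mul, e1]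
    · intro i _ hi
      have : i.succ ≠ i0.succ := fun h => hi (Fin.succ_injective _ h)
      simp only [if_neg this, map_zero, mul_zero]
    · intro h
      exact absurd (Finset.mem_univ _) h

/-- polynomials of degree at most one in the variables `y` -/
theorem exists_tot {f : MvPolynomial (Fin 2 ⊕ Fin r) k}
    (hf : ∀ m, coeff m f ≠ 0 → ∑ i : Fin r, m (Sum.inr i) ≤ 1) :
    ∃ F : Fin (r + 1) → MvPolynomial (Fin 2) k, f = tot F := by
  have h := rdy_tot_sum f.support (fun m => monomial m (coeff m f))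
    (fun m hm => rdy_mono (coeff m f) (hf m (mem_support_iff.1 hm)))
  obtain ⟨F, hF⟩ := h
  exact ⟨F, by rw [← hF, ← as_sum]⟩

private theorem rdy_eval (F : MvPolynomial (Fin 2) k) (P : Fin 2 → k) :
    eval (0 : Fin 2 → k) (aeval (fun i => X i + C (P i)) F : MvPolynomial (Fin 2) k) =
      eval P F := by
  rw [← MvPolynomial.coe_aeval_eq_eval, ← MvPolynomial.coe_aeval_eq_eval]
  have : (aeval (0 : Fin 2 → k)).comp (aeval (fun i => X i + C (P i)) :
      MvPolynomial (Fin 2) k →ₐ[k] MvPolynomial (Fin 2) k) = (aeval P : MvPolynomial (Fin 2) k →ₐ[k] k) := by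
    ext i
    simp
  exact congrArg (fun g => g F) this

private theorem rdy_ne {F : MvPolynomial (Fin 2) k} (hF : F ≠ 0) (P : Fin 2 → k) :
    (aeval (fun i => X i + C (P i)) F : MvPolynomial (Fin 2) k) ≠ 0 := by
  intro h
  apply hF
  have : (aeval (fun i => X i - C (P i)) : MvPolynomial (Fin 2) k →ₐ[k] MvPolynomial (Fin 2) k).comp
      (aeval (fun i => X i + C (P i)) : MvPolynomial (Fin 2) k →ₐ[k] MvPolynomial (Fin 2) k) =
      AlgHom.id k _ := by
    ext i
    simp
  have h2 := congrArg (fun g => g F) this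
  simp only [AlgHom.comp_apply, AlgHom.id_apply] at h2
  rw [h, map_zero] at h2
  exact h2.symm

theorem tav_order {F : Fin (r + 1) → MvPolynomial (Fin 2) k} (hF : ∃ e, F e ≠ 0)
    {P : Fin 2 → k} (hP : ∀ e, eval P (F e) = 0) :
    ∃ n, 1 ≤ n ∧ (∀ e i j, cf (tav F P e) i j ≠ 0 → n ≤ i + j) ∧
      ∃ e i j, i + j = n ∧ cf (tav F P e) i j ≠ 0 := by
  classical
  have hcf : ∀ e i j, cf (tav F P e) i j =
      coeff (ix i j) (aeval (fun i => X i + C (P i)) (F e) : MvPolynomial (Fin 2) k) := by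
    intro e i j
    unfold cf tav tay
    rw [MvPolynomial.coeff_coe]
  have h00 : ∀ e, cf (tav F P e) 0 0 = 0 := by
    intro e
    rw [hcf]
    have h1 := rdy_eval (F e) P
    rw [hP e] at h1
    have e1 : ix 0 0 = 0 := by simp [ix]
    rw [e1, ← h1, ← MvPolynomial.constantCoeff_eq, ← MvPolynomial.coe_aeval_eq_eval]
    simp
  have hex : ∃ n, ∃ e i j, i + j = n ∧ cf (tav F P e) i j ≠ 0 := by
    obtain ⟨e, he⟩ := hF
    obtain ⟨d, hd⟩ := MvPolynomial.ne_zero_iff.1 (rdy_ne he P)
    refine ⟨_, e, d 0, d 1, rfl, ?_⟩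
    rw [hcf]
    have e1 : ix (d 0) (d 1) = d := by
      refine Finsupp.ext fun i => ?_
      fin_cases i <;> simp [ix]
    rw [e1]
    exact hd
  refine ⟨Nat.find hex, ?_, ?_, Nat.find_spec hex⟩
  · by_contra hlt
    obtain ⟨e, i, j, hij, hne⟩ := Nat.find_spec hex
    have h3 : i = 0 ∧ j = 0 := by omega
    obtain ⟨rfl, rfl⟩ := h3
    exact hne (h00 e)
  · intro e i j hij
    exact Nat.find_min' hex ⟨e, i, j, rfl, hij⟩

end RDY

end Pool.Agent.H75.Mono
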