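import Pool.Agent.H75.Idl.FSV
import Pool.Agent.H75.Idl.GLV
import Pool.Agent.H75.Idl.ELY
import Pool.Agent.H75.Idl.RDY
import Pool.Agent.H75.Fib.DIF

/-! # LIY: the theorem (assembly) -/

set_option autoImplicit false

namespace Pool.Agent.H75.Mono

open MvPolynomial Pool.Agent.H39.MonoR

section FIV

variable {k : Type} [Field k] [Algebra k ℂ] [IsAlgClosed k] {r : ℕ}

/-- tuples of order one -/
theorem lcv_rat_one {F : Fin (r + 1) → MvPolynomial (Fin 2) k} {P : Fin 2 → k}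
    (hT : SR k (tot F) 1) (hP : ∀ e, eval P (F e) = 0)
    (h : ∀ e i j, cf (tav F P e) i j ≠ 0 → 1 ≤ i + j)
    (h' : ∃ e i j, i + j = 1 ∧ cf (tav F P e) i j ≠ 0) :
    Rto (tot F) (fun d (t : Test k) => lcv (tav F P) d t - lcv (tav F P) d t.zr) := by
  have := charZero k
  rcases cone_one h h' with ⟨i, i', hi⟩ | ⟨v0, v1, h1, h2⟩ | ⟨a, ha, hJ, ⟨e, he, hcf⟩, honly⟩
  · exact lcv_rat hT (Chv.tav F P) le_rfl (fun _ => sr_two hP hi) h h'
  · have h0 : ∀ e, cf (tav F P e) 0 0 = 0 := by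
      intro e
      by_contra h3
      have := h e 0 0 h3
      omega
    refine Rto.zero fun d t hd => ?_
    rw [lcv_smooth2 h0 h1 h2 hd, sub_self]
  · -- proportional linear forms, not pure
    have hC1 := (Chv.tav F P).sbv ha hJ
    have hl1 := fun d (t : Test k) => lcv_sbv ha hJ (tav F P) d t
    set G1 := sbv a (tav F P) with hG1
    suffices hsuf : Rto (tot F) (fun d (t : Test k) => lcv G1 d t - lcv G1 d t.zr) by
      refine hsuf.congr fun d t _ => ?_
      rw [hl1, hl1]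
    exact lcv_rat_mono hT hC1 (n := 1) (m := 0) (b := 1) rfl Nat.one_pos (Or.inl rfl) ⟨e, hcf⟩
      honly

theorem tot_inv {F : Fin (r + 1) → MvPolynomial (Fin 2) k} (hF : ∃ e, F e ≠ 0)
    (hT : SR k (tot F) 1) :
    ∃ S : Finset (ℤ × ℕ), Okrs (tot F) S ∧ Inv (tot F) (S : Set (ℤ × ℕ)) := by
  classical
  have := charZero k
  obtain ⟨Sg, n, Pf, Qf, m, hS⟩ := exists_stv hF
  have key : ∀ P : Fin 2 → k, ∃ S : Finset (ℤ × ℕ), P ∈ Sg → (Okrs (tot F) S ∧
      RatF (Lu k) (S : Set (ℤ × ℕ)) (fun t : Test k => PowerSeries.mk fun d =>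
        lcv (tav F P) d t - lcv (tav F P) d t.zr)) := by
    intro P
    by_cases hP : P ∈ Sg
    · obtain ⟨n, h1, h2, h3⟩ := tav_order hF (hS.1 P hP)
      rcases Nat.lt_or_ge n 2 with hn | hn
      · have hn1 : n = 1 := by omega
        subst hn1
        obtain ⟨S, h4, h5⟩ := lcv_rat_one hT (hS.1 P hP) h2 h3
        exact ⟨S, fun _ => ⟨h4, h5⟩⟩
      · obtain ⟨S, h4, h5⟩ := lcv_rat hT (Chv.tav F P) h1 (fun h => by omega) h2 h3
        exact ⟨S, fun _ => ⟨h4, h5⟩⟩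
    · exact ⟨∅, fun h => absurd h hP⟩
  choose Sc hSc using key
  have h1 := ztv_local hS (S := fun P => (Sc P : Set (ℤ × ℕ))) fun P hP =>
    (hSc P hP).2.of_eventually 1 fun t d hd => by
      rw [PowerSeries.coeff_mk, PowerSeries.coeff_mk, if_neg (by omega)]
  refine ⟨Sg.biUnion Sc ∪ Finset.univ.image fun i => ((-1 : ℤ), m i), ?_, ?_⟩
  · refine Okrs.union ?_ ?_
    · intro p hp
      obtain ⟨P, hP, hp⟩ := Finset.mem_biUnion.1 hp
      exact (hSc P hP).1 p hp
    · intro p hp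
      obtain ⟨i, -, rfl⟩ := Finset.mem_image.1 hp
      obtain ⟨h2, h3, h4, h5⟩ := hS.2.1 i
      have h6 : Ok (tot F) (-((1 : ℕ) : ℤ), m i) := ok_pow h2 h3 h4 h5
      have h7 := Ok.okr (n := 1) (m := m i) hT h6 (by omega)
      simpa using h7
  · refine Inv.of_dif (((h1.smul fun _ => ↑(Lu k ^ r)).mono ?_).congr fun t => ?_)
    · rintro q (⟨P, hP, hq⟩ | ⟨i, rfl⟩)
      · rw [Finset.mem_coe, Finset.mem_union, Finset.mem_biUnion]
        exact Or.inl ⟨P, hP, hq⟩
      · rw [Finset.mem_coe, Finset.mem_union, Finset.mem_image]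
        exact Or.inr ⟨i, Finset.mem_univ i, rfl⟩
    · ext d
      rw [PowerSeries.coeff_C_mul, PowerSeries.coeff_mk, PowerSeries.coeff_mk]
      by_cases hd : d = 0
      · rw [if_pos hd, if_pos hd, mul_zero]
      · rw [if_neg hd, if_neg hd, zt_tot]

/-- **The strong motivic monodromy conjecture for polynomials of degree at most one in all but two
variables.** -/
theorem linear_main {τ : Type} [Finite τ] {f : MvPolynomial (Fin 2 ⊕ Fin r) k} (hf : Nc f)
    (h : ∀ m, coeff m f ≠ 0 → ∑ i : Fin r, m (Sum.inr i) ≤ 1) {e : Fin 2 ⊕ Fin r → τ}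
    (he : Function.Injective e) :
    ∃ S : Finset (ℤ × ℕ), (∀ p ∈ S, p.1 < 0 ∧ 0 < p.2) ∧
      Zmot k (rename e f) ∈ RS k (S : Set (ℤ × ℕ)) ∧
      ∀ p ∈ S, IsRoot k (rename e f) (p.1 / p.2) := by
  classical
  have := charZero k
  obtain ⟨F, rfl⟩ := exists_tot h
  have hF : ∃ e, F e ≠ 0 := by
    by_contra h0
    push Not at h0
    apply hf.ne
    unfold tot
    simp [h0]
  have hT : SR k (tot F) 1 := SR.one hf.ne hf.not_unit
  obtain ⟨S, h1, h2⟩ := tot_inv hF hT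
  have h3 : ∀ p ∈ insert ((-1 : ℤ), 1) S, p.1 < 0 ∧ 0 < p.2 ∧
      SR k (tot F) (-(p.1 : ℚ) / p.2) := by
    intro p hp
    rcases Finset.mem_insert.1 hp with rfl | hp
    · refine ⟨by norm_num, by norm_num, ?_⟩
      norm_num
      exact hT
    · exact h1 p hp
  refine ⟨insert (-1, 1) S, fun p hp => ⟨(h3 p hp).1, (h3 p hp).2.1⟩, ?_, fun p hp => ?_⟩
  · rw [Finset.coe_insert]
    refine Zmot_mem (fun p hp => ?_) h2.zRat e he
    refine (h3 p ?_).2.1
    rcases hp with rfl | hp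
    · exact Finset.mem_insert_self _ _
    · exact Finset.mem_insert_of_mem hp
  · have h5 := ((h3 p hp).2.2.rename e he).isRoot
    rwa [neg_div, neg_neg] at h5

end FIV

end Pool.Agent.H75.Mono
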