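import Pool.Agent.H75.Idl.I0
import Pool.Agent.H75.Plc.CN2

/-! # LIY, module CNV: generating series of cones -/

set_option autoImplicit false

namespace Pool.Agent.H75.Mono

open MvPolynomial Pool.Agent.H39.MonoR

section CNV

variable {k : Type} [Field k] [Algebra k ℂ] {r : ℕ} {N ν a b p q p' q' E : ℕ} {G : Fin (r + 1) → PS k}

omit [Algebra k ℂ] in
private theorem cnv_mnv_pos {x : ℕ} (h : b ∣ x) :
    mnv N G a b x = fun e => monomial (ix (N + a) b) (cf (G e) a b) := by
  funext e
  unfold mnv
  rw [if_pos h]

omit [Algebra k ℂ] in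
private theorem cnv_mnv_neg {x : ℕ} (h : ¬ b ∣ x) :
    mnv N G a b x = fun _ => (0 : MvPolynomial (Fin 2) k) := by
  funext e
  unfold mnv
  rw [if_neg h]

/-- the four tuples of leading forms -/
private noncomputable def cnvP (N : ℕ) (G : Fin (r + 1) → PS k) (a b p q E : ℕ) (dv on : Prop) :
    Fin (r + 1) → MvPolynomial (Fin 2) k := fun e => cn2P N (G e) a b p q E dv on

private theorem cnv_ldv_eq (m x : ℕ) (dv on : Prop) (h1 : b ∣ x ↔ dv) (h2 : p * x = b * q * m ↔ on) :
    ldv N G a b p q E m x = cnvP N G a b p q E dv on := by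
  funext e
  exact ldf_eq m x dv on h1 h2

theorem cdv_rat (hp : 0 < p) (hb : 0 < b) (hN : 1 ≤ N + a) :
    RatF (Lu k) {(-((ν * p + q : ℕ) : ℤ), (N + a) * p + b * q), (-1, b)}
      (fun t : Test k => PowerSeries.mk fun d => cdv N ν G p q a b d t) := by
  classical
  have hdet : b * q * 0 < p * (b * 1) := by
    rw [mul_zero, mul_one]
    exact Nat.mul_pos hp hb
  have h1 := cn2_cone (k := k) (ν := ν) (P := p) (Q := q) (P' := 0) (Q' := 1) (θ := 1) hb
    (n := N + a) (by omega) hdet True
    (fun t => Dev (fun e => monomial (ix (N + a) b) (cf (G e) a b)) t)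
  have h2 := cn2_cone (k := k) (ν := ν) (P := p) (Q := q) (P' := 0) (Q' := 1) (θ := 1) hb
    (n := N + a) (by omega) hdet False (fun t => Dev (fun _ : Fin (r + 1) => (0 : MvPolynomial (Fin 2) k)) t)
  have h3 := h1.add h2
  rw [Set.union_self] at h3
  have hS : ({(-((ν * p + q : ℕ) : ℤ), (N + a) * p + b * q),
      (-((ν * 0 + 1 : ℕ) : ℤ), (N + a) * 0 + b * 1)} : Set (ℤ × ℕ)) =
      {(-((ν * p + q : ℕ) : ℤ), (N + a) * p + b * q), (-1, b)} := by
    norm_num
  rw [hS] at h3
  refine h3.congr fun t => ?_
  ext d
  rw [map_add, PowerSeries.coeff_mk, PowerSeries.coeff_mk, PowerSeries.coeff_mk]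
  unfold cdv
  have hset : (Finset.Icc 1 d).filter (fun m => ((N + a) * p + b * q) * m < p * d) =
      (Finset.range (d + 1)).filter (fun m => (N + a) * m ≤ d ∧
        b * q * m < p * (d - (N + a) * m) ∧ 0 * (d - (N + a) * m) + 1 ≤ b * 1 * m) := by
    ext m
    rw [Finset.mem_filter, Finset.mem_filter, Finset.mem_Icc, Finset.mem_range]
    constructor
    · rintro ⟨⟨hm1, hm2⟩, h⟩
      have hle : (N + a) * m ≤ d := by
        by_contra hcon
        rw [not_le] at hcon
        have : p * d < p * ((N + a) * m) := Nat.mul_lt_mul_of_pos_left hcon hp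
        have e1 : ((N + a) * p + b * q) * m = p * ((N + a) * m) + b * q * m := by ring
        omega
      obtain ⟨x, hx⟩ := Nat.exists_eq_add_of_le hle
      have hx' : d - (N + a) * m = x := by omega
      refine ⟨by omega, hle, ?_, ?_⟩
      · rw [hx']
        rw [hx] at h
        have e1 : ((N + a) * p + b * q) * m = p * ((N + a) * m) + b * q * m := by ring
        have e2 : p * ((N + a) * m + x) = p * ((N + a) * m) + p * x := by ring
        omega
      · have : 1 ≤ b * m := Nat.mul_pos hb hm1
        simpa using this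
    · rintro ⟨h1, hle, h2, h3⟩
      obtain ⟨x, hx⟩ := Nat.exists_eq_add_of_le hle
      have hx' : d - (N + a) * m = x := by omega
      rw [hx'] at h2
      have hm1 : 1 ≤ m := by
        rcases Nat.eq_zero_or_pos m with h | h
        · rw [h] at h3
          simp at h3
        · exact h
      refine ⟨⟨hm1, by omega⟩, ?_⟩
      rw [hx]
      have e1 : ((N + a) * p + b * q) * m = p * ((N + a) * m) + b * q * m := by ring
      have e2 : p * ((N + a) * m + x) = p * ((N + a) * m) + p * x := by ring
      omega
  rw [hset]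
  refine cn2_lin2 _ _ _ _ _ _ (fun m _ => ?_)
  by_cases h : b ∣ d - (N + a) * m
  · rw [cn2f_eq True _ _ (by simpa using h), cn2f_ne False _ _ (by simpa using h), cnv_mnv_pos h]
    exact cn2_r1 _ _ _
  · rw [cn2f_ne True _ _ (by simpa using h), cn2f_eq False _ _ (by simpa using h), cnv_mnv_neg h]
    exact cn2_r2 _ _ _

theorem cnv_rat (hp : 0 < p) (hp' : 0 < p') (hb : 0 < b) (hκ : q * p' < q' * p)
    (hN : 1 ≤ N + a) :
    RatF (Lu k) {(-((ν * p + q : ℕ) : ℤ), (N + a) * p + b * q),
      (-((ν * p' + q' : ℕ) : ℤ), (N + a) * p' + b * q')}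
      (fun t : Test k => PowerSeries.mk fun d => cnv N ν G p q a b p' q' E d t) := by
  classical
  have hdet : b * q * p' < p * (b * q') := by
    have h1 : b * (q * p') < b * (q' * p) := Nat.mul_lt_mul_of_pos_left hκ hb
    have e1 : b * q * p' = b * (q * p') := by ring
    have e2 : p * (b * q') = b * (q' * p) := by ring
    omega
  have hn : 0 < N + a := by omega
  -- θ = 0, 1; dv = True, False; on = True (difference), False (θ = 1)
  have A0 := fun (dv : Prop) => cn2_cone (k := k) (ν := ν) (P := p) (Q := q) (P' := p') (Q' := q')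
    (θ := 0) hb hn hdet dv (fun t => Dev (cnvP N G a b p' q' E dv True) t)
  have A1 := fun (dv : Prop) => cn2_cone (k := k) (ν := ν) (P := p) (Q := q) (P' := p') (Q' := q')
    (θ := 1) hb hn hdet dv (fun t => Dev (cnvP N G a b p' q' E dv True) t)
  have B1 := fun (dv : Prop) => cn2_cone (k := k) (ν := ν) (P := p) (Q := q) (P' := p') (Q' := q')
    (θ := 1) hb hn hdet dv (fun t => Dev (cnvP N G a b p' q' E dv False) t)
  have h1 := (((A0 True).sub (A1 True)).add (B1 True)).add (((A0 False).sub (A1 False)).add (B1 False))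
  simp only [Set.union_self] at h1
  refine h1.congr fun t => ?_
  ext d
  simp only [map_add, map_sub, PowerSeries.coeff_mk]
  unfold cnv
  have hset : (Finset.Icc 1 d).filter (fun m => ((N + a) * p + b * q) * m < p * d ∧
      p' * d ≤ ((N + a) * p' + b * q') * m) =
      (Finset.range (d + 1)).filter (fun m => (N + a) * m ≤ d ∧
        b * q * m < p * (d - (N + a) * m) ∧ p' * (d - (N + a) * m) + 0 ≤ b * q' * m) := by
    ext m
    rw [Finset.mem_filter, Finset.mem_filter, Finset.mem_Icc, Finset.mem_range]
    constructor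
    · rintro ⟨⟨hm1, hm2⟩, h, h'⟩
      have hle : (N + a) * m ≤ d := by
        by_contra hcon
        rw [not_le] at hcon
        have : p * d < p * ((N + a) * m) := Nat.mul_lt_mul_of_pos_left hcon hp
        have e1 : ((N + a) * p + b * q) * m = p * ((N + a) * m) + b * q * m := by ring
        omega
      obtain ⟨x, hx⟩ := Nat.exists_eq_add_of_le hle
      have hx' : d - (N + a) * m = x := by omega
      refine ⟨by omega, hle, ?_, ?_⟩
      · rw [hx']
        rw [hx] at h
        have e1 : ((N + a) * p + b * q) * m = p * ((N + a) * m) + b * q * m := by ring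
        have e2 : p * ((N + a) * m + x) = p * ((N + a) * m) + p * x := by ring
        omega
      · rw [hx']
        rw [hx] at h'
        have e1 : ((N + a) * p' + b * q') * m = p' * ((N + a) * m) + b * q' * m := by ring
        have e2 : p' * ((N + a) * m + x) = p' * ((N + a) * m) + p' * x := by ring
        omega
    · rintro ⟨h1, hle, h2, h3⟩
      obtain ⟨x, hx⟩ := Nat.exists_eq_add_of_le hle
      have hx' : d - (N + a) * m = x := by omega
      rw [hx'] at h2 h3
      have hm1 : 1 ≤ m := by
        rcases Nat.eq_zero_or_pos m with h | h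
        · exfalso
          rw [h] at h3 h2
          simp only [mul_zero, add_zero, Nat.le_zero, mul_eq_zero] at h3
          rcases h3 with h3 | h3
          · omega
          · rw [h3] at h2
            simp at h2
        · exact h
      refine ⟨⟨hm1, by omega⟩, ?_, ?_⟩
      · rw [hx]
        have e1 : ((N + a) * p + b * q) * m = p * ((N + a) * m) + b * q * m := by ring
        have e2 : p * ((N + a) * m + x) = p * ((N + a) * m) + p * x := by ring
        omega
      · rw [hx]
        have e1 : ((N + a) * p' + b * q') * m = p' * ((N + a) * m) + b * q' * m := by ring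
        have e2 : p' * ((N + a) * m + x) = p' * ((N + a) * m) + p' * x := by ring
        omega
  rw [hset]
  refine cn2_lin4 _ _ (fun m => p' * (d - (N + a) * m) = b * q' * m) _ _ _ _ _ _ _ ?_ ?_ ?_
  · intro m
    simp only [Finset.mem_filter]
    constructor
    · rintro ⟨h1, h2, h3, h4⟩
      exact ⟨⟨h1, h2, h3, by omega⟩, by omega⟩
    · rintro ⟨⟨h1, h2, h3, h4⟩, h5⟩
      exact ⟨h1, h2, h3, by omega⟩
  · intro m _ ho
    by_cases h : b ∣ d - (N + a) * m
    · rw [cn2f_eq True _ _ (by simpa using h), cn2f_ne False _ _ (by simpa using h),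
        cnv_ldv_eq m _ True True (by simpa using h) (by simpa using ho)]
      exact cn2_r1 _ _ _
    · rw [cn2f_ne True _ _ (by simpa using h), cn2f_eq False _ _ (by simpa using h),
        cnv_ldv_eq m _ False True (by simpa using h) (by simpa using ho)]
      exact cn2_r2 _ _ _
  · intro m _ ho
    by_cases h : b ∣ d - (N + a) * m
    · rw [cn2f_eq True _ _ (by simpa using h), cn2f_ne False _ _ (by simpa using h),
        cnv_ldv_eq m _ True False (by simpa using h) (by simpa using ho)]
      exact cn2_r1 _ _ _
    · rw [cn2f_ne True _ _ (by simpa using h), cn2f_eq False _ _ (by simpa using h),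
        cnv_ldv_eq m _ False False (by simpa using h) (by simpa using ho)]
      exact cn2_r2 _ _ _

end CNV

end Pool.Agent.H75.Mono
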