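import Pool.Agent.H75.Idl.I0
import Pool.Agent.H75.Plc.VTX

/-! # LIY, module EVT: vertices and edges of tuples -/

set_option autoImplicit false

namespace Pool.Agent.H75.Mono

open MvPolynomial Pool.Agent.H39.MonoR

section EVT

variable {k : Type} [Field k] {r : ℕ} {G : Fin (r + 1) → PS k} {a b p q E : ℕ}

theorem cf_cmG (y : Fin (r + 1) → k) (G : Fin (r + 1) → PS k) (i j : ℕ) :
    cf (cmG y G) i j = ∑ e, y e * cf (G e) i j := by
  unfold cf cmG
  rw [map_sum]
  refine Finset.sum_congr rfl fun e _ => ?_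
  rw [MvPowerSeries.coeff_C_mul]

theorem edp_cmG (y : Fin (r + 1) → k) (G : Fin (r + 1) → PS k) (a b p q E : ℕ) :
    edp (cmG y G) a b p q E = cmQ y (edv G a b p q E) := by
  unfold edp cmQ edv edp
  simp only [cf_cmG, map_sum, Finset.sum_mul, Finset.mul_sum]
  rw [Finset.sum_comm]
  refine Finset.sum_congr rfl fun e _ => Finset.sum_congr rfl fun n _ => ?_
  rw [Polynomial.C_mul, mul_assoc]

theorem evt_cm_ne {y : Fin (r + 1) → k} {i j : ℕ} (h : cf (cmG y G) i j ≠ 0) :
    ∃ e, cf (G e) i j ≠ 0 := by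
  by_contra hc
  push Not at hc
  apply h
  rw [cf_cmG]
  exact Finset.sum_eq_zero fun e _ => by rw [hc e, mul_zero]

theorem Edv.edge (h : Edv G a b p q E) {y : Fin (r + 1) → k} (h1 : cf (cmG y G) a b ≠ 0)
    (h2 : cf (cmG y G) (a + q * E) (b - p * E) ≠ 0) : Edge (cmG y G) a b p q E := by
  refine ⟨h.p0, h.q0, h.cop, h.e0, h.eb, h1, h2, fun i j hij => ?_, fun i j hij he => ?_⟩
  · obtain ⟨e, he⟩ := evt_cm_ne hij
    exact h.wt e i j he
  · obtain ⟨e, he'⟩ := evt_cm_ne hij
    exact h.lin e i j he' he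

theorem Edv.vtv (h : Edv G a b p q E) : Vtv G p q (a + q * E) (b - p * E) := by
  refine ⟨h.bot, fun e i j hij => ?_⟩
  have h1 : (a + q * E) * p + (b - p * E) * q = a * p + b * q := by
    obtain ⟨c, hc⟩ := Nat.exists_eq_add_of_le h.eb
    have : b - p * E = c := by omega
    rw [this, hc]
    ring
  rw [h1]
  exact ⟨h.wt e i j hij, fun he => (h.lin e i j hij he).1⟩

theorem Edv.vtv_swv (h : Edv G a b p q E) : Vtv (swv G) q p b a := by
  refine ⟨?_, fun e i j hij => ?_⟩
  · obtain ⟨e, he⟩ := h.top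
    refine ⟨e, ?_⟩
    unfold swv
    rw [cf_swp]
    exact he
  unfold swv at hij
  rw [cf_swp] at hij
  have h1 := h.wt e j i hij
  refine ⟨by linarith, fun he => ?_⟩
  have h2 := (h.lin e j i hij (by linarith)).2
  by_contra hc
  push Not at hc
  have h3 : j * p < a * p := Nat.mul_lt_mul_of_pos_right hc h.p0
  have h4 : i * q ≤ b * q := Nat.mul_le_mul_right q h2
  omega

theorem evt_coeff (F : PS k) {a b p q E n : ℕ} (hn : n ≤ E) :
    (edp F a b p q E).coeff (E - n) = cf F (a + q * n) (b - p * n) := by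
  unfold edp
  rw [Polynomial.finsetSum_coeff, Finset.sum_eq_single n]
  · rw [Polynomial.coeff_C_mul_X_pow, if_pos rfl]
  · intro m hm hne
    rw [Finset.mem_range] at hm
    rw [Polynomial.coeff_C_mul_X_pow, if_neg]
    omega
  · intro hm
    exact absurd (Finset.mem_range.2 (by omega)) hm

theorem evt_natDegree (F : PS k) (a b p q E : ℕ) : (edp F a b p q E).natDegree ≤ E := by
  unfold edp
  apply Polynomial.natDegree_sum_le_of_forall_le
  intro n _
  refine (Polynomial.natDegree_C_mul_X_pow_le _ _).trans (by omega)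

theorem evt_top (F : PS k) (a b p q E : ℕ) : (edp F a b p q E).coeff E = cf F a b := by
  have h1 := evt_coeff F (a := a) (b := b) (p := p) (q := q) (Nat.zero_le E)
  simp only [Nat.sub_zero, Nat.mul_zero, Nat.add_zero] at h1
  exact h1

theorem evt_bot (F : PS k) (a b p q E : ℕ) :
    (edp F a b p q E).eval 0 = cf F (a + q * E) (b - p * E) := by
  rw [← Polynomial.coeff_zero_eq_eval_zero]
  have h1 := evt_coeff F (a := a) (b := b) (p := p) (q := q) (le_refl E)
  rw [Nat.sub_self] at h1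
  exact h1

/-- a nonzero edge polynomial gives a bound for the multiplicity -/
theorem evt_mlt_le {Q : Fin (r + 1) → Polynomial k} (μ : k) {e : Fin (r + 1)} (he : Q e ≠ 0) :
    mlt Q μ ≤ (Q e).rootMultiplicity μ := Nat.sInf_le ⟨e, he, rfl⟩

theorem evt_mult_le {Q : Polynomial k} (μ : k) {E : ℕ} (hQ : Q ≠ 0) (hd : Q.natDegree ≤ E) :
    Q.rootMultiplicity μ ≤ E := by
  have h2 := Polynomial.natDegree_le_of_dvd (Polynomial.pow_rootMultiplicity_dvd Q μ) hQ
  rw [Polynomial.natDegree_pow, Polynomial.natDegree_X_sub_C, mul_one] at h2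
  exact h2.trans hd

theorem Edv.mlt_leE (h : Edv G a b p q E) (μ : k) : mlt (edv G a b p q E) μ ≤ E := by
  obtain ⟨e, he⟩ := h.top
  have h1 : edv G a b p q E e ≠ 0 := by
    intro h0
    apply he
    rw [← evt_top (G e) a b p q E]
    have : edp (G e) a b p q E = 0 := h0
    rw [this, Polynomial.coeff_zero]
  exact (evt_mlt_le μ h1).trans (evt_mult_le μ h1 (evt_natDegree _ _ _ _ _ _))

theorem Edv.mlt_le (h : Edv G a b p q E) (μ : k) : p * mlt (edv G a b p q E) μ ≤ b :=
  (Nat.mul_le_mul_left p (h.mlt_leE μ)).trans h.eb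

/-- a polynomial of degree at most `E` with a root of multiplicity `E` -/
theorem evt_full {Q : Polynomial k} {E : ℕ} {μ : k} (hd : Q.natDegree ≤ E)
    (hm : (Polynomial.X - Polynomial.C μ) ^ E ∣ Q) :
    Q = Polynomial.C (Q.coeff E) * (Polynomial.X - Polynomial.C μ) ^ E := by
  obtain ⟨R, hR⟩ := hm
  have hmon : ((Polynomial.X - Polynomial.C μ) ^ E).Monic := (Polynomial.monic_X_sub_C μ).pow E
  by_cases hR0 : R = 0
  · rw [hR0, mul_zero] at hR
    rw [hR, Polynomial.coeff_zero, Polynomial.C_0, zero_mul]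
  have hdeg := hmon.natDegree_mul' hR0
  rw [← hR, Polynomial.natDegree_pow, Polynomial.natDegree_X_sub_C, mul_one] at hdeg
  have hRd : R.natDegree = 0 := by omega
  obtain ⟨c, hc⟩ := Polynomial.natDegree_eq_zero.1 hRd
  have hmE : ((Polynomial.X - Polynomial.C μ) ^ E).natDegree = E := by
    rw [Polynomial.natDegree_pow, Polynomial.natDegree_X_sub_C, mul_one]
  have hco : Q.coeff E = c := by
    rw [hR, ← hc, Polynomial.coeff_mul_C]
    have : ((Polynomial.X - Polynomial.C μ) ^ E).coeff E = 1 := by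
      have h1 := hmon.coeff_natDegree
      rwa [hmE] at h1
    rw [this, one_mul]
  rw [hco, hc, mul_comm]
  exact hR

theorem Edv.mlt_lt (h : Edv G a b p q E) (hb : ¬ Bad G a b p q E) (μ : k) :
    mlt (edv G a b p q E) μ < b := by
  by_contra hc
  push Not at hc
  apply hb
  have h1 := h.mlt_le μ
  have h1E := h.mlt_leE μ
  have hb0 : 0 < b := lt_of_lt_of_le (Nat.mul_pos h.p0 h.e0) h.eb
  have hp : p = 1 := by
    have h2 : p * b ≤ 1 * b := by
      rw [one_mul]
      exact (Nat.mul_le_mul_left p hc).trans h1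
    have h3 := Nat.le_of_mul_le_mul_right h2 hb0
    have := h.p0
    omega
  have hEb : E ≤ b := by
    have := h.eb
    rw [hp, one_mul] at this
    exact this
  have hE : E = b := by omega
  refine ⟨hp, hE, μ, fun e => ?_⟩
  by_cases h0 : edp (G e) a b p q E = 0
  · have h2 := evt_top (G e) a b p q E
    rw [h0, Polynomial.coeff_zero] at h2
    rw [h0, ← h2, Polynomial.C_0, zero_mul]
  · have h2 : mlt (edv G a b p q E) μ ≤ (edp (G e) a b p q E).rootMultiplicity μ :=
      evt_mlt_le μ (e := e) h0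
    have h3 : (Polynomial.X - Polynomial.C μ) ^ E ∣ edp (G e) a b p q E :=
      (pow_dvd_pow _ (by omega)).trans (Polynomial.pow_rootMultiplicity_dvd _ _)
    have h4 := evt_full (evt_natDegree (G e) a b p q E) h3
    rw [evt_top] at h4
    rw [h4]
    congr 2

theorem Edv.rtv_ne (h : Edv G a b p q E) {μ : k} (hμ : μ ∈ rtv (edv G a b p q E)) : μ ≠ 0 := by
  classical
  rintro rfl
  obtain ⟨e, he⟩ := h.bot
  apply he
  unfold rtv at hμ
  have h1 := (Finset.mem_filter.1 hμ).2 e
  rw [← evt_bot (G e) a b p q E]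
  exact h1

end EVT

end Pool.Agent.H75.Mono
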