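import Pool.Agent.H75.Idl.I0
import Pool.Agent.H75.Plc.CH2

/-! # LIY, module CHW: charts of tuples -/

set_option autoImplicit false

namespace Pool.Agent.H75.Mono

open MvPolynomial Pool.Agent.H39.MonoR

section CHW

variable {k : Type} [Field k] {r : ℕ} {F : Fin (r + 1) → MvPolynomial (Fin 2) k} {P : Fin 2 → k}
  {G : Fin (r + 1) → PS k} {N ν a b p q E r' s : ℕ}

theorem CHW_comp {N' ν' : ℕ} {G' : Fin (r + 1) → PS k} (hC : Chv F P N ν G)
    {a : Fin 2 → PS k} (ha0 : ∀ i, MvPowerSeries.constantCoeff (a i) = 0)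
    (hG : ∀ e, MvPowerSeries.subst a (MvPowerSeries.X 0 ^ N * G e) = MvPowerSeries.X 0 ^ N' * G' e)
    (hJ : ∃ u : PS k, MvPowerSeries.constantCoeff u ≠ 0 ∧
      MvPowerSeries.subst a ((MvPowerSeries.X 0 : PS k) ^ (ν - 1)) * ch1J a =
        MvPowerSeries.X 0 ^ (ν' - 1) * u) : Chv F P N' ν' G' := by
  obtain ⟨x, j, hx, hF, hj, hj0⟩ := hC
  obtain ⟨u, hu0, hu⟩ := hJ
  have ha := MvPowerSeries.hasSubst_of_constantCoeff_zero ha0
  refine ⟨fun i => MvPowerSeries.subst a (x i), MvPowerSeries.subst a j * u, ?_, ?_, ?_, ?_⟩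
  · intro i
    rw [ch1_const ha0, hx]
  · intro e
    rw [ch1_aeval ha0, hF, hG]
  · have h1 := ch1_jac ha0 x
    have h2 : ch1J x = MvPowerSeries.X 0 ^ (ν - 1) * j := hj
    rw [h2, MvPowerSeries.subst_mul ha] at h1
    show ch1J (fun i => MvPowerSeries.subst a (x i)) = _
    rw [h1]
    calc _ = MvPowerSeries.subst a ((MvPowerSeries.X 0 : PS k) ^ (ν - 1)) * ch1J a *
          MvPowerSeries.subst a j := by ring
      _ = _ := by rw [hu]; ring
  · rw [map_mul, ch1_const ha0]
    exact mul_ne_zero hj0 hu0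

theorem Chv.tav (F : Fin (r + 1) → MvPolynomial (Fin 2) k) (P : Fin 2 → k) :
    Chv F P 0 1 (Mono.tav F P) := by
  refine ⟨fun i => MvPowerSeries.X i + MvPowerSeries.C (P i), 1, ?_, ?_, ?_, ?_⟩
  · intro i
    simp
  · intro e
    rw [pow_zero, one_mul]
    show _ = Mono.tay (F e) P
    unfold Mono.tay
    have h : MvPolynomial.aeval (fun i => (MvPowerSeries.X i + MvPowerSeries.C (P i) : PS k)) (F e)
        = MvPolynomial.coeToMvPowerSeries.algHom k
          (aeval (fun i => (X i + C (P i) : MvPolynomial (Fin 2) k)) (F e)) := by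
      rw [MvPolynomial.comp_aeval_apply]
      congr 2
      funext i
      simp [MvPolynomial.coeToMvPowerSeries.algHom_apply]
    rw [h]
    simp [MvPolynomial.coeToMvPowerSeries.algHom_apply]
  · simp
  · simp

theorem Chv.sbv (hC : Chv F P 0 1 G) {a : Fin 2 → PS k}
    (ha : ∀ i, MvPowerSeries.constantCoeff (a i) = 0)
    (hJ : cf (a 0) 1 0 * cf (a 1) 0 1 - cf (a 0) 0 1 * cf (a 1) 1 0 ≠ 0) :
    Chv F P 0 1 (Mono.sbv a G) := by
  have hs := MvPowerSeries.hasSubst_of_constantCoeff_zero ha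
  refine CHW_comp hC ha (fun e => by rw [pow_zero, one_mul, one_mul]; rfl) ⟨ch1J a, ?_, ?_⟩
  · have h0 : ∀ f : PS k, MvPowerSeries.constantCoeff (MvPowerSeries.pderiv k 0 f) = cf f 1 0 := by
      intro f
      rw [← MvPowerSeries.coeff_zero_eq_constantCoeff_apply, MvPowerSeries.coeff_pderiv]
      simp [cf, ix]
    have h1 : ∀ f : PS k, MvPowerSeries.constantCoeff (MvPowerSeries.pderiv k 1 f) = cf f 0 1 := by
      intro f
      rw [← MvPowerSeries.coeff_zero_eq_constantCoeff_apply, MvPowerSeries.coeff_pderiv]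
      simp [cf, ix]
    unfold ch1J
    rw [map_sub, map_mul, map_mul, h0, h1, h0, h1]
    exact hJ
  · have h1 : MvPowerSeries.subst a ((MvPowerSeries.X 0 : PS k) ^ (1 - 1)) = 1 := by
      rw [Nat.sub_self, pow_zero, ← MvPowerSeries.substAlgHom_apply hs, map_one]
    rw [h1]
    simp

theorem Chv.swv (hC : Chv F P 0 1 G) : Chv F P 0 1 (Mono.swv G) := by
  refine Chv.sbv (a := (![MvPowerSeries.X 1, MvPowerSeries.X 0] : Fin 2 → PS k)) hC ?_ ?_
  · intro i
    fin_cases i <;> simp
  · have h00 : cf (MvPowerSeries.X 1 : PS k) 1 0 = 0 := by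
      unfold cf ix
      rw [MvPowerSeries.coeff_X, if_neg]
      intro h
      have := DFunLike.congr_fun h 0
      simp at this
    have h01 : cf (MvPowerSeries.X 1 : PS k) 0 1 = 1 := by
      unfold cf ix
      rw [MvPowerSeries.coeff_X, if_pos]
      simp
    have h10 : cf (MvPowerSeries.X 0 : PS k) 1 0 = 1 := by
      unfold cf ix
      rw [MvPowerSeries.coeff_X, if_pos]
      simp
    simp only [Matrix.cons_val_zero, Matrix.cons_val_one]
    rw [h00, h01, h10]
    simp

theorem Chv.shv (hC : Chv F P N ν G) {h : PowerSeries k}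
    (hh : PowerSeries.constantCoeff h = 0) : Chv F P N ν (shv' h G) := by
  have ha0 : ∀ i, MvPowerSeries.constantCoeff (Mono.shv h i) = 0 := by
    have h1 : MvPowerSeries.constantCoeff (PowerSeries.subst (MvPowerSeries.X 0 : PS k) h) = 0 :=
      MvPowerSeries.constantCoeff_subst_eq_zero
        (PowerSeries.HasSubst.of_constantCoeff_zero (a := (MvPowerSeries.X 0 : PS k)) (by simp)).const
        (fun _ => by simp) hh
    intro i
    fin_cases i
    · simp [Mono.shv]
    · simp [Mono.shv, h1]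
  have hs := MvPowerSeries.hasSubst_of_constantCoeff_zero ha0
  refine CHW_comp hC ha0 (fun e => ?_) ⟨1, by simp, ?_⟩
  · rw [MvPowerSeries.subst_mul hs, MvPowerSeries.subst_pow hs, MvPowerSeries.subst_X hs]
    rfl
  · rw [MvPowerSeries.subst_pow hs, MvPowerSeries.subst_X hs]
    have h1 : ch1J (Mono.shv h) = 1 := by
      unfold ch1J
      have e0 : Mono.shv h 0 = MvPowerSeries.X 0 := rfl
      have e1 : Mono.shv h 1 =
        MvPowerSeries.X 1 + PowerSeries.subst (MvPowerSeries.X 0 : PS k) h := rfl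
      rw [e0, e1, map_add, ch1_pderiv_subst_X, MvPowerSeries.pderiv_X_self,
        MvPowerSeries.pderiv_X_self, MvPowerSeries.pderiv_X_of_ne (by decide)]
      ring
    rw [h1]
    rfl

theorem Chv.chv (hC : Chv F P N ν G) (hν : 0 < ν) (hp : 0 < p) (hq : 0 < q)
    (hrs : p * s = q * r' + 1) {μ : k} (hμ : μ ≠ 0) {c : ℕ}
    (hc : ∀ e i j, cf (G e) i j ≠ 0 → c ≤ i * p + j * q) :
    Chv F P (N * p + c) (ν * p + q) (Mono.chv N p q c r' s μ G) := by
  have e0 : tov p q r' s μ 0 =
      MvPowerSeries.X 0 ^ p * (MvPowerSeries.C μ + MvPowerSeries.X 1) ^ r' := rfl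
  have e1 : tov p q r' s μ 1 =
      MvPowerSeries.X 0 ^ q * (MvPowerSeries.C μ + MvPowerSeries.X 1) ^ s := rfl
  have ha0 : ∀ i, MvPowerSeries.constantCoeff (tov p q r' s μ i) = 0 := by
    intro i
    fin_cases i
    · show MvPowerSeries.constantCoeff (tov p q r' s μ 0) = 0
      rw [e0, map_mul, map_pow, MvPowerSeries.constantCoeff_X, zero_pow hp.ne', zero_mul]
    · show MvPowerSeries.constantCoeff (tov p q r' s μ 1) = 0
      rw [e1, map_mul, map_pow, MvPowerSeries.constantCoeff_X, zero_pow hq.ne', zero_mul]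
  have hs := MvPowerSeries.hasSubst_of_constantCoeff_zero ha0
  have hs1 : 1 ≤ s := by
    rcases Nat.eq_zero_or_pos s with h | h
    · rw [h, mul_zero] at hrs; omega
    · exact h
  refine CHW_comp hC ha0 (fun e => ?_)
    ⟨(MvPowerSeries.C μ + MvPowerSeries.X 1) ^ (r' * (ν - 1) + (r' + s - 1)), ?_, ?_⟩
  · show _ = MvPowerSeries.X 0 ^ (N * p + c) * Mono.chd N p q c r' s μ (G e)
    rw [MvPowerSeries.subst_mul hs, MvPowerSeries.subst_pow hs, MvPowerSeries.subst_X hs, e0,
      pow_add, mul_assoc, chd_spec hp hq (hc e)]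
    ring
  · rw [map_pow, map_add, MvPowerSeries.constantCoeff_C, MvPowerSeries.constantCoeff_X, add_zero]
    exact pow_ne_zero _ hμ
  · rw [MvPowerSeries.subst_pow hs, MvPowerSeries.subst_X hs]
    have hJ : ch1J (tov p q r' s μ) = MvPowerSeries.X 0 ^ (p + q - 1) *
        (MvPowerSeries.C μ + MvPowerSeries.X 1) ^ (r' + s - 1) := by
      unfold ch1J
      have hW0 : MvPowerSeries.pderiv k 0 (MvPowerSeries.C μ + MvPowerSeries.X 1 : PS k) = 0 := by
        rw [map_add, MvPowerSeries.pderiv_C, MvPowerSeries.pderiv_X_of_ne (by decide), add_zero]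
      have hW1 : MvPowerSeries.pderiv k 1 (MvPowerSeries.C μ + MvPowerSeries.X 1 : PS k) = 1 := by
        rw [map_add, MvPowerSeries.pderiv_C, MvPowerSeries.pderiv_X_self, zero_add]
      have hX0 : MvPowerSeries.pderiv k 0 (MvPowerSeries.X 0 : PS k) = 1 :=
        MvPowerSeries.pderiv_X_self
      have hX1 : MvPowerSeries.pderiv k 1 (MvPowerSeries.X 0 : PS k) = 0 :=
        MvPowerSeries.pderiv_X_of_ne (by decide)
      rw [e0, e1]
      set W : PS k := MvPowerSeries.C μ + MvPowerSeries.X 1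
      simp only [Derivation.leibniz, MvPowerSeries.pderiv_pow, smul_eq_mul, hW0, hW1, hX0, hX1]
      have hcast : (p : PS k) * s = q * r' + 1 := by
        have := congrArg (Nat.cast : ℕ → PS k) hrs
        push_cast at this
        exact this
      have hXq : (MvPowerSeries.X 0 : PS k) ^ (p - 1) * MvPowerSeries.X 0 ^ q =
          MvPowerSeries.X 0 ^ (p + q - 1) := by
        rw [← pow_add]; congr 1; omega
      have hXp : (MvPowerSeries.X 0 : PS k) ^ (q - 1) * MvPowerSeries.X 0 ^ p =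
          MvPowerSeries.X 0 ^ (p + q - 1) := by
        rw [← pow_add]; congr 1; omega
      have hWs : W ^ r' * W ^ (s - 1) = W ^ (r' + s - 1) := by
        rw [← pow_add]; congr 1; omega
      have hWr : (r' : PS k) * (W ^ s * W ^ (r' - 1)) = r' * W ^ (r' + s - 1) := by
        rcases Nat.eq_zero_or_pos r' with h | h
        · rw [h]; simp
        · rw [← pow_add]; congr 2; omega
      calc _ = ((p : PS k) * (s : PS k)) *
              ((MvPowerSeries.X 0 : PS k) ^ (p - 1) * (MvPowerSeries.X 0 : PS k) ^ q) *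
            (W ^ r' * W ^ (s - 1)) -
              (q : PS k) * ((MvPowerSeries.X 0 : PS k) ^ (q - 1) * (MvPowerSeries.X 0 : PS k) ^ p) *
            ((r' : PS k) * (W ^ s * W ^ (r' - 1))) := by ring
        _ = _ := by rw [hXq, hXp, hWs, hWr, hcast]; ring
    rw [hJ, e0]
    have e3 : ν * p + q - 1 = p * (ν - 1) + (p + q - 1) := by
      obtain ⟨n, rfl⟩ : ∃ n, ν = n + 1 := ⟨ν - 1, by omega⟩
      rw [Nat.add_sub_cancel]
      have : (n + 1) * p = p * n + p := by ring
      omega
    rw [e3, pow_add, pow_add (MvPowerSeries.C μ + MvPowerSeries.X 1 : PS k), pow_mul, pow_mul]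
    ring

theorem Chv.cm (hC : Chv F P N ν G) (y : Fin (r + 1) → k) :
    Cht (cmF y F) P N ν (cmG y G) := by
  obtain ⟨x, j, hx, hF, hj, hj0⟩ := hC
  refine ⟨x, j, hx, ?_, hj, hj0⟩
  unfold cmF cmG
  rw [map_sum, Finset.mul_sum]
  apply Finset.sum_congr rfl
  intro e _
  rw [map_mul, hF e, aeval_C, MvPowerSeries.algebraMap_apply]
  show MvPowerSeries.C (y e) * _ = _
  ring

end CHW

end Pool.Agent.H75.Mono
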