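import Pool.Agent.H75.Idl.GNY
import Pool.Agent.H75.Idl.EVT

/-! # LIY, module GNE: edges of generic linear combinations -/

set_option autoImplicit false

namespace Pool.Agent.H75.Mono

open MvPolynomial Pool.Agent.H39.MonoR

section GNE

variable {k : Type} [Field k] [CharZero k] [IsAlgClosed k] {r : ℕ}

theorem GNE_natDegree (G : PS k) (a b p q E : ℕ) : (edp G a b p q E).natDegree ≤ E := by
  unfold edp
  apply Polynomial.natDegree_sum_le_of_forall_le
  intro n _
  exact (Polynomial.natDegree_C_mul_X_pow_le _ _).trans (Nat.sub_le _ _)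

theorem GNE_coeff (G : PS k) (a b p q E : ℕ) : (edp G a b p q E).coeff E = cf G a b := by
  unfold edp
  rw [Polynomial.finsetSum_coeff, Finset.sum_eq_single 0]
  · rw [Polynomial.coeff_C_mul_X_pow, if_pos (by omega), mul_zero, mul_zero, add_zero,
      Nat.sub_zero]
  · intro n hn hn0
    rw [Finset.mem_range] at hn
    rw [Polynomial.coeff_C_mul_X_pow, if_neg]
    omega
  · intro h
    exact absurd (Finset.mem_range.2 (by omega)) h

theorem GNE_eval (G : PS k) (a b p q E : ℕ) :
    (edp G a b p q E).eval 0 = cf G (a + q * E) (b - p * E) := by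
  unfold edp
  rw [Polynomial.eval_finsetSum, Finset.sum_eq_single E]
  · rw [Nat.sub_self, pow_zero, mul_one, Polynomial.eval_C]
  · intro n hn hne
    rw [Finset.mem_range] at hn
    rw [Polynomial.eval_mul, Polynomial.eval_pow, Polynomial.eval_X, zero_pow (by omega), mul_zero]
  · intro h
    exact absurd (Finset.mem_range.2 (by omega)) h

theorem Edv.exists_edge {G : Fin (r + 1) → PS k} {a b p q E : ℕ} (h : Edv G a b p q E)
    (hb : 2 ≤ b) (hbad : ¬ Bad G a b p q E) : ∃ y : Fin (r + 1) → k, y 0 = 1 ∧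
      Edge (cmG y G) a b p q E ∧
      (p = 1 → E = b → 2 ≤ (rts (edp (cmG y G) a b p q E)).card) := by
  obtain ⟨y, hy0, hdeg, hev, -, hcard⟩ := exists_gen (Q := edv G a b p q E) h.e0
    (fun e => GNE_natDegree (G e) a b p q E)
    (by obtain ⟨e, he⟩ := h.top
        exact ⟨e, by show (edp (G e) a b p q E).coeff E ≠ 0; rw [GNE_coeff]; exact he⟩)
    (by obtain ⟨e, he⟩ := h.bot
        exact ⟨e, by show (edp (G e) a b p q E).eval 0 ≠ 0; rw [GNE_eval]; exact he⟩)
  rw [← edp_cmG] at hdeg hev hcard
  refine ⟨y, hy0, h.edge ?_ ?_, ?_⟩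
  · rw [← GNE_coeff (cmG y G) a b p q E]
    have h1 : (edp (cmG y G) a b p q E).leadingCoeff ≠ 0 := by
      rw [Polynomial.leadingCoeff_ne_zero]
      intro h0
      rw [h0, Polynomial.natDegree_zero] at hdeg
      exact absurd h.e0 (by omega)
    rw [Polynomial.leadingCoeff, hdeg] at h1
    exact h1
  · rw [← GNE_eval (cmG y G) a b p q E]
    exact hev
  · intro _ hEb
    rw [hcard]
    rcases Nat.lt_or_ge (rtv (edv G a b p q E)).card 2 with h2 | h2
    · rcases Nat.lt_or_ge (rtv (edv G a b p q E)).card 1 with h3 | h3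
      · have h4 : rtv (edv G a b p q E) = ∅ := Finset.card_eq_zero.1 (by omega)
        rw [h4, Finset.sum_empty, Finset.card_empty]
        omega
      · obtain ⟨μ, hμ⟩ := Finset.card_eq_one.1 (show (rtv (edv G a b p q E)).card = 1 by omega)
        rw [hμ, Finset.sum_singleton, Finset.card_singleton]
        have h5 := h.mlt_lt hbad μ
        omega
    · omega

end GNE

end Pool.Agent.H75.Mono
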