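import Pool.Agent.H75.Idl.I0

/-! # LIY, module RSV: superfluous variables -/

set_option autoImplicit false

namespace Pool.Agent.H75.Mono

open MvPolynomial Pool.Agent.H39.MonoR

section RSV

variable {k : Type} [Field k] {σ τ : Type}

/-- superfluous variables can be omitted -/
theorem SR.res {e : σ → τ} (he : Function.Injective e) {f : MvPolynomial σ k} {s : ℚ}
    (h : SR k (MvPolynomial.rename e f) s) : SR k f s := by
  obtain ⟨c, hc⟩ := h
  let c' : Chain k f s :=
    { V := c.V
      ρ := c.ρ.comp (MvPolynomial.rename e)
      D := fun i => c.D (e i)
      leib := fun i p v => by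
        simp only [AlgHom.comp_apply]
        rw [c.leib, pderiv_rename he]
      e := c.e
      mul := fun j => by
        simp only [AlgHom.comp_apply]
        exact c.mul j
      der := fun i j => by
        simp only [AlgHom.comp_apply]
        rw [c.der, pderiv_rename he]
      ne := c.ne }
  exact ⟨c', hc⟩

end RSV

end Pool.Agent.H75.Mono
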