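import Pool.Agent.H75.Idl.LFT
import Pool.Agent.H75.Idl.RSV

/-! # LIY, module LFU: roots of the total polynomial -/

set_option autoImplicit false

namespace Pool.Agent.H75.Mono

open MvPolynomial Pool.Agent.H39.MonoR

section LFU

variable {k : Type} [Field k] [CharZero k] {r : ℕ} {F : Fin (r + 1) → MvPolynomial (Fin 2) k}

private theorem LFU_mem (e : Fin (r + 1)) : F e ∈ idl F := Ideal.subset_span ⟨e, rfl⟩

private theorem LFU_cm_mem (y : Fin (r + 1) → k) : cmF y F ∈ idl F :=
  (idl F).sum_mem fun e _ => (idl F).mul_mem_left _ (LFU_mem e)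

private theorem LFU_rename {τ : Type} (R : MvPolynomial (Fin 2) k →ₐ[k] MvPolynomial τ k)
    {y : Fin (r + 1) → k} (hy : y 0 = 1) :
    R (cmF y F) = R (F 0) + ∑ i : Fin r, C (y i.succ) * R (F i.succ) := by
  have h1 : ∀ a : k, R (C a) = C a := fun a => R.commutes a
  unfold cmF
  rw [map_sum, Fin.sum_univ_succ, map_mul, h1, hy, C_1, one_mul]
  congr 1
  refine Finset.sum_congr rfl fun i _ => ?_
  rw [map_mul, h1]

theorem SR.of_cm {y : Fin (r + 1) → k} (hy : y 0 = 1) {s : ℚ}
    (h : SRI k (cmF y F) (idl F) s) : SR k (tot F) s := by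
  have h1 := SRI.lift (ι := Fin r) (a := fun i => F i.succ) (LFU_cm_mem y)
    (fun i => LFU_mem i.succ) (fun i => y i.succ) h
  have h2 : tot F = MvPolynomial.rename Sum.inl (cmF y F) +
      ∑ i : Fin r, (X (Sum.inr i) - C (y i.succ)) * MvPolynomial.rename Sum.inl (F i.succ) := by
    rw [LFU_rename _ hy, add_assoc, ← Finset.sum_add_distrib]
    unfold tot
    congr 1
    refine Finset.sum_congr rfl fun i _ => ?_
    ring
  rw [h2]
  exact h1

/-- one of the linear variables is kept -/
theorem SR.of_cm_var {y : Fin (r + 1) → k} (hy : y 0 = 1) (i : Fin r) {s : ℚ}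
    (h : SRI k (MvPolynomial.rename Sum.inl (cmF y F) + (X (Sum.inr ()) - C (y i.succ)) *
        MvPolynomial.rename Sum.inl (F i.succ) : MvPolynomial (Fin 2 ⊕ Unit) k)
      ((idl F).map (MvPolynomial.rename Sum.inl :
        MvPolynomial (Fin 2) k →ₐ[k] MvPolynomial (Fin 2 ⊕ Unit) k)) s) : SR k (tot F) s := by
  classical
  have hm : ∀ p ∈ idl F, (MvPolynomial.rename Sum.inl p : MvPolynomial (Fin 2 ⊕ Unit) k) ∈
      (idl F).map (MvPolynomial.rename Sum.inl :
        MvPolynomial (Fin 2) k →ₐ[k] MvPolynomial (Fin 2 ⊕ Unit) k) :=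
    fun p hp => Ideal.mem_map_of_mem _ hp
  have h1 := SRI.lift (ι := Fin r)
    (a := fun l => if l = i then 0 else
      (MvPolynomial.rename Sum.inl (F l.succ) : MvPolynomial (Fin 2 ⊕ Unit) k))
    (((idl F).map (MvPolynomial.rename Sum.inl :
        MvPolynomial (Fin 2) k →ₐ[k] MvPolynomial (Fin 2 ⊕ Unit) k)).add_mem
      (hm _ (LFU_cm_mem y)) (Ideal.mul_mem_left _ _ (hm _ (LFU_mem i.succ))))
    (fun l => by
      by_cases hl : l = i
      · simp [hl]
      · simp only [hl, if_false]
        exact hm _ (LFU_mem l.succ))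
    (fun l => y l.succ) h
  let g : Fin 2 ⊕ Fin r → (Fin 2 ⊕ Unit) ⊕ Fin r :=
    Sum.elim (fun x => Sum.inl (Sum.inl x)) (fun l => if l = i then Sum.inl (Sum.inr ()) else Sum.inr l)
  have hg : Function.Injective g := by
    intro a b hab
    rcases a with a | a <;> rcases b with b | b
    · simpa [g] using hab
    · exfalso
      by_cases hb : b = i
      · simp [g, hb] at hab
      · simp [g, hb] at hab
    · exfalso
      by_cases hb : a = i
      · simp [g, hb] at hab
      · simp [g, hb] at hab
    · by_cases ha : a = i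
      · by_cases hb : b = i
        · rw [ha, hb]
        · simp [g, ha, hb] at hab
      · by_cases hb : b = i
        · simp [g, ha, hb] at hab
        · simpa [g, ha, hb] using hab
  refine SR.res hg ?_
  have h2 : MvPolynomial.rename g (tot F) =
      MvPolynomial.rename Sum.inl (MvPolynomial.rename Sum.inl (cmF y F) +
        (X (Sum.inr ()) - C (y i.succ)) *
        MvPolynomial.rename Sum.inl (F i.succ) : MvPolynomial (Fin 2 ⊕ Unit) k) +
      ∑ l : Fin r, (X (Sum.inr l) - C (y l.succ)) * MvPolynomial.rename Sum.inl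
        (if l = i then 0 else
          (MvPolynomial.rename Sum.inl (F l.succ) : MvPolynomial (Fin 2 ⊕ Unit) k)) := by
    set R : MvPolynomial (Fin 2) k →ₐ[k] MvPolynomial ((Fin 2 ⊕ Unit) ⊕ Fin r) k :=
      MvPolynomial.rename (fun x => Sum.inl (Sum.inl x)) with hR
    have hR1 : ∀ p, MvPolynomial.rename Sum.inl
        (MvPolynomial.rename Sum.inl p : MvPolynomial (Fin 2 ⊕ Unit) k) = R p := by
      intro p
      rw [MvPolynomial.rename_rename]
      rfl
    have hR2 : ∀ p, MvPolynomial.rename g (MvPolynomial.rename Sum.inl p) = R p := by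
      intro p
      rw [MvPolynomial.rename_rename]
      rfl
    unfold tot
    rw [map_add, hR2, map_sum, map_add, hR1, map_mul, map_sub, rename_X, rename_C, hR1,
      LFU_rename R hy, add_assoc, add_assoc]
    congr 1
    have h3 : ∀ l : Fin r, MvPolynomial.rename g (X (Sum.inr l) *
        MvPolynomial.rename Sum.inl (F l.succ)) =
        C (y l.succ) * R (F l.succ) + ((if l = i then
          (X (Sum.inl (Sum.inr ())) - C (y i.succ)) * R (F i.succ) else 0) +
        (X (Sum.inr l) - C (y l.succ)) * MvPolynomial.rename Sum.inl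
        (if l = i then 0 else
          (MvPolynomial.rename Sum.inl (F l.succ) : MvPolynomial (Fin 2 ⊕ Unit) k))) := by
      intro l
      rw [map_mul, rename_X, hR2]
      by_cases hl : l = i
      · subst hl
        simp only [g, Sum.elim_inr, if_true, map_zero, mul_zero, add_zero]
        ring
      · simp only [g, Sum.elim_inr, hl, if_false, hR1]
        ring
    rw [Finset.sum_congr rfl fun l _ => h3 l, Finset.sum_add_distrib, Finset.sum_add_distrib,
      Finset.sum_ite_eq' Finset.univ i]
    simp
  rw [h2]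
  exact h1

end LFU

end Pool.Agent.H75.Mono
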