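import Pool.Agent.H75.Idl.I0
import Pool.Agent.H75.Plc.SRM
import Pool.Agent.H75.Mono.BB

/-! # LIY, module OKP: powers of irreducible polynomials -/

set_option autoImplicit false

namespace Pool.Agent.H75.Mono

open MvPolynomial Pool.Agent.H39.MonoR

section OKP

variable {k : Type} [Field k] {r : ℕ} {F : Fin (r + 1) → MvPolynomial (Fin 2) k}

private theorem okp_prime {P' : MvPolynomial (Fin 2) k} (hP : Irreducible P') :
    Prime (rename (Sum.inl : Fin 2 → Fin 2 ⊕ Fin r) P') := by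
  set e : Fin 2 ≃ Set.range (Sum.inl : Fin 2 → Fin 2 ⊕ Fin r) :=
    Equiv.ofInjective _ Sum.inl_injective with he
  have h1 : Prime (renameEquiv k e P') :=
    (MulEquiv.prime_iff (renameEquiv k e).toMulEquiv).2 hP.prime
  have h2 := (MvPolynomial.prime_rename_iff (R := k)
    (Set.range (Sum.inl : Fin 2 → Fin 2 ⊕ Fin r))).2 h1
  have h3 : rename ((↑) : Set.range (Sum.inl : Fin 2 → Fin 2 ⊕ Fin r) → Fin 2 ⊕ Fin r)
      (renameEquiv k e P') = rename Sum.inl P' := by
    rw [renameEquiv_apply, rename_rename]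
    rfl
  rwa [h3] at h2

private theorem okp_aeval (Q : Fin (r + 1) → MvPolynomial (Fin 2) k)
    (y : Fin r → MvPolynomial (Fin 2) k) :
    aeval (Sum.elim X y : Fin 2 ⊕ Fin r → MvPolynomial (Fin 2) k) (tot Q) =
      Q 0 + ∑ i, y i * Q i.succ := by
  unfold tot
  rw [map_add, map_sum]
  have h : ∀ A : MvPolynomial (Fin 2) k,
      aeval (Sum.elim X y : Fin 2 ⊕ Fin r → MvPolynomial (Fin 2) k) (rename Sum.inl A) = A := by
    intro A
    rw [aeval_rename]
    simp [Function.comp_def]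
  rw [h]
  congr 1
  refine Finset.sum_congr rfl fun i _ => ?_
  rw [map_mul, h, aeval_X, Sum.elim_inr]

private theorem okp_not_dvd {P' : MvPolynomial (Fin 2) k}
    {Q' : Fin (r + 1) → MvPolynomial (Fin 2) k} (hQ : ∃ e, ¬ P' ∣ Q' e) :
    ¬ rename (Sum.inl : Fin 2 → Fin 2 ⊕ Fin r) P' ∣ tot Q' := by
  rintro ⟨B, hB⟩
  have key : ∀ y : Fin r → MvPolynomial (Fin 2) k, P' ∣ Q' 0 + ∑ i, y i * Q' i.succ := by
    intro y
    refine ⟨aeval (Sum.elim X y : Fin 2 ⊕ Fin r → MvPolynomial (Fin 2) k) B, ?_⟩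
    rw [← okp_aeval, hB, map_mul, aeval_rename]
    congr 1
    simp [Function.comp_def]
  have h0 : P' ∣ Q' 0 := by
    have := key 0
    simpa using this
  obtain ⟨e, he⟩ := hQ
  apply he
  refine Fin.cases h0 (fun i => ?_) e
  have h1 := key (Pi.single i 1)
  rw [dvd_add_right h0] at h1
  have h2 : ∑ j, (Pi.single i 1 : Fin r → MvPolynomial (Fin 2) k) j * Q' j.succ = Q' i.succ := by
    rw [Finset.sum_eq_single i]
    · simp
    · intro j _ hj
      simp [hj]
    · intro h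
      exact absurd (Finset.mem_univ _) h
  rwa [h2] at h1

private theorem okp_tot {P' : MvPolynomial (Fin 2) k}
    {Q' : Fin (r + 1) → MvPolynomial (Fin 2) k} {m : ℕ}
    (hF : ∀ e, F e = P' ^ m * Q' e) :
    tot F = rename (Sum.inl : Fin 2 → Fin 2 ⊕ Fin r) P' ^ m * tot Q' := by
  unfold tot
  rw [hF 0, map_mul, map_pow, mul_add, Finset.mul_sum]
  congr 1
  refine Finset.sum_congr rfl fun i _ => ?_
  rw [hF, map_mul, map_pow]
  ring

theorem ok_pow [CharZero k] {P' : MvPolynomial (Fin 2) k}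
    {Q' : Fin (r + 1) → MvPolynomial (Fin 2) k} {m : ℕ} (hm : 0 < m)
    (hF : ∀ e, F e = P' ^ m * Q' e) (hP : Irreducible P') (hQ : ∃ e, ¬ P' ∣ Q' e) :
    Ok (tot F) (-1, m) := by
  refine ⟨by norm_num, hm, ?_⟩
  rcases Nat.lt_or_ge 1 m with h | h
  · right
    have h1 := (SRs.of_pow (okp_tot hF) (okp_prime hP).irreducible (okp_not_dvd hQ) h).sr
    have h2 : (-((-1 : ℤ) : ℚ) / ((m : ℕ) : ℚ)) = (1 : ℚ) / m := by
      push_cast
      ring
    show SR k (tot F) (-((-1 : ℤ) : ℚ) / ((m : ℕ) : ℚ))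
    rw [h2]
    exact h1
  · left
    have : m = 1 := by omega
    subst this
    norm_num

end OKP

end Pool.Agent.H75.Mono
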