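import Pool.Agent.H75.Idl.I0
import Pool.Agent.H75.Plc.BEZ
import Pool.Agent.H75.Plc.DER

/-! # LIY, module PRV: common components -/

set_option autoImplicit false

namespace Pool.Agent.H75.Mono

open MvPolynomial Pool.Agent.H39.MonoR

section PRV

variable {k : Type} [Field k]

private theorem prv_wt (m : Fin 2 →₀ ℕ) : Finsupp.weight (![0, 1] : Fin 2 → ℕ) m = m 1 := by
  rw [Finsupp.weight_apply, Finsupp.sum_fintype _ _ (by simp)]
  simp

/-- divisibility by `Y` and weighted order -/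
private theorem prv_dvd (A : PS k) : (MvPowerSeries.X 1 : PS k) ∣ A ↔
    A.weightedOrder (![0, 1] : Fin 2 → ℕ) ≠ 0 := by
  rw [MvPowerSeries.X_dvd_iff]
  constructor
  · intro h h0
    have h1 : ((1 : ℕ) : ℕ∞) ≤ A.weightedOrder (![0, 1] : Fin 2 → ℕ) := by
      apply MvPowerSeries.nat_le_weightedOrder
      intro d hd
      apply h
      rw [prv_wt] at hd
      omega
    rw [h0] at h1
    norm_num at h1
  · intro h m hm
    apply MvPowerSeries.coeff_eq_zero_of_lt_weightedOrder (![0, 1] : Fin 2 → ℕ)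
    rw [prv_wt, hm]
    exact pos_iff_ne_zero.2 h

private theorem prv_mul {A B : PS k} (h : (MvPowerSeries.X 1 : PS k) ∣ A * B) :
    (MvPowerSeries.X 1 : PS k) ∣ A ∨ (MvPowerSeries.X 1 : PS k) ∣ B := by
  rw [prv_dvd, MvPowerSeries.weightedOrder_mul] at h
  rw [prv_dvd, prv_dvd]
  by_contra hc
  push Not at hc
  exact h (by rw [hc.1, hc.2, add_zero])

private theorem prv_prime : Prime (MvPowerSeries.X 1 : PS k) := by
  refine ⟨?_, ?_, fun A B h => prv_mul h⟩
  · intro h
    have h1 := congrArg (MvPowerSeries.coeff (Finsupp.single 1 1)) h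
    rw [MvPowerSeries.coeff_X, if_pos rfl, map_zero] at h1
    exact one_ne_zero h1
  · intro h
    have h1 := h.map (MvPowerSeries.constantCoeff : PS k →+* k)
    rw [MvPowerSeries.constantCoeff_X] at h1
    exact h1.ne_zero rfl

private theorem prv_not_X0 (n : ℕ) : ¬ (MvPowerSeries.X 1 : PS k) ∣ MvPowerSeries.X 0 ^ n := by
  intro h
  have h1 := prv_prime.dvd_of_dvd_pow h
  rw [MvPowerSeries.X_dvd_iff] at h1
  have h2 := h1 (Finsupp.single 0 1) (by simp)
  rw [MvPowerSeries.coeff_X, if_pos rfl] at h2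
  exact one_ne_zero h2

private theorem prv_not_const {A : PS k} (h : MvPowerSeries.constantCoeff A ≠ 0) :
    ¬ (MvPowerSeries.X 1 : PS k) ∣ A := by
  rintro ⟨B, rfl⟩
  rw [map_mul, MvPowerSeries.constantCoeff_X, zero_mul] at h
  exact h rfl

private theorem prv_deriv {A : PS k} (i : Fin 2)
    (h : (MvPowerSeries.X 1 : PS k) ^ 2 ∣ A) :
    (MvPowerSeries.X 1 : PS k) ∣ MvPowerSeries.pderiv k i A := by
  obtain ⟨B, rfl⟩ := h
  rw [Derivation.leibniz, Derivation.leibniz_pow]
  simp only [smul_eq_mul, nsmul_eq_mul]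
  refine dvd_add (dvd_mul_of_dvd_left (dvd_pow_self _ (by norm_num)) _) ?_
  refine dvd_mul_of_dvd_right (dvd_mul_of_dvd_right (dvd_mul_of_dvd_left ?_ _) _) _
  simp

private theorem prv_deriv0 {A : PS k} (h : (MvPowerSeries.X 1 : PS k) ∣ A) :
    (MvPowerSeries.X 1 : PS k) ∣ MvPowerSeries.pderiv k 0 A := by
  obtain ⟨B, rfl⟩ := h
  rw [Derivation.leibniz, MvPowerSeries.pderiv_X_of_ne (by decide), smul_zero, add_zero, smul_eq_mul]
  exact dvd_mul_right _ _

private theorem prv_chain {R : Type} [CommRing R] [Algebra k R] (D : Derivation k R R)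
    (x : Fin 2 → R) (A : MvPolynomial (Fin 2) k) :
    D (aeval x A) = aeval x (pderiv 0 A) * D (x 0) + aeval x (pderiv 1 A) * D (x 1) := by
  induction A using MvPolynomial.induction_on with
  | C a => simp
  | add p q hp hq =>
    simp only [map_add, hp, hq]
    ring
  | mul_X p i hp =>
    rw [map_mul, aeval_X, Derivation.leibniz, hp]
    fin_cases i
    · simp [Derivation.leibniz, pderiv_X]
      ring
    · simp [Derivation.leibniz, pderiv_X]
      ring

/-- an irreducible factor in the prime ideal -/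
private theorem prv_factor (x : Fin 2 → PS k) (A : MvPolynomial (Fin 2) k) :
    A ≠ 0 → (MvPowerSeries.X 1 : PS k) ∣ aeval x A →
      ∃ P' : MvPolynomial (Fin 2) k, Irreducible P' ∧ P' ∣ A ∧
        (MvPowerSeries.X 1 : PS k) ∣ aeval x P' := by
  induction A using UniqueFactorizationMonoid.induction_on_prime with
  | h₁ => intro h; exact absurd rfl h
  | h₂ u hu =>
    intro _ h
    exact absurd (isUnit_of_dvd_unit h (hu.map (aeval x : MvPolynomial (Fin 2) k →ₐ[k] PS k)))
      prv_prime.not_isUnit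
  | h₃ a p ha hp ih =>
    intro _ h
    rw [map_mul] at h
    rcases prv_mul h with h1 | h1
    · exact ⟨p, hp.irreducible, dvd_mul_right _ _, h1⟩
    · obtain ⟨P', h2, h3, h4⟩ := ih ha h1
      exact ⟨P', h2, h3.mul_left _, h4⟩

variable [CharZero k]

omit [CharZero k] in
private theorem prv_coeff (P : MvPolynomial (Fin 2) k) (l : Fin 2) (m : Fin 2 →₀ ℕ) :
    MvPolynomial.coeff m (pderiv l P) =
      MvPolynomial.coeff (m + Finsupp.single l 1) P * ((m l : k) + 1) := by
  have h := MvPowerSeries.coeff_pderiv (i := l) (P : MvPowerSeries (Fin 2) k) m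
  rw [MvPowerSeries.pderiv_coe] at h
  rw [MvPolynomial.coeff_coe, MvPolynomial.coeff_coe] at h
  exact h

/-- a polynomial does not divide its nonzero derivatives -/
private theorem prv_not_dvd {P : MvPolynomial (Fin 2) k} {l : Fin 2} (h : pderiv l P ≠ 0) :
    ¬ P ∣ pderiv l P := by
  rintro ⟨Q, hQ⟩
  have hP : P ≠ 0 := by
    rintro rfl
    exact h (map_zero _)
  have hQ0 : Q ≠ 0 := by
    rintro rfl
    rw [mul_zero] at hQ
    exact h hQ
  have h1 := totalDegree_mul_of_isDomain hP hQ0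
  rw [← hQ] at h1
  have h2 : (pderiv l P).totalDegree < P.totalDegree := by
    obtain ⟨m, hm, hm2⟩ : ∃ m ∈ (pderiv l P).support, (pderiv l P).totalDegree =
        m.sum fun _ e => e := by
      have hne : (pderiv l P).support.Nonempty := by
        rw [Finset.nonempty_iff_ne_empty]
        intro h3
        exact h (MvPolynomial.support_eq_empty.1 h3)
      obtain ⟨m, hm, hm2⟩ := Finset.exists_mem_eq_sup (pderiv l P).support hne
        (fun m => m.sum fun _ e => e)
      exact ⟨m, hm, hm2⟩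
    rw [MvPolynomial.mem_support_iff, prv_coeff] at hm
    have h3 : m + Finsupp.single l 1 ∈ P.support := by
      rw [MvPolynomial.mem_support_iff]
      exact left_ne_zero_of_mul hm
    have h4 := MvPolynomial.le_totalDegree h3
    have h5 : ((m + Finsupp.single l 1).sum fun _ e => e) = (m.sum fun _ e => e) + 1 := by
      rw [Finsupp.sum_add_index' (fun _ => rfl) (fun _ _ _ => rfl), Finsupp.sum_single_index rfl]
    omega
  omega

private theorem prv_const {P : MvPolynomial (Fin 2) k} (h : ∀ l, pderiv l P = 0) :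
    ∃ c, P = C c := by
  refine ⟨MvPolynomial.coeff 0 P, ?_⟩
  ext m
  rw [MvPolynomial.coeff_C]
  split_ifs with hm
  · rw [← hm]
  · obtain ⟨l, hl⟩ : ∃ l, m l ≠ 0 := by
      by_contra hc
      push Not at hc
      exact hm (Finsupp.ext fun l => (hc l).symm)
    have h1 := prv_coeff P l (m - Finsupp.single l 1)
    rw [h l, MvPolynomial.coeff_zero] at h1
    have h2 : m - Finsupp.single l 1 + Finsupp.single l 1 = m :=
      tsub_add_cancel_of_le (by
        rw [Finsupp.single_le_iff]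
        omega)
    rw [h2] at h1
    have h3 : (((m - Finsupp.single l 1 : Fin 2 →₀ ℕ) l : ℕ) : k) + 1 ≠ 0 :=
      Nat.cast_add_one_ne_zero _
    exact (mul_eq_zero.1 h1.symm).resolve_right h3

variable [IsAlgClosed k]

/-- two irreducible polynomials in the prime ideal are associated -/
private theorem prv_assoc {x : Fin 2 → PS k} {J : PS k}
    (hJ : MvPowerSeries.pderiv k 0 (x 0) * MvPowerSeries.pderiv k 1 (x 1) -
      MvPowerSeries.pderiv k 1 (x 0) * MvPowerSeries.pderiv k 0 (x 1) = J)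
    (hJ1 : ¬ (MvPowerSeries.X 1 : PS k) ∣ J) {P Q : MvPolynomial (Fin 2) k} (hP : Irreducible P)
    (hQ : Irreducible Q) (h1 : (MvPowerSeries.X 1 : PS k) ∣ aeval x P)
    (h2 : (MvPowerSeries.X 1 : PS k) ∣ aeval x Q) : Associated P Q := by
  by_contra hne
  have key : ∀ i, (MvPowerSeries.X 1 : PS k) ∣ MvPowerSeries.pderiv k 0 (x i) := by
    intro i
    obtain ⟨A, B, r, hr, hAB⟩ := exists_res hP hQ hne i
    have h3 : (MvPowerSeries.X 1 : PS k) ∣ Polynomial.aeval (x i) r := by
      have h4 := congrArg (aeval x : MvPolynomial (Fin 2) k →ₐ[k] PS k) hAB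
      rw [map_add, map_mul, map_mul, ← Polynomial.aeval_algHom_apply, aeval_X] at h4
      rw [← h4]
      exact dvd_add (dvd_mul_of_dvd_right h1 _) (dvd_mul_of_dvd_right h2 _)
    have h5 := (IsAlgClosed.splits r).eq_prod_roots
    rw [h5, map_mul, map_multiset_prod, Multiset.map_map] at h3
    rcases prv_mul h3 with h6 | h6
    · exfalso
      rw [Polynomial.aeval_C] at h6
      refine prv_not_const ?_ h6
      rw [MvPowerSeries.algebraMap_apply, Algebra.algebraMap_self_apply,
        MvPowerSeries.constantCoeff_C]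
      exact Polynomial.leadingCoeff_ne_zero.2 hr
    · obtain ⟨c, _, hc⟩ := prv_prime.exists_mem_multiset_map_dvd h6
      rw [Function.comp_apply, map_sub, Polynomial.aeval_X, Polynomial.aeval_C] at hc
      have h7 := prv_deriv0 hc
      rwa [map_sub, Derivation.map_algebraMap, sub_zero] at h7
  apply hJ1
  rw [← hJ]
  exact dvd_sub (dvd_mul_of_dvd_left (key 0) _) (dvd_mul_of_dvd_right (key 1) _)

variable {r : ℕ} {F : Fin (r + 1) → MvPolynomial (Fin 2) k}
  {P : Fin 2 → k} {G : Fin (r + 1) → PS k} {N ν : ℕ}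

theorem Chv.exists_irred (hC : Chv F P N ν G) {b i : ℕ} (hb : 0 < b)
    (hG : ∃ e, cf (G e) i b ≠ 0) (hD : ∀ e i j, cf (G e) i j ≠ 0 → b ≤ j) :
    ∃ (P' : MvPolynomial (Fin 2) k) (Q' : Fin (r + 1) → MvPolynomial (Fin 2) k),
      (∀ e, F e = P' ^ b * Q' e) ∧ Irreducible P' ∧ ∃ e, ¬ P' ∣ Q' e := by
  obtain ⟨x, j, hx, hF, hJ, hj⟩ := hC
  obtain ⟨e0, hG0⟩ := hG
  have hixm : ∀ m : Fin 2 →₀ ℕ, m = ix (m 0) (m 1) := by
    intro m
    ext i
    fin_cases i <;> simp [ix]
  have hJ1 : ¬ (MvPowerSeries.X 1 : PS k) ∣ MvPowerSeries.X 0 ^ (ν - 1) * j := fun h => by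
    rcases prv_mul h with h1 | h1
    · exact prv_not_X0 _ h1
    · exact prv_not_const hj h1
  have hGd : ∀ e, (MvPowerSeries.X 1 : PS k) ^ b ∣ G e := by
    intro e
    rw [MvPowerSeries.X_pow_dvd_iff]
    intro m hm
    by_contra hc
    have := hD e (m 0) (m 1) (by unfold cf; rw [← hixm m]; exact hc)
    omega
  obtain ⟨G', hG'⟩ := hGd e0
  have hG'1 : ¬ (MvPowerSeries.X 1 : PS k) ∣ G' := by
    rintro ⟨B, rfl⟩
    have h1 : (MvPowerSeries.X 1 : PS k) ^ (b + 1) ∣ G e0 :=
      ⟨B, by rw [hG', pow_succ, mul_assoc]⟩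
    rw [MvPowerSeries.X_pow_dvd_iff] at h1
    apply hG0
    apply h1
    simp [ix]
  have hF1 : (MvPowerSeries.X 1 : PS k) ∣ aeval x (F e0) := by
    rw [hF, hG']
    exact dvd_mul_of_dvd_right (dvd_mul_of_dvd_left (dvd_pow_self _ hb.ne') _) _
  have hF0 : F e0 ≠ 0 := by
    intro h0
    have hF' := hF e0
    rw [h0, map_zero] at hF'
    have h1 : (MvPowerSeries.X 0 : PS k) ^ N ≠ 0 := fun h => prv_not_X0 (k := k) N (h ▸ dvd_zero _)
    have h2 : G e0 = 0 := (mul_eq_zero.1 hF'.symm).resolve_left h1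
    apply hG0
    rw [h2]
    unfold cf
    rw [map_zero]
  obtain ⟨P', hP', hPF, hP1⟩ := prv_factor x (F e0) hF0 hF1
  have hP2 : ¬ (MvPowerSeries.X 1 : PS k) ^ 2 ∣ aeval x P' := by
    intro h
    have h0 := prv_deriv 0 h
    have h1 := prv_deriv 1 h
    have e0 := prv_chain (MvPowerSeries.pderiv k 0) x P'
    have e1 := prv_chain (MvPowerSeries.pderiv k 1) x P'
    have hd : ∀ l : Fin 2, (MvPowerSeries.X 1 : PS k) ∣ aeval x (pderiv l P') := by
      intro l
      have h2 : (MvPowerSeries.X 1 : PS k) ∣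
          (MvPowerSeries.X 0 ^ (ν - 1) * j) * aeval x (pderiv l P') := by
        rw [← hJ]
        fin_cases l
        · have h3 : (MvPowerSeries.pderiv k 0 (x 0) * MvPowerSeries.pderiv k 1 (x 1) -
              MvPowerSeries.pderiv k 1 (x 0) * MvPowerSeries.pderiv k 0 (x 1)) *
                aeval x (pderiv 0 P') =
              MvPowerSeries.pderiv k 0 (aeval x P') * MvPowerSeries.pderiv k 1 (x 1) -
              MvPowerSeries.pderiv k 1 (aeval x P') * MvPowerSeries.pderiv k 0 (x 1) := by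
            rw [e0, e1]
            ring
          show (MvPowerSeries.X 1 : PS k) ∣ _ * aeval x (pderiv 0 P')
          rw [h3]
          exact dvd_sub (dvd_mul_of_dvd_left h0 _) (dvd_mul_of_dvd_left h1 _)
        · have h3 : (MvPowerSeries.pderiv k 0 (x 0) * MvPowerSeries.pderiv k 1 (x 1) -
              MvPowerSeries.pderiv k 1 (x 0) * MvPowerSeries.pderiv k 0 (x 1)) *
                aeval x (pderiv 1 P') =
              MvPowerSeries.pderiv k 1 (aeval x P') * MvPowerSeries.pderiv k 0 (x 0) -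
              MvPowerSeries.pderiv k 0 (aeval x P') * MvPowerSeries.pderiv k 1 (x 0) := by
            rw [e0, e1]
            ring
          show (MvPowerSeries.X 1 : PS k) ∣ _ * aeval x (pderiv 1 P')
          rw [h3]
          exact dvd_sub (dvd_mul_of_dvd_left h1 _) (dvd_mul_of_dvd_left h0 _)
      exact (prv_mul h2).resolve_left hJ1
    have hz : ∀ l : Fin 2, pderiv l P' = 0 := by
      intro l
      by_contra hne
      obtain ⟨P'', h1, h2, h3⟩ := prv_factor x (pderiv l P') hne (hd l)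
      exact prv_not_dvd hne ((prv_assoc hJ hJ1 hP' h1 hP1 h3).dvd.trans h2)
    obtain ⟨c, hc⟩ := prv_const hz
    apply hP'.not_isUnit
    rw [hc]
    apply IsUnit.map
    rw [isUnit_iff_ne_zero]
    rintro rfl
    exact hP'.ne_zero (by rw [hc, map_zero])
  obtain ⟨w, hw⟩ := hP1
  have hw1 : ¬ (MvPowerSeries.X 1 : PS k) ∣ w := by
    rintro ⟨B, rfl⟩
    exact hP2 ⟨B, by rw [hw]; ring⟩
  have hY : ∀ n, (MvPowerSeries.X 1 : PS k) ^ n ≠ 0 := fun n => pow_ne_zero n prv_prime.ne_zero
  have hdv : ∀ e, P' ^ b ∣ F e := by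
    intro e
    by_cases he : F e = 0
    · rw [he]
      exact dvd_zero _
    have hfin : FiniteMultiplicity P' (F e) := FiniteMultiplicity.of_not_isUnit hP'.not_isUnit he
    obtain ⟨Q', hQ', hPQ⟩ := hfin.exists_eq_pow_mul_and_not_dvd
    have hQ0 : Q' ≠ 0 := by
      rintro rfl
      exact hPQ (dvd_zero _)
    have hQ1 : ¬ (MvPowerSeries.X 1 : PS k) ∣ aeval x Q' := by
      intro h
      obtain ⟨P'', h1, h2, h3⟩ := prv_factor x Q' hQ0 h
      exact hPQ ((prv_assoc hJ hJ1 hP' h1 ⟨w, hw⟩ h3).dvd.trans h2)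
    set m := multiplicity P' (F e) with hm
    have hmb : b ≤ m := by
      by_contra hlt
      push Not at hlt
      obtain ⟨g, hg⟩ := hGd e
      have h1 : (MvPowerSeries.X 1 : PS k) ^ m * (w ^ m * aeval x Q') =
          (MvPowerSeries.X 1 : PS k) ^ b * (MvPowerSeries.X 0 ^ N * g) := by
        have h2 : aeval x (F e) = (MvPowerSeries.X 1 * w) ^ m * aeval x Q' := by
          rw [hQ', map_mul, map_pow, hw]
        rw [hF, hg] at h2
        rw [mul_pow] at h2
        rw [← mul_assoc, ← h2]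
        ring
      have hA : ¬ (MvPowerSeries.X 1 : PS k) ∣ w ^ m * aeval x Q' := fun h => by
        rcases prv_mul h with h3 | h3
        · exact hw1 (prv_prime.dvd_of_dvd_pow h3)
        · exact hQ1 h3
      apply hA
      obtain ⟨c, hc⟩ : ∃ c, b = m + (c + 1) := ⟨b - m - 1, by omega⟩
      rw [hc, pow_add, mul_assoc] at h1
      have h4 := mul_left_cancel₀ (hY m) h1
      rw [h4, pow_succ']
      exact dvd_mul_of_dvd_left (dvd_mul_right _ _) _
    rw [hQ']
    exact dvd_mul_of_dvd_left (pow_dvd_pow _ hmb) _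
  choose Q' hQ' using hdv
  refine ⟨P', Q', hQ', hP', e0, ?_⟩
  rintro ⟨B, hB⟩
  have h1 : (MvPowerSeries.X 1 : PS k) ^ (b + 1) * (w ^ (b + 1) * aeval x B) =
      (MvPowerSeries.X 1 : PS k) ^ b * (MvPowerSeries.X 0 ^ N * G') := by
    have h2 : aeval x (F e0) = (MvPowerSeries.X 1 * w) ^ (b + 1) * aeval x B := by
      rw [hQ' e0, hB, map_mul, map_pow, map_mul, hw]
      ring
    rw [hF, hG'] at h2
    rw [mul_pow] at h2
    rw [← mul_assoc, ← h2]
    ring
  have hB' : ¬ (MvPowerSeries.X 1 : PS k) ∣ MvPowerSeries.X 0 ^ N * G' := fun h => by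
    rcases prv_mul h with h3 | h3
    · exact prv_not_X0 _ h3
    · exact hG'1 h3
  apply hB'
  rw [pow_succ, mul_assoc] at h1
  have h4 := mul_left_cancel₀ (hY b) h1
  rw [← h4]
  exact dvd_mul_right _ _

end PRV

end Pool.Agent.H75.Mono
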