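import Pool.Agent.H75.Idl.I0
import Pool.Agent.H75.Plc.TOR

/-! # LIY, module TRW: toric coordinates for tuples -/

set_option autoImplicit false

namespace Pool.Agent.H75.Mono

open MvPolynomial Pool.Agent.H39.MonoR

section TRWaux

variable {k : Type} [Field k] {K : Type} [Field K] [Algebra k K]

/-- the monomial substitution -/
private noncomputable def trwu (u v : K) (p q : ℕ) : Fin 2 → MvPowerSeries Unit K :=
  ![(PowerSeries.C u * PowerSeries.X ^ p : PowerSeries K),
    (PowerSeries.C v * PowerSeries.X ^ q : PowerSeries K)]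

private theorem trw_cc (u v : K) {p q : ℕ} (hp : 0 < p) (hq : 0 < q) :
    PowerSeries.constantCoeff (PowerSeries.C u * PowerSeries.X ^ p : PowerSeries K) = 0 ∧
    PowerSeries.constantCoeff (PowerSeries.C v * PowerSeries.X ^ q : PowerSeries K) = 0 := by
  constructor
  · rw [map_mul, map_pow, PowerSeries.constantCoeff_X, zero_pow (by omega), mul_zero]
  · rw [map_mul, map_pow, PowerSeries.constantCoeff_X, zero_pow (by omega), mul_zero]

private theorem trw_has (u v : K) {p q : ℕ} (hp : 0 < p) (hq : 0 < q) :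
    MvPowerSeries.HasSubst (trwu u v p q) := by
  refine MvPowerSeries.hasSubst_of_constantCoeff_zero fun i => ?_
  fin_cases i
  · exact (trw_cc u v hp hq).1
  · exact (trw_cc u v hp hq).2

private theorem trw_coeff (u v : K) {p q : ℕ} (hp : 0 < p) (hq : 0 < q) (G : PS k) (n : ℕ) :
    PowerSeries.coeff n (MvPowerSeries.subst (trwu u v p q) G : PowerSeries K) =
      ∑ᶠ d : Fin 2 →₀ ℕ, (if d 0 * p + d 1 * q = n then
        algebraMap k K (cf G (d 0) (d 1)) * (u ^ (d 0) * v ^ (d 1)) else 0) := by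
  show MvPowerSeries.coeff (Finsupp.single () n) (MvPowerSeries.subst (trwu u v p q) G) = _
  rw [MvPowerSeries.coeff_subst (trw_has u v hp hq)]
  refine finsum_congr fun d => ?_
  have hd : d = ix (d 0) (d 1) := by
    ext i
    fin_cases i <;> simp [ix]
  rw [Finsupp.prod_fintype _ _ (fun i => pow_zero _), Fin.prod_univ_two]
  have e1 : (trwu u v p q 0 ^ d 0 * trwu u v p q 1 ^ d 1 : MvPowerSeries Unit K) =
      (PowerSeries.C (u ^ d 0 * v ^ d 1) * PowerSeries.X ^ (d 0 * p + d 1 * q) :
        PowerSeries K) := by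
    show ((PowerSeries.C u * PowerSeries.X ^ p) ^ d 0 *
      (PowerSeries.C v * PowerSeries.X ^ q) ^ d 1 : PowerSeries K) = _
    rw [mul_pow, mul_pow, ← pow_mul, ← pow_mul, map_mul, map_pow, map_pow, pow_add,
      mul_comm p, mul_comm q]
    ring
  rw [e1]
  have e2 : MvPowerSeries.coeff (Finsupp.single () n)
      (PowerSeries.C (u ^ d 0 * v ^ d 1) * PowerSeries.X ^ (d 0 * p + d 1 * q) :
        PowerSeries K) = if d 0 * p + d 1 * q = n then u ^ d 0 * v ^ d 1 else 0 := by
    show PowerSeries.coeff n _ = _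
    rw [PowerSeries.coeff_C_mul, PowerSeries.coeff_X_pow]
    simp [eq_comm]
  rw [e2, cf, ← hd, Algebra.smul_def]
  split_ifs <;> simp

private theorem trw_dvd (u v : K) {p q c : ℕ} (hp : 0 < p) (hq : 0 < q) {G : PS k}
    (hG : ∀ i j, cf G i j ≠ 0 → c ≤ i * p + j * q) :
    PowerSeries.X ^ c ∣ (MvPowerSeries.subst (trwu u v p q) G : PowerSeries K) := by
  rw [PowerSeries.X_pow_dvd_iff]
  intro m hm
  rw [trw_coeff u v hp hq]
  rw [finsum_eq_zero_of_forall_eq_zero]
  intro d
  by_cases h : d 0 * p + d 1 * q = m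
  · have h1 : cf G (d 0) (d 1) = 0 := by
      by_contra h2
      have := hG _ _ h2
      omega
    rw [h1]; simp
  · rw [if_neg h]

private theorem trw_edge (u v : K) {a b p q E : ℕ} {G : PS k} (hE : Edge G a b p q E) :
    PowerSeries.coeff (a * p + b * q) (MvPowerSeries.subst (trwu u v p q) G : PowerSeries K) =
      ∑ n ∈ Finset.range (E + 1), algebraMap k K (cf G (a + q * n) (b - p * n)) *
        (u ^ (a + q * n) * v ^ (b - p * n)) := by
  classical
  rw [trw_coeff u v hE.p0 hE.q0]
  have hinj : ∀ i j i' j' : ℕ, ix i j = ix i' j' → i = i' ∧ j = j' := by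
    intro i j i' j' h
    constructor
    · simpa [ix] using congrArg (fun f => f 0) h
    · simpa [ix] using congrArg (fun f => f 1) h
  rw [finsum_eq_sum_of_support_subset (s := (Finset.range (E + 1)).image
    (fun n => ix (a + q * n) (b - p * n)))]
  · rw [Finset.sum_image]
    · refine Finset.sum_congr rfl fun n hn => ?_
      have e0 : (ix (a + q * n) (b - p * n)) 0 = a + q * n := by simp [ix]
      have e1 : (ix (a + q * n) (b - p * n)) 1 = b - p * n := by simp [ix]
      rw [e0, e1, if_pos]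
      have hn' : n ≤ E := by simpa [Nat.lt_succ_iff] using hn
      have h1 : p * n ≤ b := (Nat.mul_le_mul_left _ hn').trans hE.eb
      obtain ⟨c, hc⟩ : ∃ c, b = p * n + c := ⟨b - p * n, by omega⟩
      rw [hc, Nat.add_sub_cancel_left]
      ring
    · intro n hn m hm h
      have h1 := (hinj _ _ _ _ h).1
      exact Nat.eq_of_mul_eq_mul_left hE.q0 (by omega)
  · intro d hd
    rw [Function.mem_support] at hd
    have h1 : d 0 * p + d 1 * q = a * p + b * q := by
      by_contra h
      rw [if_neg h] at hd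
      exact hd rfl
    rw [if_pos h1] at hd
    have h2 : cf G (d 0) (d 1) ≠ 0 := by
      intro h
      rw [h] at hd
      simp at hd
    obtain ⟨n, hn, h3, h4⟩ := hE.support h2 h1
    rw [Finset.coe_image]
    refine ⟨n, by simpa [Nat.lt_succ_iff] using hn, ?_⟩
    show ix (a + q * n) (b - p * n) = d
    rw [← h3, ← h4]
    ext i
    fin_cases i <;> simp [ix]

private theorem trw_const (u v : K) {p q : ℕ} (hp : 0 < p) (hq : 0 < q) (G : PS k) :
    PowerSeries.constantCoeff (MvPowerSeries.subst (trwu u v p q) G : PowerSeries K) =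
      algebraMap k K (MvPowerSeries.constantCoeff G) := by
  rw [← PowerSeries.coeff_zero_eq_constantCoeff_apply, trw_coeff u v hp hq,
    finsum_eq_single _ (0 : Fin 2 →₀ ℕ)]
  · have h1 : cf G 0 0 = MvPowerSeries.constantCoeff G := by
      rw [cf, show ix 0 0 = 0 by simp [ix], MvPowerSeries.coeff_zero_eq_constantCoeff_apply]
    simp [h1]
  · intro d hd
    rw [if_neg]
    intro h
    apply hd
    have h1 : d 0 = 0 := by
      have : d 0 * p = 0 := by omega
      rcases Nat.mul_eq_zero.1 this with h | h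
      · exact h
      · omega
    have h2 : d 1 = 0 := by
      have : d 1 * q = 0 := by omega
      rcases Nat.mul_eq_zero.1 this with h | h
      · exact h
      · omega
    ext i
    fin_cases i
    · simpa using h1
    · simpa using h2

private theorem trw_main [Algebra (Polynomial k) K] [IsScalarTower k (Polynomial k) K]
    {F : MvPolynomial (Fin 2) k} {N ν : ℕ} {G : PS k} {x0 : Fin 2 → PS k} {j0 : PS k}
    (hF : aeval x0 F = MvPowerSeries.X 0 ^ N * G)
    (hJ : MvPowerSeries.pderiv k 0 (x0 0) * MvPowerSeries.pderiv k 1 (x0 1) -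
      MvPowerSeries.pderiv k 1 (x0 0) * MvPowerSeries.pderiv k 0 (x0 1) =
        MvPowerSeries.X 0 ^ (ν - 1) * j0) (hj0 : MvPowerSeries.constantCoeff j0 ≠ 0)
    (hν : 0 < ν) {a b p q E r s : ℕ} (hE : Edge G a b p q E)
    (hrs : p * s = q * r + 1) {δ : Derivation k K K}
    (hδ : ∀ f : Polynomial k, δ (algebraMap _ _ f) = algebraMap _ _ (Polynomial.derivative f)) :
    ∃ (x : Fin 2 → PowerSeries K) (g j : PowerSeries K) (c : k), c ≠ 0 ∧
      (∀ (F' : MvPolynomial (Fin 2) k) (G' : PS k), aeval x0 F' = MvPowerSeries.X 0 ^ N * G' →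
        (∀ i j, cf G' i j ≠ 0 → a * p + b * q ≤ i * p + j * q) →
        PowerSeries.X ^ ((N + a) * p + b * q) ∣ (aeval x F' : PowerSeries K)) ∧
      aeval x F = PowerSeries.X ^ ((N + a) * p + b * q) * g ∧
      PowerSeries.constantCoeff g =
        algebraMap _ _ (Polynomial.X ^ (r * (N + a) + s * b - E) * edp G a b p q E) ∧
      PowerSeries.derivative _ (x 0) * cdr δ (x 1) - cdr δ (x 0) * PowerSeries.derivative _ (x 1) =
        PowerSeries.X ^ (ν * p + q - 1) * j ∧
      PowerSeries.constantCoeff j =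
        algebraMap _ _ (Polynomial.C c * Polynomial.X ^ (r * ν + s - 1)) := by
  have hp := hE.p0
  have hq := hE.q0
  have hs0 : 0 < s := by
    rcases Nat.eq_zero_or_pos s with h | h
    · rw [h] at hrs; omega
    · exact h
  set z : K := algebraMap (Polynomial k) K Polynomial.X with hz
  set u : K := z ^ r with hu
  set v : K := z ^ s with hv
  have hs : MvPowerSeries.HasSubst (trwu u v p q) := trw_has u v hp hq
  set S : PS k →ₐ[k] PowerSeries K := MvPowerSeries.substAlgHom hs with hS
  have hSa : ∀ f, S f = (MvPowerSeries.subst (trwu u v p q) f : PowerSeries K) := fun f => by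
    rw [hS, MvPowerSeries.coe_substAlgHom]
  have hcc : ∀ f, PowerSeries.constantCoeff (S f) =
      algebraMap k K (MvPowerSeries.constantCoeff f) := by
    intro f
    rw [hSa]
    exact trw_const u v hp hq f
  have hS0 : S (MvPowerSeries.X 0) = PowerSeries.C u * PowerSeries.X ^ p := by
    rw [hSa, MvPowerSeries.subst_X hs]; rfl
  have hS1 : S (MvPowerSeries.X 1) = PowerSeries.C v * PowerSeries.X ^ q := by
    rw [hSa, MvPowerSeries.subst_X hs]; rfl
  have hCX : ∀ f : Polynomial k, δ (algebraMap _ K f) =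
    algebraMap _ K (Polynomial.derivative f) := hδ
  have hδz : ∀ n : ℕ, δ (z ^ n) = n * z ^ (n - 1) := by
    intro n
    rw [hz, ← map_pow, hCX, Polynomial.derivative_X_pow, map_mul, map_pow]
    simp
  obtain ⟨g1, hg1⟩ := trw_dvd (K := K) u v hp hq hE.wt
  have hSG : S G = PowerSeries.X ^ (a * p + b * q) * g1 := by rw [hSa]; exact hg1
  -- derivatives
  have hcu := (trw_cc u v hp hq).1
  have hcv := (trw_cc u v hp hq).2
  have hD1 : ∀ f : PS k, PowerSeries.derivative K (S f) =
      S (MvPowerSeries.pderiv k 0 f) *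
        PowerSeries.derivative K (PowerSeries.C u * PowerSeries.X ^ p) +
      S (MvPowerSeries.pderiv k 1 f) *
        PowerSeries.derivative K (PowerSeries.C v * PowerSeries.X ^ q) := by
    intro f
    rw [hSa, hSa, hSa]
    refine deriv_subst (K := K) hcu hcv ((PowerSeries.derivative K).restrictScalars k) ?_ f
    intro n f hf
    obtain ⟨g, rfl⟩ := hf
    show _ ∣ PowerSeries.derivative K (PowerSeries.X ^ (n + 1) * g)
    rw [Derivation.leibniz, PowerSeries.derivative_pow, PowerSeries.derivative_X]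
    refine dvd_add ?_ ?_
    · exact Dvd.intro _ (by rw [smul_eq_mul, pow_succ, mul_assoc])
    · exact Dvd.intro (g * ((n + 1 : ℕ) : PowerSeries K)) (by
        rw [smul_eq_mul, Nat.add_sub_cancel]; ring)
  have hD2 : ∀ f : PS k, cdr δ (S f) =
      S (MvPowerSeries.pderiv k 0 f) *
        cdr δ (PowerSeries.C u * PowerSeries.X ^ p) +
      S (MvPowerSeries.pderiv k 1 f) *
        cdr δ (PowerSeries.C v * PowerSeries.X ^ q) := by
    intro f
    rw [hSa, hSa, hSa]
    refine deriv_subst (K := K) hcu hcv (cdr δ) ?_ f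
    intro n f hf
    rw [PowerSeries.X_pow_dvd_iff] at hf ⊢
    intro m hm
    rw [coeff_cdr, hf m (by omega), map_zero]
  have d1 : ∀ (w : K) (m : ℕ), PowerSeries.derivative K (PowerSeries.C w * PowerSeries.X ^ m) =
      PowerSeries.C (w * m) * PowerSeries.X ^ (m - 1) := by
    intro w m
    rw [Derivation.leibniz, PowerSeries.derivative_C, PowerSeries.derivative_pow,
      PowerSeries.derivative_X, smul_zero, add_zero, smul_eq_mul, map_mul, map_natCast]
    ring
  have d2 : ∀ (w : K) (m : ℕ), cdr δ (PowerSeries.C w * PowerSeries.X ^ m) =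
      PowerSeries.C (δ w) * PowerSeries.X ^ m := by
    intro w m
    ext n
    rw [coeff_cdr, PowerSeries.coeff_C_mul, PowerSeries.coeff_C_mul, PowerSeries.coeff_X_pow]
    split_ifs <;> simp
  have hrs' : ((p * s : ℕ) : K) = ((q * r + 1 : ℕ) : K) := by rw [hrs]
  have hdet : PowerSeries.derivative K (PowerSeries.C u * PowerSeries.X ^ p) *
      cdr δ (PowerSeries.C v * PowerSeries.X ^ q) -
      cdr δ (PowerSeries.C u * PowerSeries.X ^ p) *
      PowerSeries.derivative K (PowerSeries.C v * PowerSeries.X ^ q) =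
      PowerSeries.C (z ^ (r + s - 1)) * PowerSeries.X ^ (p + q - 1) := by
    rw [d1, d1, d2, d2, hu, hv, hδz, hδz]
    have e1 : (PowerSeries.X : PowerSeries K) ^ (p - 1) * PowerSeries.X ^ q =
        PowerSeries.X ^ (p + q - 1) := by
      rw [← pow_add]; congr 1; omega
    have e2 : (PowerSeries.X : PowerSeries K) ^ p * PowerSeries.X ^ (q - 1) =
        PowerSeries.X ^ (p + q - 1) := by
      rw [← pow_add]; congr 1; omega
    have e3 : z ^ r * (p : K) * ((s : K) * z ^ (s - 1)) = (p * s : K) * z ^ (r + s - 1) := by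
      obtain ⟨s', rfl⟩ : ∃ s', s = s' + 1 := ⟨s - 1, by omega⟩
      rw [Nat.add_sub_cancel, ← add_assoc, Nat.add_sub_cancel, pow_add]
      ring
    have e4 : (r : K) * z ^ (r - 1) * (z ^ s * (q : K)) = (q * r : K) * z ^ (r + s - 1) := by
      rcases Nat.eq_zero_or_pos r with h | h
      · rw [h]; simp
      · obtain ⟨r', rfl⟩ : ∃ r', r = r' + 1 := ⟨r - 1, by omega⟩
        rw [Nat.add_sub_cancel, show r' + 1 + s - 1 = r' + s by omega, pow_add]
        ring
    calc PowerSeries.C (z ^ r * (p : K)) * PowerSeries.X ^ (p - 1) *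
          (PowerSeries.C ((s : K) * z ^ (s - 1)) * PowerSeries.X ^ q) -
          PowerSeries.C ((r : K) * z ^ (r - 1)) * PowerSeries.X ^ p *
          (PowerSeries.C (z ^ s * (q : K)) * PowerSeries.X ^ (q - 1))
        = PowerSeries.C (z ^ r * (p : K) * ((s : K) * z ^ (s - 1))) *
            (PowerSeries.X ^ (p - 1) * PowerSeries.X ^ q) -
          PowerSeries.C ((r : K) * z ^ (r - 1) * (z ^ s * (q : K))) *
            (PowerSeries.X ^ p * PowerSeries.X ^ (q - 1)) := by
          simp only [map_mul]; ring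
      _ = PowerSeries.C ((p * s : K) * z ^ (r + s - 1) - (q * r : K) * z ^ (r + s - 1)) *
            PowerSeries.X ^ (p + q - 1) := by
          rw [e1, e2, e3, e4, map_sub]; ring
      _ = _ := by
          congr 2
          push_cast at hrs'
          rw [hrs']; ring
  refine ⟨fun i => S (x0 i), PowerSeries.C (u ^ N) * g1,
    PowerSeries.C (u ^ (ν - 1) * z ^ (r + s - 1)) * S j0, MvPowerSeries.constantCoeff j0,
    hj0, fun F' G' hF' hG' => ?_, ?_, ?_, ?_, ?_⟩
  · have h1 : aeval (fun i => S (x0 i)) F' = S (aeval x0 F') := by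
      rw [MvPolynomial.comp_aeval_apply]
    obtain ⟨g2, hg2⟩ := trw_dvd (K := K) u v hp hq hG'
    refine ⟨PowerSeries.C (u ^ N) * g2, ?_⟩
    rw [h1, hF', map_mul, map_pow, hS0, hSa, hg2, mul_pow, ← pow_mul, map_pow PowerSeries.C u N]
    rw [show (N + a) * p + b * q = p * N + (a * p + b * q) by ring, pow_add _ (p * N)]
    ring
  · have h1 : aeval (fun i => S (x0 i)) F = S (aeval x0 F) := by
      rw [MvPolynomial.comp_aeval_apply]
    rw [h1, hF, map_mul, map_pow, hS0, hSG, mul_pow, ← pow_mul, map_pow PowerSeries.C u N]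
    rw [show (N + a) * p + b * q = p * N + (a * p + b * q) by ring, pow_add _ (p * N)]
    ring
  · have h1 : PowerSeries.constantCoeff g1 = PowerSeries.coeff (a * p + b * q) (S G) := by
      rw [hSG, PowerSeries.coeff_X_pow_mul', if_pos le_rfl, Nat.sub_self,
        PowerSeries.coeff_zero_eq_constantCoeff_apply]
    rw [map_mul, PowerSeries.constantCoeff_C, h1, hSa, trw_edge u v hE, map_mul, edp, map_sum,
      Finset.mul_sum, Finset.mul_sum]
    refine Finset.sum_congr rfl fun n hn => ?_
    have hn' : n ≤ E := by simpa [Nat.lt_succ_iff] using hn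
    rw [map_mul, map_pow, map_pow, ← hz, ← Polynomial.algebraMap_eq,
      ← IsScalarTower.algebraMap_apply, hu, hv]
    have h2 : p * E ≤ b := hE.eb
    have h3 : p * n ≤ b := (Nat.mul_le_mul_left _ hn').trans h2
    obtain ⟨b', hb'⟩ : ∃ b', b = p * n + b' := ⟨b - p * n, by omega⟩
    have h4 : s * b = q * r * n + n + s * b' := by
      calc s * b = (p * s) * n + s * b' := by rw [hb']; ring
        _ = (q * r + 1) * n + s * b' := by rw [hrs]
        _ = _ := by ring
    have h5 : E ≤ s * b := by
      calc E ≤ (q * r + 1) * E := Nat.le_mul_of_pos_left _ (by omega)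
        _ = s * (p * E) := by rw [← hrs]; ring
        _ ≤ s * b := Nat.mul_le_mul_left _ h2
    have h6 : (z ^ r) ^ N * ((z ^ r) ^ (a + q * n) * (z ^ s) ^ (b - p * n)) =
        z ^ (r * (N + a) + s * b - E) * z ^ (E - n) := by
      rw [← pow_mul, ← pow_mul, ← pow_mul, ← pow_add, ← pow_add, ← pow_add]
      congr 1
      rw [show b - p * n = b' by omega]
      have h7 : r * (a + q * n) = r * a + q * r * n := by ring
      have h8 : r * (N + a) = r * N + r * a := by ring
      omega
    calc (z ^ r) ^ N * (algebraMap k K (cf G (a + q * n) (b - p * n)) *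
          ((z ^ r) ^ (a + q * n) * (z ^ s) ^ (b - p * n)))
        = algebraMap k K (cf G (a + q * n) (b - p * n)) *
          ((z ^ r) ^ N * ((z ^ r) ^ (a + q * n) * (z ^ s) ^ (b - p * n))) := by ring
      _ = _ := by rw [h6]; ring
  · show PowerSeries.derivative K (S (x0 0)) * cdr δ (S (x0 1)) -
      cdr δ (S (x0 0)) * PowerSeries.derivative K (S (x0 1)) = _
    rw [hD1, hD1, hD2, hD2]
    set A1 := PowerSeries.derivative K (PowerSeries.C u * PowerSeries.X ^ p)
    set B1 := PowerSeries.derivative K (PowerSeries.C v * PowerSeries.X ^ q)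
    set A2 := cdr δ (PowerSeries.C u * PowerSeries.X ^ p)
    set B2 := cdr δ (PowerSeries.C v * PowerSeries.X ^ q)
    have h1 : S (MvPowerSeries.X 0 ^ (ν - 1) * j0) = S (MvPowerSeries.pderiv k 0 (x0 0)) *
        S (MvPowerSeries.pderiv k 1 (x0 1)) - S (MvPowerSeries.pderiv k 1 (x0 0)) *
        S (MvPowerSeries.pderiv k 0 (x0 1)) := by
      rw [← hJ, map_sub, map_mul, map_mul]
    rw [map_mul, map_pow, hS0] at h1
    calc _ = (S (MvPowerSeries.pderiv k 0 (x0 0)) *
        S (MvPowerSeries.pderiv k 1 (x0 1)) - S (MvPowerSeries.pderiv k 1 (x0 0)) *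
        S (MvPowerSeries.pderiv k 0 (x0 1))) * (A1 * B2 - A2 * B1) := by ring
      _ = (PowerSeries.C u * PowerSeries.X ^ p) ^ (ν - 1) * S j0 *
        (PowerSeries.C (z ^ (r + s - 1)) * PowerSeries.X ^ (p + q - 1)) := by rw [← h1, hdet]
      _ = _ := by
        rw [mul_pow, ← pow_mul, map_mul, map_pow PowerSeries.C u,
          show ν * p + q - 1 = p * (ν - 1) + (p + q - 1) by
            obtain ⟨ν', rfl⟩ : ∃ ν', ν = ν' + 1 := ⟨ν - 1, by omega⟩
            rw [Nat.add_sub_cancel, add_mul, mul_comm ν' p]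
            omega, pow_add _ (p * (ν - 1))]
        ring
  · rw [map_mul, PowerSeries.constantCoeff_C, hcc, map_mul, map_pow, ← hz,
      ← Polynomial.algebraMap_eq, ← IsScalarTower.algebraMap_apply, hu, ← pow_mul, ← pow_add,
      mul_comm]
    congr 2
    obtain ⟨ν', rfl⟩ : ∃ ν', ν = ν' + 1 := ⟨ν - 1, by omega⟩
    rw [Nat.add_sub_cancel, mul_add, mul_one]
    omega

end TRWaux

section TRW

variable {k : Type} [Field k] [CharZero k] {r : ℕ}

theorem Chv.exists_tor {F : Fin (r + 1) → MvPolynomial (Fin 2) k} {P : Fin 2 → k} {N ν : ℕ}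
    {G : Fin (r + 1) → PS k} (hC : Chv F P N ν G) (hν : 0 < ν) {y : Fin (r + 1) → k}
    {a b p q E r' s : ℕ} (hE : Edge (cmG y G) a b p q E)
    (hw : ∀ e i j, cf (G e) i j ≠ 0 → a * p + b * q ≤ i * p + j * q) (hrs : p * s = q * r' + 1)
    {δ : Derivation k (FractionRing (Polynomial k)) (FractionRing (Polynomial k))}
    (hδ : ∀ f : Polynomial k, δ (algebraMap _ _ f) = algebraMap _ _ (Polynomial.derivative f)) :
    ∃ (x : Fin 2 → PowerSeries (FractionRing (Polynomial k)))
      (g j : PowerSeries (FractionRing (Polynomial k))) (c : k), c ≠ 0 ∧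
      aeval x (cmF y F) = PowerSeries.X ^ ((N + a) * p + b * q) * g ∧
      PowerSeries.constantCoeff g =
        algebraMap _ _ (Polynomial.X ^ (r' * (N + a) + s * b - E) *
          edp (cmG y G) a b p q E) ∧
      PowerSeries.derivative _ (x 0) * cdr δ (x 1) - cdr δ (x 0) * PowerSeries.derivative _ (x 1) =
        PowerSeries.X ^ (ν * p + q - 1) * j ∧
      PowerSeries.constantCoeff j =
        algebraMap _ _ (Polynomial.C c * Polynomial.X ^ (r' * ν + s - 1)) ∧
      ∀ e, PowerSeries.X ^ ((N + a) * p + b * q) ∣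
        (aeval x (F e) : PowerSeries (FractionRing (Polynomial k))) := by
  obtain ⟨x0, j0, _, hF, hJ, hj0⟩ := hC
  have hF0 : aeval x0 (cmF y F) = MvPowerSeries.X 0 ^ N * cmG y G := by
    rw [cmF, cmG, map_sum, Finset.mul_sum]
    refine Finset.sum_congr rfl fun e _ => ?_
    rw [map_mul, hF, aeval_C]
    show (MvPowerSeries.C (y e) * (MvPowerSeries.X 0 ^ N * G e) : PS k) =
      MvPowerSeries.X 0 ^ N * (MvPowerSeries.C (y e) * G e)
    ring
  obtain ⟨x, g, j, c, hc, h1, h2, h3, h4, h5⟩ := trw_main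
    (K := FractionRing (Polynomial k)) hF0 hJ hj0 hν hE hrs hδ
  exact ⟨x, g, j, c, hc, h2, h3, h4, h5, fun e => h1 _ _ (hF e) (hw e)⟩

end TRW

end Pool.Agent.H75.Mono
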