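import Pool.Agent.H75.Idl.SRW
import Pool.Agent.H75.Idl.TRW
import Pool.Agent.H75.Plc.EXA

/-! # LIY, module SEW: roots given by edges of linear combinations -/

set_option autoImplicit false

namespace Pool.Agent.H75.Mono

open MvPolynomial Pool.Agent.H39.MonoR

section SEW

private theorem sew_rs {p q : ℕ} (hp : 0 < p) (hq : 0 < q) (h : Nat.Coprime p q) :
    ∃ r s : ℕ, p * s = q * r + 1 ∧ 1 ≤ s := by
  rcases Nat.lt_or_ge 1 q with h1 | h1
  · obtain ⟨m, hm⟩ := Nat.exists_mul_mod_eq_one_of_coprime h h1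
    refine ⟨p * m / q, m, ?_, ?_⟩
    · have h2 := Nat.div_add_mod (p * m) q
      rw [hm.2] at h2
      exact h2.symm
    · rcases Nat.eq_zero_or_pos m with rfl | h2
      · have h3 := hm.2
        simp at h3
      · exact h2
  · obtain rfl : q = 1 := by omega
    exact ⟨p - 1, 1, by omega, le_rfl⟩

private theorem sew_coeff {k : Type} [Field k] (G : PS k) (a b p q E n : ℕ) (hn : n ≤ E) :
    (edp G a b p q E).coeff (E - n) = cf G (a + q * n) (b - p * n) := by
  unfold edp
  rw [Polynomial.finsetSum_coeff, Finset.sum_eq_single n]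
  · rw [Polynomial.coeff_C_mul, Polynomial.coeff_X_pow, if_pos rfl, mul_one]
  · intro m hm hne
    rw [Finset.mem_range] at hm
    rw [Polynomial.coeff_C_mul, Polynomial.coeff_X_pow, if_neg (by omega), mul_zero]
  · intro h
    exact absurd (Finset.mem_range.2 (by omega)) h

private theorem sew_deg {k : Type} [Field k] {G : PS k} {a b p q E : ℕ}
    (hE : Edge G a b p q E) : (edp G a b p q E).natDegree = E := by
  apply le_antisymm
  · unfold edp
    apply Polynomial.natDegree_sum_le_of_forall_le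
    intro n _
    refine (Polynomial.natDegree_C_mul_X_pow_le _ _).trans (Nat.sub_le _ _)
  · apply Polynomial.le_natDegree_of_ne_zero
    have h := sew_coeff G a b p q E 0 (Nat.zero_le _)
    rw [Nat.sub_zero, mul_zero, mul_zero, add_zero, Nat.sub_zero] at h
    rw [h]
    exact hE.top

private theorem sew_zero {k : Type} [Field k] {G : PS k} {a b p q E : ℕ}
    (hE : Edge G a b p q E) : (edp G a b p q E).eval 0 ≠ 0 := by
  have h := sew_coeff G a b p q E E le_rfl
  rw [Nat.sub_self] at h
  rw [← Polynomial.coeff_zero_eq_eval_zero, h]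
  exact hE.bot

variable {k : Type} [Field k] [CharZero k] [IsAlgClosed k] {r : ℕ}

theorem SRI.edge {F : Fin (r + 1) → MvPolynomial (Fin 2) k} {P : Fin 2 → k} {N ν : ℕ}
    {G : Fin (r + 1) → PS k} (hC : Chv F P N ν G) (hν : 0 < ν) {y : Fin (r + 1) → k}
    {a b p q E : ℕ} (hE : Edge (cmG y G) a b p q E)
    (hw : ∀ e i j, cf (G e) i j ≠ 0 → a * p + b * q ≤ i * p + j * q) {s : ℚ}
    (hs : s = ((ν * p + q : ℕ) : ℚ) / ((N + a) * p + b * q : ℕ))
    (h : (¬ (p = 1 ∧ E = b) ∧
        ((ν : ℚ) - s * (N + a : ℕ)) / q < (rts (edp (cmG y G) a b p q E)).card) ∨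
      (p = 1 ∧ E = b ∧ 2 ≤ (rts (edp (cmG y G) a b p q E)).card ∧
        ((ν : ℚ) - s * (N + a : ℕ)) / q + 1 < (rts (edp (cmG y G) a b p q E)).card)) :
    SRI k (cmF y F) (idl F) s := by
  have hp := hE.p0
  have hq := hE.q0
  have he := hE.e0
  have heb := hE.eb
  have hb : 0 < b := by
    have : 0 < p * E := Nat.mul_pos hp he
    omega
  -- the exponents
  obtain ⟨r', t, hrt, ht, hpr⟩ : ∃ r' t : ℕ, p * t = q * r' + 1 ∧ 1 ≤ t ∧
      (p = 1 → r' = 0 ∧ t = 1) := by
    by_cases h1 : p = 1
    · exact ⟨0, 1, by rw [h1]; simp, le_rfl, fun _ => ⟨rfl, rfl⟩⟩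
    · obtain ⟨r', t, h2, h3⟩ := sew_rs hp hq hE.cop
      exact ⟨r', t, h2, h3, fun h4 => absurd h4 h1⟩
  obtain ⟨δ, hδ⟩ := exists_ratder (k := k)
  obtain ⟨x, g, j, c, hc, hF, hg, hJ, hj, hI⟩ := Chv.exists_tor hC hν hE hw hrt hδ
  have hEt : E ≤ t * b := by
    have h1 : E ≤ p * E := Nat.le_mul_of_pos_left E hp
    have h2 : b ≤ t * b := Nat.le_mul_of_pos_left b ht
    omega
  have hN' : 0 < (N + a) * p + b * q := by
    have : 0 < b * q := Nat.mul_pos hb hq
    omega
  have hν' : 0 < ν * p + q := by omega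
  have hNq : (0 : ℚ) < (((N + a) * p + b * q : ℕ) : ℚ) := by exact_mod_cast hN'
  have hs0 : 0 < s := by
    rw [hs]
    apply div_pos _ hNq
    exact_mod_cast hν'
  have hsN : s * (((N : ℚ) + a) * p + b * q) = ν * p + q := by
    rw [hs]
    push_cast at hNq ⊢
    rw [div_mul_cancel₀ _ hNq.ne']
  have hpq : (0 : ℚ) < p := by exact_mod_cast hp
  have hqq : (0 : ℚ) < q := by exact_mod_cast hq
  have hrtq : (p : ℚ) * t = q * r' + 1 := by exact_mod_cast hrt
  have hebq : (p : ℚ) * E ≤ b := by exact_mod_cast heb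
  have hA : (((r' * (N + a) + t * b - E : ℕ) : ℕ) : ℚ) = r' * ((N : ℚ) + a) + t * b - E := by
    rw [Nat.cast_sub (by omega)]
    push_cast
    ring
  have hB : ((r' * ν + t - 1 : ℕ) : ℚ) = r' * (ν : ℚ) + t - 1 := by
    rw [Nat.cast_sub (by omega)]
    push_cast
    ring
  have hdeg := sew_deg hE
  have e0 : ((r' * ν + t - 1 : ℕ) : ℚ) + 1 - s * ((r' * (N + a) + t * b - E : ℕ) : ℚ) =
      (1 - s * (b - p * E)) / p := by
    rw [hA, hB]
    field_simp
    linear_combination (1 - s * b) * hrtq - (r' : ℚ) * hsN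
  have e1 : s * (edp (cmG y G) a b p q E).natDegree - (((r' * ν + t - 1 : ℕ) : ℚ) + 1 -
      s * ((r' * (N + a) + t * b - E : ℕ) : ℚ)) = ((ν : ℚ) - s * (N + a : ℕ)) / q := by
    rw [e0, hdeg]
    field_simp
    push_cast
    linear_combination hsN
  obtain ⟨lam, hl, hl1⟩ := exists_lam hδ (sew_zero hE) (by rw [hdeg]; exact he)
    (A := r' * (N + a) + t * b - E) (B := r' * ν + t - 1) hs0 (by
      rcases h with ⟨h1, h2⟩ | ⟨h1, h2, h3, h4⟩
      · left
        refine ⟨?_, by rw [e1]; exact h2⟩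
        rw [e0, div_lt_one hpq]
        by_cases hp1 : p = 1
        · have h5 : E < b := by
            have h6 : E ≠ b := fun h => h1 ⟨hp1, h⟩
            rw [hp1, one_mul] at heb
            omega
          have h6 : (E : ℚ) < b := by exact_mod_cast h5
          rw [hp1, Nat.cast_one, one_mul]
          have := mul_pos hs0 (sub_pos.2 h6)
          linarith
        · have h5 : 2 ≤ p := by omega
          have h6 : (2 : ℚ) ≤ p := by exact_mod_cast h5
          have := mul_nonneg hs0.le (sub_nonneg.2 hebq)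
          linarith
      · right
        obtain ⟨hr0, ht1⟩ := hpr h1
        refine ⟨by rw [hr0, ht1, h2]; simp, by rw [hr0, ht1]; simp, h3, ?_⟩
        have h5 : s * (edp (cmG y G) a b p q E).natDegree =
            ((ν : ℚ) - s * (N + a : ℕ)) / q + 1 := by
          rw [← e1, e0, h1, h2]
          simp
        rw [h5]
        exact h4)
  have hs' : s = ((ν * p + q : ℕ) : ℚ) / (((N + a) * p + b * q : ℕ) : ℚ) := hs
  rw [hs']
  refine SRI.of_res δ hN' hν' hF ?_ hJ lam ?_ ?_ ?_
  · rw [hg]
    intro h0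
    rw [map_eq_zero_iff _ (IsFractionRing.injective (Polynomial k) (FractionRing (Polynomial k)))] at h0
    rcases mul_eq_zero.1 h0 with h1 | h1
    · exact pow_ne_zero _ Polynomial.X_ne_zero h1
    · have := sew_zero hE
      rw [h1] at this
      simp at this
  · intro z
    rw [hg, ← hs']
    exact hl z
  · rw [hj]
    have h1 : algebraMap (Polynomial k) (FractionRing (Polynomial k))
        (Polynomial.C c * Polynomial.X ^ (r' * ν + t - 1)) =
        c • algebraMap (Polynomial k) (FractionRing (Polynomial k))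
          (Polynomial.X ^ (r' * ν + t - 1)) := by
      rw [map_mul, Algebra.smul_def, IsScalarTower.algebraMap_apply k (Polynomial k)
        (FractionRing (Polynomial k)) c, Polynomial.algebraMap_eq]
    rw [h1, map_smul, smul_eq_mul]
    exact mul_ne_zero hc hl1
  · intro A hA
    unfold idl at hA
    refine Submodule.span_induction (p := fun A _ => PowerSeries.X ^ ((N + a) * p + b * q) ∣
      (aeval x A : PowerSeries (FractionRing (Polynomial k)))) ?_ ?_ ?_ ?_ hA
    · rintro _ ⟨e, rfl⟩
      exact hI e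
    · rw [map_zero]
      exact dvd_zero _
    · intro u v _ _ hu hv
      rw [map_add]
      exact dvd_add hu hv
    · intro u v _ hv
      rw [smul_eq_mul, map_mul]
      exact Dvd.dvd.mul_left hv _

end SEW

end Pool.Agent.H75.Mono
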