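import Pool.Agent.H75.Idl.SPE
import Pool.Agent.H75.Idl.SEW
import Pool.Agent.H75.Idl.LFU
import Pool.Agent.H75.Idl.CHW
import Pool.Agent.H75.Idl.GNE
import Pool.Agent.H75.Idl.OKP
import Pool.Agent.H75.Idl.PRV

/-! # LIY: divisors which give eigenvalues (assembly) -/

set_option autoImplicit false

namespace Pool.Agent.H75.Mono

open MvPolynomial Pool.Agent.H39.MonoR

section OKE

/-- a pair which gives a root of the Bernstein-Sato polynomial -/
def Okr {k : Type} [Field k] {σ : Type} (f : MvPolynomial σ k) (p : ℤ × ℕ) : Prop :=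
  p.1 < 0 ∧ 0 < p.2 ∧ SR k f (-(p.1 : ℚ) / p.2)

/-- a finite set of pairs all of which give roots -/
def Okrs {k : Type} [Field k] {σ : Type} (f : MvPolynomial σ k) (S : Finset (ℤ × ℕ)) : Prop :=
  ∀ p ∈ S, Okr f p

theorem Okr.of_sr {k : Type} [Field k] {σ : Type} {f : MvPolynomial σ k} {n m : ℕ} (hn : 0 < n)
    (hm : 0 < m) (h : SR k f ((n : ℚ) / m)) : Okr f (-(n : ℤ), m) := by
  refine ⟨by simpa using hn, hm, ?_⟩
  have : -(((-(n : ℤ), m) : ℤ × ℕ).1 : ℚ) / ((-(n : ℤ), m) : ℤ × ℕ).2 = (n : ℚ) / m := by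
    push_cast
    ring
  rw [this]
  exact h

theorem Okr.of_eq {k : Type} [Field k] {σ : Type} {f : MvPolynomial σ k} (h1 : SR k f 1) {n : ℕ}
    (hn : 0 < n) : Okr f (-(n : ℤ), n) := by
  refine Okr.of_sr hn hn ?_
  rwa [div_self (by exact_mod_cast (by omega : n ≠ 0))]

/-- integral values less than `2` are equal to `1` -/
theorem Ok.okr {k : Type} [Field k] {σ : Type} {f : MvPolynomial σ k} (h1 : SR k f 1) {n m : ℕ}
    (h : Ok f (-(n : ℤ), m)) (hnm : n < 2 * m) : Okr f (-(n : ℤ), m) := by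
  obtain ⟨h2, h3, h4 | h4⟩ := h
  · have h5 : (m : ℤ) ∣ (n : ℤ) := by
      have : (m : ℤ) ∣ -(n : ℤ) := h4
      rwa [dvd_neg] at this
    have h6 : m ∣ n := by exact_mod_cast h5
    have h7 : 0 < n := by
      have : -(n : ℤ) < 0 := h2
      omega
    obtain ⟨c, rfl⟩ := h6
    have h8 : c < 2 := by
      by_contra h9
      have : m * 2 ≤ m * c := Nat.mul_le_mul_left _ (by omega)
      omega
    have h9 : c ≠ 0 := by
      rintro rfl
      omega
    have h10 : c = 1 := by omega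
    subst h10
    rw [mul_one]
    exact Okr.of_eq h1 h3
  · exact ⟨h2, h3, h4⟩

theorem Okrs.union {k : Type} [Field k] {σ : Type} {f : MvPolynomial σ k}
    [DecidableEq (ℤ × ℕ)] {S S' : Finset (ℤ × ℕ)}
    (h : Okrs f S) (h' : Okrs f S') : Okrs f (S ∪ S') := by
  intro p hp
  rcases Finset.mem_union.1 hp with hp | hp
  · exact h p hp
  · exact h' p hp

theorem Okrs.single {k : Type} [Field k] {σ : Type} {f : MvPolynomial σ k} {p : ℤ × ℕ}
    (h : Okr f p) : Okrs f {p} := by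
  intro q hq
  rw [Finset.mem_singleton] at hq
  rwa [hq]

theorem Okrs.empty {k : Type} [Field k] {σ : Type} {f : MvPolynomial σ k} : Okrs f ∅ := by
  intro q hq
  simp at hq

variable {k : Type} [Field k] [CharZero k] [IsAlgClosed k] {r : ℕ}
  {F : Fin (r + 1) → MvPolynomial (Fin 2) k} {P : Fin 2 → k} {G : Fin (r + 1) → PS k}
  {N ν a b p q E : ℕ}

/-- the divisor of an edge -/
theorem ok_edge (hT : SR k (tot F) 1) (hC : Chv F P N ν G) (hν : 0 < ν) (hE : Edv G a b p q E)
    (hb : ¬ Bad G a b p q E) (h1 : b = 1 → ¬ Pur G a 1 ∧ ν + q < 2 * (N + a + q))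
    (key : ((ν : ℚ) - ((ν * p + q : ℕ) : ℚ) / ((N + a) * p + b * q : ℕ) * (N + a : ℕ)) / q < 1) :
    Okr (tot F) (-((ν * p + q : ℕ) : ℤ), (N + a) * p + b * q) := by
  have hp := hE.p0
  have hq := hE.q0
  have hE0 := hE.e0
  have heb := hE.eb
  have hpE : 0 < p * E := Nat.mul_pos hp hE0
  rcases Nat.lt_or_ge b 2 with hb2 | hb2
  · have hb1 : b = 1 := by omega
    subst hb1
    have hpE1 : p * E = 1 := by omega
    have hp1 : p = 1 := Nat.eq_one_of_mul_eq_one_right hpE1
    have hE1 : E = 1 := Nat.eq_one_of_mul_eq_one_left hpE1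
    subst hp1 hE1
    refine (ok_special hC hν hE (h1 rfl).1 hb).okr hT ?_
    have := (h1 rfl).2
    omega
  · obtain ⟨y, hy, hyE, hcard⟩ := hE.exists_edge hb2 hb
    have hm : 0 < (N + a) * p + b * q := by
      have : 0 < b * q := Nat.mul_pos (by omega) hq
      omega
    refine Okr.of_sr (by omega) hm (SR.of_cm hy (SRI.edge hC hν hyE hE.wt rfl ?_))
    by_cases h2 : p = 1 ∧ E = b
    · right
      have h3 := hcard h2.1 h2.2
      refine ⟨h2.1, h2.2, h3, ?_⟩
      have h4 : (2 : ℚ) ≤ (rts (edp (cmG y G) a b p q E)).card := by exact_mod_cast h3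
      linarith
    · left
      have h3 := hyE.card_pos
      have h4 : (1 : ℚ) ≤ (rts (edp (cmG y G) a b p q E)).card := by exact_mod_cast h3
      exact ⟨h2, by linarith⟩

/-- the first blow-up, if there are many tangent directions -/
theorem ok_line {n : ℕ} (hC : Chv F P 0 1 G) (hE : Edv G 0 n 1 1 E) {y : Fin (r + 1) → k}
    (hy : y 0 = 1) (hyE : Edge (cmG y G) 0 n 1 1 E)
    (hR : (E < n ∧ 2 ≤ (rts (edp (cmG y G) 0 n 1 1 E)).card) ∨
      3 ≤ (rts (edp (cmG y G) 0 n 1 1 E)).card) :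
    Okr (tot F) (-((1 + 1 : ℕ) : ℤ), 0 * 1 + n * 1) := by
  have h0 : 0 < n := by
    have h1 := hE.eb
    have h2 := hE.e0
    omega
  have hn0 : (0 : ℚ) < n := by exact_mod_cast h0
  have e3 : (0 + 0) * 1 + n * 1 = 0 * 1 + n * 1 := by ring
  have e4 : 1 * 1 + 1 = 1 + 1 := by ring
  have h3 := SRI.edge (s := ((1 * 1 + 1 : ℕ) : ℚ) / ((0 + 0) * 1 + n * 1 : ℕ)) hC Nat.one_pos hyE
    hE.wt rfl (by
      by_cases h1 : E = n
      · right
        have h2 : 3 ≤ (rts (edp (cmG y G) 0 n 1 1 E)).card := by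
          rcases hR with hR | hR
          · omega
          · exact hR
        have h4 : (3 : ℚ) ≤ (rts (edp (cmG y G) 0 n 1 1 E)).card := by exact_mod_cast h2
        refine ⟨rfl, h1, by omega, ?_⟩
        push_cast
        simp only [mul_zero, sub_zero, div_one]
        linarith
      · left
        have h2 : 2 ≤ (rts (edp (cmG y G) 0 n 1 1 E)).card := by
          rcases hR with hR | hR
          · exact hR.2
          · omega
        have h4 : (2 : ℚ) ≤ (rts (edp (cmG y G) 0 n 1 1 E)).card := by exact_mod_cast h2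
        refine ⟨fun h5 => h1 h5.2, ?_⟩
        push_cast
        simp only [mul_zero, sub_zero, div_one]
        linarith)
  rw [e3, e4] at h3
  exact Okr.of_sr (by omega) (by omega) (SR.of_cm hy h3)

/-- the component of a divisor `Y^b` -/
theorem ok_comp (hT : SR k (tot F) 1) (hC : Chv F P N ν G) {i : ℕ} (hb : 0 < b)
    (hG : ∃ e, cf (G e) i b ≠ 0) (hD : ∀ e i j, cf (G e) i j ≠ 0 → b ≤ j) :
    Okr (tot F) (-1, b) := by
  obtain ⟨P', Q', h1, h2, h3⟩ := hC.exists_irred hb hG hD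
  have h4 : Ok (tot F) (-((1 : ℕ) : ℤ), b) := ok_pow hb h1 h2 h3
  have h5 := Ok.okr (n := 1) (m := b) hT h4 (by omega)
  simpa using h5

end OKE

end Pool.Agent.H75.Mono
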