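import Pool.Agent.H75.Idl.EVT
import Pool.Agent.H75.Plc.CHV

/-! # LIY, module VCV: the initial exponent of the transform at a root -/

set_option autoImplicit false

namespace Pool.Agent.H75.Mono

open MvPolynomial Pool.Agent.H39.MonoR

section VCVaux

variable {k : Type} [Field k] {G : PS k} {a b p q E r s : ℕ}

/-- an edge without the conditions on the end points -/
private structure VcvE (G : PS k) (a b p q E : ℕ) : Prop where
  p0 : 0 < p
  q0 : 0 < q
  cop : Nat.Coprime p q
  e0 : 0 < E
  eb : p * E ≤ b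
  wt : ∀ i j, cf G i j ≠ 0 → a * p + b * q ≤ i * p + j * q
  lin : ∀ i j, cf G i j ≠ 0 → i * p + j * q = a * p + b * q → b - p * E ≤ j ∧ j ≤ b

private theorem VcvE.support (h : VcvE G a b p q E) {i j : ℕ} (hij : cf G i j ≠ 0)
    (he : i * p + j * q = a * p + b * q) : ∃ n, n ≤ E ∧ i = a + q * n ∧ j = b - p * n := by
  obtain ⟨h1, h2⟩ := h.lin i j hij he
  obtain ⟨d, hd⟩ := Nat.exists_eq_add_of_le h2
  have h3 : i * p = a * p + d * q := by
    rw [hd] at he
    nlinarith
  have h4 : p ∣ d * q := by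
    have : p ∣ a * p + d * q := by rw [← h3]; exact Dvd.intro_left i rfl
    exact (Nat.dvd_add_right (Dvd.intro_left a rfl)).1 this
  have h5 : p ∣ d := h.cop.dvd_of_dvd_mul_right h4
  obtain ⟨n, hn⟩ := h5
  refine ⟨n, ?_, ?_, ?_⟩
  · have h6 : p * n ≤ p * E := by
      have := h.eb
      omega
    exact Nat.le_of_mul_le_mul_left h6 h.p0
  · have h6 : i * p = (a + q * n) * p := by
      rw [h3, hn]
      ring
    exact Nat.eq_of_mul_eq_mul_right h.p0 h6
  · omega

private theorem vcv_cf_edge (hE : VcvE G a b p q E) {i j : ℕ}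
    (hij : i * p + j * q = a * p + b * q) :
    cf (chv_edge G a b p q E) i j = cf G i j := by
  classical
  unfold chv_edge
  have h0 : cf (∑ n ∈ Finset.range (E + 1), MvPowerSeries.monomial (ix (a + q * n) (b - p * n))
      (cf G (a + q * n) (b - p * n))) i j = ∑ n ∈ Finset.range (E + 1),
        (if ix i j = ix (a + q * n) (b - p * n) then cf G (a + q * n) (b - p * n) else 0) := by
    unfold cf
    rw [map_sum]
    apply Finset.sum_congr rfl
    intro n _
    rw [MvPowerSeries.coeff_monomial]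
  rw [h0]
  by_cases h1 : ∃ n, n ≤ E ∧ i = a + q * n ∧ j = b - p * n
  · obtain ⟨n, hn, hi, hj⟩ := h1
    rw [Finset.sum_eq_single n]
    · rw [if_pos (by rw [hi, hj]), hi, hj]
    · intro m _ hne
      rw [if_neg]
      intro h
      obtain ⟨h2, -⟩ := vtx_ix_inj h
      apply hne
      have h3 : q * m = q * n := by omega
      exact Nat.eq_of_mul_eq_mul_left hE.q0 h3
    · intro h
      exact absurd (Finset.mem_range.2 (by omega)) h
  · have h2 : cf G i j = 0 := by
      by_contra h3
      exact h1 (hE.support h3 hij)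
    rw [h2]
    apply Finset.sum_eq_zero
    intro n hn
    rw [if_neg]
    intro h
    obtain ⟨h3, h4⟩ := vtx_ix_inj h
    exact h1 ⟨n, by rw [Finset.mem_range] at hn; omega, h3, h4⟩

private theorem vcv_cf_edge_wt (hE : VcvE G a b p q E) {i j : ℕ}
    (h : cf (chv_edge G a b p q E) i j ≠ 0) : i * p + j * q = a * p + b * q := by
  classical
  by_contra hne
  apply h
  unfold chv_edge cf
  rw [map_sum]
  apply Finset.sum_eq_zero
  intro n hn
  rw [Finset.mem_range] at hn
  rw [MvPowerSeries.coeff_monomial, if_neg]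
  intro he
  obtain ⟨h3, h4⟩ := vtx_ix_inj he
  apply hne
  have h5 : p * n ≤ b := (Nat.mul_le_mul_left p (by omega)).trans hE.eb
  obtain ⟨c, hc⟩ := Nat.exists_eq_add_of_le h5
  have h6 : b - p * n = c := by omega
  rw [h3, h4, h6, hc]
  ring

private theorem vcv_rest (hE : VcvE G a b p q E) {i j : ℕ}
    (h : cf (G - chv_edge G a b p q E) i j ≠ 0) : a * p + b * q + 1 ≤ i * p + j * q := by
  have h0 : cf (G - chv_edge G a b p q E) i j = cf G i j - cf (chv_edge G a b p q E) i j := by
    unfold cf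
    rw [map_sub]
  rw [h0] at h
  by_cases h1 : i * p + j * q = a * p + b * q
  · rw [vcv_cf_edge hE h1, sub_self] at h
    exact absurd rfl h
  · have h2 : cf (chv_edge G a b p q E) i j = 0 := by
      by_contra h3
      exact h1 (vcv_cf_edge_wt hE h3)
    rw [h2, sub_zero] at h
    have := hE.wt i j h
    omega

/-- the transform of the edge part -/
private theorem vcv_subst_edge (hE : VcvE G a b p q E) (hrs : p * s = q * r + 1) (μ : k) (N : ℕ) :
    (MvPowerSeries.C μ + MvPowerSeries.X 1) ^ (r * N) *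
      MvPowerSeries.subst (tov p q r s μ) (chv_edge G a b p q E) =
    MvPowerSeries.X 0 ^ (a * p + b * q) * Polynomial.aeval (MvPowerSeries.X 1 : PS k)
      ((Polynomial.X ^ (r * (N + a) + s * b - E) * edp G a b p q E).comp
        (Polynomial.X + Polynomial.C μ)) := by
  have hsub := chv_hasSubst hE.p0 hE.q0 r s μ
  have hs : 0 < s := by
    rcases Nat.eq_zero_or_pos s with h | h
    · rw [h] at hrs
      omega
    · exact h
  have hEb : E ≤ s * b := by
    have h1 : E ≤ p * E := Nat.le_mul_of_pos_left E hE.p0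
    have h2 : b ≤ s * b := Nat.le_mul_of_pos_left b hs
    have := hE.eb
    omega
  unfold chv_edge
  rw [← MvPowerSeries.coe_substAlgHom hsub, map_sum, Finset.mul_sum]
  unfold edp
  rw [Finset.mul_sum, Polynomial.sum_comp, map_sum, Finset.mul_sum]
  apply Finset.sum_congr rfl
  intro n hn
  rw [Finset.mem_range] at hn
  rw [MvPowerSeries.coe_substAlgHom hsub, MvPowerSeries.subst_monomial hsub, chv_prod,
    vtx_ix_zero, vtx_ix_one]
  have hpn : p * n ≤ b := (Nat.mul_le_mul_left p (by omega)).trans hE.eb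
  have hw : (a + q * n) * p + (b - p * n) * q = a * p + b * q := by
    obtain ⟨c, hc⟩ := Nat.exists_eq_add_of_le hpn
    have h6 : b - p * n = c := by omega
    rw [h6, hc]
    ring
  rw [hw]
  have hexp : r * N + (r * (a + q * n) + s * (b - p * n)) =
      (r * (N + a) + s * b - E) + (E - n) := by
    obtain ⟨c, hc⟩ := Nat.exists_eq_add_of_le hpn
    have h6 : b - p * n = c := by omega
    have h7 : s * b = s * (p * n) + s * c := by rw [hc]; ring
    have h8 : s * (p * n) = (q * r + 1) * n := by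
      rw [← hrs]
      ring
    have h9 : (q * r + 1) * n = r * (q * n) + n := by ring
    have h10 : r * (a + q * n) = r * a + r * (q * n) := by ring
    have h11 : r * (N + a) = r * N + r * a := by ring
    rw [h6, h10, h11]
    omega
  have h12 : (MvPowerSeries.C μ + MvPowerSeries.X 1 : PS k) ^ (r * N) *
      (MvPowerSeries.C μ + MvPowerSeries.X 1) ^ (r * (a + q * n) + s * (b - p * n)) =
      (MvPowerSeries.C μ + MvPowerSeries.X 1) ^ (r * (N + a) + s * b - E) *
      (MvPowerSeries.C μ + MvPowerSeries.X 1) ^ (E - n) := by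
    rw [← pow_add, ← pow_add, hexp]
  rw [Polynomial.mul_comp, Polynomial.mul_comp, Polynomial.pow_comp, Polynomial.pow_comp,
    Polynomial.X_comp, Polynomial.C_comp, map_mul, map_mul]
  have h13 : Polynomial.aeval (MvPowerSeries.X 1 : PS k) (Polynomial.C (cf G (a + q * n) (b - p * n)))
      = MvPowerSeries.C (cf G (a + q * n) (b - p * n)) := by
    rw [Polynomial.aeval_C, MvPowerSeries.algebraMap_apply]
    rfl
  have h14 : (algebraMap k (MvPowerSeries (Fin 2) k)) (cf G (a + q * n) (b - p * n)) =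
      MvPowerSeries.C (cf G (a + q * n) (b - p * n)) := by
    rw [MvPowerSeries.algebraMap_apply]
    rfl
  rw [h13, add_comm (Polynomial.X) (Polynomial.C μ), ← chv_av_pow, ← chv_av_pow, h14]
  linear_combination (MvPowerSeries.C (cf G (a + q * n) (b - p * n)) *
    MvPowerSeries.X 0 ^ (a * p + b * q)) * h12

/-- the terms of the transform on the divisor -/
private theorem vcv_cf (hE : VcvE G a b p q E) (hrs : p * s = q * r + 1) (μ : k) (N j : ℕ) :
    cf (chd N p q (a * p + b * q) r s μ G) 0 j =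
      ((Polynomial.X ^ (r * (N + a) + s * b - E) * edp G a b p q E).comp
        (Polynomial.X + Polynomial.C μ)).coeff j := by
  set Q : Polynomial k := Polynomial.X ^ (r * (N + a) + s * b - E) * edp G a b p q E with hQ
  obtain ⟨F, hF⟩ := chv_dvd (r := r) (s := s) (μ := μ) hE.p0 hE.q0
    (fun i j h => vcv_rest hE (i := i) (j := j) h)
  have hsub := chv_hasSubst hE.p0 hE.q0 r s μ
  have hdec : MvPowerSeries.subst (tov p q r s μ) G =
      MvPowerSeries.subst (tov p q r s μ) (chv_edge G a b p q E) +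
        MvPowerSeries.X 0 ^ (a * p + b * q + 1) * F := by
    rw [← hF, ← MvPowerSeries.subst_add hsub, add_sub_cancel]
  have hchd : chd N p q (a * p + b * q) r s μ G =
      Polynomial.aeval (MvPowerSeries.X 1 : PS k) (Q.comp (Polynomial.X + Polynomial.C μ)) +
        MvPowerSeries.X 0 ^ 1 * ((MvPowerSeries.C μ + MvPowerSeries.X 1) ^ (r * N) * F) := by
    unfold chd
    rw [hdec, mul_add, vcv_subst_edge hE hrs μ N, ← hQ]
    have h1 : MvPowerSeries.X 0 ^ (a * p + b * q) * Polynomial.aeval (MvPowerSeries.X 1 : PS k)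
          (Q.comp (Polynomial.X + Polynomial.C μ)) +
        (MvPowerSeries.C μ + MvPowerSeries.X 1) ^ (r * N) *
          (MvPowerSeries.X 0 ^ (a * p + b * q + 1) * F) =
        MvPowerSeries.X 0 ^ (a * p + b * q) * (Polynomial.aeval (MvPowerSeries.X 1 : PS k)
          (Q.comp (Polynomial.X + Polynomial.C μ)) +
        MvPowerSeries.X 0 ^ 1 * ((MvPowerSeries.C μ + MvPowerSeries.X 1) ^ (r * N) * F)) := by
      ring
    rw [h1, chv_dvX]
  rw [hchd]
  have h1 : ∀ A B : PS k, cf (A + B) 0 j = cf A 0 j + cf B 0 j := by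
    intro A B
    unfold cf
    rw [map_add]
  rw [h1, chv_cf_av, if_pos rfl, chv_cf_mul_lt 1 _ j (by norm_num), add_zero]

private theorem vcv_comp_ne {Q : Polynomial k} (hQ0 : Q ≠ 0) (μ : k) :
    Q.comp (Polynomial.X + Polynomial.C μ) ≠ 0 := by
  intro h
  apply hQ0
  have h1 := congrArg (fun P : Polynomial k => P.comp (Polynomial.X - Polynomial.C μ)) h
  simp only [Polynomial.comp_assoc, Polynomial.add_comp, Polynomial.X_comp, Polynomial.C_comp,
    sub_add_cancel, Polynomial.comp_X, Polynomial.zero_comp] at h1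
  exact h1

private theorem vcv_trail {P : Polynomial k} (hP : P ≠ 0) {μ : k} (hμ : μ ≠ 0) (n : ℕ) :
    (Polynomial.X ^ n * P) ≠ 0 ∧ ((Polynomial.X ^ n * P).comp
      (Polynomial.X + Polynomial.C μ)).natTrailingDegree = P.rootMultiplicity μ := by
  have hXne : (Polynomial.X : Polynomial k) ^ n ≠ 0 := pow_ne_zero _ Polynomial.X_ne_zero
  have hQ0 : Polynomial.X ^ n * P ≠ 0 := mul_ne_zero hXne hP
  refine ⟨hQ0, ?_⟩
  have hmult : (Polynomial.X ^ n * P).rootMultiplicity μ = P.rootMultiplicity μ := by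
    rw [Polynomial.rootMultiplicity_mul hQ0, Polynomial.rootMultiplicity_eq_zero, zero_add]
    rw [Polynomial.IsRoot.def, Polynomial.eval_pow, Polynomial.eval_X]
    exact pow_ne_zero _ hμ
  rw [← hmult, Polynomial.rootMultiplicity_eq_natTrailingDegree]

end VCVaux

section VCV

variable {k : Type} [Field k] {r : ℕ} {G : Fin (r + 1) → PS k} {a b p q E r' s : ℕ}

private theorem vcv_E (hE : Edv G a b p q E) (e : Fin (r + 1)) : VcvE (G e) a b p q E where
  p0 := hE.p0
  q0 := hE.q0
  cop := hE.cop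
  e0 := hE.e0
  eb := hE.eb
  wt := hE.wt e
  lin := hE.lin e

private theorem vcv_edp_ne (hE : Edv G a b p q E) : ∃ e, edv G a b p q E e ≠ 0 := by
  obtain ⟨e, he⟩ := hE.top
  refine ⟨e, fun h0 => he ?_⟩
  have h1 : (edp (G e) a b p q E).coeff E = cf (G e) a b := by
    unfold edp
    rw [Polynomial.finsetSum_coeff, Finset.sum_eq_single 0]
    · rw [Polynomial.coeff_C_mul_X_pow, if_pos (by omega)]
      simp
    · intro m hm hne
      rw [Finset.mem_range] at hm
      rw [Polynomial.coeff_C_mul_X_pow, if_neg]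
      omega
    · intro hm
      exact absurd (Finset.mem_range.2 (by omega)) hm
  have h2 : edp (G e) a b p q E = 0 := h0
  rw [← h1, h2, Polynomial.coeff_zero]

theorem vtv_chv [CharZero k] [IsAlgClosed k] (hE : Edv G a b p q E) (hrs : p * s = q * r' + 1)
    {μ : k} (hμ : μ ∈ rtv (edv G a b p q E)) (N : ℕ) :
    Vtv (Mono.chv N p q (a * p + b * q) r' s μ G) 1 0 0 (mlt (edv G a b p q E) μ) := by
  have hμ0 : μ ≠ 0 := hE.rtv_ne hμ
  have hset : {n | ∃ e, edv G a b p q E e ≠ 0 ∧
      (edv G a b p q E e).rootMultiplicity μ = n}.Nonempty := by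
    obtain ⟨e, he⟩ := vcv_edp_ne hE
    exact ⟨_, e, he, rfl⟩
  constructor
  · obtain ⟨e, he, hm⟩ := Nat.sInf_mem hset
    refine ⟨e, ?_⟩
    have h1 := vcv_cf (vcv_E hE e) hrs μ N (mlt (edv G a b p q E) μ)
    have h2 := vcv_trail (P := edp (G e) a b p q E) he hμ0 (r' * (N + a) + s * b - E)
    have h3 : mlt (edv G a b p q E) μ = (edp (G e) a b p q E).rootMultiplicity μ := hm.symm
    show cf (chd N p q (a * p + b * q) r' s μ (G e)) 0 (mlt (edv G a b p q E) μ) ≠ 0
    rw [h1, h3, ← h2.2]
    exact Polynomial.trailingCoeff_nonzero_iff_nonzero.2 (vcv_comp_ne h2.1 μ)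
  · intro e i j hij
    refine ⟨by omega, fun h => ?_⟩
    have hi : i = 0 := by omega
    subst hi
    have h1 := vcv_cf (vcv_E hE e) hrs μ N j
    change cf (chd N p q (a * p + b * q) r' s μ (G e)) 0 j ≠ 0 at hij
    rw [h1] at hij
    have hne : edp (G e) a b p q E ≠ 0 := by
      intro h0
      rw [h0, mul_zero, Polynomial.zero_comp, Polynomial.coeff_zero] at hij
      exact hij rfl
    have h2 := vcv_trail (P := edp (G e) a b p q E) hne hμ0 (r' * (N + a) + s * b - E)
    have h3 := Polynomial.natTrailingDegree_le_of_ne_zero hij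
    rw [h2.2] at h3
    have h4 : mlt (edv G a b p q E) μ ≤ (edp (G e) a b p q E).rootMultiplicity μ :=
      Nat.sInf_le (s := {n | ∃ e, edv G a b p q E e ≠ 0 ∧
        (edv G a b p q E e).rootMultiplicity μ = n}) ⟨e, hne, rfl⟩
    exact h4.trans h3

end VCV

end Pool.Agent.H75.Mono
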