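import Pool.Agent.H75.Idl.I0
import Pool.Agent.H75.Plc.EV2

/-! # LIY, module ZNV: multiplicity 0 and pure multiplicity 1 -/

set_option autoImplicit false

namespace Pool.Agent.H75.Mono

open MvPolynomial Pool.Agent.H39.MonoR

section ZNV

variable {k : Type} [Field k] [Algebra k ℂ]

omit [Algebra k ℂ] in
private theorem znv_aeval_ix {A : Type*} [CommRing A] [Algebra k A] (f : Fin 2 → A) (i j : ℕ)
    (c : k) : aeval f (monomial (ix i j) c) = algebraMap k A c * (f 0 ^ i * f 1 ^ j) := by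
  rw [aeval_monomial]
  congr 1
  unfold ix
  rw [Finsupp.prod_add_index' (by simp) (by intro a b c; rw [pow_add]),
    Finsupp.prod_single_index (by simp), Finsupp.prod_single_index (by simp)]

/-- the value as a sum -/
private theorem znv_sum (N d : ℕ) (G : PS k) (φ : Fin 2 × Fin (d + 1) → ℂ) :
    arcEval k φ (X 0 ^ N * tp d G) =
      ∑ r ∈ Finset.range (d + 1) ×ˢ Finset.range (d + 1),
        arc φ 0 ^ N * (algebraMap k (PowerSeries ℂ) (cf G r.1 r.2) *
          (arc φ 0 ^ r.1 * arc φ 1 ^ r.2)) := by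
  unfold arcEval tp
  rw [map_mul, map_pow, aeval_X, map_sum, Finset.sum_product, Finset.mul_sum]
  refine Finset.sum_congr rfl fun i _ => ?_
  rw [map_sum, Finset.mul_sum]
  refine Finset.sum_congr rfl fun j _ => ?_
  rw [znv_aeval_ix]

private theorem znv_x {p q m d : ℕ} {φ : Fin 2 × Fin (d + 1) → ℂ} (h : rgn p q m φ)
    (hm : m < d + 1) : ∃ U : PowerSeries ℂ, arc φ 0 = PowerSeries.X ^ m * U ∧
      PowerSeries.constantCoeff U = φ (0, ⟨m, hm⟩) := by
  have h1 : (PowerSeries.X : PowerSeries ℂ) ^ m ∣ arc φ 0 := by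
    rw [PowerSeries.X_pow_dvd_iff]
    intro n hn
    rw [coeff_arc]
    by_cases hn2 : n < d + 1
    · rw [dif_pos hn2]
      exact h.1.1 ⟨n, hn2⟩ hn
    · rw [dif_neg hn2]
  obtain ⟨U, hU⟩ := h1
  refine ⟨U, hU, ?_⟩
  have h2 : PowerSeries.coeff m (arc φ 0) = φ (0, ⟨m, hm⟩) := by
    rw [coeff_arc, dif_pos hm]
  rw [← h2, hU, PowerSeries.coeff_X_pow_mul', if_pos le_rfl, Nat.sub_self,
    PowerSeries.coeff_zero_eq_constantCoeff_apply]

private theorem znv_y {p q m d : ℕ} (hp : 0 < p) {φ : Fin 2 × Fin (d + 1) → ℂ}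
    (h : rgn p q m φ) : (PowerSeries.X : PowerSeries ℂ) ^ (q * m / p + 1) ∣ arc φ 1 := by
  rw [PowerSeries.X_pow_dvd_iff]
  intro n hn
  rw [coeff_arc]
  by_cases hn2 : n < d + 1
  · rw [dif_pos hn2]
    apply h.2 ⟨n, hn2⟩
    show n * p ≤ q * m
    have : n ≤ q * m / p := by omega
    exact (Nat.le_div_iff_mul_le hp).1 this
  · rw [dif_neg hn2]

private theorem znv_l0 {p q m : ℕ} (hp : 0 < p) : q * m < (q * m / p + 1) * p := by
  have := Nat.lt_succ_self (q * m / p)
  exact (Nat.div_lt_iff_lt_mul hp).1 this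

/-- the leading coefficient of a power -/
private theorem znv_pow {m n : ℕ} {x U : PowerSeries ℂ} (hx : x = PowerSeries.X ^ m * U) :
    PowerSeries.coeff (n * m) (x ^ n) = PowerSeries.constantCoeff U ^ n := by
  rw [hx, mul_pow, ← pow_mul, PowerSeries.coeff_X_pow_mul', if_pos (by rw [mul_comm]),
    mul_comm m n, Nat.sub_self, PowerSeries.coeff_zero_eq_constantCoeff_apply, map_pow]

private theorem znv_empty {N p q m a d : ℕ} {G : PS k} (hp : 0 < p) (hV : Vtx G p q a 0)
    (hm : 0 < m) (hmd : (N + a) * m < d) {φ : Fin 2 × Fin (d + 1) → ℂ} (h : rgn p q m φ) (c : ℂ)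
    (hit : Hit (X 0 ^ N * tp d G) d φ c) : False := by
  have had : a ≤ d := by nlinarith
  have hm' : m < d + 1 := by
    obtain ⟨⟨_, hlt, _⟩, _⟩ := h
    exact hlt
  obtain ⟨U, hU, hU0⟩ := znv_x h hm'
  have hy := znv_y hp h
  have hl0 := znv_l0 (q := q) (m := m) hp
  set l0 := q * m / p + 1 with hl0def
  have hx : (PowerSeries.X : PowerSeries ℂ) ^ m ∣ arc φ 0 := ⟨U, hU⟩
  have hmem : ((a, 0) : ℕ × ℕ) ∈ Finset.range (d + 1) ×ˢ Finset.range (d + 1) := by
    simp only [Finset.mem_product, Finset.mem_range]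
    omega
  have h1 : PowerSeries.coeff ((N + a) * m) (arcEval k φ (X 0 ^ N * tp d G)) =
      algebraMap k ℂ (cf G a 0) * φ (0, ⟨m, hm'⟩) ^ (N + a) := by
    rw [znv_sum, ← Finset.add_sum_erase _ _ hmem, map_add]
    have h2 : PowerSeries.coeff ((N + a) * m) (arc φ 0 ^ N *
        (algebraMap k (PowerSeries ℂ) (cf G (a, 0).1 (a, 0).2) *
          (arc φ 0 ^ (a, 0).1 * arc φ 1 ^ (a, 0).2))) =
        algebraMap k ℂ (cf G a 0) * φ (0, ⟨m, hm'⟩) ^ (N + a) := by
      have e : arc φ 0 ^ N * (algebraMap k (PowerSeries ℂ) (cf G (a, 0).1 (a, 0).2) *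
          (arc φ 0 ^ (a, 0).1 * arc φ 1 ^ (a, 0).2)) =
          PowerSeries.C (algebraMap k ℂ (cf G a 0)) * arc φ 0 ^ (N + a) := by
        have e1 : algebraMap k (PowerSeries ℂ) (cf G a 0) =
          PowerSeries.C (algebraMap k ℂ (cf G a 0)) := by rw [PowerSeries.algebraMap_apply]
        simp only [pow_zero, mul_one, e1]
        ring
      rw [e, PowerSeries.coeff_C_mul, znv_pow hU, hU0]
    rw [h2]
    have h3 : (PowerSeries.X : PowerSeries ℂ) ^ ((N + a) * m + 1) ∣
        ∑ r ∈ (Finset.range (d + 1) ×ˢ Finset.range (d + 1)).erase (a, 0),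
        arc φ 0 ^ N * (algebraMap k (PowerSeries ℂ) (cf G r.1 r.2) *
          (arc φ 0 ^ r.1 * arc φ 1 ^ r.2)) := by
      apply Finset.dvd_sum
      rintro ⟨i, j⟩ hr
      have hne := (Finset.mem_erase.1 hr).1
      simp only
      by_cases hc : cf G i j = 0
      · rw [hc, map_zero, zero_mul, mul_zero]
        exact dvd_zero _
      · obtain ⟨w1, w2⟩ := hV.2 i j hc
        have hw : a * m + 1 ≤ i * m + j * l0 := by
          rcases Nat.eq_zero_or_pos j with hj | hj
          · subst hj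
            have h5 : a ≤ i := by
              have : a * p ≤ i * p := by simpa using w1
              exact Nat.le_of_mul_le_mul_right this hp
            have h6 : a ≠ i := fun h => hne (by rw [h])
            have h7 : a < i := lt_of_le_of_ne h5 h6
            nlinarith
          · have h8 : a * p * m ≤ (i * p + j * q) * m := by
              apply Nat.mul_le_mul_right
              omega
            have h9 : j * (q * m) < j * (l0 * p) := Nat.mul_lt_mul_of_pos_left hl0 hj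
            have h10 : a * m * p < (i * m + j * l0) * p := by nlinarith
            have := Nat.lt_of_mul_lt_mul_right h10
            omega
        have h11 : (PowerSeries.X : PowerSeries ℂ) ^ (N * m + (i * m + j * l0)) ∣
            arc φ 0 ^ N * (algebraMap k (PowerSeries ℂ) (cf G i j) *
              (arc φ 0 ^ i * arc φ 1 ^ j)) := by
          rw [pow_add, pow_add]
          apply mul_dvd_mul
          · rw [mul_comm, pow_mul]
            exact pow_dvd_pow_of_dvd hx N
          · apply Dvd.dvd.mul_left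
            apply mul_dvd_mul
            · rw [mul_comm, pow_mul]
              exact pow_dvd_pow_of_dvd hx i
            · rw [mul_comm, pow_mul]
              exact pow_dvd_pow_of_dvd hy j
        refine dvd_trans (pow_dvd_pow _ ?_) h11
        nlinarith
    rw [PowerSeries.X_pow_dvd_iff] at h3
    rw [h3 _ (by omega), add_zero]
  have h4 := hit ((N + a) * m) hmd.le
  rw [h1, if_neg (by omega)] at h4
  have h5 : algebraMap k ℂ (cf G a 0) ≠ 0 := by
    rw [Ne, map_eq_zero]
    exact hV.1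
  obtain ⟨⟨_, hlt, hne⟩, _⟩ := h
  exact mul_ne_zero h5 (pow_ne_zero _ hne) h4

private theorem znv_bev_zero {r : ℕ} {G : Fin (r + 1) → PS k} {N ν p q a d : ℕ} (hp : 0 < p)
    (hV : Vtv G p q a 0) (t : Test k) : bev N ν G p q a 0 d t = 0 := by
  unfold bev
  apply Finset.sum_eq_zero
  intro m hm
  obtain ⟨hm1, hm2⟩ := Finset.mem_filter.1 hm
  have hm0 : 0 < m := (Finset.mem_Icc.1 hm1).1
  have hmd : (N + a) * m < d := by
    have : (N + a) * m * p < d * p := by nlinarith
    exact Nat.lt_of_mul_lt_mul_right this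
  obtain ⟨e0, he0⟩ := hV.1
  have hV0 : Vtx (G e0) p q a 0 := ⟨he0, hV.2 e0⟩
  have key : ∀ t : Test k, dmv N G p q m d t = 0 := by
    intro t
    unfold dmv
    have e : {x : (Fin 2 × Fin (d + 1) → ℂ) × t.E | x.2 ∈ t.W ∧ rgn p q m x.1 ∧
        Htv (tpv N d G) d x.1 (t.c x.2)} = ∅ := by
      ext x
      constructor
      · rintro ⟨_, h2, h3⟩
        exact (znv_empty hp hV0 hm0 hmd h2 _ (h3 e0)).elim
      · intro h
        exact absurd h (Set.notMem_empty _)
    rw [e, mo_empty]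
  rw [key, key, sub_zero, mul_zero]

private theorem znv_arc_update {d e : ℕ} (he : e < d + 1) (φ : Fin 2 × Fin (d + 1) → ℂ) (ε : ℂ) :
    arc (Function.update φ (1, ⟨e, he⟩) (φ (1, ⟨e, he⟩) + ε)) 0 = arc φ 0 ∧
    arc (Function.update φ (1, ⟨e, he⟩) (φ (1, ⟨e, he⟩) + ε)) 1 =
      arc φ 1 + PowerSeries.X ^ e * PowerSeries.C ε := by
  constructor
  · unfold arc
    refine Finset.sum_congr rfl fun l _ => ?_
    rw [Function.update_of_ne]
    intro h
    have h2 : (0 : Fin 2) = 1 := congrArg Prod.fst h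
    exact absurd h2 (by decide)
  · ext l
    rw [map_add, coeff_arc, coeff_arc, PowerSeries.coeff_X_pow_mul']
    by_cases hl : l < d + 1
    · rw [dif_pos hl, dif_pos hl]
      by_cases hle : l = e
      · subst hle
        rw [Function.update_self, if_pos le_rfl, Nat.sub_self, PowerSeries.coeff_zero_C]
      · rw [Function.update_of_ne]
        · by_cases h1 : e ≤ l
          · rw [if_pos h1, PowerSeries.coeff_C, if_neg (by omega), add_zero]
          · rw [if_neg h1, add_zero]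
        · intro h
          apply hle
          have := congrArg (fun p => (p.2 : ℕ)) h
          exact this
    · rw [dif_neg hl, dif_neg hl]
      by_cases h1 : e ≤ l
      · rw [if_pos h1, PowerSeries.coeff_C, if_neg (by omega), add_zero]
      · rw [if_neg h1, add_zero]

/-- `(y + h)^j - y^j` -/
private theorem znv_pow_sub {l0 e : ℕ} (he : l0 ≤ e) {y : PowerSeries ℂ}
    (hy : (PowerSeries.X : PowerSeries ℂ) ^ l0 ∣ y) (ε : ℂ) (j : ℕ) :
    (PowerSeries.X : PowerSeries ℂ) ^ (j * l0 + e) ∣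
      (y + PowerSeries.X ^ e * PowerSeries.C ε) ^ (j + 1) - y ^ (j + 1) := by
  have hz : (PowerSeries.X : PowerSeries ℂ) ^ l0 ∣ y + PowerSeries.X ^ e * PowerSeries.C ε :=
    dvd_add hy (Dvd.dvd.mul_right (pow_dvd_pow _ he) _)
  set z := y + PowerSeries.X ^ e * PowerSeries.C ε with hzd
  have h1 : z - y = PowerSeries.X ^ e * PowerSeries.C ε := by
    rw [hzd]
    ring
  induction j with
  | zero =>
    rw [zero_mul, zero_add, zero_add, pow_one, pow_one, h1]
    exact dvd_mul_right _ _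
  | succ j ih =>
    have e1 : z ^ (j + 1 + 1) - y ^ (j + 1 + 1) =
        z * (z ^ (j + 1) - y ^ (j + 1)) + (z - y) * y ^ (j + 1) := by ring
    rw [e1]
    apply dvd_add
    · have e2 : (j + 1) * l0 + e = l0 + (j * l0 + e) := by ring
      rw [e2, pow_add]
      exact mul_dvd_mul hz ih
    · have e2 : (j + 1) * l0 + e = e + l0 * (j + 1) := by ring
      rw [e2, pow_add, h1, pow_mul]
      exact mul_dvd_mul (dvd_mul_right _ _) (pow_dvd_pow_of_dvd hy _)

/-- a translation of `Y` in order `e` -/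
private theorem znv_shift {N p q m a d e : ℕ} {G : PS k} (hp : 0 < p)
    (hV : ∀ i j, cf G i j ≠ 0 → a * p + 1 * q ≤ i * p + j * q ∧
      (i * p + j * q = a * p + 1 * q → 1 ≤ j))
    (hm : 0 < m) (hde : d = (N + a) * m + e) (hqe : q * m < p * e) (he : e < d + 1)
    {φ : Fin 2 × Fin (d + 1) → ℂ} (h : rgn p q m φ) (hm' : m < d + 1) (ε : ℂ) :
    (∀ l, l < d → PowerSeries.coeff l (arcEval k
      (Function.update φ (1, ⟨e, he⟩) (φ (1, ⟨e, he⟩) + ε)) (X 0 ^ N * tp d G)) =
        PowerSeries.coeff l (arcEval k φ (X 0 ^ N * tp d G))) ∧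
    PowerSeries.coeff d (arcEval k
      (Function.update φ (1, ⟨e, he⟩) (φ (1, ⟨e, he⟩) + ε)) (X 0 ^ N * tp d G)) =
        PowerSeries.coeff d (arcEval k φ (X 0 ^ N * tp d G)) +
          ε * (algebraMap k ℂ (cf G a 1) * φ (0, ⟨m, hm'⟩) ^ (N + a)) := by
  have he0 : 0 < e := by
    rcases Nat.eq_zero_or_pos e with h0 | h0
    · subst h0
      omega
    · exact h0
  have had : a ≤ d := by nlinarith
  obtain ⟨U, hU, hU0⟩ := znv_x h hm'
  have hy := znv_y hp h
  have hl0 := znv_l0 (q := q) (m := m) hp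
  have hel : q * m / p + 1 ≤ e := by
    have : q * m / p < e := (Nat.div_lt_iff_lt_mul hp).2 (by rw [mul_comm e p]; exact hqe)
    omega
  set l0 := q * m / p + 1 with hl0def
  have hx : (PowerSeries.X : PowerSeries ℂ) ^ m ∣ arc φ 0 := ⟨U, hU⟩
  have hmem : ((a, 1) : ℕ × ℕ) ∈ Finset.range (d + 1) ×ˢ Finset.range (d + 1) := by
    simp only [Finset.mem_product, Finset.mem_range]
    omega
  obtain ⟨a0, a1⟩ := znv_arc_update he φ ε
  set φ' := Function.update φ (1, ⟨e, he⟩) (φ (1, ⟨e, he⟩) + ε) with hφ'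
  have hdiff : arcEval k φ' (X 0 ^ N * tp d G) - arcEval k φ (X 0 ^ N * tp d G) =
      ∑ r ∈ Finset.range (d + 1) ×ˢ Finset.range (d + 1),
        arc φ 0 ^ N * (algebraMap k (PowerSeries ℂ) (cf G r.1 r.2) *
          (arc φ 0 ^ r.1 * (arc φ' 1 ^ r.2 - arc φ 1 ^ r.2))) := by
    rw [znv_sum, znv_sum, a0, ← Finset.sum_sub_distrib]
    refine Finset.sum_congr rfl fun r _ => ?_
    ring
  have h3 : (PowerSeries.X : PowerSeries ℂ) ^ (d + 1) ∣
        ∑ r ∈ (Finset.range (d + 1) ×ˢ Finset.range (d + 1)).erase (a, 1),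
        arc φ 0 ^ N * (algebraMap k (PowerSeries ℂ) (cf G r.1 r.2) *
          (arc φ 0 ^ r.1 * (arc φ' 1 ^ r.2 - arc φ 1 ^ r.2))) := by
    apply Finset.dvd_sum
    rintro ⟨i, j⟩ hr
    have hne := (Finset.mem_erase.1 hr).1
    simp only
    by_cases hc : cf G i j = 0
    · rw [hc, map_zero, zero_mul, mul_zero]
      exact dvd_zero _
    · obtain ⟨w1, w2⟩ := hV i j hc
      rcases j with _ | j
      · rw [pow_zero, pow_zero, sub_self, mul_zero, mul_zero, mul_zero]
        exact dvd_zero _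
      · have hw : a * m + 1 ≤ i * m + j * l0 := by
          rcases Nat.eq_zero_or_pos j with hj | hj
          · subst hj
            have h5 : a ≤ i := by
              have : a * p ≤ i * p := by simpa using w1
              exact Nat.le_of_mul_le_mul_right this hp
            have h6 : a ≠ i := fun h => hne (by rw [h])
            have h7 : a < i := lt_of_le_of_ne h5 h6
            nlinarith
          · have h8 : (a * p + 1 * q) * m ≤ (i * p + (j + 1) * q) * m :=
              Nat.mul_le_mul_right m w1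
            have h9 : j * (q * m) < j * (l0 * p) := Nat.mul_lt_mul_of_pos_left hl0 hj
            have h10 : a * m * p < (i * m + j * l0) * p := by nlinarith
            have := Nat.lt_of_mul_lt_mul_right h10
            omega
        have h11 : (PowerSeries.X : PowerSeries ℂ) ^ (N * m + (i * m + (j * l0 + e))) ∣
            arc φ 0 ^ N * (algebraMap k (PowerSeries ℂ) (cf G i (j + 1)) *
              (arc φ 0 ^ i * (arc φ' 1 ^ (j + 1) - arc φ 1 ^ (j + 1)))) := by
          rw [pow_add, pow_add]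
          apply mul_dvd_mul
          · rw [mul_comm, pow_mul]
            exact pow_dvd_pow_of_dvd hx N
          · apply Dvd.dvd.mul_left
            apply mul_dvd_mul
            · rw [mul_comm, pow_mul]
              exact pow_dvd_pow_of_dvd hx i
            · rw [a1]
              exact znv_pow_sub hel hy ε j
        refine dvd_trans (pow_dvd_pow _ ?_) h11
        rw [hde]
        nlinarith
  have h12 : arcEval k φ' (X 0 ^ N * tp d G) = arcEval k φ (X 0 ^ N * tp d G) +
      (PowerSeries.X ^ e * (PowerSeries.C (ε * algebraMap k ℂ (cf G a 1)) *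
        arc φ 0 ^ (N + a)) + ∑ r ∈ (Finset.range (d + 1) ×ˢ Finset.range (d + 1)).erase (a, 1),
        arc φ 0 ^ N * (algebraMap k (PowerSeries ℂ) (cf G r.1 r.2) *
          (arc φ 0 ^ r.1 * (arc φ' 1 ^ r.2 - arc φ 1 ^ r.2)))) := by
    rw [← sub_eq_iff_eq_add', hdiff, ← Finset.add_sum_erase _ _ hmem]
    congr 1
    have e1 : algebraMap k (PowerSeries ℂ) (cf G a 1) =
      PowerSeries.C (algebraMap k ℂ (cf G a 1)) := by rw [PowerSeries.algebraMap_apply]
    simp only [pow_one]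
    rw [e1, a1, map_mul]
    ring
  rw [PowerSeries.X_pow_dvd_iff] at h3
  constructor
  · intro l hl
    rw [h12, map_add, map_add, h3 l (by omega), add_zero]
    have h13 : (PowerSeries.X : PowerSeries ℂ) ^ d ∣
        PowerSeries.X ^ e * (PowerSeries.C (ε * algebraMap k ℂ (cf G a 1)) *
        arc φ 0 ^ (N + a)) := by
      have e2 : d = e + m * (N + a) := by rw [hde]; ring
      refine dvd_trans (pow_dvd_pow _ (le_of_eq e2)) ?_
      rw [pow_add, pow_mul]
      exact mul_dvd_mul dvd_rfl (Dvd.dvd.mul_left (pow_dvd_pow_of_dvd hx _) _)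
    rw [PowerSeries.X_pow_dvd_iff] at h13
    rw [h13 l hl, add_zero]
  · rw [h12, map_add, map_add, h3 d (by omega), add_zero]
    congr 1
    rw [PowerSeries.coeff_X_pow_mul', if_pos (by omega), PowerSeries.coeff_C_mul]
    have e2 : d - e = (N + a) * m := by omega
    rw [e2, znv_pow hU, hU0]
    ring

private theorem znv_ordc {N : ℕ} (i : Fin 2) (n : ℕ) :
    ICons k {φ : Fin 2 × Fin N → ℂ | ordc φ i n} := by
  unfold ordc
  refine ICons.and ?_ ?_
  · apply ICons.forall_fin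
    intro l
    by_cases h : (l : ℕ) < n
    · simp only [h, true_implies]
      exact ICons.eq (PFun.apply (k := k) (i, l)) PFun.zero
    · simp only [h, false_implies]
      exact ICons.univ
  · by_cases h : n < N
    · have e : {φ : Fin 2 × Fin N → ℂ | ∃ h : n < N, φ (i, ⟨n, h⟩) ≠ 0} =
          {φ | φ (i, ⟨n, h⟩) ≠ 0} := by
        ext φ
        exact ⟨fun ⟨_, h1⟩ => h1, fun h1 => ⟨h, h1⟩⟩
      rw [e]
      exact ICons.ne (PFun.apply (k := k) (i, (⟨n, h⟩ : Fin N))) PFun.zero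
    · have e : {φ : Fin 2 × Fin N → ℂ | ∃ h : n < N, φ (i, ⟨n, h⟩) ≠ 0} = ∅ := by
        ext φ
        exact ⟨fun ⟨h2, _⟩ => absurd h2 h, fun h1 => absurd h1 (Set.notMem_empty _)⟩
      rw [e]
      exact ICons.empty

private theorem znv_rgn {N : ℕ} (p q m : ℕ) :
    ICons k {φ : Fin 2 × Fin N → ℂ | rgn p q m φ} := by
  unfold rgn
  refine ICons.and (znv_ordc 0 m) ?_
  apply ICons.forall_fin
  intro l
  by_cases h : (l : ℕ) * p ≤ q * m
  · simp only [h, true_implies]
    exact ICons.eq (PFun.apply (k := k) (1, l)) PFun.zero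
  · simp only [h, false_implies]
    exact ICons.univ

private theorem znv_cons {r : ℕ} (N : ℕ) (G : Fin (r + 1) → PS k) (p q m d : ℕ) (t : Test k)
    {c : t.E → ℂ} (hc : PFun k c) : ICons k {x : (Fin 2 × Fin (d + 1) → ℂ) × t.E | x.2 ∈ t.W ∧
      rgn p q m x.1 ∧ Htv (tpv N d G) d x.1 (c x.2)} := by
  refine (t.cW.mem PMap.snd).and (((znv_rgn p q m).mem PMap.fst).and ?_)
  unfold Htv
  apply ICons.forall_fin
  intro e
  by_cases he : e = 0
  · simp only [he, if_true]
    exact ICons.hit d _ PMap.fst (hc.comp PMap.snd)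
  · simp only [he, if_false]
    exact ICons.hit d _ PMap.fst PFun.zero

private theorem znv_upd_rgn {p q m d e : ℕ} (hqe : q * m < p * e) (he : e < d + 1)
    {φ : Fin 2 × Fin (d + 1) → ℂ} (h : rgn p q m φ) (a : ℂ) :
    rgn p q m (Function.update φ (1, ⟨e, he⟩) a) := by
  have h0 : ∀ l : Fin (d + 1), Function.update φ (1, ⟨e, he⟩) a (0, l) = φ (0, l) := by
    intro l
    rw [Function.update_of_ne]
    intro h1
    have h2 : (0 : Fin 2) = 1 := congrArg Prod.fst h1
    exact absurd h2 (by decide)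
  obtain ⟨⟨h1, hlt, h2⟩, h3⟩ := h
  refine ⟨⟨?_, hlt, ?_⟩, ?_⟩
  · intro l hl
    rw [h0]
    exact h1 l hl
  · rw [h0]
    exact h2
  · intro l hl
    rw [Function.update_of_ne]
    · exact h3 l hl
    · intro h4
      have h5 : (l : ℕ) = e := congrArg (fun p => (p.2 : ℕ)) h4
      rw [h5] at hl
      rw [mul_comm p e] at hqe
      omega

private theorem znv_main {r : ℕ} {N p q m a d e : ℕ} {G : Fin (r + 1) → PS k} (hp : 0 < p)
    (hV : Vtv G p q a 1) (hP : Pur G a 1)
    (hm : 0 < m) (hde : d = (N + a) * m + e) (hqe : q * m < p * e) (t : Test k) :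
    mo k {x : (Fin 2 × Fin (d + 1) → ℂ) × t.E | x.2 ∈ t.W ∧ rgn p q m x.1 ∧
        Htv (tpv N d G) d x.1 (t.c x.2)} =
    mo k {x : (Fin 2 × Fin (d + 1) → ℂ) × t.E | x.2 ∈ t.W ∧ rgn p q m x.1 ∧
        Htv (tpv N d G) d x.1 0} := by
  classical
  have he : e < d + 1 := by omega
  have hg : algebraMap k ℂ (cf (G 0) a 1) ≠ 0 := by
    rw [Ne, map_eq_zero]
    obtain ⟨e1, he1⟩ := hV.1
    by_cases h1 : e1 = 0
    · rwa [h1] at he1
    · exact absurd (hP e1 h1) he1
  by_cases hm' : m < d + 1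
  swap
  · have e0 : ∀ c : t.E → ℂ, {x : (Fin 2 × Fin (d + 1) → ℂ) × t.E | x.2 ∈ t.W ∧ rgn p q m x.1 ∧
        Htv (tpv N d G) d x.1 (c x.2)} = ∅ := by
      intro c
      ext x
      constructor
      · rintro ⟨_, ⟨⟨_, hlt, _⟩, _⟩, _⟩
        exact absurd hlt hm'
      · intro h
        exact absurd h (Set.notMem_empty _)
    rw [e0 t.c, e0 (fun _ => 0)]
  have hx0 : PFun k (fun y : ((Fin 2 × Fin (d + 1) → ℂ) × t.E) × ℂ =>
      algebraMap k ℂ (cf (G 0) a 1) * y.1.1 (0, ⟨m, hm'⟩) ^ (N + a)) :=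
    (PFun.const _).mul ((PFun.comp (f := fun φ : Fin 2 × Fin (d + 1) → ℂ => φ (0, ⟨m, hm'⟩))
      (PFun.apply (k := k) ((0, ⟨m, hm'⟩) : Fin 2 × Fin (d + 1)))
      (PMap.fst.comp PMap.fst)).pow _)
  have hA : ∀ c : t.E → ℂ, PFun k c → ICons k
      {y : ((Fin 2 × Fin (d + 1) → ℂ) × t.E) × ℂ |
        y.1 ∈ {x : (Fin 2 × Fin (d + 1) → ℂ) × t.E | x.2 ∈ t.W ∧ rgn p q m x.1 ∧
          Htv (tpv N d G) d x.1 (c x.2)} ∧
        y.2 * (algebraMap k ℂ (cf (G 0) a 1) * y.1.1 (0, ⟨m, hm'⟩) ^ (N + a)) = t.c y.1.2} := by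
    intro c hc
    refine ICons.and ((znv_cons N G p q m d t hc).mem PMap.fst) (ICons.eq ?_ ?_)
    · exact PFun.mul (PFun.comp (f := fun x : ℂ => x) PFun.id' PMap.snd) hx0
    · exact t.pf.comp (PMap.snd.comp PMap.fst)
  have h1 : ∀ c : t.E → ℂ, PFun k c →
      mo k {x : (Fin 2 × Fin (d + 1) → ℂ) × t.E | x.2 ∈ t.W ∧ rgn p q m x.1 ∧
        Htv (tpv N d G) d x.1 (c x.2)} =
      mo k {y : ((Fin 2 × Fin (d + 1) → ℂ) × t.E) × ℂ |
        y.1 ∈ {x : (Fin 2 × Fin (d + 1) → ℂ) × t.E | x.2 ∈ t.W ∧ rgn p q m x.1 ∧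
          Htv (tpv N d G) d x.1 (c x.2)} ∧
        y.2 * (algebraMap k ℂ (cf (G 0) a 1) * y.1.1 (0, ⟨m, hm'⟩) ^ (N + a)) = t.c y.1.2} := by
    intro c hc
    have hne : ∀ x : (Fin 2 × Fin (d + 1) → ℂ) × t.E, rgn p q m x.1 →
        algebraMap k ℂ (cf (G 0) a 1) * x.1 (0, ⟨m, hm'⟩) ^ (N + a) ≠ 0 := by
      intro x hx
      obtain ⟨⟨_, hlt, h2⟩, _⟩ := hx
      exact mul_ne_zero hg (pow_ne_zero _ h2)
    refine (mo_bij (hA c hc) (znv_cons N G p q m d t hc) (f := fun y => y.1) PMap.fst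
      ⟨?_, ?_, ?_⟩).symm
    · intro y hy
      exact hy.1
    · rintro ⟨x, ε⟩ hy ⟨x', ε'⟩ hy' he
      simp only at he
      subst he
      exact Prod.ext rfl (mul_right_cancel₀ (hne x hy.1.2.1) (hy.2.trans hy'.2.symm))
    · intro x hx
      refine ⟨(x, t.c x.2 / (algebraMap k ℂ (cf (G 0) a 1) * x.1 (0, ⟨m, hm'⟩) ^ (N + a))),
        ⟨hx, ?_⟩, rfl⟩
      exact div_mul_cancel₀ _ (hne x hx.2.1)
  rw [h1 t.c t.pf, h1 (fun _ => 0) PFun.zero]
  have hmap : PMap k (fun y : ((Fin 2 × Fin (d + 1) → ℂ) × t.E) × ℂ =>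
      ((Function.update y.1.1 (1, ⟨e, he⟩) (y.1.1 (1, ⟨e, he⟩) + -y.2), y.1.2), y.2)) := by
    refine PMap.prodMk (PMap.prodMk (PMap.pi fun r => ?_) (PMap.snd.comp PMap.fst)) PMap.snd
    have h3 : ∀ r : Fin 2 × Fin (d + 1), PFun k
        (fun y : ((Fin 2 × Fin (d + 1) → ℂ) × t.E) × ℂ => y.1.1 r) := fun r =>
      PFun.comp (f := fun φ : Fin 2 × Fin (d + 1) → ℂ => φ r) (PFun.apply r)
        (PMap.fst.comp PMap.fst)
    by_cases hr : r = (1, ⟨e, he⟩)
    · subst hr
      simp only [Function.update_self]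
      exact (h3 _).add (PFun.comp (f := fun x : ℂ => x) PFun.id' PMap.snd).neg
    · simp only [Function.update_of_ne hr]
      exact h3 r
  have hm0 : ∀ (φ : Fin 2 × Fin (d + 1) → ℂ) (b : ℂ),
      Function.update φ (1, ⟨e, he⟩) b (0, ⟨m, hm'⟩) = φ (0, ⟨m, hm'⟩) := by
    intro φ b
    rw [Function.update_of_ne]
    intro h2
    have h3 : (0 : Fin 2) = 1 := congrArg Prod.fst h2
    exact absurd h3 (by decide)
  refine mo_bij (hA _ t.pf) (hA _ PFun.zero) hmap ⟨?_, ?_, ?_⟩
  · rintro ⟨⟨φ, w⟩, ε⟩ ⟨⟨hw, ho, hh⟩, hε⟩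
    simp only at hw ho hh hε
    have h2 := fun i => znv_shift (G := G i) hp (hV.2 i) hm hde hqe he ho hm' (-ε)
    refine ⟨⟨hw, znv_upd_rgn hqe he ho _, ?_⟩, ?_⟩
    · intro i
      have hhi := hh i
      simp only
      rw [hit_iff] at hhi ⊢
      unfold tpv at hhi ⊢
      refine ⟨fun l hl => ?_, ?_⟩
      · rw [(h2 i).1 l hl, hhi.1 l hl]
      · rw [(h2 i).2, hhi.2]
        by_cases hi : i = 0
        · rw [hi, if_pos rfl, if_pos rfl, ← hε]
          ring
        · rw [if_neg hi, if_neg hi, hP i hi]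
          simp
    · simp only
      rw [hm0]
      exact hε
  · rintro ⟨⟨φ, w⟩, ε⟩ _ ⟨⟨φ', w'⟩, ε'⟩ _ hxy
    simp only [Prod.mk.injEq] at hxy
    obtain ⟨⟨h2, h3⟩, h4⟩ := hxy
    subst h3 h4
    have : φ = φ' := by
      funext r
      have h5 := congrFun h2 r
      by_cases hr : r = (1, ⟨e, he⟩)
      · subst hr
        rw [Function.update_self, Function.update_self] at h5
        exact add_right_cancel h5
      · rwa [Function.update_of_ne hr, Function.update_of_ne hr] at h5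
    rw [this]
  · rintro ⟨⟨φ, w⟩, ε⟩ ⟨⟨hw, ho, hh⟩, hε⟩
    simp only at hw ho hh hε
    have h2 := fun i => znv_shift (G := G i) hp (hV.2 i) hm hde hqe he ho hm' ε
    refine ⟨((Function.update φ (1, ⟨e, he⟩) (φ (1, ⟨e, he⟩) + ε), w), ε),
      ⟨⟨hw, znv_upd_rgn hqe he ho _, ?_⟩, ?_⟩, ?_⟩
    · intro i
      have hhi := hh i
      simp only
      rw [hit_iff] at hhi ⊢
      unfold tpv at hhi ⊢
      refine ⟨fun l hl => ?_, ?_⟩
      · rw [(h2 i).1 l hl, hhi.1 l hl]
      · rw [(h2 i).2, hhi.2]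
        by_cases hi : i = 0
        · rw [hi, if_pos rfl, if_pos rfl, ← hε]
          ring
        · rw [if_neg hi, if_neg hi, hP i hi]
          simp
    · simp only
      rw [hm0]
      exact hε
    · simp only [Function.update_idem, Function.update_self, add_neg_cancel_right,
        Function.update_eq_self]

private theorem znv_bev_one {r : ℕ} {G : Fin (r + 1) → PS k} {N ν p q a d : ℕ} (hp : 0 < p)
    (hV : Vtv G p q a 1) (hP : Pur G a 1) (t : Test k) : bev N ν G p q a 1 d t = 0 := by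
  unfold bev
  apply Finset.sum_eq_zero
  intro m hm
  obtain ⟨hm1, hm2⟩ := Finset.mem_filter.1 hm
  have hm0 : 0 < m := (Finset.mem_Icc.1 hm1).1
  have hlt : (N + a) * m < d := by
    have : (N + a) * m * p < d * p := by nlinarith
    exact Nat.lt_of_mul_lt_mul_right this
  obtain ⟨e, he⟩ : ∃ e, d = (N + a) * m + e := ⟨d - (N + a) * m, by omega⟩
  have hqe : q * m < p * e := by
    rw [he] at hm2
    nlinarith
  have key : dmv N G p q m d t = dmv N G p q m d t.zr := znv_main hp hV hP hm0 he hqe t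
  rw [key, sub_self, mul_zero]

end ZNV

section ZNV

variable {k : Type} [Field k] [Algebra k ℂ] {r : ℕ} {G : Fin (r + 1) → PS k}
  {N ν p q a d : ℕ}

omit [Algebra k ℂ] in
theorem bev_zero [Algebra k ℂ] (hp : 0 < p) (hV : Vtv G p q a 0) (t : Test k) :
    bev N ν G p q a 0 d t = 0 := znv_bev_zero hp hV t

theorem bev_one (hp : 0 < p) (hV : Vtv G p q a 1) (hP : Pur G a 1) (t : Test k) :
    bev N ν G p q a 1 d t = 0 := znv_bev_one hp hV hP t

end ZNV

end Pool.Agent.H75.Mono
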