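import Pool.Agent.H75.Idl.I0
import Pool.Agent.H75.Plc.ZSH

/-! # LIY, module ZSV: shears -/

set_option autoImplicit false

namespace Pool.Agent.H75.Mono

open MvPolynomial Pool.Agent.H39.MonoR

section ZSV

variable {k : Type} [Field k] [Algebra k ℂ] {r : ℕ}

theorem zsv_icons_dmv (N : ℕ) (G : Fin (r + 1) → PS k) (p q m d : ℕ) (t : Test k) :
    ICons k {x : (Fin 2 × Fin (d + 1) → ℂ) × t.E | x.2 ∈ t.W ∧ rgn p q m x.1 ∧
      Htv (tpv N d G) d x.1 (t.c x.2)} := by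
  refine (t.cW.mem PMap.snd).and (((zsh_icons_rgn p q m).mem PMap.fst).and ?_)
  unfold Htv
  apply ICons.forall_fin
  intro e
  by_cases he : e = 0
  · simp only [he, if_true]
    exact ICons.hit d _ PMap.fst (t.pf.comp PMap.snd)
  · simp only [he, if_false]
    exact ICons.hit d _ PMap.fst PFun.zero

theorem zsv_htv {p q m d : ℕ} (hm : 0 < m) {h : PowerSeries k}
    (hh : ∀ i, PowerSeries.coeff i h ≠ 0 → q < i * p) (N : ℕ) (G : Fin (r + 1) → PS k)
    {φ : Fin 2 × Fin (d + 1) → ℂ} (hφ : rgn p q m φ) (c : ℂ) :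
    Htv (tpv N d (shv' h G)) d φ c ↔ Htv (tpv N d G) d (zsp h 1 φ) c := by
  unfold Htv
  exact forall_congr' fun e => zsh_hit hm hh N (G e) hφ _

theorem zsv_dmv_shv {p q m d : ℕ} (hm : 0 < m) {h : PowerSeries k}
    (hh : ∀ i, PowerSeries.coeff i h ≠ 0 → q < i * p) (N : ℕ) (G : Fin (r + 1) → PS k)
    (t : Test k) : dmv N (shv' h G) p q m d t = dmv N G p q m d t := by
  have e1 : (algebraMap k ℂ 1) = 1 := map_one _
  unfold dmv
  refine mo_bij (zsv_icons_dmv N (shv' h G) p q m d t) (zsv_icons_dmv N G p q m d t)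
    (f := fun x => (zsp h (algebraMap k ℂ 1) x.1, x.2))
    (PMap.prodMk (PMap.comp (PMap.zsp h 1) PMap.fst) PMap.snd) ⟨?_, ?_, ?_⟩
  · rintro ⟨φ, w⟩ ⟨h1, h2, h3⟩
    simp only at h1 h2 h3
    refine ⟨h1, ?_, ?_⟩
    · simp only
      exact zsp_rgn hm hh _ h2
    · simp only
      rw [e1]
      exact (zsv_htv hm hh N G h2 _).1 h3
  · rintro ⟨φ, w⟩ _ ⟨φ', w'⟩ _ hxy
    simp only [Prod.mk.injEq] at hxy
    obtain ⟨h1, h2⟩ := hxy
    have h3 : zsp h (-1) (zsp h 1 φ) = zsp h (-1) (zsp h 1 φ') := by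
      rw [e1] at h1
      rw [h1]
    rw [zsp_zsp, zsp_zsp, neg_add_cancel, zsp_s0, zsp_s0] at h3
    rw [h3, h2]
  · rintro ⟨φ, w⟩ ⟨h1, h2, h3⟩
    simp only at h1 h2 h3
    have h4 : zsp h 1 (zsp h (-1) φ) = φ := by
      rw [zsp_zsp, add_neg_cancel, zsp_s0]
    refine ⟨(zsp h (-1) φ, w), ⟨h1, ?_, ?_⟩, ?_⟩
    · simp only
      exact zsp_rgn hm hh _ h2
    · simp only
      rw [zsv_htv hm hh N G (zsp_rgn hm hh _ h2), h4]
      exact h3
    · simp only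
      rw [e1, h4]

theorem bev_shv {p q : ℕ} (hp : 0 < p) {h : PowerSeries k}
    (hh : ∀ i, PowerSeries.coeff i h ≠ 0 → q < i * p) (N ν : ℕ) (G : Fin (r + 1) → PS k)
    (a b d : ℕ) (t : Test k) : bev N ν (shv' h G) p q a b d t = bev N ν G p q a b d t := by
  unfold bev
  refine Finset.sum_congr rfl fun m hm => ?_
  have hm1 : 0 < m := by
    have := (Finset.mem_Icc.1 (Finset.mem_filter.1 hm).1).1
    omega
  rw [zsv_dmv_shv hm1 hh, zsv_dmv_shv hm1 hh]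

end ZSV

end Pool.Agent.H75.Mono
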