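import Pool.Agent.H75.Idl.ZRV
import Pool.Agent.H75.Idl.ZNV
import Pool.Agent.H75.Idl.ZSV
import Pool.Agent.H75.Idl.CNV
import Pool.Agent.H75.Idl.GDV
import Pool.Agent.H75.Idl.VCV
import Pool.Agent.H75.Idl.OKE

/-! # LIY: rationality beyond a ray (assembly) -/

set_option autoImplicit false

namespace Pool.Agent.H75.Mono

open MvPolynomial Pool.Agent.H39.MonoR

section Rto

variable {k : Type} [Field k] [Algebra k ℂ] {σ : Type} {f : MvPolynomial σ k}

/-- the generating series is rational, with pairs which give eigenvalues -/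
def Rto (f : MvPolynomial σ k) (B : ℕ → Test k → M k) : Prop :=
  ∃ S : Finset (ℤ × ℕ), Okrs f S ∧ RatF (Lu k) (S : Set (ℤ × ℕ))
    (fun t : Test k => PowerSeries.mk fun d => B d t)

theorem Rto.zero {B : ℕ → Test k → M k} (h : ∀ d t, 0 < d → B d t = 0) : Rto f B := by
  refine ⟨∅, Okrs.empty, ?_⟩
  refine RatF.mono (RatF.of_fin 1 fun (t : Test k) n hn => ?_) (Set.empty_subset _)
  rw [PowerSeries.coeff_mk, h n t (by omega)]

theorem Rto.congr {B B' : ℕ → Test k → M k} (h : Rto f B) (h' : ∀ d t, 0 < d → B d t = B' d t) :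
    Rto f B' := by
  obtain ⟨S, h1, h2⟩ := h
  refine ⟨S, h1, h2.of_eventually 1 fun t n hn => ?_⟩
  rw [PowerSeries.coeff_mk, PowerSeries.coeff_mk, h' n t (by omega)]

open Classical in
theorem Rto.add {B B' : ℕ → Test k → M k} (h : Rto f B) (h' : Rto f B') :
    Rto f fun d t => B d t + B' d t := by
  obtain ⟨S, h1, h2⟩ := h
  obtain ⟨S', h1', h2'⟩ := h'
  refine ⟨S ∪ S', h1.union h1', ?_⟩
  rw [Finset.coe_union]
  refine (h2.add h2').congr fun t => ?_
  ext d
  rw [map_add, PowerSeries.coeff_mk, PowerSeries.coeff_mk, PowerSeries.coeff_mk]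

theorem Rto.sum {J : Type*} (s : Finset J) {B : J → ℕ → Test k → M k}
    (h : ∀ j ∈ s, Rto f (B j)) : Rto f fun d t => ∑ j ∈ s, B j d t := by
  classical
  induction s using Finset.induction_on with
  | empty => exact Rto.zero fun d t _ => by simp
  | insert a s ha ih =>
    refine ((h a (Finset.mem_insert_self a s)).add
      (ih fun j hj => h j (Finset.mem_insert_of_mem hj))).congr fun d t _ => ?_
    rw [Finset.sum_insert ha]

theorem Rto.of_one {B : ℕ → Test k → M k} {p : ℤ × ℕ} (h : RatF (Lu k) {p}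
    (fun t : Test k => PowerSeries.mk fun d => B d t)) (hp : Okr f p) : Rto f B :=
  ⟨{p}, Okrs.single hp, by rwa [Finset.coe_singleton]⟩

open Classical in
theorem Rto.of_two {B : ℕ → Test k → M k} {p q : ℤ × ℕ} (h : RatF (Lu k) {p, q}
    (fun t : Test k => PowerSeries.mk fun d => B d t)) (hp : Okr f p) (hq : Okr f q) :
    Rto f B := by
  refine ⟨{p} ∪ {q}, (Okrs.single hp).union (Okrs.single hq), ?_⟩
  rw [Finset.coe_union, Finset.coe_singleton, Finset.coe_singleton]
  exact h

end Rto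

section BEV

variable {k : Type} [Field k] [Algebra k ℂ] [IsAlgClosed k] {r : ℕ}

theorem pur_shv {G : Fin (r + 1) → PS k} {p q a b : ℕ} {h : PowerSeries k} (hp : 0 < p)
    (hV : Vtv G p q a b) (hh : ∀ i, PowerSeries.coeff i h ≠ 0 → q < i * p) :
    Pur (shv' h G) a b ↔ Pur G a b := by
  have h1 := (shv_wt hp hh (G := G) (c := a * p + b * q)
    fun e i j hij => (hV.2 e i j hij).1).2
  constructor
  · intro h2 e he
    rw [← h1 e a b rfl]
    exact h2 e he
  · intro h2 e he
    rw [h1 e a b rfl]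
    exact h2 e he

/-- the children of an edge -/
theorem kid_hyps [CharZero k] {F : Fin (r + 1) → MvPolynomial (Fin 2) k} {P : Fin 2 → k}
    {G : Fin (r + 1) → PS k} {N ν a b p q E r' s : ℕ} (hC : Chv F P N ν G) (hν : 0 < ν)
    (hN : 1 ≤ N + a ∨ 1 ≤ b) (hK : ν = 1 ∨ ν * b ≤ 2 * (N + a)) (hE : Edv G a b p q E)
    (hrs : p * s = q * r' + 1) {μ : k} (hμ : μ ∈ rtv (edv G a b p q E))
    (hOk : Okr (tot F) (-((ν * p + q : ℕ) : ℤ), (N + a) * p + b * q)) :
    1 ≤ N * p + (a * p + b * q) + 0 ∧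
    (ν * p + q = 1 ∨ (ν * p + q) * mlt (edv G a b p q E) μ ≤
      2 * (N * p + (a * p + b * q) + 0)) ∧
    Vtv (chv N p q (a * p + b * q) r' s μ G) 1 0 0 (mlt (edv G a b p q E) μ) ∧
    Chv F P (N * p + (a * p + b * q)) (ν * p + q) (chv N p q (a * p + b * q) r' s μ G) ∧
    Okr (tot F) (-(((ν * p + q) * 1 + 0 : ℕ) : ℤ),
      (N * p + (a * p + b * q) + 0) * 1 + mlt (edv G a b p q E) μ * 0) := by
  have hp := hE.p0
  have hq := hE.q0
  have e1 : N * p + (a * p + b * q) = (N + a) * p + b * q := by ring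
  refine ⟨?_, ?_, vtv_chv hE hrs hμ N, hC.chv hν hp hq hrs (hE.rtv_ne hμ) hE.wt, ?_⟩
  · rw [e1]
    rcases hN with h1 | h1
    · have : 0 < (N + a) * p := Nat.mul_pos h1 hp
      omega
    · have : 0 < b * q := Nat.mul_pos h1 hq
      omega
  · right
    rw [e1]
    have h1 := hE.mlt_le μ
    set e := mlt (edv G a b p q E) μ
    have h2 : q * e ≤ b * q := by
      have : q * e ≤ q * (p * e) := Nat.mul_le_mul_left _ (Nat.le_mul_of_pos_left _ hp)
      have h3 : q * (p * e) ≤ q * b := Nat.mul_le_mul_left _ h1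
      rw [mul_comm b q]
      omega
    have h4 : (N + a) ≤ (N + a) * p := Nat.le_mul_of_pos_right _ hp
    have h6 : b ≤ b * q := Nat.le_mul_of_pos_right _ hq
    have h8 : (ν * p + q) * e = ν * (p * e) + q * e := by ring
    rw [h8]
    rcases hK with h7 | h7
    · rw [h7, one_mul]
      omega
    · have h9 : ν * (p * e) ≤ ν * b := Nat.mul_le_mul_left _ h1
      omega
  · have e4 : (ν * p + q) * 1 + 0 = ν * p + q := by ring
    have e5 : (N * p + (a * p + b * q) + 0) * 1 + mlt (edv G a b p q E) μ * 0 =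
        (N + a) * p + b * q := by ring
    rw [e4, e5]
    exact hOk

theorem bev_rat {F : Fin (r + 1) → MvPolynomial (Fin 2) k} {P : Fin 2 → k}
    (hT : SR k (tot F) 1) :
    ∀ (b N ν p q a : ℕ) (G : Fin (r + 1) → PS k), 0 < p → 0 < ν →
    1 ≤ N + a → (ν = 1 ∨ ν * b ≤ 2 * (N + a)) → Vtv G p q a b → Chv F P N ν G →
    Okr (tot F) (-((ν * p + q : ℕ) : ℤ), (N + a) * p + b * q) →
    Rto (tot F) (fun d (t : Test k) => bev N ν G p q a b d t) := by
  have := charZero k
  intro b
  induction b using Nat.strong_induction_on with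
  | _ b ih =>
  intro N ν p q a G hp hν hN hK hV hC hOk
  rcases Nat.eq_zero_or_pos b with hb0 | hb
  · subst hb0
    exact Rto.zero fun d t _ => bev_zero hp hV t
  by_cases hpure : b = 1 ∧ Pur G a 1
  · obtain ⟨rfl, hP⟩ := hpure
    exact Rto.zero fun d t _ => bev_one hp hV hP t
  obtain ⟨h, hh, hgood⟩ := exists_gdv hp hb hV
  have hh0 : PowerSeries.constantCoeff h = 0 := by
    by_contra h0
    have := hh 0 (by rwa [PowerSeries.coeff_zero_eq_constantCoeff_apply])
    omega
  have hsh := fun d (t : Test k) => bev_shv hp hh N ν G a b d t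
  have hpure' : b = 1 → ¬ Pur (shv' h G) a 1 := by
    intro h1 h2
    subst h1
    exact hpure ⟨rfl, (pur_shv hp hV hh).1 h2⟩
  set G' := shv' h G with hG'
  have hV' : Vtv G' p q a b := hV.shv hp hh
  have hC' : Chv F P N ν G' := hC.shv hh0
  rcases hgood with hD | ⟨p', q', E, hE, hκ, hbad⟩
  · -- no next edge
    refine (Rto.of_two (cdv_rat (G := G') (ν := ν) (q := q) hp hb hN) hOk
      (ok_comp hT hC' hb hV'.1 hD)).congr fun d t _ => ?_
    rw [← hsh, bev_div hp hb hV' hD]
  · -- next edge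
    have hp' := hE.p0
    have hq' := hE.q0
    have hE0 := hE.e0
    have heb := hE.eb
    obtain ⟨r', s, hrs⟩ := exists_rs hE.cop hp' hq'
    have hNv' : 0 < (N + a) * p' + b * q' := by
      have : 0 < (N + a) * p' := Nat.mul_pos hN hp'
      omega
    -- the divisor of the edge
    have hOk' : Okr (tot F) (-((ν * p' + q' : ℕ) : ℤ), (N + a) * p' + b * q') := by
      refine ok_edge hT hC' hν hE hbad (fun h1 => ⟨hpure' h1, ?_⟩) ?_
      · subst h1
        rcases hK with h7 | h7 <;> omega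
      have h1 : (0 : ℚ) < ((N + a) * p' + b * q' : ℕ) := by exact_mod_cast hNv'
      have h2 : (0 : ℚ) < q' := by exact_mod_cast hq'
      have h3 : ν * b < (N + a) + ((N + a) * p' + b * q') := by
        have h4 : (N + a) ≤ (N + a) * p' := Nat.le_mul_of_pos_right _ hp'
        have h5 : 1 ≤ b * q' := Nat.mul_pos hb hq'
        have h6 : b ≤ b * q' := Nat.le_mul_of_pos_right _ hq'
        rcases hK with h7 | h7
        · rw [h7]
          omega
        · omega
      have h4 : ((ν : ℚ)) * b < (N + a : ℕ) + ((N + a) * p' + b * q' : ℕ) := by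
        exact_mod_cast h3
      rw [div_lt_one h2, sub_lt_iff_lt_add, div_mul_eq_mul_div, ← sub_lt_iff_lt_add',
        lt_div_iff₀ h1]
      push_cast at h4 ⊢
      nlinarith [mul_lt_mul_of_pos_right h4 h2]
    -- the children
    have hkid : Rto (tot F) (fun d (t : Test k) => ∑ μ ∈ rtv (edv G' a b p' q' E),
        bev (N * p' + (a * p' + b * q')) (ν * p' + q')
          (chv N p' q' (a * p' + b * q') r' s μ G') 1 0 0
          (mlt (edv G' a b p' q' E) μ) d t) := by
      refine Rto.sum _ fun μ hμ => ?_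
      obtain ⟨k1, k2, k3, k4, k5⟩ := kid_hyps hC' hν (Or.inl hN) hK hE hrs hμ hOk'
      exact ih _ (hE.mlt_lt hbad μ) _ _ 1 0 0 _ Nat.one_pos (by omega) k1 (by
        rcases k2 with k2 | k2
        · exact Or.inl k2
        · exact Or.inr k2) k3 k4 k5
    -- beyond the next edge
    have hlow : b - p' * E < b := by
      have : 0 < p' * E := Nat.mul_pos hp' hE0
      omega
    have e3 : (N + (a + q' * E)) * p' + (b - p' * E) * q' = (N + a) * p' + b * q' := by
      obtain ⟨c, hc⟩ : ∃ c, b = p' * E + c := ⟨b - p' * E, by omega⟩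
      have : b - p' * E = c := by omega
      rw [this, hc]
      ring
    have hbeyond := ih _ hlow N ν p' q' (a + q' * E) G' hp' hν (by omega) (by
        rcases hK with h1 | h1
        · exact Or.inl h1
        · right
          have h2 : ν * (b - p' * E) ≤ ν * b := Nat.mul_le_mul_left _ (by omega)
          omega) hE.vtv hC' (by rw [e3]; exact hOk')
    refine (((Rto.of_two (cnv_rat (G := G') (ν := ν) (E := E) hp hp' hb hκ hN) hOk hOk').add
      hkid).add hbeyond).congr fun d t _ => ?_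
    rw [← hsh, bev_edge hp hV' hE hκ hN hrs]

end BEV

end Pool.Agent.H75.Mono
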