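import Pool.Agent.H75.Idl.I0

/-! # LIY, module LCV: cancellation of the pole of the first blow-up -/

set_option autoImplicit false

namespace Pool.Agent.H75.Mono

open MvPolynomial Pool.Agent.H39.MonoR

section LCV

variable {k : Type} [Field k] [Algebra k ℂ] {r : ℕ} {n : ℕ} {G : Fin (r + 1) → PS k}

private theorem lcv1_C0 : mo k {z : ℂ | z ≠ 0} = ↑(Lu k) - 1 := by
  have h0 : ICons k {z : ℂ | z = 0} := ICons.eq PFun.id' PFun.zero
  have h := mo_split (k := k) (ICons.univ (E := ℂ)) (p := fun z : ℂ => z = 0) h0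
  have e1 : {x : ℂ | x ∈ (Set.univ : Set ℂ) ∧ x = 0} = {z : ℂ | z = 0} := by ext x; simp
  have e2 : {x : ℂ | x ∈ (Set.univ : Set ℂ) ∧ ¬ x = 0} = {z : ℂ | z ≠ 0} := by ext x; simp
  have e3 : mo k {z : ℂ | z = 0} = 1 := by
    rw [← mo_univ_unit (k := k)]
    refine mo_bij h0 ICons.univ (f := fun _ => ()) PMap.toUnit ⟨fun _ _ => trivial, ?_, ?_⟩
    · intro x hx y hy _
      rw [Set.mem_ofPred_eq] at hx hy
      rw [hx, hy]
    · intro _ _
      exact ⟨0, rfl, rfl⟩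
  rw [e1, e2, e3, mo_univ_C] at h
  rw [h]
  ring

private theorem lcv1_x0 : mo k {x : Fin 2 → ℂ | x 0 ≠ 0} = (↑(Lu k) - 1) * ↑(Lu k) := by
  have hA : ICons k {x : Fin 2 → ℂ | x 0 ≠ 0} := ICons.ne (PFun.apply 0) PFun.zero
  have hC : ICons k {z : ℂ | z ≠ 0} := ICons.ne PFun.id' PFun.zero
  rw [← lcv1_C0 (k := k), ← mo_univ_C (k := k), ← mo_prod hC ICons.univ]
  refine mo_bij hA (ICons.prod hC ICons.univ) (f := fun x => (x 0, x 1))
    (PMap.prodMk (PMap.of_pFun (PFun.apply 0)) (PMap.of_pFun (PFun.apply 1))) ⟨?_, ?_, ?_⟩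
  · intro x hx
    exact ⟨hx, trivial⟩
  · intro x _ y _ h
    have h1 := (Prod.mk.inj h).1
    have h2 := (Prod.mk.inj h).2
    funext i
    fin_cases i
    · exact h1
    · exact h2
  · rintro ⟨z, w⟩ ⟨hz, -⟩
    refine ⟨![z, w], ?_, ?_⟩
    · simpa using hz
    · simp

private theorem lcv1_zero (t : Test k) : ICons k {w : t.E | w ∈ t.W ∧ t.c w = 0} :=
  ICons.and t.cW (ICons.eq t.pf PFun.zero)

/-- both sets are `(L - 1) [W]` -/
private theorem lcv1_mon {v : ℂ} (hv0 : v ≠ 0) (hvk : ∃ v' : k, algebraMap k ℂ v' = v) {b : ℕ}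
    (hb : 0 < b) (t : Test k) :
    mo k {x : (Fin 2 → ℂ) × t.E | x.2 ∈ t.W ∧ x.1 0 ≠ 0 ∧ v * (x.1 0 * x.1 1 ^ b) = t.c x.2} =
    mo k {x : (Fin 2 → ℂ) × t.E | x.2 ∈ t.W ∧ x.1 0 ≠ 0 ∧ v * (x.1 0 * x.1 1 ^ b) = 0} := by
  obtain ⟨v', rfl⟩ := hvk
  have f0 : PFun k (fun x : (Fin 2 → ℂ) × t.E => x.1 0) := (PFun.apply 0).comp PMap.fst
  have f1 : PFun k (fun x : (Fin 2 → ℂ) × t.E => x.1 1) := (PFun.apply 1).comp PMap.fst
  have fc : PFun k (fun x : (Fin 2 → ℂ) × t.E => t.c x.2) := t.pf.comp PMap.snd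
  have fm : PFun k (fun x : (Fin 2 → ℂ) × t.E => algebraMap k ℂ v' * (x.1 0 * x.1 1 ^ b)) :=
    (PFun.const v').mul (f0.mul (f1.pow b))
  have hC : ICons k {z : ℂ | z ≠ 0} := ICons.ne PFun.id' PFun.zero
  have hA : ICons k {x : (Fin 2 → ℂ) × t.E | x.2 ∈ t.W ∧ x.1 0 ≠ 0 ∧
      algebraMap k ℂ v' * (x.1 0 * x.1 1 ^ b) = t.c x.2} :=
    ICons.and (t.cW.mem PMap.snd) (ICons.and (ICons.ne f0 PFun.zero) (ICons.eq fm fc))
  have hB : ICons k {x : (Fin 2 → ℂ) × t.E | x.2 ∈ t.W ∧ x.1 0 ≠ 0 ∧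
      algebraMap k ℂ v' * (x.1 0 * x.1 1 ^ b) = 0} :=
    ICons.and (t.cW.mem PMap.snd) (ICons.and (ICons.ne f0 PFun.zero) (ICons.eq fm PFun.zero))
  have hcz : ICons k {x : (Fin 2 → ℂ) × t.E | t.c x.2 = 0} := ICons.eq fc PFun.zero
  have hW0 := lcv1_zero t
  have hW1 : ICons k {w : t.E | w ∈ t.W ∧ t.c w ≠ 0} :=
    ICons.and t.cW (ICons.ne t.pf PFun.zero)
  -- the second set
  have sB : mo k {x : (Fin 2 → ℂ) × t.E | x.2 ∈ t.W ∧ x.1 0 ≠ 0 ∧
      algebraMap k ℂ v' * (x.1 0 * x.1 1 ^ b) = 0} = mo k {z : ℂ | z ≠ 0} * mo k t.W := by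
    rw [← mo_prod hC t.cW]
    refine mo_bij hB (ICons.prod hC t.cW) (f := fun x => (x.1 0, x.2))
      (PMap.prodMk (PMap.of_pFun f0) PMap.snd) ⟨?_, ?_, ?_⟩
    · rintro x ⟨h1, h2, -⟩
      exact ⟨h2, h1⟩
    · rintro x ⟨-, hx0, hx⟩ y ⟨-, hy0, hy⟩ h
      have h1 := (Prod.mk.inj h).1
      have h2 := (Prod.mk.inj h).2
      have hx1 : x.1 1 = 0 := by
        rcases mul_eq_zero.1 hx with h | h
        · exact absurd h hv0
        · rcases mul_eq_zero.1 h with h | h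
          · exact absurd h hx0
          · exact pow_eq_zero_iff (by omega) |>.1 h
      have hy1 : y.1 1 = 0 := by
        rcases mul_eq_zero.1 hy with h | h
        · exact absurd h hv0
        · rcases mul_eq_zero.1 h with h | h
          · exact absurd h hy0
          · exact pow_eq_zero_iff (by omega) |>.1 h
      refine Prod.ext ?_ h2
      funext i
      fin_cases i
      · exact h1
      · show x.1 1 = y.1 1
        rw [hx1, hy1]
    · rintro ⟨z, w⟩ ⟨hz, hw⟩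
      refine ⟨(![z, 0], w), ⟨hw, ?_, ?_⟩, ?_⟩
      · simpa using hz
      · simp [hb.ne']
      · simp
  -- the first set
  rw [mo_split hA hcz, sB]
  have s1 : mo k {x : (Fin 2 → ℂ) × t.E | x ∈ {x : (Fin 2 → ℂ) × t.E | x.2 ∈ t.W ∧ x.1 0 ≠ 0 ∧
      algebraMap k ℂ v' * (x.1 0 * x.1 1 ^ b) = t.c x.2} ∧ t.c x.2 = 0} =
      mo k {z : ℂ | z ≠ 0} * mo k {w : t.E | w ∈ t.W ∧ t.c w = 0} := by
    rw [← mo_prod hC hW0]
    refine mo_bij (ICons.and hA hcz) (ICons.prod hC hW0) (f := fun x => (x.1 0, x.2))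
      (PMap.prodMk (PMap.of_pFun f0) PMap.snd) ⟨?_, ?_, ?_⟩
    · rintro x ⟨⟨h1, h2, -⟩, h3⟩
      exact ⟨h2, h1, h3⟩
    · rintro x ⟨⟨-, hx0, hx⟩, hx'⟩ y ⟨⟨-, hy0, hy⟩, hy'⟩ h
      have h1 := (Prod.mk.inj h).1
      have h2 := (Prod.mk.inj h).2
      rw [hx'] at hx
      rw [hy'] at hy
      have hx1 : x.1 1 = 0 := by
        rcases mul_eq_zero.1 hx with h | h
        · exact absurd h hv0
        · rcases mul_eq_zero.1 h with h | h
          · exact absurd h hx0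
          · exact pow_eq_zero_iff (by omega) |>.1 h
      have hy1 : y.1 1 = 0 := by
        rcases mul_eq_zero.1 hy with h | h
        · exact absurd h hv0
        · rcases mul_eq_zero.1 h with h | h
          · exact absurd h hy0
          · exact pow_eq_zero_iff (by omega) |>.1 h
      refine Prod.ext ?_ h2
      funext i
      fin_cases i
      · exact h1
      · show x.1 1 = y.1 1
        rw [hx1, hy1]
    · rintro ⟨z, w⟩ ⟨hz, hw, hw'⟩
      refine ⟨(![z, 0], w), ⟨⟨hw, ?_, ?_⟩, hw'⟩, ?_⟩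
      · simpa using hz
      · simp [hb.ne', hw']
      · simp
  have s2 : mo k {x : (Fin 2 → ℂ) × t.E | x ∈ {x : (Fin 2 → ℂ) × t.E | x.2 ∈ t.W ∧ x.1 0 ≠ 0 ∧
      algebraMap k ℂ v' * (x.1 0 * x.1 1 ^ b) = t.c x.2} ∧ ¬ t.c x.2 = 0} =
      mo k {z : ℂ | z ≠ 0} * mo k {w : t.E | w ∈ t.W ∧ t.c w ≠ 0} := by
    rw [← mo_prod hC hW1]
    refine mo_bij (ICons.and hA hcz.not) (ICons.prod hC hW1) (f := fun x => (x.1 1, x.2))
      (PMap.prodMk (PMap.of_pFun f1) PMap.snd) ⟨?_, ?_, ?_⟩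
    · rintro x ⟨⟨h1, h2, h3⟩, h4⟩
      refine ⟨?_, h1, h4⟩
      intro h5
      rw [show x.1 1 = 0 from h5, zero_pow hb.ne', mul_zero, mul_zero] at h3
      exact h4 h3.symm
    · rintro x ⟨⟨-, hx0, hx⟩, hx'⟩ y ⟨⟨-, hy0, hy⟩, hy'⟩ h
      have h1 := (Prod.mk.inj h).1
      have h2 := (Prod.mk.inj h).2
      refine Prod.ext ?_ h2
      have hx1 : x.1 1 ^ b ≠ 0 := by
        intro h5
        rw [h5, mul_zero, mul_zero] at hx
        exact hx' hx.symm
      funext i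
      fin_cases i
      · show x.1 0 = y.1 0
        rw [← h2, ← h1, ← hx] at hy
        have h3 := mul_left_cancel₀ hv0 hy
        exact (mul_right_cancel₀ hx1 h3).symm
      · exact h1
    · rintro ⟨z, w⟩ ⟨hz, hw, hw'⟩
      have hz' : z ^ b ≠ 0 := pow_ne_zero _ hz
      have hw2 : t.c w ≠ 0 := hw'
      refine ⟨(![t.c w / (algebraMap k ℂ v' * z ^ b), z], w), ⟨⟨hw, ?_, ?_⟩, hw'⟩, ?_⟩
      · simp only [Matrix.cons_val_zero]
        exact div_ne_zero hw2 (mul_ne_zero hv0 hz')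
      · simp only [Matrix.cons_val_zero, Matrix.cons_val_one]
        field_simp
      · simp
  rw [s1, s2, ← mul_add]
  congr 1
  have h := mo_split (k := k) t.cW (p := fun w => t.c w = 0) (ICons.eq t.pf PFun.zero)
  exact h.symm

omit [Algebra k ℂ] in
private theorem lcv1_v (hE : Edv G 0 n 1 1 1) (hv : Pur G 1 (n - 1)) : cf (G 0) 1 (n - 1) ≠ 0 := by
  obtain ⟨e, he⟩ := hE.bot
  simp only [mul_one, zero_add] at he
  by_cases h : e = 0
  · rwa [h] at he
  · exact absurd (hv e h) he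

private theorem lcv1_aeval (x : Fin 2 → ℂ) (i j : ℕ) (c : k) :
    aeval x (monomial (ix i j) c) = algebraMap k ℂ c * (x 0 ^ i * x 1 ^ j) := by
  rw [aeval_monomial, Finsupp.prod_fintype _ _ (fun _ => pow_zero _), Fin.prod_univ_two]
  congr 1
  unfold ix
  simp

/-- the value of `Dev` for the monomial part -/
private theorem lcv1_dev (hE : Edv G 0 n 1 1 1) (hv : Pur G 1 (n - 1)) (hb : 0 < n - 1) (x : ℕ)
    (t : Test k) : Dev (mnv 0 G 1 (n - 1) x) t =
      if n - 1 ∣ x then 0 else (↑(Lu k) - 1) * ↑(Lu k) * mzr t := by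
  have hv0 := lcv1_v hE hv
  by_cases hx : n - 1 ∣ x
  · rw [if_pos hx]
    have hV : ∀ (y : Fin 2 → ℂ) (c : ℂ), Vlv (mnv 0 G 1 (n - 1) x) y c ↔
        algebraMap k ℂ (cf (G 0) 1 (n - 1)) * (y 0 * y 1 ^ (n - 1)) = c := by
      intro y c
      unfold Vlv mnv
      simp only [if_pos hx, lcv1_aeval, zero_add, pow_one]
      constructor
      · intro h
        have h0 := h 0
        rwa [if_pos rfl] at h0
      · intro h e
        by_cases he : e = 0
        · rw [if_pos he, he]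
          exact h
        · rw [if_neg he, hv e he, map_zero, zero_mul]
    unfold Dev
    simp only [hV]
    rw [lcv1_mon (by simpa using hv0) ⟨_, rfl⟩ hb t, sub_self]
  · rw [if_neg hx]
    have hV : ∀ (y : Fin 2 → ℂ) (c : ℂ), Vlv (mnv 0 G 1 (n - 1) x) y c ↔ c = 0 := by
      intro y c
      unfold Vlv mnv
      simp only [if_neg hx, map_zero]
      constructor
      · intro h
        have h0 := h 0
        rw [if_pos rfl] at h0
        exact h0.symm
      · intro h e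
        rw [h]
        simp
    unfold Dev mzr mass
    simp only [hV]
    have hA : ICons k {x : Fin 2 → ℂ | x 0 ≠ 0} := ICons.ne (PFun.apply 0) PFun.zero
    have e1 : {x : (Fin 2 → ℂ) × t.E | x.2 ∈ t.W ∧ x.1 0 ≠ 0 ∧ t.c x.2 = 0} =
        {x : (Fin 2 → ℂ) × t.E | x.1 ∈ {x : Fin 2 → ℂ | x 0 ≠ 0} ∧
          x.2 ∈ {w : t.E | w ∈ t.W ∧ t.c w = 0}} := by
      ext y
      simp only [Set.mem_ofPred_eq]
      tauto
    have e2 : {x : (Fin 2 → ℂ) × t.E | x.2 ∈ t.W ∧ x.1 0 ≠ 0 ∧ True} =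
        {x : (Fin 2 → ℂ) × t.E | x.1 ∈ {x : Fin 2 → ℂ | x 0 ≠ 0} ∧ x.2 ∈ t.W} := by
      ext y
      simp only [Set.mem_ofPred_eq]
      tauto
    rw [e1, e2, mo_prod hA (lcv1_zero t), mo_prod hA t.cW, lcv1_x0]
    ring

/-- the top level -/
private theorem lcv1_top (hn : 3 ≤ n) (hu : ¬ Pur G 0 n) (hv : Pur G 1 (n - 1)) (d : ℕ)
    (t : Test k) : Dlv (lfv G 0 n 1 1 1 d) t =
      if n ∣ d then ↑(Lu k) * mzr t else ↑(Lu k) * ↑(Lu k) * mzr t := by
  have hcond : ∀ e, lfv G 0 n 1 1 1 d e = if n ∣ d then monomial (ix 0 n) (cf (G e) 0 n) +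
      monomial (ix 1 (n - 1)) (cf (G e) 1 (n - 1)) else 0 := by
    intro e
    unfold lfv ltf
    rw [Finset.sum_range_succ, Finset.sum_range_one]
    by_cases hd : n ∣ d
    · simp [hd]
    · have h3 : ¬ n = 0 := by omega
      have h4 : ¬ n = 1 := by omega
      simp [hd, h3, h4]
  by_cases hd : n ∣ d
  · rw [if_pos hd]
    simp only [if_pos hd] at hcond
    have hV : ∀ (y : Fin 2 → ℂ) (c : ℂ), Vlv (lfv G 0 n 1 1 1 d) y c ↔ y 1 = 0 ∧ c = 0 := by
      intro y c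
      unfold Vlv
      simp only [hcond, map_add, lcv1_aeval, pow_zero, pow_one, one_mul]
      constructor
      · intro h
        have hu' : ∃ e, e ≠ 0 ∧ cf (G e) 0 n ≠ 0 := by
          by_contra hcon
          push Not at hcon
          exact hu hcon
        obtain ⟨e, he, hue⟩ := hu'
        have h1 := h e
        rw [if_neg he, hv e he, map_zero, zero_mul, add_zero] at h1
        have h2 : y 1 = 0 := by
          rcases mul_eq_zero.1 h1 with h | h
          · exact absurd ((map_eq_zero _).1 h) hue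
          · exact pow_eq_zero_iff (by omega) |>.1 h
        have h0 := h 0
        rw [if_pos rfl, h2, zero_pow (by omega), zero_pow (by omega)] at h0
        simp only [mul_zero, add_zero] at h0
        exact ⟨h2, h0.symm⟩
      · rintro ⟨h1, h2⟩ e
        rw [h1, h2, zero_pow (by omega), zero_pow (by omega)]
        simp
    unfold Dlv mzr mass
    simp only [hV]
    have hU : ICons k (Set.univ : Set ℂ) := ICons.univ
    have f0 : PFun k (fun x : (Fin 2 → ℂ) × t.E => x.1 0) := (PFun.apply 0).comp PMap.fst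
    have f1 : PFun k (fun x : (Fin 2 → ℂ) × t.E => x.1 1) := (PFun.apply 1).comp PMap.fst
    have key : ∀ (A : Set t.E), ICons k A →
        mo k {x : (Fin 2 → ℂ) × t.E | x.2 ∈ A ∧ x.1 1 = 0} = ↑(Lu k) * mo k A := by
      intro A hA
      rw [← mo_univ_C (k := k), ← mo_prod hU hA]
      refine mo_bij (ICons.and (hA.mem PMap.snd) (ICons.eq f1 PFun.zero)) (ICons.prod hU hA)
        (f := fun x => (x.1 0, x.2)) (PMap.prodMk (PMap.of_pFun f0) PMap.snd) ⟨?_, ?_, ?_⟩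
      · rintro x ⟨h1, h2⟩
        exact ⟨trivial, h1⟩
      · rintro x ⟨-, hx⟩ y ⟨-, hy⟩ h
        have h1 := (Prod.mk.inj h).1
        have h2 := (Prod.mk.inj h).2
        refine Prod.ext ?_ h2
        funext i
        fin_cases i
        · exact h1
        · show x.1 1 = y.1 1
          rw [hx, hy]
      · rintro ⟨z, w⟩ ⟨-, hw⟩
        refine ⟨(![z, 0], w), ⟨hw, ?_⟩, ?_⟩
        · simp
        · simp
    have e1 : {x : (Fin 2 → ℂ) × t.E | x.2 ∈ t.W ∧ x.1 1 = 0 ∧ t.c x.2 = 0} =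
        {x : (Fin 2 → ℂ) × t.E | x.2 ∈ {w : t.E | w ∈ t.W ∧ t.c w = 0} ∧ x.1 1 = 0} := by
      ext y
      simp only [Set.mem_ofPred_eq]
      tauto
    have e2 : {x : (Fin 2 → ℂ) × t.E | x.2 ∈ t.W ∧ x.1 1 = 0 ∧ True} =
        {x : (Fin 2 → ℂ) × t.E | x.2 ∈ t.W ∧ x.1 1 = 0} := by
      ext y
      simp only [Set.mem_ofPred_eq]
      tauto
    rw [e1, e2, key _ (lcv1_zero t), key _ t.cW]
    ring
  · rw [if_neg hd]
    simp only [if_neg hd] at hcond
    have hV : ∀ (y : Fin 2 → ℂ) (c : ℂ), Vlv (lfv G 0 n 1 1 1 d) y c ↔ c = 0 := by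
      intro y c
      unfold Vlv
      simp only [hcond, map_zero]
      constructor
      · intro h
        have h0 := h 0
        rw [if_pos rfl] at h0
        exact h0.symm
      · intro h e
        rw [h]
        simp
    unfold Dlv mzr mass
    simp only [hV]
    have hU : ICons k (Set.univ : Set (Fin 2 → ℂ)) := ICons.univ
    have e1 : {x : (Fin 2 → ℂ) × t.E | x.2 ∈ t.W ∧ t.c x.2 = 0} =
        {x : (Fin 2 → ℂ) × t.E | x.1 ∈ (Set.univ : Set (Fin 2 → ℂ)) ∧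
          x.2 ∈ {w : t.E | w ∈ t.W ∧ t.c w = 0}} := by
      ext y
      simp
    have e2 : {x : (Fin 2 → ℂ) × t.E | x.2 ∈ t.W ∧ True} =
        {x : (Fin 2 → ℂ) × t.E | x.1 ∈ (Set.univ : Set (Fin 2 → ℂ)) ∧ x.2 ∈ t.W} := by
      ext y
      simp
    rw [e1, e2, mo_prod hU (lcv1_zero t), mo_prod hU t.cW, mo_univ_pi]
    have h2 : Nat.card (Fin 2) = 2 := by simp
    rw [h2]
    have h3 : ((Lu k ^ ((2 : ℕ) : ℤ) : (M k)ˣ) : M k) = ↑(Lu k) * ↑(Lu k) := by
      rw [zpow_natCast, pow_two, Units.val_mul]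
    rw [h3]
    ring

/-- the telescoping sum -/
private noncomputable def lcv1_h (k : Type) [Field k] [Algebra k ℂ] (n d m : ℕ) : M k :=
  ↑(Lu k ^ ((1 : ℤ) - m - ((d - m) / (n - 1) : ℕ)))

private theorem lcv1_tel (c : M k) (f : ℕ → M k) {m0 d : ℕ} (h : m0 ≤ d) :
    ∑ m ∈ Finset.Ico m0 d, c * (f m - f (m + 1)) = c * (f m0 - f d) := by
  induction d, h using Nat.le_induction with
  | base => simp
  | succ d hd ih =>
    rw [Finset.sum_Ico_succ_top hd, ih]
    ring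

private theorem lcv1_term (hE : Edv G 0 n 1 1 1) (hv : Pur G 1 (n - 1)) (hn : 3 ≤ n) {m d : ℕ}
    (hm : m < d) (t : Test k) :
    ↑(Lu k ^ (-((1 : ℤ) * m + ((d - m + (n - 1) - 1) / (n - 1) : ℕ)))) *
      Dev (mnv 0 G 1 (n - 1) (d - m)) t =
    mzr t * (lcv1_h k n d m - lcv1_h k n d (m + 1)) := by
  rw [lcv1_dev hE hv (by omega)]
  unfold lcv1_h
  obtain ⟨b, hb⟩ : ∃ b, n - 1 = b := ⟨_, rfl⟩
  have hb2 : 2 ≤ b := by omega
  rw [hb]
  obtain ⟨x, hx⟩ : ∃ x, d - m = x := ⟨_, rfl⟩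
  have hx1 : 1 ≤ x := by omega
  have hx2 : d - (m + 1) = x - 1 := by omega
  rw [hx2, hx]
  by_cases hdv : b ∣ x
  · rw [if_pos hdv, mul_zero]
    obtain ⟨y, rfl⟩ := hdv
    have hy : 1 ≤ y := by
      rcases Nat.eq_zero_or_pos y with h | h
      · rw [h] at hx1
        omega
      · exact h
    have e1 : b * y / b = y := Nat.mul_div_cancel_left _ (by omega)
    have e2 : (b * y - 1) / b = y - 1 := by
      obtain ⟨z, rfl⟩ : ∃ z, y = z + 1 := ⟨y - 1, by omega⟩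
      have h1 : b * (z + 1) - 1 = (b - 1) + b * z := by
        have : b * (z + 1) = b * z + b := by ring
        omega
      rw [h1, Nat.add_mul_div_left _ _ (by omega), Nat.div_eq_of_lt (by omega)]
      omega
    rw [e1, e2]
    have e3 : (1 : ℤ) - ((m + 1 : ℕ) : ℤ) - ((y - 1 : ℕ) : ℤ) = 1 - m - y := by
      push_cast [hy]
      ring
    rw [e3, sub_self, mul_zero]
  · rw [if_neg hdv]
    have hr : 0 < x % b := Nat.pos_of_ne_zero fun h => hdv (Nat.dvd_of_mod_eq_zero h)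
    have hr2 : x % b < b := Nat.mod_lt _ (by omega)
    have hdm := Nat.div_add_mod x b
    obtain ⟨y, hy⟩ : ∃ y, x / b = y := ⟨_, rfl⟩
    rw [hy] at hdm
    have e1 : (x - 1) / b = y := by
      have h1 : x - 1 = (x % b - 1) + b * y := by omega
      rw [h1, Nat.add_mul_div_left _ _ (by omega), Nat.div_eq_of_lt (by omega)]
      omega
    have e2 : (x + b - 1) / b = y + 1 := by
      have h1 : x + b - 1 = (x % b - 1) + b * (y + 1) := by
        have : b * (y + 1) = b * y + b := by ring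
        omega
      rw [h1, Nat.add_mul_div_left _ _ (by omega), Nat.div_eq_of_lt (by omega)]
      omega
    rw [e1, e2, hy]
    have e3 : (1 : ℤ) - m - y = -((1 : ℤ) * m + ((y + 1 : ℕ) : ℤ)) + 2 := by
      push_cast
      ring
    have e4 : (1 : ℤ) - ((m + 1 : ℕ) : ℤ) - y = -((1 : ℤ) * m + ((y + 1 : ℕ) : ℤ)) + 1 := by
      push_cast
      ring
    rw [e3, e4, zpow_add, zpow_add, zpow_one, zpow_ofNat, pow_two]
    simp only [Units.val_mul]
    ring

/-- the value of the top level -/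
private theorem lcv1_twv (hn : 3 ≤ n) (hu : ¬ Pur G 0 n) (hv : Pur G 1 (n - 1)) {d : ℕ}
    (hd : 0 < d) (t : Test k) :
    twv G 0 n 1 1 1 d t = mzr t * lcv1_h k n d ((d + n - 1) / n) := by
  unfold twv
  rw [lcv1_top hn hu hv]
  simp only [mul_one, zero_add]
  unfold lcv1_h
  by_cases hdv : n ∣ d
  · rw [if_pos hdv]
    obtain ⟨m, rfl⟩ := hdv
    have e1 : (n * m + n - 1) / n = m := by
      have h1 : n * m + n - 1 = (n - 1) + n * m := by omega
      rw [h1, Nat.add_mul_div_left _ _ (by omega), Nat.div_eq_of_lt (by omega)]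
      omega
    have e2 : (n * m - m) / (n - 1) = m := by
      have h1 : n * m - m = (n - 1) * m := by
        rw [Nat.sub_mul, one_mul]
      rw [h1, Nat.mul_div_cancel_left _ (by omega)]
    rw [e1, e2]
    have e3 : (1 : ℤ) - m - m = -(((m + m : ℕ)) : ℤ) + 1 := by
      push_cast
      ring
    rw [e3, zpow_add, zpow_one, Units.val_mul]
    ring
  · rw [if_neg hdv]
    have hr : 0 < d % n := Nat.pos_of_ne_zero fun h => hdv (Nat.dvd_of_mod_eq_zero h)
    have hr2 : d % n < n := Nat.mod_lt _ (by omega)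
    have hdm := Nat.div_add_mod d n
    obtain ⟨y, hy⟩ : ∃ y, d / n = y := ⟨_, rfl⟩
    rw [hy] at hdm
    have e1 : (d + n - 1) / n = y + 1 := by
      have h1 : d + n - 1 = (d % n - 1) + n * (y + 1) := by
        have : n * (y + 1) = n * y + n := by ring
        omega
      rw [h1, Nat.add_mul_div_left _ _ (by omega), Nat.div_eq_of_lt (by omega)]
      omega
    have e2 : (d - (y + 1)) / (n - 1) = y := by
      obtain ⟨b, rfl⟩ : ∃ b, n = b + 1 := ⟨n - 1, by omega⟩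
      have h1 : d - (y + 1) = (d % (b + 1) - 1) + b * y := by
        have : (b + 1) * y = b * y + y := by ring
        omega
      have h2 : b + 1 - 1 = b := by omega
      rw [h2, h1, Nat.add_mul_div_left _ _ (by omega), Nat.div_eq_of_lt (by omega)]
      omega
    rw [e1, e2]
    have e3 : (1 : ℤ) - ((y + 1 : ℕ) : ℤ) - y = -(((y + 1 + (y + 1) : ℕ)) : ℤ) + 2 := by
      push_cast
      ring
    rw [e3, zpow_add, zpow_ofNat, pow_two]
    simp only [Units.val_mul]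
    ring

private theorem lcv1_ceil {n d m : ℕ} (hn : 3 ≤ n) (hd : 0 < d) :
    ¬ n * m < d ↔ (d + n - 1) / n ≤ m := by
  rw [Nat.div_le_iff_le_mul_add_pred (by omega)]
  omega

private theorem lcv1_h_end {n d : ℕ} : lcv1_h k n d d = ↑(Lu k ^ (1 - (d : ℤ))) := by
  unfold lcv1_h
  rw [Nat.sub_self, Nat.zero_div, Nat.cast_zero, sub_zero]

theorem twv_cnv (hn : 3 ≤ n) (hE : Edv G 0 n 1 1 1) (hu : ¬ Pur G 0 n) (hv : Pur G 1 (n - 1))
    {p' q' E' : ℕ} (hE' : Edv G 1 (n - 1) p' q' E') (hκ : p' < q') {d : ℕ} (hd : 0 < d)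
    (t : Test k) :
    twv G 0 n 1 1 1 d t + cnv 0 1 G 1 1 1 (n - 1) p' q' E' d t =
      cnv 0 1 G 1 0 1 (n - 1) p' q' E' d t + mzr t * ↑(Lu k ^ (1 - (d : ℤ))) := by
  classical
  obtain ⟨m0, hm0⟩ : ∃ m0, (d + n - 1) / n = m0 := ⟨_, rfl⟩
  have hc : ∀ m, ¬ n * m < d ↔ m0 ≤ m := fun m => by rw [← hm0]; exact lcv1_ceil hn hd
  have h1m0 : 1 ≤ m0 := by
    by_contra h
    have h0 : m0 = 0 := by omega
    have := (hc 0).2 (by omega)
    omega
  have hm0d : m0 ≤ d := (hc d).1 (by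
    have : 1 * d ≤ n * d := Nat.mul_le_mul_right _ (by omega)
    omega)
  have hset : (Finset.Icc 1 d).filter (fun m => ((0 + 1) * 1 + (n - 1) * 0) * m < 1 * d ∧
      p' * d ≤ ((0 + 1) * p' + (n - 1) * q') * m) =
      (Finset.Icc 1 d).filter (fun m => ((0 + 1) * 1 + (n - 1) * 1) * m < 1 * d ∧
      p' * d ≤ ((0 + 1) * p' + (n - 1) * q') * m) ∪ Finset.Ico m0 d := by
    ext m
    simp only [Finset.mem_union, Finset.mem_filter, Finset.mem_Icc, Finset.mem_Ico, zero_add,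
      mul_one, mul_zero, add_zero, one_mul]
    have hn1 : 1 + (n - 1) = n := by omega
    rw [hn1]
    constructor
    · rintro ⟨⟨h1, h2⟩, h3, h4⟩
      by_cases h : n * m < d
      · left
        exact ⟨⟨h1, h2⟩, h, h4⟩
      · right
        exact ⟨(hc m).1 h, h3⟩
    · rintro (⟨⟨h1, h2⟩, h3, h4⟩ | ⟨h1, h2⟩)
      · refine ⟨⟨h1, h2⟩, ?_, h4⟩
        have : 1 * m ≤ n * m := Nat.mul_le_mul_right _ (by omega)
        omega
      · refine ⟨⟨by omega, by omega⟩, h2, ?_⟩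
        have h3 := (hc m).2 h1
        have h4 : p' * d ≤ p' * (n * m) := Nat.mul_le_mul_left _ (by omega)
        have h5 : (n - 1) * p' * m ≤ (n - 1) * q' * m :=
          Nat.mul_le_mul_right _ (Nat.mul_le_mul_left _ hκ.le)
        have h6 : p' * (n * m) = (p' + (n - 1) * p') * m := by
          obtain ⟨b, rfl⟩ : ∃ b, n = b + 1 := ⟨n - 1, by omega⟩
          have : b + 1 - 1 = b := by omega
          rw [this]
          ring
        calc p' * d ≤ (p' + (n - 1) * p') * m := h6 ▸ h4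
          _ = p' * m + (n - 1) * p' * m := by ring
          _ ≤ p' * m + (n - 1) * q' * m := by omega
          _ = (p' + (n - 1) * q') * m := by ring
  have hdis : Disjoint ((Finset.Icc 1 d).filter (fun m => ((0 + 1) * 1 + (n - 1) * 1) * m < 1 * d ∧
      p' * d ≤ ((0 + 1) * p' + (n - 1) * q') * m)) (Finset.Ico m0 d) := by
    rw [Finset.disjoint_left]
    intro m hm hm'
    simp only [Finset.mem_filter, Finset.mem_Ico, zero_add, mul_one, one_mul] at hm hm'
    have hn1 : 1 + (n - 1) = n := by omega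
    rw [hn1] at hm
    exact (hc m).2 hm'.1 hm.2.1
  have hsum : ∑ m ∈ Finset.Ico m0 d, ↑(Lu k ^ (-(((1 : ℕ) : ℤ) * m +
      ((d - (0 + 1) * m + (n - 1) - 1) / (n - 1) : ℕ)))) *
      Dev (ldv 0 G 1 (n - 1) p' q' E' m (d - (0 + 1) * m)) t =
      mzr t * (lcv1_h k n d m0 - lcv1_h k n d d) := by
    rw [← lcv1_tel (mzr t) (lcv1_h k n d) hm0d]
    refine Finset.sum_congr rfl fun m hm => ?_
    rw [Finset.mem_Ico] at hm
    rw [← lcv1_term hE hv hn hm.2]
    have e1 : (0 + 1) * m = m := by ring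
    rw [e1, Nat.cast_one]
    congr 2
    unfold ldv mnv
    funext e
    unfold ldf
    rw [if_neg]
    intro h
    have h1 := (hc m).2 hm.1
    have h2 : d - m ≤ (n - 1) * m := by
      have : (n - 1) * m = n * m - m := by rw [Nat.sub_mul, one_mul]
      omega
    have h3 : p' * (d - m) ≤ p' * ((n - 1) * m) := Nat.mul_le_mul_left _ h2
    have h4 : p' * ((n - 1) * m) < q' * ((n - 1) * m) :=
      Nat.mul_lt_mul_of_pos_right hκ (Nat.mul_pos (by omega) (by omega))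
    have h5 : (n - 1) * q' * m = q' * ((n - 1) * m) := by ring
    omega
  have hsplit : cnv 0 1 G 1 0 1 (n - 1) p' q' E' d t = cnv 0 1 G 1 1 1 (n - 1) p' q' E' d t +
      mzr t * (lcv1_h k n d m0 - lcv1_h k n d d) := by
    unfold cnv
    rw [hset, Finset.sum_union hdis, hsum]
  rw [hsplit, lcv1_twv hn hu hv hd, hm0, ← lcv1_h_end (k := k) (n := n)]
  ring

theorem twv_cdv (hn : 3 ≤ n) (hE : Edv G 0 n 1 1 1) (hu : ¬ Pur G 0 n) (hv : Pur G 1 (n - 1))
    {d : ℕ} (hd : 0 < d) (t : Test k) :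
    twv G 0 n 1 1 1 d t + cdv 0 1 G 1 1 1 (n - 1) d t =
      cdv 0 1 G 1 0 1 (n - 1) d t + mzr t * ↑(Lu k ^ (1 - (d : ℤ))) := by
  classical
  obtain ⟨m0, hm0⟩ : ∃ m0, (d + n - 1) / n = m0 := ⟨_, rfl⟩
  have hc : ∀ m, ¬ n * m < d ↔ m0 ≤ m := fun m => by rw [← hm0]; exact lcv1_ceil hn hd
  have h1m0 : 1 ≤ m0 := by
    by_contra h
    have h0 : m0 = 0 := by omega
    have := (hc 0).2 (by omega)
    omega
  have hm0d : m0 ≤ d := (hc d).1 (by
    have : 1 * d ≤ n * d := Nat.mul_le_mul_right _ (by omega)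
    omega)
  have hset : (Finset.Icc 1 d).filter (fun m => ((0 + 1) * 1 + (n - 1) * 0) * m < 1 * d) =
      (Finset.Icc 1 d).filter (fun m => ((0 + 1) * 1 + (n - 1) * 1) * m < 1 * d) ∪
        Finset.Ico m0 d := by
    ext m
    simp only [Finset.mem_union, Finset.mem_filter, Finset.mem_Icc, Finset.mem_Ico, zero_add,
      mul_one, mul_zero, add_zero, one_mul]
    have hn1 : 1 + (n - 1) = n := by omega
    rw [hn1]
    constructor
    · rintro ⟨⟨h1, h2⟩, h3⟩
      by_cases h : n * m < d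
      · left
        exact ⟨⟨h1, h2⟩, h⟩
      · right
        exact ⟨(hc m).1 h, h3⟩
    · rintro (⟨⟨h1, h2⟩, h3⟩ | ⟨h1, h2⟩)
      · refine ⟨⟨h1, h2⟩, ?_⟩
        have : 1 * m ≤ n * m := Nat.mul_le_mul_right _ (by omega)
        omega
      · exact ⟨⟨by omega, by omega⟩, h2⟩
  have hdis : Disjoint ((Finset.Icc 1 d).filter (fun m => ((0 + 1) * 1 + (n - 1) * 1) * m < 1 * d))
      (Finset.Ico m0 d) := by
    rw [Finset.disjoint_left]
    intro m hm hm'
    simp only [Finset.mem_filter, Finset.mem_Ico, zero_add, mul_one, one_mul] at hm hm'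
    have hn1 : 1 + (n - 1) = n := by omega
    rw [hn1] at hm
    exact (hc m).2 hm'.1 hm.2
  have hsum : ∑ m ∈ Finset.Ico m0 d, ↑(Lu k ^ (-(((1 : ℕ) : ℤ) * m +
      ((d - (0 + 1) * m + (n - 1) - 1) / (n - 1) : ℕ)))) *
      Dev (mnv 0 G 1 (n - 1) (d - (0 + 1) * m)) t =
      mzr t * (lcv1_h k n d m0 - lcv1_h k n d d) := by
    rw [← lcv1_tel (mzr t) (lcv1_h k n d) hm0d]
    refine Finset.sum_congr rfl fun m hm => ?_
    rw [Finset.mem_Ico] at hm
    rw [← lcv1_term hE hv hn hm.2]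
    have e1 : (0 + 1) * m = m := by ring
    rw [e1, Nat.cast_one]
  have hsplit : cdv 0 1 G 1 0 1 (n - 1) d t = cdv 0 1 G 1 1 1 (n - 1) d t +
      mzr t * (lcv1_h k n d m0 - lcv1_h k n d d) := by
    unfold cdv
    rw [hset, Finset.sum_union hdis, hsum]
  rw [hsplit, lcv1_twv hn hu hv hd, hm0, ← lcv1_h_end (k := k) (n := n)]
  ring

end LCV

end Pool.Agent.H75.Mono
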