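import Pool.Agent.H75.Idl.ZCV
import Pool.Agent.H75.Idl.EVT
import Pool.Agent.H75.Plc.EV2
import Pool.Agent.H75.Plc.SHC
import Pool.Agent.H75.Plc.VTX

/-! # LIY, module LEV: the first edge -/

set_option autoImplicit false
set_option linter.unusedSectionVars false

namespace Pool.Agent.H75.Mono

open MvPolynomial Pool.Agent.H39.MonoR

section LEVaux

variable {k : Type} [Field k] [Algebra k ℂ] {r : ℕ} {a b p q E r' s : ℕ}
  {G : Fin (r + 1) → PS k} {H : PS k}

omit [Algebra k ℂ] in
private theorem lev_support (h : Edv G a b p q E) (o : Fin (r + 1)) {i j : ℕ}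
    (hij : cf (G o) i j ≠ 0)
    (he : i * p + j * q = a * p + b * q) : ∃ n, n ≤ E ∧ i = a + q * n ∧ j = b - p * n := by
  obtain ⟨h1, h2⟩ := h.lin o i j hij he
  obtain ⟨d, hd⟩ := Nat.exists_eq_add_of_le h2
  have h3 : i * p = a * p + d * q := by
    rw [hd] at he
    nlinarith
  have h4 : p ∣ d * q := by
    have : p ∣ a * p + d * q := by rw [← h3]; exact Dvd.intro_left i rfl
    exact (Nat.dvd_add_right (Dvd.intro_left a rfl)).1 this
  have h5 : p ∣ d := h.cop.dvd_of_dvd_mul_right h4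
  obtain ⟨n, hn⟩ := h5
  refine ⟨n, ?_, ?_, ?_⟩
  · have h6 : p * n ≤ p * E := by
      have := h.eb
      omega
    exact Nat.le_of_mul_le_mul_left h6 h.p0
  · have h6 : i * p = (a + q * n) * p := by
      rw [h3, hn]
      ring
    exact Nat.eq_of_mul_eq_mul_right h.p0 h6
  · omega

/-! ### sums over the edge -/

open Classical in
/-- a sum over the exponents of level `c` is a sum over the edge -/
private theorem lev_sum (hE : Edv G a b p q E) (o : Fin (r + 1)) {u v c : ℕ} (hu : 0 < u) (hv : 0 < v)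
    (hc : ∀ i j, cf (G o) i j ≠ 0 → i * u + j * v = c → i * p + j * q = a * p + b * q)
    (α β : ℂ) :
    (∑ i ∈ Finset.range (c + 1), ∑ j ∈ Finset.range (c + 1),
      if i * u + j * v = c then algebraMap k ℂ (cf (G o) i j) * α ^ i * β ^ j else 0) =
    ∑ n ∈ Finset.range (E + 1), if (a + q * n) * u + (b - p * n) * v = c then
      algebraMap k ℂ (cf (G o) (a + q * n) (b - p * n)) * α ^ (a + q * n) * β ^ (b - p * n)
      else 0 := by
  rw [← Finset.sum_product', ← Finset.sum_filter, ← Finset.sum_filter]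
  have hinj : ∀ n n' : ℕ, ((a + q * n, b - p * n) : ℕ × ℕ) = (a + q * n', b - p * n') → n = n' := by
    intro n n' h
    have h1 := (Prod.mk.inj h).1
    exact Nat.eq_of_mul_eq_mul_left hE.q0 (by omega)
  have himg : ∑ n ∈ (Finset.range (E + 1)).filter
        (fun n => (a + q * n) * u + (b - p * n) * v = c),
      algebraMap k ℂ (cf (G o) (a + q * n) (b - p * n)) * α ^ (a + q * n) * β ^ (b - p * n) =
      ∑ x ∈ ((Finset.range (E + 1)).filter
        (fun n => (a + q * n) * u + (b - p * n) * v = c)).image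
          (fun n => ((a + q * n, b - p * n) : ℕ × ℕ)),
        algebraMap k ℂ (cf (G o) x.1 x.2) * α ^ x.1 * β ^ x.2 := by
    rw [Finset.sum_image]
    intro n _ n' _ h
    exact hinj n n' h
  rw [himg]
  symm
  apply Finset.sum_subset
  · intro x hx
    simp only [Finset.mem_image, Finset.mem_filter, Finset.mem_range] at hx
    obtain ⟨n, ⟨_, hn2⟩, rfl⟩ := hx
    simp only [Finset.mem_filter, Finset.mem_product, Finset.mem_range]
    refine ⟨⟨?_, ?_⟩, hn2⟩
    · have : a + q * n ≤ (a + q * n) * u := Nat.le_mul_of_pos_right _ hu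
      omega
    · have : b - p * n ≤ (b - p * n) * v := Nat.le_mul_of_pos_right _ hv
      omega
  · intro x hx hx'
    simp only [Finset.mem_filter, Finset.mem_product, Finset.mem_range] at hx
    by_cases h : cf (G o) x.1 x.2 = 0
    · rw [h, map_zero, zero_mul, zero_mul]
    · exfalso
      obtain ⟨n, hn, e1, e2⟩ := lev_support hE o h (hc x.1 x.2 h hx.2)
      apply hx'
      simp only [Finset.mem_image, Finset.mem_filter, Finset.mem_range]
      refine ⟨n, ⟨by omega, ?_⟩, Prod.ext e1.symm e2.symm⟩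
      rw [← e1, ← e2]
      exact hx.2

/-! ### arcs -/

private theorem lev_dvd {N : ℕ} (φ : Fin 2 × Fin N → ℂ) (i : Fin 2) (e : ℕ)
    (h : ∀ l : Fin N, (l : ℕ) < e → φ (i, l) = 0) :
    ∃ U : PowerSeries ℂ, arc φ i = PowerSeries.X ^ e * U ∧
      ∀ h' : e < N, PowerSeries.constantCoeff U = φ (i, ⟨e, h'⟩) := by
  have h1 : PowerSeries.X ^ e ∣ arc φ i := by
    rw [PowerSeries.X_pow_dvd_iff]
    intro m hm
    rw [coeff_arc]
    split_ifs with h2
    · exact h ⟨m, h2⟩ hm
    · rfl
  obtain ⟨U, hU⟩ := h1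
  refine ⟨U, hU, fun h' => ?_⟩
  have h2 : PowerSeries.coeff e (arc φ i) = φ (i, ⟨e, h'⟩) := by
    rw [coeff_arc, dif_pos h']
  rw [hU, PowerSeries.coeff_X_pow_mul', if_pos le_rfl, Nat.sub_self,
    PowerSeries.coeff_zero_eq_constantCoeff_apply] at h2
  exact h2

private theorem lev_coeff {d e0 e1 c : ℕ} (he0 : 0 < e0) (he1 : 0 < e1)
    (hc : ∀ i j, cf H i j ≠ 0 → c ≤ i * e0 + j * e1) (φ : Fin 2 × Fin (d + 1) → ℂ)
    (h0 : ∀ l : Fin (d + 1), (l : ℕ) < e0 → φ (0, l) = 0)
    (h1 : ∀ l : Fin (d + 1), (l : ℕ) < e1 → φ (1, l) = 0) (l0 : e0 < d + 1) (l1 : e1 < d + 1) :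
    (∀ l, l < c → PowerSeries.coeff l (ev H (arc φ 0) (arc φ 1)) = 0) ∧
    PowerSeries.coeff c (ev H (arc φ 0) (arc φ 1)) =
      ∑ i ∈ Finset.range (c + 1), ∑ j ∈ Finset.range (c + 1),
        if i * e0 + j * e1 = c then algebraMap k ℂ (cf H i j) * φ (0, ⟨e0, l0⟩) ^ i *
          φ (1, ⟨e1, l1⟩) ^ j else 0 := by
  obtain ⟨U, hU, hU0⟩ := lev_dvd φ 0 e0 h0
  obtain ⟨V, hV, hV0⟩ := lev_dvd φ 1 e1 h1
  obtain ⟨W, hW, hW0, _⟩ := ev_wt he0 he1 H hc
  rw [hU, hV, hW]
  refine ⟨fun l hl => ?_, ?_⟩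
  · rw [PowerSeries.coeff_X_pow_mul', if_neg (by omega)]
  · rw [PowerSeries.coeff_X_pow_mul', if_pos le_rfl, Nat.sub_self,
      PowerSeries.coeff_zero_eq_constantCoeff_apply, hW0, hU0 l0, hV0 l1]

private theorem lev_hit {d : ℕ} (φ : Fin 2 × Fin (d + 1) → ℂ) (hφ : org φ = 0) (c : ℂ) :
    Hit (tp d H) d φ c ↔ ∀ l, l ≤ d →
      PowerSeries.coeff l (ev H (arc φ 0) (arc φ 1)) = if l = d then c else 0 := by
  have h := hit_ev 0 H φ hφ c
  simp only [pow_zero, one_mul] at h
  exact h

private theorem lev_ceil {D c l : ℕ} (hc : 0 < c) : l < (D + c - 1) / c ↔ c * l < D := by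
  rw [← not_iff_not, not_lt, not_lt]
  have h : (D + c - 1) / c ≤ l ↔ (D + c - 1) / c < l + 1 := by omega
  rw [h, Nat.div_lt_iff_lt_mul hc, Nat.add_mul, one_mul, mul_comm l c]
  omega

/-! ### constructible conditions -/

private theorem lev_imp {A : Type} [Aff A] (P : Prop) {Q : A → Prop} (h : P → ICons k {x | Q x}) :
    ICons k {x : A | P → Q x} := by
  by_cases hP : P
  · have e : {x : A | P → Q x} = {x | Q x} := by ext x; simp [hP]
    rw [e]
    exact h hP
  · have e : {x : A | P → Q x} = Set.univ := by ext x; simp [hP]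
    rw [e]
    exact ICons.univ

private theorem lev_fall {A : Type} [Aff A] (P : Prop) {Q : P → A → Prop}
    (h : ∀ hP : P, ICons k {x | Q hP x}) : ICons k {x : A | ∀ hP : P, Q hP x} := by
  by_cases hP : P
  · have e : {x : A | ∀ hP : P, Q hP x} = {x | Q hP x} := by ext x; simp [hP]
    rw [e]
    exact h hP
  · have e : {x : A | ∀ hP : P, Q hP x} = Set.univ := by ext x; simp [hP]
    rw [e]
    exact ICons.univ

private theorem lev_fex {A : Type} [Aff A] (P : Prop) {Q : P → A → Prop}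
    (h : ∀ hP : P, ICons k {x | Q hP x}) : ICons k {x : A | ∃ hP : P, Q hP x} := by
  by_cases hP : P
  · have e : {x : A | ∃ hP : P, Q hP x} = {x | Q hP x} := by ext x; simp [hP]
    rw [e]
    exact h hP
  · have e : {x : A | ∃ hP : P, Q hP x} = ∅ := by ext x; simp [hP]
    rw [e]
    exact ICons.empty

private theorem lev_pf {N : ℕ} {A : Type} [Aff A] (i : Fin 2) (l : Fin N) :
    PFun k (fun x : (Fin 2 × Fin N → ℂ) × A => x.1 (i, l)) :=
  (PFun.apply (k := k) ((i, l) : Fin 2 × Fin N)).comp PMap.fst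

private theorem lev_van {N : ℕ} {A : Type} [Aff A] (i : Fin 2) (C : Fin N → Prop) :
    ICons k {x : (Fin 2 × Fin N → ℂ) × A | ∀ l : Fin N, C l → x.1 (i, l) = 0} :=
  ICons.forall_fin fun l => lev_imp _ fun _ => ICons.eq (lev_pf i l) PFun.zero

private theorem lev_ord {N : ℕ} {A : Type} [Aff A] (i : Fin 2) (n : ℕ) :
    ICons k {x : (Fin 2 × Fin N → ℂ) × A | ordc x.1 i n} :=
  ICons.and (lev_van i _) (lev_fex _ fun h => ICons.ne (lev_pf i ⟨n, h⟩) PFun.zero)

private theorem lev_icH {N : ℕ} (d : ℕ) (f : Fin (r + 1) → MvPolynomial (Fin 2) k)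
    (t : Test k) : ICons k {x : (Fin 2 × Fin N → ℂ) × t.E | Htv f d x.1 (t.c x.2)} := by
  unfold Htv
  apply ICons.forall_fin
  intro e
  by_cases he : e = 0
  · simp only [he, if_true]
    exact ICons.hit d _ PMap.fst (t.pf.comp PMap.snd)
  · simp only [he, if_false]
    exact ICons.hit d _ PMap.fst PFun.zero

private theorem lev_icW {N : ℕ} (t : Test k) :
    ICons k {x : (Fin 2 × Fin N → ℂ) × t.E | x.2 ∈ t.W} := t.cW.mem PMap.snd

/-! ### the parts -/

/-- the top level -/
private def levT (c d p q : ℕ) (φ : Fin 2 × Fin (d + 1) → ℂ) : Prop :=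
  (∀ l : Fin (d + 1), c * l < d * p → φ (0, l) = 0) ∧
    ∀ l : Fin (d + 1), c * l < d * q → φ (1, l) = 0

private theorem lev_ordc_uniq {N : ℕ} {φ : Fin 2 × Fin N → ℂ} {i : Fin 2} {n m : ℕ}
    (h : ordc φ i n) (h' : ordc φ i m) : n = m := by
  obtain ⟨h1, h2, h3⟩ := h
  obtain ⟨h1', h2', h3'⟩ := h'
  rcases lt_trichotomy n m with h4 | h4 | h4
  · exact absurd (h1' ⟨n, h2⟩ h4) h3
  · exact h4
  · exact absurd (h1 ⟨m, h2'⟩ h4) h3'

private theorem lev_ordc_ex {N : ℕ} (φ : Fin 2 × Fin N → ℂ) (i : Fin 2) :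
    (∃ n, ordc φ i n) ∨ ∀ l, φ (i, l) = 0 := by
  by_cases h : ∀ l, φ (i, l) = 0
  · exact Or.inr h
  · left
    push Not at h
    have h' : ∃ n, ∃ hn : n < N, φ (i, ⟨n, hn⟩) ≠ 0 := by
      obtain ⟨l, hl⟩ := h
      exact ⟨l, l.2, hl⟩
    classical
    refine ⟨Nat.find h', fun l hl => ?_, Nat.find_spec h'⟩
    by_contra hcon
    exact Nat.find_min h' hl ⟨l.2, hcon⟩

/-- all arcs are in one of the four parts -/
private theorem lev_cases {c d : ℕ} (hp : 0 < p) (hq : 0 < q) (hpq : Nat.Coprime p q)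
    (hcp : p ≤ c) (φ : Fin 2 × Fin (d + 1) → ℂ) (h0 : org φ = 0) :
    levT c d p q φ ∨
    (∃ m ∈ (Finset.Icc 1 d).filter (fun m => c * m < p * d), rgn p q m φ) ∨
    (∃ m ∈ (Finset.Icc 1 d).filter (fun m => c * m < d), ordc φ 0 (p * m) ∧ ordc φ 1 (q * m)) ∨
    (∃ m ∈ (Finset.Icc 1 d).filter (fun m => c * m < q * d), ordc φ 1 m ∧
      ∀ l : Fin (d + 1), (l : ℕ) * q ≤ p * m → φ (0, l) = 0) := by
  have hpos : ∀ i n, ordc φ i n → 0 < n := by
    intro i n h
    obtain ⟨_, h2, h3⟩ := h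
    rcases Nat.eq_zero_or_pos n with rfl | h4
    · exact absurd (congrFun h0 i) h3
    · exact h4
  rcases lev_ordc_ex φ 0 with ⟨x, hx⟩ | hx
  · have hx0 := hpos 0 x hx
    have hxd : x ≤ d := by
      obtain ⟨_, h2, _⟩ := hx
      omega
    rcases lev_ordc_ex φ 1 with ⟨y, hy⟩ | hy
    · have hy0 := hpos 1 y hy
      have hyd : y ≤ d := by
        obtain ⟨_, h2, _⟩ := hy
        omega
      rcases lt_trichotomy (x * q) (y * p) with h | h | h
      · by_cases h1 : c * x < p * d
        · right; left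
          refine ⟨x, ?_, hx, fun l hl => hy.1 l ?_⟩
          · simp only [Finset.mem_filter, Finset.mem_Icc]
            omega
          · have : (l : ℕ) * p < y * p := by
              rw [mul_comm q x] at hl
              omega
            exact Nat.lt_of_mul_lt_mul_right this
        · left
          refine ⟨fun l hl => hx.1 l ?_, fun l hl => hy.1 l ?_⟩
          · have : c * l < c * x := by
              rw [mul_comm d p] at hl
              omega
            exact Nat.lt_of_mul_lt_mul_left this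
          · push Not at h1
            have h2 : d * q * p ≤ c * y * p := by
              calc d * q * p = p * d * q := by ring
                _ ≤ c * x * q := Nat.mul_le_mul_right _ h1
                _ = c * (x * q) := by ring
                _ ≤ c * (y * p) := Nat.mul_le_mul_left _ h.le
                _ = c * y * p := by ring
            have h3 := Nat.le_of_mul_le_mul_right h2 hp
            have : c * l < c * y := by omega
            exact Nat.lt_of_mul_lt_mul_left this
      · -- on the ray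
        have hdv : p ∣ x := by
          have h1 : p ∣ x * q := ⟨y, by rw [h, mul_comm]⟩
          exact hpq.dvd_of_dvd_mul_right h1
        obtain ⟨m, rfl⟩ := hdv
        have hym : y = q * m := by
          have h1 : y * p = q * m * p := by
            rw [← h]
            ring
          exact Nat.eq_of_mul_eq_mul_right hp h1
        subst hym
        have hm0 : 0 < m := by
          rcases Nat.eq_zero_or_pos m with rfl | h4
          · simp at hx0
          · exact h4
        by_cases h1 : c * m < d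
        · right; right; left
          refine ⟨m, ?_, hx, hy⟩
          simp only [Finset.mem_filter, Finset.mem_Icc]
          have : m ≤ c * m := Nat.le_mul_of_pos_left _ (by omega)
          omega
        · left
          push Not at h1
          refine ⟨fun l hl => hx.1 l ?_, fun l hl => hy.1 l ?_⟩
          · have h2 : d * p ≤ c * (p * m) := by
              calc d * p ≤ c * m * p := Nat.mul_le_mul_right _ h1
                _ = c * (p * m) := by ring
            exact Nat.lt_of_mul_lt_mul_left (by omega : c * l < c * (p * m))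
          · have h2 : d * q ≤ c * (q * m) := by
              calc d * q ≤ c * m * q := Nat.mul_le_mul_right _ h1
                _ = c * (q * m) := by ring
            exact Nat.lt_of_mul_lt_mul_left (by omega : c * l < c * (q * m))
      · by_cases h1 : c * y < q * d
        · right; right; right
          refine ⟨y, ?_, hy, fun l hl => hx.1 l ?_⟩
          · simp only [Finset.mem_filter, Finset.mem_Icc]
            omega
          · have : (l : ℕ) * q < x * q := by
              rw [mul_comm p y] at hl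
              omega
            exact Nat.lt_of_mul_lt_mul_right this
        · left
          refine ⟨fun l hl => hx.1 l ?_, fun l hl => hy.1 l ?_⟩
          · push Not at h1
            have h2 : d * p * q ≤ c * x * q := by
              calc d * p * q = q * d * p := by ring
                _ ≤ c * y * p := Nat.mul_le_mul_right _ h1
                _ = c * (y * p) := by ring
                _ ≤ c * (x * q) := Nat.mul_le_mul_left _ h.le
                _ = c * x * q := by ring
            have h3 := Nat.le_of_mul_le_mul_right h2 hq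
            have : c * l < c * x := by omega
            exact Nat.lt_of_mul_lt_mul_left this
          · have : c * l < c * y := by
              rw [mul_comm d q] at hl
              omega
            exact Nat.lt_of_mul_lt_mul_left this
    · by_cases h1 : c * x < p * d
      · right; left
        refine ⟨x, ?_, hx, fun l _ => hy l⟩
        simp only [Finset.mem_filter, Finset.mem_Icc]
        omega
      · left
        refine ⟨fun l hl => hx.1 l ?_, fun l _ => hy l⟩
        have : c * l < c * x := by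
          rw [mul_comm d p] at hl
          omega
        exact Nat.lt_of_mul_lt_mul_left this
  · rcases lev_ordc_ex φ 1 with ⟨y, hy⟩ | hy
    · have hy0 := hpos 1 y hy
      have hyd : y ≤ d := by
        obtain ⟨_, h2, _⟩ := hy
        omega
      by_cases h1 : c * y < q * d
      · right; right; right
        refine ⟨y, ?_, hy, fun l _ => hx l⟩
        simp only [Finset.mem_filter, Finset.mem_Icc]
        omega
      · left
        refine ⟨fun l _ => hx l, fun l hl => hy.1 l ?_⟩
        have : c * l < c * y := by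
          rw [mul_comm d q] at hl
          omega
        exact Nat.lt_of_mul_lt_mul_left this
    · left
      exact ⟨fun l _ => hx l, fun l _ => hy l⟩

/-! ### the sets -/

private def levL (G : Fin (r + 1) → PS k) (d : ℕ) (t : Test k) : Set ((Fin 2 × Fin (d + 1) → ℂ) × t.E) :=
  {x | x.2 ∈ t.W ∧ org x.1 = 0 ∧ Htv (fun e => tp d (G e)) d x.1 (t.c x.2)}

private def levTT (G : Fin (r + 1) → PS k) (c d p q : ℕ) (t : Test k) :
    Set ((Fin 2 × Fin (d + 1) → ℂ) × t.E) :=
  {x | x.2 ∈ t.W ∧ levT c d p q x.1 ∧ Htv (fun e => tp d (G e)) d x.1 (t.c x.2)}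

private def levB (G : Fin (r + 1) → PS k) (d p q m : ℕ) (t : Test k) :
    Set ((Fin 2 × Fin (d + 1) → ℂ) × t.E) :=
  {x | x.2 ∈ t.W ∧ rgn p q m x.1 ∧ Htv (fun e => tp d (G e)) d x.1 (t.c x.2)}

private def levR (G : Fin (r + 1) → PS k) (d p q m : ℕ) (t : Test k) :
    Set ((Fin 2 × Fin (d + 1) → ℂ) × t.E) :=
  {x | x.2 ∈ t.W ∧ (ordc x.1 0 (p * m) ∧ ordc x.1 1 (q * m)) ∧ Htv (fun e => tp d (G e)) d x.1 (t.c x.2)}

private def levS (G : Fin (r + 1) → PS k) (d p q m : ℕ) (t : Test k) :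
    Set ((Fin 2 × Fin (d + 1) → ℂ) × t.E) :=
  {x | x.2 ∈ t.W ∧ (ordc x.1 1 m ∧ ∀ l : Fin (d + 1), (l : ℕ) * q ≤ p * m → x.1 (0, l) = 0) ∧
    Htv (fun e => tp d (G e)) d x.1 (t.c x.2)}

private theorem lev_icT (c d : ℕ) (t : Test k) : ICons k (levTT G c d p q t) :=
  ICons.and (lev_icW t) (ICons.and (ICons.and (lev_van 0 _) (lev_van 1 _)) (lev_icH d _ t))

private theorem lev_icB (d m : ℕ) (t : Test k) : ICons k (levB G d p q m t) :=
  ICons.and (lev_icW t) (ICons.and (ICons.and (lev_ord 0 m) (lev_van 1 _)) (lev_icH d _ t))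

private theorem lev_icR (d m : ℕ) (t : Test k) : ICons k (levR G d p q m t) :=
  ICons.and (lev_icW t) (ICons.and (ICons.and (lev_ord 0 _) (lev_ord 1 _)) (lev_icH d _ t))

private theorem lev_icS (d m : ℕ) (t : Test k) : ICons k (levS G d p q m t) :=
  ICons.and (lev_icW t) (ICons.and (ICons.and (lev_ord 1 _) (lev_van 0 _)) (lev_icH d _ t))

private theorem lev_icU {A : Type} [Aff A] (s : Finset ℕ) {B : ℕ → Set A}
    (h : ∀ m, ICons k (B m)) : ICons k {x | ∃ m ∈ s, x ∈ B m} := by
  have h1 := ICons.exists_fin (k := k) (J := s) (p := fun m x => x ∈ B m) (fun m => h m)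
  have e : {x : A | ∃ m : s, x ∈ B m} = {x | ∃ m ∈ s, x ∈ B m} := by
    ext x
    exact ⟨fun ⟨m, hm⟩ => ⟨m, m.2, hm⟩, fun ⟨m, h1, h2⟩ => ⟨⟨m, h1⟩, h2⟩⟩
  rwa [e] at h1

private theorem lev_dTB {c d m : ℕ} {φ : Fin 2 × Fin (d + 1) → ℂ} (h : levT c d p q φ)
    (hm : c * m < p * d) (h' : rgn p q m φ) : False := by
  obtain ⟨⟨_, h2, h3⟩, _⟩ := h'
  exact h3 (h.1 ⟨m, h2⟩ (by simpa [mul_comm d p] using hm))

private theorem lev_dTR {c d m : ℕ} (hp : 0 < p) {φ : Fin 2 × Fin (d + 1) → ℂ}
    (h : levT c d p q φ) (hm : c * m < d) (h' : ordc φ 0 (p * m) ∧ ordc φ 1 (q * m)) : False := by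
  obtain ⟨⟨_, h2, h3⟩, _⟩ := h'
  refine h3 (h.1 ⟨p * m, h2⟩ ?_)
  calc c * (p * m) = c * m * p := by ring
    _ < d * p := Nat.mul_lt_mul_of_pos_right hm hp

private theorem lev_dTS {c d m : ℕ} {φ : Fin 2 × Fin (d + 1) → ℂ} (h : levT c d p q φ)
    (hm : c * m < q * d) (h' : ordc φ 1 m ∧
      ∀ l : Fin (d + 1), (l : ℕ) * q ≤ p * m → φ (0, l) = 0) : False := by
  obtain ⟨⟨_, h2, h3⟩, _⟩ := h'
  exact h3 (h.2 ⟨m, h2⟩ (by simpa [mul_comm d q] using hm))

private theorem lev_dBR {d m m' : ℕ} {φ : Fin 2 × Fin (d + 1) → ℂ} (h : rgn p q m φ)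
    (h' : ordc φ 0 (p * m') ∧ ordc φ 1 (q * m')) : False := by
  have e := lev_ordc_uniq h.1 h'.1
  obtain ⟨_, h2, h3⟩ := h'.2
  refine h3 (h.2 ⟨q * m', h2⟩ ?_)
  rw [e]
  exact le_of_eq (by simp only; ring)

private theorem lev_dBS {d m m' : ℕ} {φ : Fin 2 × Fin (d + 1) → ℂ} (h : rgn p q m φ)
    (h' : ordc φ 1 m' ∧ ∀ l : Fin (d + 1), (l : ℕ) * q ≤ p * m' → φ (0, l) = 0) : False := by
  obtain ⟨⟨_, h2, h3⟩, h4⟩ := h
  obtain ⟨⟨_, h6, h7⟩, h8⟩ := h'
  have h9 : ¬ m * q ≤ p * m' := fun hh => h3 (h8 ⟨m, h2⟩ hh)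
  have h10 : ¬ m' * p ≤ q * m := fun hh => h7 (h4 ⟨m', h6⟩ hh)
  rw [mul_comm m' p, mul_comm q m] at h10
  omega

private theorem lev_dRS {d m m' : ℕ} {φ : Fin 2 × Fin (d + 1) → ℂ}
    (h : ordc φ 0 (p * m) ∧ ordc φ 1 (q * m))
    (h' : ordc φ 1 m' ∧ ∀ l : Fin (d + 1), (l : ℕ) * q ≤ p * m' → φ (0, l) = 0) : False := by
  have e := lev_ordc_uniq h.2 h'.1
  obtain ⟨_, h2, h3⟩ := h.1
  refine h3 (h'.2 ⟨p * m, h2⟩ ?_)
  rw [← e]
  exact le_of_eq (by simp only; ring)

/-- the partition -/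
private theorem lev_part {c d : ℕ} (hd : 0 < d) (hp : 0 < p) (hq : 0 < q)
    (hpq : Nat.Coprime p q) (hcp : p ≤ c) (t : Test k) :
    mo k (levL G d t) = mo k (levTT G c d p q t) +
      ∑ m ∈ (Finset.Icc 1 d).filter (fun m => c * m < p * d), mo k (levB G d p q m t) +
      ∑ m ∈ (Finset.Icc 1 d).filter (fun m => c * m < d), mo k (levR G d p q m t) +
      ∑ m ∈ (Finset.Icc 1 d).filter (fun m => c * m < q * d), mo k (levS G d p q m t) := by
  have e : levL G d t = ((levTT G c d p q t ∪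
      {x | ∃ m ∈ (Finset.Icc 1 d).filter (fun m => c * m < p * d), x ∈ levB G d p q m t}) ∪
      {x | ∃ m ∈ (Finset.Icc 1 d).filter (fun m => c * m < d), x ∈ levR G d p q m t}) ∪
      {x | ∃ m ∈ (Finset.Icc 1 d).filter (fun m => c * m < q * d), x ∈ levS G d p q m t} := by
    ext x
    simp only [Set.mem_union, Set.mem_ofPred_eq]
    constructor
    · rintro ⟨h1, h2, h3⟩
      rcases lev_cases hp hq hpq hcp x.1 h2 with h | ⟨m, hm, h⟩ | ⟨m, hm, h⟩ | ⟨m, hm, h⟩
      · exact Or.inl (Or.inl (Or.inl ⟨h1, h, h3⟩))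
      · exact Or.inl (Or.inl (Or.inr ⟨m, hm, h1, h, h3⟩))
      · exact Or.inl (Or.inr ⟨m, hm, h1, h, h3⟩)
      · exact Or.inr ⟨m, hm, h1, h, h3⟩
    · have ho : ∀ i n, 0 < n → ordc x.1 i n → x.1 (i, 0) = 0 := by
        intro i n hn h
        exact h.1 0 hn
      rintro (((⟨h1, h, h3⟩ | ⟨m, hm, h1, h, h3⟩) | ⟨m, hm, h1, h, h3⟩) | ⟨m, hm, h1, h, h3⟩)
      · refine ⟨h1, ?_, h3⟩
        funext i
        fin_cases i
        · exact h.1 0 (by simpa using ⟨hd, hp⟩)
        · exact h.2 0 (by simpa using ⟨hd, hq⟩)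
      · simp only [Finset.mem_filter, Finset.mem_Icc] at hm
        refine ⟨h1, ?_, h3⟩
        funext i
        fin_cases i
        · exact ho 0 m (by omega) h.1
        · exact h.2 0 (by simp)
      · simp only [Finset.mem_filter, Finset.mem_Icc] at hm
        refine ⟨h1, ?_, h3⟩
        funext i
        fin_cases i
        · exact ho 0 _ (Nat.mul_pos hp (by omega)) h.1
        · exact ho 1 _ (Nat.mul_pos hq (by omega)) h.2
      · simp only [Finset.mem_filter, Finset.mem_Icc] at hm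
        refine ⟨h1, ?_, h3⟩
        funext i
        fin_cases i
        · exact h.2 0 (by simp)
        · exact ho 1 m (by omega) h.1
  have i1 := lev_icU ((Finset.Icc 1 d).filter (fun m => c * m < p * d))
    (fun m => lev_icB (G := G) (p := p) (q := q) d m t)
  have i2 := lev_icU ((Finset.Icc 1 d).filter (fun m => c * m < d))
    (fun m => lev_icR (G := G) (p := p) (q := q) d m t)
  have i3 := lev_icU ((Finset.Icc 1 d).filter (fun m => c * m < q * d))
    (fun m => lev_icS (G := G) (p := p) (q := q) d m t)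
  have i0 := lev_icT (G := G) (p := p) (q := q) c d t
  rw [e, mo_union ((i0.union i1).union i2) i3, mo_union (i0.union i1) i2, mo_union i0 i1,
    mo_biUnion _ (fun m _ => lev_icB d m t), mo_biUnion _ (fun m _ => lev_icR d m t),
    mo_biUnion _ (fun m _ => lev_icS d m t)]
  · intro m _ m' _ hne
    rw [Set.disjoint_left]
    rintro x ⟨_, h, _⟩ ⟨_, h', _⟩
    exact hne (lev_ordc_uniq h.1 h'.1)
  · intro m _ m' _ hne
    rw [Set.disjoint_left]
    rintro x ⟨_, h, _⟩ ⟨_, h', _⟩
    exact hne (Nat.eq_of_mul_eq_mul_left hp (lev_ordc_uniq h.1 h'.1))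
  · intro m _ m' _ hne
    rw [Set.disjoint_left]
    rintro x ⟨_, h, _⟩ ⟨_, h', _⟩
    exact hne (lev_ordc_uniq h.1 h'.1)
  · rw [Set.disjoint_left]
    rintro x ⟨_, h, _⟩ ⟨m, hm, _, h', _⟩
    simp only [Finset.mem_filter, Finset.mem_Icc] at hm
    exact lev_dTB h hm.2 h'
  · rw [Set.disjoint_left]
    rintro x (⟨_, h, _⟩ | ⟨m', hm', _, h, _⟩) ⟨m, hm, _, h', _⟩
    · simp only [Finset.mem_filter, Finset.mem_Icc] at hm
      exact lev_dTR hp h hm.2 h'
    · exact lev_dBR h h'
  · rw [Set.disjoint_left]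
    rintro x ((⟨_, h, _⟩ | ⟨m', hm', _, h, _⟩) | ⟨m', hm', _, h, _⟩) ⟨m, hm, _, h', _⟩
    · simp only [Finset.mem_filter, Finset.mem_Icc] at hm
      exact lev_dTS h hm.2 h'
    · exact lev_dBS h h'
    · exact lev_dRS h h'

/-! ### the parts as classes -/

private theorem lev_B_eq (d m : ℕ) (t : Test k) : mo k (levB G d p q m t) =
    dmv 0 G p q m d t := by
  unfold dmv levB tpv
  simp only [pow_zero, one_mul]

/-- swapping the coordinates -/
private def levsw {N : ℕ} (φ : Fin 2 × Fin N → ℂ) : Fin 2 × Fin N → ℂ :=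
  fun x => φ (if x.1 = 0 then 1 else 0, x.2)

private theorem lev_sw0 {N : ℕ} (φ : Fin 2 × Fin N → ℂ) (l : Fin N) :
    levsw φ (0, l) = φ (1, l) := rfl

private theorem lev_sw1 {N : ℕ} (φ : Fin 2 × Fin N → ℂ) (l : Fin N) :
    levsw φ (1, l) = φ (0, l) := rfl

private theorem lev_swsw {N : ℕ} (φ : Fin 2 × Fin N → ℂ) : levsw (levsw φ) = φ := by
  funext x
  obtain ⟨i, l⟩ := x
  fin_cases i <;> rfl

private theorem lev_sw_hit {N d : ℕ} (φ : Fin 2 × Fin N → ℂ) (c : ℂ) :
    Hit (tp d (swp H)) d (levsw φ) c ↔ Hit (tp d H) d φ c := by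
  have e : arcEval k (levsw φ) (tp d (swp H)) = arcEval k φ (tp d H) := by
    have a0 : arc (levsw φ) 0 = arc φ 1 := rfl
    have a1 : arc (levsw φ) 1 = arc φ 0 := rfl
    have hm : ∀ (ψ : Fin 2 × Fin N → ℂ) (i j : ℕ) (c : k), arcEval k ψ (monomial (ix i j) c) =
        algebraMap k (PowerSeries ℂ) c * (arc ψ 0 ^ i * arc ψ 1 ^ j) := by
      intro ψ i j c
      unfold arcEval
      rw [aeval_monomial]
      congr 1
      unfold ix
      rw [Finsupp.prod_add_index' (by simp) (by intro a b c; exact pow_add _ _ _),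
        Finsupp.prod_single_index (by simp), Finsupp.prod_single_index (by simp)]
    have hs : ∀ (ψ : Fin 2 × Fin N → ℂ) (H : PS k), arcEval k ψ (tp d H) =
        ∑ i ∈ Finset.range (d + 1), ∑ j ∈ Finset.range (d + 1),
          algebraMap k (PowerSeries ℂ) (cf H i j) * (arc ψ 0 ^ i * arc ψ 1 ^ j) := by
      intro ψ H
      unfold tp
      have : arcEval k ψ (∑ i ∈ Finset.range (d + 1), ∑ j ∈ Finset.range (d + 1),
          monomial (ix i j) (cf H i j)) = ∑ i ∈ Finset.range (d + 1),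
          ∑ j ∈ Finset.range (d + 1), arcEval k ψ (monomial (ix i j) (cf H i j)) := by
        unfold arcEval
        rw [map_sum]
        refine Finset.sum_congr rfl fun i _ => ?_
        rw [map_sum]
      rw [this]
      refine Finset.sum_congr rfl fun i _ => Finset.sum_congr rfl fun j _ => ?_
      rw [hm]
    rw [hs, hs, a0, a1, Finset.sum_comm]
    refine Finset.sum_congr rfl fun i _ => Finset.sum_congr rfl fun j _ => ?_
    rw [cf_swp]
    ring
  unfold Hit
  rw [e]

private theorem lev_sw_htv {N d : ℕ} (φ : Fin 2 × Fin N → ℂ) (c : ℂ) :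
    Htv (fun e => tp d (swv G e)) d (levsw φ) c ↔ Htv (fun e => tp d (G e)) d φ c :=
  forall_congr' fun _ => lev_sw_hit φ _

private theorem lev_S_eq (d m : ℕ) (t : Test k) :
    mo k (levS G d p q m t) = dmv 0 (swv G) q p m d t := by
  rw [← lev_B_eq]
  have hf : PMap k (fun x : (Fin 2 × Fin (d + 1) → ℂ) × t.E => (levsw x.1, x.2)) := by
    refine PMap.prodMk (PMap.pi fun x => ?_) PMap.snd
    exact lev_pf _ _
  refine mo_bij (lev_icS d m t) (lev_icB d m t) hf ⟨?_, ?_, ?_⟩
  · rintro x ⟨h1, ⟨h2, h3⟩, h4⟩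
    refine ⟨h1, ⟨⟨h2.1, h2.2⟩, h3⟩, (lev_sw_htv x.1 _).2 h4⟩
  · rintro ⟨φ, w⟩ _ ⟨φ', w'⟩ _ h
    simp only [Prod.mk.injEq] at h
    obtain ⟨h1, h2⟩ := h
    rw [← lev_swsw φ, h1, lev_swsw, h2]
  · rintro ⟨φ, w⟩ ⟨h1, ⟨h2, h3⟩, h4⟩
    refine ⟨(levsw φ, w), ⟨h1, ⟨⟨h2.1, h2.2⟩, h3⟩, ?_⟩, ?_⟩
    · have := (lev_sw_htv (G := G) (d := d) (levsw φ) (t.c w)).1
      rw [lev_swsw] at this
      exact this h4
    · simp only [lev_swsw]

/-- the edge sum is a value of the edge polynomial -/
private theorem lev_edp (hE : Edv G a b p q E) (o : Fin (r + 1)) {α β : ℂ} (hα : α ≠ 0) :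
    ∑ n ∈ Finset.range (E + 1), algebraMap k ℂ (cf (G o) (a + q * n) (b - p * n)) *
      α ^ (a + q * n) * β ^ (b - p * n) = α ^ (a + q * E) * β ^ (b - p * E) *
        Polynomial.aeval (β ^ p / α ^ q) (edp (G o) a b p q E) := by
  unfold edp
  rw [map_sum, Finset.mul_sum]
  refine Finset.sum_congr rfl fun n hn => ?_
  rw [Finset.mem_range] at hn
  obtain ⟨e, he⟩ : ∃ e, E = n + e := ⟨E - n, by omega⟩
  have h1 : E - n = e := by omega
  have h2 : a + q * E = (a + q * n) + q * e := by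
    rw [he]
    ring
  have h3 : b - p * n = (b - p * E) + p * e := by
    have h4 : p * E = p * n + p * e := by
      rw [he]
      ring
    have := hE.eb
    omega
  rw [map_mul, Polynomial.aeval_C, map_pow, Polynomial.aeval_X, h1, h2, h3, pow_add α (a + q * n) (q * e),
    pow_add β (b - p * E) (p * e),
    pow_mul α q e, pow_mul β p e, div_pow]
  have h5 : (α ^ q) ^ e ≠ 0 := pow_ne_zero _ (pow_ne_zero _ hα)
  field_simp

private theorem lev_root [IsAlgClosed k] {Q : Polynomial k} (hQ : Q ≠ 0) {z : ℂ}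
    (hz : Polynomial.aeval z Q = 0) : ∃ μ ∈ rts Q, z = algebraMap k ℂ μ := by
  have h1 : (Q.map (algebraMap k ℂ)).roots = Q.roots.map (algebraMap k ℂ) :=
    (IsAlgClosed.splits Q).roots_map _
  have h2 : z ∈ (Q.map (algebraMap k ℂ)).roots := by
    rw [Polynomial.mem_roots (Polynomial.map_ne_zero hQ), Polynomial.IsRoot.def,
      Polynomial.eval_map_algebraMap]
    exact hz
  rw [h1, Multiset.mem_map] at h2
  obtain ⟨μ, hμ, hμz⟩ := h2
  refine ⟨μ, ?_, hμz.symm⟩
  classical
  unfold rts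
  simpa using hμ

private theorem lev_mem_rts {P : Polynomial k} {μ : k} :
    μ ∈ rts P ↔ P ≠ 0 ∧ P.eval μ = 0 := by
  classical
  unfold rts
  rw [Multiset.mem_toFinset, Polynomial.mem_roots', Polynomial.IsRoot.def]

private theorem lev_mem_rtv {Q : Fin (r + 1) → Polynomial k} {μ : k} :
    μ ∈ rtv Q ↔ (∃ e, Q e ≠ 0) ∧ ∀ e, (Q e).eval μ = 0 := by
  classical
  unfold rtv
  rw [Finset.mem_filter, Finset.mem_biUnion]
  constructor
  · rintro ⟨⟨e, _, h1⟩, h2⟩
    exact ⟨⟨e, (lev_mem_rts.1 h1).1⟩, h2⟩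
  · rintro ⟨⟨e, h1⟩, h2⟩
    exact ⟨⟨e, Finset.mem_univ _, lev_mem_rts.2 ⟨h1, h2 e⟩⟩, h2⟩

private theorem lev_rootv [IsAlgClosed k] {Q : Fin (r + 1) → Polynomial k} (hQ : ∃ e, Q e ≠ 0)
    {z : ℂ} (hz : ∀ e, Polynomial.aeval z (Q e) = 0) :
    ∃ μ ∈ rtv Q, z = algebraMap k ℂ μ := by
  obtain ⟨e, he⟩ := hQ
  obtain ⟨μ, hμ, hμz⟩ := lev_root he (hz e)
  refine ⟨μ, lev_mem_rtv.2 ⟨⟨e, he⟩, fun o => ?_⟩, hμz⟩
  have h1 := hz o
  rw [hμz, Polynomial.aeval_algebraMap_apply, map_eq_zero] at h1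
  simpa using h1

private theorem lev_edv_ne (hE : Edv G a b p q E) : ∃ e, edv G a b p q E e ≠ 0 := by
  obtain ⟨e, he⟩ := hE.top
  refine ⟨e, fun h => he ?_⟩
  have h1 : (edp (G e) a b p q E).coeff E = cf (G e) a b := by
    unfold edp
    rw [Polynomial.finsetSum_coeff, Finset.sum_eq_single 0]
    · rw [Polynomial.coeff_C_mul_X_pow, if_pos (by omega), Nat.mul_zero, Nat.mul_zero,
        Nat.add_zero, Nat.sub_zero]
    · intro m hm hne
      rw [Finset.mem_range] at hm
      rw [Polynomial.coeff_C_mul_X_pow, if_neg]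
      omega
    · intro hm
      exact absurd (Finset.mem_range.2 (by omega)) hm
  have h2 : edp (G e) a b p q E = 0 := h
  rw [← h1, h2, Polynomial.coeff_zero]

/-- the arcs on the ray -/
private theorem lev_R_eq [IsAlgClosed k] (hE : Edv G a b p q E) {d m : ℕ} (hm : 0 < m)
    (hd : (a * p + b * q) * m < d) (t : Test k) :
    mo k (levR G d p q m t) = ∑ μ ∈ rtv (edv G a b p q E), rpv 0 G p q μ m d t := by
  have hp := hE.p0
  have hq := hE.q0
  have hpm : 0 < p * m := Nat.mul_pos hp hm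
  have hqm : 0 < q * m := Nat.mul_pos hq hm
  let A : k → Set ((Fin 2 × Fin (d + 1) → ℂ) × t.E) := fun μ => {x | x.2 ∈ t.W ∧
    ordc x.1 0 (p * m) ∧ ordc x.1 1 (q * m) ∧ (∀ (h : p * m < d + 1) (h' : q * m < d + 1),
      x.1 (1, ⟨q * m, h'⟩) ^ p = algebraMap k ℂ μ * x.1 (0, ⟨p * m, h⟩) ^ q) ∧
    Htv (tpv 0 d G) d x.1 (t.c x.2)}
  have hA : ∀ μ, ICons k (A μ) := by
    intro μ
    refine ICons.and (lev_icW t) (ICons.and (lev_ord 0 _) (ICons.and (lev_ord 1 _)
      (ICons.and ?_ (lev_icH d _ t))))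
    refine lev_fall _ fun h => lev_fall _ fun h' => ?_
    exact ICons.eq ((lev_pf 1 _).pow p) ((PFun.const μ).mul ((lev_pf 0 _).pow q))
  have e : levR G d p q m t = {x | ∃ μ ∈ rtv (edv G a b p q E), x ∈ A μ} := by
    ext x
    constructor
    · rintro ⟨h1, ⟨h2, h3⟩, h4⟩
      obtain ⟨hx1, hx2, hx3⟩ := h2
      obtain ⟨hy1, hy2, hy3⟩ := h3
      have horg : org x.1 = 0 := by
        funext i
        fin_cases i
        · exact hx1 0 (by simpa using hpm)
        · exact hy1 0 (by simpa using hqm)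
      set α := x.1 (0, ⟨p * m, hx2⟩) with hα
      set β := x.1 (1, ⟨q * m, hy2⟩) with hβ
      have h8 : ∀ o, Polynomial.aeval (β ^ p / α ^ q) (edv G a b p q E o) = 0 := by
        intro o
        obtain ⟨_, hc2⟩ := lev_coeff (H := G o) (c := (a * p + b * q) * m) hpm hqm (by
          intro i j hij
          calc (a * p + b * q) * m ≤ (i * p + j * q) * m := Nat.mul_le_mul_right _ (hE.wt o i j hij)
            _ = i * (p * m) + j * (q * m) := by ring) x.1 hx1 hy1 hx2 hy2
        have hz := (lev_hit x.1 horg _).1 (h4 o) _ hd.le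
        rw [if_neg (by omega), hc2] at hz
        rw [lev_sum hE o hpm hqm (by
          intro i j _ hij
          have : (i * p + j * q) * m = (a * p + b * q) * m := by
            rw [← hij]
            ring
          exact Nat.eq_of_mul_eq_mul_right hm this)] at hz
        have hz' : ∑ n ∈ Finset.range (E + 1), algebraMap k ℂ (cf (G o) (a + q * n) (b - p * n)) *
            α ^ (a + q * n) * β ^ (b - p * n) = 0 := by
          rw [← hz]
          refine Finset.sum_congr rfl fun n hn => ?_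
          rw [Finset.mem_range] at hn
          rw [if_pos]
          obtain ⟨e, he⟩ : ∃ e, b = p * n + e := by
            have h5 : p * n ≤ p * E := Nat.mul_le_mul_left _ (by omega)
            exact ⟨b - p * n, by have := hE.eb; omega⟩
          have h6 : b - p * n = e := by omega
          rw [h6, he]
          ring
        rw [lev_edp hE o hx3] at hz'
        have h7 : α ^ (a + q * E) * β ^ (b - p * E) ≠ 0 :=
          mul_ne_zero (pow_ne_zero _ hx3) (pow_ne_zero _ hy3)
        exact (mul_eq_zero.1 hz').resolve_left h7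
      obtain ⟨μ, hμ, hμ'⟩ := lev_rootv (lev_edv_ne hE) h8
      refine ⟨μ, hμ, h1, ⟨hx1, hx2, hx3⟩, ⟨hy1, hy2, hy3⟩, fun h h' => ?_, ?_⟩
      · have h9 : α ^ q ≠ 0 := pow_ne_zero _ hx3
        rw [div_eq_iff h9] at hμ'
        exact hμ'
      · intro o
        have := h4 o
        simp only [tpv, pow_zero, one_mul]
        exact this
    · rintro ⟨μ, hμ, h1, h2, h3, h4, h5⟩
      refine ⟨h1, ⟨h2, h3⟩, fun o => ?_⟩
      have := h5 o
      simp only [tpv, pow_zero, one_mul] at this
      exact this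
  rw [e, mo_biUnion _ (fun μ _ => hA μ)]
  · rfl
  · intro μ _ μ' _ hne
    rw [Set.disjoint_left]
    rintro x ⟨_, ⟨_, h2, h3⟩, ⟨_, h4, h5⟩, h6, _⟩ ⟨_, _, _, h7, _⟩
    apply hne
    have h8 := h6 h2 h4
    have h9 := h7 h2 h4
    rw [h8] at h9
    exact (algebraMap k ℂ).injective (mul_right_cancel₀ (pow_ne_zero _ h3) h9)

omit [Algebra k ℂ] in
/-- the condition at the top level -/
private theorem lev_cond (hE : Edv G a b p q E) {d n : ℕ} (hn : n ≤ E) :
    ((a * p + b * q ∣ d * p ∨ a + q * n = 0) ∧ (a * p + b * q ∣ d * q ∨ b = p * n)) ↔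
    (a + q * n) * ((d * p + (a * p + b * q) - 1) / (a * p + b * q)) +
      (b - p * n) * ((d * q + (a * p + b * q) - 1) / (a * p + b * q)) = d := by
  have hc0 : 0 < a * p + b * q := by
    have h1 : 0 < b := lt_of_lt_of_le (Nat.mul_pos hE.p0 hE.e0) hE.eb
    have := Nat.mul_pos h1 hE.q0
    omega
  obtain ⟨B, hB⟩ : ∃ B, b = p * n + B := by
    have h5 : p * n ≤ p * E := Nat.mul_le_mul_left _ hn
    exact ⟨b - p * n, by have := hE.eb; omega⟩
  have hB' : b - p * n = B := by omega
  have hAB : (a + q * n) * p + B * q = a * p + b * q := by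
    rw [hB]
    ring
  set c := a * p + b * q with hc
  have key : ∀ D : ℕ, ∃ f, c * ((D + c - 1) / c) = D + f ∧ (c ∣ D ↔ f = 0) := by
    intro D
    have h1 : ¬ c * ((D + c - 1) / c) < D := by
      rw [← lev_ceil hc0]
      exact lt_irrefl _
    have h2 : ∀ e, e < (D + c - 1) / c → c * e < D := fun e he => (lev_ceil hc0).1 he
    refine ⟨c * ((D + c - 1) / c) - D, by omega, ?_⟩
    constructor
    · rintro ⟨g, hg⟩
      have h3 : ¬ g < (D + c - 1) / c := by
        rw [lev_ceil hc0, hg]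
        exact lt_irrefl _
      have h4 : c * ((D + c - 1) / c) ≤ c * g := Nat.mul_le_mul_left _ (by omega)
      omega
    · intro h3
      exact ⟨(D + c - 1) / c, by omega⟩
  obtain ⟨f0, h0, h0'⟩ := key (d * p)
  obtain ⟨f1, h1, h1'⟩ := key (d * q)
  rw [h0', h1', hB']
  generalize a + q * n = A at *
  set e0 := (d * p + c - 1) / c
  set e1 := (d * q + c - 1) / c
  have hmain : c * (A * e0 + B * e1) = c * d + (A * f0 + B * f1) := by
    calc c * (A * e0 + B * e1) = A * (c * e0) + B * (c * e1) := by ring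
      _ = A * (d * p + f0) + B * (d * q + f1) := by rw [h0, h1]
      _ = d * (A * p + B * q) + (A * f0 + B * f1) := by ring
      _ = c * d + (A * f0 + B * f1) := by rw [hAB]; ring
  have h2 : A * e0 + B * e1 = d ↔ A * f0 + B * f1 = 0 := by
    constructor
    · intro h
      rw [h] at hmain
      omega
    · intro h
      rw [h, add_zero] at hmain
      exact Nat.eq_of_mul_eq_mul_left hc0 hmain
  rw [h2, Nat.add_eq_zero_iff, Nat.mul_eq_zero, Nat.mul_eq_zero]
  have h3 : b = p * n ↔ B = 0 := by omega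
  rw [h3]
  tauto

/-- the top level -/
private theorem lev_T_eq (hE : Edv G a b p q E) {d : ℕ} (hd : 0 < d) (t : Test k) :
    mo k (levTT G (a * p + b * q) d p q t) =
    ↑(Lu k ^ (((d - (d * p + (a * p + b * q) - 1) / (a * p + b * q)) +
      (d - (d * q + (a * p + b * q) - 1) / (a * p + b * q)) : ℕ) : ℤ)) *
    mo k {x : (Fin 2 → ℂ) × t.E | x.2 ∈ t.W ∧ Vlv (lfv G a b p q E d) x.1 (t.c x.2)} := by
  have hp := hE.p0
  have hq := hE.q0
  have hb0 : 0 < b := lt_of_lt_of_le (Nat.mul_pos hE.p0 hE.e0) hE.eb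
  have hc0 : 0 < a * p + b * q := by
    have := Nat.mul_pos hb0 hE.q0
    omega
  have hcp : p ≤ a * p + b * q := by
    have h1 : p ≤ p * E := Nat.le_mul_of_pos_right _ hE.e0
    have h2 : b ≤ b * q := Nat.le_mul_of_pos_right _ hE.q0
    have := hE.eb
    omega
  have hcq : q ≤ a * p + b * q := by
    have h2 : q ≤ b * q := Nat.le_mul_of_pos_left _ hb0
    omega
  set c := a * p + b * q with hc
  set e0 := (d * p + c - 1) / c with he0
  set e1 := (d * q + c - 1) / c with he1
  have l0 : e0 < d + 1 := by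
    have : ¬ d < (d * p + c - 1) / c := by
      rw [lev_ceil hc0, not_lt, mul_comm c d]
      exact Nat.mul_le_mul_left _ hcp
    omega
  have l1 : e1 < d + 1 := by
    have : ¬ d < (d * q + c - 1) / c := by
      rw [lev_ceil hc0, not_lt, mul_comm c d]
      exact Nat.mul_le_mul_left _ hcq
    omega
  have p0 : 0 < e0 := by
    rw [he0, lev_ceil hc0, mul_zero]
    exact Nat.mul_pos hd hp
  have p1 : 0 < e1 := by
    rw [he1, lev_ceil hc0, mul_zero]
    exact Nat.mul_pos hd hq
  let e : Fin 2 → ℕ := ![e0, e1]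
  let A : Set ((Fin 2 × Fin 1 → ℂ) × t.E) := {x | x.2 ∈ t.W ∧
    Vlv (lfv G a b p q E d) (fun i => x.1 (i, 0)) (t.c x.2)}
  have hV : ∀ {B : Type} [Aff B] {f : B → Fin 2 → ℂ} {c : B → ℂ}, PMap k f → PFun k c →
      ICons k {x : B | Vlv (lfv G a b p q E d) (f x) (c x)} := by
    intro B _ f c hf hc
    unfold Vlv
    apply ICons.forall_fin
    intro o
    have h1 : PFun k (fun y : Fin 2 → ℂ => (aeval y (lfv G a b p q E d o) : ℂ)) :=
      ⟨lfv G a b p q E d o, fun _ => rfl⟩
    by_cases ho : o = 0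
    · simp only [ho, if_true]
      rw [ho] at h1
      exact ICons.eq (h1.comp hf) hc
    · simp only [ho, if_false]
      exact ICons.eq (h1.comp hf) PFun.zero
  have hA : ICons k A :=
    ICons.and (t.cW.mem PMap.snd) (hV (PMap.pi fun i => lev_pf i 0) (t.pf.comp PMap.snd))
  have hD : ICons k {x : (Fin 2 → ℂ) × t.E | x.2 ∈ t.W ∧
      Vlv (lfv G a b p q E d) x.1 (t.c x.2)} :=
    ICons.and (t.cW.mem PMap.snd) (hV PMap.fst (t.pf.comp PMap.snd))
  have key := mo_sft (k := k) (K := 1) (N := d + 1) (e := e) (by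
    intro i
    fin_cases i
    · show e0 + 1 ≤ d + 1
      omega
    · show e1 + 1 ≤ d + 1
      omega) hA
  have hAD : mo k A = mo k {x : (Fin 2 → ℂ) × t.E | x.2 ∈ t.W ∧
      Vlv (lfv G a b p q E d) x.1 (t.c x.2)} := by
    have hf : PMap k (fun x : (Fin 2 × Fin 1 → ℂ) × t.E =>
        ((fun i : Fin 2 => x.1 (i, 0)), x.2)) :=
      PMap.prodMk (PMap.pi fun i => lev_pf i 0) PMap.snd
    refine mo_bij hA hD hf ⟨fun x hx => hx, ?_, ?_⟩
    · rintro ⟨φ, w⟩ _ ⟨φ', w'⟩ _ h
      simp only [Prod.mk.injEq] at h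
      obtain ⟨h1, h2⟩ := h
      refine Prod.ext ?_ h2
      funext x
      obtain ⟨i, l⟩ := x
      have : l = 0 := Subsingleton.elim _ _
      rw [this]
      exact congrFun h1 i
    · rintro ⟨y, w⟩ hy
      exact ⟨(fun x => y x.1, w), hy, rfl⟩
  rw [← hAD]
  have hexp : (((d - e0) + (d - e1) : ℕ) : ℤ) = (((d + 1 - e 0 - 1) + (d + 1 - e 1 - 1) : ℕ) : ℤ) := by
    have h1 : e 0 = e0 := rfl
    have h2 : e 1 = e1 := rfl
    rw [h1, h2]
    congr 1
    omega
  rw [hexp, zpow_natCast, ← key]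
  congr 1
  ext x
  have hval : ∀ (h0 : ∀ l : Fin (d + 1), (l : ℕ) < e0 → x.1 (0, l) = 0)
      (h1 : ∀ l : Fin (d + 1), (l : ℕ) < e1 → x.1 (1, l) = 0),
      (Htv (fun e => tp d (G e)) d x.1 (t.c x.2) ↔
        Vlv (lfv G a b p q E d) (fun i => sft (K := 1) e x.1 (i, 0)) (t.c x.2)) := by
    intro h0 h1
    unfold Htv Vlv
    refine forall_congr' fun o => ?_
    generalize (if o = 0 then t.c x.2 else 0 : ℂ) = v
    have horg : org x.1 = 0 := by
      funext i
      fin_cases i
      · exact h0 0 (by simpa using p0)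
      · exact h1 0 (by simpa using p1)
    have hwt : ∀ i j, cf (G o) i j ≠ 0 → d * (i * p + j * q) ≤ c * (i * e0 + j * e1) := by
      intro i j _
      have g0 : ¬ e0 < (d * p + c - 1) / c := lt_irrefl _
      have g1 : ¬ e1 < (d * q + c - 1) / c := lt_irrefl _
      rw [lev_ceil hc0, not_lt] at g0 g1
      calc d * (i * p + j * q) = i * (d * p) + j * (d * q) := by ring
        _ ≤ i * (c * e0) + j * (c * e1) :=
          Nat.add_le_add (Nat.mul_le_mul_left _ g0) (Nat.mul_le_mul_left _ g1)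
        _ = c * (i * e0 + j * e1) := by ring
    obtain ⟨hc1, hc2⟩ := lev_coeff (H := G o) (c := d) p0 p1 (by
      intro i j hij
      have h2 := hE.wt o i j hij
      have h3 : c * d ≤ c * (i * e0 + j * e1) := by
        calc c * d = d * c := mul_comm _ _
          _ ≤ d * (i * p + j * q) := Nat.mul_le_mul_left _ h2
          _ ≤ _ := hwt i j hij
      exact Nat.le_of_mul_le_mul_left h3 hc0) x.1 h0 h1 l0 l1
    rw [lev_sum hE o p0 p1 (by
      intro i j hij hh
      have h2 := hwt i j hij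
      rw [hh, mul_comm c d] at h2
      have h3 := Nat.le_of_mul_le_mul_left h2 hd
      have h4 := hE.wt o i j hij
      omega)] at hc2
    have hs0 : sft (K := 1) e x.1 (0, 0) = x.1 (0, ⟨e0, l0⟩) := by
      unfold sft
      rw [dif_pos (by simpa [e] using l0)]
      simp [e]
    have hs1 : sft (K := 1) e x.1 (1, 0) = x.1 (1, ⟨e1, l1⟩) := by
      unfold sft
      rw [dif_pos (by simpa [e] using l1)]
      simp [e]
    have hl : aeval (fun i => sft (K := 1) e x.1 (i, 0)) (lfv G a b p q E d o) =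
        ∑ n ∈ Finset.range (E + 1), if (a + q * n) * e0 + (b - p * n) * e1 = d then
          algebraMap k ℂ (cf (G o) (a + q * n) (b - p * n)) * x.1 (0, ⟨e0, l0⟩) ^ (a + q * n) *
            x.1 (1, ⟨e1, l1⟩) ^ (b - p * n) else 0 := by
      unfold lfv ltf
      rw [map_sum]
      refine Finset.sum_congr rfl fun n hn => ?_
      rw [Finset.mem_range] at hn
      have hcond := lev_cond hE (d := d) (n := n) (by omega)
      by_cases h : (a * p + b * q ∣ d * p ∨ a + q * n = 0) ∧ (a * p + b * q ∣ d * q ∨ b = p * n)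
      · rw [if_pos h, if_pos (hcond.1 h), aeval_monomial, mul_assoc]
        congr 1
        unfold ix
        rw [Finsupp.prod_add_index' (by simp) (by intro a b c; exact pow_add _ _ _),
          Finsupp.prod_single_index (by simp), Finsupp.prod_single_index (by simp), hs0, hs1]
      · rw [if_neg h, if_neg (fun h' => h (hcond.2 h')), map_zero]
    rw [lev_hit x.1 horg, hl, ← hc2]
    constructor
    · intro h
      have := h d le_rfl
      rwa [if_pos rfl] at this
    · intro h l hl'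
      by_cases hld : l = d
      · rw [if_pos hld, hld]
        exact h
      · rw [if_neg hld]
        exact hc1 l (by omega)
  constructor
  · rintro ⟨h1, ⟨h2, h3⟩, h4⟩
    have g0 : ∀ l : Fin (d + 1), (l : ℕ) < e0 → x.1 (0, l) = 0 := by
      intro l hl
      exact h2 l ((lev_ceil hc0).1 hl)
    have g1 : ∀ l : Fin (d + 1), (l : ℕ) < e1 → x.1 (1, l) = 0 := by
      intro l hl
      exact h3 l ((lev_ceil hc0).1 hl)
    refine ⟨?_, h1, (hval g0 g1).1 h4⟩
    intro i
    fin_cases i
    · exact g0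
    · exact g1
  · rintro ⟨h1, h2, h3⟩
    have g0 := h1 0
    have g1 := h1 1
    refine ⟨h2, ⟨?_, ?_⟩, (hval g0 g1).2 h3⟩
    · intro l hl
      exact g0 l ((lev_ceil hc0).2 hl)
    · intro l hl
      exact g1 l ((lev_ceil hc0).2 hl)

private theorem lev_msub {R J : Type*} [CommRing R] (Z : R) (s : Finset J) (f g : J → R) :
    Z * (∑ m ∈ s, f m - ∑ m ∈ s, g m) = ∑ m ∈ s, Z * (f m - g m) := by
  rw [← Finset.sum_sub_distrib, Finset.mul_sum]

private theorem lev_mul (x y : ℤ) (m : M k) :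
    (↑(Lu k ^ x) : M k) * (↑(Lu k ^ y) * m) = ↑(Lu k ^ (x + y)) * m := by
  rw [zpow_add, Units.val_mul, mul_assoc]

end LEVaux

section LEV

variable {k : Type} [Field k] [Algebra k ℂ] {r : ℕ} {a b p q E r' s : ℕ}
  {G : Fin (r + 1) → PS k}

theorem lcv_edge [IsAlgClosed k] (hE : Edv G a b p q E) (hrs : p * s = q * r' + 1) {d : ℕ}
    (hd : 0 < d) (t : Test k) :
    lcv G d t - lcv G d t.zr = twv G a b p q E d t +
      ∑ μ ∈ rtv (edv G a b p q E), bev (a * p + b * q) (p + q)
        (chv 0 p q (a * p + b * q) r' s μ G) 1 0 0 (mlt (edv G a b p q E) μ) d t +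
      bev 0 1 G p q (a + q * E) (b - p * E) d t + bev 0 1 (swv G) q p b a d t := by
  have hp := hE.p0
  have hq := hE.q0
  have hb0 : 0 < b := lt_of_lt_of_le (Nat.mul_pos hE.p0 hE.e0) hE.eb
  have hc0 : 0 < a * p + b * q := by
    have := Nat.mul_pos hb0 hE.q0
    omega
  have hcp : p ≤ a * p + b * q := by
    have h1 : p ≤ p * E := Nat.le_mul_of_pos_right _ hE.e0
    have h2 : b ≤ b * q := Nat.le_mul_of_pos_right _ hE.q0
    have := hE.eb
    omega
  have hcq : q ≤ a * p + b * q := by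
    have h2 : q ≤ b * q := Nat.le_mul_of_pos_left _ hb0
    omega
  -- the local part
  have hloc : ∀ t : Test k, lcv G d t =
      ↑(Lu k ^ (-((2 * d : ℕ) : ℤ))) * mo k (levL G d t) := by
    intro t
    rw [mul_comm]
    rfl
  -- beyond the edge
  have hB : bev 0 1 G p q (a + q * E) (b - p * E) d t =
      ↑(Lu k ^ (-((2 * d : ℕ) : ℤ))) *
        (∑ m ∈ (Finset.Icc 1 d).filter (fun m => (a * p + b * q) * m < p * d),
          mo k (levB G d p q m t) -
        ∑ m ∈ (Finset.Icc 1 d).filter (fun m => (a * p + b * q) * m < p * d),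
          mo k (levB G d p q m t.zr)) := by
    rw [lev_msub]
    unfold bev
    have e1 : (0 + (a + q * E)) * p + (b - p * E) * q = a * p + b * q := by
      obtain ⟨c, hc⟩ : ∃ c, b = p * E + c := ⟨b - p * E, by have := hE.eb; omega⟩
      have h1 : b - p * E = c := by omega
      rw [h1, hc]
      ring
    rw [e1]
    refine Finset.sum_congr rfl fun m _ => ?_
    rw [lev_B_eq, lev_B_eq]
    congr 3
    push_cast
    ring
  -- before the edge
  have hS : bev 0 1 (swv G) q p b a d t =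
      ↑(Lu k ^ (-((2 * d : ℕ) : ℤ))) *
        (∑ m ∈ (Finset.Icc 1 d).filter (fun m => (a * p + b * q) * m < q * d),
          mo k (levS G d p q m t) -
        ∑ m ∈ (Finset.Icc 1 d).filter (fun m => (a * p + b * q) * m < q * d),
          mo k (levS G d p q m t.zr)) := by
    rw [lev_msub]
    unfold bev
    have e1 : (0 + b) * q + a * p = a * p + b * q := by ring
    rw [e1]
    refine Finset.sum_congr rfl fun m _ => ?_
    rw [lev_S_eq, lev_S_eq]
    congr 3
    push_cast
    ring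
  -- the ray
  have hR : ∑ μ ∈ rtv (edv G a b p q E), bev (a * p + b * q) (p + q)
        (chv 0 p q (a * p + b * q) r' s μ G) 1 0 0
          (mlt (edv G a b p q E) μ) d t =
      ↑(Lu k ^ (-((2 * d : ℕ) : ℤ))) *
        (∑ m ∈ (Finset.Icc 1 d).filter (fun m => (a * p + b * q) * m < d),
          mo k (levR G d p q m t) -
        ∑ m ∈ (Finset.Icc 1 d).filter (fun m => (a * p + b * q) * m < d),
          mo k (levR G d p q m t.zr)) := by
    rw [lev_msub]
    have h1 : ∀ m ∈ (Finset.Icc 1 d).filter (fun m => (a * p + b * q) * m < d),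
        (↑(Lu k ^ (-((2 * d : ℕ) : ℤ))) : M k) * (mo k (levR G d p q m t) -
          mo k (levR G d p q m t.zr)) =
        ∑ μ ∈ rtv (edv G a b p q E), ↑(Lu k ^ (-((((p + q : ℕ) : ℤ) - 1) * m + 2 * d))) *
          (dmv (a * p + b * q) (chv 0 p q (a * p + b * q) r' s μ G) 1 0 m d t -
            dmv (a * p + b * q) (chv 0 p q (a * p + b * q) r' s μ G) 1 0 m d t.zr) := by
      intro m hm
      simp only [Finset.mem_filter, Finset.mem_Icc] at hm
      rw [lev_R_eq hE (by omega) hm.2, lev_R_eq hE (by omega) hm.2, lev_msub]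
      refine Finset.sum_congr rfl fun μ hμ => ?_
      have hμ0 : μ ≠ 0 := hE.rtv_ne hμ
      have hr : ∀ t : Test k, rpv 0 G p q μ m d t =
          ↑(Lu k ^ (-((m * (p + q - 1) : ℕ) : ℤ))) *
            dmv (a * p + b * q) (chv 0 p q (a * p + b * q) r' s μ G) 1 0 m d t := by
        intro t
        have := rpv_chv (N := 0) (G := G) hp hq hrs hE.wt
          (by rw [zero_mul, zero_add]; exact hcp) (by rw [zero_mul, zero_add]; exact hcq) hμ0
          (m := m) (d := d) (by omega) (by rw [zero_mul, zero_add]; exact hm.2) t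
        rw [zero_mul, zero_add] at this
        exact this
      rw [hr, hr, ← mul_sub, lev_mul]
      congr 3
      obtain ⟨z, hz⟩ : ∃ z, p + q = z + 1 := ⟨p + q - 1, by omega⟩
      rw [hz]
      push_cast
      ring
    rw [Finset.sum_congr rfl h1, Finset.sum_comm]
    refine Finset.sum_congr rfl fun μ _ => ?_
    unfold bev
    have e1 : (a * p + b * q + 0) * 1 + mlt (edv G a b p q E) μ * 0 =
        a * p + b * q := by ring
    rw [e1, one_mul]
  -- the top level
  have hT : twv G a b p q E d t = ↑(Lu k ^ (-((2 * d : ℕ) : ℤ))) *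
      (mo k (levTT G (a * p + b * q) d p q t) -
        mo k (levTT G (a * p + b * q) d p q t.zr)) := by
    rw [lev_T_eq hE hd, lev_T_eq hE hd, ← mul_sub, lev_mul]
    unfold twv Dlv
    have l0 : (d * p + (a * p + b * q) - 1) / (a * p + b * q) ≤ d := by
      have : ¬ d < (d * p + (a * p + b * q) - 1) / (a * p + b * q) := by
        rw [lev_ceil hc0, not_lt, mul_comm _ d]
        exact Nat.mul_le_mul_left _ hcp
      omega
    have l1 : (d * q + (a * p + b * q) - 1) / (a * p + b * q) ≤ d := by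
      have : ¬ d < (d * q + (a * p + b * q) - 1) / (a * p + b * q) := by
        rw [lev_ceil hc0, not_lt, mul_comm _ d]
        exact Nat.mul_le_mul_left _ hcq
      omega
    congr 3
    omega
  rw [hloc, hloc, lev_part hd hp hq hE.cop hcp t, lev_part hd hp hq hE.cop hcp t.zr, hB, hS, hR,
    hT]
  ring

end LEV

end Pool.Agent.H75.Mono
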