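import Pool.Agent.H75.Idl.I0
import Pool.Agent.H75.Plc.EV2
import Pool.Agent.H75.Plc.SHC
import Pool.Agent.H75.Plc.CHV

/-! # LIY, module ZCV: the chart at a root -/

set_option autoImplicit false

namespace Pool.Agent.H75.Mono

open MvPolynomial Pool.Agent.H39.MonoR

section ZCV1

variable {k : Type} [Field k] [Algebra k ℂ] {N p q r s c : ℕ} {G : PS k}

/-! ### congruences modulo a power of `t` -/

private theorem zcv_dvd_mul {K : ℕ} {a a' b b' : PowerSeries ℂ}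
    (ha : (PowerSeries.X : PowerSeries ℂ) ^ K ∣ a - a')
    (hb : (PowerSeries.X : PowerSeries ℂ) ^ K ∣ b - b') :
    (PowerSeries.X : PowerSeries ℂ) ^ K ∣ a * b - a' * b' := by
  have h : a * b - a' * b' = (a - a') * b + a' * (b - b') := by ring
  rw [h]
  exact dvd_add (ha.mul_right b) (hb.mul_left a')

private theorem zcv_dvd_pow {K : ℕ} {a a' : PowerSeries ℂ}
    (ha : (PowerSeries.X : PowerSeries ℂ) ^ K ∣ a - a') (n : ℕ) :
    (PowerSeries.X : PowerSeries ℂ) ^ K ∣ a ^ n - a' ^ n :=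
  ha.trans (sub_dvd_pow_sub_pow a a' n)

private theorem zcv_coeff {K : ℕ} {a a' : PowerSeries ℂ}
    (ha : (PowerSeries.X : PowerSeries ℂ) ^ K ∣ a - a') {l : ℕ} (hl : l < K) :
    PowerSeries.coeff l a = PowerSeries.coeff l a' := by
  have h := PowerSeries.X_pow_dvd_iff.1 ha l hl
  rwa [map_sub, sub_eq_zero] at h

private theorem zcv_dvd_of {K : ℕ} {a a' : PowerSeries ℂ}
    (h : ∀ l, l < K → PowerSeries.coeff l a = PowerSeries.coeff l a') :
    (PowerSeries.X : PowerSeries ℂ) ^ K ∣ a - a' := by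
  rw [PowerSeries.X_pow_dvd_iff]
  intro l hl
  rw [map_sub, h l hl, sub_self]

/-- the condition in terms of a series which is known modulo `t^K` -/
private theorem zcv_hit {K a d : ℕ} (H : PS k) {φ : Fin 2 × Fin (d + 1) → ℂ} (hφ : org φ = 0)
    {S S' : PowerSeries ℂ}
    (h : arc φ 0 ^ N * ev H (arc φ 0) (arc φ 1) = PowerSeries.X ^ a * S)
    (hK : a + K = d + 1) (hS : (PowerSeries.X : PowerSeries ℂ) ^ K ∣ S - S') (hK0 : 0 < K)
    (v : ℂ) : Hit (X 0 ^ N * tp d H) d φ v ↔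
      ∀ l, l < K → PowerSeries.coeff l S' = if l + 1 = K then v else 0 := by
  rw [hit_ev N H φ hφ v, h]
  constructor
  · intro h1 l hl
    have h2 := h1 (a + l) (by omega)
    rw [PowerSeries.coeff_X_pow_mul', if_pos (by omega : a ≤ a + l), Nat.add_sub_cancel_left,
      zcv_coeff hS hl] at h2
    rw [h2]
    by_cases hlk : l + 1 = K
    · rw [if_pos (by omega), if_pos hlk]
    · rw [if_neg (by omega), if_neg hlk]
  · intro h1 l hl
    rw [PowerSeries.coeff_X_pow_mul']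
    by_cases hal : a ≤ l
    · have h2 := h1 (l - a) (by omega)
      rw [if_pos hal, zcv_coeff hS (by omega : l - a < K), h2]
      by_cases hlk : l = d
      · rw [if_pos (by omega), if_pos hlk]
      · rw [if_neg (by omega), if_neg hlk]
    · rw [if_neg hal, if_neg (by omega)]

/-! ### shifted arcs -/

/-- the arc with the coefficients of `ψ` moved by `e` -/
private def zcvU {K M : ℕ} (e : Fin 2 → ℕ) (ψ : Fin 2 × Fin K → ℂ) : Fin 2 × Fin M → ℂ :=
  fun x => if h : e x.1 ≤ x.2 ∧ (x.2 : ℕ) - e x.1 < K then ψ (x.1, ⟨x.2 - e x.1, h.2⟩) else 0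

private theorem zcv_arcU {K M : ℕ} {e : Fin 2 → ℕ} (ψ : Fin 2 × Fin K → ℂ) (i : Fin 2)
    (h : e i + K ≤ M) :
    arc (zcvU (M := M) e ψ) i = PowerSeries.X ^ (e i) * arc ψ i := by
  ext l
  rw [coeff_arc, PowerSeries.coeff_X_pow_mul', coeff_arc]
  unfold zcvU
  by_cases h1 : l < M
  · rw [dif_pos h1]
    by_cases h2 : e i ≤ l
    · rw [if_pos h2]
      by_cases h3 : l - e i < K
      · rw [dif_pos h3, dif_pos ⟨h2, h3⟩]
      · rw [dif_neg h3, dif_neg (fun h4 => h3 h4.2)]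
    · rw [if_neg h2, dif_neg (fun h4 => h2 h4.1)]
  · rw [dif_neg h1, if_pos (by omega), dif_neg (by omega)]

private theorem zcv_pmapU {K M : ℕ} (e : Fin 2 → ℕ) :
    PMap k (fun ψ : Fin 2 × Fin K → ℂ => zcvU (M := M) e ψ) := by
  refine PMap.pi fun x => ?_
  unfold zcvU
  by_cases h : e x.1 ≤ x.2 ∧ (x.2 : ℕ) - e x.1 < K
  · simp only [dif_pos h]
    exact PFun.apply (k := k) _
  · simp only [dif_neg h]
    exact PFun.zero

private theorem zcv_arcS {K M : ℕ} {e : Fin 2 → ℕ} (φ : Fin 2 × Fin M → ℂ) (i : Fin 2)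
    (h : e i + K ≤ M) (h0 : ∀ l : Fin M, (l : ℕ) < e i → φ (i, l) = 0) :
    ∃ R : PowerSeries ℂ, arc φ i = PowerSeries.X ^ (e i) * R ∧
      (PowerSeries.X : PowerSeries ℂ) ^ K ∣ R - arc (sft (K := K) e φ) i := by
  refine ⟨PowerSeries.mk fun l => PowerSeries.coeff (l + e i) (arc φ i), ?_, ?_⟩
  · ext l
    rw [PowerSeries.coeff_X_pow_mul']
    by_cases h2 : e i ≤ l
    · rw [if_pos h2, PowerSeries.coeff_mk, Nat.sub_add_cancel h2]
    · rw [if_neg h2, coeff_arc]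
      by_cases h1 : l < M
      · rw [dif_pos h1]
        exact h0 ⟨l, h1⟩ (not_le.1 h2)
      · rw [dif_neg h1]
  · refine zcv_dvd_of fun l hl => ?_
    rw [PowerSeries.coeff_mk, coeff_arc, coeff_arc, dif_pos hl, dif_pos (by omega)]
    unfold sft
    simp only
    rw [dif_pos (by omega)]
    congr 2
    exact Fin.ext (Nat.add_comm _ _)

/-! ### the toric map -/

/-- `X^p (μ + Y)^r` -/
private noncomputable def zcvP (p r : ℕ) (μ : k) : MvPolynomial (Fin 2) k :=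
  X 0 ^ p * (C μ + X 1) ^ r

private theorem zcv_evalP {K : ℕ} (p r : ℕ) (μ : k) (ψ : Fin 2 × Fin K → ℂ) :
    arcEval k ψ (zcvP p r μ) =
      arc ψ 0 ^ p * (PowerSeries.C (algebraMap k ℂ μ) + arc ψ 1) ^ r := by
  unfold arcEval zcvP
  rw [map_mul, map_pow, map_pow, map_add, aeval_X, aeval_X, aeval_C,
    PowerSeries.algebraMap_apply]

/-- the toric map on truncated arcs -/
private noncomputable def zcvF {K : ℕ} (p q r s : ℕ) (μ : k) (ψ : Fin 2 × Fin K → ℂ) :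
    Fin 2 × Fin K → ℂ :=
  fun x => PowerSeries.coeff (x.2 : ℕ) (arcEval k ψ (![zcvP p r μ, zcvP q s μ] x.1))

private theorem zcv_pmapF {K : ℕ} (p q r s : ℕ) (μ : k) :
    PMap k (fun ψ : Fin 2 × Fin K → ℂ => zcvF p q r s μ ψ) := by
  refine PMap.pi fun x => ?_
  exact PFun.coeff_arcEval (x.2 : ℕ) _ PMap.id'

private theorem zcv_arcF {K : ℕ} (p q r s : ℕ) (μ : k) (ψ : Fin 2 × Fin K → ℂ) (i : Fin 2) :
    (PowerSeries.X : PowerSeries ℂ) ^ K ∣ arcEval k ψ (![zcvP p r μ, zcvP q s μ] i) -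
      arc (zcvF p q r s μ ψ) i := by
  refine zcv_dvd_of fun l hl => ?_
  rw [coeff_arc, dif_pos hl]
  rfl

private theorem zcv_arc_ext {K : ℕ} {φ ψ : Fin 2 × Fin K → ℂ}
    (h : ∀ i, (PowerSeries.X : PowerSeries ℂ) ^ K ∣ arc φ i - arc ψ i) : φ = ψ := by
  funext x
  have h1 := zcv_coeff (h x.1) x.2.2
  rw [coeff_arc, coeff_arc, dif_pos x.2.2, dif_pos x.2.2] at h1
  exact h1

/-- the truncated arc with given components modulo `t^K` -/
private theorem zcv_exists {K : ℕ} (a : Fin 2 → PowerSeries ℂ) :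
    ∃ ψ : Fin 2 × Fin K → ℂ, ∀ i, (PowerSeries.X : PowerSeries ℂ) ^ K ∣ a i - arc ψ i := by
  refine ⟨fun x => PowerSeries.coeff (x.2 : ℕ) (a x.1), fun i => zcv_dvd_of fun l hl => ?_⟩
  rw [coeff_arc, dif_pos hl]

/-- cancellation of units -/
private theorem zcv_cancel {K : ℕ} {a b u : PowerSeries ℂ}
    (hu : PowerSeries.constantCoeff u ≠ 0)
    (h : (PowerSeries.X : PowerSeries ℂ) ^ K ∣ a * u - b * u) :
    (PowerSeries.X : PowerSeries ℂ) ^ K ∣ a - b := by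
  have h1 : a - b = (a * u - b * u) * u⁻¹ := by
    rw [sub_mul, mul_assoc, mul_assoc, PowerSeries.mul_inv_cancel u hu, mul_one, mul_one]
  rw [h1]
  exact h.mul_right _

private theorem zcv_trans {K : ℕ} {a b c : PowerSeries ℂ}
    (h : (PowerSeries.X : PowerSeries ℂ) ^ K ∣ a - b)
    (h' : (PowerSeries.X : PowerSeries ℂ) ^ K ∣ b - c) :
    (PowerSeries.X : PowerSeries ℂ) ^ K ∣ a - c := by
  have e : a - c = (a - b) + (b - c) := by ring
  rw [e]
  exact dvd_add h h'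

private theorem zcv_symm {K : ℕ} {a b : PowerSeries ℂ}
    (h : (PowerSeries.X : PowerSeries ℂ) ^ K ∣ a - b) :
    (PowerSeries.X : PowerSeries ℂ) ^ K ∣ b - a := by
  rw [← neg_sub]
  exact (dvd_neg).2 h

/-- the condition for the original arc -/
private theorem zcv_hitW {u v cc K d : ℕ} (hu : 0 < u) (hv : 0 < v)
    {W : PowerSeries ℂ → PowerSeries ℂ → PowerSeries ℂ}
    (hW : ∀ U V, ev G (PowerSeries.X ^ u * U) (PowerSeries.X ^ v * V) =
      PowerSeries.X ^ cc * W U V)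
    (hW' : ∀ (n : ℕ) (U V U' V' : PowerSeries ℂ),
      (∀ l, l ≤ n → PowerSeries.coeff l U = PowerSeries.coeff l U') →
      (∀ l, l ≤ n → PowerSeries.coeff l V = PowerSeries.coeff l V') →
      PowerSeries.coeff n (W U V) = PowerSeries.coeff n (W U' V'))
    (hK : N * u + cc + K = d + 1) (hK0 : 0 < K) {φ : Fin 2 × Fin (d + 1) → ℂ}
    {R0 R1 S0 S1 : PowerSeries ℂ} (h0 : arc φ 0 = PowerSeries.X ^ u * R0)
    (h1 : arc φ 1 = PowerSeries.X ^ v * R1)
    (hS0 : (PowerSeries.X : PowerSeries ℂ) ^ K ∣ R0 - S0)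
    (hS1 : (PowerSeries.X : PowerSeries ℂ) ^ K ∣ R1 - S1) (w : ℂ) :
    Hit (X 0 ^ N * tp d G) d φ w ↔
      ∀ l, l < K → PowerSeries.coeff l (S0 ^ N * W S0 S1) = if l + 1 = K then w else 0 := by
  refine zcv_hit G ?_ (S := R0 ^ N * W R0 R1) ?_ hK ?_ hK0 w
  · funext i
    have h2 : PowerSeries.coeff 0 (arc φ i) = 0 := by
      fin_cases i
      · show PowerSeries.coeff 0 (arc φ 0) = 0
        rw [h0, PowerSeries.coeff_X_pow_mul', if_neg (by omega)]
      · show PowerSeries.coeff 0 (arc φ 1) = 0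
        rw [h1, PowerSeries.coeff_X_pow_mul', if_neg (by omega)]
    rw [coeff_arc, dif_pos (Nat.succ_pos d)] at h2
    exact h2
  · rw [h0, h1, hW]
    ring
  · refine zcv_dvd_mul (zcv_dvd_pow hS0 N) (zcv_dvd_of fun l hl => ?_)
    exact hW' l _ _ _ _ (fun l' hl' => zcv_coeff hS0 (by omega))
      (fun l' hl' => zcv_coeff hS1 (by omega))

/-- the condition for the arc in the chart -/
private theorem zcv_hitC {m K d : ℕ} (H : PS k) (hm : 0 < m) (hK : N * m + K = d + 1)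
    (hK0 : 0 < K) {φ : Fin 2 × Fin (d + 1) → ℂ}
    {R0 S0 S1 : PowerSeries ℂ} (h0 : arc φ 0 = PowerSeries.X ^ m * R0)
    (h1 : PowerSeries.constantCoeff (arc φ 1) = 0)
    (hS0 : (PowerSeries.X : PowerSeries ℂ) ^ K ∣ R0 - S0)
    (hS1 : (PowerSeries.X : PowerSeries ℂ) ^ K ∣ arc φ 1 - S1) (w : ℂ) :
    Hit (X 0 ^ N * tp d H) d φ w ↔
      ∀ l, l < K → PowerSeries.coeff l (S0 ^ N * ev H (PowerSeries.X ^ m * S0) S1) =
        if l + 1 = K then w else 0 := by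
  have hX : ∀ R : PowerSeries ℂ, PowerSeries.constantCoeff (PowerSeries.X ^ m * R) = 0 := by
    intro R
    rw [map_mul, map_pow, PowerSeries.constantCoeff_X, zero_pow hm.ne', zero_mul]
  have hS1' : PowerSeries.constantCoeff S1 = 0 := by
    rw [← PowerSeries.coeff_zero_eq_constantCoeff_apply, ← zcv_coeff hS1 hK0,
      PowerSeries.coeff_zero_eq_constantCoeff_apply, h1]
  refine zcv_hit H ?_ (S := R0 ^ N * ev H (PowerSeries.X ^ m * R0) (arc φ 1)) ?_ hK ?_ hK0 w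
  · funext i
    have h2 : PowerSeries.coeff 0 (arc φ i) = 0 := by
      fin_cases i
      · show PowerSeries.coeff 0 (arc φ 0) = 0
        rw [h0, PowerSeries.coeff_X_pow_mul', if_neg (by omega)]
      · show PowerSeries.coeff 0 (arc φ 1) = 0
        rw [PowerSeries.coeff_zero_eq_constantCoeff_apply, h1]
    rw [coeff_arc, dif_pos (Nat.succ_pos d)] at h2
    exact h2
  · rw [h0]
    ring
  · refine zcv_dvd_mul (zcv_dvd_pow hS0 N) (zcv_dvd_of fun l hl => ?_)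
    refine coeff_ev_congr (hX _) h1 (hX _) hS1' H (fun l' hl' => ?_)
      (fun l' hl' => zcv_coeff hS1 (by omega))
    have h3 : (PowerSeries.X : PowerSeries ℂ) ^ K ∣
        PowerSeries.X ^ m * R0 - PowerSeries.X ^ m * S0 := by
      rw [← mul_sub]
      exact hS0.mul_left _
    exact zcv_coeff h3 (by omega)

/-- the transform in the chart -/
private theorem zcv_chart (hp : 0 < p) (hq : 0 < q)
    (hc : ∀ i j, cf G i j ≠ 0 → c ≤ i * p + j * q) {μ : k} {m : ℕ} (hm : 0 < m)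
    {W : PowerSeries ℂ → PowerSeries ℂ → PowerSeries ℂ}
    (hW : ∀ U V, ev G (PowerSeries.X ^ (p * m) * U) (PowerSeries.X ^ (q * m) * V) =
      PowerSeries.X ^ (c * m) * W U V) {U Y : PowerSeries ℂ}
    (hY : PowerSeries.constantCoeff Y = 0) :
    U ^ (N * p + c) * ev (chd N p q c r s μ G) (PowerSeries.X ^ m * U) Y =
      (U ^ p * (PowerSeries.C (algebraMap k ℂ μ) + Y) ^ r) ^ N *
        W (U ^ p * (PowerSeries.C (algebraMap k ℂ μ) + Y) ^ r)
          (U ^ q * (PowerSeries.C (algebraMap k ℂ μ) + Y) ^ s) := by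
  have hX : PowerSeries.constantCoeff (PowerSeries.X ^ m * U) = 0 := by
    rw [map_mul, map_pow, PowerSeries.constantCoeff_X, zero_pow hm.ne', zero_mul]
  have h1 := congrArg (fun H => ev H (PowerSeries.X ^ m * U) Y)
    (chd_spec (r := r) (s := s) (N := N) hp hq (μ := μ) hc)
  have ht : ∀ i, MvPowerSeries.constantCoeff (tov p q r s μ i) = 0 := by
    intro i
    fin_cases i
    · show MvPowerSeries.constantCoeff (MvPowerSeries.X 0 ^ p *
        (MvPowerSeries.C μ + MvPowerSeries.X 1) ^ r) = 0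
      rw [map_mul, map_pow, MvPowerSeries.constantCoeff_X, zero_pow hp.ne', zero_mul]
    · show MvPowerSeries.constantCoeff (MvPowerSeries.X 0 ^ q *
        (MvPowerSeries.C μ + MvPowerSeries.X 1) ^ s) = 0
      rw [map_mul, map_pow, MvPowerSeries.constantCoeff_X, zero_pow hq.ne', zero_mul]
  have hmu : ev (MvPowerSeries.C μ + MvPowerSeries.X 1 : PS k) (PowerSeries.X ^ m * U) Y =
      PowerSeries.C (algebraMap k ℂ μ) + Y := by
    rw [ev_add hX hY, ev_C hX hY, ev_X1 hX hY]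
  have h0' : ev (tov p q r s μ 0) (PowerSeries.X ^ m * U) Y = PowerSeries.X ^ (p * m) *
      (U ^ p * (PowerSeries.C (algebraMap k ℂ μ) + Y) ^ r) := by
    show ev (MvPowerSeries.X 0 ^ p * (MvPowerSeries.C μ + MvPowerSeries.X 1) ^ r)
      (PowerSeries.X ^ m * U) Y = _
    rw [ev_mul hX hY, ev_pow hX hY, ev_pow hX hY, ev_X0 hX hY, hmu]
    ring
  have h1' : ev (tov p q r s μ 1) (PowerSeries.X ^ m * U) Y = PowerSeries.X ^ (q * m) *
      (U ^ q * (PowerSeries.C (algebraMap k ℂ μ) + Y) ^ s) := by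
    show ev (MvPowerSeries.X 0 ^ q * (MvPowerSeries.C μ + MvPowerSeries.X 1) ^ s)
      (PowerSeries.X ^ m * U) Y = _
    rw [ev_mul hX hY, ev_pow hX hY, ev_pow hX hY, ev_X0 hX hY, hmu]
    ring
  rw [ev_mul hX hY, ev_mul hX hY, ev_pow hX hY, ev_pow hX hY, ev_X0 hX hY, hmu,
    ev_subst hX hY ht, h0', h1', hW] at h1
  have h2 : (PowerSeries.X : PowerSeries ℂ) ^ (c * m) ≠ 0 := pow_ne_zero _ PowerSeries.X_ne_zero
  refine mul_left_cancel₀ h2 ?_
  calc (PowerSeries.X : PowerSeries ℂ) ^ (c * m) * (U ^ (N * p + c) *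
        ev (chd N p q c r s μ G) (PowerSeries.X ^ m * U) Y)
      = U ^ (N * p) * ((PowerSeries.X ^ m * U) ^ c *
        ev (chd N p q c r s μ G) (PowerSeries.X ^ m * U) Y) := by ring
    _ = _ := by rw [h1]; ring

private theorem zcv_ne {K : ℕ} (hK : 0 < K) {a b : PowerSeries ℂ}
    (h : (PowerSeries.X : PowerSeries ℂ) ^ K ∣ a - b) :
    PowerSeries.constantCoeff a = PowerSeries.constantCoeff b := by
  rw [← PowerSeries.coeff_zero_eq_constantCoeff_apply,
    ← PowerSeries.coeff_zero_eq_constantCoeff_apply, zcv_coeff h hK]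

private theorem zcv_pfun0 {K : ℕ} {E : Type} [Aff E] (i : Fin 2) :
    PFun k (fun y : (Fin 2 × Fin K → ℂ) × E => PowerSeries.constantCoeff (arc y.1 i)) := by
  have h : ∀ y : (Fin 2 × Fin K → ℂ) × E, PowerSeries.constantCoeff (arc y.1 i) =
      if h : 0 < K then y.1 (i, ⟨0, h⟩) else 0 := by
    intro y
    rw [← PowerSeries.coeff_zero_eq_constantCoeff_apply, coeff_arc]
  simp only [h]
  by_cases hK : 0 < K
  · simp only [dif_pos hK]
    exact PFun.comp (f := fun ψ : Fin 2 × Fin K → ℂ => ψ (i, ⟨0, hK⟩))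
      (PFun.apply (k := k) _) PMap.fst
  · simp only [dif_neg hK]
    exact PFun.zero

private theorem zcv_bij {K : ℕ} (hK : 0 < K) (hrs : p * s = q * r + 1) {μ : k} (hμ : μ ≠ 0)
    {E : Type} {W : Set E} {P P' : (Fin 2 × Fin K → ℂ) → E → Prop}
    (hPP : ∀ ψ w, PowerSeries.constantCoeff (arc ψ 1) = 0 →
      (P (zcvF p q r s μ ψ) w ↔ P' ψ w)) :
    Set.BijOn (fun y : (Fin 2 × Fin K → ℂ) × E => (zcvF p q r s μ y.1, y.2))
      {y | y.2 ∈ W ∧ PowerSeries.constantCoeff (arc y.1 0) ≠ 0 ∧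
        PowerSeries.constantCoeff (arc y.1 1) = 0 ∧ P' y.1 y.2}
      {y | y.2 ∈ W ∧ PowerSeries.constantCoeff (arc y.1 0) ≠ 0 ∧
        PowerSeries.constantCoeff (arc y.1 1) ≠ 0 ∧
        PowerSeries.constantCoeff (arc y.1 1) ^ p = algebraMap k ℂ μ *
          PowerSeries.constantCoeff (arc y.1 0) ^ q ∧ P y.1 y.2} := by
  have hμ' : algebraMap k ℂ μ ≠ 0 := fun h =>
    hμ ((algebraMap k ℂ).injective (by rw [h, map_zero]))
  -- the components
  have hF0 : ∀ ψ : Fin 2 × Fin K → ℂ, (PowerSeries.X : PowerSeries ℂ) ^ K ∣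
      arc ψ 0 ^ p * (PowerSeries.C (algebraMap k ℂ μ) + arc ψ 1) ^ r -
        arc (zcvF p q r s μ ψ) 0 := by
    intro ψ
    have h := zcv_arcF p q r s μ ψ 0
    simp only [Matrix.cons_val_zero] at h
    rwa [zcv_evalP] at h
  have hF1 : ∀ ψ : Fin 2 × Fin K → ℂ, (PowerSeries.X : PowerSeries ℂ) ^ K ∣
      arc ψ 0 ^ q * (PowerSeries.C (algebraMap k ℂ μ) + arc ψ 1) ^ s -
        arc (zcvF p q r s μ ψ) 1 := by
    intro ψ
    have h := zcv_arcF p q r s μ ψ 1
    simp only [Matrix.cons_val_one, Matrix.cons_val_zero] at h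
    rwa [zcv_evalP] at h
  have hc0 : ∀ ψ : Fin 2 × Fin K → ℂ, PowerSeries.constantCoeff (arc ψ 1) = 0 →
      PowerSeries.constantCoeff (arc (zcvF p q r s μ ψ) 0) =
        PowerSeries.constantCoeff (arc ψ 0) ^ p * (algebraMap k ℂ μ) ^ r := by
    intro ψ h
    rw [← zcv_ne hK (hF0 ψ), map_mul, map_pow, map_pow, map_add, h, add_zero,
      PowerSeries.constantCoeff_C]
  have hc1 : ∀ ψ : Fin 2 × Fin K → ℂ, PowerSeries.constantCoeff (arc ψ 1) = 0 →
      PowerSeries.constantCoeff (arc (zcvF p q r s μ ψ) 1) =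
        PowerSeries.constantCoeff (arc ψ 0) ^ q * (algebraMap k ℂ μ) ^ s := by
    intro ψ h
    rw [← zcv_ne hK (hF1 ψ), map_mul, map_pow, map_pow, map_add, h, add_zero,
      PowerSeries.constantCoeff_C]
  refine ⟨?_, ?_, ?_⟩
  · rintro ⟨ψ, w⟩ ⟨h1, h2, h3, h4⟩
    simp only at h1 h2 h3 h4
    refine ⟨h1, ?_, ?_, ?_, ?_⟩
    · simp only
      rw [hc0 ψ h3]
      exact mul_ne_zero (pow_ne_zero _ h2) (pow_ne_zero _ hμ')
    · simp only
      rw [hc1 ψ h3]
      exact mul_ne_zero (pow_ne_zero _ h2) (pow_ne_zero _ hμ')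
    · simp only
      rw [hc0 ψ h3, hc1 ψ h3, mul_pow, mul_pow, ← pow_mul, ← pow_mul, ← pow_mul, ← pow_mul,
        Nat.mul_comm s p, hrs, Nat.mul_comm r q, Nat.mul_comm q p]
      ring
    · simp only
      exact (hPP ψ w h3).2 h4
  · rintro ⟨ψ, w⟩ ⟨h1, h2, h3, h4⟩ ⟨ψ', w'⟩ ⟨h1', h2', h3', h4'⟩ heq
    simp only [Prod.mk.injEq] at heq h1 h2 h3 h4 h1' h2' h3' h4'
    obtain ⟨he, hw⟩ := heq
    refine Prod.ext ?_ hw
    simp only
    set U := arc ψ 0 with hU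
    set Y := arc ψ 1 with hY
    set U' := arc ψ' 0 with hU'
    set Y' := arc ψ' 1 with hY'
    set C' := PowerSeries.C (algebraMap k ℂ μ) with hC'
    have e0 : (PowerSeries.X : PowerSeries ℂ) ^ K ∣ U ^ p * (C' + Y) ^ r -
        U' ^ p * (C' + Y') ^ r := by
      refine zcv_trans (hF0 ψ) ?_
      rw [he]
      exact zcv_symm (hF0 ψ')
    have e1 : (PowerSeries.X : PowerSeries ℂ) ^ K ∣ U ^ q * (C' + Y) ^ s -
        U' ^ q * (C' + Y') ^ s := by
      refine zcv_trans (hF1 ψ) ?_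
      rw [he]
      exact zcv_symm (hF1 ψ')
    have hcY : PowerSeries.constantCoeff (C' + Y) = algebraMap k ℂ μ := by
      rw [map_add, h3, add_zero, hC', PowerSeries.constantCoeff_C]
    have i0 : ∀ U Y : PowerSeries ℂ, (C' + Y) * (U ^ p * (C' + Y) ^ r) ^ q =
        (U ^ q * (C' + Y) ^ s) ^ p := by
      intro U Y
      calc (C' + Y) * (U ^ p * (C' + Y) ^ r) ^ q = U ^ (p * q) * (C' + Y) ^ (q * r + 1) := by ring
        _ = _ := by rw [← hrs]; ring
    have i1 : ∀ U Y : PowerSeries ℂ, U * (U ^ q * (C' + Y) ^ s) ^ r =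
        (U ^ p * (C' + Y) ^ r) ^ s := by
      intro U Y
      calc U * (U ^ q * (C' + Y) ^ s) ^ r = U ^ (q * r + 1) * (C' + Y) ^ (s * r) := by ring
        _ = _ := by rw [← hrs]; ring
    have f1 : (PowerSeries.X : PowerSeries ℂ) ^ K ∣ Y - Y' := by
      have g1 : (PowerSeries.X : PowerSeries ℂ) ^ K ∣
          (C' + Y) * (U ^ p * (C' + Y) ^ r) ^ q - (C' + Y') * (U ^ p * (C' + Y) ^ r) ^ q := by
        rw [i0 U Y]
        refine zcv_trans (zcv_dvd_pow e1 p) ?_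
        rw [← i0 U' Y', ← mul_sub]
        exact (zcv_symm (zcv_dvd_pow e0 q)).mul_left _
      have g2 := zcv_cancel (u := (U ^ p * (C' + Y) ^ r) ^ q) (by
        rw [map_pow, map_mul, map_pow, map_pow, hcY]
        exact pow_ne_zero _ (mul_ne_zero (pow_ne_zero _ h2) (pow_ne_zero _ hμ'))) g1
      have g3 : C' + Y - (C' + Y') = Y - Y' := by ring
      rwa [g3] at g2
    have f0 : (PowerSeries.X : PowerSeries ℂ) ^ K ∣ U - U' := by
      have g1 : (PowerSeries.X : PowerSeries ℂ) ^ K ∣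
          U * (U ^ q * (C' + Y) ^ s) ^ r - U' * (U ^ q * (C' + Y) ^ s) ^ r := by
        rw [i1 U Y]
        refine zcv_trans (zcv_dvd_pow e0 s) ?_
        rw [← i1 U' Y', ← mul_sub]
        exact (zcv_symm (zcv_dvd_pow e1 r)).mul_left _
      exact zcv_cancel (u := (U ^ q * (C' + Y) ^ s) ^ r) (by
        rw [map_pow, map_mul, map_pow, map_pow, hcY]
        exact pow_ne_zero _ (mul_ne_zero (pow_ne_zero _ h2) (pow_ne_zero _ hμ'))) g1
    refine zcv_arc_ext fun i => ?_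
    fin_cases i
    · exact f0
    · exact f1
  · rintro ⟨χ, w⟩ ⟨h1, h2, h3, h4, h5⟩
    simp only at h1 h2 h3 h4 h5
    set U := arc χ 0 with hU
    set V := arc χ 1 with hV
    set C' := PowerSeries.C (algebraMap k ℂ μ) with hC'
    have hUi : U * U⁻¹ = 1 := PowerSeries.mul_inv_cancel U h2
    have hVi : V * V⁻¹ = 1 := PowerSeries.mul_inv_cancel V h3
    obtain ⟨ψ, hψ⟩ := zcv_exists (K := K) ![U ^ s * V⁻¹ ^ r, V ^ p * U⁻¹ ^ q - C']
    have k0 : (PowerSeries.X : PowerSeries ℂ) ^ K ∣ arc ψ 0 - U ^ s * V⁻¹ ^ r := by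
      have h := zcv_symm (hψ 0)
      simpa using h
    have k1 : (PowerSeries.X : PowerSeries ℂ) ^ K ∣ arc ψ 1 - (V ^ p * U⁻¹ ^ q - C') := by
      have h := zcv_symm (hψ 1)
      simpa using h
    have k1' : (PowerSeries.X : PowerSeries ℂ) ^ K ∣ C' + arc ψ 1 - V ^ p * U⁻¹ ^ q := by
      have e : C' + arc ψ 1 - V ^ p * U⁻¹ ^ q = arc ψ 1 - (V ^ p * U⁻¹ ^ q - C') := by ring
      rw [e]
      exact k1
    have cU : PowerSeries.constantCoeff U⁻¹ = (PowerSeries.constantCoeff U)⁻¹ :=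
      PowerSeries.constantCoeff_inv U
    have cV : PowerSeries.constantCoeff V⁻¹ = (PowerSeries.constantCoeff V)⁻¹ :=
      PowerSeries.constantCoeff_inv V
    have z0 : PowerSeries.constantCoeff (arc ψ 0) ≠ 0 := by
      rw [zcv_ne hK k0, map_mul, map_pow, map_pow, cV]
      exact mul_ne_zero (pow_ne_zero _ h2) (pow_ne_zero _ (inv_ne_zero h3))
    have z1 : PowerSeries.constantCoeff (arc ψ 1) = 0 := by
      rw [zcv_ne hK k1, map_sub, map_mul, map_pow, map_pow, cU, h4, hC',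
        PowerSeries.constantCoeff_C, mul_assoc, ← mul_pow, mul_inv_cancel₀ h2, one_pow, mul_one,
        sub_self]
    have hF : zcvF p q r s μ ψ = χ := by
      refine zcv_arc_ext fun i => ?_
      fin_cases i
      · show (PowerSeries.X : PowerSeries ℂ) ^ K ∣ arc (zcvF p q r s μ ψ) 0 - U
        refine zcv_trans (zcv_symm (hF0 ψ)) ?_
        refine zcv_trans (zcv_dvd_mul (zcv_dvd_pow k0 p) (zcv_dvd_pow k1' r)) ?_
        have e : (U ^ s * V⁻¹ ^ r) ^ p * (V ^ p * U⁻¹ ^ q) ^ r = U := by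
          calc (U ^ s * V⁻¹ ^ r) ^ p * (V ^ p * U⁻¹ ^ q) ^ r
              = U ^ (p * s) * U⁻¹ ^ (q * r) * (V * V⁻¹) ^ (p * r) := by ring
            _ = U * (U * U⁻¹) ^ (q * r) * (V * V⁻¹) ^ (p * r) := by rw [hrs]; ring
            _ = U := by rw [hUi, hVi, one_pow, one_pow, mul_one, mul_one]
        rw [e, sub_self]
        exact dvd_zero _
      · show (PowerSeries.X : PowerSeries ℂ) ^ K ∣ arc (zcvF p q r s μ ψ) 1 - V
        refine zcv_trans (zcv_symm (hF1 ψ)) ?_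
        refine zcv_trans (zcv_dvd_mul (zcv_dvd_pow k0 q) (zcv_dvd_pow k1' s)) ?_
        have e : (U ^ s * V⁻¹ ^ r) ^ q * (V ^ p * U⁻¹ ^ q) ^ s = V := by
          calc (U ^ s * V⁻¹ ^ r) ^ q * (V ^ p * U⁻¹ ^ q) ^ s
              = V ^ (p * s) * V⁻¹ ^ (q * r) * (U * U⁻¹) ^ (q * s) := by ring
            _ = V * (V * V⁻¹) ^ (q * r) * (U * U⁻¹) ^ (q * s) := by rw [hrs]; ring
            _ = V := by rw [hUi, hVi, one_pow, one_pow, mul_one, mul_one]
        rw [e, sub_self]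
        exact dvd_zero _
    refine ⟨(ψ, w), ⟨h1, z0, z1, (hPP ψ w z1).1 ?_⟩, ?_⟩
    · rw [hF]
      exact h5
    · simp only
      rw [hF]
end ZCV1

section ZCV

variable {k : Type} [Field k] [Algebra k ℂ] {r : ℕ} {N p q r' s c : ℕ} {G : Fin (r + 1) → PS k}

theorem rpv_chv (hp : 0 < p) (hq : 0 < q) (hrs : p * s = q * r' + 1)
    (hc : ∀ e i j, cf (G e) i j ≠ 0 → c ≤ i * p + j * q) (hNp : p ≤ N * p + c)
    (hNq : q ≤ N * p + c) {μ : k} (hμ : μ ≠ 0) {m d : ℕ} (hm : 0 < m)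
    (hd : (N * p + c) * m < d) (t : Test k) :
    rpv N G p q μ m d t = ↑(Lu k ^ (-((m * (p + q - 1) : ℕ) : ℤ))) *
      dmv (N * p + c) (chv N p q c r' s μ G) 1 0 m d t := by
  obtain ⟨K, hK⟩ : ∃ K, (N * p + c) * m + K = d + 1 := ⟨d + 1 - (N * p + c) * m, by omega⟩
  have hK0 : 0 < K := by omega
  have hpm : p * m ≤ (N * p + c) * m := Nat.mul_le_mul_right m hNp
  have hqm : q * m ≤ (N * p + c) * m := Nat.mul_le_mul_right m hNq
  have hmm : 1 * m ≤ (N * p + c) * m := Nat.mul_le_mul_right m (by omega)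
  have hpm0 : 0 < p * m := Nat.mul_pos hp hm
  have hqm0 : 0 < q * m := Nat.mul_pos hq hm
  choose W hW hWm hW' using fun g : Fin (r + 1) => ev_wt (c := c * m) hpm0 hqm0 (G g)
    (fun i j hij => by
      calc c * m ≤ (i * p + j * q) * m := Nat.mul_le_mul_right m (hc g i j hij)
        _ = i * (p * m) + j * (q * m) := by ring)
  let v : Fin (r + 1) → ℂ → ℂ := fun g w => if g = 0 then w else 0
  have hKW : N * (p * m) + c * m + K = d + 1 := by rw [← hK]; ring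
  -- the two sets
  let e : Fin 2 → ℕ := ![p * m, q * m]
  let e' : Fin 2 → ℕ := ![m, 0]
  have he0 : e 0 = p * m := rfl
  have he1 : e 1 = q * m := rfl
  have he0' : e' 0 = m := rfl
  have he1' : e' 1 = 0 := rfl
  have hee : ∀ i, e i + K ≤ d + 1 := by
    intro i
    fin_cases i
    · show p * m + K ≤ d + 1
      omega
    · show q * m + K ≤ d + 1
      omega
  have hee' : ∀ i, e' i + K ≤ d + 1 := by
    intro i
    fin_cases i
    · show m + K ≤ d + 1
      omega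
    · show 0 + K ≤ d + 1
      omega
  let P : (Fin 2 × Fin K → ℂ) → t.E → Prop := fun ψ w => ∀ g,
    Hit (X 0 ^ N * tp d (G g)) d (zcvU (M := d + 1) e ψ) (v g (t.c w))
  let P' : (Fin 2 × Fin K → ℂ) → t.E → Prop := fun ψ w => ∀ g,
    Hit (X 0 ^ (N * p + c) * tp d (chd N p q c r' s μ (G g))) d (zcvU (M := d + 1) e' ψ)
      (v g (t.c w))
  -- the conditions in terms of series
  have hP : ∀ (φ : Fin 2 × Fin (d + 1) → ℂ), (∀ (i : Fin 2) (l : Fin (d + 1)),
      (l : ℕ) < e i → φ (i, l) = 0) → ∀ (g : Fin (r + 1)) (w : ℂ),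
      Hit (X 0 ^ N * tp d (G g)) d φ w ↔
      ∀ l, l < K → PowerSeries.coeff l (arc (sft (K := K) e φ) 0 ^ N *
        W g (arc (sft (K := K) e φ) 0) (arc (sft (K := K) e φ) 1)) =
          if l + 1 = K then w else 0 := by
    intro φ hφ g w
    obtain ⟨R0, h0, h0'⟩ := zcv_arcS (K := K) φ 0 (hee 0) (hφ 0)
    obtain ⟨R1, h1, h1'⟩ := zcv_arcS (K := K) φ 1 (hee 1) (hφ 1)
    exact zcv_hitW hpm0 hqm0 (hW g) (hW' g) hKW hK0 h0 h1 h0' h1' w
  have hPU : ∀ (ψ : Fin 2 × Fin K → ℂ) (S0 S1 : PowerSeries ℂ),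
      (PowerSeries.X : PowerSeries ℂ) ^ K ∣ arc ψ 0 - S0 →
      (PowerSeries.X : PowerSeries ℂ) ^ K ∣ arc ψ 1 - S1 → ∀ (g : Fin (r + 1)) (w : ℂ),
      Hit (X 0 ^ N * tp d (G g)) d (zcvU (M := d + 1) e ψ) w ↔
      ∀ l, l < K → PowerSeries.coeff l (S0 ^ N * W g S0 S1) = if l + 1 = K then w else 0 := by
    intro ψ S0 S1 h0 h1 g w
    exact zcv_hitW hpm0 hqm0 (hW g) (hW' g) hKW hK0 (zcv_arcU ψ 0 (hee 0)) (zcv_arcU ψ 1 (hee 1))
      h0 h1 w
  have hP' : ∀ (φ : Fin 2 × Fin (d + 1) → ℂ), (∀ (i : Fin 2) (l : Fin (d + 1)),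
      (l : ℕ) < e' i → φ (i, l) = 0) → PowerSeries.constantCoeff (arc φ 1) = 0 →
      ∀ (g : Fin (r + 1)) (w : ℂ),
      Hit (X 0 ^ (N * p + c) * tp d (chd N p q c r' s μ (G g))) d φ w ↔
      ∀ l, l < K → PowerSeries.coeff l (arc (sft (K := K) e' φ) 0 ^ (N * p + c) *
        ev (chd N p q c r' s μ (G g)) (PowerSeries.X ^ m * arc (sft (K := K) e' φ) 0)
          (arc (sft (K := K) e' φ) 1)) = if l + 1 = K then w else 0 := by
    intro φ hφ h1 g w
    obtain ⟨R0, h0, h0'⟩ := zcv_arcS (K := K) φ 0 (hee' 0) (hφ 0)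
    obtain ⟨R1, h2, h2'⟩ := zcv_arcS (K := K) φ 1 (hee' 1) (hφ 1)
    rw [he1', pow_zero, one_mul] at h2
    rw [← h2] at h2'
    exact zcv_hitC _ hm hK hK0 h0 h1 h0' h2' w
  have hPU' : ∀ (ψ : Fin 2 × Fin K → ℂ), PowerSeries.constantCoeff (arc ψ 1) = 0 →
      ∀ (g : Fin (r + 1)) (w : ℂ),
      Hit (X 0 ^ (N * p + c) * tp d (chd N p q c r' s μ (G g))) d (zcvU (M := d + 1) e' ψ) w ↔
      ∀ l, l < K → PowerSeries.coeff l (arc ψ 0 ^ (N * p + c) *
        ev (chd N p q c r' s μ (G g)) (PowerSeries.X ^ m * arc ψ 0) (arc ψ 1)) =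
          if l + 1 = K then w else 0 := by
    intro ψ h1 g w
    have h2 : arc (zcvU (M := d + 1) e' ψ) 1 = arc ψ 1 := by
      rw [zcv_arcU ψ 1 (hee' 1), he1', pow_zero, one_mul]
    refine zcv_hitC _ hm hK hK0 (zcv_arcU ψ 0 (hee' 0)) (by rw [h2, h1]) ?_ ?_ w
    · rw [sub_self]
      exact dvd_zero _
    · rw [h2, sub_self]
      exact dvd_zero _
  have hPP : ∀ ψ w, PowerSeries.constantCoeff (arc ψ 1) = 0 →
      (P (zcvF p q r' s μ ψ) w ↔ P' ψ w) := by
    intro ψ w h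
    refine forall_congr' fun g => ?_
    have h0 := zcv_symm (zcv_arcF (K := K) p q r' s μ ψ 0)
    have h1 := zcv_symm (zcv_arcF (K := K) p q r' s μ ψ 1)
    simp only [Matrix.cons_val_zero, Matrix.cons_val_one] at h0 h1
    rw [hPU _ _ _ h0 h1, hPU' ψ h, zcv_evalP, zcv_evalP,
      zcv_chart hp hq (hc g) hm (hW g) h]
  have hbij := zcv_bij (W := t.W) hK0 hrs hμ hPP
  have hv : ∀ g, PFun k (fun w : t.E => v g (t.c w)) := by
    intro g
    show PFun k (fun w : t.E => if g = 0 then t.c w else 0)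
    by_cases hg : g = 0
    · simp only [if_pos hg]
      exact t.pf
    · simp only [if_neg hg]
      exact PFun.zero
  have hA : ICons k {y : (Fin 2 × Fin K → ℂ) × t.E | y.2 ∈ t.W ∧
      PowerSeries.constantCoeff (arc y.1 0) ≠ 0 ∧ PowerSeries.constantCoeff (arc y.1 1) ≠ 0 ∧
      PowerSeries.constantCoeff (arc y.1 1) ^ p = algebraMap k ℂ μ *
        PowerSeries.constantCoeff (arc y.1 0) ^ q ∧ P y.1 y.2} := by
    refine ICons.and (t.cW.mem PMap.snd) (ICons.and (ICons.ne (zcv_pfun0 0) PFun.zero)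
      (ICons.and (ICons.ne (zcv_pfun0 1) PFun.zero) (ICons.and (ICons.eq
        ((zcv_pfun0 1).pow p) ((PFun.const μ).mul ((zcv_pfun0 0).pow q))) ?_)))
    exact ICons.forall_fin fun g => ICons.hit d _ ((zcv_pmapU e).comp PMap.fst)
      ((hv g).comp PMap.snd)
  have hA' : ICons k {y : (Fin 2 × Fin K → ℂ) × t.E | y.2 ∈ t.W ∧
      PowerSeries.constantCoeff (arc y.1 0) ≠ 0 ∧ PowerSeries.constantCoeff (arc y.1 1) = 0 ∧
      P' y.1 y.2} := by
    refine ICons.and (t.cW.mem PMap.snd) (ICons.and (ICons.ne (zcv_pfun0 0) PFun.zero)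
      (ICons.and (ICons.eq (zcv_pfun0 1) PFun.zero) ?_))
    exact ICons.forall_fin fun g => ICons.hit d _ ((zcv_pmapU e').comp PMap.fst)
      ((hv g).comp PMap.snd)
  have hmo := mo_bij hA' hA (((zcv_pmapF p q r' s μ).comp PMap.fst).prodMk PMap.snd) hbij
  have h1 := mo_sft (K := K) (N := d + 1) (e := e) hee hA
  have h2 := mo_sft (K := K) (N := d + 1) (e := e') hee' hA'
  -- coefficients
  have hcs : ∀ (e : Fin 2 → ℕ) (φ : Fin 2 × Fin (d + 1) → ℂ) (i : Fin 2) (h : e i < d + 1),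
      PowerSeries.constantCoeff (arc (sft (K := K) e φ) i) = φ (i, ⟨e i, h⟩) := by
    intro e φ i h
    rw [← PowerSeries.coeff_zero_eq_constantCoeff_apply, coeff_arc, dif_pos hK0]
    unfold sft
    simp only [Nat.add_zero]
    rw [dif_pos h]
  have hs1 : {x : (Fin 2 × Fin (d + 1) → ℂ) × t.E | x.2 ∈ t.W ∧ ordc x.1 0 (p * m) ∧
      ordc x.1 1 (q * m) ∧ (∀ (h : p * m < d + 1) (h' : q * m < d + 1),
        x.1 (1, ⟨q * m, h'⟩) ^ p = algebraMap k ℂ μ * x.1 (0, ⟨p * m, h⟩) ^ q) ∧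
      Htv (tpv N d G) d x.1 (t.c x.2)} =
      {x : (Fin 2 × Fin (d + 1) → ℂ) × t.E |
      (∀ (i : Fin 2) (l : Fin (d + 1)), (l : ℕ) < e i → x.1 (i, l) = 0) ∧ (sft e x.1, x.2) ∈
      {y : (Fin 2 × Fin K → ℂ) × t.E | y.2 ∈ t.W ∧
      PowerSeries.constantCoeff (arc y.1 0) ≠ 0 ∧ PowerSeries.constantCoeff (arc y.1 1) ≠ 0 ∧
      PowerSeries.constantCoeff (arc y.1 1) ^ p = algebraMap k ℂ μ *
        PowerSeries.constantCoeff (arc y.1 0) ^ q ∧ P y.1 y.2}} := by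
    ext ⟨φ, w⟩
    simp only [Set.mem_ofPred_eq]
    have a0 : e 0 < d + 1 := by rw [he0]; omega
    have a1 : e 1 < d + 1 := by rw [he1]; omega
    rw [hcs e φ 0 a0, hcs e φ 1 a1]
    constructor
    · rintro ⟨b1, ⟨b2, b3, b4⟩, ⟨b5, b6, b7⟩, b8, b9⟩
      have hlow : ∀ (i : Fin 2) (l : Fin (d + 1)), (l : ℕ) < e i → φ (i, l) = 0 := by
        intro i l hl
        fin_cases i
        · exact b2 l hl
        · exact b5 l hl
      refine ⟨hlow, b1, b4, b7, b8 _ _, ?_⟩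
      intro g
      rw [hPU _ _ _ (by rw [sub_self]; exact dvd_zero _) (by rw [sub_self]; exact dvd_zero _),
        ← hP φ hlow]
      exact b9 g
    · rintro ⟨hlow, b1, b4, b7, b8, b9⟩
      refine ⟨b1, ⟨hlow 0, a0, b4⟩, ⟨hlow 1, a1, b7⟩, fun _ _ => b8, ?_⟩
      intro g
      have b10 : Hit (X 0 ^ N * tp d (G g)) d (zcvU (M := d + 1) e (sft (K := K) e φ))
        (v g (t.c w)) := b9 g
      rw [hPU _ _ _ (by rw [sub_self]; exact dvd_zero _) (by rw [sub_self]; exact dvd_zero _),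
        ← hP φ hlow] at b10
      exact b10
  have hs2 : {x : (Fin 2 × Fin (d + 1) → ℂ) × t.E | x.2 ∈ t.W ∧ rgn 1 0 m x.1 ∧
      Htv (tpv (N * p + c) d (chv N p q c r' s μ G)) d x.1 (t.c x.2)} =
      {x : (Fin 2 × Fin (d + 1) → ℂ) × t.E |
      (∀ (i : Fin 2) (l : Fin (d + 1)), (l : ℕ) < e' i → x.1 (i, l) = 0) ∧
      (sft e' x.1, x.2) ∈ {y : (Fin 2 × Fin K → ℂ) × t.E | y.2 ∈ t.W ∧
      PowerSeries.constantCoeff (arc y.1 0) ≠ 0 ∧ PowerSeries.constantCoeff (arc y.1 1) = 0 ∧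
      P' y.1 y.2}} := by
    ext ⟨φ, w⟩
    simp only [Set.mem_ofPred_eq]
    have a0 : e' 0 < d + 1 := by rw [he0']; omega
    have a1 : e' 1 < d + 1 := by rw [he1']; omega
    rw [hcs e' φ 0 a0, hcs e' φ 1 a1]
    have hc1 : PowerSeries.constantCoeff (arc φ 1) = φ (1, ⟨0, Nat.succ_pos d⟩) := by
      rw [← PowerSeries.coeff_zero_eq_constantCoeff_apply, coeff_arc, dif_pos (Nat.succ_pos d)]
    constructor
    · rintro ⟨b1, ⟨⟨b2, b3, b4⟩, b5⟩, b9⟩
      have hlow : ∀ (i : Fin 2) (l : Fin (d + 1)), (l : ℕ) < e' i → φ (i, l) = 0 := by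
        intro i l hl
        fin_cases i
        · exact b2 l hl
        · exact absurd hl (by show ¬ ((l : ℕ) < 0); omega)
      have b6 : φ (1, ⟨0, Nat.succ_pos d⟩) = 0 := b5 ⟨0, Nat.succ_pos d⟩ (by simp)
      refine ⟨hlow, b1, b4, b6, ?_⟩
      intro g
      have b7 : PowerSeries.constantCoeff (arc (sft (K := K) e' φ) 1) = 0 := by
        rw [hcs e' φ 1 a1]
        exact b6
      rw [hPU' _ b7, ← hP' φ hlow (by rw [hc1, b6])]
      exact b9 g
    · rintro ⟨hlow, b1, b4, b6, b9⟩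
      have b6' : φ (1, ⟨0, Nat.succ_pos d⟩) = 0 := b6
      refine ⟨b1, ⟨⟨hlow 0, a0, b4⟩, ?_⟩, ?_⟩
      · intro l hl
        have hl0 : (l : ℕ) = 0 := by omega
        have : l = ⟨0, Nat.succ_pos d⟩ := Fin.ext hl0
        rw [this]
        exact b6'
      have b7 : PowerSeries.constantCoeff (arc (sft (K := K) e' φ) 1) = 0 := by
        rw [hcs e' φ 1 a1]
        exact b6
      intro g
      have b10 : Hit (X 0 ^ (N * p + c) * tp d (chd N p q c r' s μ (G g))) d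
        (zcvU (M := d + 1) e' (sft (K := K) e' φ)) (v g (t.c w)) := b9 g
      rw [hPU' _ b7, ← hP' φ hlow (by rw [hc1, b6'])] at b10
      exact b10
  unfold rpv dmv
  rw [hs1, h1, hs2, h2, hmo, ← mul_assoc, ← zpow_natCast, ← zpow_natCast, ← Units.val_mul,
    ← zpow_add]
  congr 3
  rw [he0, he1, he0', he1']
  have n1 : p * m + K ≤ d + 1 := by omega
  have n2 : q * m + K ≤ d + 1 := by omega
  have n3 : m + K ≤ d + 1 := by omega
  have n4 : m * (p + q - 1) + m = p * m + q * m := by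
    obtain ⟨p', rfl⟩ : ∃ p', p = p' + 1 := ⟨p - 1, by omega⟩
    have : p' + 1 + q - 1 = p' + q := by omega
    rw [this]
    ring
  have n5 : (((d + 1 - p * m - K) + (d + 1 - q * m - K) : ℕ) : ℤ) + ((m * (p + q - 1) : ℕ) : ℤ) =
      (((d + 1 - m - K) + (d + 1 - 0 - K) : ℕ) : ℤ) := by
    rw [← Nat.cast_add]
    congr 1
    omega
  linarith

end ZCV

end Pool.Agent.H75.Mono
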