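import Pool.Agent.H75.Idl.I0

/-! # LIY, module ZLV: below the top level -/

set_option autoImplicit false

namespace Pool.Agent.H75.Mono

open MvPolynomial Pool.Agent.H39.MonoR

section ZLV

variable {k : Type} [Field k] [Algebra k ℂ] {r : ℕ} {N a b p q p' q' E : ℕ} {G : Fin (r + 1) → PS k}

omit [Algebra k ℂ] in
private theorem edv_support (h : Edv G a b p q E) {e : Fin (r + 1)} {i j : ℕ}
    (hij : cf (G e) i j ≠ 0)
    (he : i * p + j * q = a * p + b * q) : ∃ n, n ≤ E ∧ i = a + q * n ∧ j = b - p * n := by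
  obtain ⟨h1, h2⟩ := h.lin e i j hij he
  obtain ⟨d, hd⟩ := Nat.exists_eq_add_of_le h2
  have h3 : i * p = a * p + d * q := by
    rw [hd] at he
    nlinarith
  have h4 : p ∣ d * q := by
    have : p ∣ a * p + d * q := by rw [← h3]; exact Dvd.intro_left i rfl
    exact (Nat.dvd_add_right (Dvd.intro_left a rfl)).1 this
  have h5 : p ∣ d := h.cop.dvd_of_dvd_mul_right h4
  obtain ⟨n, hn⟩ := h5
  refine ⟨n, ?_, ?_, ?_⟩
  · have h6 : p * n ≤ p * E := by
      have := h.eb
      omega
    exact Nat.le_of_mul_le_mul_left h6 h.p0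
  · have h6 : i * p = (a + q * n) * p := by
      rw [h3, hn]
      ring
    exact Nat.eq_of_mul_eq_mul_right h.p0 h6
  · omega

omit [Algebra k ℂ] in
/-- weights in the cone between the rays -/
private theorem zlo_wt (hV : Vtv G p q a b) (hE : Edv G a b p' q' E)
    (hκ : q * p' < q' * p) {m l : ℕ} (h1 : q * m < l * p) (h2 : l * p' ≤ q' * m) {e : Fin (r + 1)}
    {i j : ℕ} (hij : cf (G e) i j ≠ 0) : a * m + b * l ≤ i * m + j * l ∧ (i * m + j * l = a * m + b * l →
      i * p' + j * q' = a * p' + b * q' ∧ (l * p' < q' * m → i = a ∧ j = b)) := by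
  have hA := (hV.2 e i j hij).1
  have hB := hE.wt e i j hij
  zify at hA hB h1 h2 hκ ⊢
  obtain ⟨A, hAd⟩ : ∃ A : ℤ, A = ((i : ℤ) - a) * p + (j - b) * q := ⟨_, rfl⟩
  obtain ⟨B, hBd⟩ : ∃ B : ℤ, B = ((i : ℤ) - a) * p' + (j - b) * q' := ⟨_, rfl⟩
  obtain ⟨Z, hZd⟩ : ∃ Z : ℤ, Z = ((i : ℤ) - a) * m + (j - b) * l := ⟨_, rfl⟩
  obtain ⟨D, hDd⟩ : ∃ D : ℤ, D = (q' : ℤ) * p - q * p' := ⟨_, rfl⟩
  obtain ⟨s, hsd⟩ : ∃ s : ℤ, s = (q' : ℤ) * m - l * p' := ⟨_, rfl⟩
  obtain ⟨u, hud⟩ : ∃ u : ℤ, u = (l : ℤ) * p - q * m := ⟨_, rfl⟩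
  have key : D * Z = s * A + u * B := by
    rw [hAd, hBd, hZd, hDd, hsd, hud]; ring
  have hA0 : 0 ≤ A := by rw [hAd]; linarith
  have hB0 : 0 ≤ B := by rw [hBd]; linarith
  have hD0 : 0 < D := by rw [hDd]; linarith
  have hs0 : 0 ≤ s := by rw [hsd]; linarith
  have hu0 : 0 < u := by rw [hud]; linarith
  have hsA : 0 ≤ s * A := mul_nonneg hs0 hA0
  have huB : 0 ≤ u * B := mul_nonneg hu0.le hB0
  have hZ0 : 0 ≤ Z := by
    by_contra hZ
    push Not at hZ
    have := mul_neg_of_pos_of_neg hD0 hZ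
    linarith
  refine ⟨by rw [hZd] at hZ0; linarith, ?_⟩
  intro he
  have hZ1 : Z = 0 := by rw [hZd]; linarith
  have hB1 : B = 0 := by
    rw [hZ1, mul_zero] at key
    have : u * B = 0 := by linarith
    rcases mul_eq_zero.1 this with h | h
    · omega
    · exact h
  refine ⟨by rw [hBd] at hB1; linarith, ?_⟩
  intro hlt
  have hs1 : 0 < s := by rw [hsd]; linarith
  have hA1 : A = 0 := by
    rw [hZ1, mul_zero, hB1, mul_zero, add_zero] at key
    rcases mul_eq_zero.1 key.symm with h | h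
    · omega
    · exact h
  have h3 : D * ((i : ℤ) - a) = 0 := by
    have : D * ((i : ℤ) - a) = q' * A - q * B := by rw [hDd, hAd, hBd]; ring
    rw [this, hA1, hB1]; ring
  have h4 : D * ((j : ℤ) - b) = 0 := by
    have : D * ((j : ℤ) - b) = p * B - p' * A := by rw [hDd, hAd, hBd]; ring
    rw [this, hA1, hB1]; ring
  have h5 : (i : ℤ) - a = 0 := by
    rcases mul_eq_zero.1 h3 with h | h
    · omega
    · exact h
  have h6 : (j : ℤ) - b = 0 := by
    rcases mul_eq_zero.1 h4 with h | h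
    · omega
    · exact h
  constructor
  · have : (i : ℤ) = a := by linarith
    exact_mod_cast this
  · have : (j : ℤ) = b := by linarith
    exact_mod_cast this

/-- the initial coefficient, inside the cone -/
private theorem zlo_sum1 {g : PS k} {m l : ℕ} (hm : 0 < m) (hl : 0 < l) (U V : ℂ)
    (h : ∀ i j, cf g i j ≠ 0 → i * m + j * l = a * m + b * l → i = a ∧ j = b) :
    (∑ i ∈ Finset.range (a * m + b * l + 1), ∑ j ∈ Finset.range (a * m + b * l + 1),
      if i * m + j * l = a * m + b * l then algebraMap k ℂ (cf g i j) * U ^ i * V ^ j else 0) =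
    algebraMap k ℂ (cf g a b) * U ^ a * V ^ b := by
  have ha : a ≤ a * m := Nat.le_mul_of_pos_right a hm
  have hb : b ≤ b * l := Nat.le_mul_of_pos_right b hl
  rw [Finset.sum_eq_single a, Finset.sum_eq_single b, if_pos rfl]
  · intro j _ hj
    split_ifs with h1
    · by_cases hc : cf g a j = 0
      · rw [hc, map_zero, zero_mul, zero_mul]
      · exact absurd (h a j hc h1).2 hj
    · rfl
  · intro hb'
    exact absurd (Finset.mem_range.2 (by omega)) hb'
  · intro i _ hi
    apply Finset.sum_eq_zero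
    intro j _
    split_ifs with h1
    · by_cases hc : cf g i j = 0
      · rw [hc, map_zero, zero_mul, zero_mul]
      · exact absurd (h i j hc h1).1 hi
    · rfl
  · intro ha'
    exact absurd (Finset.mem_range.2 (by omega)) ha'

/-- the initial coefficient, on the ray -/
private theorem zlo_sum2 (hE : Edv G a b p' q' E) (e : Fin (r + 1)) {m l : ℕ} (hm : 0 < m) (hl : 0 < l)
    (he : l * p' = q' * m) {U V : ℂ} (hU : U ≠ 0) (hV : V ≠ 0)
    (h : ∀ i j, cf (G e) i j ≠ 0 → i * m + j * l = a * m + b * l →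
      i * p' + j * q' = a * p' + b * q') :
    (∑ i ∈ Finset.range (a * m + b * l + 1), ∑ j ∈ Finset.range (a * m + b * l + 1),
      if i * m + j * l = a * m + b * l then algebraMap k ℂ (cf (G e) i j) * U ^ i * V ^ j else 0) =
    U ^ (a + q' * E) * V ^ (b - p' * E) *
      Polynomial.aeval (V ^ p' / U ^ q') (edp (G e) a b p' q' E) := by
  classical
  have hpb : ∀ n, n ≤ E → p' * n ≤ b := fun n hn =>
    le_trans (Nat.mul_le_mul_left p' hn) hE.eb
  have hw : ∀ n, n ≤ E → (a + q' * n) * m + (b - p' * n) * l = a * m + b * l := by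
    intro n hn
    have h1 := hpb n hn
    zify [h1] at he ⊢
    linear_combination (-(n : ℤ)) * he
  rw [← Finset.sum_product']
  have hinj : ∀ x ∈ Finset.range (E + 1), ∀ y ∈ Finset.range (E + 1),
      ((a + q' * x, b - p' * x) : ℕ × ℕ) = (a + q' * y, b - p' * y) → x = y := by
    intro x _ y _ hxy
    have h1 := (Prod.mk.inj hxy).1
    have h2 : q' * x = q' * y := by omega
    exact Nat.eq_of_mul_eq_mul_left hE.q0 h2
  have hsub : (Finset.range (E + 1)).image (fun n => ((a + q' * n, b - p' * n) : ℕ × ℕ)) ⊆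
      Finset.range (a * m + b * l + 1) ×ˢ Finset.range (a * m + b * l + 1) := by
    intro x hx
    obtain ⟨n, hn, rfl⟩ := Finset.mem_image.1 hx
    have hn' : n ≤ E := by have := Finset.mem_range.1 hn; omega
    have h1 := hw n hn'
    have h2 : a + q' * n ≤ (a + q' * n) * m := Nat.le_mul_of_pos_right _ hm
    have h3 : b - p' * n ≤ (b - p' * n) * l := Nat.le_mul_of_pos_right _ hl
    rw [Finset.mem_product, Finset.mem_range, Finset.mem_range]
    constructor
    · show a + q' * n < _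
      omega
    · show b - p' * n < _
      omega
  rw [← Finset.sum_subset hsub, Finset.sum_image hinj]
  · unfold edp
    rw [map_sum, Finset.mul_sum]
    apply Finset.sum_congr rfl
    intro n hn
    have hn' : n ≤ E := by have := Finset.mem_range.1 hn; omega
    rw [if_pos (hw n hn')]
    simp only [map_mul, map_pow, Polynomial.aeval_C, Polynomial.aeval_X]
    have e1 : U ^ (a + q' * E) = U ^ (a + q' * n) * (U ^ q') ^ (E - n) := by
      rw [← pow_mul, ← pow_add]
      congr 1
      have : q' * E = q' * n + q' * (E - n) := by rw [← Nat.mul_add]; congr 1; omega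
      omega
    have e2 : V ^ (b - p' * n) = V ^ (b - p' * E) * (V ^ p') ^ (E - n) := by
      rw [← pow_mul, ← pow_add]
      congr 1
      have : p' * E = p' * n + p' * (E - n) := by rw [← Nat.mul_add]; congr 1; omega
      have := hpb E le_rfl
      omega
    show algebraMap k ℂ (cf (G e) (a + q' * n) (b - p' * n)) * U ^ (a + q' * n) *
      V ^ (b - p' * n) = _
    rw [e1, e2, div_pow]
    have hUq : (U ^ q') ^ (E - n) ≠ 0 := pow_ne_zero _ (pow_ne_zero _ hU)
    field_simp
  · intro x _ hx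
    split_ifs with h1
    · by_cases hc : cf (G e) x.1 x.2 = 0
      · rw [hc, map_zero, zero_mul, zero_mul]
      · exfalso
        apply hx
        obtain ⟨n, hn, h2, h3⟩ := edv_support hE hc (h _ _ hc h1)
        exact Finset.mem_image.2 ⟨n, Finset.mem_range.2 (by omega), by rw [← h2, ← h3]⟩
    · rfl

omit [Algebra k ℂ] in
private theorem zlo_arc {N : ℕ} (φ : Fin 2 × Fin N → ℂ) (i : Fin 2) {m : ℕ}
    (h : ordc φ i m) : ∃ U : PowerSeries ℂ, arc φ i = PowerSeries.X ^ m * U ∧
      ∃ hm : m < N, PowerSeries.constantCoeff U = φ (i, ⟨m, hm⟩) := by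
  obtain ⟨h1, hm, h2⟩ := h
  have hd : PowerSeries.X ^ m ∣ arc φ i := by
    rw [PowerSeries.X_pow_dvd_iff]
    intro l hl
    rw [coeff_arc]
    split_ifs with h3
    · exact h1 ⟨l, h3⟩ hl
    · rfl
  obtain ⟨U, hU⟩ := hd
  refine ⟨U, hU, hm, ?_⟩
  have h3 : PowerSeries.coeff (0 + m) (PowerSeries.X ^ m * U) = PowerSeries.coeff 0 U := by
    rw [zero_add]
    have := PowerSeries.coeff_X_pow_mul U m 0
    rw [zero_add] at this
    exact this
  rw [← PowerSeries.coeff_zero_eq_constantCoeff_apply, ← h3, zero_add, ← hU, coeff_arc,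
    dif_pos hm]

/-- the coefficient of order `(N + a) m + b l` -/
private theorem zlo_coeff {g : PS k} {m l : ℕ} (hm : 0 < m) (hl : 0 < l)
    (h : ∀ i j, cf g i j ≠ 0 → a * m + b * l ≤ i * m + j * l) (U V : PowerSeries ℂ) :
    PowerSeries.coeff ((N + a) * m + b * l) ((PowerSeries.X ^ m * U) ^ N *
      ev g (PowerSeries.X ^ m * U) (PowerSeries.X ^ l * V)) =
    PowerSeries.constantCoeff U ^ N * ∑ i ∈ Finset.range (a * m + b * l + 1),
      ∑ j ∈ Finset.range (a * m + b * l + 1),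
      if i * m + j * l = a * m + b * l then algebraMap k ℂ (cf g i j) *
        PowerSeries.constantCoeff U ^ i * PowerSeries.constantCoeff V ^ j else 0 := by
  obtain ⟨W, hW1, hW2, -⟩ := ev_wt hm hl g h
  rw [hW1, ← hW2]
  have e1 : (PowerSeries.X ^ m * U) ^ N * (PowerSeries.X ^ (a * m + b * l) * W U V) =
      PowerSeries.X ^ ((N + a) * m + b * l) * (U ^ N * W U V) := by
    rw [mul_pow, ← pow_mul]
    have : (N + a) * m + b * l = m * N + (a * m + b * l) := by ring
    rw [this, pow_add]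
    ring
  rw [e1]
  have := PowerSeries.coeff_X_pow_mul (U ^ N * W U V) ((N + a) * m + b * l) 0
  rw [zero_add] at this
  rw [this, PowerSeries.coeff_zero_eq_constantCoeff_apply, map_mul, map_pow]

omit [Algebra k ℂ] in
private theorem zlo_root [Algebra k ℂ] [IsAlgClosed k] {Q : Polynomial k} (hQ : Q ≠ 0) {z : ℂ}
    (hz : Polynomial.aeval z Q = 0) : ∃ μ ∈ rts Q, algebraMap k ℂ μ = z := by
  classical
  have h1 : (Q.map (algebraMap k ℂ)).IsRoot z := by
    rw [Polynomial.IsRoot.def, Polynomial.eval_map_algebraMap]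
    exact hz
  obtain ⟨μ, hμ⟩ := (IsAlgClosed.splits Q).mem_range_of_isRoot hQ h1
  refine ⟨μ, ?_, hμ⟩
  unfold rts
  rw [Multiset.mem_toFinset, Polynomial.mem_roots hQ, Polynomial.IsRoot.def]
  have h2 : algebraMap k ℂ (Q.eval μ) = 0 := by
    rw [← Polynomial.aeval_algebraMap_apply_eq_algebraMap_eval]
    rw [show algebraMap k ℂ μ = z from hμ]
    exact hz
  exact (map_eq_zero_iff _ (algebraMap k ℂ).injective).1 h2

/-- the constructible sets -/
private theorem icons_ordc {E' : Type} [Aff E'] {M : ℕ} (i : Fin 2) (n : ℕ) :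
    ICons k {x : (Fin 2 × Fin M → ℂ) × E' | ordc x.1 i n} := by
  unfold ordc
  refine ICons.and ?_ ?_
  · apply ICons.forall_fin
    intro l
    by_cases h : (l : ℕ) < n
    · have e : {x : (Fin 2 × Fin M → ℂ) × E' | (l : ℕ) < n → x.1 (i, l) = 0} =
          {x | x.1 (i, l) = 0} := by
        ext x
        simp only [Set.mem_ofPred_eq]
        exact ⟨fun h1 => h1 h, fun h1 _ => h1⟩
      rw [e]
      exact ICons.eq ((PFun.apply (k := k) (i, l)).comp PMap.fst) PFun.zero
    · have e : {x : (Fin 2 × Fin M → ℂ) × E' | (l : ℕ) < n → x.1 (i, l) = 0} =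
          Set.univ := by
        ext x
        simp only [Set.mem_ofPred_eq, Set.mem_univ, iff_true]
        exact fun h1 => absurd h1 h
      rw [e]
      exact ICons.univ
  · by_cases h : n < M
    · have e : {x : (Fin 2 × Fin M → ℂ) × E' | ∃ h : n < M, x.1 (i, ⟨n, h⟩) ≠ 0} =
          {x | x.1 (i, ⟨n, h⟩) ≠ 0} := by
        ext x
        simp only [Set.mem_ofPred_eq]
        exact ⟨fun ⟨_, h1⟩ => h1, fun h1 => ⟨h, h1⟩⟩
      rw [e]
      exact ICons.ne ((PFun.apply (k := k) ((i, ⟨n, h⟩) : Fin 2 × Fin M)).comp PMap.fst)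
        PFun.zero
    · have e : {x : (Fin 2 × Fin M → ℂ) × E' | ∃ h : n < M, x.1 (i, ⟨n, h⟩) ≠ 0} = ∅ := by
        ext x
        simp only [Set.mem_ofPred_eq, Set.mem_empty_iff_false, iff_false]
        exact fun ⟨h1, _⟩ => h h1
      rw [e]
      exact ICons.empty

private theorem icons_rgn {E' : Type} [Aff E'] {M : ℕ} (p q m : ℕ) :
    ICons k {x : (Fin 2 × Fin M → ℂ) × E' | rgn p q m x.1} := by
  unfold rgn
  refine ICons.and (icons_ordc 0 m) ?_
  apply ICons.forall_fin
  intro l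
  by_cases h : (l : ℕ) * p ≤ q * m
  · have e : {x : (Fin 2 × Fin M → ℂ) × E' | (l : ℕ) * p ≤ q * m → x.1 (1, l) = 0} =
        {x | x.1 (1, l) = 0} := by
      ext x
      simp only [Set.mem_ofPred_eq]
      exact ⟨fun h1 => h1 h, fun h1 _ => h1⟩
    rw [e]
    exact ICons.eq ((PFun.apply (k := k) (1, l)).comp PMap.fst) PFun.zero
  · have e : {x : (Fin 2 × Fin M → ℂ) × E' | (l : ℕ) * p ≤ q * m → x.1 (1, l) = 0} =
        Set.univ := by
      ext x
      simp only [Set.mem_ofPred_eq, Set.mem_univ, iff_true]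
      exact fun h1 => absurd h1 h
    rw [e]
    exact ICons.univ

private theorem icons_htv {E' : Type} [Aff E'] {n : ℕ} (f : Fin (r + 1) → MvPolynomial (Fin 2) k)
    (d : ℕ) {g : E' → Fin 2 × Fin n → ℂ} (hg : PMap k g) {c : E' → ℂ} (hc : PFun k c) :
    ICons k {x : E' | Htv f d (g x) (c x)} := by
  unfold Htv
  apply ICons.forall_fin
  intro e
  apply ICons.hit d _ hg
  by_cases he : e = 0
  · simpa only [if_pos he] using hc
  · simpa only [if_neg he] using PFun.zero

private theorem icons_dm (d p q m : ℕ) (t : Test k) :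
    ICons k {x : (Fin 2 × Fin (d + 1) → ℂ) × t.E | x.2 ∈ t.W ∧ rgn p q m x.1 ∧
      Htv (tpv N d G) d x.1 (t.c x.2)} :=
  ICons.and (t.cW.mem PMap.snd) (ICons.and (icons_rgn p q m)
    (icons_htv _ d PMap.fst (t.pf.comp PMap.snd)))

private theorem icons_rpt (d p q m : ℕ) (μ : k) (t : Test k) :
    ICons k {x : (Fin 2 × Fin (d + 1) → ℂ) × t.E | x.2 ∈ t.W ∧ ordc x.1 0 (p * m) ∧
      ordc x.1 1 (q * m) ∧ (∀ (h : p * m < d + 1) (h' : q * m < d + 1),
      x.1 (1, ⟨q * m, h'⟩) ^ p = algebraMap k ℂ μ * x.1 (0, ⟨p * m, h⟩) ^ q) ∧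
      Htv (tpv N d G) d x.1 (t.c x.2)} := by
  refine ICons.and (t.cW.mem PMap.snd) (ICons.and (icons_ordc 0 _) (ICons.and (icons_ordc 1 _)
    (ICons.and ?_ (icons_htv _ d PMap.fst (t.pf.comp PMap.snd)))))
  by_cases h : p * m < d + 1 ∧ q * m < d + 1
  · have e : {x : (Fin 2 × Fin (d + 1) → ℂ) × t.E | ∀ (h : p * m < d + 1)
        (h' : q * m < d + 1), x.1 (1, ⟨q * m, h'⟩) ^ p =
          algebraMap k ℂ μ * x.1 (0, ⟨p * m, h⟩) ^ q} =
        {x | x.1 (1, ⟨q * m, h.2⟩) ^ p = algebraMap k ℂ μ * x.1 (0, ⟨p * m, h.1⟩) ^ q} := by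
      ext x
      simp only [Set.mem_ofPred_eq]
      exact ⟨fun h1 => h1 h.1 h.2, fun h1 _ _ => h1⟩
    rw [e]
    exact ICons.eq (((PFun.apply (k := k)
      ((1, ⟨q * m, h.2⟩) : Fin 2 × Fin (d + 1))).comp PMap.fst).pow p)
      ((PFun.const μ).mul (((PFun.apply (k := k)
        ((0, ⟨p * m, h.1⟩) : Fin 2 × Fin (d + 1))).comp PMap.fst).pow q))
  · have e : {x : (Fin 2 × Fin (d + 1) → ℂ) × t.E | ∀ (h : p * m < d + 1)
        (h' : q * m < d + 1), x.1 (1, ⟨q * m, h'⟩) ^ p =
          algebraMap k ℂ μ * x.1 (0, ⟨p * m, h⟩) ^ q} = Set.univ := by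
      ext x
      simp only [Set.mem_ofPred_eq, Set.mem_univ, iff_true]
      exact fun h1 h2 => absurd ⟨h1, h2⟩ h
    rw [e]
    exact ICons.univ

omit [Algebra k ℂ] in
/-- the origin of an arc of the region -/
private theorem zlo_org {d m : ℕ} (hm : 0 < m) {φ : Fin 2 × Fin (d + 1) → ℂ}
    (h : rgn p q m φ) : org φ = 0 := by
  funext i
  fin_cases i
  · exact h.1.1 0 hm
  · exact h.2 0 (by simp)

/-- arcs of the region, not beyond the next ray -/
private theorem zlo_main [IsAlgClosed k] (hV : Vtv G p q a b)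
    (hE : Edv G a b p' q' E) (hκ : q * p' < q' * p) {m d : ℕ} (hm : 0 < m)
    (h2 : ((N + a) * p' + b * q') * m < p' * d) {φ : Fin 2 × Fin (d + 1) → ℂ} {c : ℂ}
    (hφ : rgn p q m φ) (hφ' : ¬ rgn p' q' m φ) (hH : Htv (tpv N d G) d φ c) :
    p' ∣ m ∧ ∃ μ ∈ rtv (edv G a b p' q' E), ordc φ 0 (p' * (m / p')) ∧
      ordc φ 1 (q' * (m / p')) ∧ (∀ (h : p' * (m / p') < d + 1) (h' : q' * (m / p') < d + 1),
        φ (1, ⟨q' * (m / p'), h'⟩) ^ p' =
          algebraMap k ℂ μ * φ (0, ⟨p' * (m / p'), h⟩) ^ q') := by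
  classical
  -- the order of the second coordinate
  have hex : ∃ l : ℕ, ∃ h : l < d + 1, φ (1, ⟨l, h⟩) ≠ 0 := by
    by_contra hno
    push Not at hno
    exact hφ' ⟨hφ.1, fun l _ => hno l l.2⟩
  obtain ⟨l, ⟨hld, hl0⟩, hlmin⟩ : ∃ l : ℕ, (∃ h : l < d + 1, φ (1, ⟨l, h⟩) ≠ 0) ∧
      ∀ l', l' < l → ¬ ∃ h : l' < d + 1, φ (1, ⟨l', h⟩) ≠ 0 :=
    ⟨Nat.find hex, Nat.find_spec hex, fun l' h => Nat.find_min hex h⟩
  have hord : ordc φ 1 l := by
    refine ⟨?_, hld, hl0⟩
    intro l' hl'
    by_contra hne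
    exact hlmin l' hl' ⟨l'.2, hne⟩
  have h1 : q * m < l * p := by
    by_contra hle
    push Not at hle
    exact hl0 (hφ.2 ⟨l, hld⟩ hle)
  have h3 : l * p' ≤ q' * m := by
    by_contra hlt
    push Not at hlt
    apply hφ'
    refine ⟨hφ.1, fun l' hl' => ?_⟩
    apply hord.1 l'
    by_contra hge
    push Not at hge
    have := Nat.mul_le_mul_right p' hge
    omega
  have hlpos : 0 < l := by
    rcases Nat.eq_zero_or_pos l with h | h
    · rw [h, zero_mul] at h1; omega
    · exact h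
  have hwt := fun e i j (hij : cf (G e) i j ≠ 0) => zlo_wt hV hE hκ h1 h3 hij
  obtain ⟨U, hU, hmd, hU0⟩ := zlo_arc φ 0 hφ.1
  obtain ⟨V, hV', hld', hV0⟩ := zlo_arc φ 1 hord
  have hU1 : PowerSeries.constantCoeff U ≠ 0 := by
    rw [hU0]
    obtain ⟨h, h'⟩ := hφ.1.2
    exact h'
  have hV1 : PowerSeries.constantCoeff V ≠ 0 := by
    rw [hV0]; exact hl0
  have hlt : (N + a) * m + b * l < d := by
    have h4 : p' * ((N + a) * m + b * l) < p' * d := by
      calc p' * ((N + a) * m + b * l) = (N + a) * p' * m + b * (l * p') := by ring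
        _ ≤ (N + a) * p' * m + b * (q' * m) :=
          Nat.add_le_add_left (Nat.mul_le_mul_left b h3) _
        _ = ((N + a) * p' + b * q') * m := by ring
        _ < p' * d := h2
    exact lt_of_mul_lt_mul_left h4 (Nat.zero_le _)
  have hco : ∀ e, PowerSeries.constantCoeff U ^ N * ∑ i ∈ Finset.range (a * m + b * l + 1),
      ∑ j ∈ Finset.range (a * m + b * l + 1),
      (if i * m + j * l = a * m + b * l then algebraMap k ℂ (cf (G e) i j) *
        PowerSeries.constantCoeff U ^ i * PowerSeries.constantCoeff V ^ j else 0) = 0 := by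
    intro e
    have hH' := hH e
    unfold tpv at hH'
    have hco := (hit_ev N (G e) φ (zlo_org hm hφ) _).1 hH' _ hlt.le
    rwa [if_neg hlt.ne, hU, hV', zlo_coeff hm hlpos (fun i j hij => (hwt e i j hij).1) U V] at hco
  obtain ⟨e0, he0⟩ := hE.top
  rcases h3.lt_or_eq with h3 | h3
  · exfalso
    have hco := hco e0
    rw [zlo_sum1 hm hlpos _ _ (fun i j hij he => ((hwt e0 i j hij).2 he).2 h3)] at hco
    have h5 : algebraMap k ℂ (cf (G e0) a b) ≠ 0 := by
      rw [Ne, map_eq_zero_iff _ (algebraMap k ℂ).injective]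
      exact he0
    exact (mul_ne_zero (pow_ne_zero _ hU1) (mul_ne_zero (mul_ne_zero h5 (pow_ne_zero _ hU1))
      (pow_ne_zero _ hV1))) hco
  · have hdvd : p' ∣ m := by
      have : p' ∣ q' * m := ⟨l, by rw [← h3]; ring⟩
      exact hE.cop.dvd_of_dvd_mul_left this
    have hz : ∀ e, Polynomial.aeval (PowerSeries.constantCoeff V ^ p' /
        PowerSeries.constantCoeff U ^ q') (edp (G e) a b p' q' E) = 0 := by
      intro e
      have hco := hco e
      rw [zlo_sum2 hE e hm hlpos h3 hU1 hV1 (fun i j hij he => ((hwt e i j hij).2 he).1)] at hco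
      rcases mul_eq_zero.1 hco with h | h
      · exact absurd h (pow_ne_zero _ hU1)
      · rcases mul_eq_zero.1 h with h | h
        · exact absurd h (mul_ne_zero (pow_ne_zero _ hU1) (pow_ne_zero _ hV1))
        · exact h
    obtain ⟨m', rfl⟩ := hdvd
    have hl : l = q' * m' := by
      have : l * p' = q' * m' * p' := by rw [h3]; ring
      exact Nat.eq_of_mul_eq_mul_right hE.p0 this
    have hne : edp (G e0) a b p' q' E ≠ 0 := by
      intro h0
      have h6 : (edp (G e0) a b p' q' E).coeff E = cf (G e0) a b := by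
        unfold edp
        rw [Polynomial.finsetSum_coeff, Finset.sum_eq_single 0]
        · simp
        · intro n hn hn0
          have hn' : n < E + 1 := Finset.mem_range.1 hn
          rw [Polynomial.coeff_C_mul, Polynomial.coeff_X_pow, if_neg (by omega), mul_zero]
        · intro h
          exact absurd (Finset.mem_range.2 (by omega)) h
      rw [h0, Polynomial.coeff_zero] at h6
      exact he0 h6.symm
    obtain ⟨μ, hμ, hμz⟩ := zlo_root hne (hz e0)
    have hμ' : μ ∈ rtv (edv G a b p' q' E) := by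
      unfold rtv
      rw [Finset.mem_filter, Finset.mem_biUnion]
      refine ⟨⟨e0, Finset.mem_univ _, hμ⟩, fun e => ?_⟩
      have h7 := hz e
      rw [← hμz, Polynomial.aeval_algebraMap_apply_eq_algebraMap_eval] at h7
      exact (map_eq_zero_iff _ (algebraMap k ℂ).injective).1 h7
    have hdiv : p' * m' / p' = m' := Nat.mul_div_cancel_left m' hE.p0
    refine ⟨⟨m', rfl⟩, μ, hμ', ?_⟩
    rw [hdiv]
    subst hl
    refine ⟨hφ.1, hord, ?_⟩
    intro _ _
    rw [← hU0, ← hV0, hμz, div_mul_cancel₀ _ (pow_ne_zero _ hU1)]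

open Classical in
theorem dmv_low [IsAlgClosed k] (hp : 0 < p) (hV : Vtv G p q a b) (hE : Edv G a b p' q' E)
    (hκ : q * p' < q' * p) {m d : ℕ} (hm : 0 < m)
    (h2 : ((N + a) * p' + b * q') * m < p' * d) (t : Test k) :
    dmv N G p q m d t = dmv N G p' q' m d t +
      if p' ∣ m then ∑ μ ∈ rtv (edv G a b p' q' E), rpv N G p' q' μ (m / p') d t else 0 := by
  have himp : ∀ φ : Fin 2 × Fin (d + 1) → ℂ, rgn p' q' m φ → rgn p q m φ := by
    intro φ h
    refine ⟨h.1, fun l hl => h.2 l ?_⟩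
    by_contra hlt
    push Not at hlt
    have h3 : q * m * p' < l * p * p' := by
      calc q * m * p' = q * p' * m := by ring
        _ ≤ q' * p * m := Nat.mul_le_mul_right m hκ.le
        _ = q' * m * p := by ring
        _ < l * p' * p := Nat.mul_lt_mul_of_pos_right hlt hp
        _ = l * p * p' := by ring
    have := Nat.mul_le_mul_right p' hl
    omega
  unfold dmv
  rw [mo_split (icons_dm d p q m t) (p := fun x => rgn p' q' m x.1) (icons_rgn p' q' m)]
  congr 1
  · congr 1
    ext x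
    simp only [Set.mem_ofPred_eq]
    constructor
    · rintro ⟨⟨h3, h4, h5⟩, h6⟩
      exact ⟨h3, h6, h5⟩
    · rintro ⟨h3, h4, h5⟩
      exact ⟨⟨h3, himp _ h4, h5⟩, h4⟩
  · split_ifs with hdvd
    · unfold rpv
      rw [← mo_biUnion (rtv (edv G a b p' q' E))
        (A := fun μ => {x : (Fin 2 × Fin (d + 1) → ℂ) × t.E | x.2 ∈ t.W ∧
          ordc x.1 0 (p' * (m / p')) ∧ ordc x.1 1 (q' * (m / p')) ∧
          (∀ (h : p' * (m / p') < d + 1) (h' : q' * (m / p') < d + 1),
            x.1 (1, ⟨q' * (m / p'), h'⟩) ^ p' =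
              algebraMap k ℂ μ * x.1 (0, ⟨p' * (m / p'), h⟩) ^ q') ∧
          Htv (tpv N d G) d x.1 (t.c x.2)})
        (fun μ _ => icons_rpt d p' q' (m / p') μ t)]
      · congr 1
        ext x
        simp only [Set.mem_ofPred_eq]
        have hdiv : p' * (m / p') = m := Nat.mul_div_cancel' hdvd
        constructor
        · rintro ⟨⟨h3, h4, h5⟩, h6⟩
          obtain ⟨-, μ, hμ, h7, h8, h9⟩ := zlo_main hV hE hκ hm h2 h4 h6 h5
          exact ⟨μ, hμ, h3, h7, h8, h9, h5⟩
        · rintro ⟨μ, hμ, h3, h7, h8, h9, h5⟩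
          refine ⟨⟨h3, ⟨by rw [← hdiv]; exact h7, ?_⟩, h5⟩, ?_⟩
          · intro l hl
            apply h8.1 l
            by_contra hge
            push Not at hge
            have h10 : q * p' * (m / p') < q' * p * (m / p') :=
              Nat.mul_lt_mul_of_pos_right hκ (Nat.div_pos (Nat.le_of_dvd hm hdvd) hE.p0)
            have h11 : q * p' * (m / p') = q * m := by rw [mul_assoc, hdiv]
            have h12 : q' * p * (m / p') = q' * (m / p') * p := by ring
            have h13 := Nat.mul_le_mul_right p hge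
            omega
          · intro h6
            obtain ⟨h10, h11⟩ := h8.2
            apply h11
            apply h6.2
            show q' * (m / p') * p' ≤ q' * m
            rw [mul_assoc, Nat.div_mul_cancel hdvd]
      · intro μ _ μ' _ hne
        rw [Set.disjoint_left]
        rintro x ⟨-, h7, h8, h9, -⟩ ⟨-, -, -, h9', -⟩
        obtain ⟨h10, h11⟩ := h7.2
        obtain ⟨h12, h13⟩ := h8.2
        have h14 := (h9 h10 h12).symm.trans (h9' h10 h12)
        have h15 := mul_right_cancel₀ (pow_ne_zero _ h11) h14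
        exact hne ((algebraMap k ℂ).injective h15)
    · rw [← mo_empty (k := k) (E := (Fin 2 × Fin (d + 1) → ℂ) × t.E)]
      congr 1
      ext x
      simp only [Set.mem_ofPred_eq, Set.mem_empty_iff_false, iff_false]
      rintro ⟨⟨h3, h4, h5⟩, h6⟩
      exact hdvd (zlo_main hV hE hκ hm h2 h4 h6 h5).1

end ZLV

end Pool.Agent.H75.Mono
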