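import Pool.Agent.H75.Idl.I0

/-! # LIY, module ZTD: the top level without a next edge -/

set_option autoImplicit false

namespace Pool.Agent.H75.Mono

open MvPolynomial Pool.Agent.H39.MonoR

section ZTD

variable {k : Type} [Field k] [Algebra k ℂ] {r : ℕ} {N a b p q p' q' E : ℕ} {G : Fin (r + 1) → PS k}

private theorem vlv_icons {F : Type} [Aff F] {g : F → Fin 2 → ℂ} (hg : PMap k g)
    (P : Fin (r + 1) → MvPolynomial (Fin 2) k) {c : F → ℂ} (hc : PFun k c) :
    ICons k {x : F | Vlv P (g x) (c x)} := by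
  unfold Vlv
  apply ICons.forall_fin
  intro e
  apply ICons.eq (PFun.aeval' hg (P e))
  by_cases he : e = 0
  · simpa only [if_pos he] using hc
  · simpa only [if_neg he] using PFun.zero

private theorem arc_div {N' : ℕ} (φ : Fin 2 × Fin N' → ℂ) (i : Fin 2) (n : ℕ)
    (h : ∀ l : Fin N', (l : ℕ) < n → φ (i, l) = 0) :
    ∃ U : PowerSeries ℂ, arc φ i = PowerSeries.X ^ n * U ∧
      ∀ (hn : n < N'), PowerSeries.constantCoeff U = φ (i, ⟨n, hn⟩) := by
  have h1 : PowerSeries.X ^ n ∣ arc φ i := by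
    rw [PowerSeries.X_pow_dvd_iff]
    intro l hl
    rw [coeff_arc]
    by_cases hlN : l < N'
    · rw [dif_pos hlN]
      exact h ⟨l, hlN⟩ hl
    · rw [dif_neg hlN]
  obtain ⟨U, hU⟩ := h1
  refine ⟨U, hU, fun hn => ?_⟩
  have h2 : PowerSeries.coeff (n + 0) (PowerSeries.X ^ n * U) = PowerSeries.coeff 0 U := by
    rw [add_comm, PowerSeries.coeff_X_pow_mul]
  rw [← PowerSeries.coeff_zero_eq_constantCoeff_apply, ← h2, ← hU, coeff_arc]
  simp only [add_zero]
  rw [dif_pos hn]

/-- the value at leading coefficients -/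
private noncomputable def lsum (G : PS k) (u v c : ℕ) (α β : ℂ) : ℂ :=
  ∑ i ∈ Finset.range (c + 1), ∑ j ∈ Finset.range (c + 1),
    if i * u + j * v = c then algebraMap k ℂ (cf G i j) * α ^ i * β ^ j else 0

private theorem coeff_wt {u v c d : ℕ} (hu : 0 < u) (hv : 0 < v) (G : PS k)
    (h : ∀ i j, cf G i j ≠ 0 → c ≤ i * u + j * v) (φ : Fin 2 × Fin (d + 1) → ℂ)
    (h0 : ∀ l : Fin (d + 1), (l : ℕ) < u → φ (0, l) = 0)
    (h1 : ∀ l : Fin (d + 1), (l : ℕ) < v → φ (1, l) = 0) (hud : u < d + 1) (hvd : v < d + 1)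
    (N : ℕ) :
    org φ = 0 ∧ (∀ l, l < N * u + c → PowerSeries.coeff l
      (arc φ 0 ^ N * ev G (arc φ 0) (arc φ 1)) = 0) ∧
      PowerSeries.coeff (N * u + c) (arc φ 0 ^ N * ev G (arc φ 0) (arc φ 1)) =
        φ (0, ⟨u, hud⟩) ^ N * lsum G u v c (φ (0, ⟨u, hud⟩)) (φ (1, ⟨v, hvd⟩)) := by
  obtain ⟨U, hU, hU0⟩ := arc_div φ 0 u h0
  obtain ⟨V, hV, hV0⟩ := arc_div φ 1 v h1
  obtain ⟨W, hW, hW0, -⟩ := ev_wt hu hv G h
  have e : arc φ 0 ^ N * ev G (arc φ 0) (arc φ 1) =
      PowerSeries.X ^ (N * u + c) * (U ^ N * W U V) := by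
    rw [hU, hV, hW, mul_pow, ← pow_mul, pow_add, mul_comm u N]
    ring
  refine ⟨?_, ?_, ?_⟩
  · funext i
    unfold org
    fin_cases i
    · exact h0 0 (by simpa using hu)
    · exact h1 0 (by simpa using hv)
  · intro l hl
    rw [e, PowerSeries.coeff_X_pow_mul', if_neg (by omega)]
  · rw [e, PowerSeries.coeff_X_pow_mul', if_pos le_rfl, Nat.sub_self,
      PowerSeries.coeff_zero_eq_constantCoeff_apply, map_mul, map_pow, hW0, hU0 hud, hV0 hvd]
    rfl

private theorem dmv_gen {x l₀ : ℕ} {P : Fin (r + 1) → MvPolynomial (Fin 2) k} (hb : 0 < b)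
    (hc : ∃ e, cf (G e) a b ≠ 0) {m d : ℕ} (hm : 0 < m) (hmd : m ≤ d) (hx : d = (N + a) * m + x)
    (hx0 : 0 < x) (h1 : b * q * m < p * x) (hl : l₀ = (x + b - 1) / b)
    (hlow : ∀ l, q * m < p * l → b * l < x → ∀ e i j, cf (G e) i j ≠ 0 →
      a * m + b * l ≤ i * m + j * l ∧ (i * m + j * l = a * m + b * l → i = a ∧ j = b))
    (htop : ∀ e i j, cf (G e) i j ≠ 0 → a * m + x ≤ i * m + j * l₀)
    (hP : ∀ e, ∀ α β : ℂ, aeval ![α, β] (P e) = α ^ N * lsum (G e) m l₀ (a * m + x) α β)
    (t : Test k) :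
    dmv N G p q m d t = ↑(Lu k ^ ((d - m) + (d - l₀) : ℕ)) *
      mo k {x : (Fin 2 → ℂ) × t.E | x.2 ∈ t.W ∧ x.1 0 ≠ 0 ∧ Vlv P x.1 (t.c x.2)} := by
  have hbl : x ≤ b * l₀ := by
    have := Nat.lt_mul_div_succ (x + b - 1) hb
    rw [← hl] at this
    have e : b * (l₀ + 1) = b * l₀ + b := by ring
    omega
  have hbl' : ∀ l, l < l₀ → b * l < x := by
    intro l hll
    have h2 : l + 1 ≤ (x + b - 1) / b := by omega
    rw [Nat.le_div_iff_mul_le hb] at h2
    have e : (l + 1) * b = b * l + b := by ring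
    omega
  have hl0 : 0 < l₀ := by
    rcases Nat.eq_zero_or_pos l₀ with h | h
    · rw [h] at hbl; omega
    · exact h
  have hlx : l₀ ≤ x := by
    rcases Nat.lt_or_ge x l₀ with h | h
    · have := hbl' x h
      have : x ≤ b * x := Nat.le_mul_of_pos_left x hb
      omega
    · exact h
  have hld : l₀ ≤ d := by omega
  have hql : q * m < p * l₀ := by
    have h2 : b * (q * m) < b * (p * l₀) := by
      calc b * (q * m) = b * q * m := by ring
        _ < p * x := h1
        _ ≤ p * (b * l₀) := Nat.mul_le_mul_left p hbl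
        _ = b * (p * l₀) := by ring
    exact Nat.lt_of_mul_lt_mul_left h2
  let A : Set ((Fin 2 × Fin 1 → ℂ) × t.E) :=
    {y | y.2 ∈ t.W ∧ y.1 (0, 0) ≠ 0 ∧ Vlv P (fun i => y.1 (i, 0)) (t.c y.2)}
  have hA : ICons k A := by
    refine ICons.and (t.cW.mem PMap.snd) (ICons.and ?_ ?_)
    · exact ICons.ne ((PFun.apply ((0, 0) : Fin 2 × Fin 1)).comp PMap.fst) PFun.zero
    · exact vlv_icons ((PMap.pi fun i => PFun.apply ((i, 0) : Fin 2 × Fin 1)).comp PMap.fst) P
        (t.pf.comp PMap.snd)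
  have hA2 : mo k A = mo k {x : (Fin 2 → ℂ) × t.E |
      x.2 ∈ t.W ∧ x.1 0 ≠ 0 ∧ Vlv P x.1 (t.c x.2)} := by
    have hB : ICons k {x : (Fin 2 → ℂ) × t.E |
        x.2 ∈ t.W ∧ x.1 0 ≠ 0 ∧ Vlv P x.1 (t.c x.2)} := by
      refine ICons.and (t.cW.mem PMap.snd) (ICons.and ?_ ?_)
      · exact ICons.ne ((PFun.apply (0 : Fin 2)).comp PMap.fst) PFun.zero
      · exact vlv_icons PMap.fst P (t.pf.comp PMap.snd)
    refine mo_bij hA hB (f := fun y => ((fun i => y.1 (i, 0)), y.2)) ?_ ⟨?_, ?_, ?_⟩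
    · exact ((PMap.pi fun i => PFun.apply ((i, 0) : Fin 2 × Fin 1)).comp PMap.fst).prodMk PMap.snd
    · intro y hy
      exact hy
    · rintro ⟨y, w⟩ _ ⟨y', w'⟩ _ hxy
      simp only [Prod.mk.injEq] at hxy
      obtain ⟨h2, h3⟩ := hxy
      refine Prod.ext ?_ h3
      funext z
      obtain ⟨i, l⟩ := z
      have : l = 0 := Subsingleton.elim _ _
      rw [this]
      exact congrFun h2 i
    · rintro ⟨y, w⟩ hy
      exact ⟨(fun z => y z.1, w), hy, rfl⟩
  have key := mo_sft (k := k) (E := t.E) (K := 1) (N := d + 1) (e := ![m, l₀])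
    (by intro i; fin_cases i <;> simp <;> omega) hA
  rw [← hA2]
  have e1 : d + 1 - (![m, l₀] : Fin 2 → ℕ) 0 - 1 = d - m := by
    simp only [Matrix.cons_val_zero]; omega
  have e2 : d + 1 - (![m, l₀] : Fin 2 → ℕ) 1 - 1 = d - l₀ := by
    show d + 1 - l₀ - 1 = d - l₀
    omega
  rw [e1, e2] at key
  rw [← key]
  unfold dmv
  congr 1
  ext ⟨φ, w⟩
  simp only [Set.mem_ofPred_eq, A]
  have s0 : m < d + 1 := by omega
  have s1 : l₀ < d + 1 := by omega
  have sf : ∀ (i : Fin 2) (n : ℕ), (![m, l₀] : Fin 2 → ℕ) i = n → ∀ hn : n < d + 1,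
      sft (K := 1) ![m, l₀] φ (i, 0) = φ (i, ⟨n, hn⟩) := by
    intro i n hin hn
    unfold sft
    have : (![m, l₀] : Fin 2 → ℕ) (i, (0 : Fin 1)).1 + ((i, (0 : Fin 1)).2 : ℕ) = n := by
      simp only [Fin.val_zero, add_zero]; exact hin
    rw [dif_pos (by rw [this]; exact hn)]
    congr 2
    simp only [Fin.mk.injEq]
    exact this
  have sf0 := sf 0 m rfl s0
  have sf1 := sf 1 l₀ rfl s1
  have hfun : (fun i : Fin 2 => sft (K := 1) ![m, l₀] φ (i, 0)) =
      ![φ (0, ⟨m, s0⟩), φ (1, ⟨l₀, s1⟩)] := by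
    funext i
    fin_cases i
    · exact sf0
    · exact sf1
  constructor
  · rintro ⟨hw, ⟨⟨hr1, hr2⟩, hr3⟩, hh⟩
    -- the order of Y is at least l₀
    have hY : ∀ l : Fin (d + 1), (l : ℕ) < l₀ → φ (1, l) = 0 := by
      by_contra hcon
      push Not at hcon
      obtain ⟨l1, hl1, hl2⟩ := hcon
      have hex : ∃ n : ℕ, ∃ h : n < d + 1, φ (1, ⟨n, h⟩) ≠ 0 := ⟨l1, l1.2, hl2⟩
      classical
      let n := Nat.find hex
      obtain ⟨hn1, hn2⟩ := Nat.find_spec hex
      have hnl : n ≤ l1 := Nat.find_min' hex ⟨l1.2, hl2⟩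
      have hmin : ∀ l : Fin (d + 1), (l : ℕ) < n → φ (1, l) = 0 := by
        intro l hl
        by_contra h3
        exact Nat.find_min hex hl ⟨l.2, h3⟩
      have hqn : q * m < p * n := by
        by_contra h3
        apply hn2
        apply hr3
        show n * p ≤ q * m
        rw [mul_comm n p]; omega
      have hbn : b * n < x := hbl' n (by omega)
      have hn0 : 0 < n := by
        rcases Nat.eq_zero_or_pos n with h | h
        · rw [h] at hqn; omega
        · exact h
      obtain ⟨e0, he0⟩ := hc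
      obtain ⟨g1, g2, g3⟩ := coeff_wt hm hn0 (G e0) (c := a * m + b * n)
        (fun i j hij => (hlow n hqn hbn e0 i j hij).1) φ hr1 hmin s0 hn1 N
      have hh := hh e0
      unfold tpv at hh
      rw [hit_ev N (G e0) φ g1] at hh
      have hlt : N * m + (a * m + b * n) < d := by
        rw [hx]
        have : (N + a) * m = N * m + a * m := by ring
        omega
      have h4 := hh (N * m + (a * m + b * n)) (by omega)
      rw [if_neg (by omega), g3] at h4
      have hα : φ (0, ⟨m, s0⟩) ≠ 0 := by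
        obtain ⟨_, h5⟩ := hr2
        exact h5
      have h6 : lsum (G e0) m n (a * m + b * n) (φ (0, ⟨m, s0⟩)) (φ (1, ⟨n, hn1⟩)) =
          algebraMap k ℂ (cf (G e0) a b) * φ (0, ⟨m, s0⟩) ^ a * φ (1, ⟨n, hn1⟩) ^ b := by
        unfold lsum
        rw [Finset.sum_eq_single a, Finset.sum_eq_single b, if_pos rfl]
        · intro j _ hj
          by_cases hs : a * m + j * n = a * m + b * n
          · rw [if_pos hs]
            by_cases hcf : cf (G e0) a j = 0
            · rw [hcf]; simp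
            · exact absurd ((hlow n hqn hbn e0 a j hcf).2 hs).2 hj
          · rw [if_neg hs]
        · intro hb'
          exfalso
          apply hb'
          rw [Finset.mem_range]
          have : b ≤ b * n := Nat.le_mul_of_pos_right b hn0
          omega
        · intro i _ hi
          apply Finset.sum_eq_zero
          intro j _
          by_cases hs : i * m + j * n = a * m + b * n
          · rw [if_pos hs]
            by_cases hcf : cf (G e0) i j = 0
            · rw [hcf]; simp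
            · exact absurd ((hlow n hqn hbn e0 i j hcf).2 hs).1 hi
          · rw [if_neg hs]
        · intro ha'
          exfalso
          apply ha'
          rw [Finset.mem_range]
          have : a ≤ a * m := Nat.le_mul_of_pos_right a hm
          omega
      rw [h6] at h4
      have hcc : algebraMap k ℂ (cf (G e0) a b) ≠ 0 := by
        rw [Ne, map_eq_zero]
        exact he0
      exact (mul_ne_zero (pow_ne_zero _ hα) (mul_ne_zero (mul_ne_zero hcc (pow_ne_zero _ hα))
        (pow_ne_zero _ hn2))) h4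
    have hd' : N * m + (a * m + x) = d := by rw [hx]; ring
    have h4 : Vlv P ![φ (0, ⟨m, s0⟩), φ (1, ⟨l₀, s1⟩)] (t.c w) := by
      intro e
      obtain ⟨g1, g2, g3⟩ := coeff_wt hm hl0 (G e) (c := a * m + x) (htop e) φ hr1 hY s0 s1 N
      have hh := hh e
      unfold tpv at hh
      rw [hit_ev N (G e) φ g1] at hh
      have h4 := hh (N * m + (a * m + x)) (by omega)
      rw [if_pos hd', g3, ← hP e] at h4
      exact h4
    refine ⟨?_, hw, ?_, ?_⟩
    · intro i l hl
      fin_cases i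
      · exact hr1 l hl
      · exact hY l hl
    · rw [sf0]
      obtain ⟨_, h5⟩ := hr2
      exact h5
    · rw [hfun]
      exact h4
  · rintro ⟨hz, hw, hα, hv⟩
    rw [sf0] at hα
    rw [hfun] at hv
    have hX : ∀ l : Fin (d + 1), (l : ℕ) < m → φ (0, l) = 0 := fun l hl => hz 0 l hl
    have hY : ∀ l : Fin (d + 1), (l : ℕ) < l₀ → φ (1, l) = 0 := fun l hl => hz 1 l hl
    have hd' : N * m + (a * m + x) = d := by rw [hx]; ring
    refine ⟨hw, ⟨⟨hX, s0, hα⟩, ?_⟩, ?_⟩
    · intro l hl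
      apply hY
      by_contra h3
      have : p * l₀ ≤ p * l := Nat.mul_le_mul_left p (by omega)
      rw [mul_comm (l : ℕ) p] at hl
      omega
    · intro e
      obtain ⟨g1, g2, g3⟩ := coeff_wt hm hl0 (G e) (c := a * m + x) (htop e) φ hX hY s0 s1 N
      unfold tpv
      rw [hit_ev N (G e) φ g1]
      intro l hl
      by_cases hld2 : l = d
      · rw [if_pos hld2, hld2]
        rw [← hP e, hd'] at g3
        rw [g3]
        exact hv e
      · rw [if_neg hld2]
        exact g2 l (by omega)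

private theorem lsum_edge {G : PS k} {u v c : ℕ} (hu : 0 < u) (hv : 0 < v) (hq' : 0 < q')
    (h : ∀ i j, cf G i j ≠ 0 → i * u + j * v = c → ∃ n, n ≤ E ∧ i = a + q' * n ∧ j = b - p' * n)
    (α β : ℂ) : lsum G u v c α β = ∑ n ∈ Finset.range (E + 1),
      if (a + q' * n) * u + (b - p' * n) * v = c then
        algebraMap k ℂ (cf G (a + q' * n) (b - p' * n)) * α ^ (a + q' * n) * β ^ (b - p' * n)
      else 0 := by
  classical
  unfold lsum
  rw [← Finset.sum_product']
  have hinj : Set.InjOn (fun n : ℕ => (a + q' * n, b - p' * n)) (Finset.range (E + 1) : Set ℕ) := by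
    intro n _ n' _ hn
    simp only [Prod.mk.injEq] at hn
    have := hn.1
    have h2 : q' * n = q' * n' := by omega
    exact Nat.eq_of_mul_eq_mul_left hq' h2
  rw [← Finset.sum_image (f := fun z : ℕ × ℕ => if z.1 * u + z.2 * v = c then
    algebraMap k ℂ (cf G z.1 z.2) * α ^ z.1 * β ^ z.2 else 0) hinj]
  refine Finset.sum_congr_of_eq_on_inter ?_ ?_ ?_
  · rintro ⟨i, j⟩ _ hn
    by_cases hs : i * u + j * v = c
    · by_cases hcf : cf G i j = 0
      · simp [hcf]
      · exfalso
        apply hn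
        obtain ⟨n, hn1, hn2, hn3⟩ := h i j hcf hs
        rw [Finset.mem_image]
        exact ⟨n, Finset.mem_range.2 (by omega), by rw [hn2, hn3]⟩
    · simp [hs]
  · rintro ⟨i, j⟩ _ hn
    by_cases hs : i * u + j * v = c
    · exfalso
      apply hn
      rw [Finset.mem_product, Finset.mem_range, Finset.mem_range]
      have h1 : i ≤ i * u := Nat.le_mul_of_pos_right i hu
      have h2 : j ≤ j * v := Nat.le_mul_of_pos_right j hv
      simp only
      constructor <;> omega
    · simp [hs]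
  · rintro ⟨i, j⟩ _ _
    rfl

private theorem aeval_ix (i j : ℕ) (c : k) (α β : ℂ) :
    aeval ![α, β] (monomial (ix i j) c) = algebraMap k ℂ c * α ^ i * β ^ j := by
  rw [aeval_monomial, Finsupp.prod_fintype _ _ (fun i => pow_zero _), Fin.prod_univ_two]
  simp [ix, mul_assoc]

theorem dmv_top_div (hp : 0 < p) (hb : 0 < b) (hV : Vtv G p q a b)
    (hD : ∀ e i j, cf (G e) i j ≠ 0 → b ≤ j) {m d : ℕ} (hm : 0 < m) (hmd : m ≤ d)
    (h1 : ((N + a) * p + b * q) * m < p * d) (t : Test k) :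
    dmv N G p q m d t - dmv N G p q m d t.zr =
      ↑(Lu k ^ ((d - m) + (d - (d - (N + a) * m + b - 1) / b) : ℕ)) *
        Dev (mnv N G a b (d - (N + a) * m)) t := by
  have hdx : (N + a) * m < d := by
    have h3 : p * ((N + a) * m) < p * d := by
      calc p * ((N + a) * m) ≤ ((N + a) * p + b * q) * m := by nlinarith [Nat.zero_le (b * q * m)]
        _ < p * d := h1
    exact Nat.lt_of_mul_lt_mul_left h3
  obtain ⟨x, hx⟩ : ∃ x, x = d - (N + a) * m := ⟨_, rfl⟩
  rw [← hx]
  have hx' : d = (N + a) * m + x := by omega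
  have hx0 : 0 < x := by omega
  have h1' : b * q * m < p * x := by
    rw [hx'] at h1
    nlinarith
  obtain ⟨l₀, hl⟩ : ∃ l₀, l₀ = (x + b - 1) / b := ⟨_, rfl⟩
  rw [← hl]
  have hbl : x ≤ b * l₀ := by
    have := Nat.lt_mul_div_succ (x + b - 1) hb
    rw [← hl] at this
    have e : b * (l₀ + 1) = b * l₀ + b := by ring
    omega
  have hl0 : 0 < l₀ := by
    rcases Nat.eq_zero_or_pos l₀ with h | h
    · rw [h] at hbl; omega
    · exact h
  have hbx : b ∣ x ↔ b * l₀ = x := by
    constructor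
    · rintro ⟨y, rfl⟩
      rw [hl]
      congr 1
      have : b * y + b - 1 = b * y + (b - 1) := by omega
      rw [this, Nat.mul_add_div hb, Nat.div_eq_of_lt (by omega), add_zero]
    · intro h
      exact ⟨l₀, h.symm⟩
  have hql : q * m < p * l₀ := by
    have h2 : b * (q * m) < b * (p * l₀) := by
      calc b * (q * m) = b * q * m := by ring
        _ < p * x := h1'
        _ ≤ p * (b * l₀) := Nat.mul_le_mul_left p hbl
        _ = b * (p * l₀) := by ring
    exact Nat.lt_of_mul_lt_mul_left h2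
  have gen : ∀ l, q * m < p * l → ∀ e i j, cf (G e) i j ≠ 0 →
      a * m + b * l ≤ i * m + j * l ∧ (i * m + j * l = a * m + b * l → i = a ∧ j = b) := by
    intro l hl1 e i j hij
    have g1 := (hV.2 e i j hij).1
    have hj := hD e i j hij
    obtain ⟨y, rfl⟩ : ∃ y, j = b + y := ⟨j - b, by omega⟩
    have g3 : a * p ≤ i * p + y * q := by nlinarith [g1]
    have g4 : a * p * m ≤ (i * p + y * q) * m := Nat.mul_le_mul_right m g3
    have g5 : y * (q * m) ≤ y * (p * l) := Nat.mul_le_mul_left y hl1.le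
    have g6 : a * m ≤ i * m + y * l := by
      have : p * (a * m) ≤ p * (i * m + y * l) := by nlinarith
      exact Nat.le_of_mul_le_mul_left this hp
    refine ⟨by nlinarith, fun heq => ?_⟩
    have hy : y = 0 := by
      by_contra hy
      have g7 : y * (q * m) < y * (p * l) :=
        Nat.mul_lt_mul_of_pos_left hl1 (Nat.pos_of_ne_zero hy)
      have : p * (a * m) < p * (i * m + y * l) := by nlinarith
      have := Nat.lt_of_mul_lt_mul_left this
      nlinarith
    subst hy
    have g9 : i ≤ a := Nat.le_of_mul_le_mul_right (by nlinarith : i * m ≤ a * m) hm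
    have g10 : a ≤ i := Nat.le_of_mul_le_mul_right (by nlinarith : a * m ≤ i * m) hm
    exact ⟨by omega, by omega⟩
  have key : ∀ e i j, cf (G e) i j ≠ 0 → a * m + x ≤ i * m + j * l₀ ∧ (i * m + j * l₀ = a * m + x →
      ∃ n, n ≤ 0 ∧ i = a + 1 * n ∧ j = b - 0 * n) := by
    intro e i j hij
    have g := gen l₀ hql e i j hij
    refine ⟨by omega, fun heq => ?_⟩
    have := g.2 (by omega)
    exact ⟨0, le_rfl, by omega, by omega⟩
  have hP : ∀ e, ∀ α β : ℂ, aeval ![α, β] (mnv N G a b x e) =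
      α ^ N * lsum (G e) m l₀ (a * m + x) α β := by
    intro e α β
    rw [lsum_edge hm hl0 one_pos (fun i j hij => (key e i j hij).2) α β]
    unfold mnv
    simp only [zero_add, Finset.range_one, Finset.sum_singleton, mul_zero, add_zero, Nat.sub_zero]
    by_cases hc2 : b ∣ x
    · rw [if_pos hc2, if_pos (by rw [hbx] at hc2; rw [hc2]), aeval_ix, pow_add]
      ring
    · rw [if_neg hc2, if_neg, map_zero, mul_zero]
      intro h
      apply hc2
      rw [hbx]
      omega
  have hfin := fun t : Test k => dmv_gen (N := N) hb hV.1 hm hmd hx' hx0 h1' hl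
    (fun l hl1 _ => gen l hl1) (fun e i j hij => (key e i j hij).1) hP t
  rw [hfin t, hfin t.zr, ← mul_sub]
  rfl

end ZTD

end Pool.Agent.H75.Mono
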