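import Pool.Agent.H75.Idl.I0
import Pool.Agent.H75.Plc.ZRC
import Pool.Agent.H75.Plc.CN2
import Pool.Agent.H75.Plc.ZB

/-! # LIY, module LMZ: powers of a coordinate times units -/

set_option autoImplicit false

namespace Pool.Agent.H75.Mono

open MvPolynomial Pool.Agent.H39.MonoR

section LMZaux

/-- sequences which are periodic up to a factor -/
private theorem lmz_per {R : Type*} [CommRing R] {u : Rˣ} {T : Type*} {b : ℕ} (F : T → ℕ → R)
    (h : ∀ t n, 1 ≤ n → F t (n + b) = ↑(u ^ (-1 : ℤ)) * F t n) :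
    RatF u {(-1, b)} fun t => PowerSeries.mk fun n => if n = 0 then 0 else F t n := by
  refine ⟨{(-1, b)}, fun p hp => by simpa using hp, b + 1, fun t n hn => ?_⟩
  rw [Multiset.map_singleton, Multiset.prod_singleton, den', sub_mul, one_mul, map_sub, mul_assoc,
    PowerSeries.coeff_C_mul, PowerSeries.coeff_X_pow_mul', if_pos (by simp only; omega),
    PowerSeries.coeff_mk, PowerSeries.coeff_mk, if_neg (by omega), if_neg (by simp only; omega)]
  obtain ⟨m, rfl⟩ : ∃ m, n = m + b := ⟨n - b, by omega⟩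
  simp only [Nat.add_sub_cancel]
  rw [h t m (by omega), sub_self]

private theorem lmz_ceil {b : ℕ} (hb : 0 < b) (n : ℕ) :
    (n + b + b - 1) / b = (n + b - 1) / b + 1 := by
  have : n + b + b - 1 = (n + b - 1) + b := by omega
  rw [this, Nat.add_div_right _ hb]

private theorem lmz_ceil_le {b : ℕ} (hb : 0 < b) (d : ℕ) : d ≤ b * ((d + b - 1) / b) := by
  have h1 := Nat.div_add_mod (d + b - 1) b
  have h2 := Nat.mod_lt (d + b - 1) hb
  omega

private theorem lmz_lt_ceil {b : ℕ} (hb : 0 < b) {d n : ℕ} :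
    n < (d + b - 1) / b ↔ b * n < d := by
  rw [← Nat.succ_le_iff, Nat.le_div_iff_mul_le hb]
  constructor
  · intro h
    have : (n + 1) * b = b * n + b := by ring
    rw [Nat.succ_eq_add_one] at h
    omega
  · intro h
    have : (n + 1) * b = b * n + b := by ring
    rw [Nat.succ_eq_add_one]
    omega

private theorem lmz_ceil_dvd {b : ℕ} (hb : 0 < b) {d : ℕ} (h : b ∣ d) :
    b * ((d + b - 1) / b) = d := by
  obtain ⟨c, rfl⟩ := h
  have : (b * c + b - 1) / b = c := by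
    refine Nat.div_eq_of_lt_le ?_ ?_
    · rw [mul_comm c b]
      omega
    · have : (c + 1) * b = b * c + b := by ring
      rw [this]
      omega
  rw [this]

private theorem lmz_hpow {b : ℕ} (V : PowerSeries ℂ) : ∀ n (y' : PowerSeries ℂ),
    (PowerSeries.X ^ n * y') ^ b * V = PowerSeries.X ^ (b * n) * (y' ^ b * V) := by
  intro n y'
  rw [mul_pow, ← pow_mul, mul_comm n b, mul_assoc]

private theorem lmz_hcoe : ∀ n (y' : PowerSeries ℂ),
    PowerSeries.coeff n (PowerSeries.X ^ n * y') = PowerSeries.constantCoeff y' := by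
  intro n y'
  rw [PowerSeries.coeff_X_pow_mul', if_pos le_rfl, Nat.sub_self,
    PowerSeries.coeff_zero_eq_constantCoeff_apply]

/-- the coefficients of `y^b V` if the order of `y` is large -/
private theorem lmz_key {b d : ℕ} (hb : 0 < b) (y V : PowerSeries ℂ)
    (h : ∀ l, l < (d + b - 1) / b → PowerSeries.coeff l y = 0) :
    (∀ l, l < d → PowerSeries.coeff l (y ^ b * V) = 0) ∧
      PowerSeries.coeff d (y ^ b * V) = if b ∣ d then PowerSeries.constantCoeff V *
        PowerSeries.coeff ((d + b - 1) / b) y ^ b else 0 := by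
  obtain ⟨y', rfl⟩ := PowerSeries.X_pow_dvd_iff.2 h
  rw [lmz_hpow, lmz_hcoe]
  have h0 := lmz_ceil_le hb d
  refine ⟨fun l hl => ?_, ?_⟩
  · rw [PowerSeries.coeff_X_pow_mul', if_neg (by omega)]
  · by_cases hbd : b ∣ d
    · rw [if_pos hbd, lmz_ceil_dvd hb hbd, lmz_hcoe, map_mul, map_pow, mul_comm]
    · rw [if_neg hbd, PowerSeries.coeff_X_pow_mul', if_neg]
      intro h1
      exact hbd ⟨_, le_antisymm h0 h1⟩

/-- the order of `y` -/
private theorem lmz_ord {b d : ℕ} (hb : 0 < b) (y V : PowerSeries ℂ)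
    (hV : PowerSeries.constantCoeff V ≠ 0)
    (h : ∀ l, l < d → PowerSeries.coeff l (y ^ b * V) = 0) :
    ∀ l, l < (d + b - 1) / b → PowerSeries.coeff l y = 0 := by
  intro l
  induction l using Nat.strong_induction_on with
  | _ l ih =>
  intro hl
  have h2 := (lmz_lt_ceil hb).1 hl
  obtain ⟨y', rfl⟩ := PowerSeries.X_pow_dvd_iff.2 fun m hm => ih m hm (hm.trans hl)
  have h3 := h (b * l) h2
  rw [lmz_hpow, lmz_hcoe, map_mul, map_pow] at h3
  rw [lmz_hcoe]
  rcases mul_eq_zero.1 h3 with h4 | h4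
  · exact pow_eq_zero_iff hb.ne' |>.1 h4
  · exact absurd h4 hV

variable {k : Type} [Field k] {b : ℕ} {G : PS k}

private theorem lmz_ix (n : Fin 2 →₀ ℕ) : ix (n 0) (n 1) = n := by
  ext i
  unfold ix
  fin_cases i <;> simp

private noncomputable def lmzDv (b : ℕ) (G : PS k) : PS k :=
  fun n => MvPowerSeries.coeff (n + Finsupp.single 1 b) G

private theorem lmz_dv_spec (hs : ∀ i j, cf G i j ≠ 0 → b ≤ j) :
    G = MvPowerSeries.X 1 ^ b * lmzDv b G := by
  ext n
  rw [MvPowerSeries.X_pow_eq, MvPowerSeries.coeff_monomial_mul, one_mul]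
  split_ifs with h
  · show _ = MvPowerSeries.coeff (n - Finsupp.single 1 b + Finsupp.single 1 b) G
    rw [tsub_add_cancel_of_le h]
  · by_contra h1
    apply h
    have h2 := hs (n 0) (n 1) (by rwa [cf, lmz_ix])
    intro i
    fin_cases i
    · simp
    · simpa using h2

private theorem lmz_dv_cc (G : PS k) :
    MvPowerSeries.constantCoeff (lmzDv b G) = cf G 0 b := by
  show MvPowerSeries.coeff (0 + Finsupp.single 1 b) G = _
  rw [cf, ix, Finsupp.single_zero]

end LMZaux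

section LMZ

variable {k : Type} [Field k] [Algebra k ℂ] {r : ℕ} {b : ℕ} {G : Fin (r + 1) → PS k}

private theorem lmz_org {d : ℕ} (φ : Fin 2 × Fin (d + 1) → ℂ) :
    org φ = 0 ↔ φ (0, 0) = 0 ∧ φ (1, 0) = 0 := by
  constructor
  · intro h
    exact ⟨congrFun h 0, congrFun h 1⟩
  · rintro ⟨h0, h1⟩
    funext i
    fin_cases i
    · exact h0
    · exact h1

private theorem lmz_arc_cc {d : ℕ} {φ : Fin 2 × Fin (d + 1) → ℂ} (h : org φ = 0) (i : Fin 2) :
    PowerSeries.constantCoeff (arc φ i) = 0 := by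
  rw [← PowerSeries.coeff_zero_eq_constantCoeff_apply, coeff_arc, dif_pos (Nat.succ_pos d)]
  exact congrFun h i

/-- one component, as a statement on coefficients -/
private theorem lmz_hit {H : PS k} (hs : ∀ i j, cf H i j ≠ 0 → b ≤ j)
    {d : ℕ} (φ : Fin 2 × Fin (d + 1) → ℂ) (h : org φ = 0) (c : ℂ) :
    Hit (tp d H) d φ c ↔ ∀ l, l ≤ d → PowerSeries.coeff l
      (arc φ 1 ^ b * ev (lmzDv b H) (arc φ 0) (arc φ 1)) = if l = d then c else 0 := by
  have h1 := hit_ev 0 H φ h c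
  rw [pow_zero, one_mul] at h1
  rw [h1]
  have hx := lmz_arc_cc h 0
  have hy := lmz_arc_cc h 1
  have e : arc φ 0 ^ 0 * ev H (arc φ 0) (arc φ 1) =
      arc φ 1 ^ b * ev (lmzDv b H) (arc φ 0) (arc φ 1) := by
    rw [pow_zero, one_mul]
    conv_lhs => rw [lmz_dv_spec hs]
    rw [ev_mul hx hy, ev_pow hx hy, ev_X1 hx hy]
  rw [e]

private theorem lmz_htv (hG : ∃ e, cf (G e) 0 b ≠ 0) (hs : ∀ e i j, cf (G e) i j ≠ 0 → b ≤ j)
    (hb : 0 < b) {d : ℕ} (φ : Fin 2 × Fin (d + 1) → ℂ) (h : org φ = 0) (c : ℂ) :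
    Htv (fun e => tp d (G e)) d φ c ↔
      (∀ l, l < (d + b - 1) / b → PowerSeries.coeff l (arc φ 1) = 0) ∧
      ∀ e, (if b ∣ d then algebraMap k ℂ (cf (G e) 0 b) *
        PowerSeries.coeff ((d + b - 1) / b) (arc φ 1) ^ b else 0) = if e = 0 then c else 0 := by
  have hx := lmz_arc_cc h 0
  have hy := lmz_arc_cc h 1
  have hV : ∀ e, PowerSeries.constantCoeff (ev (lmzDv b (G e)) (arc φ 0) (arc φ 1)) =
      algebraMap k ℂ (cf (G e) 0 b) := by
    intro e
    rw [constantCoeff_ev hx hy, lmz_dv_cc]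
  unfold Htv
  constructor
  · intro h1
    obtain ⟨e0, he0⟩ := hG
    have h2 := (lmz_hit (hs e0) φ h _).1 (h1 e0)
    have h3 := lmz_ord hb (arc φ 1) (ev (lmzDv b (G e0)) (arc φ 0) (arc φ 1)) (by
      rw [hV]
      exact fun h0 => he0 ((algebraMap k ℂ).injective (by rw [h0, map_zero])))
      (fun l hl => by rw [h2 l hl.le, if_neg hl.ne])
    refine ⟨h3, fun e => ?_⟩
    have h4 := (lmz_hit (hs e) φ h _).1 (h1 e) d le_rfl
    rw [(lmz_key hb _ _ h3).2, if_pos rfl, hV] at h4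
    exact h4
  · rintro ⟨h1, h2⟩ e
    rw [lmz_hit (hs e) φ h]
    intro l hl
    obtain ⟨h3, h4⟩ := lmz_key hb (arc φ 1) (ev (lmzDv b (G e)) (arc φ 0) (arc φ 1)) h1
    by_cases hld : l = d
    · rw [if_pos hld, hld, h4, hV, h2 e]
    · rw [if_neg hld, h3 l (by omega)]

private theorem lmz_pf (d b : ℕ) (g : k) {E : Type} [Aff E] :
    PFun k (fun x : (Fin 2 × Fin 1 → ℂ) × E =>
      if b ∣ d then algebraMap k ℂ g * x.1 (1, 0) ^ b else 0) := by
  by_cases h : b ∣ d
  · simp only [if_pos h]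
    exact (PFun.const g).mul ((PFun.comp (f := fun φ : Fin 2 × Fin 1 → ℂ => φ (1, 0))
      (PFun.apply (1, 0)) PMap.fst).pow b)
  · simp only [if_neg h]
    exact PFun.zero

private theorem lmz_pfc (e : Fin (r + 1)) (t : Test k) :
    PFun k (fun x : (Fin 2 × Fin 1 → ℂ) × t.E => if e = 0 then t.c x.2 else 0) := by
  by_cases h : e = 0
  · simp only [if_pos h]
    exact t.pf.comp PMap.snd
  · simp only [if_neg h]
    exact PFun.zero

private theorem lmz_lcv (hG : ∃ e, cf (G e) 0 b ≠ 0) (hs : ∀ e i j, cf (G e) i j ≠ 0 → b ≤ j)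
    (hb : 0 < b) {d : ℕ} (hd : 0 < d) (t : Test k) :
    lcv G d t = ↑(Lu k ^ (-(1 + ((d + b - 1) / b : ℕ)) : ℤ)) *
      mo k {x : (Fin 2 × Fin 1 → ℂ) × t.E | x.2 ∈ t.W ∧
        ∀ e, (if b ∣ d then algebraMap k ℂ (cf (G e) 0 b) * x.1 (1, 0) ^ b else 0) =
          if e = 0 then t.c x.2 else 0} := by
  set l0 := (d + b - 1) / b with hl0
  have hl1 : 0 < l0 := (lmz_lt_ceil hb).2 (by omega)
  have hl2 : l0 ≤ d := by
    by_contra h
    push Not at h
    have h1 := (lmz_lt_ceil hb).1 h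
    have : d ≤ b * d := Nat.le_mul_of_pos_left d hb
    omega
  have hA : ICons k {x : (Fin 2 × Fin 1 → ℂ) × t.E | x.2 ∈ t.W ∧
      ∀ e, (if b ∣ d then algebraMap k ℂ (cf (G e) 0 b) * x.1 (1, 0) ^ b else 0) =
        if e = 0 then t.c x.2 else 0} :=
    (t.cW.mem PMap.snd).and (ICons.forall_fin fun e =>
      ICons.eq (lmz_pf d b _) (lmz_pfc e t))
  have hsft := mo_sft (k := k) (K := 1) (N := d + 1) (e := ![1, l0]) (by
    intro i
    fin_cases i
    · simp
      omega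
    · simp
      omega) hA
  have e : {x : (Fin 2 × Fin (d + 1) → ℂ) × t.E | x.2 ∈ t.W ∧ org x.1 = 0 ∧
      Htv (fun e => tp d (G e)) d x.1 (t.c x.2)} = {x : (Fin 2 × Fin (d + 1) → ℂ) × t.E |
      (∀ (i : Fin 2) (l : Fin (d + 1)), (l : ℕ) < (![1, l0] : Fin 2 → ℕ) i → x.1 (i, l) = 0) ∧
        (sft ![1, l0] x.1, x.2) ∈ {x : (Fin 2 × Fin 1 → ℂ) × t.E | x.2 ∈ t.W ∧
      ∀ e, (if b ∣ d then algebraMap k ℂ (cf (G e) 0 b) * x.1 (1, 0) ^ b else 0) =
        if e = 0 then t.c x.2 else 0}} := by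
    ext ⟨φ, w⟩
    have hs0 : (sft ![1, l0] φ : Fin 2 × Fin 1 → ℂ) (1, 0) = PowerSeries.coeff l0 (arc φ 1) := by
      rw [coeff_arc]
      simp [sft]
    simp only [Set.mem_ofPred_eq]
    rw [hs0]
    constructor
    · rintro ⟨h1, h2, h3⟩
      rw [lmz_htv hG hs hb φ h2] at h3
      refine ⟨fun i l hl => ?_, h1, h3.2⟩
      fin_cases i
      · have : l = 0 := by
          apply Fin.ext
          simpa using hl
        subst this
        exact ((lmz_org φ).1 h2).1
      · have h4 := h3.1 l (by simpa using hl)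
        rw [coeff_arc, dif_pos l.2] at h4
        exact h4
    · rintro ⟨h1, h2, h3⟩
      have h4 : org φ = 0 := (lmz_org φ).2 ⟨h1 0 0 (by simp), h1 1 0 (by simpa using hl1)⟩
      refine ⟨h2, h4, ?_⟩
      rw [lmz_htv hG hs hb φ h4]
      refine ⟨fun l hl => ?_, h3⟩
      rw [coeff_arc, dif_pos (by omega)]
      exact h1 1 ⟨l, by omega⟩ (by simpa using hl)
  rw [lcv, e, hsft]
  simp only [Matrix.cons_val_zero, Matrix.cons_val_one]
  rw [mul_comm, ← mul_assoc]
  congr 1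
  rw [← Units.val_mul, ← zpow_natCast, ← zpow_add]
  congr 2
  have : ((d + 1 - 1 - 1 + (d + 1 - l0 - 1) : ℕ) : ℤ) = 2 * d - 1 - l0 := by
    omega
  rw [this]
  push_cast
  ring

theorem lcv_mono_zero (hG : ∃ e, cf (G e) 0 b ≠ 0) (hs : ∀ e i j, cf (G e) i j ≠ 0 → b ≤ j)
    (hb : 0 < b) : RatF (Lu k) {(-1, b)} (fun t : Test k => PowerSeries.mk fun d =>
      if d = 0 then 0 else lcv G d t - lcv G d t.zr) := by
  refine lmz_per (fun (t : Test k) d => lcv G d t - lcv G d t.zr) fun t n hn => ?_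
  rw [lmz_lcv hG hs hb (by omega : 0 < n + b), lmz_lcv hG hs hb (by omega : 0 < n + b),
    lmz_lcv hG hs hb (by omega : 0 < n), lmz_lcv hG hs hb (by omega : 0 < n)]
  simp only [Nat.dvd_add_self_right, lmz_ceil hb n]
  have : (Lu k ^ (-(1 + (((n + b - 1) / b + 1 : ℕ) : ℤ))) : (M k)ˣ) =
      Lu k ^ (-1 : ℤ) * Lu k ^ (-(1 + (((n + b - 1) / b : ℕ) : ℤ))) := by
    rw [← zpow_add]
    congr 1
    push_cast
    ring
  rw [this, Units.val_mul]
  ring

end LMZ

end Pool.Agent.H75.Mono
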