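import Pool.Agent.H75.Idl.I0
import Pool.Agent.H75.Plc.LIN

/-! # LIY, module LN1: tuples of order one -/

set_option autoImplicit false

namespace Pool.Agent.H75.Mono

open MvPolynomial Pool.Agent.H39.MonoR

section LN1

variable {k : Type} [Field k] {r : ℕ} {G : Fin (r + 1) → PS k}

private noncomputable def ln1L (α β : k) : MvPolynomial (Fin 2) k :=
  MvPolynomial.C α * MvPolynomial.X 0 + MvPolynomial.C β * MvPolynomial.X 1

private theorem ln1L_homog (α β : k) : (ln1L α β).IsHomogeneous 1 := by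
  unfold ln1L
  have h0 := (MvPolynomial.isHomogeneous_C (Fin 2) α).mul
    (MvPolynomial.isHomogeneous_X k (0 : Fin 2))
  have h1 := (MvPolynomial.isHomogeneous_C (Fin 2) β).mul
    (MvPolynomial.isHomogeneous_X k (1 : Fin 2))
  rw [zero_add] at h0 h1
  exact h0.add h1

private theorem ln1L_const (α β : k) : MvPolynomial.constantCoeff (ln1L α β) = 0 := by
  unfold ln1L
  simp

private theorem ln1L_cf0 (α β : k) : cf (ln1L α β : PS k) 1 0 = α := by
  unfold cf
  rw [MvPolynomial.coeff_coe, lin_coeff (ln1L_homog α β) rfl]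
  unfold ln1L
  simp only [map_add, map_mul, MvPolynomial.aeval_C, MvPolynomial.aeval_X,
      Matrix.cons_val_zero, Matrix.cons_val_one, mul_one, Polynomial.algebraMap_apply,
      Algebra.algebraMap_self, RingHom.id_apply, Polynomial.coeff_add, Polynomial.coeff_C_mul,
      Polynomial.coeff_X_one, Polynomial.coeff_C, one_ne_zero, if_false, add_zero]

private theorem ln1L_cf1 (α β : k) : cf (ln1L α β : PS k) 0 1 = β := by
  unfold cf
  rw [MvPolynomial.coeff_coe, lin_coeff (ln1L_homog α β) rfl]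
  unfold ln1L
  simp only [map_add, map_mul, MvPolynomial.aeval_C, MvPolynomial.aeval_X,
      Matrix.cons_val_zero, Matrix.cons_val_one, mul_one, Polynomial.algebraMap_apply,
      Algebra.algebraMap_self, RingHom.id_apply, Polynomial.coeff_add, Polynomial.coeff_C_mul,
      Polynomial.coeff_X_zero, Polynomial.coeff_C, if_true, mul_zero, zero_add]

private theorem ln1L_cc (α β : k) : MvPowerSeries.constantCoeff (ln1L α β : PS k) = 0 := by
  rw [← MvPowerSeries.coeff_zero_eq_constantCoeff_apply, MvPolynomial.coeff_coe]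
  exact ln1L_const α β

/-- the linear terms after a linear substitution -/
private theorem ln1_sub {G : PS k} (h : ∀ i j, cf G i j ≠ 0 → 1 ≤ i + j) (A B C' D : k) :
    cf (MvPowerSeries.subst (![((ln1L A B : MvPolynomial (Fin 2) k) : PS k),
      ((ln1L C' D : MvPolynomial (Fin 2) k) : PS k)] : Fin 2 → PS k) G) 1 0 =
        cf G 1 0 * A + cf G 0 1 * C' ∧
    cf (MvPowerSeries.subst (![((ln1L A B : MvPolynomial (Fin 2) k) : PS k),
      ((ln1L C' D : MvPolynomial (Fin 2) k) : PS k)] : Fin 2 → PS k) G) 0 1 =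
        cf G 1 0 * B + cf G 0 1 * D := by
  have hf : lin_form G 1 (ln1L A B) (ln1L C' D) =
      MvPolynomial.C (cf G 1 0) * ln1L A B + MvPolynomial.C (cf G 0 1) * ln1L C' D := by
    unfold lin_form
    rw [Finset.sum_range_succ, Finset.sum_range_one]
    simp
  have h0 : ∀ α β : k, MvPolynomial.coeff (ix 1 0) (ln1L α β) = α := fun α β => by
    have := ln1L_cf0 α β
    unfold cf at this
    rwa [MvPolynomial.coeff_coe] at this
  have h1 : ∀ α β : k, MvPolynomial.coeff (ix 0 1) (ln1L α β) = β := fun α β => by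
    have := ln1L_cf1 α β
    unfold cf at this
    rwa [MvPolynomial.coeff_coe] at this
  constructor
  · rw [lin_top h (ln1L_const _ _) (ln1L_const _ _) (by norm_num : 1 + 0 = 1), hf,
      MvPolynomial.coeff_add, MvPolynomial.coeff_C_mul, MvPolynomial.coeff_C_mul, h0, h0]
  · rw [lin_top h (ln1L_const _ _) (ln1L_const _ _) (by norm_num : 0 + 1 = 1), hf,
      MvPolynomial.coeff_add, MvPolynomial.coeff_C_mul, MvPolynomial.coeff_C_mul, h1, h1]

theorem cone_one (h : ∀ e i j, cf (G e) i j ≠ 0 → 1 ≤ i + j)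
    (h' : ∃ e i j, i + j = 1 ∧ cf (G e) i j ≠ 0) :
    (∃ i i' : Fin r, cf (G i.succ) 1 0 * cf (G i'.succ) 0 1 -
      cf (G i.succ) 0 1 * cf (G i'.succ) 1 0 ≠ 0) ∨
    (∃ v0 v1 : k, cf (G 0) 1 0 * v0 + cf (G 0) 0 1 * v1 ≠ 0 ∧
      ∀ e, e ≠ 0 → cf (G e) 1 0 * v0 + cf (G e) 0 1 * v1 = 0) ∨
    ∃ a : Fin 2 → PS k, (∀ i, MvPowerSeries.constantCoeff (a i) = 0) ∧
      cf (a 0) 1 0 * cf (a 1) 0 1 - cf (a 0) 0 1 * cf (a 1) 1 0 ≠ 0 ∧
      (∃ e, e ≠ 0 ∧ cf (sbv a G e) 0 1 ≠ 0) ∧
      ∀ e i j, cf (sbv a G e) i j ≠ 0 → 1 ≤ i + j ∧ (i + j = 1 → i = 0 ∧ j = 1) := by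
  by_cases hA : ∃ i i' : Fin r, cf (G i.succ) 1 0 * cf (G i'.succ) 0 1 -
      cf (G i.succ) 0 1 * cf (G i'.succ) 1 0 ≠ 0
  · exact Or.inl hA
  refine Or.inr ?_
  push Not at hA
  by_cases hB : ∀ e : Fin (r + 1), e ≠ 0 → cf (G e) 1 0 = 0 ∧ cf (G e) 0 1 = 0
  · -- only the component `0` has linear terms
    refine Or.inl ?_
    obtain ⟨e, i, j, hij, hne⟩ := h'
    have he : e = 0 := by
      by_contra he
      obtain ⟨b1, b2⟩ := hB e he
      rcases (by omega : (i = 1 ∧ j = 0) ∨ (i = 0 ∧ j = 1)) with ⟨rfl, rfl⟩ | ⟨rfl, rfl⟩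
      · exact hne b1
      · exact hne b2
    subst he
    rcases (by omega : (i = 1 ∧ j = 0) ∨ (i = 0 ∧ j = 1)) with ⟨rfl, rfl⟩ | ⟨rfl, rfl⟩
    · refine ⟨1, 0, by simpa using hne, fun e he => ?_⟩
      obtain ⟨b1, b2⟩ := hB e he
      rw [b1, b2]
      ring
    · refine ⟨0, 1, by simpa using hne, fun e he => ?_⟩
      obtain ⟨b1, b2⟩ := hB e he
      rw [b1, b2]
      ring
  · push Not at hB
    obtain ⟨e1, he1, hL⟩ := hB
    obtain ⟨i1, rfl⟩ := Fin.exists_succ_eq.2 he1
    set u := cf (G i1.succ) 1 0 with hu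
    set v := cf (G i1.succ) 0 1 with hv
    by_cases h0 : cf (G 0) 1 0 * v - cf (G 0) 0 1 * u ≠ 0
    · refine Or.inl ⟨v, -u, ?_, fun e he => ?_⟩
      · intro h1
        apply h0
        rw [← h1]
        ring
      · obtain ⟨i, rfl⟩ := Fin.exists_succ_eq.2 he
        have := hA i i1
        rw [← hu, ← hv] at this
        rw [← this]
        ring
    · push Not at h0
      refine Or.inr ?_
      -- all linear forms are proportional
      have hall : ∀ e : Fin (r + 1), cf (G e) 1 0 * v - cf (G e) 0 1 * u = 0 := by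
        intro e
        rcases Fin.eq_zero_or_eq_succ e with rfl | ⟨i, rfl⟩
        · exact h0
        · have := hA i i1
          rwa [← hu, ← hv] at this
      obtain ⟨b, d, hbd⟩ : ∃ b d : k, u * b + v * d = 1 := by
        by_cases hu0 : u = 0
        · exact ⟨0, v⁻¹, by rw [mul_zero, zero_add, mul_inv_cancel₀ (hL hu0)]⟩
        · exact ⟨u⁻¹, 0, by rw [mul_zero, add_zero, mul_inv_cancel₀ hu0]⟩
      refine ⟨![((ln1L v b : MvPolynomial (Fin 2) k) : PS k),
        ((ln1L (-u) d : MvPolynomial (Fin 2) k) : PS k)], ?_, ?_, ⟨i1.succ, he1, ?_⟩, ?_⟩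
      · intro i
        fin_cases i
        · exact ln1L_cc v b
        · exact ln1L_cc (-u) d
      · show cf ((ln1L v b : MvPolynomial (Fin 2) k) : PS k) 1 0 *
          cf ((ln1L (-u) d : MvPolynomial (Fin 2) k) : PS k) 0 1 -
            cf ((ln1L v b : MvPolynomial (Fin 2) k) : PS k) 0 1 *
              cf ((ln1L (-u) d : MvPolynomial (Fin 2) k) : PS k) 1 0 ≠ 0
        rw [ln1L_cf0, ln1L_cf0, ln1L_cf1, ln1L_cf1]
        have e : v * d - b * -u = 1 := by rw [← hbd]; ring
        rw [e]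
        exact one_ne_zero
      · show cf (MvPowerSeries.subst _ (G i1.succ)) 0 1 ≠ 0
        rw [(ln1_sub (h i1.succ) v b (-u) d).2, ← hu, ← hv, hbd]
        exact one_ne_zero
      · intro e i j hij
        have hij' : cf (MvPowerSeries.subst (![((ln1L v b : MvPolynomial (Fin 2) k) : PS k),
          ((ln1L (-u) d : MvPolynomial (Fin 2) k) : PS k)] : Fin 2 → PS k) (G e)) i j ≠ 0 := hij
        have h1 : 1 ≤ i + j := by
          refine lin_lower (h e) ?_ i j hij'
          intro i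
          fin_cases i
          · exact ln1L_cc v b
          · exact ln1L_cc (-u) d
        refine ⟨h1, fun h2 => ?_⟩
        rcases (by omega : (i = 1 ∧ j = 0) ∨ (i = 0 ∧ j = 1)) with ⟨rfl, rfl⟩ | h3
        · exfalso
          apply hij'
          rw [(ln1_sub (h e) v b (-u) d).1]
          have := hall e
          rw [← this]
          ring
        · exact h3

end LN1

end Pool.Agent.H75.Mono
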