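import Pool.Agent.H75.Idl.GNY
import Pool.Agent.H75.Idl.EVT
import Pool.Agent.H75.Plc.LIN

/-! # LIY, module LNV: the tangent cone -/

set_option autoImplicit false
set_option linter.unusedSectionVars false

namespace Pool.Agent.H75.Mono

open MvPolynomial Pool.Agent.H39.MonoR

section LNVaux

variable {k : Type} [Field k] [CharZero k] [IsAlgClosed k] {r : ℕ}

private theorem lnv_mem_rts {P : Polynomial k} {μ : k} : μ ∈ rts P ↔ P ≠ 0 ∧ P.eval μ = 0 := by
  classical
  unfold rts
  rw [Multiset.mem_toFinset, Polynomial.mem_roots', Polynomial.IsRoot.def]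

private theorem lnv_mem_rtv {Q : Fin (r + 1) → Polynomial k} {μ : k} :
    μ ∈ rtv Q ↔ (∃ e, Q e ≠ 0) ∧ ∀ e, (Q e).eval μ = 0 := by
  classical
  unfold rtv
  rw [Finset.mem_filter, Finset.mem_biUnion]
  constructor
  · rintro ⟨⟨e, _, h1⟩, h2⟩
    exact ⟨⟨e, (lnv_mem_rts.1 h1).1⟩, h2⟩
  · rintro ⟨⟨e, h1⟩, h2⟩
    exact ⟨⟨e, Finset.mem_univ _, lnv_mem_rts.2 ⟨h1, h2 e⟩⟩, h2⟩

private theorem lnv_dvd (Q : Fin (r + 1) → Polynomial k) (μ : k) (e : Fin (r + 1)) :
    (Polynomial.X - Polynomial.C μ) ^ mlt Q μ ∣ Q e := by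
  by_cases h : Q e = 0
  · rw [h]
    exact dvd_zero _
  · have h1 : mlt Q μ ≤ (Q e).rootMultiplicity μ := Nat.sInf_le ⟨e, h, rfl⟩
    exact (pow_dvd_pow _ h1).trans (Polynomial.pow_rootMultiplicity_dvd _ _)

private theorem lnv_ndvd {Q : Fin (r + 1) → Polynomial k} (μ : k) (h : ∃ e, Q e ≠ 0) :
    ∃ e, Q e ≠ 0 ∧ (Q e).rootMultiplicity μ = mlt Q μ := by
  have h1 : mlt Q μ ∈ {n | ∃ e, Q e ≠ 0 ∧ (Q e).rootMultiplicity μ = n} := by
    apply Nat.sInf_mem
    obtain ⟨e, he⟩ := h
    exact ⟨_, e, he, rfl⟩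
  exact h1

/-- the polynomial of the edge of the tangent cone -/
private theorem lnv_edp (G : PS k) (n : ℕ) : edp G 0 n 1 1 n = lin_pol G n := by
  unfold edp lin_pol
  rw [← Finset.sum_range_reflect]
  refine Finset.sum_congr rfl fun l hl => ?_
  have hl' := Nat.lt_succ_iff.mp (Finset.mem_range.mp hl)
  have e1 : n + 1 - 1 - l = n - l := by omega
  have e2 : 0 + 1 * (n - l) = n - l := by omega
  have e3 : n - 1 * (n - l) = l := by omega
  have e4 : n - (n - l) = l := by omega
  rw [e1, e2, e3, e4]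

/-- the conclusion -/
private def lnv_P (n : ℕ) (G : Fin (r + 1) → PS k) : Prop :=
  (∃ E, Edv G 0 n 1 1 E ∧ (n ≤ 2 ∨ ∃ y : Fin (r + 1) → k, y 0 = 1 ∧
      Edge (cmG y G) 0 n 1 1 E ∧
      ((E < n ∧ 2 ≤ (rts (edp (cmG y G) 0 n 1 1 E)).card) ∨
        3 ≤ (rts (edp (cmG y G) 0 n 1 1 E)).card))) ∨
    (3 ≤ n ∧ Edv G 0 n 1 1 1 ∧ rtv (edv G 0 n 1 1 1) = ∅) ∨
    ∃ m b, m + b = n ∧ 0 < b ∧ (m = 0 ∨ (3 ≤ n ∧ 2 ≤ b)) ∧ (∃ e, cf (G e) m b ≠ 0) ∧
      ∀ e i j, cf (G e) i j ≠ 0 → n ≤ i + j ∧ (i + j = n → i = m ∧ j = b)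

/-- a linear substitution -/
private noncomputable def lnv_a (A B C D : k) : Fin 2 → PS k :=
  ![((lin2 A B : MvPolynomial (Fin 2) k) : PS k), ((lin2 C D : MvPolynomial (Fin 2) k) : PS k)]

private theorem lnv_a_cc (A B C D : k) (i : Fin 2) :
    MvPowerSeries.constantCoeff (lnv_a A B C D i) = 0 := by
  fin_cases i
  · exact lin2_cc A B
  · exact lin2_cc C D

private theorem lnv_a_det (A B C D : k) :
    cf (lnv_a A B C D 0) 1 0 * cf (lnv_a A B C D 1) 0 1 -
      cf (lnv_a A B C D 0) 0 1 * cf (lnv_a A B C D 1) 1 0 = A * D - B * C := by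
  show cf ((lin2 A B : MvPolynomial (Fin 2) k) : PS k) 1 0 *
    cf ((lin2 C D : MvPolynomial (Fin 2) k) : PS k) 0 1 -
      cf ((lin2 A B : MvPolynomial (Fin 2) k) : PS k) 0 1 *
        cf ((lin2 C D : MvPolynomial (Fin 2) k) : PS k) 1 0 = A * D - B * C
  rw [lin2_cf0, lin2_cf0, lin2_cf1, lin2_cf1]

private theorem lnv_subst_lin2 (A B C D α β : k) :
    MvPowerSeries.subst (lnv_a A B C D) ((lin2 α β : MvPolynomial (Fin 2) k) : PS k) =
      ((lin2 (α * A + β * C) (α * B + β * D) : MvPolynomial (Fin 2) k) : PS k) := by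
  have hc : ∀ q : MvPolynomial (Fin 2) k, (q : PS k) =
    MvPolynomial.coeToMvPowerSeries.ringHom q := fun q => rfl
  have h1 : MvPowerSeries.subst (lnv_a A B C D) ((lin2 α β : MvPolynomial (Fin 2) k) : PS k) =
      ((MvPolynomial.C α * lin2 A B + MvPolynomial.C β * lin2 C D : MvPolynomial (Fin 2) k) :
        PS k) := by
    rw [MvPowerSeries.subst_coe]
    conv_lhs => unfold lin2
    rw [hc, map_add, map_add, map_mul, map_mul, map_mul, map_mul, MvPolynomial.aeval_X,
      MvPolynomial.aeval_X, MvPolynomial.aeval_C, MvPolynomial.aeval_C, ← hc, ← hc, ← hc, ← hc,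
      MvPolynomial.coe_C, MvPolynomial.coe_C]
    rfl
  rw [h1]
  congr 1
  unfold lin2
  simp only [map_add, map_mul]
  ring

private theorem lnv_comp (A B C D A' B' C' D' : k) (G : Fin (r + 1) → PS k) :
    sbv (lnv_a A' B' C' D') (sbv (lnv_a A B C D) G) =
      sbv (lnv_a (A * A' + B * C') (A * B' + B * D') (C * A' + D * C') (C * B' + D * D')) G := by
  funext e
  have hs1 := MvPowerSeries.hasSubst_of_constantCoeff_zero (lnv_a_cc A B C D)
  have hs2 := MvPowerSeries.hasSubst_of_constantCoeff_zero (lnv_a_cc A' B' C' D')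
  show MvPowerSeries.subst (lnv_a A' B' C' D') (MvPowerSeries.subst (lnv_a A B C D) (G e)) =
    MvPowerSeries.subst _ (G e)
  rw [MvPowerSeries.subst_comp_subst_apply hs1 hs2]
  congr 1
  funext i
  fin_cases i
  · exact lnv_subst_lin2 A' B' C' D' A B
  · exact lnv_subst_lin2 A' B' C' D' C D

private theorem lnv_done {n : ℕ} {G : Fin (r + 1) → PS k} {A B C D A' B' C' D' : k}
    (h1 : A * D - B * C ≠ 0) (h2 : A' * D' - B' * C' ≠ 0)
    (h : lnv_P n (sbv (lnv_a A' B' C' D') (sbv (lnv_a A B C D) G))) : ∃ a : Fin 2 → PS k,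
    (∀ i, MvPowerSeries.constantCoeff (a i) = 0) ∧
    cf (a 0) 1 0 * cf (a 1) 0 1 - cf (a 0) 0 1 * cf (a 1) 1 0 ≠ 0 ∧ lnv_P n (sbv a G) := by
  rw [lnv_comp] at h
  refine ⟨_, lnv_a_cc _ _ _ _, ?_, h⟩
  rw [lnv_a_det]
  have e : (A * A' + B * C') * (C * B' + D * D') - (A * B' + B * D') * (C * A' + D * C') =
      (A * D - B * C) * (A' * D' - B' * C') := by ring
  rw [e]
  exact mul_ne_zero h1 h2

/-- coefficients of total degree `n` after a linear substitution -/
private theorem lnv_top {G : PS k} {n : ℕ} (h : ∀ i j, cf G i j ≠ 0 → n ≤ i + j) (A B C D : k)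
    {q : MvPolynomial (Fin 2) k} (hq : q.IsHomogeneous n)
    (hf : MvPolynomial.aeval (![lin2 C D, lin2 A B] : Fin 2 → MvPolynomial (Fin 2) k)
      ((lin_pol G n).homogenize n) = q) {i j : ℕ} (hij : i + j = n) :
    cf (MvPowerSeries.subst (lnv_a A B C D) G) i j =
      (MvPolynomial.aeval (![Polynomial.X, 1] : Fin 2 → Polynomial k) q).coeff i := by
  unfold lnv_a
  rw [lin_top h (lin2_const _ _) (lin2_const _ _) hij, lin_form_eq, hf, lin_coeff hq hij]

private theorem lnv_hl (α β : k) : (MvPolynomial.C α * MvPolynomial.X 0 +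
    MvPolynomial.C β * MvPolynomial.X 1 : MvPolynomial (Fin 2) k).IsHomogeneous 1 :=
  lin2_homog α β

/-- all tangent cones are multiples of one product of two powers -/
private theorem lnv_cone {n m b : ℕ} {G : Fin (r + 1) → PS k}
    (h : ∀ e i j, cf (G e) i j ≠ 0 → n ≤ i + j) {μ μ' : k} (hne : μ ≠ μ') (hmb : m + b = n)
    (hb : 0 < b) (hm : m = 0 ∨ (3 ≤ n ∧ 2 ≤ b)) {c : Fin (r + 1) → k} (hc : ∃ e, c e ≠ 0)
    (hp : ∀ e, lin_pol (G e) n = Polynomial.C (c e) * (Polynomial.X - Polynomial.C μ) ^ m *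
      (Polynomial.X - Polynomial.C μ') ^ b) :
    ∃ A B C D : k, A * D - B * C ≠ 0 ∧ lnv_P n (sbv (lnv_a A B C D) G) := by
  have hd : μ' - μ ≠ 0 := sub_ne_zero.mpr (Ne.symm hne)
  obtain ⟨ℓ, hℓ⟩ : ∃ ℓ : k, ℓ = (μ' - μ)⁻¹ := ⟨_, rfl⟩
  have hℓ1 : (μ' - μ) * ℓ = 1 := by rw [hℓ, mul_inv_cancel₀ hd]
  have hℓ0 : ℓ ≠ 0 := by rw [hℓ]; exact inv_ne_zero hd
  refine ⟨ℓ, -ℓ, 1 + μ * ℓ, -(μ * ℓ), ?_, Or.inr (Or.inr ⟨m, b, hmb, hb, hm, ?_⟩)⟩
  · have e : ℓ * -(μ * ℓ) - -ℓ * (1 + μ * ℓ) = ℓ := by ring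
    rw [e]
    exact hℓ0
  have hform : ∀ e, MvPolynomial.aeval (![lin2 (1 + μ * ℓ) (-(μ * ℓ)), lin2 ℓ (-ℓ)] :
      Fin 2 → MvPolynomial (Fin 2) k) ((lin_pol (G e) n).homogenize n) =
        MvPolynomial.C (c e) * MvPolynomial.X 0 ^ m * MvPolynomial.X 1 ^ b := by
    intro e
    have hh : (lin_pol (G e) n).homogenize n = MvPolynomial.C (c e) *
        (MvPolynomial.X 0 - MvPolynomial.C μ * MvPolynomial.X 1) ^ m *
        (MvPolynomial.X 0 - MvPolynomial.C μ' * MvPolynomial.X 1) ^ b := by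
      apply Polynomial.homogenize_eq_of_isHomogeneous
      · have hl : ∀ μ : k, (MvPolynomial.X 0 - MvPolynomial.C μ * MvPolynomial.X 1 :
            MvPolynomial (Fin 2) k).IsHomogeneous 1 := by
          intro μ
          have h1 := (MvPolynomial.isHomogeneous_C (Fin 2) μ).mul
            (MvPolynomial.isHomogeneous_X k (1 : Fin 2))
          rw [zero_add] at h1
          exact (MvPolynomial.isHomogeneous_X k (0 : Fin 2)).sub h1
        have := ((MvPolynomial.isHomogeneous_C (Fin 2) (c e)).mul ((hl μ).pow m)).mul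
          ((hl μ').pow b)
        have e : 0 + 1 * m + 1 * b = n := by omega
        rwa [e] at this
      · rw [hp e]
        simp
    rw [hh]
    simp only [map_mul, map_pow, map_sub, MvPolynomial.aeval_C, MvPolynomial.aeval_X,
      Matrix.cons_val_zero, Matrix.cons_val_one, MvPolynomial.algebraMap_eq]
    have e1 : lin2 (1 + μ * ℓ) (-(μ * ℓ)) - MvPolynomial.C μ * lin2 ℓ (-ℓ) =
        MvPolynomial.X 0 := by
      unfold lin2
      simp only [map_add, map_neg, map_mul, map_one]
      ring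
    have e2 : lin2 (1 + μ * ℓ) (-(μ * ℓ)) - MvPolynomial.C μ' * lin2 ℓ (-ℓ) =
        MvPolynomial.X 1 := by
      have e3 : lin2 (1 + μ * ℓ) (-(μ * ℓ)) - MvPolynomial.C μ' * lin2 ℓ (-ℓ) =
          MvPolynomial.X 0 - MvPolynomial.C ((μ' - μ) * ℓ) *
          (MvPolynomial.X 0 - MvPolynomial.X 1) := by
        unfold lin2
        simp only [map_add, map_neg, map_mul, map_one, map_sub]
        ring
      rw [e3, hℓ1, map_one]
      ring
    rw [e1, e2]
  have hhom : ∀ e, (MvPolynomial.C (c e) * MvPolynomial.X 0 ^ m * MvPolynomial.X 1 ^ b :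
      MvPolynomial (Fin 2) k).IsHomogeneous n := by
    intro e
    have := ((MvPolynomial.isHomogeneous_C (Fin 2) (c e)).mul
      ((MvPolynomial.isHomogeneous_X k (0 : Fin 2)).pow m)).mul
      ((MvPolynomial.isHomogeneous_X k (1 : Fin 2)).pow b)
    have e : 0 + 1 * m + 1 * b = n := by omega
    rwa [e] at this
  have hcf : ∀ e i j, i + j = n → cf (sbv (lnv_a ℓ (-ℓ) (1 + μ * ℓ) (-(μ * ℓ))) G e) i j =
      c e * (if i = m then 1 else 0) := by
    intro e i j hij
    show cf (MvPowerSeries.subst (lnv_a ℓ (-ℓ) (1 + μ * ℓ) (-(μ * ℓ))) (G e)) i j = _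
    rw [lnv_top (h e) _ _ _ _ (hhom e) (hform e) hij]
    simp only [map_mul, map_pow, MvPolynomial.aeval_C, MvPolynomial.aeval_X,
      Matrix.cons_val_zero, Matrix.cons_val_one, one_pow, mul_one,
      Polynomial.algebraMap_apply, Algebra.algebraMap_self, RingHom.id_apply,
      Polynomial.coeff_C_mul, Polynomial.coeff_X_pow]
  constructor
  · obtain ⟨e, he⟩ := hc
    refine ⟨e, ?_⟩
    rw [hcf e m b hmb, if_pos rfl, mul_one]
    exact he
  · intro e i j hij
    refine ⟨lin_lower (h e) (lnv_a_cc _ _ _ _) i j hij, fun he => ?_⟩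
    rw [hcf e i j he] at hij
    have hi : i = m := by
      by_contra h1
      rw [if_neg h1, mul_zero] at hij
      exact hij rfl
    exact ⟨hi, by omega⟩

/-- all tangent cones are products of one power and a linear form -/
private theorem lnv_two {n : ℕ} {G : Fin (r + 1) → PS k} (hn : 3 ≤ n)
    (h : ∀ e i j, cf (G e) i j ≠ 0 → n ≤ i + j) {μ : k} {u v : Fin (r + 1) → k}
    (hu : ∃ e, u e ≠ 0) (hv : ∀ ν : k, ∃ e, u e * ν + v e ≠ 0)
    (hp : ∀ e, lin_pol (G e) n = (Polynomial.X - Polynomial.C μ) ^ (n - 1) *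
      (Polynomial.C (u e) * Polynomial.X + Polynomial.C (v e))) :
    ∃ A B C D : k, A * D - B * C ≠ 0 ∧ lnv_P n (sbv (lnv_a A B C D) G) := by
  refine ⟨1, 0, μ, 1, by simp, ?_⟩
  have hform : ∀ e, MvPolynomial.aeval (![lin2 μ 1, lin2 1 0] :
      Fin 2 → MvPolynomial (Fin 2) k) ((lin_pol (G e) n).homogenize n) =
        MvPolynomial.X 1 ^ (n - 1) * lin2 (u e * μ + v e) (u e) := by
    intro e
    have hh : (lin_pol (G e) n).homogenize n =
        (MvPolynomial.X 0 - MvPolynomial.C μ * MvPolynomial.X 1) ^ (n - 1) *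
        lin2 (u e) (v e) := by
      apply Polynomial.homogenize_eq_of_isHomogeneous
      · have hl : (MvPolynomial.X 0 - MvPolynomial.C μ * MvPolynomial.X 1 :
            MvPolynomial (Fin 2) k).IsHomogeneous 1 := by
          have h1 := (MvPolynomial.isHomogeneous_C (Fin 2) μ).mul
            (MvPolynomial.isHomogeneous_X k (1 : Fin 2))
          rw [zero_add] at h1
          exact (MvPolynomial.isHomogeneous_X k (0 : Fin 2)).sub h1
        have := (hl.pow (n - 1)).mul (lin2_homog (u e) (v e))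
        have e : 1 * (n - 1) + 1 = n := by omega
        rwa [e] at this
      · rw [hp e]
        unfold lin2
        simp
    rw [hh]
    have e1 : MvPolynomial.aeval (![lin2 μ 1, lin2 1 0] : Fin 2 → MvPolynomial (Fin 2) k)
        (MvPolynomial.X 0 - MvPolynomial.C μ * MvPolynomial.X 1) = MvPolynomial.X 1 := by
      simp only [map_mul, map_sub, MvPolynomial.aeval_C, MvPolynomial.aeval_X,
        Matrix.cons_val_zero, Matrix.cons_val_one, MvPolynomial.algebraMap_eq]
      unfold lin2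
      simp
    have e2 : MvPolynomial.aeval (![lin2 μ 1, lin2 1 0] : Fin 2 → MvPolynomial (Fin 2) k)
        (lin2 (u e) (v e)) = lin2 (u e * μ + v e) (u e) := by
      conv_lhs => rw [show lin2 (u e) (v e) = MvPolynomial.C (u e) * MvPolynomial.X 0 +
        MvPolynomial.C (v e) * MvPolynomial.X 1 from rfl]
      simp only [map_mul, map_add, MvPolynomial.aeval_C, MvPolynomial.aeval_X,
        Matrix.cons_val_zero, Matrix.cons_val_one, MvPolynomial.algebraMap_eq]
      unfold lin2
      simp only [map_add, map_mul, map_one, map_zero]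
      ring
    rw [map_mul, map_pow, e1, e2]
  have hhom : ∀ e, (MvPolynomial.X 1 ^ (n - 1) * lin2 (u e * μ + v e) (u e) :
      MvPolynomial (Fin 2) k).IsHomogeneous n := by
    intro e
    have := ((MvPolynomial.isHomogeneous_X k (1 : Fin 2)).pow (n - 1)).mul
      (lin2_homog (u e * μ + v e) (u e))
    have e : 1 * (n - 1) + 1 = n := by omega
    rwa [e] at this
  have hcf : ∀ e i j, i + j = n → cf (sbv (lnv_a 1 0 μ 1) G e) i j =
      (Polynomial.C (u e * μ + v e) * Polynomial.X + Polynomial.C (u e)).coeff i := by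
    intro e i j hij
    show cf (MvPowerSeries.subst (lnv_a 1 0 μ 1) (G e)) i j = _
    rw [lnv_top (h e) _ _ _ _ (hhom e) (hform e) hij]
    unfold lin2
    simp
  have h0 : ∀ e, cf (sbv (lnv_a 1 0 μ 1) G e) 0 n = u e := by
    intro e
    rw [hcf e 0 n (by omega)]
    simp
  have h1 : ∀ e, cf (sbv (lnv_a 1 0 μ 1) G e) 1 (n - 1) = u e * μ + v e := by
    intro e
    rw [hcf e 1 (n - 1) (by omega)]
    simp
  have h2 : ∀ e i j, 2 ≤ i → i + j = n → cf (sbv (lnv_a 1 0 μ 1) G e) i j = 0 := by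
    intro e i j hi hij
    rw [hcf e i j hij]
    obtain ⟨i', rfl⟩ : ∃ i', i = i' + 1 + 1 := ⟨i - 2, by omega⟩
    rw [Polynomial.coeff_add, Polynomial.coeff_C_mul_X, Polynomial.coeff_C, if_neg (by omega),
      if_neg (by omega), add_zero]
  refine Or.inr (Or.inl ⟨hn, ⟨Nat.one_pos, Nat.one_pos, Nat.coprime_one_left 1, Nat.one_pos,
    by omega, ?_, ?_, ?_, ?_⟩, ?_⟩)
  · obtain ⟨e, he⟩ := hu
    exact ⟨e, by rw [h0]; exact he⟩
  · obtain ⟨e, he⟩ := hv μ
    refine ⟨e, ?_⟩
    have e1 : 0 + 1 * 1 = 1 := by omega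
    rw [e1, one_mul, h1]
    exact he
  · intro e i j hij
    have := lin_lower (h e) (lnv_a_cc _ _ _ _) i j hij
    omega
  · intro e i j hij he
    refine ⟨?_, by omega⟩
    by_contra hlt
    exact hij (h2 e i j (by omega) (by omega))
  · rw [Finset.eq_empty_iff_forall_notMem]
    intro ν hν
    rw [lnv_mem_rtv] at hν
    obtain ⟨e, he⟩ := hv (ν + μ)
    apply he
    have h3 := hν.2 e
    have h4 : edv (sbv (lnv_a 1 0 μ 1) G) 0 n 1 1 1 e =
        Polynomial.C (u e) * Polynomial.X + Polynomial.C (u e * μ + v e) := by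
      unfold edv edp
      rw [Finset.sum_range_succ, Finset.sum_range_one]
      have e1 : 0 + 1 * 0 = 0 := by omega
      have e2 : n - 1 * 0 = n := by omega
      have e3 : 0 + 1 * 1 = 1 := by omega
      rw [e1, e2, e3, one_mul, h0, h1]
      simp
    rw [h4] at h3
    simp only [Polynomial.eval_add, Polynomial.eval_mul, Polynomial.eval_C,
      Polynomial.eval_X] at h3
    rw [← h3]
    ring

private theorem lnv_deg {P : Polynomial k} {n : ℕ} {H : Polynomial k} (hH : H.Monic)
    (hHn : H.natDegree = n) (hP : P.natDegree ≤ n) (hd : H ∣ P) :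
    ∃ c : k, P = Polynomial.C c * H := by
  obtain ⟨R, rfl⟩ := hd
  by_cases hR : R = 0
  · exact ⟨0, by rw [hR]; simp⟩
  · rw [hH.natDegree_mul' hR, hHn] at hP
    have h1 : R.natDegree = 0 := by omega
    obtain ⟨c, hc⟩ := Polynomial.natDegree_eq_zero.mp h1
    exact ⟨c, by rw [← hc, mul_comm]⟩

private theorem lnv_mon (μ : k) (m : ℕ) : ((Polynomial.X - Polynomial.C μ) ^ m).Monic :=
  (Polynomial.monic_X_sub_C μ).pow m

private theorem lnv_nd (μ : k) (m : ℕ) : ((Polynomial.X - Polynomial.C μ) ^ m).natDegree = m := by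
  rw [(Polynomial.monic_X_sub_C μ).natDegree_pow, Polynomial.natDegree_X_sub_C, mul_one]

private theorem lnv_main {n : ℕ} {G : Fin (r + 1) → PS k}
    (hn : 0 < n) (h : ∀ e i j, cf (G e) i j ≠ 0 → n ≤ i + j) (ht : ∃ e, cf (G e) 0 n ≠ 0)
    (hb : ∃ e, cf (G e) n 0 ≠ 0) : lnv_P n G ∨
    ∃ A B C D : k, A * D - B * C ≠ 0 ∧ lnv_P n (sbv (lnv_a A B C D) G) := by
  classical
  have hE : Edv G 0 n 1 1 n := by
    refine ⟨Nat.one_pos, Nat.one_pos, Nat.coprime_one_left 1, hn, by omega, ht, ?_, ?_, ?_⟩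
    · have e1 : 0 + 1 * n = n := by omega
      have e2 : n - 1 * n = 0 := by omega
      rw [e1, e2]
      exact hb
    · intro e i j hij
      have := h e i j hij
      omega
    · intro e i j hij he
      omega
  rcases Nat.lt_or_ge n 3 with hn3 | hn3
  · exact Or.inl (Or.inl ⟨n, hE, Or.inl (by omega)⟩)
  set Q : Fin (r + 1) → Polynomial k := fun e => lin_pol (G e) n with hQ
  have hQe : edv G 0 n 1 1 n = Q := by
    funext e
    exact lnv_edp (G e) n
  have hd : ∀ e, (Q e).natDegree ≤ n := fun e => lin_pol_degree (G e) n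
  have hcn : ∀ e, (Q e).coeff n = cf (G e) 0 n := by
    intro e
    show (lin_pol (G e) n).coeff n = _
    rw [lin_pol_coeff _ le_rfl, Nat.sub_self]
  have hc0 : ∀ e, (Q e).coeff 0 = cf (G e) n 0 := by
    intro e
    show (lin_pol (G e) n).coeff 0 = _
    rw [lin_pol_coeff _ (Nat.zero_le n), Nat.sub_zero]
  have htop : ∃ e, (Q e).coeff n ≠ 0 := by
    obtain ⟨e, he⟩ := ht
    exact ⟨e, by rw [hcn]; exact he⟩
  have hbot : ∃ e, (Q e).eval 0 ≠ 0 := by
    obtain ⟨e, he⟩ := hb
    exact ⟨e, by rw [← Polynomial.coeff_zero_eq_eval_zero, hc0]; exact he⟩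
  have hQ0 : ∃ e, Q e ≠ 0 := by
    obtain ⟨e, he⟩ := htop
    refine ⟨e, fun h0 => he ?_⟩
    rw [h0, Polynomial.coeff_zero]
  obtain ⟨y, hy0, hyd, hye, -, hyc⟩ := exists_gen hn hd htop hbot
  by_cases h3 : 3 ≤ (rts (cmQ y Q)).card
  · left
    refine Or.inl ⟨n, hE, Or.inr ⟨y, hy0, ?_, Or.inr ?_⟩⟩
    · have h4 : ∀ l, l ≤ n → cf (cmG y G) (n - l) l = (cmQ y Q).coeff l := by
        intro l hl
        rw [cf_cmG]
        unfold cmQ
        rw [Polynomial.finsetSum_coeff]
        refine Finset.sum_congr rfl fun e _ => ?_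
        rw [Polynomial.coeff_C_mul]
        congr 1
        show _ = (lin_pol (G e) n).coeff l
        rw [lin_pol_coeff _ hl]
      refine hE.edge ?_ ?_
      · have := h4 n le_rfl
        rw [Nat.sub_self] at this
        rw [this, ← hyd]
        intro h5
        rw [Polynomial.coeff_natDegree, Polynomial.leadingCoeff_eq_zero] at h5
        rw [h5] at hye
        simp at hye
      · have := h4 0 (Nat.zero_le n)
        rw [Nat.sub_zero] at this
        have e1 : 0 + 1 * n = n := by omega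
        have e2 : n - 1 * n = 0 := by omega
        rw [e1, e2, this, Polynomial.coeff_zero_eq_eval_zero]
        exact hye
    · rw [edp_cmG, hQe]
      exact h3
  · right
    have hcard : (rtv Q).card + (n - ∑ μ ∈ rtv Q, mlt Q μ) ≤ 2 := by
      rw [← hyc]
      omega
    have hc : (rtv Q).card = 0 ∨ (rtv Q).card = 1 ∨ (rtv Q).card = 2 := by omega
    rcases hc with hc | hc | hc
    · rw [Finset.card_eq_zero] at hc
      rw [hc, Finset.sum_empty] at hcard
      simp at hcard
      omega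
    · obtain ⟨μ, hμ⟩ := Finset.card_eq_one.mp hc
      rw [hμ, Finset.sum_singleton, Finset.card_singleton] at hcard
      by_cases hM : n ≤ mlt Q μ
      · have h5 : ∀ e, ∃ c : k, Q e = Polynomial.C c * (Polynomial.X - Polynomial.C μ) ^ n :=
          fun e => lnv_deg (lnv_mon μ n) (lnv_nd μ n) (hd e)
            ((pow_dvd_pow _ hM).trans (lnv_dvd Q μ e))
        choose c hc using h5
        refine lnv_cone h (μ := μ + 1) (μ' := μ) (by simp) (m := 0) (b := n) (by omega) hn
          (Or.inl rfl) (c := c) ?_ ?_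
        · obtain ⟨e, he⟩ := hQ0
          refine ⟨e, fun h6 => he ?_⟩
          rw [hc e, h6]
          simp
        · intro e
          rw [pow_zero, mul_one]
          exact hc e
      · have hM1 : mlt Q μ = n - 1 := by omega
        have h5 : ∀ e, ∃ u v : k, Q e = (Polynomial.X - Polynomial.C μ) ^ (n - 1) *
            (Polynomial.C u * Polynomial.X + Polynomial.C v) := by
          intro e
          have h6 := lnv_dvd Q μ e
          rw [hM1] at h6
          obtain ⟨R, hR⟩ := h6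
          have h7 : R.natDegree ≤ 1 := by
            by_cases hR0 : R = 0
            · rw [hR0]; simp
            · have h8 := hd e
              rw [hR, (lnv_mon μ (n - 1)).natDegree_mul' hR0, lnv_nd] at h8
              omega
          obtain ⟨u, v, huv⟩ := Polynomial.exists_eq_X_add_C_of_natDegree_le_one h7
          exact ⟨u, v, by rw [hR, huv]⟩
        choose u v huv using h5
        have hkey : ∀ ν : k, ∃ e, u e * ν + v e ≠ 0 := by
          intro ν
          by_contra hcon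
          push Not at hcon
          have h6 : ν ∈ rtv Q := by
            rw [lnv_mem_rtv]
            refine ⟨hQ0, fun e => ?_⟩
            rw [huv e]
            simp only [Polynomial.eval_mul, Polynomial.eval_add, Polynomial.eval_C,
              Polynomial.eval_X]
            rw [hcon e, mul_zero]
          rw [hμ, Finset.mem_singleton] at h6
          subst h6
          obtain ⟨e, he1, he2⟩ := lnv_ndvd ν hQ0
          have h7 : (Polynomial.X - Polynomial.C ν) ^ n ∣ Q e := by
            refine ⟨Polynomial.C (u e), ?_⟩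
            rw [huv e]
            have h8 : v e = -(u e * ν) := by
              have := hcon e
              linear_combination this
            obtain ⟨n', hn'⟩ : ∃ n', n = n' + 1 := ⟨n - 1, by omega⟩
            rw [h8, hn', Nat.add_sub_cancel, pow_succ]
            simp only [map_neg, map_mul]
            ring
          have h8 := (Polynomial.le_rootMultiplicity_iff he1).mpr h7
          omega
        refine lnv_two hn3 h (μ := μ) (u := u) (v := v) ?_ hkey huv
        obtain ⟨e, he⟩ := htop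
        refine ⟨e, fun h6 => he ?_⟩
        rw [huv e, h6, map_zero, zero_mul, zero_add, Polynomial.coeff_mul_C]
        rw [Polynomial.coeff_eq_zero_of_natDegree_lt, zero_mul]
        rw [lnv_nd]
        omega
    · obtain ⟨μ, μ', hne, hμ⟩ := Finset.card_eq_two.mp hc
      rw [hμ, Finset.sum_pair hne, Finset.card_pair hne] at hcard
      have hM : n ≤ mlt Q μ + mlt Q μ' := by omega
      have hcop : IsCoprime ((Polynomial.X - Polynomial.C μ) ^ mlt Q μ)
          ((Polynomial.X - Polynomial.C μ') ^ mlt Q μ') :=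
        (Polynomial.isCoprime_X_sub_C_of_isUnit_sub
          (sub_ne_zero.mpr hne).isUnit).pow
      have hdv : ∀ e, (Polynomial.X - Polynomial.C μ) ^ mlt Q μ *
          (Polynomial.X - Polynomial.C μ') ^ mlt Q μ' ∣ Q e := fun e =>
        hcop.mul_dvd (lnv_dvd Q μ e) (lnv_dvd Q μ' e)
      have hnd : ((Polynomial.X - Polynomial.C μ) ^ mlt Q μ *
          (Polynomial.X - Polynomial.C μ') ^ mlt Q μ').natDegree = mlt Q μ + mlt Q μ' := by
        rw [(lnv_mon μ _).natDegree_mul (lnv_mon μ' _), lnv_nd, lnv_nd]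
      have hM2 : mlt Q μ + mlt Q μ' = n := by
        refine le_antisymm ?_ hM
        obtain ⟨e, he⟩ := hQ0
        rw [← hnd]
        exact (Polynomial.natDegree_le_of_dvd (hdv e) he).trans (hd e)
      have h5 : ∀ e, ∃ c : k, Q e = Polynomial.C c *
          ((Polynomial.X - Polynomial.C μ) ^ mlt Q μ *
            (Polynomial.X - Polynomial.C μ') ^ mlt Q μ') :=
        fun e => lnv_deg ((lnv_mon μ _).mul (lnv_mon μ' _)) (hnd.trans hM2) (hd e) (hdv e)
      choose c hc using h5
      have hc0 : ∃ e, c e ≠ 0 := by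
        obtain ⟨e, he⟩ := hQ0
        refine ⟨e, fun h6 => he ?_⟩
        rw [hc e, h6]
        simp
      rcases le_total (mlt Q μ) (mlt Q μ') with hle | hle
      · exact lnv_cone h (μ := μ) (μ' := μ') hne (m := mlt Q μ) (b := mlt Q μ') hM2 (by omega)
          (Or.inr ⟨hn3, by omega⟩) hc0 fun e => by rw [mul_assoc]; exact hc e
      · exact lnv_cone h (μ := μ') (μ' := μ) hne.symm (m := mlt Q μ') (b := mlt Q μ)
          (by omega) (by omega)
          (Or.inr ⟨hn3, by omega⟩) hc0 fun e => by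
            rw [mul_assoc, mul_comm ((Polynomial.X - Polynomial.C μ') ^ mlt Q μ')]
            exact hc e

end LNVaux

section LNV

variable {k : Type} [Field k] [CharZero k] [IsAlgClosed k] {r : ℕ} {G : Fin (r + 1) → PS k}

theorem exists_cnv {n : ℕ} (hn : 0 < n) (h : ∀ e i j, cf (G e) i j ≠ 0 → n ≤ i + j)
    (h' : ∃ e i j, i + j = n ∧ cf (G e) i j ≠ 0) : ∃ a : Fin 2 → PS k,
    (∀ i, MvPowerSeries.constantCoeff (a i) = 0) ∧
    cf (a 0) 1 0 * cf (a 1) 0 1 - cf (a 0) 0 1 * cf (a 1) 1 0 ≠ 0 ∧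
    ((∃ E, Edv (sbv a G) 0 n 1 1 E ∧ (n ≤ 2 ∨ ∃ y : Fin (r + 1) → k, y 0 = 1 ∧
      Edge (cmG y (sbv a G)) 0 n 1 1 E ∧
      ((E < n ∧ 2 ≤ (rts (edp (cmG y (sbv a G)) 0 n 1 1 E)).card) ∨
        3 ≤ (rts (edp (cmG y (sbv a G)) 0 n 1 1 E)).card))) ∨
    (3 ≤ n ∧ Edv (sbv a G) 0 n 1 1 1 ∧ rtv (edv (sbv a G) 0 n 1 1 1) = ∅) ∨
    ∃ m b, m + b = n ∧ 0 < b ∧ (m = 0 ∨ (3 ≤ n ∧ 2 ≤ b)) ∧ (∃ e, cf (sbv a G e) m b ≠ 0) ∧
      ∀ e i j, cf (sbv a G e) i j ≠ 0 → n ≤ i + j ∧ (i + j = n → i = m ∧ j = b)) := by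
  classical
  obtain ⟨e, i, j, hij, hne⟩ := h'
  have hp : lin_pol (G e) n ≠ 0 := by
    intro h0
    have := lin_pol_coeff (G e) (show j ≤ n by omega)
    rw [h0, Polynomial.coeff_zero] at this
    apply hne
    rw [this]
    congr 1
    omega
  obtain ⟨c, hc⟩ := Infinite.exists_notMem_finset (rts (lin_pol (G e) n))
  obtain ⟨c', hc'⟩ := Infinite.exists_notMem_finset (insert c (rts (lin_pol (G e) n)))
  rw [lnv_mem_rts] at hc
  rw [Finset.mem_insert, lnv_mem_rts] at hc'
  push Not at hc hc'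
  have hc2 := hc hp
  have hc3 := hc'.2 hp
  have hdet : (1 : k) * c' - 1 * c ≠ 0 := by
    rw [one_mul, one_mul]
    exact sub_ne_zero.mpr hc'.1
  have hlow : ∀ e i j, cf (sbv (lnv_a 1 1 c c') G e) i j ≠ 0 → n ≤ i + j :=
    fun e i j => lin_lower (h e) (lnv_a_cc 1 1 c c') i j
  have hval : ∀ i j, i + j = n → cf (sbv (lnv_a 1 1 c c') G e) i j =
      (MvPolynomial.aeval (![Polynomial.X, 1] : Fin 2 → Polynomial k)
        (lin_form (G e) n (lin2 1 1) (lin2 c c'))).coeff i := by
    intro i j hij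
    show cf (MvPowerSeries.subst (lnv_a 1 1 c c') (G e)) i j = _
    unfold lnv_a
    rw [lin_top (h e) (lin2_const 1 1) (lin2_const c c') hij,
      lin_coeff (lin_form_homog (G e) n (lin2_homog 1 1) (lin2_homog c c')) hij]
  have hev : MvPolynomial.aeval (![Polynomial.X, 1] : Fin 2 → Polynomial k)
        (lin_form (G e) n (lin2 1 1) (lin2 c c')) = ∑ l ∈ Finset.range (n + 1),
          Polynomial.C (cf (G e) (n - l) l) * (Polynomial.X + 1) ^ (n - l) *
            (Polynomial.C c * Polynomial.X + Polynomial.C c') ^ l := by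
    unfold lin_form lin2
    rw [map_sum]
    refine Finset.sum_congr rfl fun l _ => ?_
    simp
  have htop : cf (sbv (lnv_a 1 1 c c') G e) 0 n ≠ 0 := by
    rw [hval 0 n (by omega), hev, Polynomial.coeff_zero_eq_eval_zero]
    have : Polynomial.eval 0 (∑ l ∈ Finset.range (n + 1),
          Polynomial.C (cf (G e) (n - l) l) * (Polynomial.X + 1) ^ (n - l) *
            (Polynomial.C c * Polynomial.X + Polynomial.C c') ^ l) =
        (lin_pol (G e) n).eval c' := by
      unfold lin_pol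
      rw [Polynomial.eval_finsetSum, Polynomial.eval_finsetSum]
      refine Finset.sum_congr rfl fun l _ => ?_
      simp
    rw [this]
    exact hc3
  have hbot : cf (sbv (lnv_a 1 1 c c') G e) n 0 ≠ 0 := by
    rw [hval n 0 (by omega), hev, Polynomial.finsetSum_coeff]
    have : ∀ l ∈ Finset.range (n + 1), (Polynomial.C (cf (G e) (n - l) l) *
        (Polynomial.X + 1) ^ (n - l) * (Polynomial.C c * Polynomial.X + Polynomial.C c') ^ l).coeff
          n = cf (G e) (n - l) l * c ^ l := by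
      intro l hl
      have hl' := Nat.lt_succ_iff.mp (Finset.mem_range.mp hl)
      rw [mul_assoc, Polynomial.coeff_C_mul]
      congr 1
      have e1 : (Polynomial.X + 1 : Polynomial k) = Polynomial.C 1 * Polynomial.X +
        Polynomial.C 1 := by simp
      have e2 : ∀ (α β : k) (m : ℕ), ((Polynomial.C α * Polynomial.X + Polynomial.C β) ^ m).natDegree
          ≤ m ∧ ((Polynomial.C α * Polynomial.X + Polynomial.C β) ^ m).coeff m = α ^ m := by
        intro α β m
        have e3 : (Polynomial.C α * Polynomial.X + Polynomial.C β).natDegree ≤ 1 :=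
          Polynomial.natDegree_linear_le
        constructor
        · have := Polynomial.natDegree_pow_le_of_le m e3
          simpa using this
        · have := Polynomial.coeff_pow_of_natDegree_le (m := m) (n := 1) e3
          rw [mul_one] at this
          rw [this]
          simp
      have e4 := Polynomial.coeff_mul_add_eq_of_natDegree_le (e2 1 1 (n - l)).1 (e2 c c' l).1
      rw [e1]
      have e5 : n - l + l = n := by omega
      rw [e5] at e4
      rw [e4, (e2 1 1 (n - l)).2, (e2 c c' l).2, one_pow, one_mul]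
    rw [Finset.sum_congr rfl this]
    have e6 : (lin_pol (G e) n).eval c = ∑ l ∈ Finset.range (n + 1),
        cf (G e) (n - l) l * c ^ l := by
      unfold lin_pol
      rw [Polynomial.eval_finsetSum]
      refine Finset.sum_congr rfl fun l _ => ?_
      simp
    rw [← e6]
    exact hc2
  have hdet' : (1 : k) * c' - 1 * c ≠ 0 := hdet
  rcases lnv_main hn hlow ⟨e, htop⟩ ⟨e, hbot⟩ with h1 | ⟨A, B, C, D, h1, h2⟩
  · refine ⟨lnv_a 1 1 c c', lnv_a_cc _ _ _ _, ?_, h1⟩
    rw [lnv_a_det]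
    exact hdet'
  · exact lnv_done hdet' h1 h2

end LNV

end Pool.Agent.H75.Mono
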