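import Pool.Agent.H75.Idl.I0
import Pool.Agent.H75.Plc.EV1
import Pool.Agent.H75.Fib.NCR

/-! # LIY, module LS2: smooth points, general form -/

set_option autoImplicit false

namespace Pool.Agent.H75.Mono

open MvPolynomial Pool.Agent.H39.MonoR

section LS2

variable {k : Type} [Field k] [Algebra k ℂ] {r : ℕ} {G : Fin (r + 1) → PS k}

/-- add `ε` to the coefficients of `t^d` -/
private def ls2Up {d : ℕ} (φ : Fin 2 × Fin (d + 1) → ℂ) (ε : Fin 2 → ℂ) :
    Fin 2 × Fin (d + 1) → ℂ := fun q => φ q + if q.2 = ⟨d, Nat.lt_succ_self d⟩ then ε q.1 else 0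

private theorem ls2Up_eq {d : ℕ} (φ : Fin 2 × Fin (d + 1) → ℂ) (ε : Fin 2 → ℂ) :
    ls2Up φ ε = Function.update (Function.update φ (0, ⟨d, Nat.lt_succ_self d⟩)
      (φ (0, ⟨d, Nat.lt_succ_self d⟩) + ε 0)) (1, ⟨d, Nat.lt_succ_self d⟩)
      ((Function.update φ (0, ⟨d, Nat.lt_succ_self d⟩)
      (φ (0, ⟨d, Nat.lt_succ_self d⟩) + ε 0)) (1, ⟨d, Nat.lt_succ_self d⟩) + ε 1) := by
  funext q
  obtain ⟨i, l⟩ := q
  unfold ls2Up
  by_cases hl : l = ⟨d, Nat.lt_succ_self d⟩
  · subst hl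
    fin_cases i
    · simp [Function.update]
    · simp [Function.update]
  · rw [Function.update_of_ne, Function.update_of_ne]
    · simp [hl]
    · intro e
      exact hl (congrArg Prod.snd e)
    · intro e
      exact hl (congrArg Prod.snd e)

private theorem ls2_org_upd {d : ℕ} (φ : Fin 2 × Fin (d + 1) → ℂ)
    (h0 : 0 < d) (i : Fin 2) (a : ℂ) :
    org (Function.update φ (i, ⟨d, Nat.lt_succ_self d⟩) a) = org φ := by
  funext j
  unfold org
  rw [Function.update_of_ne]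
  intro h
  have := congrArg (fun p => (p.2 : ℕ)) h
  have h2 : (0 : ℕ) = d := this
  omega

private theorem ls2Up_org {d : ℕ} (φ : Fin 2 × Fin (d + 1) → ℂ) (h0 : 0 < d) (ε : Fin 2 → ℂ) :
    org (ls2Up φ ε) = org φ := by
  rw [ls2Up_eq, ls2_org_upd _ h0, ls2_org_upd _ h0]

private theorem ls2Up_coeff {d : ℕ} (f : MvPolynomial (Fin 2) k) (φ : Fin 2 × Fin (d + 1) → ℂ)
    (h0 : 0 < d) (ε : Fin 2 → ℂ) :
    (∀ l, l < d → PowerSeries.coeff l (arcEval k (ls2Up φ ε) f) =
      PowerSeries.coeff l (arcEval k φ f)) ∧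
    PowerSeries.coeff d (arcEval k (ls2Up φ ε) f) = PowerSeries.coeff d (arcEval k φ f) +
      ε 0 * aeval (org φ) (pderiv 0 f) + ε 1 * aeval (org φ) (pderiv 1 f) := by
  rw [ls2Up_eq]
  have h1 := coeff_arcEval_add h0 (Nat.lt_succ_self d) f φ 0 (ε 0)
  have h2 := coeff_arcEval_add h0 (Nat.lt_succ_self d) f
    (Function.update φ (0, ⟨d, Nat.lt_succ_self d⟩)
      (φ (0, ⟨d, Nat.lt_succ_self d⟩) + ε 0)) 1 (ε 1)
  constructor
  · intro l hl
    exact (h2.1 l hl).trans (h1.1 l hl)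
  · refine h2.2.trans ?_
    rw [h1.2, ls2_org_upd _ h0]

private theorem ls2_p0 {d : ℕ} (hd : 0 < d) (A : PS k) :
    aeval (0 : Fin 2 → ℂ) (pderiv 0 (tp d A)) = algebraMap k ℂ (cf A 1 0) := by
  rw [aeval_zero, constantCoeff_eq, coeff_pderiv]
  have e : (0 : Fin 2 →₀ ℕ) + Finsupp.single 0 1 = ix 1 0 := by
    simp [ix]
  rw [e, ev1_coeff_tp, if_pos ⟨by omega, by omega⟩]
  simp

private theorem ls2_p1 {d : ℕ} (hd : 0 < d) (A : PS k) :
    aeval (0 : Fin 2 → ℂ) (pderiv 1 (tp d A)) = algebraMap k ℂ (cf A 0 1) := by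
  rw [aeval_zero, constantCoeff_eq, coeff_pderiv]
  have e : (0 : Fin 2 →₀ ℕ) + Finsupp.single 1 1 = ix 0 1 := by
    simp [ix]
  rw [e, ev1_coeff_tp, if_pos ⟨by omega, by omega⟩]
  simp

/-- translation of the value -/
private theorem ls2_hit {d : ℕ} (hd : 0 < d) (A : PS k) {v0 v1 : k}
    (φ : Fin 2 × Fin (d + 1) → ℂ) (h0 : org φ = 0) (s c : ℂ) (hc : Hit (tp d A) d φ c) :
    Hit (tp d A) d (ls2Up φ ![s * algebraMap k ℂ v0, s * algebraMap k ℂ v1])
      (c + s * algebraMap k ℂ (cf A 1 0 * v0 + cf A 0 1 * v1)) := by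
  rw [hit_iff] at hc ⊢
  obtain ⟨h1, h2⟩ := ls2Up_coeff (tp d A) φ hd ![s * algebraMap k ℂ v0, s * algebraMap k ℂ v1]
  refine ⟨fun l hl => by rw [h1 l hl, hc.1 l hl], ?_⟩
  rw [h2, hc.2, h0, ls2_p0 hd, ls2_p1 hd, map_add, map_mul, map_mul]
  simp only [Matrix.cons_val_zero, Matrix.cons_val_one]
  ring

private theorem ls2_cons (G : Fin (r + 1) → PS k) (d : ℕ) (t : Test k) {c : t.E → ℂ}
    (hc : PFun k c) : ICons k {x : (Fin 2 × Fin (d + 1) → ℂ) × t.E | x.2 ∈ t.W ∧ org x.1 = 0 ∧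
      Htv (fun e => tp d (G e)) d x.1 (c x.2)} := by
  refine (t.cW.mem PMap.snd).and (ICons.and ?_ ?_)
  · have h1 : ∀ i : Fin 2, ICons k {x : (Fin 2 × Fin (d + 1) → ℂ) × t.E | x.1 (i, 0) = 0} :=
      fun i => ICons.eq (PFun.comp (f := fun φ : Fin 2 × Fin (d + 1) → ℂ => φ (i, 0))
        (PFun.apply _) PMap.fst) PFun.zero
    have h2 := ICons.forall_fin h1
    convert h2 using 2
    ext x
    constructor
    · intro h i
      exact congrFun h i
    · intro h
      funext i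
      exact h i
  · unfold Htv
    refine ICons.forall_fin fun e => ?_
    by_cases he : e = 0
    · simp only [he, if_true]
      exact ICons.hit d _ PMap.fst (hc.comp PMap.snd)
    · simp only [he, if_false]
      exact ICons.hit d _ PMap.fst PFun.zero

/-- the derivative of `G_0` at the origin in the direction `(v0, v1)` is not zero, the derivatives of the other
components are zero: translation by `ε (v0, v1) t^d` -/
theorem lcv_smooth2 (h0 : ∀ e, cf (G e) 0 0 = 0) {v0 v1 : k}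
    (h1 : cf (G 0) 1 0 * v0 + cf (G 0) 0 1 * v1 ≠ 0)
    (h2 : ∀ e, e ≠ 0 → cf (G e) 1 0 * v0 + cf (G e) 0 1 * v1 = 0) {d : ℕ} (hd : 0 < d)
    (t : Test k) : lcv G d t = lcv G d t.zr := by
  have _h0 := h0
  set D : k := cf (G 0) 1 0 * v0 + cf (G 0) 0 1 * v1 with hD
  have hD0 : algebraMap k ℂ D ≠ 0 := (map_ne_zero _).2 h1
  have hc' : PFun k (fun w : t.E => t.c w * algebraMap k ℂ D⁻¹) := t.pf.mul (PFun.const _)
  have hmap : PMap k (fun x : (Fin 2 × Fin (d + 1) → ℂ) × t.E =>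
      (ls2Up x.1 ![(t.c x.2 * algebraMap k ℂ D⁻¹) * algebraMap k ℂ v0,
        (t.c x.2 * algebraMap k ℂ D⁻¹) * algebraMap k ℂ v1], x.2)) := by
    refine PMap.prodMk (PMap.pi fun q => ?_) PMap.snd
    unfold ls2Up
    refine PFun.add (PFun.comp (f := fun φ : Fin 2 × Fin (d + 1) → ℂ => φ q)
      (PFun.apply q) PMap.fst) ?_
    obtain ⟨i, l⟩ := q
    by_cases hl : l = ⟨d, Nat.lt_succ_self d⟩
    · simp only [hl, if_true]
      fin_cases i
      · exact (PFun.comp (f := fun w : t.E => t.c w * algebraMap k ℂ D⁻¹) hc' PMap.snd).mul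
          (PFun.const _)
      · exact (PFun.comp (f := fun w : t.E => t.c w * algebraMap k ℂ D⁻¹) hc' PMap.snd).mul
          (PFun.const _)
    · simp only [hl, if_false]
      exact PFun.zero
  have hDD : ∀ x : ℂ, (x * algebraMap k ℂ D⁻¹) * algebraMap k ℂ D = x := by
    intro x
    rw [mul_assoc, ← map_mul, inv_mul_cancel₀ h1, map_one, mul_one]
  have hval : ∀ (e : Fin (r + 1)) (x : ℂ), (x * algebraMap k ℂ D⁻¹) *
      algebraMap k ℂ (cf (G e) 1 0 * v0 + cf (G e) 0 1 * v1) = if e = 0 then x else 0 := by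
    intro e x
    by_cases he : e = 0
    · rw [if_pos he, he, ← hD, hDD]
    · rw [if_neg he, h2 e he, map_zero, mul_zero]
  have key : mo k {x : (Fin 2 × Fin (d + 1) → ℂ) × t.E | x.2 ∈ t.W ∧ org x.1 = 0 ∧
      Htv (fun e => tp d (G e)) d x.1 0} =
      mo k {x : (Fin 2 × Fin (d + 1) → ℂ) × t.E | x.2 ∈ t.W ∧ org x.1 = 0 ∧
        Htv (fun e => tp d (G e)) d x.1 (t.c x.2)} := by
    refine mo_bij (ls2_cons G d t PFun.zero) (ls2_cons G d t t.pf) hmap ⟨?_, ?_, ?_⟩
    · rintro ⟨φ, w⟩ ⟨hw, ho, hh⟩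
      refine ⟨hw, ?_, fun e => ?_⟩
      · simp only
        rw [ls2Up_org _ hd]
        exact ho
      · have h3 := ls2_hit hd (G e) (v0 := v0) (v1 := v1) φ ho (t.c w * algebraMap k ℂ D⁻¹) _
          (hh e)
        rw [hval, ite_self, zero_add] at h3
        exact h3
    · rintro ⟨φ, w⟩ _ ⟨φ', w'⟩ _ hxy
      have h4 : w = w' := congrArg Prod.snd hxy
      subst h4
      have h3 := congrArg Prod.fst hxy
      simp only at h3
      have : φ = φ' := by
        funext q
        have h5 := congrFun h3 q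
        unfold ls2Up at h5
        exact add_right_cancel h5
      rw [this]
    · rintro ⟨φ, w⟩ ⟨hw, ho, hh⟩
      refine ⟨(ls2Up φ ![((-t.c w) * algebraMap k ℂ D⁻¹) * algebraMap k ℂ v0,
        ((-t.c w) * algebraMap k ℂ D⁻¹) * algebraMap k ℂ v1], w), ⟨hw, ?_, fun e => ?_⟩, ?_⟩
      · simp only
        rw [ls2Up_org _ hd]
        exact ho
      · have h3 := ls2_hit hd (G e) (v0 := v0) (v1 := v1) φ ho ((-t.c w) * algebraMap k ℂ D⁻¹) _
          (hh e)
        rw [hval] at h3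
        have h4 : (if e = 0 then t.c w else 0) + (if e = 0 then -t.c w else 0) =
            (if e = 0 then 0 else 0 : ℂ) := by
          split_ifs <;> simp
        simp only at h3
        rw [h4] at h3
        exact h3
      · refine Prod.ext ?_ rfl
        funext q
        obtain ⟨i, l⟩ := q
        simp only
        unfold ls2Up
        by_cases hl : l = ⟨d, Nat.lt_succ_self d⟩
        · simp only [hl, if_true]
          fin_cases i
          · simp
          · simp
        · simp only [hl, if_false, add_zero]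
  unfold lcv
  congr 1
  exact key.symm

end LS2

end Pool.Agent.H75.Mono
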