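import Pool.Agent.H75.Idl.LS2

/-! # LIY, module LSV: smooth points -/

set_option autoImplicit false

namespace Pool.Agent.H75.Mono

open MvPolynomial Pool.Agent.H39.MonoR

section LSV

variable {k : Type} [Field k] [Algebra k ℂ] {r : ℕ} {G : Fin (r + 1) → PS k}

theorem lcv_smooth (h0 : ∀ e, cf (G e) 0 0 = 0) (h1 : cf (G 0) 1 0 ≠ 0 ∨ cf (G 0) 0 1 ≠ 0)
    (h2 : Pur G 1 0) (h3 : Pur G 0 1) {d : ℕ} (hd : 0 < d) (t : Test k) :
    lcv G d t = lcv G d t.zr := by
  rcases h1 with h1 | h1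
  · refine lcv_smooth2 h0 (v0 := 1) (v1 := 0) (by simpa using h1) (fun e he => ?_) hd t
    rw [h2 e he, h3 e he]
    simp
  · refine lcv_smooth2 h0 (v0 := 0) (v1 := 1) (by simpa using h1) (fun e he => ?_) hd t
    rw [h2 e he, h3 e he]
    simp

end LSV

end Pool.Agent.H75.Mono
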