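import Pool.Agent.H75.Idl.I0

/-! # LIY, module LTV: the top level for the first edge -/

set_option autoImplicit false

namespace Pool.Agent.H75.Mono

open MvPolynomial Pool.Agent.H39.MonoR

section LTV

variable {k : Type} [Field k] [Algebra k ℂ] {r : ℕ} {a b p q E : ℕ} {G : Fin (r + 1) → PS k}

private theorem ltv_ceil {c0 : ℕ} (hc : 0 < c0) (x y : ℕ) :
    ((x + c0) * y + (c0 - 1)) / c0 = (x * y + (c0 - 1)) / c0 + y := by
  have : (x + c0) * y + (c0 - 1) = x * y + (c0 - 1) + c0 * y := by ring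
  rw [this, Nat.add_mul_div_left _ _ hc]

private theorem ltv_dvd {c0 : ℕ} (x y : ℕ) : c0 ∣ (x + c0) * y ↔ c0 ∣ x * y := by
  rw [add_mul, Nat.dvd_add_left (Dvd.intro _ rfl)]

omit [Algebra k ℂ] in
private theorem ltv_lfv (d : ℕ) :
    lfv G a b p q E (d + (a * p + b * q)) = lfv G a b p q E d := by
  funext e
  unfold lfv ltf
  refine Finset.sum_congr rfl fun n _ => ?_
  simp only [ltv_dvd]

private theorem ltv_twv (hc : 0 < a * p + b * q) (d : ℕ) (t : Test k) :
    twv G a b p q E (d + (a * p + b * q)) t =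
      ↑(Lu k ^ (-((p + q : ℕ) : ℤ))) * twv G a b p q E d t := by
  unfold twv
  rw [ltv_lfv, ← mul_assoc, ← Units.val_mul, ← zpow_add]
  congr 3
  have e1 : ∀ y : ℕ, (d + (a * p + b * q)) * y + (a * p + b * q) - 1 =
      (d + (a * p + b * q)) * y + ((a * p + b * q) - 1) := fun y => by omega
  have e2 : ∀ y : ℕ, d * y + (a * p + b * q) - 1 = d * y + ((a * p + b * q) - 1) :=
    fun y => by omega
  rw [e1, e1, e2, e2, ltv_ceil hc, ltv_ceil hc]
  push_cast
  ring

theorem twv_rat (hE : Edv G a b p q E) :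
    RatF (Lu k) {(-((p + q : ℕ) : ℤ), a * p + b * q)}
      (fun t : Test k => PowerSeries.mk fun d => twv G a b p q E d t) := by
  have hb : 0 < b := lt_of_lt_of_le (Nat.mul_pos hE.p0 hE.e0) hE.eb
  have hc : 0 < a * p + b * q := by
    have := Nat.mul_pos hb hE.q0
    omega
  refine ⟨{(-((p + q : ℕ) : ℤ), a * p + b * q)}, fun x hx => by simpa using hx,
    a * p + b * q, fun t n hn => ?_⟩
  obtain ⟨m, rfl⟩ : ∃ m, n = m + (a * p + b * q) := ⟨n - (a * p + b * q), by omega⟩
  rw [Multiset.map_singleton, Multiset.prod_singleton]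
  unfold den'
  rw [sub_mul, one_mul, map_sub, mul_assoc, PowerSeries.coeff_C_mul, PowerSeries.coeff_X_pow_mul',
    if_pos (by omega), PowerSeries.coeff_mk, PowerSeries.coeff_mk, Nat.add_sub_cancel,
    ltv_twv hc, sub_self]

end LTV

end Pool.Agent.H75.Mono
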