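import Pool.Agent.H75.Idl.ZNV
import Pool.Agent.H75.Plc.ZRC
import Pool.Agent.H75.Plc.CN2
import Pool.Agent.H75.Plc.ZB

/-! # LIY, module LXV: powers of a coordinate times a pure smooth factor; smooth points -/

set_option autoImplicit false

namespace Pool.Agent.H75.Mono

open MvPolynomial Pool.Agent.H39.MonoR

section LXVaux

private theorem lxv_alg {R : Type*} [CommRing R] (s : Finset ℕ) (A w B r : R) (f v : ℕ → R)
    (hv : ∀ m, v m = w) (h : A * w = r * B) :
    (A + ∑ m ∈ s, f m) * w = ∑ m ∈ s, v m * f m + r * B := by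
  rw [add_mul, h, add_comm, Finset.sum_mul]
  congr 1
  exact Finset.sum_congr rfl fun m _ => by rw [hv, mul_comm]

private theorem lxv_alg2 {R : Type*} [CommRing R] (s : Finset ℕ) (v f g : ℕ → R) :
    ∑ m ∈ s, v m * (f m - g m) = ∑ m ∈ s, v m * f m - ∑ m ∈ s, v m * g m := by
  rw [← Finset.sum_sub_distrib]
  exact Finset.sum_congr rfl fun _ _ => mul_sub _ _ _

/-- sequences which are periodic up to a factor -/
private theorem lxv_per {R : Type*} [CommRing R] {u : Rˣ} {T : Type*} {b : ℕ} (F : T → ℕ → R)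
    (h : ∀ t n, 1 ≤ n → F t (n + b) = ↑(u ^ (-1 : ℤ)) * F t n) :
    RatF u {(-1, b)} fun t => PowerSeries.mk fun n => if n = 0 then 0 else F t n := by
  refine ⟨{(-1, b)}, fun p hp => by simpa using hp, b + 1, fun t n hn => ?_⟩
  rw [Multiset.map_singleton, Multiset.prod_singleton, den', sub_mul, one_mul, map_sub, mul_assoc,
    PowerSeries.coeff_C_mul, PowerSeries.coeff_X_pow_mul', if_pos (by simp only; omega),
    PowerSeries.coeff_mk, PowerSeries.coeff_mk, if_neg (by omega), if_neg (by simp only; omega)]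
  obtain ⟨m, rfl⟩ : ∃ m, n = m + b := ⟨n - b, by omega⟩
  simp only [Nat.add_sub_cancel]
  rw [h t m (by omega), sub_self]

private theorem lxv_ceil {b : ℕ} (hb : 0 < b) (n : ℕ) :
    (n + b + b - 1) / b = (n + b - 1) / b + 1 := by
  have : n + b + b - 1 = (n + b - 1) + b := by omega
  rw [this, Nat.add_div_right _ hb]

private theorem lxv_ceil_le {b : ℕ} (hb : 0 < b) (d : ℕ) : d ≤ b * ((d + b - 1) / b) := by
  have h1 := Nat.div_add_mod (d + b - 1) b
  have h2 := Nat.mod_lt (d + b - 1) hb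
  omega

private theorem lxv_lt_ceil {b : ℕ} (hb : 0 < b) {d n : ℕ} :
    n < (d + b - 1) / b ↔ b * n < d := by
  rw [← Nat.succ_le_iff, Nat.le_div_iff_mul_le hb]
  constructor
  · intro h
    have : (n + 1) * b = b * n + b := by ring
    rw [Nat.succ_eq_add_one] at h
    omega
  · intro h
    have : (n + 1) * b = b * n + b := by ring
    rw [Nat.succ_eq_add_one]
    omega

private theorem lxv_monomial {k : Type} [Field k] (i j : ℕ) (c : k) :
    (monomial (ix i j) c : MvPolynomial (Fin 2) k) = C c * (X 0 ^ i * X 1 ^ j) := by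
  rw [X_pow_eq_monomial, X_pow_eq_monomial, monomial_mul, C_mul_monomial, mul_one, mul_one, ix]

end LXVaux

section LXV

variable {k : Type} [Field k] [Algebra k ℂ] {r : ℕ} {a : ℕ} {G : Fin (r + 1) → PS k}

private theorem lxv_org {d : ℕ} (φ : Fin 2 × Fin (d + 1) → ℂ) :
    org φ = 0 ↔ φ (0, 0) = 0 ∧ φ (1, 0) = 0 := by
  constructor
  · intro h
    exact ⟨congrFun h 0, congrFun h 1⟩
  · rintro ⟨h0, h1⟩
    funext i
    fin_cases i
    · exact h0
    · exact h1

private theorem lxv_arc_cc {d : ℕ} {φ : Fin 2 × Fin (d + 1) → ℂ} (h : org φ = 0) (i : Fin 2) :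
    PowerSeries.constantCoeff (arc φ i) = 0 := by
  rw [← PowerSeries.coeff_zero_eq_constantCoeff_apply, coeff_arc, dif_pos (Nat.succ_pos d)]
  exact congrFun h i

private theorem lxv_far {H : PS k} (hs : ∀ i j, cf H i j ≠ 0 → a ≤ i)
    (h2 : ∀ i j, cf H i j ≠ 0 → a + 1 ≤ i + j) (ha : 0 < a)
    {d : ℕ} (hd : 0 < d) (φ : Fin 2 × Fin (d + 1) → ℂ)
    (h0 : ∀ l, l < (d + a - 1) / a → PowerSeries.coeff l (arc φ 0) = 0)
    (h1 : PowerSeries.constantCoeff (arc φ 1) = 0) (c : ℂ) : Hit (tp d H) d φ c ↔ c = 0 := by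
  have hm1 : 0 < (d + a - 1) / a := (lxv_lt_ceil ha).2 (by omega)
  have h2 : (PowerSeries.X : PowerSeries ℂ) ^ (d + 1) ∣ arcEval k φ (tp d H) := by
    obtain ⟨x', hx⟩ := PowerSeries.X_pow_dvd_iff.2 h0
    obtain ⟨y', hy⟩ := PowerSeries.X_dvd_iff.2 h1
    rw [arcEval, tp, map_sum]
    refine Finset.dvd_sum fun i _ => ?_
    rw [map_sum]
    refine Finset.dvd_sum fun j _ => ?_
    by_cases hc : cf H i j = 0
    · rw [hc, monomial_zero, map_zero]
      exact dvd_zero _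
    · have h3 := hs i j hc
      have h4 := h2 i j hc
      rw [lxv_monomial, map_mul, map_mul, map_pow, map_pow, aeval_X, aeval_X, hx, hy, mul_pow,
        mul_pow, ← pow_mul]
      refine Dvd.dvd.mul_left ?_ _
      have h5 : d + 1 ≤ (d + a - 1) / a * i + j := by
        have h6 := lxv_ceil_le ha d
        have h8 : (d + a - 1) / a * a = a * ((d + a - 1) / a) := by ring
        rcases Nat.eq_zero_or_pos j with hj | hj
        · have h7 : (d + a - 1) / a * (a + 1) ≤ (d + a - 1) / a * i :=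
            Nat.mul_le_mul_left _ (by omega)
          have h9 : (d + a - 1) / a * (a + 1) = (d + a - 1) / a * a + (d + a - 1) / a := by ring
          omega
        · have h7 : (d + a - 1) / a * a ≤ (d + a - 1) / a * i := Nat.mul_le_mul_left _ h3
          omega
      have h6 : (PowerSeries.X ^ ((d + a - 1) / a * i) * x' ^ i * (PowerSeries.X ^ j * y' ^ j) :
          PowerSeries ℂ) = PowerSeries.X ^ ((d + a - 1) / a * i + j) * (x' ^ i * y' ^ j) := by
        rw [pow_add]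
        ring
      rw [h6]
      exact Dvd.dvd.mul_right (pow_dvd_pow _ h5) _
  have h3 := PowerSeries.X_pow_dvd_iff.1 h2
  rw [hit_iff]
  constructor
  · rintro ⟨-, h4⟩
    rw [← h4, h3 d (by omega)]
  · intro h4
    exact ⟨fun l hl => h3 l (by omega), by rw [h4, h3 d (by omega)]⟩

private theorem lxv_far_htv (hs : ∀ e i j, cf (G e) i j ≠ 0 → a ≤ i)
    (h2 : ∀ e i j, cf (G e) i j ≠ 0 → a + 1 ≤ i + j) (ha : 0 < a)
    {d : ℕ} (hd : 0 < d) (φ : Fin 2 × Fin (d + 1) → ℂ)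
    (h0 : ∀ l, l < (d + a - 1) / a → PowerSeries.coeff l (arc φ 0) = 0)
    (h1 : PowerSeries.constantCoeff (arc φ 1) = 0) (c : ℂ) :
    Htv (fun e => tp d (G e)) d φ c ↔ c = 0 := by
  unfold Htv
  constructor
  · intro h
    have h3 := (lxv_far (hs 0) (h2 0) ha hd φ h0 h1 _).1 (h 0)
    rwa [if_pos rfl] at h3
  · intro h e
    rw [lxv_far (hs e) (h2 e) ha hd φ h0 h1, h, ite_self]

private theorem lxv_icons_zero {d N : ℕ} (i : Fin 2) (t : Test k) :
    ICons k {x : (Fin 2 × Fin N → ℂ) × t.E | ∀ l : Fin N, (l : ℕ) < d → x.1 (i, l) = 0} := by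
  refine ICons.forall_fin fun l => ?_
  by_cases h : (l : ℕ) < d
  · simp only [h, true_implies]
    exact ICons.eq (PFun.comp (f := fun φ : Fin 2 × Fin N → ℂ => φ (i, l)) (PFun.apply (i, l))
      PMap.fst) PFun.zero
  · simp only [h, false_implies]
    exact ICons.const _

private theorem lxv_icons_ord {N : ℕ} (i : Fin 2) (m : ℕ) (t : Test k) :
    ICons k {x : (Fin 2 × Fin N → ℂ) × t.E | ordc x.1 i m} := by
  refine ICons.and (lxv_icons_zero i t) ?_
  by_cases h : m < N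
  · have e : {x : (Fin 2 × Fin N → ℂ) × t.E | ∃ h : m < N, x.1 (i, ⟨m, h⟩) ≠ 0} =
        {x : (Fin 2 × Fin N → ℂ) × t.E | x.1 (i, ⟨m, h⟩) ≠ 0} := by
      ext x
      constructor
      · rintro ⟨_, h'⟩
        exact h'
      · intro h'
        exact (⟨h, h'⟩ : ∃ h : m < N, x.1 (i, ⟨m, h⟩) ≠ 0)
    rw [e]
    let q : Fin 2 × Fin N := (i, ⟨m, h⟩)
    exact ICons.ne (PFun.comp (f := fun φ : Fin 2 × Fin N → ℂ => φ q)
      (PFun.apply q) PMap.fst) PFun.zero
  · have e : {x : (Fin 2 × Fin N → ℂ) × t.E | ∃ h : m < N, x.1 (i, ⟨m, h⟩) ≠ 0} = ∅ := by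
      ext x
      simp [h]
    rw [e]
    exact ICons.empty

private theorem lxv_icons_htv {d : ℕ} (f : Fin (r + 1) → MvPolynomial (Fin 2) k) (t : Test k) :
    ICons k {x : (Fin 2 × Fin (d + 1) → ℂ) × t.E | Htv f d x.1 (t.c x.2)} := by
  unfold Htv
  refine ICons.forall_fin fun e => ?_
  refine ICons.hit d _ PMap.fst ?_
  by_cases h : e = 0
  · simp only [if_pos h]
    exact t.pf.comp PMap.snd
  · simp only [if_neg h]
    exact PFun.zero

private noncomputable def lxvZ (t : Test k) : M k :=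
  mo k {x : (Fin 2 × Fin 0 → ℂ) × t.E | x.2 ∈ t.W ∧ t.c x.2 = 0}

private noncomputable def lxvF (a : ℕ) (t : Test k) (d : ℕ) : M k :=
  ↑(Lu k ^ ((1 : ℤ) - ((d + a - 1) / a : ℕ))) * (lxvZ t - lxvZ t.zr)

/-- the decomposition -/
private theorem lxv_dec (hs : ∀ e i j, cf (G e) i j ≠ 0 → a ≤ i)
    (h2 : ∀ e i j, cf (G e) i j ≠ 0 → a + 1 ≤ i + j) (ha : 0 < a)
    {d : ℕ} (hd : 0 < d) (t : Test k) :
    lcv G d t - lcv G d t.zr = bev 0 1 G 1 0 a 1 d t + lxvF a t d := by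
  set m0 := (d + a - 1) / a with hm0
  have hm1 : 0 < m0 := (lxv_lt_ceil ha).2 (by omega)
  have hm2 : m0 ≤ d := by
    by_contra h
    push Not at h
    have h1 := (lxv_lt_ceil ha).1 h
    have : d ≤ a * d := Nat.le_mul_of_pos_left d ha
    omega
  have htp : tpv 0 d G = fun e => tp d (G e) := by
    funext e
    rw [tpv, pow_zero, one_mul]
  have key : ∀ t : Test k, lcv G d t = (∑ m ∈ (Finset.Icc 1 d).filter
      (fun m => ((0 + a) * 1 + 1 * 0) * m < 1 * d), ↑(Lu k ^ (-(((1 : ℕ) - 1 : ℤ) * m + 2 * d))) *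
        dmv 0 G 1 0 m d t) + ↑(Lu k ^ ((1 : ℤ) - m0)) * lxvZ t := by
    intro t
    unfold lxvZ
    have hc : ICons k {x : (Fin 2 × Fin (d + 1) → ℂ) × t.E | x.2 ∈ t.W ∧ org x.1 = 0 ∧
        Htv (fun e => tp d (G e)) d x.1 (t.c x.2)} := by
      refine (t.cW.mem PMap.snd).and (ICons.and ?_ (lxv_icons_htv _ t))
      have h1 : ∀ q : Fin 2 × Fin (d + 1), ICons k {x : (Fin 2 × Fin (d + 1) → ℂ) × t.E |
          x.1 q = 0} := fun q =>
        ICons.eq (PFun.comp (f := fun φ : Fin 2 × Fin (d + 1) → ℂ => φ q) (PFun.apply q)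
          PMap.fst) PFun.zero
      simp only [lxv_org]
      exact (h1 _).and (h1 _)
    have hD : ∀ m, ICons k {x : (Fin 2 × Fin (d + 1) → ℂ) × t.E | x.2 ∈ t.W ∧
        rgn 1 0 m x.1 ∧ Htv (tpv 0 d G) d x.1 (t.c x.2)} := by
      intro m
      refine (t.cW.mem PMap.snd).and (ICons.and (ICons.and (lxv_icons_ord 0 m t) ?_)
        (lxv_icons_htv _ t))
      refine ICons.forall_fin fun l => ?_
      by_cases h : (l : ℕ) * 1 ≤ 0 * m
      · simp only [h, true_implies]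
        exact ICons.eq (PFun.comp (f := fun φ : Fin 2 × Fin (d + 1) → ℂ => φ (1, l))
          (PFun.apply (1, l)) PMap.fst) PFun.zero
      · simp only [h, false_implies]
        exact ICons.const _
    have e1 : {x : (Fin 2 × Fin (d + 1) → ℂ) × t.E | x ∈ {x : (Fin 2 × Fin (d + 1) → ℂ) × t.E |
        x.2 ∈ t.W ∧ org x.1 = 0 ∧ Htv (fun e => tp d (G e)) d x.1 (t.c x.2)} ∧
        ¬ ∀ l : Fin (d + 1), (l : ℕ) < m0 → x.1 (0, l) = 0} =
        {x | ∃ m ∈ (Finset.Icc 1 d).filter (fun m => ((0 + a) * 1 + 1 * 0) * m < 1 * d),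
          x ∈ {x : (Fin 2 × Fin (d + 1) → ℂ) × t.E | x.2 ∈ t.W ∧
        rgn 1 0 m x.1 ∧ Htv (tpv 0 d G) d x.1 (t.c x.2)}} := by
      ext ⟨φ, w⟩
      simp only [Set.mem_ofPred_eq, Finset.mem_filter, Finset.mem_Icc]
      rw [htp]
      constructor
      · rintro ⟨⟨h1, h2, h3⟩, h4⟩
        push Not at h4
        obtain ⟨l, hl, hl2⟩ := h4
        rw [lxv_org] at h2
        have hex : ∃ n : ℕ, ∃ h : n < d + 1, φ (0, ⟨n, h⟩) ≠ 0 := ⟨l, l.2, hl2⟩
        classical
        have hf := Nat.find_spec hex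
        have hle : Nat.find hex ≤ l := Nat.find_min' hex ⟨l.2, hl2⟩
        refine ⟨Nat.find hex, ⟨⟨?_, ?_⟩, ?_⟩, h1, ⟨⟨?_, hf⟩, ?_⟩, ?_⟩
        · by_contra h5
          have h6 : Nat.find hex = 0 := by omega
          obtain ⟨h7, h8⟩ := hf
          apply h8
          have : (⟨Nat.find hex, h7⟩ : Fin (d + 1)) = 0 := Fin.ext h6
          rw [this]
          exact h2.1
        · omega
        · have h5 := (lxv_lt_ceil ha).1 (lt_of_le_of_lt hle hl)
          simpa using h5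
        · intro l' hl'
          have := Nat.find_min hex hl'
          push Not at this
          exact this l'.2
        · intro l' hl'
          have : l' = 0 := Fin.ext (by simpa using hl')
          rw [this]
          exact h2.2
        · exact h3
      · rintro ⟨m, ⟨⟨h1, h2⟩, h3⟩, h4, ⟨⟨h5, h6⟩, h7⟩, h8⟩
        refine ⟨⟨h4, (lxv_org φ).2 ⟨h5 0 (by simpa using Nat.pos_of_ne_zero (by omega)),
          h7 0 (by simp)⟩, h8⟩, ?_⟩
        push Not
        obtain ⟨h9, h10⟩ := h6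
        exact ⟨⟨m, h9⟩, (lxv_lt_ceil ha).2 (by simpa using h3), h10⟩
    have e2 : {x : (Fin 2 × Fin (d + 1) → ℂ) × t.E | x ∈ {x : (Fin 2 × Fin (d + 1) → ℂ) × t.E |
        x.2 ∈ t.W ∧ org x.1 = 0 ∧ Htv (fun e => tp d (G e)) d x.1 (t.c x.2)} ∧
        ∀ l : Fin (d + 1), (l : ℕ) < m0 → x.1 (0, l) = 0} =
        {x : (Fin 2 × Fin (d + 1) → ℂ) × t.E |
      (∀ (i : Fin 2) (l : Fin (d + 1)), (l : ℕ) < (![m0, 1] : Fin 2 → ℕ) i → x.1 (i, l) = 0) ∧
        (sft ![m0, 1] x.1, x.2) ∈ {x : (Fin 2 × Fin 0 → ℂ) × t.E | x.2 ∈ t.W ∧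
          t.c x.2 = 0}} := by
      ext ⟨φ, w⟩
      simp only [Set.mem_ofPred_eq]
      constructor
      · rintro ⟨⟨h1, h3', h3⟩, h4⟩
        refine ⟨fun i l hl => ?_, h1, ?_⟩
        · fin_cases i
          · exact h4 l (by simpa using hl)
          · have : l = 0 := by
              apply Fin.ext
              simpa using hl
            subst this
            exact ((lxv_org φ).1 h3').2
        · refine (lxv_far_htv hs h2 ha hd φ (fun l hl => ?_) (lxv_arc_cc h3' 1) _).1 h3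
          rw [coeff_arc, dif_pos (by omega)]
          exact h4 ⟨l, by omega⟩ hl
      · rintro ⟨h1, h3', h3⟩
        have h4 : org φ = 0 := (lxv_org φ).2 ⟨h1 0 0 (by simpa using hm1), h1 1 0 (by simp)⟩
        have h5 : ∀ l : Fin (d + 1), (l : ℕ) < m0 → φ (0, l) = 0 := fun l hl =>
          h1 0 l (by simpa using hl)
        refine ⟨⟨h3', h4, ?_⟩, h5⟩
        refine (lxv_far_htv hs h2 ha hd φ (fun l hl => ?_) (lxv_arc_cc h4 1) _).2 h3
        rw [coeff_arc, dif_pos (by omega)]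
        exact h5 ⟨l, by omega⟩ hl
    have hA : ICons k {x : (Fin 2 × Fin 0 → ℂ) × t.E | x.2 ∈ t.W ∧ t.c x.2 = 0} :=
      (t.cW.mem PMap.snd).and (ICons.eq (t.pf.comp PMap.snd) PFun.zero)
    have hsft := mo_sft (k := k) (K := 0) (N := d + 1) (e := ![m0, 1]) (by
      intro i
      fin_cases i
      · simp
        omega
      · simp) hA
    rw [lcv, mo_split hc (lxv_icons_zero 0 t), e1, e2, hsft, mo_biUnion _ (fun m _ => hD m)]
    · refine lxv_alg _ _ _ _ _ _ _ ?_ ?_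
      · intro m
        congr 2
        push_cast
        ring
      · simp only [Matrix.cons_val_zero, Matrix.cons_val_one]
        rw [mul_comm, ← mul_assoc]
        congr 1
        rw [← Units.val_mul, ← zpow_natCast, ← zpow_add]
        congr 2
        have : ((d + 1 - m0 - 0 + (d + 1 - 1 - 0) : ℕ) : ℤ) = 2 * d + 1 - m0 := by
          omega
        rw [this]
        push_cast
        ring
    · intro m _ m' _ hmm
      rw [Set.disjoint_left]
      rintro ⟨φ, w⟩ ⟨-, ⟨⟨h1, h2, h3⟩, -⟩, -⟩ ⟨-, ⟨⟨h4, h5, h6⟩, -⟩, -⟩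
      simp only at h1 h2 h3 h4 h5 h6
      rcases lt_trichotomy m m' with h | h | h
      · exact h3 (h4 ⟨m, h2⟩ h)
      · exact hmm h
      · exact h6 (h1 ⟨m', h5⟩ h)
  rw [key t, key t.zr, bev, lxvF]
  have e : ∀ s : Finset ℕ, ∑ m ∈ s, (↑(Lu k ^ (-(((1 : ℕ) - 1 : ℤ) * m + 2 * d))) *
      (dmv 0 G 1 0 m d t - dmv 0 G 1 0 m d t.zr)) =
      ∑ m ∈ s, ↑(Lu k ^ (-(((1 : ℕ) - 1 : ℤ) * m + 2 * d))) * dmv 0 G 1 0 m d t -
      ∑ m ∈ s, ↑(Lu k ^ (-(((1 : ℕ) - 1 : ℤ) * m + 2 * d))) * dmv 0 G 1 0 m d t.zr := by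
    intro s
    exact lxv_alg2 _ _ _ _
  rw [e]
  ring

private theorem lxv_far_rat (ha : 0 < a) :
    RatF (Lu k) {(-1, a)} (fun t : Test k => PowerSeries.mk fun d => if d = 0 then 0 else
      lxvF a t d) := by
  refine lxv_per (fun (t : Test k) d => lxvF a t d) fun t n hn => ?_
  unfold lxvF
  rw [lxv_ceil ha n]
  have : (Lu k ^ ((1 : ℤ) - (((n + a - 1) / a + 1 : ℕ) : ℤ)) : (M k)ˣ) =
      Lu k ^ (-1 : ℤ) * Lu k ^ ((1 : ℤ) - (((n + a - 1) / a : ℕ) : ℤ)) := by
    rw [← zpow_add]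
    congr 1
    push_cast
    ring
  rw [this, Units.val_mul]
  ring

theorem lcv_xdiv (hV : Vtv G 1 0 a 1) (hP : Pur G a 1) (hs : ∀ e i j, cf (G e) i j ≠ 0 → a ≤ i)
    (h2 : ∀ e i j, cf (G e) i j ≠ 0 → a + 1 ≤ i + j) (ha : 0 < a) :
    RatF (Lu k) {(-1, a)} (fun t : Test k => PowerSeries.mk fun d =>
      if d = 0 then 0 else lcv G d t - lcv G d t.zr) := by
  refine (lxv_far_rat ha).congr fun t => ?_
  ext d
  rw [PowerSeries.coeff_mk, PowerSeries.coeff_mk]
  by_cases hd : d = 0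
  · rw [if_pos hd, if_pos hd]
  · rw [if_neg hd, if_neg hd, lxv_dec hs h2 ha (Nat.pos_of_ne_zero hd),
      bev_one Nat.one_pos hV hP, zero_add]

end LXV

end Pool.Agent.H75.Mono
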