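import Pool.Agent.H75.Idl.LFT
import Pool.Agent.H75.Idl.RSV

/-! # LIY, module LFV: roots of the total polynomial, several variables kept -/

set_option autoImplicit false

namespace Pool.Agent.H75.Mono

open MvPolynomial Pool.Agent.H39.MonoR

section LFV

variable {k : Type} [Field k] [CharZero k] {r : ℕ} {F : Fin (r + 1) → MvPolynomial (Fin 2) k}

private theorem LFV_mem (e : Fin (r + 1)) : F e ∈ idl F := Ideal.subset_span ⟨e, rfl⟩

private theorem LFV_cm_mem (y : Fin (r + 1) → k) : cmF y F ∈ idl F :=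
  (idl F).sum_mem fun e _ => (idl F).mul_mem_left _ (LFV_mem e)

private theorem LFV_rename {τ : Type} (R : MvPolynomial (Fin 2) k →ₐ[k] MvPolynomial τ k)
    {y : Fin (r + 1) → k} (hy : y 0 = 1) :
    R (cmF y F) = R (F 0) + ∑ i : Fin r, C (y i.succ) * R (F i.succ) := by
  have h1 : ∀ a : k, R (C a) = C a := fun a => R.commutes a
  unfold cmF
  rw [map_sum, Fin.sum_univ_succ, map_mul, h1, hy, C_1, one_mul]
  congr 1
  refine Finset.sum_congr rfl fun i _ => ?_
  rw [map_mul, h1]

/-- the linear variables `y_(i l)` are kept -/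
theorem SR.of_cm_vars {κ : Type} [Fintype κ] {y : Fin (r + 1) → k} (hy : y 0 = 1)
    {i : κ → Fin r} (hi : Function.Injective i) {s : ℚ}
    (h : SRI k (MvPolynomial.rename Sum.inl (cmF y F) +
        ∑ l, (X (Sum.inr l) - C (y (i l).succ)) * MvPolynomial.rename Sum.inl (F (i l).succ) :
          MvPolynomial (Fin 2 ⊕ κ) k)
      ((idl F).map (MvPolynomial.rename Sum.inl :
        MvPolynomial (Fin 2) k →ₐ[k] MvPolynomial (Fin 2 ⊕ κ) k)) s) : SR k (tot F) s := by
  classical
  have hm : ∀ p ∈ idl F, (MvPolynomial.rename Sum.inl p : MvPolynomial (Fin 2 ⊕ κ) k) ∈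
      (idl F).map (MvPolynomial.rename Sum.inl :
        MvPolynomial (Fin 2) k →ₐ[k] MvPolynomial (Fin 2 ⊕ κ) k) :=
    fun p hp => Ideal.mem_map_of_mem _ hp
  have h1 := SRI.lift (ι := Fin r)
    (a := fun l => if ∃ j, i j = l then 0 else
      (MvPolynomial.rename Sum.inl (F l.succ) : MvPolynomial (Fin 2 ⊕ κ) k))
    (((idl F).map (MvPolynomial.rename Sum.inl :
        MvPolynomial (Fin 2) k →ₐ[k] MvPolynomial (Fin 2 ⊕ κ) k)).add_mem
      (hm _ (LFV_cm_mem y)) (Ideal.sum_mem _ fun l _ =>
        Ideal.mul_mem_left _ _ (hm _ (LFV_mem (i l).succ))))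
    (fun l => by
      by_cases hl : ∃ j, i j = l
      · simp only [hl, if_true]
        exact Ideal.zero_mem _
      · simp only [hl, if_false]
        exact hm _ (LFV_mem l.succ))
    (fun l => y l.succ) h
  let g : Fin 2 ⊕ Fin r → (Fin 2 ⊕ κ) ⊕ Fin r :=
    Sum.elim (fun x => Sum.inl (Sum.inl x))
      (fun l => if hl : ∃ j, i j = l then Sum.inl (Sum.inr hl.choose) else Sum.inr l)
  have hgi : ∀ j, g (Sum.inr (i j)) = Sum.inl (Sum.inr j) := by
    intro j
    have hex : ∃ j', i j' = i j := ⟨j, rfl⟩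
    simp only [g, Sum.elim_inr, hex, dif_pos]
    rw [hi hex.choose_spec]
  have hgn : ∀ l, (¬ ∃ j, i j = l) → g (Sum.inr l) = Sum.inr l := by
    intro l hl
    simp only [g, Sum.elim_inr, hl, dif_neg, not_false_eq_true]
  have hgl : ∀ x, g (Sum.inl x) = Sum.inl (Sum.inl x) := fun x => rfl
  have hg : Function.Injective g := by
    intro a b hab
    rcases a with a | a <;> rcases b with b | b
    · simpa [hgl] using hab
    · exfalso
      by_cases hb : ∃ j, i j = b
      · obtain ⟨j, rfl⟩ := hb
        rw [hgi, hgl] at hab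
        simp at hab
      · rw [hgn _ hb, hgl] at hab
        simp at hab
    · exfalso
      by_cases hb : ∃ j, i j = a
      · obtain ⟨j, rfl⟩ := hb
        rw [hgi, hgl] at hab
        simp at hab
      · rw [hgn _ hb, hgl] at hab
        simp at hab
    · by_cases ha : ∃ j, i j = a
      · obtain ⟨j, rfl⟩ := ha
        by_cases hb : ∃ j, i j = b
        · obtain ⟨j', rfl⟩ := hb
          rw [hgi, hgi] at hab
          simp only [Sum.inl.injEq, Sum.inr.injEq] at hab
          rw [hab]
        · rw [hgi, hgn _ hb] at hab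
          simp at hab
      · by_cases hb : ∃ j, i j = b
        · obtain ⟨j', rfl⟩ := hb
          rw [hgi, hgn _ ha] at hab
          simp at hab
        · rw [hgn _ ha, hgn _ hb] at hab
          simpa using hab
  refine SR.res hg ?_
  have h2 : MvPolynomial.rename g (tot F) =
      MvPolynomial.rename Sum.inl (MvPolynomial.rename Sum.inl (cmF y F) +
        ∑ l, (X (Sum.inr l) - C (y (i l).succ)) *
        MvPolynomial.rename Sum.inl (F (i l).succ) : MvPolynomial (Fin 2 ⊕ κ) k) +
      ∑ l : Fin r, (X (Sum.inr l) - C (y l.succ)) * MvPolynomial.rename Sum.inl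
        (if ∃ j, i j = l then 0 else
          (MvPolynomial.rename Sum.inl (F l.succ) : MvPolynomial (Fin 2 ⊕ κ) k)) := by
    set R : MvPolynomial (Fin 2) k →ₐ[k] MvPolynomial ((Fin 2 ⊕ κ) ⊕ Fin r) k :=
      MvPolynomial.rename (fun x => Sum.inl (Sum.inl x)) with hR
    have hR1 : ∀ p, MvPolynomial.rename Sum.inl
        (MvPolynomial.rename Sum.inl p : MvPolynomial (Fin 2 ⊕ κ) k) = R p := by
      intro p
      rw [MvPolynomial.rename_rename]
      rfl
    have hR2 : ∀ p, MvPolynomial.rename g (MvPolynomial.rename Sum.inl p) = R p := by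
      intro p
      rw [MvPolynomial.rename_rename]
      rfl
    have hs : (MvPolynomial.rename Sum.inl (∑ l, (X (Sum.inr l) - C (y (i l).succ)) *
        MvPolynomial.rename Sum.inl (F (i l).succ) : MvPolynomial (Fin 2 ⊕ κ) k) :
          MvPolynomial ((Fin 2 ⊕ κ) ⊕ Fin r) k) =
        ∑ l : Fin r, (if ∃ j, i j = l then
          (X (g (Sum.inr l)) - C (y l.succ)) * R (F l.succ) else 0) := by
      rw [map_sum]
      refine Finset.sum_of_injOn i hi.injOn (fun _ _ => by simp) (fun l _ hl => ?_)
        (fun j _ => ?_)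
      · rw [if_neg]
        rintro ⟨j, rfl⟩
        exact hl ⟨j, by simp, rfl⟩
      · rw [if_pos ⟨j, rfl⟩, map_mul, map_sub, rename_X, rename_C, hR1, hgi]
    unfold tot
    rw [map_add, hR2, map_sum, map_add, hR1, hs, LFV_rename R hy, add_assoc, add_assoc]
    congr 1
    have h3 : ∀ l : Fin r, MvPolynomial.rename g (X (Sum.inr l) *
        MvPolynomial.rename Sum.inl (F l.succ)) =
        C (y l.succ) * R (F l.succ) + ((if ∃ j, i j = l then
          (X (g (Sum.inr l)) - C (y l.succ)) * R (F l.succ) else 0) +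
        (X (Sum.inr l) - C (y l.succ)) * MvPolynomial.rename Sum.inl
        (if ∃ j, i j = l then 0 else
          (MvPolynomial.rename Sum.inl (F l.succ) : MvPolynomial (Fin 2 ⊕ κ) k))) := by
      intro l
      rw [map_mul, rename_X, hR2]
      by_cases hl : ∃ j, i j = l
      · simp only [hl, if_true, map_zero, mul_zero, add_zero]
        ring
      · rw [hgn _ hl]
        simp only [hl, if_false, hR1]
        ring
    rw [Finset.sum_congr rfl fun l _ => h3 l, Finset.sum_add_distrib, Finset.sum_add_distrib]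
  rw [h2]
  exact h1

end LFV

end Pool.Agent.H75.Mono
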