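import Pool.Agent.H75.Idl.I0

/-! # LIY, module SPG: the chain of a divisor, general form -/

set_option autoImplicit false
set_option linter.unusedSectionVars false

namespace Pool.Agent.H75.Mono

open MvPolynomial Pool.Agent.H39.MonoR

section SPG

variable {k : Type} [Field k] [CharZero k] {κ : Type}

/-- a derivation of the coefficient ring applied to the coefficients -/
noncomputable def pdv (v : Option κ) (f : PowerSeries (MvPolynomial (Option κ) k)) :
    PowerSeries (MvPolynomial (Option κ) k) := PowerSeries.mk fun n => pderiv v (PowerSeries.coeff n f)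

/-! ### binomial coefficients -/

/-- binomial coefficients -/
def spg_b (a : ℚ) : ℕ → ℚ
  | 0 => 1
  | l + 1 => spg_b a l * (a - l) / (l + 1)

theorem spg_b3 (a : ℚ) (l : ℕ) : ((l : ℚ) + 1) * spg_b a (l + 1) = (a - l) * spg_b a l := by
  have h : ((l : ℚ) + 1) ≠ 0 := by positivity
  rw [spg_b]
  field_simp

theorem spg_b2 (a : ℚ) (l : ℕ) : ((l : ℚ) + 1) * spg_b a (l + 1) = a * spg_b (a - 1) l := by
  induction l with
  | zero => rw [spg_b3]; simp [spg_b]
  | succ l ih =>
    have h : ((l : ℚ) + 1) ≠ 0 := by positivity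
    rw [spg_b3]
    apply mul_left_cancel₀ h
    have h1 := spg_b3 (a - 1) l
    push_cast
    linear_combination (a - (l + 1)) * ih - a * h1

theorem spg_b1 (a : ℚ) (l : ℕ) : spg_b a (l + 1) = spg_b (a - 1) (l + 1) + spg_b (a - 1) l := by
  have h : ((l : ℚ) + 1) ≠ 0 := by positivity
  apply mul_left_cancel₀ h
  have h1 := spg_b3 (a - 1) l
  have h2 := spg_b2 a l
  linear_combination h2 - h1

/-- the binomial coefficients in `k` -/
noncomputable def spg_c (k : Type) [Field k] (a : ℚ) (l : ℕ) : k := ((spg_b a l : ℚ) : k)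

theorem spg_c3 (a : ℚ) (l : ℕ) :
    ((l : k) + 1) * spg_c k a (l + 1) = ((a : k) - l) * spg_c k a l := by
  have h := congrArg (fun q : ℚ => (q : k)) (spg_b3 a l)
  simpa [spg_c] using h

theorem spg_c2 (a : ℚ) (l : ℕ) :
    ((l : k) + 1) * spg_c k a (l + 1) = (a : k) * spg_c k (a - 1) l := by
  have h := congrArg (fun q : ℚ => (q : k)) (spg_b2 a l)
  simpa [spg_c] using h

theorem spg_c1 (a : ℚ) (l : ℕ) :
    spg_c k a (l + 1) = spg_c k (a - 1) (l + 1) + spg_c k (a - 1) l := by
  have h := congrArg (fun q : ℚ => (q : k)) (spg_b1 a l)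
  simpa [spg_c] using h

theorem spg_c0 (a : ℚ) : spg_c k a 0 = 1 := by simp [spg_c, spg_b]

/-- first summation -/
theorem spg_s1 (a : ℚ) (u : ℕ → k) (L : ℕ) (hu : u L = 0) :
    ∑ l ∈ Finset.range L, spg_c k (a - 1) l * (u l + u (l + 1)) =
      ∑ l ∈ Finset.range L, spg_c k a l * u l := by
  have h1 : ∑ l ∈ Finset.range L, spg_c k a l * u l =
      ∑ l ∈ Finset.range (L + 1), spg_c k a l * u l := by
    rw [Finset.sum_range_succ, hu, mul_zero, add_zero]
  have h2 : ∑ l ∈ Finset.range L, spg_c k (a - 1) l * u l =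
      ∑ l ∈ Finset.range (L + 1), spg_c k (a - 1) l * u l := by
    rw [Finset.sum_range_succ, hu, mul_zero, add_zero]
  simp only [mul_add, Finset.sum_add_distrib]
  rw [h1, h2, Finset.sum_range_succ', Finset.sum_range_succ', spg_c0, spg_c0, add_right_comm,
    ← Finset.sum_add_distrib]
  congr 1
  refine Finset.sum_congr rfl fun l _ => ?_
  rw [spg_c1 a l]
  ring

/-- second summation -/
theorem spg_s2 (a : ℚ) (u : ℕ → k) (L : ℕ) :
    ∑ l ∈ Finset.range (L + 1), spg_c k a l * ((l : k) * u l) =
      (a : k) * ∑ l ∈ Finset.range L, spg_c k (a - 1) l * u (l + 1) := by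
  rw [Finset.sum_range_succ', Nat.cast_zero, zero_mul, mul_zero, add_zero, Finset.mul_sum]
  refine Finset.sum_congr rfl fun l _ => ?_
  have h := spg_c2 (k := k) a l
  push_cast
  linear_combination u (l + 1) * h

/-! ### derivations of the coefficients -/

theorem spg_coeff (i : Option κ) (f : PowerSeries (MvPolynomial (Option κ) k)) (n : ℕ) :
    PowerSeries.coeff n (pdv i f) = pderiv i (PowerSeries.coeff n f) := by
  rw [pdv, PowerSeries.coeff_mk]

theorem spg_mul (i : Option κ) (a b : PowerSeries (MvPolynomial (Option κ) k)) :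
    pdv i (a * b) = a * pdv i b + b * pdv i a := by
  refine PowerSeries.ext fun n => ?_
  rw [spg_coeff, PowerSeries.coeff_mul, map_sum, map_add, PowerSeries.coeff_mul, mul_comm b,
    PowerSeries.coeff_mul, ← Finset.sum_add_distrib]
  refine Finset.sum_congr rfl fun p _ => ?_
  rw [Derivation.leibniz, smul_eq_mul, smul_eq_mul, spg_coeff, spg_coeff]
  ring

/-- the derivation -/
noncomputable def spgD (i : Option κ) : Derivation k (PowerSeries (MvPolynomial (Option κ) k))
    (PowerSeries (MvPolynomial (Option κ) k)) :=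
  Derivation.mk'
    { toFun := pdv i
      map_add' := fun a b => PowerSeries.ext fun n => by
        rw [spg_coeff, map_add, map_add, map_add, spg_coeff, spg_coeff]
      map_smul' := fun c a => PowerSeries.ext fun n => by
        rw [spg_coeff, RingHom.id_apply]
        have h1 : ∀ b : PowerSeries (MvPolynomial (Option κ) k),
          PowerSeries.coeff n (c • b) = c • PowerSeries.coeff n b := fun b => rfl
        rw [h1, h1, Derivation.map_smul, spg_coeff] }
    (fun a b => by
      rw [smul_eq_mul, smul_eq_mul]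
      exact spg_mul i a b)

theorem spg_add (i : Option κ) (a b : PowerSeries (MvPolynomial (Option κ) k)) :
    pdv i (a + b) = pdv i a + pdv i b := (spgD i).map_add a b

theorem spg_sub (i : Option κ) (a b : PowerSeries (MvPolynomial (Option κ) k)) :
    pdv i (a - b) = pdv i a - pdv i b := (spgD i).map_sub a b

theorem spg_alg (i : Option κ) (c : k) :
    pdv i (algebraMap k (PowerSeries (MvPolynomial (Option κ) k)) c) = 0 :=
  (spgD i).map_algebraMap c

theorem spg_pow (i : Option κ) (a : PowerSeries (MvPolynomial (Option κ) k)) (n : ℕ) :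
    pdv i (a ^ n) = n • (a ^ (n - 1) * pdv i a) := by
  have h := (spgD i).leibniz_pow a n
  rw [smul_eq_mul] at h
  exact h

theorem spg_C (i : Option κ) (r : MvPolynomial (Option κ) k) :
    pdv i (PowerSeries.C r) = PowerSeries.C (pderiv i r) := by
  refine PowerSeries.ext fun n => ?_
  rw [spg_coeff, PowerSeries.coeff_C, PowerSeries.coeff_C]
  split_ifs
  · rfl
  · exact map_zero _

theorem spg_X (i : Option κ) (n : ℕ) :
    pdv i (PowerSeries.X ^ n : PowerSeries (MvPolynomial (Option κ) k)) = 0 := by
  refine PowerSeries.ext fun m => ?_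
  rw [spg_coeff, PowerSeries.coeff_X_pow, map_zero]
  split_ifs
  · exact Derivation.map_one_eq_zero _
  · exact map_zero _

theorem spg_Xmul (i : Option κ) (n : ℕ) (a : PowerSeries (MvPolynomial (Option κ) k)) :
    pdv i (PowerSeries.X ^ n * a) = PowerSeries.X ^ n * pdv i a := by
  rw [spg_mul, spg_X, mul_zero, add_zero]

theorem spg_comm (i : Option κ) (a : PowerSeries (MvPolynomial (Option κ) k)) :
    PowerSeries.derivative _ (pdv i a) = pdv i (PowerSeries.derivative _ a) := by
  refine PowerSeries.ext fun n => ?_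
  rw [PowerSeries.coeff_derivative, spg_coeff, spg_coeff, PowerSeries.coeff_derivative,
    Derivation.leibniz, smul_eq_mul, smul_eq_mul]
  have h : pderiv i ((n : MvPolynomial (Option κ) k) + 1) = 0 := by
    rw [map_add, Derivation.map_one_eq_zero, Derivation.map_natCast, add_zero]
  rw [h, mul_zero, zero_add]
  ring

theorem spg_pcomm (i j : Option κ) (A : MvPolynomial (Option κ) k) :
    pderiv i (pderiv j A) = pderiv j (pderiv i A) := by
  classical
  have h : ⁅(pderiv i : Derivation k (MvPolynomial (Option κ) k) (MvPolynomial (Option κ) k)),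
      (pderiv j : Derivation k (MvPolynomial (Option κ) k) (MvPolynomial (Option κ) k))⁆ = 0 := by
    apply MvPolynomial.derivation_ext
    intro l
    rw [Derivation.commutator_apply]
    simp [pderiv_X, Pi.single_apply, apply_ite]
  have h1 := congrArg (fun D : Derivation k (MvPolynomial (Option κ) k)
    (MvPolynomial (Option κ) k) => D A) h
  simp only [Derivation.commutator_apply, Derivation.coe_zero, Pi.zero_apply] at h1
  exact sub_eq_zero.mp h1

theorem spg_comm2 (i j : Option κ) (a : PowerSeries (MvPolynomial (Option κ) k)) :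
    pdv i (pdv j a) = pdv j (pdv i a) := by
  refine PowerSeries.ext fun n => ?_
  rw [spg_coeff, spg_coeff, spg_coeff, spg_coeff, spg_pcomm]

/-! ### the linear forms -/

/-- the coefficient of `X^n` of `B h^l` -/
noncomputable def spg_t (h : PowerSeries (MvPolynomial (Option κ) k)) (n : ℕ)
    (B : PowerSeries (MvPolynomial (Option κ) k)) (l : ℕ) : MvPolynomial (Option κ) k :=
  PowerSeries.coeff n (B * h ^ l)

/-- the linear form -/
noncomputable def spg_L (s : ℚ) (lam : ℕ → MvPolynomial (Option κ) k →ₗ[k] k)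
    (h : PowerSeries (MvPolynomial (Option κ) k)) (m n L : ℕ)
    (B : PowerSeries (MvPolynomial (Option κ) k)) : k :=
  ∑ l ∈ Finset.range L, spg_c k (-s - m) l * lam (m + l) (spg_t h n B l)

variable {s : ℚ} {lam : ℕ → MvPolynomial (Option κ) k →ₗ[k] k}
  {h : PowerSeries (MvPolynomial (Option κ) k)}

theorem spg_t_zero (hh : PowerSeries.X ∣ h) {n l : ℕ} (hl : n < l)
    (B : PowerSeries (MvPolynomial (Option κ) k)) : spg_t h n B l = 0 := by
  have h1 : PowerSeries.X ^ l ∣ B * h ^ l := (pow_dvd_pow_of_dvd hh l).mul_left B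
  exact PowerSeries.X_pow_dvd_iff.mp h1 n hl

theorem spg_L_eq (hh : PowerSeries.X ∣ h) {n L L' : ℕ} (hL : n < L) (hL' : n < L') (m : ℕ)
    (B : PowerSeries (MvPolynomial (Option κ) k)) :
    spg_L s lam h m n L B = spg_L s lam h m n L' B := by
  have key : ∀ L, n < L → spg_L s lam h m n L B = spg_L s lam h m n (n + 1) B := by
    intro L hL
    refine (Finset.sum_subset (fun l hl => ?_) fun l _ hl => ?_).symm
    · rw [Finset.mem_range] at hl ⊢
      omega
    · rw [Finset.mem_range] at hl
      rw [spg_t_zero hh (by omega), map_zero, mul_zero]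
  rw [key L hL, key L' hL']

theorem spg_L_add (m n L : ℕ) (B B' : PowerSeries (MvPolynomial (Option κ) k)) :
    spg_L s lam h m n L (B + B') = spg_L s lam h m n L B + spg_L s lam h m n L B' := by
  unfold spg_L spg_t
  rw [← Finset.sum_add_distrib]
  refine Finset.sum_congr rfl fun l _ => ?_
  rw [add_mul, map_add, map_add]
  ring

theorem spg_L_smul (m n L : ℕ) (c : k) (B : PowerSeries (MvPolynomial (Option κ) k)) :
    spg_L s lam h m n L (c • B) = c * spg_L s lam h m n L B := by
  unfold spg_L spg_t
  rw [Finset.mul_sum]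
  refine Finset.sum_congr rfl fun l _ => ?_
  have h1 : PowerSeries.coeff n (c • B * h ^ l) = c • PowerSeries.coeff n (B * h ^ l) := by
    rw [smul_mul_assoc]
    rfl
  rw [h1, map_smul, smul_eq_mul]
  ring

theorem spg_L_shift (m n L N : ℕ) (B : PowerSeries (MvPolynomial (Option κ) k)) :
    spg_L s lam h m (n + N) L (PowerSeries.X ^ N * B) = spg_L s lam h m n L B := by
  unfold spg_L spg_t
  refine Finset.sum_congr rfl fun l _ => ?_
  rw [mul_assoc, PowerSeries.coeff_X_pow_mul]

theorem spg_L_dvd (m n L N : ℕ) (hN : n < N) (B : PowerSeries (MvPolynomial (Option κ) k))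
    (hB : PowerSeries.X ^ N ∣ B) : spg_L s lam h m n L B = 0 := by
  unfold spg_L spg_t
  refine Finset.sum_eq_zero fun l _ => ?_
  rw [PowerSeries.X_pow_dvd_iff.mp (hB.mul_right (h ^ l)) n hN, map_zero, mul_zero]

/-- multiplication by `g = G0 + h` -/
theorem spg_P1 (hh : PowerSeries.X ∣ h) {G0 : MvPolynomial (Option κ) k}
    (l1 : ∀ m P, lam (m + 1) (G0 * P) = lam m P) {n L : ℕ} (hL : n < L) (m : ℕ)
    (B : PowerSeries (MvPolynomial (Option κ) k)) :
    spg_L s lam h (m + 1) n L ((PowerSeries.C G0 + h) * B) = spg_L s lam h m n L B := by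
  unfold spg_L
  have ha : (-s - ((m + 1 : ℕ) : ℚ)) = (-s - m) - 1 := by push_cast; ring
  rw [ha, ← spg_s1 (k := k) (-s - m) (fun l => lam (m + l) (spg_t h n B l)) L (by
    rw [spg_t_zero hh hL, map_zero])]
  refine Finset.sum_congr rfl fun l _ => ?_
  congr 1
  have h1 : spg_t h n ((PowerSeries.C G0 + h) * B) l = G0 * spg_t h n B l + spg_t h n B (l + 1) := by
    unfold spg_t
    have h2 : (PowerSeries.C G0 + h) * B * h ^ l =
        PowerSeries.C G0 * (B * h ^ l) + B * h ^ (l + 1) := by ring
    rw [h2, map_add, PowerSeries.coeff_C_mul]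
  rw [h1, map_add, show m + 1 + l = (m + l) + 1 by ring, l1]
  rfl

/-- the derivative with respect to `X` -/
theorem spg_P2 {G0 : MvPolynomial (Option κ) k} {n L : ℕ} (m : ℕ)
    (B : PowerSeries (MvPolynomial (Option κ) k)) :
    spg_L s lam h m n (L + 1) (PowerSeries.derivative _ B) =
      ((n : k) + 1) * spg_L s lam h m (n + 1) (L + 1) B +
        ((s : k) + m) * spg_L s lam h (m + 1) n L
          (PowerSeries.derivative _ (PowerSeries.C G0 + h) * B) := by
  have ha : (-s - ((m + 1 : ℕ) : ℚ)) = (-s - m) - 1 := by push_cast; ring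
  have h1 : PowerSeries.derivative _ (PowerSeries.C G0 + h) = PowerSeries.derivative _ h := by
    rw [map_add, PowerSeries.derivative_C, zero_add]
  have h2 := spg_s2 (k := k) (-s - m)
    (fun l => lam (m + l) (spg_t h n (PowerSeries.derivative _ h * B) (l - 1))) L
  have h3 : ((n : k) + 1) * spg_L s lam h m (n + 1) (L + 1) B =
      spg_L s lam h m n (L + 1) (PowerSeries.derivative _ B) +
        ∑ l ∈ Finset.range (L + 1), spg_c k (-s - m) l * ((l : k) *
          lam (m + l) (spg_t h n (PowerSeries.derivative _ h * B) (l - 1))) := by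
    unfold spg_L
    rw [Finset.mul_sum, ← Finset.sum_add_distrib]
    refine Finset.sum_congr rfl fun l _ => ?_
    have h4 : (((n : k) + 1) • spg_t h (n + 1) B l : MvPolynomial (Option κ) k) =
        spg_t h n (PowerSeries.derivative _ B) l +
          (l : k) • spg_t h n (PowerSeries.derivative _ h * B) (l - 1) := by
      unfold spg_t
      have h5 := PowerSeries.coeff_derivative (B * h ^ l) n
      have h6 : PowerSeries.derivative _ (B * h ^ l) = PowerSeries.derivative _ B * h ^ l +
          (l : PowerSeries (MvPolynomial (Option κ) k)) *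
            (PowerSeries.derivative _ h * B * h ^ (l - 1)) := by
        rw [Derivation.leibniz, Derivation.leibniz_pow, smul_eq_mul, smul_eq_mul, nsmul_eq_mul,
          smul_eq_mul]
        ring
      rw [h6, map_add, ← map_natCast (PowerSeries.C (R := MvPolynomial (Option κ) k)) l,
        PowerSeries.coeff_C_mul] at h5
      rw [Algebra.smul_def, Algebra.smul_def, map_add, map_one, map_natCast, map_natCast]
      linear_combination -h5
    have h7 := congrArg (lam (m + l)) h4
    rw [map_smul, map_add, map_smul, smul_eq_mul, smul_eq_mul] at h7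
    linear_combination spg_c k (-s - m) l * h7
  rw [h3, h2, h1]
  have h8 : (((-s - m : ℚ)) : k) = -((s : k) + m) := by push_cast; ring
  have h9 : ∑ l ∈ Finset.range L, spg_c k (-s - m - 1) l *
      lam (m + (l + 1)) (spg_t h n (PowerSeries.derivative _ h * B) (l + 1 - 1)) =
      spg_L s lam h (m + 1) n L (PowerSeries.derivative _ h * B) := by
    unfold spg_L
    rw [ha]
    refine Finset.sum_congr rfl fun l _ => ?_
    rw [Nat.add_sub_cancel, show m + (l + 1) = m + 1 + l by ring]
  rw [h8, h9]
  ring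

/-- the derivatives with respect to the other variables -/
theorem spg_P3 (hh : PowerSeries.X ∣ h) {G0 : MvPolynomial (Option κ) k}
    (l2 : ∀ m v P, lam m (pderiv v P) = ((s : k) + m) * lam (m + 1) (pderiv v G0 * P))
    (v : Option κ) {n L : ℕ} (hL : n < L) (m : ℕ)
    (B : PowerSeries (MvPolynomial (Option κ) k)) :
    spg_L s lam h m n L (pdv v B) = ((s : k) + m) * spg_L s lam h (m + 1) n L
          (pdv v (PowerSeries.C G0 + h) * B) := by
  have ha : (-s - ((m + 1 : ℕ) : ℚ)) = (-s - m) - 1 := by push_cast; ring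
  have h8 : (((-s - m : ℚ)) : k) = -((s : k) + m) := by push_cast; ring
  have h2 := spg_s2 (k := k) (-s - m)
    (fun l => lam (m + l) (spg_t h n (pdv v h * B) (l - 1))) L
  have h9 : ∑ l ∈ Finset.range L, spg_c k (-s - m - 1) l *
      lam (m + (l + 1)) (spg_t h n (pdv v h * B) (l + 1 - 1)) =
      spg_L s lam h (m + 1) n L (pdv v h * B) := by
    unfold spg_L
    rw [ha]
    refine Finset.sum_congr rfl fun l _ => ?_
    rw [Nat.add_sub_cancel, show m + (l + 1) = m + 1 + l by ring]
  have h3 : spg_L s lam h m n (L + 1) (pdv v B) =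
      ∑ l ∈ Finset.range (L + 1), spg_c k (-s - m) l * lam (m + l) (pderiv v (spg_t h n B l)) -
        ∑ l ∈ Finset.range (L + 1), spg_c k (-s - m) l * ((l : k) *
          lam (m + l) (spg_t h n (pdv v h * B) (l - 1))) := by
    unfold spg_L
    rw [← Finset.sum_sub_distrib]
    refine Finset.sum_congr rfl fun l _ => ?_
    have h4 : pderiv v (spg_t h n B l) = spg_t h n (pdv v B) l +
        (l : k) • spg_t h n (pdv v h * B) (l - 1) := by
      unfold spg_t
      have h6 : pdv v (B * h ^ l) = pdv v B * h ^ l +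
          (l : PowerSeries (MvPolynomial (Option κ) k)) * (pdv v h * B * h ^ (l - 1)) := by
        rw [spg_mul, spg_pow, nsmul_eq_mul]
        ring
      rw [← spg_coeff, h6, map_add, ← map_natCast (PowerSeries.C (R := MvPolynomial (Option κ) k)) l,
        PowerSeries.coeff_C_mul, Algebra.smul_def, map_natCast]
    rw [h4, map_add, map_smul, smul_eq_mul]
    ring
  have h5 : ∑ l ∈ Finset.range (L + 1), spg_c k (-s - m) l *
      lam (m + l) (pderiv v (spg_t h n B l)) = ((s : k) + m) *
        spg_L s lam h (m + 1) n L (PowerSeries.C (pderiv v G0) * B) := by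
    rw [Finset.sum_range_succ, spg_t_zero hh hL, map_zero, map_zero, mul_zero, add_zero]
    unfold spg_L
    rw [Finset.mul_sum, ha]
    refine Finset.sum_congr rfl fun l _ => ?_
    have h6 : spg_t h n (PowerSeries.C (pderiv v G0) * B) l = pderiv v G0 * spg_t h n B l := by
      unfold spg_t
      rw [mul_assoc, PowerSeries.coeff_C_mul]
    rw [l2, h6, show m + 1 + l = (m + l) + 1 by ring]
    have h7 := spg_c3 (k := k) (-s - m) l
    have h7' := spg_c2 (k := k) (-s - m) l
    rw [h8] at h7 h7'
    push_cast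
    linear_combination (lam (m + l + 1) (pderiv v G0 * spg_t h n B l)) * (h7 - h7')
  rw [spg_L_eq hh hL (Nat.lt_succ_of_lt hL), h3, h5, h2, h9, h8, spg_add, spg_C,
    add_mul (PowerSeries.C _), spg_L_add]
  ring

/-- the linear forms for the coefficients of `X^n` -/
theorem spg_forms {g : PowerSeries (MvPolynomial (Option κ) k)} {G0 : MvPolynomial (Option κ) k}
    (hg : PowerSeries.constantCoeff g = G0)
    (l1 : ∀ m P, lam (m + 1) (G0 * P) = lam m P)
    (l2 : ∀ m v P, lam m (pderiv v P) = ((s : k) + m) * lam (m + 1) (pderiv v G0 * P)) :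
    ∃ Λ : ℕ → ℕ → PowerSeries (MvPolynomial (Option κ) k) →ₗ[k] k,
      (∀ m n B, Λ (m + 1) n (g * B) = Λ m n B) ∧
      (∀ m n B, Λ m n (PowerSeries.derivative _ B) = ((n : k) + 1) * Λ m (n + 1) B +
        ((s : k) + m) * Λ (m + 1) n (PowerSeries.derivative _ g * B)) ∧
      (∀ m n v B, Λ m n (pdv v B) = ((s : k) + m) * Λ (m + 1) n (pdv v g * B)) ∧
      (∀ m n N B, Λ m (n + N) (PowerSeries.X ^ N * B) = Λ m n B) ∧
      (∀ m n N B, n < N → PowerSeries.X ^ N ∣ B → Λ m n B = 0) ∧
      ∀ m B, Λ m 0 B = lam m (PowerSeries.constantCoeff B) := by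
  obtain ⟨h, rfl⟩ : ∃ h, g = PowerSeries.C G0 + h := ⟨g - PowerSeries.C G0, by ring⟩
  have hh : PowerSeries.X ∣ h := by
    rw [map_add, PowerSeries.constantCoeff_C] at hg
    rw [PowerSeries.X_dvd_iff]
    linear_combination hg
  refine ⟨fun m n =>
    { toFun := spg_L s lam h m n (n + 2)
      map_add' := fun B B' => spg_L_add m n (n + 2) B B'
      map_smul' := fun c B => spg_L_smul m n (n + 2) c B }, ?_, ?_, ?_, ?_, ?_, ?_⟩
  · intro m n B
    exact spg_P1 hh l1 (by omega) m B
  · intro m n B
    have h1 := spg_P2 (s := s) (lam := lam) (h := h) (G0 := G0) (n := n) (L := n + 1 + 1) m B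
    have h2 := spg_L_eq (s := s) (lam := lam) hh (show n < n + 1 + 1 + 1 by omega)
      (show n < n + 2 by omega) m (PowerSeries.derivative _ B)
    exact h2.symm.trans h1
  · intro m n v B
    exact spg_P3 hh l2 v (by omega) m B
  · intro m n N B
    show spg_L s lam h m (n + N) (n + N + 2) (PowerSeries.X ^ N * B) = spg_L s lam h m n (n + 2) B
    rw [spg_L_shift]
    exact spg_L_eq hh (by omega) (by omega) m B
  · intro m n N B hN hB
    exact spg_L_dvd m n (n + 2) N hN B hB
  · intro m B
    show spg_L s lam h m 0 (0 + 2) B = _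
    rw [spg_L_eq hh (show 0 < 0 + 2 by omega) (show 0 < 1 by omega), spg_L, Finset.sum_range_one,
      spg_c0, one_mul, spg_t, pow_zero, _root_.mul_one, add_zero,
      PowerSeries.coeff_zero_eq_constantCoeff_apply]

/-- chain rule for polynomials -/
theorem spg_chain {B : Type} [CommRing B] [Algebra k B] [Fintype κ] (x : Fin 2 ⊕ κ → B) (D : B → B)
    (hD : ∀ a b, D (a * b) = a * D b + b * D a) (hadd : ∀ a b, D (a + b) = D a + D b)
    (hC : ∀ c : k, D (algebraMap k B c) = 0) (p : MvPolynomial (Fin 2 ⊕ κ) k) :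
    D (aeval x p) = aeval x (pderiv (Sum.inl 0) p) * D (x (Sum.inl 0)) +
      aeval x (pderiv (Sum.inl 1) p) * D (x (Sum.inl 1)) +
      ∑ l, aeval x (pderiv (Sum.inr l) p) * D (x (Sum.inr l)) := by
  classical
  induction p using MvPolynomial.induction_on with
  | C a => simp [hC, algHom_C]
  | add p q hp hq =>
    rw [map_add, hadd, hp, hq]
    simp only [map_add, add_mul, Finset.sum_add_distrib]
    ring
  | mul_X p i hp =>
    rw [map_mul, aeval_X, hD, hp]
    simp only [Derivation.leibniz, smul_eq_mul, map_add, map_mul, aeval_X, add_mul,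
      Finset.sum_add_distrib, mul_assoc, ← Finset.mul_sum]
    rcases i with i | l
    · have h0 : ∀ l : κ, pderiv (Sum.inr l) (X (Sum.inl i) : MvPolynomial (Fin 2 ⊕ κ) k) = 0 :=
        fun l => pderiv_X_of_ne (by simp)
      simp only [h0, map_zero, zero_mul, mul_zero, Finset.sum_const_zero, zero_add]
      fin_cases i <;> simp [pderiv_X] <;> ring
    · have h0 : ∀ i : Fin 2, pderiv (Sum.inl i) (X (Sum.inr l) : MvPolynomial (Fin 2 ⊕ κ) k) = 0 :=
        fun l => pderiv_X_of_ne (by simp)
      have h1 : ∑ l' : κ, aeval x (pderiv (Sum.inr l') (X (Sum.inr l) :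
          MvPolynomial (Fin 2 ⊕ κ) k)) * D (x (Sum.inr l')) = D (x (Sum.inr l)) := by
        rw [Finset.sum_eq_single l]
        · rw [pderiv_X_self, map_one, one_mul]
        · intro l' _ hl
          rw [pderiv_X_of_ne (by simpa using hl.symm), map_zero, zero_mul]
        · intro hl
          exact absurd (Finset.mem_univ l) hl
      simp only [h0, map_zero, zero_mul, mul_zero, zero_add, h1]
      ring

/-- the identity for one coordinate -/
theorem spg_key {M ν : ℕ} (hM : 0 < M) (hν : 0 < ν)
    {g : PowerSeries (MvPolynomial (Option κ) k)}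
    {Λ : ℕ → ℕ → PowerSeries (MvPolynomial (Option κ) k) →ₗ[k] k}
    (q1 : ∀ m n B, Λ (m + 1) n (g * B) = Λ m n B)
    (q2 : ∀ m n B, Λ m n (PowerSeries.derivative _ B) = ((n : k) + 1) * Λ m (n + 1) B +
        ((((ν : ℚ) / M : ℚ) : k) + m) * Λ (m + 1) n (PowerSeries.derivative _ g * B))
    (q3 : ∀ m n v B, Λ m n (pdv v B) = ((((ν : ℚ) / M : ℚ) : k) + m) *
      Λ (m + 1) n (pdv v g * B))
    (q4 : ∀ m n N B, Λ m (n + N) (PowerSeries.X ^ N * B) = Λ m n B)
    (B y : PowerSeries (MvPolynomial (Option κ) k)) (m : ℕ) :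
    Λ m (M * m + ν - 1) (PowerSeries.derivative _ B * pdv none y -
      pdv none B * PowerSeries.derivative _ y) =
    ((((ν : ℚ) / M : ℚ) : k) + m) * Λ (m + 1) (M * (m + 1) + ν - 1)
      ((PowerSeries.derivative _ (PowerSeries.X ^ M * g) * pdv none y -
        pdv none (PowerSeries.X ^ M * g) * PowerSeries.derivative _ y) * B) := by
  obtain ⟨M', rfl⟩ : ∃ M', M = M' + 1 := ⟨M - 1, by omega⟩
  obtain ⟨n, hn⟩ : ∃ n, (M' + 1) * m + ν - 1 = n := ⟨_, rfl⟩
  have hn1 : (((M' + 1) * m + ν : ℕ) : k) = (n : k) + 1 := by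
    have : (M' + 1) * m + ν = n + 1 := by omega
    exact_mod_cast congrArg (Nat.cast (R := k)) this
  have e1 : PowerSeries.derivative _ B * pdv none y - pdv none B * PowerSeries.derivative _ y =
      PowerSeries.derivative _ (B * pdv none y) - pdv none (B * PowerSeries.derivative _ y) := by
    rw [Derivation.leibniz, spg_mul, spg_comm, smul_eq_mul, smul_eq_mul]
    ring
  have hsm : ∀ w : PowerSeries (MvPolynomial (Option κ) k),
      ((M' + 1 : ℕ) : k) • w = ((M' + 1 : ℕ) : PowerSeries (MvPolynomial (Option κ) k)) * w := by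
    intro w
    rw [Algebra.smul_def, map_natCast]
  have e2 : (PowerSeries.derivative _ (PowerSeries.X ^ (M' + 1) * g) * pdv none y -
        pdv none (PowerSeries.X ^ (M' + 1) * g) * PowerSeries.derivative _ y) * B =
      PowerSeries.X ^ M' * (((M' + 1 : ℕ) : k) • (g * (B * pdv none y))) +
      PowerSeries.X ^ (M' + 1) * (PowerSeries.derivative _ g * (B * pdv none y) -
        pdv none g * (B * PowerSeries.derivative _ y)) := by
    rw [Derivation.leibniz, spg_Xmul, Derivation.leibniz_pow, PowerSeries.derivative_X, hsm]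
    simp only [smul_eq_mul, nsmul_eq_mul, Nat.add_sub_cancel, _root_.mul_one]
    push_cast
    ring
  have h3 : (M' + 1) * (m + 1) + ν - 1 = (n + 1) + M' := by
    have : (M' + 1) * (m + 1) = (M' + 1) * m + M' + 1 := by ring
    omega
  have h4 : Λ (m + 1) (n + 1 + M') (PowerSeries.X ^ (M' + 1) * (PowerSeries.derivative _ g *
      (B * pdv none y) - pdv none g * (B * PowerSeries.derivative _ y))) =
      Λ (m + 1) n (PowerSeries.derivative _ g *
      (B * pdv none y) - pdv none g * (B * PowerSeries.derivative _ y)) := by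
    rw [show n + 1 + M' = n + (M' + 1) by ring, q4]
  rw [hn, e1, e2, h3, map_sub, q2, q3, map_add (Λ (m + 1) (n + 1 + M')), q4, h4,
    LinearMap.map_smul, q1, map_sub, smul_eq_mul]
  have h5 : (n : k) + 1 = ((((ν : ℚ) / (M' + 1 : ℕ) : ℚ) : k) + m) * ((M' + 1 : ℕ) : k) := by
    have h6 : ((M' + 1 : ℕ) : k) ≠ 0 := by exact_mod_cast M'.succ_ne_zero
    rw [← hn1]
    push_cast at h6 ⊢
    field_simp
    ring
  rw [h5]
  ring

/-- the coefficient ring is `k[z, η]`, `z = X none`, `η_l = X (some l)` -/
theorem SRI.special_gen [Fintype κ] {F0 : MvPolynomial (Fin 2) k}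
    {A1 : κ → MvPolynomial (Fin 2) k} {I : Ideal (MvPolynomial (Fin 2) k)}
    {x : Fin 2 → PowerSeries (MvPolynomial (Option κ) k)} {M ν : ℕ} (hM : 0 < M) (hν : 0 < ν)
    (hx : ∀ i (l : κ), pdv (some l) (x i) = 0) {j : PowerSeries (MvPolynomial (Option κ) k)}
    (hj : PowerSeries.derivative _ (x 0) * pdv none (x 1) -
      pdv none (x 0) * PowerSeries.derivative _ (x 1) = PowerSeries.X ^ (ν - 1) * j)
    {g1 : PowerSeries (MvPolynomial (Option κ) k)} {g2 : κ → PowerSeries (MvPolynomial (Option κ) k)}
    (h1 : aeval x F0 = PowerSeries.X ^ M * g1) (h2 : ∀ l, aeval x (A1 l) = PowerSeries.X ^ M * g2 l)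
    {G0 : MvPolynomial (Option κ) k} (hG : G0 = PowerSeries.constantCoeff g1 +
      ∑ l, X (some l) * PowerSeries.constantCoeff (g2 l))
    (hI : ∀ A ∈ I, PowerSeries.X ^ M ∣ (aeval x A : PowerSeries (MvPolynomial (Option κ) k)))
    (lam : ℕ → MvPolynomial (Option κ) k →ₗ[k] k)
    (l1 : ∀ m P, lam (m + 1) (G0 * P) = lam m P)
    (l2 : ∀ m v P, lam m (pderiv v P) =
      ((((ν : ℚ) / M : ℚ) : k) + m) * lam (m + 1) (pderiv v G0 * P))
    (l3 : lam 0 (PowerSeries.constantCoeff j) ≠ 0) (y0 : κ → k) :
    SRI k (rename Sum.inl F0 + ∑ l, (X (Sum.inr l) - C (y0 l)) * rename Sum.inl (A1 l) :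
        MvPolynomial (Fin 2 ⊕ κ) k)
      (I.map (rename Sum.inl : MvPolynomial (Fin 2) k →ₐ[k] MvPolynomial (Fin 2 ⊕ κ) k))
      ((ν : ℚ) / M) := by
  classical
  obtain ⟨Λ, q1, q2, q3, q4, q5, q6⟩ := spg_forms (s := (ν : ℚ) / M) (lam := lam)
    (g := g1 + ∑ l, PowerSeries.C (X (some l)) * g2 l) (G0 := G0) (by
      rw [hG, map_add, map_sum]
      congr 1
      refine Finset.sum_congr rfl fun l _ => ?_
      rw [map_mul, PowerSeries.constantCoeff_C]) l1 l2
  obtain ⟨g, hg⟩ : ∃ g, g = g1 + ∑ l, PowerSeries.C (X (some l)) * g2 l := ⟨_, rfl⟩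
  rw [← hg] at q1 q2 q3
  -- the chart
  obtain ⟨xi, hxi⟩ : ∃ xi : Fin 2 ⊕ κ → PowerSeries (MvPolynomial (Option κ) k),
    xi = Sum.elim x (fun l => PowerSeries.C (C (y0 l) + X (some l))) := ⟨_, rfl⟩
  have hxl : ∀ i, xi (Sum.inl i) = x i := fun i => by rw [hxi]; rfl
  have hxr : ∀ l, xi (Sum.inr l) = PowerSeries.C (C (y0 l) + X (some l)) := fun l => by
    rw [hxi]; rfl
  have hren : ∀ p : MvPolynomial (Fin 2) k, aeval xi (rename Sum.inl p) = aeval x p := by
    intro p
    rw [aeval_rename]
    congr 1
    exact congrArg aeval (funext hxl)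
  obtain ⟨f, hf⟩ : ∃ f, f = (rename Sum.inl F0 + ∑ l, (X (Sum.inr l) - C (y0 l)) *
    rename Sum.inl (A1 l) : MvPolynomial (Fin 2 ⊕ κ) k) := ⟨_, rfl⟩
  have hfx : aeval xi f = PowerSeries.X ^ M * g := by
    rw [hf, map_add, map_sum, hren, h1, hg, mul_add, Finset.mul_sum]
    congr 1
    refine Finset.sum_congr rfl fun l _ => ?_
    rw [map_mul, hren, h2, map_sub, aeval_X, hxr, algHom_C, PowerSeries.algebraMap_apply, map_add,
      MvPolynomial.algebraMap_eq]
    ring
  rw [← hf]
  obtain ⟨J, hJ⟩ : ∃ J, J = PowerSeries.X ^ (ν - 1) * j := ⟨_, rfl⟩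
  rw [← hJ] at hj
  have hC1 : ∀ c : k, PowerSeries.derivative (MvPolynomial (Option κ) k)
      (algebraMap k (PowerSeries (MvPolynomial (Option κ) k)) c) = 0 := fun c => by
    rw [PowerSeries.algebraMap_apply, PowerSeries.derivative_C]
  have ch1 := spg_chain xi (PowerSeries.derivative (MvPolynomial (Option κ) k)) (fun a b => by
      rw [Derivation.leibniz, smul_eq_mul, smul_eq_mul]) (fun a b => map_add _ a b) hC1
  have ch2 := fun v => spg_chain xi (pdv v) (spg_mul v) (spg_add v) (spg_alg v)
  have dr1 : ∀ l, PowerSeries.derivative _ (xi (Sum.inr l)) = 0 := fun l => by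
    rw [hxr, PowerSeries.derivative_C]
  have dr2 : ∀ l, pdv none (xi (Sum.inr l)) = 0 := fun l => by
    rw [hxr, spg_C, map_add, pderiv_C, pderiv_X_of_ne (by simp), add_zero, map_zero]
  have dr3 : ∀ l l', pdv (some l) (xi (Sum.inr l')) = if l' = l then 1 else 0 := fun l l' => by
    rw [hxr, spg_C, map_add, pderiv_C, zero_add]
    split_ifs with h
    · rw [h, pderiv_X_self, map_one]
    · rw [pderiv_X_of_ne (by simpa using h), map_zero]
  simp only [dr1, mul_zero, Finset.sum_const_zero, add_zero, hxl] at ch1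
  have ch3 : ∀ p : MvPolynomial (Fin 2 ⊕ κ) k, pdv none (aeval xi p) = aeval xi (pderiv (Sum.inl 0) p) * pdv none (x 0) +
      aeval xi (pderiv (Sum.inl 1) p) * pdv none (x 1) := by
    intro p
    have := ch2 none p
    simp only [dr2, mul_zero, Finset.sum_const_zero, add_zero, hxl] at this
    exact this
  have ch4 : ∀ l (p : MvPolynomial (Fin 2 ⊕ κ) k), pdv (some l) (aeval xi p) =
      aeval xi (pderiv (Sum.inr l) p) := by
    intro l p
    have := ch2 (some l) p
    rw [this, hxl, hxl, hx, hx, mul_zero, mul_zero, zero_add, zero_add,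
      Finset.sum_eq_single l]
    · rw [dr3, if_pos rfl, _root_.mul_one]
    · intro l' _ hl
      rw [dr3, if_neg hl, mul_zero]
    · intro hl
      exact absurd (Finset.mem_univ l) hl
  have hJl : ∀ l : κ, pdv (some l) J = 0 := by
    intro l
    rw [← hj, spg_sub, spg_mul, spg_mul, ← spg_comm, ← spg_comm, spg_comm2 (some l) none,
      spg_comm2 (some l) none, hx, hx]
    have h0 : pdv none (0 : PowerSeries (MvPolynomial (Option κ) k)) = 0 := (spgD none).map_zero
    rw [h0, map_zero]
    ring
  -- the module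
  let V := MvPolynomial (Fin 2 ⊕ κ) k →ₗ[k] k
  let ρ : MvPolynomial (Fin 2 ⊕ κ) k →ₐ[k] Module.End k V :=
    AlgHom.ofLinearMap
      { toFun := fun p =>
          { toFun := fun v => v ∘ₗ LinearMap.mulLeft k p
            map_add' := fun v w => rfl
            map_smul' := fun c v => rfl }
        map_add' := fun p q => LinearMap.ext fun v => LinearMap.ext fun A => by
          show v ((p + q) * A) = v (p * A) + v (q * A)
          rw [add_mul, map_add]
        map_smul' := fun c p => LinearMap.ext fun v => LinearMap.ext fun A => by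
          show v ((c • p) * A) = c • v (p * A)
          rw [smul_mul_assoc, map_smul] }
      (LinearMap.ext fun v => LinearMap.ext fun A => by
        show v (1 * A) = v A
        rw [one_mul])
      (fun p q => LinearMap.ext fun v => LinearMap.ext fun A => by
        show v ((p * q) * A) = v (q * (p * A))
        congr 1
        ring)
  let D : Fin 2 ⊕ κ → Module.End k V := fun i =>
    { toFun := fun v => -(v ∘ₗ (pderiv i : Derivation k _ _).toLinearMap)
      map_add' := fun v w => LinearMap.ext fun A => by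
        show -(v (pderiv i A) + w (pderiv i A)) = -v (pderiv i A) + -w (pderiv i A)
        ring
      map_smul' := fun c v => LinearMap.ext fun A => by
        show -(c • v (pderiv i A)) = c • -v (pderiv i A)
        rw [smul_neg] }
  let e : ℕ → V := fun m =>
    Λ m (M * m + ν - 1) ∘ₗ (LinearMap.mulRight k J) ∘ₗ
      (aeval xi : MvPolynomial (Fin 2 ⊕ κ) k →ₐ[k] _).toLinearMap
  have he : ∀ m A, e m A = Λ m (M * m + ν - 1) (aeval xi A * J) := fun m A => rfl
  have hidx : ∀ m, M * (m + 1) + ν - 1 = (M * m + ν - 1) + M := by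
    intro m
    rw [mul_add, _root_.mul_one]; omega
  have hmul : ∀ m A, e (m + 1) (f * A) = e m A := by
    intro m A
    rw [he, he, map_mul (aeval xi), hfx, hidx, mul_assoc, mul_assoc, q4, q1]
  have hder : ∀ i m A, e m (pderiv i A) = ((((ν : ℚ) / M : ℚ) : k) + m) *
      e (m + 1) (pderiv i f * A) := by
    intro i m A
    rw [he, he]
    rcases i with i | l
    · have c1 := ch1 f
      have c2 := ch3 f
      rw [hfx] at c1 c2
      have d1 := ch1 A
      have d2 := ch3 A
      fin_cases i
      · have h3 := spg_key hM hν q1 q2 q3 q4 (aeval xi A) (x 1) m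
        have h4 : PowerSeries.derivative _ (aeval xi A) * pdv none (x 1) -
            pdv none (aeval xi A) * PowerSeries.derivative _ (x 1) =
            aeval xi (pderiv (Sum.inl 0) A) * J := by
          rw [d1, d2, ← hj]; ring
        have h5 : (PowerSeries.derivative _ (PowerSeries.X ^ M * g) * pdv none (x 1) -
            pdv none (PowerSeries.X ^ M * g) * PowerSeries.derivative _ (x 1)) * aeval xi A =
            aeval xi (pderiv (Sum.inl 0) f * A) * J := by
          rw [c1, c2, ← hj, map_mul]; ring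
        rw [h4, h5] at h3
        exact h3
      · have h3 := spg_key hM hν q1 q2 q3 q4 (aeval xi A) (x 0) m
        have h4 : PowerSeries.derivative _ (aeval xi A) * pdv none (x 0) -
            pdv none (aeval xi A) * PowerSeries.derivative _ (x 0) =
            -(aeval xi (pderiv (Sum.inl 1) A) * J) := by
          rw [d1, d2, ← hj]; ring
        have h5 : (PowerSeries.derivative _ (PowerSeries.X ^ M * g) * pdv none (x 0) -
            pdv none (PowerSeries.X ^ M * g) * PowerSeries.derivative _ (x 0)) * aeval xi A =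
            -(aeval xi (pderiv (Sum.inl 1) f * A) * J) := by
          rw [c1, c2, ← hj, map_mul]; ring
        rw [h4, h5, map_neg, map_neg] at h3
        have h6 : Λ m (M * m + ν - 1) (aeval xi (pderiv (Sum.inl 1) A) * J) =
            ((((ν : ℚ) / M : ℚ) : k) + m) * Λ (m + 1) (M * (m + 1) + ν - 1)
              (aeval xi (pderiv (Sum.inl 1) f * A) * J) := by
          linear_combination -h3
        exact h6
    · have h3 : aeval xi (pderiv (Sum.inr l) A) * J = pdv (some l) (aeval xi A * J) := by
        rw [spg_mul, hJl, ch4]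
        ring
      have h4 : aeval xi (pderiv (Sum.inr l) f * A) * J =
          PowerSeries.X ^ M * (pdv (some l) g * (aeval xi A * J)) := by
        rw [map_mul, ← ch4, hfx, spg_Xmul]
        ring
      rw [h3, h4, q3, hidx, q4]
  refine ⟨{ V := V
            ρ := ρ
            D := D
            leib := fun i p v => LinearMap.ext fun A => ?_
            e := e
            mul := fun m => LinearMap.ext fun A => ?_
            der := fun i m => LinearMap.ext fun A => ?_
            ne := ?_ }, ?_⟩
  · show -v (p * pderiv i A) = v (pderiv i p * A) + -v (pderiv i (p * A))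
    rw [Derivation.leibniz, map_add, smul_eq_mul, smul_eq_mul, mul_comm A]
    ring
  · exact hmul m A
  · show -e m (pderiv i A) = (-((((ν : ℚ) / M : ℚ) : k) + m)) * e (m + 1) (pderiv i f * A)
    rw [hder]
    ring
  · intro h0
    apply l3
    have h3 : e 0 1 = 0 := by rw [h0]; rfl
    rw [he, map_one, one_mul, hJ, show M * 0 + ν - 1 = 0 + (ν - 1) by simp, q4, q6] at h3
    exact h3
  · intro m A hA
    refine LinearMap.ext fun B => ?_
    show e m (A * B) = 0
    have hA1 : PowerSeries.X ^ (M * (m + 1)) ∣ aeval xi A := by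
      have hle : I.map (rename Sum.inl : MvPolynomial (Fin 2) k →ₐ[k]
          MvPolynomial (Fin 2 ⊕ κ) k) ≤ (Ideal.span {(PowerSeries.X ^ M :
            PowerSeries (MvPolynomial (Option κ) k))}).comap (aeval xi) := by
        rw [Ideal.map_le_iff_le_comap]
        intro p hp
        rw [Ideal.mem_comap, Ideal.mem_comap, Ideal.mem_span_singleton]
        have := hI p hp
        rw [← hren] at this
        exact this
      have h3 := (Ideal.pow_right_mono hle (m + 1)).trans (Ideal.le_comap_pow (aeval xi) (m + 1)) hA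
      rw [Ideal.mem_comap, Ideal.span_singleton_pow, Ideal.mem_span_singleton, ← pow_mul] at h3
      exact h3
    rw [he]
    apply q5 m _ (M * (m + 1) + (ν - 1))
    · have : M * (m + 1) = M * m + M := by ring
      omega
    · rw [pow_add, hJ, map_mul]
      have h4 : aeval xi A * aeval xi B * (PowerSeries.X ^ (ν - 1) * j) =
          (aeval xi A * PowerSeries.X ^ (ν - 1)) * (aeval xi B * j) := by ring
      rw [h4]
      exact (mul_dvd_mul_right hA1 _).mul_right _

end SPG

end Pool.Agent.H75.Mono
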