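import Pool.Agent.H75.Idl.SPQ
import Pool.Agent.H75.Idl.SPG
import Pool.Agent.H75.Idl.LFV

/-! # LIY, module QUA: two of the coefficients are local coordinates -/

set_option autoImplicit false

namespace Pool.Agent.H75.Mono

open MvPolynomial Pool.Agent.H39.MonoR

section QUA

variable {k : Type} [Field k]

private theorem qua_cc {x : Fin 2 → PS k} {P : Fin 2 → k}
    (hx : ∀ i, MvPowerSeries.constantCoeff (x i) = P i) (A : MvPolynomial (Fin 2) k) :
    MvPowerSeries.constantCoeff (aeval x A) = eval P A := by
  induction A using MvPolynomial.induction_on with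
  | C a =>
    rw [aeval_C, eval_C]
    exact MvPowerSeries.constantCoeff_C a
  | add p q hp hq => rw [map_add, map_add, map_add, hp, hq]
  | mul_X p j hp => rw [map_mul, map_mul, map_mul, hp, aeval_X, eval_X, hx]

/-- Taylor expansion to the second order -/
private theorem qua_taylor {R : Type} [CommRing R] [Algebra k R] (I : Ideal R) (x δ : Fin 2 → R)
    (hδ : ∀ i, δ i ∈ I) (A : MvPolynomial (Fin 2) k) :
    aeval (fun i => x i + δ i) A - aeval x A - ∑ i, aeval x (pderiv i A) * δ i ∈ I ^ 2 := by
  induction A using MvPolynomial.induction_on with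
  | C a => simp
  | add p q hp hq =>
    have e : aeval (fun i => x i + δ i) (p + q) - aeval x (p + q) -
        ∑ i, aeval x (pderiv i (p + q)) * δ i =
        (aeval (fun i => x i + δ i) p - aeval x p - ∑ i, aeval x (pderiv i p) * δ i) +
        (aeval (fun i => x i + δ i) q - aeval x q - ∑ i, aeval x (pderiv i q) * δ i) := by
      simp only [map_add, add_mul, Finset.sum_add_distrib]
      ring
    rw [e]
    exact Ideal.add_mem _ hp hq
  | mul_X p j hp =>
    have e1 : ∑ i, aeval x (pderiv i (p * X j)) * δ i =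
        (∑ i, aeval x (pderiv i p) * δ i) * x j + aeval x p * δ j := by
      simp only [Derivation.leibniz, smul_eq_mul, map_add, map_mul, aeval_X, add_mul,
        Finset.sum_add_distrib, pderiv_X, Finset.sum_mul]
      rw [add_comm]
      congr 1
      · refine Finset.sum_congr rfl fun i _ => by ring
      · rw [Finset.sum_eq_single j]
        · simp
        · intro b _ hb
          simp [Pi.single_eq_of_ne hb.symm]
        · intro h
          exact absurd (Finset.mem_univ _) h
    have e : aeval (fun i => x i + δ i) (p * X j) - aeval x (p * X j) -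
        ∑ i, aeval x (pderiv i (p * X j)) * δ i =
        (aeval (fun i => x i + δ i) p - aeval x p - ∑ i, aeval x (pderiv i p) * δ i) *
          (x j + δ j) + (∑ i, aeval x (pderiv i p) * δ i) * δ j := by
      rw [e1, map_mul, map_mul, aeval_X, aeval_X]
      ring
    rw [e]
    refine Ideal.add_mem _ (Ideal.mul_mem_right _ _ hp) ?_
    rw [pow_two]
    refine Ideal.mul_mem_mul ?_ (hδ j)
    exact Ideal.sum_mem _ fun i _ => Ideal.mul_mem_left _ _ (hδ i)

/-- the maximal ideal -/
private noncomputable def quaI (k : Type) [Field k] : Ideal (PS k) :=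
  Ideal.span (Set.range (MvPowerSeries.X : Fin 2 → PS k))

private theorem quaI_cc {f : PS k} (hf : f ∈ quaI k) : MvPowerSeries.constantCoeff f = 0 := by
  have : quaI k ≤ RingHom.ker (MvPowerSeries.constantCoeff : PS k →+* k) := by
    refine Ideal.span_le.2 ?_
    rintro _ ⟨i, rfl⟩
    exact MvPowerSeries.constantCoeff_X i
  exact this hf

private theorem quaI_of_cc {f : PS k} (hf : MvPowerSeries.constantCoeff f = 0) : f ∈ quaI k := by
  classical
  set g : PS k := fun m => if m 0 = 0 then 0 else MvPowerSeries.coeff m f with hg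
  have hg' : ∀ m, MvPowerSeries.coeff m g = if m 0 = 0 then 0 else MvPowerSeries.coeff m f :=
    fun m => rfl
  have h1 : (MvPowerSeries.X 0 : PS k) ∣ g := by
    rw [MvPowerSeries.X_dvd_iff]
    intro m hm
    rw [hg', if_pos hm]
  have h2 : (MvPowerSeries.X 1 : PS k) ∣ f - g := by
    rw [MvPowerSeries.X_dvd_iff]
    intro m hm
    rw [map_sub, hg']
    by_cases h : m 0 = 0
    · rw [if_pos h, sub_zero]
      have e : m = 0 := by
        ext i
        fin_cases i
        · exact h
        · exact hm
      rw [e]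
      exact hf
    · rw [if_neg h, sub_self]
  have e : f = g + (f - g) := by ring
  rw [e]
  refine Ideal.add_mem _ ?_ ?_
  · exact Ideal.mem_of_dvd _ h1 (Ideal.subset_span ⟨0, rfl⟩)
  · exact Ideal.mem_of_dvd _ h2 (Ideal.subset_span ⟨1, rfl⟩)

private theorem quaI_sub_cc (f : PS k) :
    f - MvPowerSeries.C (MvPowerSeries.constantCoeff f) ∈ quaI k := by
  apply quaI_of_cc
  rw [map_sub, MvPowerSeries.constantCoeff_C, sub_self]

/-- congruences -/
private theorem qua_congr {R : Type} [CommRing R] [Algebra k R] (I : Ideal R) {x y : Fin 2 → R}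
    (h : ∀ i, x i - y i ∈ I) (A : MvPolynomial (Fin 2) k) : aeval x A - aeval y A ∈ I := by
  induction A using MvPolynomial.induction_on with
  | C a => simp
  | add p q hp hq =>
    rw [map_add, map_add, add_sub_add_comm]
    exact Ideal.add_mem _ hp hq
  | mul_X p j hp =>
    rw [map_mul, map_mul, aeval_X, aeval_X]
    have e : aeval x p * x j - aeval y p * y j = (aeval x p - aeval y p) * x j +
        aeval y p * (x j - y j) := by ring
    rw [e]
    exact Ideal.add_mem _ (Ideal.mul_mem_right _ _ hp) (Ideal.mul_mem_left _ _ (h j))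

/-- the iteration -/
private noncomputable def quaS (A : Fin 2 → MvPolynomial (Fin 2) k) (P : Fin 2 → k)
    (B : Fin 2 → Fin 2 → k) : ℕ → Fin 2 → PS k
  | 0 => fun i => MvPowerSeries.C (P i)
  | n + 1 => fun i => quaS A P B n i +
      -∑ l, MvPowerSeries.C (B i l) * (aeval (quaS A P B n) (A l) - MvPowerSeries.X l)

private theorem quaS_spec {A : Fin 2 → MvPolynomial (Fin 2) k} {P : Fin 2 → k}
    {B : Fin 2 → Fin 2 → k} (hP : ∀ l, eval P (A l) = 0)
    (hB : ∀ l l', ∑ i, eval P (pderiv i (A l)) * B i l' = if l = l' then 1 else 0) (n : ℕ) :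
    (∀ i, MvPowerSeries.constantCoeff (quaS A P B n i) = P i) ∧
    (∀ l, aeval (quaS A P B n) (A l) - MvPowerSeries.X l ∈ quaI k ^ (n + 1)) := by
  induction n with
  | zero =>
    have h0 : ∀ i, MvPowerSeries.constantCoeff (quaS A P B 0 i) = P i :=
      fun i => MvPowerSeries.constantCoeff_C _
    refine ⟨h0, fun l => ?_⟩
    rw [zero_add, pow_one]
    refine Ideal.sub_mem _ ?_ (Ideal.subset_span ⟨l, rfl⟩)
    have h1 := quaI_sub_cc (aeval (quaS A P B 0) (A l))
    rw [qua_cc h0, hP, map_zero, sub_zero] at h1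
    exact h1
  | succ n ih =>
    obtain ⟨h0, h1⟩ := ih
    set x := quaS A P B n with hx
    set δ : Fin 2 → PS k := fun i =>
      -∑ l, MvPowerSeries.C (B i l) * (aeval x (A l) - MvPowerSeries.X l) with hδ
    have hs : quaS A P B (n + 1) = fun i => x i + δ i := rfl
    have hδm : ∀ i, δ i ∈ quaI k ^ (n + 1) := fun i =>
      neg_mem (Ideal.sum_mem _ fun l _ => Ideal.mul_mem_left _ _ (h1 l))
    refine ⟨fun i => ?_, fun l => ?_⟩
    · rw [hs]
      simp only
      rw [map_add, h0, quaI_cc (Ideal.pow_le_self (by omega) (hδm i)), add_zero]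
    · rw [hs]
      have h2 := qua_taylor (quaI k ^ (n + 1)) x δ hδm (A l)
      have h3 : (quaI k ^ (n + 1)) ^ 2 ≤ quaI k ^ (n + 1 + 1) := by
        rw [← pow_mul]
        exact Ideal.pow_le_pow_right (by omega)
      have h4 : ∀ i, aeval x (pderiv i (A l)) * δ i -
          MvPowerSeries.C (eval P (pderiv i (A l))) * δ i ∈ quaI k ^ (n + 1 + 1) := by
        intro i
        rw [← sub_mul, pow_succ']
        refine Ideal.mul_mem_mul ?_ (hδm i)
        have h5 := quaI_sub_cc (aeval x (pderiv i (A l)))
        rwa [qua_cc h0] at h5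
      have h5 : ∑ i, MvPowerSeries.C (eval P (pderiv i (A l))) * δ i =
          -(aeval x (A l) - MvPowerSeries.X l) := by
        have h6 : ∀ i, MvPowerSeries.C (eval P (pderiv i (A l))) * δ i =
            -∑ l', MvPowerSeries.C (eval P (pderiv i (A l)) * B i l') *
              (aeval x (A l') - MvPowerSeries.X l') := by
          intro i
          rw [hδ]
          simp only
          rw [mul_neg, Finset.mul_sum]
          congr 1
          refine Finset.sum_congr rfl fun l' _ => ?_
          rw [map_mul, mul_assoc]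
        rw [Finset.sum_congr rfl fun i _ => h6 i, Finset.sum_neg_distrib, Finset.sum_comm]
        congr 1
        rw [Finset.sum_congr rfl fun l' _ => (Finset.sum_mul _ _ _).symm]
        rw [Finset.sum_congr rfl fun l' _ => by rw [← map_sum, hB l l']]
        rw [Finset.sum_eq_single l]
        · rw [if_pos rfl, map_one, one_mul]
        · intro l' _ hl'
          rw [if_neg (fun h => hl' h.symm), map_zero, zero_mul]
        · intro h
          exact absurd (Finset.mem_univ _) h
      have h7 : aeval (fun i => x i + δ i) (A l) - MvPowerSeries.X l =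
          (aeval (fun i => x i + δ i) (A l) - aeval x (A l) -
            ∑ i, aeval x (pderiv i (A l)) * δ i) +
          ∑ i, (aeval x (pderiv i (A l)) * δ i -
            MvPowerSeries.C (eval P (pderiv i (A l))) * δ i) := by
        rw [Finset.sum_sub_distrib, h5]
        ring
      rw [h7]
      exact Ideal.add_mem _ (h3 h2) (Ideal.sum_mem _ fun i _ => h4 i)

/-- the formal inverse function theorem -/
private theorem qua_inv {A : Fin 2 → MvPolynomial (Fin 2) k} {P : Fin 2 → k}
    {B : Fin 2 → Fin 2 → k} (hP : ∀ l, eval P (A l) = 0)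
    (hB : ∀ l l', ∑ i, eval P (pderiv i (A l)) * B i l' = if l = l' then 1 else 0) :
    ∃ x : Fin 2 → PS k, (∀ i, MvPowerSeries.constantCoeff (x i) = P i) ∧
      ∀ l, aeval x (A l) = MvPowerSeries.X l := by
  have hc : IsAdicComplete (quaI k) (PS k) :=
    (inferInstance : IsAdicComplete (Ideal.span (Set.range (MvPowerSeries.X : Fin 2 → PS k)))
      (MvPowerSeries (Fin 2) k))
  have hstep : ∀ n i, quaS A P B (n + 1) i - quaS A P B n i ∈ quaI k ^ (n + 1) := by
    intro n i
    have e : quaS A P B (n + 1) i - quaS A P B n i =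
        -∑ l, MvPowerSeries.C (B i l) * (aeval (quaS A P B n) (A l) - MvPowerSeries.X l) := by
      show quaS A P B n i + _ - quaS A P B n i = _
      rw [add_sub_cancel_left]
    rw [e]
    exact neg_mem (Ideal.sum_mem _ fun l _ => Ideal.mul_mem_left _ _ ((quaS_spec hP hB n).2 l))
  have hlim : ∀ i, ∃ L : PS k, ∀ n, quaS A P B n i - L ∈ quaI k ^ n := by
    intro i
    have h1 : ∀ {m n : ℕ}, m ≤ n → quaS A P B m i ≡ quaS A P B n i
        [SMOD (quaI k ^ m • ⊤ : Submodule (PS k) (PS k))] := by
      intro m n hmn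
      induction n, hmn using Nat.le_induction with
      | base => rfl
      | succ n hmn ih =>
        refine ih.trans ?_
        rw [SModEq.sub_mem]
        have h2 := hstep n i
        rw [← neg_sub]
        refine neg_mem ?_
        rw [Ideal.smul_eq_mul, Ideal.mul_top]
        exact Ideal.pow_le_pow_right (by omega) h2
    obtain ⟨L, hL⟩ := hc.toIsPrecomplete.prec' (fun n => quaS A P B n i) h1
    refine ⟨L, fun n => ?_⟩
    have h3 := hL n
    rw [SModEq.sub_mem, Ideal.smul_eq_mul, Ideal.mul_top] at h3
    exact h3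
  choose L hL using hlim
  refine ⟨L, fun i => ?_, fun l => ?_⟩
  · have h1 := quaI_cc (by simpa using hL i 1)
    rw [map_sub, (quaS_spec hP hB 1).1 i, sub_eq_zero] at h1
    exact h1.symm
  · rw [← sub_eq_zero]
    refine hc.toIsHausdorff.haus' _ fun n => ?_
    rw [SModEq.zero, Ideal.smul_eq_mul, Ideal.mul_top]
    have h1 := qua_congr (quaI k ^ n) (fun i => hL i n) (A l)
    have h2 := Ideal.pow_le_pow_right (Nat.le_succ n) ((quaS_spec hP hB n).2 l)
    have e : aeval L (A l) - MvPowerSeries.X l =
        (aeval (quaS A P B n) (A l) - MvPowerSeries.X l) -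
          (aeval (quaS A P B n) (A l) - aeval L (A l)) := by ring
    rw [e]
    exact Ideal.sub_mem _ h2 h1

private theorem qua_chain (D : Derivation k (PS k) (PS k))
    (x : Fin 2 → PS k) (A : MvPolynomial (Fin 2) k) :
    D (aeval x A) = aeval x (pderiv 0 A) * D (x 0) + aeval x (pderiv 1 A) * D (x 1) := by
  induction A using MvPolynomial.induction_on with
  | C a => simp
  | add p q hp hq =>
    simp only [map_add, hp, hq]
    ring
  | mul_X p i hp =>
    rw [map_mul, aeval_X, Derivation.leibniz, hp]
    fin_cases i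
    · simp [Derivation.leibniz, pderiv_X]
      ring
    · simp [Derivation.leibniz, pderiv_X]
      ring

private theorem qua_cc_pderiv {σ : Type} (i : σ) (f : MvPowerSeries σ k) :
    MvPowerSeries.constantCoeff (MvPowerSeries.pderiv k i f) =
      MvPowerSeries.coeff (Finsupp.single i 1) f := by
  rw [← MvPowerSeries.coeff_zero_eq_constantCoeff_apply, MvPowerSeries.coeff_pderiv]
  simp

/-- the coefficients of degree 1 of the Taylor expansion -/
private theorem qua_tay (A : MvPolynomial (Fin 2) k) (P : Fin 2 → k) (i : Fin 2) :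
    MvPowerSeries.coeff (Finsupp.single i 1) (tay A P) = eval P (pderiv i A) := by
  have h1 : pderiv i (aeval (fun i => X i + C (P i)) A : MvPolynomial (Fin 2) k) =
      aeval (fun i => X i + C (P i)) (pderiv i A) := by
    induction A using MvPolynomial.induction_on with
    | C a => simp
    | add p q hp hq => rw [map_add, map_add, map_add, map_add, hp, hq]
    | mul_X p j hp =>
      simp only [map_mul, Derivation.leibniz, aeval_X, map_add, hp, pderiv_C, add_zero,
        smul_eq_mul]
      by_cases h : j = i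
      · subst h
        simp
      · rw [pderiv_X_of_ne h]
        simp
  have h2 : ∀ F : MvPolynomial (Fin 2) k,
      constantCoeff (aeval (fun i => X i + C (P i)) F : MvPolynomial (Fin 2) k) = eval P F := by
    intro F
    induction F using MvPolynomial.induction_on with
    | C a => simp
    | add p q hp hq => rw [map_add, map_add, map_add, hp, hq]
    | mul_X p j hp => rw [map_mul, map_mul, map_mul, hp]; simp
  have h3 := h2 (pderiv i A)
  rw [← h1, constantCoeff_eq, coeff_pderiv] at h3
  unfold tay
  rw [MvPolynomial.coeff_coe, ← h3]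
  simp

private theorem qua_tay0 (A : MvPolynomial (Fin 2) k) (P : Fin 2 → k) :
    cf (tay A P) 1 0 = eval P (pderiv 0 A) := by
  rw [← qua_tay]
  unfold cf
  congr 1
  simp [ix]

private theorem qua_tay1 (A : MvPolynomial (Fin 2) k) (P : Fin 2 → k) :
    cf (tay A P) 0 1 = eval P (pderiv 1 A) := by
  rw [← qua_tay]
  unfold cf
  congr 1
  simp [ix]

/-- a power series in the ideal of the variables -/
private theorem qua_split {f : PS k} (hf : MvPowerSeries.constantCoeff f = 0) :
    ∃ g : Fin 2 → PS k, f = ∑ l, g l * MvPowerSeries.X l := by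
  have h1 : f ∈ Ideal.span (Set.range (MvPowerSeries.X : Fin 2 → PS k)) := quaI_of_cc hf
  rw [Ideal.mem_span_range_iff_exists_fun] at h1
  obtain ⟨g, hg⟩ := h1
  exact ⟨g, hg.symm⟩

private theorem qua_ncoeff (f : PS k) {n : Fin 2 ⊕ Fin 2 →₀ ℕ} {l : Fin 2} (h : n (Sum.inr l) ≠ 0) :
    MvPowerSeries.coeff n (MvPowerSeries.rename (Function.Embedding.inl : Fin 2 ↪ Fin 2 ⊕ Fin 2) f) =
      0 := by
  apply MvPowerSeries.coeff_rename_eq_zero
  rintro ⟨m, rfl⟩
  apply h
  apply Finsupp.mapDomain_of_notMem_range
  rintro ⟨a, ha⟩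
  exact Sum.inl_ne_inr ha

private theorem qua_coeff1 (f : PS k) (m : Fin 2) :
    MvPowerSeries.coeff (Finsupp.single (Sum.inl m) 1)
      (MvPowerSeries.rename (Function.Embedding.inl : Fin 2 ↪ Fin 2 ⊕ Fin 2) f) =
      MvPowerSeries.coeff (Finsupp.single m 1) f := by
  rw [← MvPowerSeries.coeff_embDomain_rename (Function.Embedding.inl : Fin 2 ↪ Fin 2 ⊕ Fin 2) f
    (Finsupp.single m 1)]
  congr 1
  rw [Finsupp.embDomain_single]
  rfl

variable [CharZero k] {r : ℕ} {F : Fin (r + 1) → MvPolynomial (Fin 2) k}

theorem sr_two {P : Fin 2 → k} (hP : ∀ e, eval P (F e) = 0) {i i' : Fin r}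
    (h : cf (tav F P i.succ) 1 0 * cf (tav F P i'.succ) 0 1 -
      cf (tav F P i.succ) 0 1 * cf (tav F P i'.succ) 1 0 ≠ 0) : SR k (tot F) 2 := by
  classical
  have e0 : tav F P i.succ = tay (F i.succ) P := rfl
  have e1 : tav F P i'.succ = tay (F i'.succ) P := rfl
  rw [e0, e1, qua_tay0, qua_tay0, qua_tay1, qua_tay1] at h
  have hii : i ≠ i' := by
    rintro rfl
    apply h
    ring
  set iv : Fin 2 → Fin r := ![i, i'] with hiv
  have hinj : Function.Injective iv := by
    intro a b hab
    fin_cases a <;> fin_cases b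
    · rfl
    · exact absurd hab hii
    · exact absurd hab (Ne.symm hii)
    · rfl
  set A : Fin 2 → MvPolynomial (Fin 2) k := fun l => F (iv l).succ with hA
  set J : Matrix (Fin 2) (Fin 2) k := Matrix.of fun l m => eval P (pderiv m (A l)) with hJ
  have hdet : J.det ≠ 0 := by
    rw [Matrix.det_fin_two]
    exact h
  have hB : ∀ l l', ∑ m, eval P (pderiv m (A l)) * (J⁻¹) m l' = if l = l' then 1 else 0 := by
    intro l l'
    have h1 := Matrix.mul_nonsing_inv J (isUnit_iff_ne_zero.2 hdet)
    have h2 := congrFun (congrFun h1 l) l'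
    rw [Matrix.mul_apply, Matrix.one_apply] at h2
    exact h2
  obtain ⟨ξ, hξ, hξA⟩ := qua_inv (A := A) (P := P) (B := fun m l => J⁻¹ m l)
    (fun l => hP _) hB
  set ι := MvPowerSeries.rename (R := k) (Function.Embedding.inl : Fin 2 ↪ Fin 2 ⊕ Fin 2) with hι
  have hιX : ∀ l : Fin 2, ι (MvPowerSeries.X l) = MvPowerSeries.X (Sum.inl l) := fun l =>
    MvPowerSeries.rename_X _ l
  have hx : ∀ B : MvPolynomial (Fin 2) k, aeval (fun i => ι (ξ i)) B = ι (aeval ξ B) := fun B =>
    (MvPolynomial.comp_aeval_apply (f := ξ) ι B).symm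
  have hd : ∀ (f : PS k) (l : Fin 2), MvPowerSeries.pderiv k (Sum.inr l) (ι f) = 0 := by
    intro f l
    ext n
    rw [MvPowerSeries.coeff_pderiv, map_zero, hι, qua_ncoeff f (l := l), zero_mul]
    simp
  set y : Fin (r + 1) → k := fun e => if e = 0 then 1 else 0 with hy
  have hF0 : eval P (cmF y F) = 0 := by
    unfold cmF
    rw [map_sum]
    refine Finset.sum_eq_zero fun e _ => ?_
    rw [map_mul, hP, mul_zero]
  obtain ⟨g, hg⟩ := qua_split (f := aeval ξ (cmF y F)) (by rw [qua_cc hξ, hF0])
  have hq := SRI.quad (F0 := cmF y F) (A1 := A) (I := idl F) (x := fun i => ι (ξ i))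
    (a := fun l => ι (g l)) (fun i l => hd _ l) (fun i l => hd _ l)
    (fun l => by rw [hx, hξA, hιX]) ?_ ?_ ?_ (fun l => y (iv l).succ)
  · exact SR.of_cm_vars (y := y) (by simp [hy]) hinj hq
  · rw [hx, hg, map_sum]
    refine Finset.sum_congr rfl fun l _ => ?_
    rw [map_mul, hιX]
  · intro B hB' n h0 h1
    rw [hx]
    by_cases hn : ∃ l, n (Sum.inr l) ≠ 0
    · obtain ⟨l, hl⟩ := hn
      exact qua_ncoeff _ hl
    · push Not at hn
      have en : n = 0 := by
        ext v
        rcases v with v | v
        · fin_cases v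
          · exact h0
          · exact h1
        · exact hn v
      rw [en, MvPowerSeries.coeff_zero_eq_constantCoeff_apply, hι,
        MvPowerSeries.constantCoeff_rename, qua_cc hξ]
      have h2 : idl F ≤ RingHom.ker (eval P : MvPolynomial (Fin 2) k →+* k) := by
        unfold idl
        refine Ideal.span_le.2 ?_
        rintro _ ⟨e, rfl⟩
        exact hP e
      exact h2 hB'
  · have hc : ∀ m i : Fin 2, MvPowerSeries.constantCoeff
        (MvPowerSeries.pderiv k (Sum.inl m) (ι (ξ i))) =
          MvPowerSeries.coeff (Finsupp.single m 1) (ξ i) := by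
      intro m i
      rw [qua_cc_pderiv, hι, qua_coeff1]
    have hrel : ∀ l m : Fin 2, (if l = m then (1 : k) else 0) =
        J l 0 * MvPowerSeries.coeff (Finsupp.single m 1) (ξ 0) +
          J l 1 * MvPowerSeries.coeff (Finsupp.single m 1) (ξ 1) := by
      intro l m
      have h1 := congrArg MvPowerSeries.constantCoeff
        (qua_chain (MvPowerSeries.pderiv k m) ξ (A l))
      rw [hξA, map_add, map_mul, map_mul, qua_cc hξ, qua_cc hξ] at h1
      simp only [qua_cc_pderiv] at h1
      rw [MvPowerSeries.coeff_X] at h1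
      refine Eq.trans ?_ h1
      by_cases hlm : l = m
      · subst hlm
        rw [if_pos rfl, if_pos rfl]
      · rw [if_neg hlm, if_neg]
        intro h2
        rcases (Finsupp.single_eq_single_iff _ _ _ _).1 h2 with h3 | h3
        · exact hlm h3.1.symm
        · exact one_ne_zero h3.1
    simp only [map_sub, map_mul, hc]
    intro h0
    have r00 := hrel 0 0
    have r01 := hrel 0 1
    have r10 := hrel 1 0
    have r11 := hrel 1 1
    rw [if_pos rfl] at r00 r11
    rw [if_neg (by decide)] at r01 r10
    set d00 := MvPowerSeries.coeff (Finsupp.single (0 : Fin 2) 1) (ξ 0)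
    set d01 := MvPowerSeries.coeff (Finsupp.single (0 : Fin 2) 1) (ξ 1)
    set d10 := MvPowerSeries.coeff (Finsupp.single (1 : Fin 2) 1) (ξ 0)
    set d11 := MvPowerSeries.coeff (Finsupp.single (1 : Fin 2) 1) (ξ 1)
    have e : (1 : k) = 0 := by
      linear_combination r00 + (J 0 0 * d00 + J 0 1 * d01) * r11 -
        (J 0 0 * d10 + J 0 1 * d11) * r10 + (J 0 0 * J 1 1 - J 0 1 * J 1 0) * h0
    exact one_ne_zero e

end QUA

end Pool.Agent.H75.Mono
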