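import Pool.Agent.H75.Idl.BEV
import Pool.Agent.H75.Idl.LAV
import Pool.Agent.H75.Idl.LEV
import Pool.Agent.H75.Idl.LTV
import Pool.Agent.H75.Idl.LMV
import Pool.Agent.H75.Idl.LXV
import Pool.Agent.H75.Idl.LMZ
import Pool.Agent.H75.Idl.LSV
import Pool.Agent.H75.Idl.LNV
import Pool.Agent.H75.Idl.LCV
import Pool.Agent.H75.Idl.LS2
import Pool.Agent.H75.Idl.LN1
import Pool.Agent.H75.Idl.QUA

/-! # LIY: rationality at a point (assembly) -/

set_option autoImplicit false

namespace Pool.Agent.H75.Mono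

open MvPolynomial Pool.Agent.H39.MonoR

section FSV

variable {k : Type} [Field k] {r : ℕ}

theorem cf_swv (G : Fin (r + 1) → PS k) (e : Fin (r + 1)) (i j : ℕ) :
    cf (swv G e) i j = cf (G e) j i := cf_swp (G e) i j

/-- the edges of weights at least `(p, q)` do not change -/
theorem edv_shv {G : Fin (r + 1) → PS k} {a b p q E p1 q1 : ℕ} {h : PowerSeries k}
    (hE : Edv G a b p q E) (hp1 : 0 < p1) (h1 : q * p1 ≤ q1 * p)
    (hh : ∀ i, PowerSeries.coeff i h ≠ 0 → q1 < i * p1) :
    Edv (shv' h G) a b p q E ∧ edv (shv' h G) a b p q E = edv G a b p q E := by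
  have hp := hE.p0
  have hh' : ∀ i, PowerSeries.coeff i h ≠ 0 → q < i * p := by
    intro i hi
    have h2 := hh i hi
    have h3 : q * p1 < (i * p) * p1 := by
      calc q * p1 ≤ q1 * p := h1
        _ < (i * p1) * p := Nat.mul_lt_mul_of_pos_right h2 hp
        _ = (i * p) * p1 := by ring
    exact Nat.lt_of_mul_lt_mul_right h3
  obtain ⟨w1, w2⟩ := shv_wt hp hh' hE.wt
  have heb := hE.eb
  have hbot : (a + q * E) * p + (b - p * E) * q = a * p + b * q := by
    obtain ⟨c, hc⟩ : ∃ c, b = p * E + c := ⟨b - p * E, by omega⟩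
    have : b - p * E = c := by omega
    rw [this, hc]
    ring
  refine ⟨⟨hE.p0, hE.q0, hE.cop, hE.e0, hE.eb, ?_, ?_, w1, ?_⟩, ?_⟩
  · obtain ⟨e, he⟩ := hE.top
    exact ⟨e, by rwa [w2 e _ _ rfl]⟩
  · obtain ⟨e, he⟩ := hE.bot
    exact ⟨e, by rwa [w2 e _ _ hbot]⟩
  · intro e i j hij h3
    rw [w2 e i j h3] at hij
    exact hE.lin e i j hij h3
  · funext e
    unfold edv edp
    refine Finset.sum_congr rfl fun n hn => ?_
    have hn' : n ≤ E := by
      have := Finset.mem_range.1 hn
      omega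
    have hpn : p * n ≤ p * E := Nat.mul_le_mul_left _ hn'
    rw [w2 e _ _]
    obtain ⟨c, hc⟩ : ∃ c, b = p * n + c := ⟨b - p * n, by omega⟩
    have : b - p * n = c := by omega
    rw [this, hc]
    ring

variable [Algebra k ℂ] [IsAlgClosed k] {F : Fin (r + 1) → MvPolynomial (Fin 2) k}
  {P : Fin 2 → k} {G : Fin (r + 1) → PS k}

/-- the children of an edge at the first step -/
theorem kids_rat (hT : SR k (tot F) 1) (hC : Chv F P 0 1 G) {a b p q E r' s : ℕ}
    (hE : Edv G a b p q E) (hrs : p * s = q * r' + 1) (hOk : Okr (tot F) (-((p + q : ℕ) : ℤ), a * p + b * q)) :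
    Rto (tot F) (fun d (t : Test k) => ∑ μ ∈ rtv (edv G a b p q E),
      bev (a * p + b * q) (p + q) (chv 0 p q (a * p + b * q) r' s μ G) 1 0 0
        (mlt (edv G a b p q E) μ) d t) := by
  have := charZero k
  have hp := hE.p0
  have heb := hE.eb
  have hb : 1 ≤ b := by
    have : 0 < p * E := Nat.mul_pos hp hE.e0
    omega
  have e1 : 1 * p + q = p + q := by ring
  have e2 : (0 + a) * p + b * q = a * p + b * q := by ring
  have e3 : 0 * p + (a * p + b * q) = a * p + b * q := by ring
  refine Rto.sum _ fun μ hμ => ?_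
  obtain ⟨k1, k2, k3, k4, k5⟩ := kid_hyps hC Nat.one_pos (Or.inr hb) (Or.inl rfl) hE hrs hμ
    (by rwa [e1, e2])
  rw [e3] at k1 k2 k4 k5
  rw [e1] at k2 k4 k5
  exact bev_rat hT _ _ _ 1 0 0 _ Nat.one_pos (by omega) k1 (by
    rcases k2 with k2 | k2
    · exact Or.inl k2
    · exact Or.inr k2) k3 k4 k5

theorem lcv_rat_edge (hT : SR k (tot F) 1) (hC : Chv F P 0 1 G) {a b p q E : ℕ}
    (hE : Edv G a b p q E) (hOk : Okr (tot F) (-((p + q : ℕ) : ℤ), a * p + b * q)) :
    Rto (tot F) (fun d (t : Test k) => lcv G d t - lcv G d t.zr) := by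
  have := charZero k
  have hp := hE.p0
  have hq := hE.q0
  have hE0 := hE.e0
  have heb := hE.eb
  have hpE : 0 < p * E := Nat.mul_pos hp hE0
  have hb : 0 < b := by omega
  obtain ⟨r', s, hrs⟩ := exists_rs hE.cop hp hq
  have R1 := bev_rat hT (b - p * E) 0 1 p q (a + q * E) G hp Nat.one_pos
    (by have := Nat.mul_pos hq hE0; omega) (Or.inl rfl) hE.vtv hC (by
      have e3 : (0 + (a + q * E)) * p + (b - p * E) * q = a * p + b * q := by
        obtain ⟨c, hc⟩ : ∃ c, b = p * E + c := ⟨b - p * E, by omega⟩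
        have : b - p * E = c := by omega
        rw [this, hc]
        ring
      rw [e3, one_mul]
      exact hOk)
  have R2 := bev_rat hT a 0 1 q p b (swv G) hq Nat.one_pos
    (by omega) (Or.inl rfl) hE.vtv_swv hC.swv (by
      have e3 : (0 + b) * q + a * p = a * p + b * q := by ring
      have e4 : 1 * q + p = p + q := by ring
      rw [e3, e4]
      exact hOk)
  refine ((((Rto.of_one (twv_rat hE) hOk).add (kids_rat hT hC hE hrs hOk)).add R1).add R2).congr
    fun d t hd => ?_
  rw [lcv_edge hE hrs hd]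

/-- edges with `q ≥ 2` at the first step -/
theorem lcv_rat_good (hT : SR k (tot F) 1) (hC : Chv F P 0 1 G) {a b p q E : ℕ}
    (hE : Edv G a b p q E) (hq : 2 ≤ q)
    (hb : ¬ Bad G a b p q E) (h1 : b = 1 → ¬ Pur G a 1) :
    Okr (tot F) (-((p + q : ℕ) : ℤ), a * p + b * q) ∧
    Rto (tot F) (fun d (t : Test k) => lcv G d t - lcv G d t.zr) := by
  have := charZero k
  have hq0 : (0 : ℚ) < q := by
    have := hE.q0
    exact_mod_cast this
  have h3 := ok_edge hT hC Nat.one_pos hE hb (fun h => ⟨h1 h, by omega⟩) (by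
    rw [div_lt_one hq0]
    have h1 : (0 : ℚ) ≤ ((1 * p + q : ℕ) : ℚ) / ((0 + a) * p + b * q : ℕ) * (0 + a : ℕ) := by
      positivity
    have h2 : (2 : ℚ) ≤ q := by exact_mod_cast hq
    push_cast at h1 ⊢
    linarith)
  have e3 : (0 + a) * p + b * q = a * p + b * q := by ring
  have e4 : 1 * p + q = p + q := by ring
  rw [e3, e4] at h3
  exact ⟨h3, lcv_rat_edge hT hC hE h3⟩

theorem mzr_rat : RatF (Lu k) {(-1, 1)} (fun t : Test k => PowerSeries.mk fun d =>
    mzr t * ↑(Lu k ^ (1 - (d : ℤ)))) := by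
  refine ⟨{(-1, 1)}, by simp, 1, fun t n hn => ?_⟩
  obtain ⟨m, rfl⟩ : ∃ m, n = m + 1 := ⟨n - 1, by omega⟩
  rw [Multiset.map_singleton, Multiset.prod_singleton]
  unfold den'
  rw [sub_mul, one_mul, map_sub, mul_assoc, PowerSeries.coeff_C_mul]
  simp only [pow_one]
  rw [PowerSeries.coeff_succ_X_mul, PowerSeries.coeff_mk, PowerSeries.coeff_mk, sub_eq_zero]
  have : (1 - ((m + 1 : ℕ) : ℤ)) = (-1) + (1 - (m : ℤ)) := by
    push_cast
    ring
  rw [this, zpow_add, Units.val_mul]
  ring

/-- the special case of a pure coefficient at `X Y^(n-1)` -/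
theorem lcv_rat_pure (hT : SR k (tot F) 1) (hC : Chv F P 0 1 G) {n : ℕ} (hn : 3 ≤ n) (hE : Edv G 0 n 1 1 1)
    (hR : rtv (edv G 0 n 1 1 1) = ∅) (hv : Pur G 1 (n - 1)) (hu : ¬ Pur G 0 n) :
    Rto (tot F) (fun d (t : Test k) => lcv G d t - lcv G d t.zr) := by
  have := charZero k
  have hV : Vtv G 1 1 1 (n - 1) := by
    have := hE.vtv
    simpa using this
  obtain ⟨h, hh, hgood⟩ := exists_gdv Nat.one_pos (by omega) hV
  have hh0 : PowerSeries.constantCoeff h = 0 := by
    by_contra h0
    have := hh 0 (by rwa [PowerSeries.coeff_zero_eq_constantCoeff_apply])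
    omega
  obtain ⟨hE2, hedv⟩ := edv_shv hE Nat.one_pos le_rfl hh
  have hC2 : Chv F P 0 1 (shv' h G) := hC.shv hh0
  have hl2 := fun d (t : Test k) => lcv_shv hh0 G d t
  have hV2 : Vtv (shv' h G) 1 1 1 (n - 1) := hV.shv Nat.one_pos hh
  have hv2 : Pur (shv' h G) 1 (n - 1) := (pur_shv Nat.one_pos hV hh).2 hv
  have hV0 : Vtv G 1 0 0 n := by
    refine ⟨hE.top, fun e i j hij => ⟨by omega, fun h1 => ?_⟩⟩
    have := hE.wt e i j hij
    omega
  have hu2 : ¬ Pur (shv' h G) 0 n := by
    intro h1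
    apply hu
    intro e he
    rw [← (shv_wt Nat.one_pos hh (G := G) (c := n) fun e i j hij => by
      have := hE.wt e i j hij
      omega).2 e 0 n (by omega)]
    exact h1 e he
  rw [← hedv] at hR
  set G2 := shv' h G with hG2
  suffices hsuf : Rto (tot F) (fun d (t : Test k) => lcv G2 d t - lcv G2 d t.zr) by
    refine hsuf.congr fun d t _ => ?_
    rw [hl2, hl2]
  clear_value G2
  have hok1 : Okr (tot F) (-((1 * 1 + 0 : ℕ) : ℤ), (0 + 1) * 1 + (n - 1) * 0) := by
    have : ((0 + 1) * 1 + (n - 1) * 0) = 1 := by ring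
    rw [this]
    exact Okr.of_eq hT Nat.one_pos
  have hok1' : Okr (tot F) (-1, 1) := by
    have := Okr.of_eq hT Nat.one_pos
    simpa using this
  have hmz : Rto (tot F) (fun d (t : Test k) => mzr t * ↑(Lu k ^ (1 - (d : ℤ)))) :=
    Rto.of_one mzr_rat hok1'
  have hswv : Vtv (swv G2) 1 1 n 0 := by
    have := hE2.vtv_swv
    simpa using this
  have hedge : ∀ d (t : Test k), 0 < d → lcv G2 d t - lcv G2 d t.zr =
      twv G2 0 n 1 1 1 d t + bev 0 1 G2 1 1 1 (n - 1) d t := by
    intro d t hd
    have h1 := lcv_edge (r' := 0) (s := 1) hE2 (by norm_num) hd t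
    rw [hR, Finset.sum_empty, bev_zero Nat.one_pos hswv] at h1
    simpa using h1
  rcases hgood with hD | ⟨p', q', E, hE', hκ, hbad⟩
  · -- no next edge
    have hdiv := fun d (t : Test k) => bev_div (N := 0) (ν := 1) Nat.one_pos (by omega) hV2 hD d t
    refine ((Rto.of_two (cdv_rat (N := 0) (ν := 1) (a := 1) (b := n - 1) (p := 1) (q := 0)
      (G := G2) Nat.one_pos (by omega) (by omega)) hok1 (ok_comp hT hC2 (by omega) hV2.1 hD)).add
        hmz).congr fun d t hd => ?_
    rw [hedge d t hd, hdiv, twv_cdv hn hE2 hu2 hv2 hd]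
  · -- next edge
    have hp' := hE'.p0
    have hq' := hE'.q0
    obtain ⟨r', s, hrs⟩ := exists_rs hE'.cop hp' hq'
    have hok' := (lcv_rat_good hT hC2 hE' (by omega) hbad (fun h => by omega)).1
    have e3 : (0 + 1) * p' + (n - 1) * q' = 1 * p' + (n - 1) * q' := by ring
    have e4 : 1 * p' + q' = p' + q' := by ring
    have hbeyond := bev_rat hT (n - 1 - p' * E) 0 1 p' q' (1 + q' * E) G2 hp' Nat.one_pos
      (by have := Nat.mul_pos hq' hE'.e0; omega) (Or.inl rfl) hE'.vtv hC2 (by
        have e5 : (0 + (1 + q' * E)) * p' + (n - 1 - p' * E) * q' = 1 * p' + (n - 1) * q' := by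
          have heb := hE'.eb
          obtain ⟨c, hc⟩ : ∃ c, n - 1 = p' * E + c := ⟨n - 1 - p' * E, by omega⟩
          have : n - 1 - p' * E = c := by omega
          rw [this, hc]
          ring
        rw [e5, e4]
        exact hok')
    refine ((((Rto.of_two (cnv_rat (N := 0) (ν := 1) (a := 1) (b := n - 1) (p := 1) (q := 0)
      (p' := p') (q' := q') (E := E) (G := G2) Nat.one_pos hp' (by omega) (by omega) (by omega))
        hok1 (by rw [e3, e4]; exact hok')).add hmz).add
          (kids_rat hT hC2 hE' hrs hok')).add hbeyond).congr fun d t hd => ?_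
    have h1 := bev_edge (N := 0) (ν := 1) Nat.one_pos hV2 hE' (by omega) (by omega) hrs d t
    have e6 : 0 * p' + (1 * p' + (n - 1) * q') = 1 * p' + (n - 1) * q' := by ring
    rw [e4, e6] at h1
    rw [hedge d t hd, h1, ← twv_cnv hn hE2 hu2 hv2 hE' (by omega) hd]
    ring

/-- a common root of the swapped edge of length one -/
theorem not_bad_swv {n : ℕ} (hn : 3 ≤ n) (hE : Edv G 0 n 1 1 1)
    (hR : rtv (edv G 0 n 1 1 1) = ∅) :
    Edv (swv G) (n - 1) 1 1 1 1 ∧ ¬ Bad (swv G) (n - 1) 1 1 1 1 := by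
  have hw := hE.wt
  have hl := hE.lin
  have hbot := hE.bot
  simp only [one_mul, mul_one, zero_add] at hbot hw hl
  have e1 : n - 1 + 1 = n := by omega
  refine ⟨⟨Nat.one_pos, Nat.one_pos, by norm_num, Nat.one_pos, le_rfl, ?_, ?_, ?_, ?_⟩, ?_⟩
  · obtain ⟨e, he⟩ := hbot
    exact ⟨e, by rwa [cf_swv]⟩
  · obtain ⟨e, he⟩ := hE.top
    refine ⟨e, ?_⟩
    rw [cf_swv]
    simpa [e1] using he
  · intro e i j hij
    rw [cf_swv] at hij
    have := hw e j i hij
    omega
  · intro e i j hij h1
    rw [cf_swv] at hij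
    have h2 := hw e j i hij
    have h3 := hl e j i hij (by omega)
    omega
  · rintro ⟨-, -, μ, hμ⟩
    have key : ∀ e, cf (G e) 0 n = - μ * cf (G e) 1 (n - 1) := by
      intro e
      have h1 := congrArg (Polynomial.eval 0) (hμ e)
      simp only [edp, Finset.sum_range_succ, Finset.sum_range_zero, zero_add, Polynomial.eval_add,
        Polynomial.eval_mul, Polynomial.eval_C, Polynomial.eval_pow, Polynomial.eval_X,
        Polynomial.eval_sub, cf_swv, mul_zero, mul_one, one_mul, add_zero, Nat.sub_zero,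
        Nat.sub_self, pow_zero, pow_one, e1, zero_sub] at h1
      rw [h1]
      ring
    have hμ0 : μ ≠ 0 := by
      rintro rfl
      obtain ⟨e, he⟩ := hE.top
      apply he
      rw [key e]
      ring
    have hmem : μ⁻¹ ∈ rtv (edv G 0 n 1 1 1) := by
      obtain ⟨e, he⟩ := hE.top
      have hev : ∀ e, (edv G 0 n 1 1 1 e).eval μ⁻¹ = 0 := by
        intro e
        simp only [edv, edp, Finset.sum_range_succ, Finset.sum_range_zero, zero_add,
          Polynomial.eval_add, Polynomial.eval_mul, Polynomial.eval_C, Polynomial.eval_pow,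
          Polynomial.eval_X, mul_zero, mul_one, add_zero, Nat.sub_zero, Nat.sub_self,
          pow_zero, pow_one, key e]
        field_simp
        ring
      have hne : edv G 0 n 1 1 1 e ≠ 0 := by
        intro h0
        apply he
        have h1 := congrArg (Polynomial.eval 0) h0
        have h2 := congrArg (Polynomial.eval 1) h0
        simp only [edv, edp, Finset.sum_range_succ, Finset.sum_range_zero, zero_add,
          Polynomial.eval_add, Polynomial.eval_mul, Polynomial.eval_C, Polynomial.eval_pow,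
          Polynomial.eval_X, mul_zero, mul_one, add_zero, Nat.sub_zero, Nat.sub_self,
          pow_zero, pow_one, Polynomial.eval_zero, one_pow] at h1 h2
        rw [h1, add_zero] at h2
        exact h2
      classical
      rw [rtv, Finset.mem_filter, Finset.mem_biUnion]
      refine ⟨⟨e, Finset.mem_univ e, ?_⟩, hev⟩
      rw [rts, Multiset.mem_toFinset, Polynomial.mem_roots hne]
      exact hev e
    rw [hR] at hmem
    simp at hmem

/-- the tangent cone is a monomial -/
theorem lcv_rat_mono (hT : SR k (tot F) 1) {G1 : Fin (r + 1) → PS k} (hC1 : Chv F P 0 1 G1)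
    {n m b : ℕ} (hmb : m + b = n) (hb : 0 < b) (hcase : m = 0 ∨ (3 ≤ n ∧ 2 ≤ b))
    (hcf : ∃ e, cf (G1 e) m b ≠ 0)
    (honly : ∀ e i j, cf (G1 e) i j ≠ 0 → n ≤ i + j ∧ (i + j = n → i = m ∧ j = b)) :
    Rto (tot F) (fun d (t : Test k) => lcv G1 d t - lcv G1 d t.zr) := by
  have := charZero k
  have hV1 : Vtv G1 1 1 m b := ⟨hcf, fun e i j hij => ⟨by
    have := (honly e i j hij).1
    omega, fun h1 => by
    have := (honly e i j hij).2 (by omega)
    omega⟩⟩
  by_cases hsm : n = 1 ∧ Pur G1 0 1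
  · -- a smooth point
    obtain ⟨rfl, hP1⟩ := hsm
    have hmb1 : m = 0 ∧ b = 1 := by omega
    obtain ⟨rfl, rfl⟩ := hmb1
    have h0 : ∀ e, cf (G1 e) 0 0 = 0 := by
      intro e
      by_contra h1
      have := (honly e 0 0 h1).1
      omega
    have h3 : Pur G1 1 0 := by
      intro e _
      by_contra h1
      have := (honly e 1 0 h1).2 (by norm_num)
      omega
    refine Rto.zero fun d t hd => ?_
    rw [lcv_smooth h0 (Or.inr ?_) h3 hP1 hd, sub_self]
    obtain ⟨e, he⟩ := hcf
    by_cases he0 : e = 0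
    · rwa [he0] at he
    · exact absurd (hP1 e he0) he
  obtain ⟨h2, hh2, hgood2⟩ := exists_gdv Nat.one_pos hb hV1
  have hh20 : PowerSeries.constantCoeff h2 = 0 := by
    by_contra h0
    have := hh2 0 (by rwa [PowerSeries.coeff_zero_eq_constantCoeff_apply])
    omega
  have hC2 := hC1.shv hh20
  have hl2 := fun d (t : Test k) => lcv_shv hh20 G1 d t
  have hw2 := shv_wt Nat.one_pos hh2 (G := G1) (c := n) (fun e i j hij => by
    have := (honly e i j hij).1
    omega)
  have hP2 := pur_shv Nat.one_pos hV1 hh2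
  set G2 := shv' h2 G1 with hG2
  suffices hsuf : Rto (tot F) (fun d (t : Test k) => lcv G2 d t - lcv G2 d t.zr) by
    refine hsuf.congr fun d t _ => ?_
    rw [hl2, hl2]
  have hcf2 : ∃ e, cf (G2 e) m b ≠ 0 := by
    obtain ⟨e, he⟩ := hcf
    exact ⟨e, by rwa [hw2.2 e m b (by omega)]⟩
  have honly2 : ∀ e i j, cf (G2 e) i j ≠ 0 → n ≤ i + j ∧ (i + j = n → i = m ∧ j = b) := by
    intro e i j hij
    refine ⟨by have := hw2.1 e i j hij; omega, fun h3 => ?_⟩
    rw [hw2.2 e i j (by omega)] at hij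
    exact (honly e i j hij).2 h3
  clear_value G2
  have hb1 : b = 1 → m = 0 := by omega
  have hnp : b = 1 → ¬ Pur G2 m 1 := by
    intro h1 h3
    have h4 := hb1 h1
    subst h4 h1
    exact hsm ⟨by omega, hP2.1 h3⟩
  rcases hgood2 with hD2 | ⟨p', q', E, hE, hκ, hbad⟩
  swap
  · exact (lcv_rat_good hT hC2 hE (by have := hE.p0; omega) hbad hnp).2
  -- `Y^b` divides `G2`
  have hokb := ok_comp hT hC2 hb hcf2 hD2
  rcases Nat.eq_zero_or_pos m with hm | hm
  · subst hm
    refine (Rto.of_one (lcv_mono_zero (k := k) hcf2 hD2 hb) hokb).congr fun d t hd => ?_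
    rw [if_neg (by omega)]
  · -- two tangent directions
    have hcf3 : ∀ e i j, cf (swv G2 e) i j = cf (G2 e) j i := cf_swv G2
    have hC3 := hC2.swv
    have hl3 := fun d (t : Test k) => lcv_swv G2 d t
    set G3 := swv G2 with hG3
    have hcf3' : ∃ e, cf (G3 e) b m ≠ 0 := by
      obtain ⟨e, he⟩ := hcf2
      exact ⟨e, by rwa [hcf3]⟩
    have hV3 : Vtv G3 1 1 b m := ⟨hcf3', fun e i j hij => by
      rw [hcf3] at hij
      have h3 := (honly2 e j i hij).1
      exact ⟨by omega, fun h4 => by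
        have := (honly2 e j i hij).2 (by omega)
        omega⟩⟩
    by_cases hpm : m = 1 ∧ Pur G3 b 1
    · obtain ⟨rfl, hP3⟩ := hpm
      have hx := lcv_xdiv (k := k) (G := G3) (a := b) ⟨hcf3', fun e i j hij => by
        rw [hcf3] at hij
        have h3 := (honly2 e j i hij).1
        have h4 := hD2 e j i hij
        exact ⟨by omega, fun h5 => by omega⟩⟩ hP3 (fun e i j hij => by
          rw [hcf3] at hij
          exact hD2 e j i hij) (fun e i j hij => by
          rw [hcf3] at hij
          have h3 := (honly2 e j i hij).1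
          omega) hb
      refine (Rto.of_one hx hokb).congr fun d t hd => ?_
      rw [if_neg (by omega), hl3, hl3]
    obtain ⟨h4, hh4, hgood4⟩ := exists_gdv Nat.one_pos hm hV3
    have hh40 : PowerSeries.constantCoeff h4 = 0 := by
      by_contra h0
      have := hh4 0 (by rwa [PowerSeries.coeff_zero_eq_constantCoeff_apply])
      omega
    have hC4 := hC3.shv hh40
    have hl4 := fun d (t : Test k) => lcv_shv hh40 G3 d t
    have hw4 := shv_wt Nat.one_pos hh4 (G := G3) (c := n) (fun e i j hij => by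
      rw [hcf3] at hij
      have := (honly2 e j i hij).1
      omega)
    have hleft := fun e i j => shv_left (G := G3) (n := b) hh40 (fun e i j hij => by
      rw [hcf3] at hij
      exact hD2 e j i hij) e i j
    have hP4 := pur_shv Nat.one_pos hV3 hh4
    set G4 := shv' h4 G3 with hG4
    have hl : ∀ d (t : Test k), lcv G4 d t = lcv G2 d t := fun d t => by rw [hl4, hl3]
    suffices hsuf : Rto (tot F) (fun d (t : Test k) => lcv G4 d t - lcv G4 d t.zr) by
      refine hsuf.congr fun d t _ => ?_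
      rw [hl, hl]
    have hcf4 : ∃ e, cf (G4 e) b m ≠ 0 := by
      obtain ⟨e, he⟩ := hcf3'
      exact ⟨e, by rwa [hw4.2 e b m (by omega)]⟩
    rcases hgood4 with hD4 | ⟨p', q', E, hE, hκ, hbad⟩
    swap
    · refine (lcv_rat_good hT hC4 hE (by have := hE.p0; omega) hbad fun h1 h3 => ?_).2
      subst h1
      exact hpm ⟨rfl, hP4.1 h3⟩
    have hs4 : ∀ e i j, cf (G4 e) i j ≠ 0 → b ≤ i ∧ m ≤ j := fun e i j hij =>
      ⟨hleft e i j hij, hD4 e i j hij⟩
    refine (Rto.of_two (lcv_mono (k := k) hcf4 hs4 hb hm) hokb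
      (ok_comp hT hC4 hm hcf4 hD4)).congr fun d t hd => ?_
    rw [if_neg (by omega)]

theorem lcv_rat (hT : SR k (tot F) 1) (hC : Chv F P 0 1 G) {n : ℕ} (hn : 1 ≤ n)
    (hn1 : n = 1 → SR k (tot F) 2)
    (h : ∀ e i j, cf (G e) i j ≠ 0 → n ≤ i + j) (h' : ∃ e i j, i + j = n ∧ cf (G e) i j ≠ 0) :
    Rto (tot F) (fun d (t : Test k) => lcv G d t - lcv G d t.zr) := by
  have := charZero k
  obtain ⟨a, ha, hJ, hcone⟩ := exists_cnv (by omega) h h'
  have hC1 := hC.sbv ha hJ
  have hl1 := fun d (t : Test k) => lcv_sbv ha hJ G d t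
  set G1 := sbv a G with hG1
  suffices hsuf : Rto (tot F) (fun d (t : Test k) => lcv G1 d t - lcv G1 d t.zr) by
    refine hsuf.congr fun d t _ => ?_
    rw [hl1, hl1]
  clear_value G1
  rcases hcone with ⟨E, hE, hR⟩ | ⟨hn3, hE, hR⟩ | ⟨m, b, hmb, hb, hcase, hcf, honly⟩
  · -- at least three tangent directions
    refine lcv_rat_edge hT hC1 hE ?_
    rcases hR with hn2 | ⟨y, hy, hyE, hR⟩
    · have e1 : 0 * 1 + n * 1 = n := by ring
      rw [e1]
      have : n = 1 ∨ n = 2 := by omega
      rcases this with rfl | rfl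
      · exact Okr.of_sr (by norm_num) Nat.one_pos (by
          have := hn1 rfl
          norm_num
          exact this)
      · exact Okr.of_eq hT (by norm_num)
    · exact ok_line hC1 hE hy hyE hR
  · -- moving tangent direction
    by_cases hv : Pur G1 1 (n - 1)
    · refine lcv_rat_pure hT hC1 hn3 hE hR hv ?_
      intro hu
      -- both coefficients are pure: there is a common root
      have e1 : cf (G1 0) 0 n ≠ 0 := by
        obtain ⟨e, he⟩ := hE.top
        by_cases he0 : e = 0
        · rwa [he0] at he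
        · exact absurd (hu e he0) he
      have hmem : -(cf (G1 0) 1 (n - 1)) / cf (G1 0) 0 n ∈ rtv (edv G1 0 n 1 1 1) := by
        have hev : ∀ e, (edv G1 0 n 1 1 1 e).eval (-(cf (G1 0) 1 (n - 1)) / cf (G1 0) 0 n) =
            0 := by
          intro e
          simp only [edv, edp, Finset.sum_range_succ, Finset.sum_range_zero, zero_add,
            Polynomial.eval_add, Polynomial.eval_mul, Polynomial.eval_C, Polynomial.eval_pow,
            Polynomial.eval_X, mul_zero, mul_one, add_zero, Nat.sub_zero, Nat.sub_self,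
            pow_zero, pow_one]
          by_cases he0 : e = 0
          · rw [he0]
            field_simp
            ring
          · rw [hu e he0, hv e he0]
            ring
        have hne : edv G1 0 n 1 1 1 0 ≠ 0 := by
          intro h0
          apply e1
          have h1 := congrArg (Polynomial.eval 0) h0
          have h2 := congrArg (Polynomial.eval 1) h0
          simp only [edv, edp, Finset.sum_range_succ, Finset.sum_range_zero, zero_add,
            Polynomial.eval_add, Polynomial.eval_mul, Polynomial.eval_C, Polynomial.eval_pow,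
            Polynomial.eval_X, mul_zero, mul_one, add_zero, Nat.sub_zero, Nat.sub_self,
            pow_zero, pow_one, Polynomial.eval_zero, one_pow] at h1 h2
          rw [h1, add_zero] at h2
          exact h2
        classical
        rw [rtv, Finset.mem_filter, Finset.mem_biUnion]
        refine ⟨⟨0, Finset.mem_univ 0, ?_⟩, hev⟩
        rw [rts, Multiset.mem_toFinset, Polynomial.mem_roots hne]
        exact hev 0
      rw [hR] at hmem
      simp at hmem
    · obtain ⟨hE', hbad'⟩ := not_bad_swv hn3 hE hR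
      have hP' : ¬ Pur (swv G1) (n - 1) 1 := by
        intro h1
        apply hv
        intro e he
        rw [← cf_swv]
        exact h1 e he
      have h1 := (ok_special hC1.swv Nat.one_pos hE' hP' hbad').okr hT (by omega)
      refine lcv_rat_edge hT hC1 hE ?_
      have e1 : (0 + (n - 1)) * 1 + 1 * 1 = 0 * 1 + n * 1 := by omega
      have e2 : 1 * 1 + 1 = 1 + 1 := by ring
      rwa [e1, e2] at h1
  · exact lcv_rat_mono hT hC1 hmb hb hcase hcf honly

end FSV

end Pool.Agent.H75.Mono
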