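import Pool.Agent.H75.Idl.I0
import Pool.Agent.H75.Plc.GO1

/-! # LIY, module GD1: shears and weights -/

set_option autoImplicit false

namespace Pool.Agent.H75.Mono

open MvPolynomial Pool.Agent.H39.MonoR

section GD1

variable {k : Type} [Field k] {r : ℕ} {G : Fin (r + 1) → PS k} {p q a b : ℕ}
  {h : PowerSeries k}

theorem shv_wt (hp : 0 < p) (hh : ∀ i, PowerSeries.coeff i h ≠ 0 → q < i * p) {c : ℕ}
    (hc : ∀ e i j, cf (G e) i j ≠ 0 → c ≤ i * p + j * q) :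
    (∀ e i j, cf (shv' h G e) i j ≠ 0 → c ≤ i * p + j * q) ∧
      ∀ e i j, i * p + j * q = c → cf (shv' h G e) i j = cf (G e) i j :=
  ⟨fun e => (shr_wt (G := G e) hp hh (hc e)).1, fun e => (shr_wt (G := G e) hp hh (hc e)).2⟩

theorem Vtv.shv (hV : Vtv G p q a b) (hp : 0 < p)
    (hh : ∀ i, PowerSeries.coeff i h ≠ 0 → q < i * p) : Vtv (shv' h G) p q a b := by
  obtain ⟨⟨e, he⟩, h2⟩ := hV
  obtain ⟨h3, h4⟩ := shv_wt (c := a * p + b * q) hp hh (fun e i j hij => (h2 e i j hij).1)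
  refine ⟨⟨e, by rw [h4 e a b rfl]; exact he⟩, ?_⟩
  intro e i j hij
  refine ⟨h3 e i j hij, ?_⟩
  intro hw
  rw [h4 e i j hw] at hij
  exact (h2 e i j hij).2 hw

theorem shv_left {n : ℕ} (hh : PowerSeries.constantCoeff h = 0)
    (hn : ∀ e i j, cf (G e) i j ≠ 0 → n ≤ i) (e : Fin (r + 1)) (i j : ℕ)
    (hij : cf (shv' h G e) i j ≠ 0) : n ≤ i :=
  shr_left (G := G e) hh (hn e) i j hij

end GD1

end Pool.Agent.H75.Mono
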