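import Pool.Agent.H75.Idl.I0

/-! # LIY, module GNY: generic linear combinations -/

set_option autoImplicit false

namespace Pool.Agent.H75.Mono

open MvPolynomial Pool.Agent.H39.MonoR

section GNY

variable {k : Type} [Field k] [CharZero k] {r : ℕ}

private theorem gny_gen (s : Finset (Fin (r + 1) → k)) (h : ∀ v ∈ s, v ≠ 0) :
    ∃ y : Fin (r + 1) → k, ∀ v ∈ s, ∑ e, y e * v e ≠ 0 := by
  by_contra hcon
  push Not at hcon
  have hP : (∏ v ∈ s, ∑ e, MvPolynomial.X e * MvPolynomial.C (v e) :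
      MvPolynomial (Fin (r + 1)) k) = 0 := by
    apply MvPolynomial.funext
    intro y
    obtain ⟨j, hj, hj0⟩ := hcon y
    rw [map_prod, map_zero]
    refine Finset.prod_eq_zero hj ?_
    simpa using hj0
  rw [Finset.prod_eq_zero_iff] at hP
  obtain ⟨j, hj, hj0⟩ := hP
  apply h j hj
  funext e0
  have := congrArg (MvPolynomial.eval (Pi.single e0 1)) hj0
  simpa [Pi.single_apply] using this

private theorem gny_lin (L : Polynomial k →ₗ[k] k) (y : Fin (r + 1) → k)
    (Q : Fin (r + 1) → Polynomial k) : L (cmQ y Q) = ∑ e, y e * L (Q e) := by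
  rw [cmQ, map_sum]
  refine Finset.sum_congr rfl fun e _ => ?_
  rw [← Polynomial.smul_eq_C_mul, map_smul, smul_eq_mul]

open Classical in
private theorem gny_fun (Q : Fin (r + 1) → Polynomial k) (T : Finset (Polynomial k →ₗ[k] k))
    (hT : ∀ L ∈ T, ∃ e, L (Q e) ≠ 0) :
    ∃ y : Fin (r + 1) → k, y 0 ≠ 0 ∧ ∀ L ∈ T, L (cmQ y Q) ≠ 0 := by
  obtain ⟨y, hy⟩ := gny_gen (insert (Pi.single 0 1) (T.image fun L e => L (Q e))) (by
    intro v hv
    rw [Finset.mem_insert, Finset.mem_image] at hv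
    rcases hv with rfl | ⟨L, hL, rfl⟩
    · intro h
      have := congrFun h 0
      simp at this
    · intro h
      obtain ⟨e, he⟩ := hT L hL
      exact he (congrFun h e))
  refine ⟨y, ?_, fun L hL => ?_⟩
  · have := hy _ (Finset.mem_insert_self _ _)
    simpa [Pi.single_apply] using this
  · rw [gny_lin]
    exact hy _ (Finset.mem_insert_of_mem (Finset.mem_image_of_mem _ hL))

private theorem gny_smul (c : k) (y : Fin (r + 1) → k) (Q : Fin (r + 1) → Polynomial k) :
    cmQ (c • y) Q = Polynomial.C c * cmQ y Q := by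
  rw [cmQ, cmQ, Finset.mul_sum]
  refine Finset.sum_congr rfl fun e _ => ?_
  rw [Pi.smul_apply, smul_eq_mul, Polynomial.C_mul, mul_assoc]

private theorem gny_add (y z : Fin (r + 1) → k) (Q : Fin (r + 1) → Polynomial k) :
    cmQ (y + z) Q = cmQ y Q + cmQ z Q := by
  rw [cmQ, cmQ, cmQ, ← Finset.sum_add_distrib]
  refine Finset.sum_congr rfl fun e _ => ?_
  rw [Pi.add_apply, Polynomial.C_add, add_mul]

omit [CharZero k] in
private theorem gny_rtv {Q : Fin (r + 1) → Polynomial k} (hQ : ∃ e, Q e ≠ 0) {μ : k} :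
    μ ∈ rtv Q ↔ ∀ e, (Q e).eval μ = 0 := by
  classical
  unfold rtv
  rw [Finset.mem_filter, Finset.mem_biUnion]
  constructor
  · exact fun h => h.2
  · intro h
    obtain ⟨e, he⟩ := hQ
    refine ⟨⟨e, Finset.mem_univ e, ?_⟩, h⟩
    unfold rts
    rw [Multiset.mem_toFinset, Polynomial.mem_roots he]
    exact h e

omit [CharZero k] in
private theorem gny_mlt {Q : Fin (r + 1) → Polynomial k} (hQ : ∃ e, Q e ≠ 0) (μ : k) :
    (∃ e, (Polynomial.taylor μ (Q e)).coeff (mlt Q μ) ≠ 0) ∧
      ∀ e, ∀ i < mlt Q μ, (Polynomial.taylor μ (Q e)).coeff i = 0 := by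
  have hne : {n | ∃ e, Q e ≠ 0 ∧ (Q e).rootMultiplicity μ = n}.Nonempty := by
    obtain ⟨e, he⟩ := hQ
    exact ⟨_, e, he, rfl⟩
  have hkey : ∀ e, Q e ≠ 0 → (Q e).rootMultiplicity μ =
      (Polynomial.taylor μ (Q e)).natTrailingDegree := fun e _ =>
    Polynomial.rootMultiplicity_eq_natTrailingDegree
  constructor
  · obtain ⟨e, he, h⟩ := Nat.sInf_mem hne
    refine ⟨e, ?_⟩
    change (Polynomial.taylor μ (Q e)).coeff (sInf _) ≠ 0
    rw [← h, hkey e he]
    have h1 : Polynomial.taylor μ (Q e) ≠ 0 := by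
      intro h2
      exact he ((Polynomial.taylor_injective μ) (by rw [h2, map_zero]))
    exact Polynomial.trailingCoeff_nonzero_iff_nonzero.2 h1
  · intro e i hi
    by_cases he : Q e = 0
    · rw [he, map_zero, Polynomial.coeff_zero]
    · have h1 : mlt Q μ ≤ (Q e).rootMultiplicity μ := Nat.sInf_le ⟨e, he, rfl⟩
      rw [hkey e he] at h1
      exact Polynomial.coeff_eq_zero_of_lt_natTrailingDegree (hi.trans_le h1)

/-- the multiplicity of a common root in a linear combination -/
private theorem gny_mult {Q : Fin (r + 1) → Polynomial k} (hQ : ∃ e, Q e ≠ 0) (μ : k)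
    (y : Fin (r + 1) → k) (h : (Polynomial.taylor μ (cmQ y Q)).coeff (mlt Q μ) ≠ 0) :
    (cmQ y Q).rootMultiplicity μ = mlt Q μ := by
  have e1 : (cmQ y Q).rootMultiplicity μ = (Polynomial.taylor μ (cmQ y Q)).natTrailingDegree :=
    Polynomial.rootMultiplicity_eq_natTrailingDegree
  rw [e1]
  apply le_antisymm
  · exact Polynomial.natTrailingDegree_le_of_ne_zero h
  · refine Polynomial.le_natTrailingDegree (fun h0 => h (by rw [h0, Polynomial.coeff_zero]))
      fun i hi => ?_
    have h2 := gny_lin ((Polynomial.lcoeff k i).comp (Polynomial.taylor μ)) y Q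
    simp only [LinearMap.comp_apply, Polynomial.lcoeff_apply] at h2
    rw [h2]
    refine Finset.sum_eq_zero fun e _ => ?_
    rw [(gny_mlt hQ μ).2 e i hi, mul_zero]

/-- roots of a member of a pencil -/
private theorem gny_simple {P B : Polynomial k} {ρ : k} (hP : P ≠ 0) (hd : P.natDegree ≠ 0)
    (hB : B.eval ρ ≠ 0) (h2 : 2 ≤ P.rootMultiplicity ρ) :
    (P.derivative * B - P * B.derivative).eval ρ = 0 ∧
      P.derivative * B - P * B.derivative ≠ 0 := by
  have hroot : P.IsRoot ρ := (Polynomial.rootMultiplicity_pos hP).1 (by omega)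
  have hder : P.derivative ≠ 0 := fun h =>
    hd (Polynomial.natDegree_eq_zero_of_derivative_eq_zero h)
  have hm := Polynomial.derivative_rootMultiplicity_of_root hroot
  constructor
  · have h3 : P.derivative.IsRoot ρ := (Polynomial.rootMultiplicity_pos hder).1 (by omega)
    rw [Polynomial.eval_sub, Polynomial.eval_mul, Polynomial.eval_mul, h3.eq_zero, hroot.eq_zero]
    ring
  · intro h0
    have h4 : P.derivative * B = P * B.derivative := sub_eq_zero.1 h0
    have h5 : (Polynomial.X - Polynomial.C ρ) ^ P.rootMultiplicity ρ ∣ P.derivative * B := by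
      rw [h4]
      exact (Polynomial.pow_rootMultiplicity_dvd P ρ).mul_right _
    have h6 : IsCoprime ((Polynomial.X - Polynomial.C ρ) ^ P.rootMultiplicity ρ) B := by
      refine IsCoprime.pow_left ?_
      refine (Polynomial.irreducible_X_sub_C ρ).coprime_iff_not_dvd.2 fun h7 => ?_
      rw [Polynomial.dvd_iff_isRoot] at h7
      exact hB h7
    have h7 := (Polynomial.le_rootMultiplicity_iff hder).2 (h6.dvd_of_dvd_mul_right h5)
    omega

variable [IsAlgClosed k]

/-- a generic linear combination has the common roots and otherwise simple roots -/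
theorem exists_gen {Q : Fin (r + 1) → Polynomial k} {E : ℕ} (hE : 0 < E)
    (hd : ∀ e, (Q e).natDegree ≤ E) (ht : ∃ e, (Q e).coeff E ≠ 0) (h0 : ∃ e, (Q e).eval 0 ≠ 0) :
    ∃ y : Fin (r + 1) → k, y 0 = 1 ∧ (cmQ y Q).natDegree = E ∧ (cmQ y Q).eval 0 ≠ 0 ∧
      (∀ μ ∈ rtv Q, (cmQ y Q).rootMultiplicity μ = mlt Q μ) ∧
      (rts (cmQ y Q)).card = (rtv Q).card + (E - ∑ μ ∈ rtv Q, mlt Q μ) := by
  classical
  have hQ : ∃ e, Q e ≠ 0 := by
    obtain ⟨e, he⟩ := h0
    exact ⟨e, fun h => he (by rw [h, Polynomial.eval_zero])⟩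
  obtain ⟨T, hT⟩ : ∃ T : Finset (Polynomial k →ₗ[k] k), T =
      insert (Polynomial.lcoeff k E) (insert (Polynomial.leval 0) ((rtv Q).image fun μ =>
        (Polynomial.lcoeff k (mlt Q μ)).comp (Polynomial.taylor μ))) := ⟨_, rfl⟩
  have hT1 : ∀ L ∈ T, ∃ e, L (Q e) ≠ 0 := by
    intro L hL
    rw [hT, Finset.mem_insert, Finset.mem_insert, Finset.mem_image] at hL
    rcases hL with rfl | rfl | ⟨μ, _, rfl⟩
    · exact ht
    · exact h0
    · exact (gny_mlt hQ μ).1
  obtain ⟨a, ha0, ha⟩ := gny_fun Q T hT1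
  obtain ⟨b, _, hb⟩ := gny_fun Q ((rts (cmQ a Q) \ rtv Q).image fun ρ => Polynomial.leval ρ) (by
    intro L hL
    rw [Finset.mem_image] at hL
    obtain ⟨ρ, hρ, rfl⟩ := hL
    rw [Finset.mem_sdiff, gny_rtv hQ] at hρ
    by_contra hcon
    push Not at hcon
    exact hρ.2 hcon)
  obtain ⟨t, htt⟩ := Infinite.exists_notMem_finset
    (insert (-a 0 / b 0) ((T.image fun L => -L (cmQ a Q) / L (cmQ b Q)) ∪
      ((rts ((cmQ a Q).derivative * cmQ b Q - cmQ a Q * (cmQ b Q).derivative)).image
        fun ρ => -(cmQ a Q).eval ρ / (cmQ b Q).eval ρ)))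
  rw [Finset.mem_insert, Finset.mem_union, not_or, not_or] at htt
  obtain ⟨ht0, ht1, ht2⟩ := htt
  have hlin : ∀ u v : k, u ≠ 0 → t ≠ -u / v → u + t * v ≠ 0 := by
    intro u v hu htv h
    by_cases hv : v = 0
    · rw [hv, mul_zero, add_zero] at h
      exact hu h
    · apply htv
      rw [eq_div_iff hv]
      linear_combination h
  have hs : a 0 + t * b 0 ≠ 0 := hlin _ _ ha0 ht0
  obtain ⟨y, hy⟩ : ∃ y : Fin (r + 1) → k, y = (a 0 + t * b 0)⁻¹ • (a + t • b) := ⟨_, rfl⟩
  have hP : cmQ y Q = Polynomial.C (a 0 + t * b 0)⁻¹ *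
      (cmQ a Q + Polynomial.C t * cmQ b Q) := by
    rw [hy, gny_smul, gny_add, gny_smul]
  have hL : ∀ L ∈ T, L (cmQ y Q) ≠ 0 := by
    intro L hL
    have e1 : L (cmQ y Q) = (a 0 + t * b 0)⁻¹ * (L (cmQ a Q) + t * L (cmQ b Q)) := by
      rw [hP, ← Polynomial.smul_eq_C_mul, ← Polynomial.smul_eq_C_mul, map_smul, map_add, map_smul,
        smul_eq_mul, smul_eq_mul]
    rw [e1]
    refine mul_ne_zero (inv_ne_zero hs) (hlin _ _ (ha L hL) fun h => ht1 ?_)
    rw [Finset.mem_image]
    exact ⟨L, hL, h.symm⟩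
  have hcE : (cmQ y Q).coeff E ≠ 0 := by
    have := hL (Polynomial.lcoeff k E) (by rw [hT]; exact Finset.mem_insert_self _ _)
    simpa using this
  have hdeg : (cmQ y Q).natDegree = E := by
    apply le_antisymm
    · rw [cmQ]
      refine Polynomial.natDegree_sum_le_of_forall_le _ _ fun e _ => ?_
      exact (Polynomial.natDegree_C_mul_le _ _).trans (hd e)
    · exact Polynomial.le_natDegree_of_ne_zero hcE
  have hne : cmQ y Q ≠ 0 := fun h => hcE (by rw [h, Polynomial.coeff_zero])
  have hmul : ∀ μ ∈ rtv Q, (cmQ y Q).rootMultiplicity μ = mlt Q μ := by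
    intro μ hμ
    refine gny_mult hQ μ y ?_
    have := hL ((Polynomial.lcoeff k (mlt Q μ)).comp (Polynomial.taylor μ)) (by
      rw [hT]
      exact Finset.mem_insert_of_mem (Finset.mem_insert_of_mem (Finset.mem_image_of_mem _ hμ)))
    simpa using this
  have hsimple : ∀ ρ ∈ rts (cmQ y Q), ρ ∉ rtv Q → (cmQ y Q).rootMultiplicity ρ = 1 := by
    intro ρ hρ hρ2
    unfold rts at hρ
    rw [Multiset.mem_toFinset, Polynomial.mem_roots hne] at hρ
    have hpos := (Polynomial.rootMultiplicity_pos hne).2 hρ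
    by_contra hcon
    have h2 : 2 ≤ (cmQ y Q).rootMultiplicity ρ := by omega
    have hPρ : (cmQ a Q).eval ρ + t * (cmQ b Q).eval ρ = 0 := by
      have h3 := hρ.eq_zero
      rw [hP, Polynomial.eval_mul, Polynomial.eval_add, Polynomial.eval_mul, Polynomial.eval_C,
        Polynomial.eval_C] at h3
      rcases mul_eq_zero.1 h3 with h4 | h4
      · exact absurd h4 (inv_ne_zero hs)
      · exact h4
    have hB : (cmQ b Q).eval ρ ≠ 0 := by
      intro hB0
      rw [hB0, mul_zero, add_zero] at hPρ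
      have hane : cmQ a Q ≠ 0 := by
        intro h3
        have := ha (Polynomial.lcoeff k E) (by rw [hT]; exact Finset.mem_insert_self _ _)
        rw [h3, map_zero] at this
        exact this rfl
      have hmem : ρ ∈ rts (cmQ a Q) \ rtv Q := by
        rw [Finset.mem_sdiff]
        refine ⟨?_, hρ2⟩
        unfold rts
        rw [Multiset.mem_toFinset, Polynomial.mem_roots hane]
        exact hPρ
      exact hb (Polynomial.leval ρ) (Finset.mem_image_of_mem _ hmem) hB0
    obtain ⟨h5, h6⟩ := gny_simple hne (by omega) hB h2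
    have hW : (cmQ y Q).derivative * cmQ b Q - cmQ y Q * (cmQ b Q).derivative =
        Polynomial.C (a 0 + t * b 0)⁻¹ *
          ((cmQ a Q).derivative * cmQ b Q - cmQ a Q * (cmQ b Q).derivative) := by
      rw [hP, Polynomial.derivative_C_mul, Polynomial.derivative_add, Polynomial.derivative_C_mul]
      ring
    rw [hW] at h5 h6
    rw [Polynomial.eval_mul, Polynomial.eval_C] at h5
    have h7 := (mul_eq_zero.1 h5).resolve_left (inv_ne_zero hs)
    have h8 := right_ne_zero_of_mul h6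
    apply ht2
    rw [Finset.mem_image]
    refine ⟨ρ, ?_, ?_⟩
    · unfold rts
      rw [Multiset.mem_toFinset, Polynomial.mem_roots h8]
      exact h7
    · rw [div_eq_iff hB]
      linear_combination -hPρ
  refine ⟨y, ?_, hdeg, ?_, hmul, ?_⟩
  · rw [hy, Pi.smul_apply, Pi.add_apply, Pi.smul_apply, smul_eq_mul, smul_eq_mul]
    exact inv_mul_cancel₀ hs
  · have := hL (Polynomial.leval 0) (by
      rw [hT]; exact Finset.mem_insert_of_mem (Finset.mem_insert_self _ _))
    simpa using this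
  · have hsub : rtv Q ⊆ rts (cmQ y Q) := by
      intro μ hμ
      unfold rts
      rw [Multiset.mem_toFinset, Polynomial.mem_roots hne]
      have h1 := (gny_rtv hQ).1 hμ
      have h2 := gny_lin (Polynomial.leval μ) y Q
      change (cmQ y Q).eval μ = _ at h2
      change (cmQ y Q).eval μ = 0
      rw [h2]
      refine Finset.sum_eq_zero fun e _ => ?_
      change y e * (Q e).eval μ = 0
      rw [h1 e, mul_zero]
    have hcard := (IsAlgClosed.splits (cmQ y Q)).natDegree_eq_card_roots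
    rw [hdeg, ← Multiset.toFinset_sum_count_eq] at hcard
    have hc2 : E = ∑ ρ ∈ rts (cmQ y Q), (cmQ y Q).rootMultiplicity ρ := by
      rw [hcard]
      unfold rts
      refine Finset.sum_congr rfl fun ρ _ => ?_
      rw [Polynomial.count_roots]
    rw [← Finset.sum_sdiff hsub, Finset.sum_congr rfl hmul] at hc2
    have hc3 : ∑ ρ ∈ rts (cmQ y Q) \ rtv Q, (cmQ y Q).rootMultiplicity ρ =
        (rts (cmQ y Q) \ rtv Q).card := by
      rw [Finset.card_eq_sum_ones]
      refine Finset.sum_congr rfl fun ρ hρ => ?_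
      rw [Finset.mem_sdiff] at hρ
      exact hsimple ρ hρ.1 hρ.2
    have hc4 : (rts (cmQ y Q) \ rtv Q).card + (rtv Q).card = (rts (cmQ y Q)).card :=
      Finset.card_sdiff_add_card_eq_card hsub
    have hc5 : E = (rts (cmQ y Q) \ rtv Q).card + ∑ μ ∈ rtv Q, mlt Q μ := by
      rw [← hc3]
      convert hc2 using 2
    omega

end GNY

end Pool.Agent.H75.Mono
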