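import Pool.Agent.H75.Plc.PLN

/-! # Project LIY (MP_432c1b_ag): definitions

`F 0 + ∑ y_i F_i`, `F : Fin (r + 1) → k[x_0, x_1]`, and tuples `G : Fin (r + 1) → k[[X, Y]]`. The component
with index `0` has the value `c t^d`, all others have the value `0`. -/

set_option autoImplicit false

namespace Pool.Agent.H75.Mono

open MvPolynomial Pool.Agent.H39.MonoR

section I0

variable {k : Type} [Field k] {r : ℕ}

/-- `F_0(x) + ∑ y_i F_i(x)` -/
noncomputable def tot (F : Fin (r + 1) → MvPolynomial (Fin 2) k) :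
    MvPolynomial (Fin 2 ⊕ Fin r) k :=
  rename Sum.inl (F 0) + ∑ i : Fin r, X (Sum.inr i) * rename Sum.inl (F i.succ)

/-- a linear combination of polynomials -/
noncomputable def cmF (y : Fin (r + 1) → k) (F : Fin (r + 1) → MvPolynomial (Fin 2) k) :
    MvPolynomial (Fin 2) k := ∑ e, C (y e) * F e

/-- a linear combination of power series -/
noncomputable def cmG (y : Fin (r + 1) → k) (G : Fin (r + 1) → PS k) : PS k :=
  ∑ e, MvPowerSeries.C (y e) * G e

/-- a linear combination of polynomials in one variable -/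
noncomputable def cmQ (y : Fin (r + 1) → k) (Q : Fin (r + 1) → Polynomial k) : Polynomial k :=
  ∑ e, Polynomial.C (y e) * Q e

/-- `(a, b)` is the initial exponent of the tuple for all weights slightly beyond the ray `(p, q)` -/
def Vtv (G : Fin (r + 1) → PS k) (p q a b : ℕ) : Prop :=
  (∃ e, cf (G e) a b ≠ 0) ∧ ∀ e i j, cf (G e) i j ≠ 0 → a * p + b * q ≤ i * p + j * q ∧
    (i * p + j * q = a * p + b * q → b ≤ j)

/-- only the component `0` has a term at `(a, b)` -/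
def Pur (G : Fin (r + 1) → PS k) (a b : ℕ) : Prop := ∀ e, e ≠ 0 → cf (G e) a b = 0

/-- the points of the support of minimal weight for the weights `(p, q)` are among
`(a + q n, b - p n)`, `0 ≤ n ≤ E`, and the first and the last of them belong to the support -/
structure Edv (G : Fin (r + 1) → PS k) (a b p q E : ℕ) : Prop where
  p0 : 0 < p
  q0 : 0 < q
  cop : Nat.Coprime p q
  e0 : 0 < E
  eb : p * E ≤ b
  top : ∃ e, cf (G e) a b ≠ 0
  bot : ∃ e, cf (G e) (a + q * E) (b - p * E) ≠ 0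
  wt : ∀ e i j, cf (G e) i j ≠ 0 → a * p + b * q ≤ i * p + j * q
  lin : ∀ e i j, cf (G e) i j ≠ 0 → i * p + j * q = a * p + b * q → b - p * E ≤ j ∧ j ≤ b

/-- the polynomials of an edge -/
noncomputable def edv (G : Fin (r + 1) → PS k) (a b p q E : ℕ) : Fin (r + 1) → Polynomial k :=
  fun e => edp (G e) a b p q E

/-- the polynomials of the edge are multiples of one power `(z - μ)^b` -/
def Bad (G : Fin (r + 1) → PS k) (a b p q E : ℕ) : Prop :=
  p = 1 ∧ E = b ∧ ∃ μ : k, ∀ e, edp (G e) a b p q E =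
    Polynomial.C (cf (G e) a b) * (Polynomial.X - Polynomial.C μ) ^ b

open Classical in
/-- the common roots -/
noncomputable def rtv (Q : Fin (r + 1) → Polynomial k) : Finset k :=
  (Finset.univ.biUnion fun e => rts (Q e)).filter fun μ => ∀ e, (Q e).eval μ = 0

/-- the multiplicity of a common root -/
noncomputable def mlt (Q : Fin (r + 1) → Polynomial k) (μ : k) : ℕ :=
  sInf {n | ∃ e, Q e ≠ 0 ∧ (Q e).rootMultiplicity μ = n}

/-- `G(X, Y + h(X))` -/
noncomputable def shv' (h : PowerSeries k) (G : Fin (r + 1) → PS k) : Fin (r + 1) → PS k :=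
  fun e => shr h (G e)

/-- `G(Y, X)` -/
noncomputable def swv (G : Fin (r + 1) → PS k) : Fin (r + 1) → PS k := fun e => swp (G e)

/-- substitution -/
noncomputable def sbv (a : Fin 2 → PS k) (G : Fin (r + 1) → PS k) : Fin (r + 1) → PS k :=
  fun e => MvPowerSeries.subst a (G e)

/-- the transform at the point `μ` of the divisor with weights `(p, q)` -/
noncomputable def chv (N p q c r' s : ℕ) (μ : k) (G : Fin (r + 1) → PS k) :
    Fin (r + 1) → PS k := fun e => chd N p q c r' s μ (G e)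

/-- the Taylor expansions at `P` -/
noncomputable def tav (F : Fin (r + 1) → MvPolynomial (Fin 2) k) (P : Fin 2 → k) :
    Fin (r + 1) → PS k := fun e => tay (F e) P

/-- a chart at `P` for a tuple -/
def Chv (F : Fin (r + 1) → MvPolynomial (Fin 2) k) (P : Fin 2 → k) (N ν : ℕ)
    (G : Fin (r + 1) → PS k) : Prop :=
  ∃ (x : Fin 2 → PS k) (j : PS k), (∀ i, MvPowerSeries.constantCoeff (x i) = P i) ∧
    (∀ e, aeval x (F e) = MvPowerSeries.X 0 ^ N * G e) ∧
    MvPowerSeries.pderiv k 0 (x 0) * MvPowerSeries.pderiv k 1 (x 1) -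
      MvPowerSeries.pderiv k 1 (x 0) * MvPowerSeries.pderiv k 0 (x 1) =
        MvPowerSeries.X 0 ^ (ν - 1) * j ∧ MvPowerSeries.constantCoeff j ≠ 0

/-- a chain with `I^(j+1) e_j = 0` -/
def SRI (k : Type) [Field k] {σ : Type} (f : MvPolynomial σ k) (I : Ideal (MvPolynomial σ k))
    (s : ℚ) : Prop :=
  ∃ c : Chain k f s, ∀ j, ∀ A ∈ I ^ (j + 1), c.ρ A (c.e j) = 0

/-- the ideal of the tuple -/
noncomputable def idl (F : Fin (r + 1) → MvPolynomial (Fin 2) k) : Ideal (MvPolynomial (Fin 2) k) :=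
  Ideal.span (Set.range F)

/-- a pair which gives an eigenvalue -/
def Ok {σ : Type} (f : MvPolynomial σ k) (p : ℤ × ℕ) : Prop :=
  p.1 < 0 ∧ 0 < p.2 ∧ ((p.2 : ℤ) ∣ p.1 ∨ SR k f (-(p.1 : ℚ) / p.2))

/-- a finite set of pairs all of which give eigenvalues -/
def Oks {σ : Type} (f : MvPolynomial σ k) (S : Finset (ℤ × ℕ)) : Prop := ∀ p ∈ S, Ok f p

variable [Algebra k ℂ]

/-- `f_0(φ) ≡ c t^d` and `f_e(φ) ≡ 0` modulo `t^(d+1)`, `e ≠ 0` -/
def Htv {σ : Type} {N : ℕ} (f : Fin (r + 1) → MvPolynomial σ k) (d : ℕ) (φ : σ × Fin N → ℂ)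
    (c : ℂ) : Prop := ∀ e, Hit (f e) d φ (if e = 0 then c else 0)

/-- the class of `{(φ, w) : f_0(φ) ≡ c(w) t^d, f_e(φ) ≡ 0}`, times `L^(-nd)` -/
noncomputable def ztv {σ : Type} [Finite σ] (f : Fin (r + 1) → MvPolynomial σ k) (d : ℕ)
    (t : Test k) : M k :=
  mo k {x : (σ × Fin (d + 1) → ℂ) × t.E | x.2 ∈ t.W ∧ Htv f d x.1 (t.c x.2)} *
    ↑(Lu k ^ (-((Nat.card σ * d : ℕ) : ℤ)))

/-- the polynomials `X^N G_e`, truncated -/
noncomputable def tpv (N d : ℕ) (G : Fin (r + 1) → PS k) : Fin (r + 1) → MvPolynomial (Fin 2) k :=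
  fun e => X 0 ^ N * tp d (G e)

/-- the arcs in the region with `X^N G_0 = c t^d`, `X^N G_e = 0` -/
noncomputable def dmv (N : ℕ) (G : Fin (r + 1) → PS k) (p q m d : ℕ) (t : Test k) : M k :=
  mo k {x : (Fin 2 × Fin (d + 1) → ℂ) × t.E | x.2 ∈ t.W ∧ rgn p q m x.1 ∧
    Htv (tpv N d G) d x.1 (t.c x.2)}

/-- the contribution of the region beyond the ray `(p, q)`, where the initial exponent is `(a, b)` -/
noncomputable def bev (N ν : ℕ) (G : Fin (r + 1) → PS k) (p q a b d : ℕ) (t : Test k) : M k :=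
  ∑ m ∈ (Finset.Icc 1 d).filter (fun m => ((N + a) * p + b * q) * m < p * d),
    ↑(Lu k ^ (-(((ν : ℤ) - 1) * m + 2 * d))) * (dmv N G p q m d t - dmv N G p q m d t.zr)

/-- the arcs on the ray, at the common root `μ` of the edge polynomials -/
noncomputable def rpv (N : ℕ) (G : Fin (r + 1) → PS k) (p q : ℕ) (μ : k) (m d : ℕ)
    (t : Test k) : M k :=
  mo k {x : (Fin 2 × Fin (d + 1) → ℂ) × t.E | x.2 ∈ t.W ∧ ordc x.1 0 (p * m) ∧
    ordc x.1 1 (q * m) ∧ (∀ (h : p * m < d + 1) (h' : q * m < d + 1),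
      x.1 (1, ⟨q * m, h'⟩) ^ p = algebraMap k ℂ μ * x.1 (0, ⟨p * m, h⟩) ^ q) ∧
    Htv (tpv N d G) d x.1 (t.c x.2)}

/-- `P_0(x) = c` and `P_e(x) = 0`, `e ≠ 0` -/
def Vlv (P : Fin (r + 1) → MvPolynomial (Fin 2) k) (x : Fin 2 → ℂ) (c : ℂ) : Prop :=
  ∀ e, aeval x (P e) = if e = 0 then c else 0

/-- the classes of `{(α, β) : α ≠ 0, P_0(α, β) = c, P_e(α, β) = 0}`, as a difference -/
noncomputable def Dev (P : Fin (r + 1) → MvPolynomial (Fin 2) k) (t : Test k) : M k :=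
  mo k {x : (Fin 2 → ℂ) × t.E | x.2 ∈ t.W ∧ x.1 0 ≠ 0 ∧ Vlv P x.1 (t.c x.2)} -
  mo k {x : (Fin 2 → ℂ) × t.E | x.2 ∈ t.W ∧ x.1 0 ≠ 0 ∧ Vlv P x.1 0}

/-- the classes of `{(α, β) : P_0(α, β) = c, P_e(α, β) = 0}`, as a difference -/
noncomputable def Dlv (P : Fin (r + 1) → MvPolynomial (Fin 2) k) (t : Test k) : M k :=
  mo k {x : (Fin 2 → ℂ) × t.E | x.2 ∈ t.W ∧ Vlv P x.1 (t.c x.2)} -
  mo k {x : (Fin 2 → ℂ) × t.E | x.2 ∈ t.W ∧ Vlv P x.1 0}

/-- the leading forms at the top level, in the cone between the vertex and the edge `(p, q)`,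
`x = d - (N + a) m` -/
noncomputable def ldv (N : ℕ) (G : Fin (r + 1) → PS k) (a b p q E m x : ℕ) :
    Fin (r + 1) → MvPolynomial (Fin 2) k := fun e => ldf N (G e) a b p q E m x

/-- the leading forms at a vertex -/
noncomputable def mnv (N : ℕ) (G : Fin (r + 1) → PS k) (a b x : ℕ) :
    Fin (r + 1) → MvPolynomial (Fin 2) k :=
  fun e => if b ∣ x then monomial (ix (N + a) b) (cf (G e) a b) else 0

/-- the contribution of the cone between the rays `(p, q)` and `(p', q')` -/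
noncomputable def cnv (N ν : ℕ) (G : Fin (r + 1) → PS k) (p q a b p' q' E d : ℕ)
    (t : Test k) : M k :=
  ∑ m ∈ (Finset.Icc 1 d).filter (fun m => ((N + a) * p + b * q) * m < p * d ∧
      p' * d ≤ ((N + a) * p' + b * q') * m),
    ↑(Lu k ^ (-((ν : ℤ) * m + ((d - (N + a) * m + b - 1) / b : ℕ)))) *
      Dev (ldv N G a b p' q' E m (d - (N + a) * m)) t

/-- the contribution of the cone between the rays `(p, q)` and `(0, 1)` -/
noncomputable def cdv (N ν : ℕ) (G : Fin (r + 1) → PS k) (p q a b d : ℕ) (t : Test k) : M k :=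
  ∑ m ∈ (Finset.Icc 1 d).filter (fun m => ((N + a) * p + b * q) * m < p * d),
    ↑(Lu k ^ (-((ν : ℤ) * m + ((d - (N + a) * m + b - 1) / b : ℕ)))) *
      Dev (mnv N G a b (d - (N + a) * m)) t

/-- the arcs with origin `0` and `G_0 = c t^d`, `G_e = 0` -/
noncomputable def lcv (G : Fin (r + 1) → PS k) (d : ℕ) (t : Test k) : M k :=
  mo k {x : (Fin 2 × Fin (d + 1) → ℂ) × t.E | x.2 ∈ t.W ∧ org x.1 = 0 ∧
    Htv (fun e => tp d (G e)) d x.1 (t.c x.2)} * ↑(Lu k ^ (-((2 * d : ℕ) : ℤ)))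

/-- the leading forms at the top level for the weights `(p, q)` of the first edge -/
noncomputable def lfv (G : Fin (r + 1) → PS k) (a b p q E d : ℕ) :
    Fin (r + 1) → MvPolynomial (Fin 2) k := fun e => ltf (G e) a b p q E d

/-- the contribution of the top level for the weights `(p, q)` of the first edge -/
noncomputable def twv (G : Fin (r + 1) → PS k) (a b p q E d : ℕ) (t : Test k) : M k :=
  ↑(Lu k ^ (-(((d * p + (a * p + b * q) - 1) / (a * p + b * q) +
    (d * q + (a * p + b * q) - 1) / (a * p + b * q) : ℕ) : ℤ))) * Dlv (lfv G a b p q E d) t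

/-- the class of `{c ≠ 0}`, with the opposite sign -/
noncomputable def mzr (t : Test k) : M k := mo k {w : t.E | w ∈ t.W ∧ t.c w = 0} - mass t

/-- the strata of the common zeros of a tuple: finitely many points and smooth parts of curves -/
def Stv (F : Fin (r + 1) → MvPolynomial (Fin 2) k) (Sg : Finset (Fin 2 → k)) {n : ℕ}
    (Pf : Fin n → MvPolynomial (Fin 2) k) (Qf : Fin n → Fin (r + 1) → MvPolynomial (Fin 2) k)
    (m : Fin n → ℕ) : Prop :=
  (∀ P ∈ Sg, ∀ e, eval P (F e) = 0) ∧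
  (∀ i, 0 < m i ∧ (∀ e, F e = Pf i ^ m i * Qf i e) ∧ Irreducible (Pf i) ∧ ∃ e, ¬ Pf i ∣ Qf i e) ∧
  ∀ x : Fin 2 → ℂ, (∀ e, aeval x (F e) = 0) → (¬ ∃ P ∈ Sg, ∀ i, x i = algebraMap k ℂ (P i)) →
    ∃ i, (aeval x (Pf i) = 0 ∧ (∃ e, aeval x (Qf i e) ≠ 0) ∧
      ∃ j, aeval x (pderiv j (Pf i)) ≠ 0) ∧ ∀ i', i' ≠ i → aeval x (Pf i') ≠ 0

end I0

end Pool.Agent.H75.Mono
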