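import Pool.Agent.H75.Idl.I0

/-! # LIY, module LFT: adding linear variables -/

set_option autoImplicit false

namespace Pool.Agent.H75.Mono

open MvPolynomial Pool.Agent.H39.MonoR

section LFT

variable {k : Type} [Field k] [CharZero k] {σ ι : Type}

omit [CharZero k] in
/-- commuting operators -/
theorem lft_hom {τ : Type} {E : Type} [Ring E] [Algebra k E] (x : τ → E)
    (hx : ∀ i j, x i * x j = x j * x i) :
    ∃ Φ : MvPolynomial τ k →ₐ[k] E, ∀ i, Φ (X i) = x i := by
  have h1 : IsMulCommutative (Algebra.adjoin k (Set.range x)) :=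
    Algebra.isMulCommutative_adjoin k (by
      rintro _ ⟨i, rfl⟩ _ ⟨j, rfl⟩
      exact hx i j)
  let _ : CommRing (Algebra.adjoin k (Set.range x)) :=
    { (Algebra.adjoin k (Set.range x)).toRing with
      mul_comm := fun a b => h1.is_comm.comm a b }
  refine ⟨(Algebra.adjoin k (Set.range x)).val.comp (MvPolynomial.aeval fun i =>
    (⟨x i, Algebra.subset_adjoin ⟨i, rfl⟩⟩ : Algebra.adjoin k (Set.range x))), fun i => ?_⟩
  rw [AlgHom.comp_apply, aeval_X]
  rfl

/-- the product of `-(t + i)` -/
def lcc (t : k) (n : ℕ) : k := ∏ i ∈ Finset.range n, (-(t + i))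

omit [CharZero k] in
theorem lcc_zero (t : k) : lcc t 0 = 1 := by simp [lcc]

omit [CharZero k] in
theorem lcc_succ (t : k) (n : ℕ) : lcc t (n + 1) = lcc t n * (-(t + n)) := by
  unfold lcc
  rw [Finset.prod_range_succ]

omit [CharZero k] in
theorem lcc_succ' (t : k) (n : ℕ) : lcc t (n + 1) = -t * lcc (t + 1) n := by
  unfold lcc
  rw [Finset.prod_range_succ']
  rw [mul_comm]
  congr 1
  · simp
  · refine Finset.prod_congr rfl fun i _ => ?_
    push_cast
    ring

omit [CharZero k] in
theorem lft_comm (i j : ι) (B : MvPolynomial ι k) :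
    pderiv i (pderiv j B) = pderiv j (pderiv i B) := by
  classical
  induction B using MvPolynomial.induction_on with
  | C c => simp
  | add p q hp hq => rw [map_add, map_add, hp, hq, map_add, map_add]
  | mul_X p l hp =>
    have h1 : ∀ i j : ι, pderiv i (pderiv j (X l : MvPolynomial ι k)) = 0 := by
      intro i j
      rw [pderiv_X]
      by_cases h : j = l
      · subst h
        rw [Pi.single_eq_same, Derivation.map_one_eq_zero]
      · rw [Pi.single_eq_of_ne (fun h2 => h h2.symm), map_zero]
    simp only [Derivation.leibniz, smul_eq_mul, map_add, h1, hp]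
    ring

/-- composition on the left -/
def lftL {U V : Type} [AddCommGroup U] [Module k U] [AddCommGroup V] [Module k V]
    (T : Module.End k V) : Module.End k (U →ₗ[k] V) where
  toFun h := T ∘ₗ h
  map_add' h h' := by
    refine LinearMap.ext fun B => ?_
    show T (h B + h' B) = T (h B) + T (h' B)
    rw [T.map_add]
  map_smul' r h := by
    refine LinearMap.ext fun B => ?_
    show T (r • h B) = r • T (h B)
    rw [T.map_smul]

/-- composition on the right -/
def lftR {U V : Type} [AddCommGroup U] [Module k U] [AddCommGroup V] [Module k V]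
    (T : Module.End k U) : Module.End k (U →ₗ[k] V) where
  toFun h := h ∘ₗ T
  map_add' _ _ := rfl
  map_smul' _ _ := rfl

omit [CharZero k] in
/-- chain rule -/
theorem lft_chain [Fintype ι] (a : ι → MvPolynomial σ k) (i : σ) (B : MvPolynomial ι k) :
    pderiv i (aeval a B) = ∑ l, aeval a (pderiv l B) * pderiv i (a l) := by
  classical
  induction B using MvPolynomial.induction_on with
  | C c =>
    rw [algHom_C, algebraMap_eq, pderiv_C]
    simp
  | add p q hp hq =>
    rw [map_add, map_add, hp, hq, ← Finset.sum_add_distrib]
    refine Finset.sum_congr rfl fun l _ => ?_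
    rw [map_add, map_add, add_mul]
  | mul_X p j hp =>
    rw [map_mul, aeval_X, Derivation.leibniz, hp, smul_eq_mul, smul_eq_mul, Finset.mul_sum]
    have h1 : ∀ l, aeval a (pderiv l (p * X j)) * pderiv i (a l) =
        (if l = j then aeval a p * pderiv i (a l) else 0) +
        a j * (aeval a (pderiv l p) * pderiv i (a l)) := by
      intro l
      rw [Derivation.leibniz, smul_eq_mul, smul_eq_mul, map_add, map_mul, map_mul, aeval_X,
        pderiv_X]
      by_cases hl : l = j
      · subst hl
        simp
        ring
      · rw [if_neg hl, Pi.single_eq_of_ne (fun h => hl h.symm)]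
        simp
        ring
    rw [Finset.sum_congr rfl fun l _ => h1 l, Finset.sum_add_distrib]
    simp

/-- linear deformations with coefficients in the ideal -/
theorem SRI.lift [Fintype ι] {f : MvPolynomial σ k} {a : ι → MvPolynomial σ k}
    {I : Ideal (MvPolynomial σ k)} {s : ℚ} (hf : f ∈ I) (ha : ∀ i, a i ∈ I) (y : ι → k)
    (h : SRI k f I s) :
    SR k (rename Sum.inl f + ∑ i, (X (Sum.inr i) - C (y i)) * rename Sum.inl (a i) :
      MvPolynomial (σ ⊕ ι) k) s := by
  classical
  obtain ⟨c, hc⟩ := h
  let V := MvPolynomial ι k →ₗ[k] c.V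
  -- the operators
  let xl : σ → Module.End k V := fun i => lftL (c.ρ (X i))
  let et : ι → Module.End k V := fun i => lftR (pderiv i : Derivation k _ _).toLinearMap
  have hxl : ∀ i h B, xl i h B = c.ρ (X i) (h B) := fun i h B => rfl
  have het : ∀ i h B, et i h B = h (pderiv i B) := fun i h B => rfl
  obtain ⟨ρ, hρ⟩ := lft_hom (k := k) (E := Module.End k V)
    (Sum.elim xl fun i => algebraMap k _ (y i) + et i) (by
      have hxx : ∀ i j, xl i * xl j = xl j * xl i := by
        intro i j
        refine LinearMap.ext fun h => LinearMap.ext fun B => ?_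
        show c.ρ (X i) (c.ρ (X j) (h B)) = c.ρ (X j) (c.ρ (X i) (h B))
        rw [← Module.End.mul_apply, ← map_mul, mul_comm, map_mul, Module.End.mul_apply]
      have hee : ∀ i j, et i * et j = et j * et i := by
        intro i j
        refine LinearMap.ext fun h => LinearMap.ext fun B => ?_
        show h (pderiv j (pderiv i B)) = h (pderiv i (pderiv j B))
        rw [lft_comm]
      have hxe : ∀ i j, xl i * et j = et j * xl i := fun i j => rfl
      rintro (i | i) (j | j)
      · exact hxx i j
      · show xl i * (algebraMap k _ (y j) + et j) = (algebraMap k _ (y j) + et j) * xl i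
        rw [mul_add, add_mul, hxe, Algebra.commutes]
      · show (algebraMap k _ (y i) + et i) * xl j = xl j * (algebraMap k _ (y i) + et i)
        rw [mul_add, add_mul, hxe, Algebra.commutes]
      · show (algebraMap k _ (y i) + et i) * (algebraMap k _ (y j) + et j) =
          (algebraMap k _ (y j) + et j) * (algebraMap k _ (y i) + et i)
        rw [mul_add, add_mul, add_mul, mul_add, add_mul, add_mul, hee, ← Algebra.commutes (y j) (et i),
          ← Algebra.commutes (y i) (et j), ← Algebra.commutes (y i) (algebraMap k _ (y j))]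
        abel)
  have hρx : ∀ i h B, ρ (X (Sum.inl i)) h B = c.ρ (X i) (h B) := by
    intro i h B
    rw [hρ]
    rfl
  have hρe : ∀ i h B, ρ (X (Sum.inr i) - C (y i)) h B = h (pderiv i B) := by
    intro i h B
    have h1 : ρ (C (y i)) = algebraMap k _ (y i) := by
      rw [← algebraMap_eq]
      exact ρ.commutes (y i)
    rw [map_sub, hρ, h1]
    show (y i • h + et i h - y i • h) B = h (pderiv i B)
    rw [add_sub_cancel_left]
    rfl
  have hρr : ∀ p h B, ρ (rename Sum.inl p) h B = c.ρ p (h B) := by
    intro p
    induction p using MvPolynomial.induction_on with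
    | C r =>
      intro h B
      rw [rename_C, ← algebraMap_eq, ← algebraMap_eq, AlgHom.commutes, AlgHom.commutes]
      rfl
    | add p q hp hq =>
      intro h B
      rw [map_add, map_add, map_add, LinearMap.add_apply, LinearMap.add_apply, LinearMap.add_apply,
        hp, hq]
    | mul_X p i hp =>
      intro h B
      rw [map_mul, map_mul, map_mul, rename_X, Module.End.mul_apply, Module.End.mul_apply, hp, hρx]
  let D : σ ⊕ ι → Module.End k V := Sum.elim (fun i => lftL (c.D i))
    (fun l => lftR (LinearMap.mulLeft k (X l)))
  have hDl : ∀ i h B, D (Sum.inl i) h B = c.D i (h B) := fun i h B => rfl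
  have hDr : ∀ i h B, D (Sum.inr i) h B = h (X i * B) := fun i h B => rfl
  have hleib : ∀ i p v, D i (ρ p v) = ρ (pderiv i p) v + ρ p (D i v) := by
    intro i p
    induction p using MvPolynomial.induction_on with
    | C r =>
      intro v
      rw [← algebraMap_eq, AlgHom.commutes, algebraMap_eq, pderiv_C, map_zero,
        LinearMap.zero_apply, zero_add]
      exact (D i).map_smul r v
    | add p q hp hq =>
      intro v
      rw [map_add, map_add, map_add, LinearMap.add_apply, LinearMap.add_apply, LinearMap.add_apply,
        map_add, hp, hq]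
      abel
    | mul_X p j hp =>
      intro v
      rw [map_mul, Module.End.mul_apply, hp, Derivation.leibniz, smul_eq_mul, smul_eq_mul,
        map_add, map_mul, mul_comm (X j), map_mul, LinearMap.add_apply, Module.End.mul_apply,
        Module.End.mul_apply, Module.End.mul_apply]
      have h1 : D i (ρ (X j) v) = ρ (pderiv i (X j)) v + ρ (X j) (D i v) := by
        rcases i with i | i <;> rcases j with j | j
        · refine LinearMap.ext fun B => ?_
          rw [hDl, hρx, c.leib, LinearMap.add_apply, hρx, hDl]
          congr 1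
          by_cases hij : i = j
          · subst hij
            rw [pderiv_X_self, pderiv_X_self, map_one, map_one]
            rfl
          · rw [pderiv_X_of_ne (fun h => hij h.symm), pderiv_X_of_ne (fun h => hij
              (Sum.inl_injective h).symm), map_zero, map_zero]
            rfl
        · refine LinearMap.ext fun B => ?_
          have h3 : ρ (X (Sum.inr j)) v = y j • v + et j v := by rw [hρ]; rfl
          have h4 : ρ (X (Sum.inr j)) (D (Sum.inl i) v) = y j • D (Sum.inl i) v +
            et j (D (Sum.inl i) v) := by rw [hρ]; rfl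
          rw [h3, h4, pderiv_X_of_ne (by simp), map_zero, LinearMap.zero_apply, zero_add,
            map_add, (D (Sum.inl i)).map_smul]
          rfl
        · refine LinearMap.ext fun B => ?_
          rw [hDr, hρx, pderiv_X_of_ne (by simp), map_zero, LinearMap.zero_apply, zero_add,
            hρx, hDr]
        · refine LinearMap.ext fun B => ?_
          have h3 : ∀ v, ρ (X (Sum.inr j)) v = y j • v + et j v := by
            intro v; rw [hρ]; rfl
          rw [h3, h3, map_add, (D (Sum.inr i)).map_smul, LinearMap.add_apply,
            LinearMap.add_apply, LinearMap.add_apply, hDr, het, het, hDr,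
            Derivation.leibniz, smul_eq_mul, smul_eq_mul, map_add]
          by_cases hij : i = j
          · subst hij
            rw [pderiv_X_self, pderiv_X_self, map_one, mul_one]
            show _ = v B + _
            abel
          · rw [pderiv_X_of_ne (fun h => hij h), pderiv_X_of_ne (fun h => hij
              (Sum.inr_injective h).symm), map_zero, mul_zero, map_zero]
            show _ = (0 : c.V) + _
            abel
      rw [h1, map_add]
      abel
  -- the elements
  let E : ℕ → V := fun j => (basisMonomials ι k).constr k fun μ =>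
    lcc ((s : k) + j) (∑ i, μ i) • c.ρ (aeval a (monomial μ (1 : k))) (c.e (j + ∑ i, μ i))
  have hE : ∀ j (μ : ι →₀ ℕ), E j (monomial μ 1) =
      lcc ((s : k) + j) (∑ i, μ i) • c.ρ (aeval a (monomial μ (1 : k))) (c.e (j + ∑ i, μ i)) := by
    intro j μ
    have h1 := (basisMonomials ι k).constr_basis k (fun μ =>
      lcc ((s : k) + j) (∑ i, μ i) • c.ρ (aeval a (monomial μ (1 : k))) (c.e (j + ∑ i, μ i))) μ
    rwa [coe_basisMonomials] at h1
  have hK : ∀ j (μ : ι →₀ ℕ) l, E (j + 1) (pderiv l (monomial μ 1)) =
      lcc ((s : k) + j + 1) (∑ i, μ i - 1) • c.ρ (aeval a (pderiv l (monomial μ (1 : k))))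
        (c.e (j + 1 + (∑ i, μ i - 1))) := by
    intro j μ l
    rw [pderiv_monomial, one_mul]
    by_cases hl : μ l = 0
    · rw [hl, Nat.cast_zero, map_zero, map_zero, map_zero, map_zero, LinearMap.zero_apply,
        smul_zero]
    · have h1 : ∑ i, (μ - Finsupp.single l 1 : ι →₀ ℕ) i = ∑ i, μ i - 1 := by
        have h2 : ∑ i, μ i = ∑ i, ((μ - Finsupp.single l 1 : ι →₀ ℕ) i +
            (Finsupp.single l 1 : ι →₀ ℕ) i) := by
          refine Finset.sum_congr rfl fun i _ => ?_
          rw [← Finsupp.add_apply, tsub_add_cancel_of_le]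
          rw [Finsupp.single_le_iff]
          omega
        have h3 : ∑ i, (Finsupp.single l 1 : ι →₀ ℕ) i = 1 := by
          simp [Finsupp.single_apply]
        rw [h2, Finset.sum_add_distrib, h3]
        omega
      have h2 : ∀ ν : ι →₀ ℕ, (monomial ν (μ l : k)) = (μ l : k) • monomial ν (1 : k) := by
        intro ν
        rw [smul_monomial, smul_eq_mul, mul_one]
      have h3 : (s : k) + ((j + 1 : ℕ) : k) = (s : k) + j + 1 := by push_cast; ring
      rw [h2, map_smul, hE, h1, map_smul, map_smul, LinearMap.smul_apply, smul_comm, h3]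
  -- Euler
  have hEu : ∀ (μ : ι →₀ ℕ), ∑ l, a l * aeval a (pderiv l (monomial μ (1 : k))) =
      ((∑ i, μ i : ℕ) : k) • aeval a (monomial μ (1 : k)) := by
    intro μ
    have h1 : ∀ l, a l * aeval a (pderiv l (monomial μ (1 : k))) =
        (μ l : k) • aeval a (monomial μ (1 : k)) := by
      intro l
      have h2 := congrArg (aeval a) (X_mul_pderiv_monomial (i := l) (m := μ) (r := (1 : k)))
      rw [map_mul, aeval_X] at h2
      rw [h2, map_nsmul, Nat.cast_smul_eq_nsmul]
    rw [Finset.sum_congr rfl fun l _ => h1 l, ← Finset.sum_smul, Nat.cast_sum]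
  have hsum : ∀ (g h : ι → MvPolynomial σ k) (v : c.V), ∑ l, c.ρ (g l) (c.ρ (h l) v) =
      c.ρ (∑ l, g l * h l) v := by
    intro g h v
    rw [map_sum, LinearMap.sum_apply]
    refine Finset.sum_congr rfl fun l _ => ?_
    rw [map_mul, Module.End.mul_apply]
  set f' : MvPolynomial (σ ⊕ ι) k := rename Sum.inl f + ∑ i, (X (Sum.inr i) - C (y i)) *
    rename Sum.inl (a i) with hf'
  have hgen : ∀ (g : MvPolynomial σ k) (b : ι → MvPolynomial σ k) (h : V) B,
      ρ (rename Sum.inl g + ∑ i, (X (Sum.inr i) - C (y i)) * rename Sum.inl (b i)) h B =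
        c.ρ g (h B) + ∑ l, c.ρ (b l) (h (pderiv l B)) := by
    intro g b h B
    rw [map_add, LinearMap.add_apply, LinearMap.add_apply, hρr, map_sum, LinearMap.sum_apply,
      LinearMap.sum_apply]
    congr 1
    refine Finset.sum_congr rfl fun l _ => ?_
    rw [mul_comm, map_mul, Module.End.mul_apply, hρr, hρe]
  have hmul : ∀ j, ρ f' (E (j + 1)) = E j := by
    intro j
    refine (basisMonomials ι k).ext fun μ => ?_
    rw [coe_basisMonomials]
    simp only
    rw [hf', hgen, hE, hE]
    simp only [hK, map_smul]
    rw [← Finset.smul_sum, hsum, hEu, map_smul, LinearMap.smul_apply, ← Module.End.mul_apply,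
      ← map_mul, mul_comm f, map_mul, Module.End.mul_apply]
    have h3 : (s : k) + ((j + 1 : ℕ) : k) = (s : k) + j + 1 := by push_cast; ring
    rw [h3]
    generalize (∑ i, μ i) = n
    have h4 : c.ρ f (c.e (j + 1 + n)) = c.e (j + n) := by
      rw [show j + 1 + n = (j + n) + 1 by ring]
      exact c.mul _
    rw [h4]
    rcases n with _ | n
    · simp [lcc_zero]
    · rw [Nat.add_sub_cancel, show j + 1 + n = j + (n + 1) by ring, smul_smul, ← add_smul,
        lcc_succ, lcc_succ']
      congr 1
      push_cast
      ring
  have hpl : ∀ i, pderiv (Sum.inl i) f' = rename Sum.inl (pderiv i f) +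
      ∑ l, (X (Sum.inr l) - C (y l)) * rename Sum.inl (pderiv i (a l)) := by
    intro i
    rw [hf', map_add, map_sum, pderiv_rename Sum.inl_injective]
    congr 1
    refine Finset.sum_congr rfl fun l _ => ?_
    rw [Derivation.leibniz, pderiv_rename Sum.inl_injective, map_sub, pderiv_C,
      pderiv_X_of_ne (by simp), sub_zero, smul_zero, add_zero, smul_eq_mul]
  have hrr : ∀ i (p : MvPolynomial σ k), pderiv (Sum.inr i)
      (rename (Sum.inl : σ → σ ⊕ ι) p) = 0 := by
    intro i p
    induction p using MvPolynomial.induction_on with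
    | C a => simp
    | add p q hp hq => simp [hp, hq]
    | mul_X p j hp =>
      rw [map_mul, Derivation.leibniz, hp, rename_X, pderiv_X_of_ne (by simp)]
      simp
  have hpr : ∀ i, pderiv (Sum.inr i) f' = rename Sum.inl (a i) := by
    intro i
    rw [hf', map_add, map_sum, hrr, zero_add, Finset.sum_eq_single i]
    · rw [Derivation.leibniz, hrr, smul_zero, zero_add, map_sub, pderiv_C, pderiv_X_self,
        sub_zero, smul_eq_mul, mul_one]
    · intro l _ hl
      rw [Derivation.leibniz, hrr, smul_zero, zero_add, map_sub, pderiv_C,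
        pderiv_X_of_ne (fun h => hl (Sum.inr_injective h)), sub_zero, smul_zero]
    · intro h
      exact absurd (Finset.mem_univ i) h
  have hder : ∀ i j, D i (E j) = (-((s : k) + j)) • ρ (pderiv i f') (E (j + 1)) := by
    intro i j
    have h3 : (s : k) + ((j + 1 : ℕ) : k) = (s : k) + j + 1 := by push_cast; ring
    refine (basisMonomials ι k).ext fun μ => ?_
    rw [coe_basisMonomials]
    simp only
    rcases i with i | i
    · rw [hDl, hpl, LinearMap.smul_apply, hgen, hE, hE, map_smul]
      simp only [hK, map_smul]
      rw [← Finset.smul_sum, hsum, c.leib, c.der, map_smul, h3,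
        ← Module.End.mul_apply (c.ρ (pderiv i f)), ← map_mul, mul_comm (pderiv i f), map_mul,
        Module.End.mul_apply]
      have h5 : ∑ l, pderiv i (a l) * aeval a (pderiv l (monomial μ (1 : k))) =
          pderiv i (aeval a (monomial μ (1 : k))) := by
        rw [lft_chain]
        exact Finset.sum_congr rfl fun l _ => mul_comm _ _
      rw [h5]
      have h6 : ∑ i, μ i = 0 → pderiv i (aeval a (monomial μ (1 : k))) = 0 := by
        intro h6
        have h7 : μ = 0 := by
          ext l
          exact (Finset.sum_eq_zero_iff.1 h6) l (Finset.mem_univ l)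
        rw [h7]
        show pderiv i (aeval a (C (1 : k))) = 0
        rw [C_1, map_one, Derivation.map_one_eq_zero]
      generalize hn : (∑ i, μ i) = n at h6
      rw [show j + 1 + n = j + n + 1 by ring]
      rcases n with _ | n
      · rw [h6 rfl, map_zero, LinearMap.zero_apply, LinearMap.zero_apply, smul_zero, add_zero,
          zero_add, lcc_zero, lcc_zero]
        simp
      · rw [Nat.add_sub_cancel, show j + 1 + n = j + (n + 1) by ring, smul_add, smul_add,
          smul_smul, smul_smul, smul_smul, add_comm]
        congr 1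
        · congr 1
          rw [lcc_succ' ((s : k) + j) n, lcc_succ]
          push_cast
          ring
        · congr 1
          rw [lcc_succ']
    · rw [hDr, hpr, LinearMap.smul_apply, hρr, hE]
      have h4 : X i * monomial μ (1 : k) = monomial (μ + Finsupp.single i 1) 1 := by
        rw [X, monomial_mul, add_comm, one_mul]
      have h5 : ∑ l, (μ + Finsupp.single i 1 : ι →₀ ℕ) l = ∑ l, μ l + 1 := by
        simp [Finset.sum_add_distrib, Finsupp.single_apply]
      have h6 : aeval a (monomial (μ + Finsupp.single i 1) (1 : k)) =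
          a i * aeval a (monomial μ (1 : k)) := by
        rw [← h4, map_mul, aeval_X]
      rw [h4, hE, h5, h6, map_smul, map_mul, Module.End.mul_apply, smul_smul, h3, lcc_succ',
        show j + 1 + ∑ l, μ l = j + (∑ l, μ l + 1) by ring]
  have hmem : ∀ μ : ι →₀ ℕ, aeval a (monomial μ (1 : k)) ∈ I ^ (∑ i, μ i) := by
    intro μ
    have h1 : aeval a (monomial μ (1 : k)) = ∏ i, a i ^ μ i := by
      rw [aeval_monomial, map_one, one_mul, Finsupp.prod_fintype]
      intro i
      rw [pow_zero]
    rw [h1, ← Finset.prod_pow_eq_pow_sum]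
    exact Ideal.prod_mem_prod fun i _ => Ideal.pow_mem_pow (ha i) _
  have h0 : ρ f' (E 0) = 0 := by
    refine (basisMonomials ι k).ext fun μ => ?_
    rw [coe_basisMonomials]
    simp only
    rw [hf', hgen, hE]
    have h1 : ∀ l, c.ρ (a l) (E 0 (pderiv l (monomial μ 1))) = 0 := by
      intro l
      have h2 : monomial (μ - Finsupp.single l 1) (1 * (μ l : k)) =
          (μ l : k) • monomial (μ - Finsupp.single l 1) (1 : k) := by
        rw [smul_monomial, smul_eq_mul, one_mul, mul_one]
      rw [pderiv_monomial, h2, map_smul, hE, map_smul, map_smul, ← Module.End.mul_apply,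
        ← map_mul]
      have h3 : c.ρ (a l * aeval a (monomial (μ - Finsupp.single l 1) (1 : k)))
          (c.e (0 + ∑ i, (μ - Finsupp.single l 1 : ι →₀ ℕ) i)) = 0 := by
        apply hc
        rw [zero_add, pow_succ']
        exact Ideal.mul_mem_mul (ha l) (hmem _)
      rw [h3, smul_zero, smul_zero]
    rw [map_smul, ← Module.End.mul_apply, ← map_mul]
    have h2 : c.ρ (f * aeval a (monomial μ (1 : k))) (c.e (0 + ∑ i, μ i)) = 0 := by
      apply hc
      rw [zero_add, pow_succ']
      exact Ideal.mul_mem_mul hf (hmem μ)
    rw [h2, smul_zero, zero_add]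
    exact Finset.sum_eq_zero fun l _ => h1 l
  refine ⟨{ V := V
            ρ := ρ
            D := D
            leib := hleib
            e := E
            mul := hmul
            der := hder
            ne := ?_ }, h0⟩
  intro h1
  have h2 : E 0 (monomial 0 1) = 0 := by rw [h1]; rfl
  rw [hE] at h2
  apply c.ne
  simpa [lcc] using h2

end LFT

end Pool.Agent.H75.Mono
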