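import Pool.Agent.H75.Idl.I0

/-! # LIY, module SPA: linear forms for c + z y -/

set_option autoImplicit false

namespace Pool.Agent.H75.Mono

open MvPolynomial Pool.Agent.H39.MonoR

section SPA

variable {k : Type} [Field k] [CharZero k]

/-- the value on `z^B y^C` -/
private noncomputable def spa_w (c : k) (s : ℚ) (m B C : ℕ) : k :=
  if B = C then (-1) ^ B * c ^ ((B : ℤ) - m) * (B.factorial : k) /
    ∏ i ∈ Finset.range (B + 1), ((i : k) + 1 - s - m) else 0

private theorem spa_ne {s : ℚ} (hs : ∀ n : ℤ, s ≠ n) (i m : ℕ) : (i : k) + 1 - s - m ≠ 0 := by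
  intro h
  have h1 : (s : k) = (((i : ℤ) + 1 - m : ℤ) : ℚ) := by
    push_cast
    linear_combination -h
  exact hs _ (Rat.cast_injective h1)

private theorem spa_ne0 {s : ℚ} (hs : ∀ n : ℤ, s ≠ n) (m : ℕ) : (s : k) + m ≠ 0 := by
  intro h
  have h1 : (s : k) = ((-(m : ℤ) : ℤ) : ℚ) := by
    push_cast
    linear_combination h
  exact hs _ (Rat.cast_injective h1)

private theorem spa_prod (s : ℚ) (m l : ℕ) :
    ∏ i ∈ Finset.range (l + 1), ((i : k) + 1 - s - (m + 1 : ℕ)) =
      -((s : k) + m) * ∏ i ∈ Finset.range l, ((i : k) + 1 - s - m) := by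
  rw [Finset.prod_range_succ', mul_comm]
  congr 1
  · push_cast
    ring
  · refine Finset.prod_congr rfl fun i _ => ?_
    push_cast
    ring

private theorem spa_pne {s : ℚ} (hs : ∀ n : ℤ, s ≠ n) (m l : ℕ) :
    ∏ i ∈ Finset.range l, ((i : k) + 1 - s - m) ≠ 0 :=
  Finset.prod_ne_zero_iff.mpr fun i _ => spa_ne hs i m

private theorem spa_one {c : k} (hc : c ≠ 0) {s : ℚ} (hs : ∀ n : ℤ, s ≠ n) (m B C : ℕ) :
    c * spa_w c s (m + 1) B C + spa_w c s (m + 1) (B + 1) (C + 1) = spa_w c s m B C := by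
  unfold spa_w
  by_cases h : B = C
  · subst h
    rw [if_pos rfl, if_pos rfl, if_pos rfl, spa_prod, spa_prod, Finset.prod_range_succ]
    have h1 := spa_pne (k := k) hs m B
    have h2 := spa_ne (k := k) hs B m
    have h3 := spa_ne0 (k := k) hs m
    have e1 : c ^ ((B : ℤ) - (m + 1 : ℕ)) = c ^ ((B : ℤ) - m) * c⁻¹ := by
      rw [← zpow_sub_one₀ hc]
      congr 1
      push_cast
      ring
    have e2 : c ^ (((B + 1 : ℕ) : ℤ) - (m + 1 : ℕ)) = c ^ ((B : ℤ) - m) := by
      congr 1
      push_cast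
      ring
    rw [e1, e2, Nat.factorial_succ]
    generalize c ^ ((B : ℤ) - m) = Z
    generalize ∏ i ∈ Finset.range B, ((i : k) + 1 - s - m) = E at *
    push_cast
    have h4 : -((s : k) + m) ≠ 0 := neg_ne_zero.mpr h3
    field_simp
    ring
  · rw [if_neg h, if_neg h, if_neg (by omega)]
    ring

private theorem spa_two {c : k} (hc : c ≠ 0) {s : ℚ} (hs : ∀ n : ℤ, s ≠ n) (m l : ℕ) :
    ((l : k) + 1) * spa_w c s m l l = ((s : k) + m) * spa_w c s (m + 1) (l + 1) (l + 1) := by
  unfold spa_w
  rw [if_pos rfl, if_pos rfl, spa_prod, Finset.prod_range_succ]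
  have h1 := spa_pne (k := k) hs m l
  have h2 := spa_ne (k := k) hs l m
  have h3 := spa_ne0 (k := k) hs m
  have e2 : c ^ (((l + 1 : ℕ) : ℤ) - (m + 1 : ℕ)) = c ^ ((l : ℤ) - m) := by
    congr 1
    push_cast
    ring
  rw [e2, Nat.factorial_succ]
  generalize c ^ ((l : ℤ) - m) = Z
  generalize ∏ i ∈ Finset.range l, ((i : k) + 1 - s - m) = E at *
  push_cast
  have h4 : -((s : k) + m) ≠ 0 := neg_ne_zero.mpr h3
  field_simp
  ring

/-- the linear forms -/
private noncomputable def spa_lam (c : k) (s : ℚ) (m : ℕ) : MvPolynomial (Fin 2) k →ₗ[k] k :=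
  (basisMonomials (Fin 2) k).constr k fun e => spa_w c s m (e 0) (e 1)

private theorem spa_mono (c : k) (s : ℚ) (m : ℕ) (e : Fin 2 →₀ ℕ) (a : k) :
    spa_lam c s m (monomial e a) = a * spa_w c s m (e 0) (e 1) := by
  have h : monomial e a = a • (basisMonomials (Fin 2) k) e := by
    rw [coe_basisMonomials, smul_monomial, smul_eq_mul, mul_one]
  rw [h, map_smul, spa_lam, Module.Basis.constr_basis, smul_eq_mul]

theorem exists_lam2 {c : k} (hc : c ≠ 0) {s : ℚ} (hs : ∀ n : ℤ, s ≠ n) :
    ∃ lam : ℕ → MvPolynomial (Fin 2) k →ₗ[k] k,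
      (∀ m P, lam (m + 1) ((C c + X 0 * X 1) * P) = lam m P) ∧
      (∀ m P, lam m (pderiv 0 P) = ((s : k) + m) * lam (m + 1) (X 1 * P)) ∧
      (∀ m P, lam m (pderiv 1 P) = ((s : k) + m) * lam (m + 1) (X 0 * P)) ∧ lam 0 1 ≠ 0 := by
  refine ⟨spa_lam c s, fun m P => ?_, fun m P => ?_, fun m P => ?_, ?_⟩
  · induction P using MvPolynomial.induction_on' with
    | monomial u a =>
      have e : (C c + X 0 * X 1) * monomial u a = monomial u (c * a) +
          monomial (Finsupp.single 0 1 + Finsupp.single 1 1 + u) a := by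
        rw [add_mul, C_mul_monomial]
        congr 1
        rw [X, X, monomial_mul, monomial_mul, one_mul, one_mul]
      rw [e, map_add, spa_mono, spa_mono, spa_mono, ← spa_one hc hs m (u 0) (u 1)]
      have e0 : (Finsupp.single 0 1 + Finsupp.single 1 1 + u : Fin 2 →₀ ℕ) 0 = u 0 + 1 := by
        simp [add_comm]
      have e1 : (Finsupp.single 0 1 + Finsupp.single 1 1 + u : Fin 2 →₀ ℕ) 1 = u 1 + 1 := by
        simp [add_comm]
      rw [e0, e1]
      ring
    | add p q hp hq => rw [mul_add, map_add, map_add, hp, hq]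
  · induction P using MvPolynomial.induction_on' with
    | monomial u a =>
      rw [pderiv_monomial, X, monomial_mul, one_mul, spa_mono, spa_mono]
      have e0 : (u - Finsupp.single 0 1 : Fin 2 →₀ ℕ) 0 = u 0 - 1 := by simp
      have e1 : (u - Finsupp.single 0 1 : Fin 2 →₀ ℕ) 1 = u 1 := by simp
      have e2 : (Finsupp.single 1 1 + u : Fin 2 →₀ ℕ) 0 = u 0 := by simp
      have e3 : (Finsupp.single 1 1 + u : Fin 2 →₀ ℕ) 1 = u 1 + 1 := by simp [add_comm]
      rw [e0, e1, e2, e3]
      generalize u 0 = B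
      generalize u 1 = D
      rcases Nat.eq_zero_or_pos B with rfl | hB
      · rw [Nat.cast_zero, mul_zero, zero_mul]
        simp [spa_w]
      · obtain ⟨l, rfl⟩ : ∃ l, B = l + 1 := ⟨B - 1, by omega⟩
        rw [Nat.add_sub_cancel]
        by_cases h : l = D
        · subst h
          have := spa_two hc hs m l
          push_cast
          linear_combination a * this
        · have z1 : spa_w c s m l D = 0 := if_neg h
          have z2 : spa_w c s (m + 1) (l + 1) (D + 1) = 0 := if_neg (by omega)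
          rw [z1, z2]
          ring
    | add p q hp hq => rw [map_add, map_add, mul_add, map_add, hp, hq, mul_add]
  · induction P using MvPolynomial.induction_on' with
    | monomial u a =>
      rw [pderiv_monomial, X, monomial_mul, one_mul, spa_mono, spa_mono]
      have e0 : (u - Finsupp.single 1 1 : Fin 2 →₀ ℕ) 0 = u 0 := by simp
      have e1 : (u - Finsupp.single 1 1 : Fin 2 →₀ ℕ) 1 = u 1 - 1 := by simp
      have e2 : (Finsupp.single 0 1 + u : Fin 2 →₀ ℕ) 0 = u 0 + 1 := by simp [add_comm]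
      have e3 : (Finsupp.single 0 1 + u : Fin 2 →₀ ℕ) 1 = u 1 := by simp
      rw [e0, e1, e2, e3]
      generalize u 0 = D
      generalize u 1 = B
      rcases Nat.eq_zero_or_pos B with rfl | hB
      · rw [Nat.cast_zero, mul_zero, zero_mul]
        simp [spa_w]
      · obtain ⟨l, rfl⟩ : ∃ l, B = l + 1 := ⟨B - 1, by omega⟩
        rw [Nat.add_sub_cancel]
        by_cases h : l = D
        · subst h
          have := spa_two hc hs m l
          push_cast
          linear_combination a * this
        · have z1 : spa_w c s m D l = 0 := if_neg (Ne.symm h)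
          have z2 : spa_w c s (m + 1) (D + 1) (l + 1) = 0 := if_neg (by omega)
          rw [z1, z2]
          ring
    | add p q hp hq => rw [map_add, map_add, mul_add, map_add, hp, hq, mul_add]
  · have e : (1 : MvPolynomial (Fin 2) k) = monomial 0 1 := rfl
    rw [e, spa_mono, one_mul]
    have h1 := spa_ne (k := k) hs 0 0
    simp only [spa_w, Finsupp.coe_zero, Pi.zero_apply, if_true, pow_zero, one_mul, zero_add,
      Finset.prod_range_one, Nat.factorial_zero, Nat.cast_one, Nat.cast_zero, sub_zero,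
      zpow_zero] at h1 ⊢
    exact div_ne_zero one_ne_zero h1

end SPA

end Pool.Agent.H75.Mono
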