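import Pool.Agent.H75.Idl.SPA
import Pool.Agent.H75.Idl.SPG

/-! # LIY, module SPB: the chain of a divisor with a moving point -/

set_option autoImplicit false
set_option linter.unusedSectionVars false

namespace Pool.Agent.H75.Mono

open MvPolynomial Pool.Agent.H39.MonoR

section SPB

variable {k : Type} [Field k] [CharZero k]

/-- a derivation of the coefficient ring applied to the coefficients -/
noncomputable def pdc (i : Fin 2) (f : PowerSeries (MvPolynomial (Fin 2) k)) :
    PowerSeries (MvPolynomial (Fin 2) k) := PowerSeries.mk fun n => pderiv i (PowerSeries.coeff n f)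

/-- the names of the variables -/
def spb_e (i : Fin 2) : Option Unit := if i = 0 then none else some ()

/-- the names of the variables -/
def spb_e' (o : Option Unit) : Fin 2 := o.elim 0 fun _ => 1

theorem spb_ee (i : Fin 2) : spb_e' (spb_e i) = i := by fin_cases i <;> rfl

theorem spb_ee' (o : Option Unit) : spb_e (spb_e' o) = o := by rcases o with _ | ⟨⟩ <;> rfl

theorem spb_inj : Function.Injective spb_e := Function.LeftInverse.injective spb_ee

theorem spb_inj' : Function.Injective spb_e' := Function.LeftInverse.injective spb_ee'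

/-- renaming of the variables -/
noncomputable def spb_f : MvPolynomial (Fin 2) k →ₐ[k] MvPolynomial (Option Unit) k :=
  rename spb_e

theorem spb_f_C (c : k) : spb_f (C c : MvPolynomial (Fin 2) k) = C c := by
  rw [spb_f, rename_C]

theorem spb_ff (p : MvPolynomial (Fin 2) k) : rename spb_e' (spb_f p) = p := by
  rw [spb_f, rename_rename, show spb_e' ∘ spb_e = id from funext spb_ee, rename_id_apply]

/-- the map on power series -/
noncomputable def spb_g : PowerSeries (MvPolynomial (Fin 2) k) →+*
    PowerSeries (MvPolynomial (Option Unit) k) := PowerSeries.map (spb_f (k := k)).toRingHom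

theorem spb_coeff (n : ℕ) (a : PowerSeries (MvPolynomial (Fin 2) k)) :
    PowerSeries.coeff n (spb_g a) = spb_f (PowerSeries.coeff n a) := by
  rw [spb_g, PowerSeries.coeff_map]
  rfl

theorem spb_cc (a : PowerSeries (MvPolynomial (Fin 2) k)) :
    PowerSeries.constantCoeff (spb_g a) = spb_f (PowerSeries.constantCoeff a) := by
  rw [← PowerSeries.coeff_zero_eq_constantCoeff_apply, spb_coeff,
    PowerSeries.coeff_zero_eq_constantCoeff_apply]

theorem spb_pd (i : Fin 2) (a : PowerSeries (MvPolynomial (Fin 2) k)) :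
    pdv (spb_e i) (spb_g a) = spb_g (pdc i a) := by
  refine PowerSeries.ext fun n => ?_
  rw [spg_coeff, spb_coeff, spb_coeff, pdc, PowerSeries.coeff_mk, spb_f, pderiv_rename spb_inj]

theorem spb_der (a : PowerSeries (MvPolynomial (Fin 2) k)) :
    PowerSeries.derivative _ (spb_g a) = spb_g (PowerSeries.derivative _ a) := by
  refine PowerSeries.ext fun n => ?_
  rw [PowerSeries.coeff_derivative, spb_coeff, spb_coeff, PowerSeries.coeff_derivative, map_mul,
    map_add, map_one, map_natCast]

theorem spb_X (n : ℕ) : spb_g (PowerSeries.X ^ n : PowerSeries (MvPolynomial (Fin 2) k)) =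
    PowerSeries.X ^ n := by
  rw [spb_g, map_pow, PowerSeries.map_X]

theorem spb_aeval (x : Fin 2 → PowerSeries (MvPolynomial (Fin 2) k))
    (p : MvPolynomial (Fin 2) k) : aeval (fun i => spb_g (x i)) p = spb_g (aeval x p) := by
  induction p using MvPolynomial.induction_on with
  | C a =>
    rw [algHom_C, algHom_C, PowerSeries.algebraMap_apply, PowerSeries.algebraMap_apply, spb_g,
      PowerSeries.map_C]
    congr 1
    exact (spb_f_C a).symm
  | add p q hp hq => rw [map_add, map_add, map_add, hp, hq]
  | mul_X p i hp => rw [map_mul, map_mul, map_mul, hp, aeval_X, aeval_X]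

theorem SRI.special {F0 A1 : MvPolynomial (Fin 2) k} {I : Ideal (MvPolynomial (Fin 2) k)}
    {x : Fin 2 → PowerSeries (MvPolynomial (Fin 2) k)} {M ν : ℕ} (hM : 0 < M) (hν : 0 < ν)
    (hs : ¬ M ∣ ν) (hx : ∀ i, pdc 1 (x i) = 0) {j : PowerSeries (MvPolynomial (Fin 2) k)}
    (hj : PowerSeries.derivative _ (x 0) * pdc 0 (x 1) - pdc 0 (x 0) * PowerSeries.derivative _ (x 1) =
      PowerSeries.X ^ (ν - 1) * j) {j0 : k} (hj0 : j0 ≠ 0)
    (hj1 : PowerSeries.constantCoeff j = C j0) {g1 g2 : PowerSeries (MvPolynomial (Fin 2) k)}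
    {c : k} (hc : c ≠ 0) (h1 : aeval x F0 = PowerSeries.X ^ M * g1)
    (h2 : aeval x A1 = PowerSeries.X ^ M * g2) (h3 : PowerSeries.constantCoeff g1 = C c)
    (h4 : PowerSeries.constantCoeff g2 = X 0)
    (hI : ∀ A ∈ I, PowerSeries.X ^ M ∣ (aeval x A : PowerSeries (MvPolynomial (Fin 2) k)))
    (y0 : k) :
    SRI k (rename Sum.inl F0 + (X (Sum.inr ()) - C y0) * rename Sum.inl A1 :
        MvPolynomial (Fin 2 ⊕ Unit) k)
      (I.map (rename Sum.inl : MvPolynomial (Fin 2) k →ₐ[k] MvPolynomial (Fin 2 ⊕ Unit) k))
      ((ν : ℚ) / M) := by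
  have hsn : ∀ n : ℤ, ((ν : ℚ) / M) ≠ n := by
    intro n hn
    apply hs
    have hM' : (M : ℚ) ≠ 0 := by exact_mod_cast hM.ne'
    rw [div_eq_iff hM'] at hn
    have h5 : (ν : ℤ) = n * M := by exact_mod_cast hn
    have h6 : (M : ℤ) ∣ (ν : ℤ) := ⟨n, by rw [h5]; ring⟩
    exact_mod_cast h6
  obtain ⟨lam, l1, l2, l3, l4⟩ := exists_lam2 hc hsn
  have e0 : spb_e 0 = none := rfl
  have e1 : spb_e 1 = some () := rfl
  have hf0 : spb_f (X 0 : MvPolynomial (Fin 2) k) = X none := by
    rw [spb_f, rename_X, e0]
  have hG : (C c + X none * X (some ()) : MvPolynomial (Option Unit) k) =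
      PowerSeries.constantCoeff (spb_g g1) +
      ∑ l : Unit, X (some l) * PowerSeries.constantCoeff (spb_g g2) := by
    rw [spb_cc, spb_cc, h3, h4, spb_f_C, hf0, Finset.univ_unique, Finset.sum_singleton]
    ring
  have hne : (none : Option Unit) ≠ some () := by simp
  have key := SRI.special_gen (k := k) (κ := Unit) (F0 := F0) (A1 := fun _ => A1) (I := I)
    (x := fun i => spb_g (x i)) hM hν (fun i l => by
      rw [show (some l : Option Unit) = spb_e 1 from rfl, spb_pd, hx, map_zero])
    (j := spb_g j) (by
      rw [← e0, spb_pd, spb_pd, spb_der, spb_der, ← map_mul, ← map_mul, ← map_sub, hj, map_mul,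
        spb_X])
    (g1 := spb_g g1) (g2 := fun _ => spb_g g2) (by rw [spb_aeval, h1, map_mul, spb_X])
    (fun l => by rw [spb_aeval, h2, map_mul, spb_X]) hG
    (fun A hA => by
      rw [spb_aeval, ← spb_X]
      exact map_dvd spb_g (hI A hA))
    (fun m => lam m ∘ₗ (rename spb_e' : MvPolynomial (Option Unit) k →ₐ[k]
      MvPolynomial (Fin 2) k).toLinearMap)
    (fun m P => by
      show lam (m + 1) (rename spb_e' ((C c + X none * X (some ())) * P)) =
        lam m (rename spb_e' P)
      rw [map_mul (rename spb_e'), map_add (rename spb_e'), map_mul (rename spb_e'), rename_C,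
        rename_X, rename_X, show spb_e' none = 0 from rfl,
        show spb_e' (some ()) = 1 from rfl, l1])
    (fun m v P => by
      show lam m (rename spb_e' (pderiv v P)) = _ * lam (m + 1) (rename spb_e'
        (pderiv v (C c + X none * X (some ())) * P))
      rw [← pderiv_rename spb_inj' v P, map_mul (rename spb_e')]
      rcases v with _ | ⟨⟩
      · rw [show spb_e' none = 0 from rfl, l2, map_add, pderiv_C, zero_add, Derivation.leibniz,
          pderiv_X_self, pderiv_X_of_ne hne.symm, smul_zero, zero_add, smul_eq_mul,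
          _root_.mul_one, rename_X]
        rfl
      · rw [show spb_e' (some ()) = 1 from rfl, l3, map_add, pderiv_C, zero_add,
          Derivation.leibniz, pderiv_X_self, pderiv_X_of_ne hne, smul_zero, add_zero, smul_eq_mul,
          _root_.mul_one, rename_X]
        rfl)
    (by
      show lam 0 (rename spb_e' (PowerSeries.constantCoeff (spb_g j))) ≠ 0
      rw [spb_cc, spb_ff, hj1, ← _root_.mul_one (C j0), ← smul_eq_C_mul, map_smul, smul_eq_mul]
      exact mul_ne_zero hj0 l4) (fun _ => y0)
  rw [Finset.univ_unique, Finset.sum_singleton] at key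
  exact key

end SPB

end Pool.Agent.H75.Mono
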