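import Pool.Agent.H75.Idl.SPB
import Pool.Agent.H75.Idl.LFU
import Pool.Agent.H75.Idl.EVT

/-! # LIY, module SPE: roots given by divisors with a moving point -/

set_option autoImplicit false
set_option linter.unusedVariables false

namespace Pool.Agent.H75.Mono

open MvPolynomial Pool.Agent.H39.MonoR

section SPEaux

variable {k : Type} [Field k]

/-- decomposition of a power series -/
private theorem spe_decomp (G : PS k) : ∃ G0 G1 : PS k,
    G = MvPowerSeries.C (MvPowerSeries.constantCoeff G) + MvPowerSeries.X 0 * G0 +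
      MvPowerSeries.X 1 * G1 := by
  classical
  set A : PS k := fun n => if n 0 = 0 then 0 else MvPowerSeries.coeff n G with hA
  set B : PS k := fun n => if n 0 = 0 ∧ n 1 ≠ 0 then MvPowerSeries.coeff n G else 0 with hB
  have h0 : MvPowerSeries.X 0 ∣ A := by
    rw [MvPowerSeries.X_dvd_iff]
    intro m hm
    show A m = 0
    rw [hA]
    simp [hm]
  have h1 : MvPowerSeries.X 1 ∣ B := by
    rw [MvPowerSeries.X_dvd_iff]
    intro m hm
    show B m = 0
    rw [hB]
    simp [hm]
  obtain ⟨G0, e0⟩ := h0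
  obtain ⟨G1, e1⟩ := h1
  refine ⟨G0, G1, ?_⟩
  rw [← e0, ← e1]
  ext n
  rw [map_add, map_add, MvPowerSeries.coeff_C]
  have a : MvPowerSeries.coeff n A = if n 0 = 0 then 0 else MvPowerSeries.coeff n G := rfl
  have b : MvPowerSeries.coeff n B = if n 0 = 0 ∧ n 1 ≠ 0 then MvPowerSeries.coeff n G else 0 := rfl
  rw [a, b]
  by_cases h0 : n 0 = 0
  · by_cases h1 : n 1 = 0
    · have hn : n = 0 := by
        ext i
        fin_cases i
        · exact h0
        · exact h1
      subst hn
      simp
    · have hn : n ≠ 0 := by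
        rintro rfl
        exact h1 rfl
      simp [h0, h1, hn]
  · have hn : n ≠ 0 := by
      rintro rfl
      exact h0 rfl
    simp [h0, hn]

private theorem spe_zero {B : Type} [CommRing B] (E : PS k → B) (a0 a1 : B)
    (hadd : ∀ G H, E (G + H) = E G + E H) (hC : ∀ c, E (MvPowerSeries.C c) = 0)
    (h0 : ∀ G, E (MvPowerSeries.X 0 * G) = a0 * E G)
    (h1 : ∀ G, E (MvPowerSeries.X 1 * G) = a1 * E G) (Q : ℕ → B → Prop)
    (hQ0 : ∀ b, Q 0 b) (hQa : ∀ n b c, Q n b → Q n c → Q n (b + c))
    (hQ1 : ∀ n b, Q n b → Q (n + 1) (a0 * b)) (hQ2 : ∀ n b, Q n b → Q (n + 1) (a1 * b))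
    (hQ : ∀ b, (∀ n, Q n b) → b = 0) : ∀ G, E G = 0 := by
  have key : ∀ n, ∀ G, Q n (E G) := by
    intro n
    induction n with
    | zero => exact fun G => hQ0 _
    | succ n ih =>
      intro G
      obtain ⟨G0, G1, e⟩ := spe_decomp G
      rw [e, hadd, hadd, hC, zero_add, h0, h1]
      exact hQa _ _ _ (hQ1 _ _ (ih G0)) (hQ2 _ _ (ih G1))
  exact fun G => hQ _ (fun n => key n G)

private theorem spe_deriv {K : Type} [CommRing K] [Algebra k K] {x y : PowerSeries K}
    (hx : PowerSeries.constantCoeff x = 0) (hy : PowerSeries.constantCoeff y = 0)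
    (D : Derivation k (PowerSeries K) (PowerSeries K))
    (hD : ∀ (n : ℕ) (f : PowerSeries K), PowerSeries.X ^ (n + 1) ∣ f → PowerSeries.X ^ n ∣ D f)
    (G : PS k) : D (MvPowerSeries.subst (![x, y] : Fin 2 → MvPowerSeries Unit K) G) =
      (MvPowerSeries.subst (![x, y] : Fin 2 → MvPowerSeries Unit K)
        (MvPowerSeries.pderiv k 0 G) : PowerSeries K) * D x +
      (MvPowerSeries.subst (![x, y] : Fin 2 → MvPowerSeries Unit K)
        (MvPowerSeries.pderiv k 1 G) : PowerSeries K) * D y := by
  set a : Fin 2 → MvPowerSeries Unit K := ![x, y] with ha'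
  have ha : ∀ i, MvPowerSeries.constantCoeff (a i) = 0 := by
    intro i
    fin_cases i
    · exact hx
    · exact hy
  have hs : MvPowerSeries.HasSubst a := MvPowerSeries.hasSubst_of_constantCoeff_zero ha
  have hX0 : MvPowerSeries.subst (R := k) a (MvPowerSeries.X 0) = x := MvPowerSeries.subst_X hs 0
  have hX1 : MvPowerSeries.subst (R := k) a (MvPowerSeries.X 1) = y := MvPowerSeries.subst_X hs 1
  have h := spe_zero (k := k) (B := PowerSeries K) (fun G => D (MvPowerSeries.subst a G) -
      ((MvPowerSeries.subst a (MvPowerSeries.pderiv k 0 G) : PowerSeries K) * D x +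
      (MvPowerSeries.subst a (MvPowerSeries.pderiv k 1 G) : PowerSeries K) * D y))
      x y ?_ ?_ ?_ ?_ (fun n b => PowerSeries.X ^ n ∣ b) ?_ ?_ ?_ ?_ ?_ G
  · exact sub_eq_zero.1 h
  · intro G H
    have e1 := MvPowerSeries.subst_add hs G H
    have e2 := MvPowerSeries.subst_add hs (MvPowerSeries.pderiv k 0 G) (MvPowerSeries.pderiv k 0 H)
    have e3 := MvPowerSeries.subst_add hs (MvPowerSeries.pderiv k 1 G) (MvPowerSeries.pderiv k 1 H)
    simp only [map_add, e1, e2, e3]
    ring
  · intro c
    have e : (MvPowerSeries.subst a (MvPowerSeries.C c : PS k) : PowerSeries K) =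
        algebraMap k (PowerSeries K) c := by
      have e1 := (MvPowerSeries.substAlgHom (R := k) hs).commutes c
      rw [MvPowerSeries.coe_substAlgHom] at e1
      exact e1
    have e0 : (MvPowerSeries.subst a (0 : PS k) : PowerSeries K) = 0 := by
      rw [← MvPowerSeries.coe_substAlgHom hs]
      exact map_zero _
    have e2 : D (MvPowerSeries.subst a (MvPowerSeries.C c : PS k)) = 0 := by
      rw [e]
      exact D.map_algebraMap c
    simp only [MvPowerSeries.pderiv_C, e0, e2]
    ring
  · intro G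
    have e1 : (MvPowerSeries.subst a (MvPowerSeries.X 0 * G) : PowerSeries K) =
        x * MvPowerSeries.subst a G := by
      have := MvPowerSeries.subst_mul hs (MvPowerSeries.X 0) G
      rw [hX0] at this
      exact this
    have e2 : (MvPowerSeries.subst a (MvPowerSeries.pderiv k 0 (MvPowerSeries.X 0 * G)) :
        PowerSeries K) = x * MvPowerSeries.subst a (MvPowerSeries.pderiv k 0 G) +
          MvPowerSeries.subst a G := by
      rw [Derivation.leibniz, MvPowerSeries.pderiv_X_self, smul_eq_mul, smul_eq_mul, mul_one]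
      have h1 := MvPowerSeries.subst_add hs (MvPowerSeries.X 0 * MvPowerSeries.pderiv k 0 G) G
      have h2 := MvPowerSeries.subst_mul hs (MvPowerSeries.X 0) (MvPowerSeries.pderiv k 0 G)
      rw [hX0] at h2
      rw [h2] at h1
      exact h1
    have e3 : (MvPowerSeries.subst a (MvPowerSeries.pderiv k 1 (MvPowerSeries.X 0 * G)) :
        PowerSeries K) = x * MvPowerSeries.subst a (MvPowerSeries.pderiv k 1 G) := by
      rw [Derivation.leibniz, MvPowerSeries.pderiv_X_of_ne (by decide), smul_eq_mul, smul_zero,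
        add_zero]
      have h2 := MvPowerSeries.subst_mul hs (MvPowerSeries.X 0) (MvPowerSeries.pderiv k 1 G)
      rw [hX0] at h2
      exact h2
    simp only [e1, e2, e3]
    rw [Derivation.leibniz]
    simp only [smul_eq_mul]
    ring
  · intro G
    have e1 : (MvPowerSeries.subst a (MvPowerSeries.X 1 * G) : PowerSeries K) =
        y * MvPowerSeries.subst a G := by
      have := MvPowerSeries.subst_mul hs (MvPowerSeries.X 1) G
      rw [hX1] at this
      exact this
    have e2 : (MvPowerSeries.subst a (MvPowerSeries.pderiv k 1 (MvPowerSeries.X 1 * G)) :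
        PowerSeries K) = y * MvPowerSeries.subst a (MvPowerSeries.pderiv k 1 G) +
          MvPowerSeries.subst a G := by
      rw [Derivation.leibniz, MvPowerSeries.pderiv_X_self, smul_eq_mul, smul_eq_mul, mul_one]
      have h1 := MvPowerSeries.subst_add hs (MvPowerSeries.X 1 * MvPowerSeries.pderiv k 1 G) G
      have h2 := MvPowerSeries.subst_mul hs (MvPowerSeries.X 1) (MvPowerSeries.pderiv k 1 G)
      rw [hX1] at h2
      rw [h2] at h1
      exact h1
    have e3 : (MvPowerSeries.subst a (MvPowerSeries.pderiv k 0 (MvPowerSeries.X 1 * G)) :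
        PowerSeries K) = y * MvPowerSeries.subst a (MvPowerSeries.pderiv k 0 G) := by
      rw [Derivation.leibniz, MvPowerSeries.pderiv_X_of_ne (by decide), smul_eq_mul, smul_zero,
        add_zero]
      have h2 := MvPowerSeries.subst_mul hs (MvPowerSeries.X 1) (MvPowerSeries.pderiv k 0 G)
      rw [hX1] at h2
      exact h2
    simp only [e1, e2, e3]
    rw [Derivation.leibniz]
    simp only [smul_eq_mul]
    ring
  · intro b
    simp
  · intro n b c h1 h2
    exact dvd_add h1 h2
  · intro n b h1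
    rw [pow_succ']
    exact mul_dvd_mul (PowerSeries.X_dvd_iff.2 hx) h1
  · intro n b h1
    rw [pow_succ']
    exact mul_dvd_mul (PowerSeries.X_dvd_iff.2 hy) h1
  · intro b hb
    ext n
    have := hb (n + 1)
    rw [PowerSeries.X_pow_dvd_iff] at this
    rw [this n (Nat.lt_succ_self n)]
    simp

variable {K : Type} [CommRing K] [Algebra k K]

/-- the substitution -/
private noncomputable def speu (w : K) (q : ℕ) : Fin 2 → MvPowerSeries Unit K :=
  ![(PowerSeries.X : PowerSeries K), (PowerSeries.C w * PowerSeries.X ^ q : PowerSeries K)]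

private theorem spe_cc0 : PowerSeries.constantCoeff (PowerSeries.X : PowerSeries K) = 0 :=
  PowerSeries.constantCoeff_X

private theorem spe_cc1 (w : K) {q : ℕ} (hq : 0 < q) :
    PowerSeries.constantCoeff (PowerSeries.C w * PowerSeries.X ^ q : PowerSeries K) = 0 := by
  rw [map_mul, map_pow, PowerSeries.constantCoeff_X, zero_pow (by omega), mul_zero]

private theorem spe_has (w : K) {q : ℕ} (hq : 0 < q) : MvPowerSeries.HasSubst (speu w q) := by
  refine MvPowerSeries.hasSubst_of_constantCoeff_zero fun i => ?_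
  fin_cases i
  · exact spe_cc0
  · exact spe_cc1 w hq

private theorem spe_coeff (w : K) {q : ℕ} (hq : 0 < q) (G : PS k) (n : ℕ) :
    PowerSeries.coeff n (MvPowerSeries.subst (speu w q) G : PowerSeries K) =
      ∑ᶠ d : Fin 2 →₀ ℕ, (if d 0 + d 1 * q = n then
        algebraMap k K (cf G (d 0) (d 1)) * w ^ (d 1) else 0) := by
  show MvPowerSeries.coeff (Finsupp.single () n) (MvPowerSeries.subst (speu w q) G) = _
  rw [MvPowerSeries.coeff_subst (spe_has w hq)]
  refine finsum_congr fun d => ?_
  have hd : d = ix (d 0) (d 1) := by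
    ext i
    fin_cases i <;> simp [ix]
  rw [Finsupp.prod_fintype _ _ (fun i => pow_zero _), Fin.prod_univ_two]
  have e1 : (speu w q 0 ^ d 0 * speu w q 1 ^ d 1 : MvPowerSeries Unit K) =
      (PowerSeries.C (w ^ d 1) * PowerSeries.X ^ (d 0 + d 1 * q) : PowerSeries K) := by
    show ((PowerSeries.X) ^ d 0 * (PowerSeries.C w * PowerSeries.X ^ q) ^ d 1 : PowerSeries K) = _
    rw [mul_pow, ← pow_mul, map_pow, pow_add, mul_comm q]
    ring
  rw [e1]
  have e2 : MvPowerSeries.coeff (Finsupp.single () n)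
      (PowerSeries.C (w ^ d 1) * PowerSeries.X ^ (d 0 + d 1 * q) :
        PowerSeries K) = if d 0 + d 1 * q = n then w ^ d 1 else 0 := by
    show PowerSeries.coeff n _ = _
    rw [PowerSeries.coeff_C_mul, PowerSeries.coeff_X_pow]
    simp [eq_comm]
  rw [e2, cf, ← hd, Algebra.smul_def]
  split_ifs <;> simp

private theorem spe_dvd (w : K) {q c : ℕ} (hq : 0 < q) {G : PS k}
    (hG : ∀ i j, cf G i j ≠ 0 → c ≤ i + j * q) :
    PowerSeries.X ^ c ∣ (MvPowerSeries.subst (speu w q) G : PowerSeries K) := by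
  rw [PowerSeries.X_pow_dvd_iff]
  intro m hm
  rw [spe_coeff w hq]
  rw [finsum_eq_zero_of_forall_eq_zero]
  intro d
  by_cases h : d 0 + d 1 * q = m
  · have h1 : cf G (d 0) (d 1) = 0 := by
      by_contra h2
      have := hG _ _ h2
      omega
    rw [h1]; simp
  · rw [if_neg h]

private theorem spe_edge (w : K) {a q : ℕ} (hq : 0 < q) {G : PS k}
    (hG : ∀ i j, cf G i j ≠ 0 → i + j * q = a + q → j ≤ 1) :
    PowerSeries.coeff (a + q) (MvPowerSeries.subst (speu w q) G : PowerSeries K) =
      algebraMap k K (cf G a 1) * w + algebraMap k K (cf G (a + q) 0) := by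
  classical
  rw [spe_coeff w hq]
  have hne : ix a 1 ≠ ix (a + q) 0 := by
    intro h
    have := congrArg (fun f => f 1) h
    simp [ix] at this
  rw [finsum_eq_sum_of_support_subset (s := ({ix a 1, ix (a + q) 0} : Finset (Fin 2 →₀ ℕ)))]
  · rw [Finset.sum_pair hne]
    have e0 : (ix a 1) 0 = a := by simp [ix]
    have e1 : (ix a 1) 1 = 1 := by simp [ix]
    have e2 : (ix (a + q) 0) 0 = a + q := by simp [ix]
    have e3 : (ix (a + q) 0) 1 = 0 := by simp [ix]
    rw [e0, e1, e2, e3, if_pos (by ring), if_pos (by ring)]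
    ring
  · intro d hd
    rw [Function.mem_support] at hd
    have h1 : d 0 + d 1 * q = a + q := by
      by_contra h
      rw [if_neg h] at hd
      exact hd rfl
    rw [if_pos h1] at hd
    have h2 : cf G (d 0) (d 1) ≠ 0 := by
      intro h
      rw [h] at hd
      simp at hd
    have h3 := hG _ _ h2 h1
    have hdx : d = ix (d 0) (d 1) := by
      ext i
      fin_cases i <;> simp [ix]
    have h4 : d 1 = 0 ∨ d 1 = 1 := by omega
    rw [Finset.coe_pair, hdx]
    rcases h4 with h4 | h4
    · right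
      rw [h4] at h1 ⊢
      rw [show d 0 = a + q by omega]
      rfl
    · left
      rw [h4] at h1 ⊢
      rw [show d 0 = a by omega]

private theorem spe_const (w : K) {q : ℕ} (hq : 0 < q) (G : PS k) :
    PowerSeries.constantCoeff (MvPowerSeries.subst (speu w q) G : PowerSeries K) =
      algebraMap k K (MvPowerSeries.constantCoeff G) := by
  rw [← PowerSeries.coeff_zero_eq_constantCoeff_apply, spe_coeff w hq,
    finsum_eq_single _ (0 : Fin 2 →₀ ℕ)]
  · have h1 : cf G 0 0 = MvPowerSeries.constantCoeff G := by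
      rw [cf, show ix 0 0 = 0 by simp [ix], MvPowerSeries.coeff_zero_eq_constantCoeff_apply]
    simp [h1]
  · intro d hd
    rw [if_neg]
    intro h
    apply hd
    have h1 : d 0 = 0 := by omega
    have h2 : d 1 = 0 := by
      have : d 1 * q = 0 := by omega
      rcases Nat.mul_eq_zero.1 this with h | h
      · exact h
      · omega
    ext i
    fin_cases i
    · simpa using h1
    · simpa using h2

/-- linear algebra -/
private theorem spe_lin {r : ℕ} (u v : Fin (r + 1) → k) {e1 : Fin (r + 1)} (he1 : e1 ≠ 0)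
    (hu : u e1 ≠ 0) (hv : ∃ e, v e - u e / u e1 * v e1 ≠ 0) :
    ∃ y : Fin (r + 1) → k, y 0 = 1 ∧ ∑ e, y e * u e = 0 ∧ ∑ e, y e * v e ≠ 0 := by
  classical
  have hw : ∀ e f : Fin (r + 1), ∀ z : Fin (r + 1) → k,
      ∑ x, ((if x = e then (1 : k) else 0) - u e / u e1 * (if x = e1 then 1 else 0)) * z x =
        z e - u e / u e1 * z e1 := by
    intro e _ z
    simp only [sub_mul, Finset.sum_sub_distrib, mul_assoc, ite_mul, one_mul, zero_mul, mul_ite,
      mul_zero, Finset.sum_ite_eq', Finset.mem_univ, if_true]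
  have hw0 : ∀ e, u e - u e / u e1 * u e1 = 0 := by
    intro e
    rw [div_mul_cancel₀ _ hu, sub_self]
  by_cases h0 : v 0 - u 0 / u e1 * v e1 = 0
  · obtain ⟨e2, he2⟩ := hv
    have h20 : e2 ≠ 0 := by
      rintro rfl
      exact he2 h0
    refine ⟨fun x => ((if x = 0 then (1 : k) else 0) - u 0 / u e1 * (if x = e1 then 1 else 0)) +
      ((if x = e2 then (1 : k) else 0) - u e2 / u e1 * (if x = e1 then 1 else 0)), ?_, ?_, ?_⟩
    · simp [he1.symm, h20.symm]
    · simp only [add_mul, Finset.sum_add_distrib]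
      rw [hw 0 0, hw e2 0, hw0, hw0, add_zero]
    · simp only [add_mul, Finset.sum_add_distrib]
      rw [hw 0 0, hw e2 0, h0, zero_add]
      exact he2
  · refine ⟨fun x => ((if x = 0 then (1 : k) else 0) - u 0 / u e1 * (if x = e1 then 1 else 0)),
      ?_, ?_, ?_⟩
    · simp [he1.symm]
    · rw [hw 0 0, hw0]
    · rw [hw 0 0]
      exact h0

end SPEaux

section SPE

variable {k : Type} [Field k] [CharZero k] {r : ℕ} {F : Fin (r + 1) → MvPolynomial (Fin 2) k}
  {P : Fin 2 → k} {G : Fin (r + 1) → PS k} {N ν a q : ℕ}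

theorem ok_special (hC : Chv F P N ν G) (hν : 0 < ν) (hE : Edv G a 1 1 q 1)
    (hm : ¬ Pur G a 1) (hb : ¬ Bad G a 1 1 q 1) :
    Ok (tot F) (-((ν * 1 + q : ℕ) : ℤ), (N + a) * 1 + 1 * q) := by
  classical
  obtain ⟨x0, j0, hx0, hF, hJ, hj0⟩ := hC
  have hq := hE.q0
  refine ⟨by simp only; omega, by simp only; omega, ?_⟩
  by_cases hdiv : (((N + a) * 1 + 1 * q : ℕ) : ℤ) ∣ (-((ν * 1 + q : ℕ) : ℤ))
  · exact Or.inl hdiv
  right
  have hdiv' : ¬ (N + a + q) ∣ (ν + q) := by
    intro h
    apply hdiv
    rw [Int.dvd_neg, Int.natCast_dvd_natCast]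
    simpa using h
  -- the linear algebra
  obtain ⟨e1, he1, hu1⟩ : ∃ e1, e1 ≠ 0 ∧ cf (G e1) a 1 ≠ 0 := by
    by_contra hcon
    push Not at hcon
    exact hm hcon
  set u : Fin (r + 1) → k := fun e => cf (G e) a 1 with hu
  set v : Fin (r + 1) → k := fun e => cf (G e) (a + q) 0 with hv
  have hv1 : ∃ e, v e - u e / u e1 * v e1 ≠ 0 := by
    by_contra hcon
    push Not at hcon
    apply hb
    refine ⟨rfl, rfl, -(v e1 / u e1), fun e => ?_⟩
    have h1 : v e = u e / u e1 * v e1 := sub_eq_zero.mp (hcon e)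
    have h2 : edp (G e) a 1 1 q 1 = Polynomial.C (u e) * Polynomial.X + Polynomial.C (v e) := by
      simp [edp, Finset.sum_range_succ, hu, hv]
    rw [h2, h1, pow_one]
    have h3 : u e / u e1 * v e1 = u e * (v e1 / u e1) := by ring
    rw [h3, map_mul, map_neg]
    ring
  obtain ⟨y, hy0, hyu, hyv⟩ := spe_lin u v he1 hu1 hv1
  obtain ⟨i, rfl⟩ : ∃ i : Fin r, e1 = i.succ := ⟨e1.pred he1, by simp⟩
  -- the substitution
  set w : MvPolynomial (Fin 2) k := C (1 / u i.succ) * X 0 - C (v i.succ / u i.succ) with hw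
  have hs : MvPowerSeries.HasSubst (speu w q) := spe_has w hq
  set S : PS k →ₐ[k] PowerSeries (MvPolynomial (Fin 2) k) := MvPowerSeries.substAlgHom hs with hS
  have hSa : ∀ f, S f = (MvPowerSeries.subst (speu w q) f :
      PowerSeries (MvPolynomial (Fin 2) k)) := fun f => by
    rw [hS, MvPowerSeries.coe_substAlgHom]
  have hS0 : S (MvPowerSeries.X 0) = PowerSeries.X := by
    rw [hSa, MvPowerSeries.subst_X hs]; rfl
  have hcc : ∀ f, PowerSeries.constantCoeff (S f) = C (MvPowerSeries.constantCoeff f) := by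
    intro f
    rw [hSa]
    exact spe_const w hq f
  have hg : ∀ e, ∃ g, S (G e) = PowerSeries.X ^ (a + q) * g := by
    intro e
    rw [hSa]
    refine spe_dvd w hq fun i j hij => ?_
    have := hE.wt e i j hij
    simpa using this
  choose g hg using hg
  have hgc : ∀ e, PowerSeries.constantCoeff (g e) = C (u e) * w + C (v e) := by
    intro e
    have h1 : PowerSeries.constantCoeff (g e) = PowerSeries.coeff (a + q) (S (G e)) := by
      rw [hg e, PowerSeries.coeff_X_pow_mul', if_pos le_rfl, Nat.sub_self,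
        PowerSeries.coeff_zero_eq_constantCoeff_apply]
    rw [h1, hSa]
    refine spe_edge w hq fun i j hij h => ?_
    have := (hE.lin e i j hij (by simpa using h)).2
    exact this
  have hxF : ∀ e, (aeval (fun i => S (x0 i)) (F e) : PowerSeries (MvPolynomial (Fin 2) k)) =
      PowerSeries.X ^ (N + a + q) * g e := by
    intro e
    have h1 : aeval (fun i => S (x0 i)) (F e) = S (aeval x0 (F e)) := by
      rw [MvPolynomial.comp_aeval_apply]
    rw [h1, hF, map_mul, map_pow, hS0, hg e, add_assoc, pow_add _ N]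
    ring
  -- derivatives
  have hder : ∀ D : Derivation k (PowerSeries (MvPolynomial (Fin 2) k))
      (PowerSeries (MvPolynomial (Fin 2) k)), ∀ f : PS k, D (S f) =
      S (MvPowerSeries.pderiv k 0 f) * D PowerSeries.X +
      S (MvPowerSeries.pderiv k 1 f) * D (PowerSeries.C w * PowerSeries.X ^ q) := by
    intro D f
    rw [hSa, hSa, hSa]
    refine spe_deriv (k := k) spe_cc0 (spe_cc1 w hq) D ?_ f
    intro n f hf
    obtain ⟨g, rfl⟩ := hf
    rw [Derivation.leibniz, Derivation.leibniz_pow, Nat.add_sub_cancel, smul_eq_mul, smul_eq_mul,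
      nsmul_eq_mul, smul_eq_mul, pow_succ]
    exact dvd_add (Dvd.intro _ (by rw [mul_assoc])) (Dvd.intro (g * ((n + 1 : ℕ) * D PowerSeries.X))
      (by ring))
  have hpdc : ∀ l : Fin 2, ∃ D : Derivation k (PowerSeries (MvPolynomial (Fin 2) k))
      (PowerSeries (MvPolynomial (Fin 2) k)), ∀ f, D f = pdc l f := by
    intro l
    refine ⟨Derivation.mk' (M := PowerSeries (MvPolynomial (Fin 2) k))
      { toFun := pdc l
        map_add' := ?_
        map_smul' := ?_ } ?_, fun f => rfl⟩
    · intro f g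
      ext n : 1
      simp [pdc]
    · intro c f
      ext n : 1
      simp [pdc]
    · intro f g
      ext n : 1
      simp only [pdc, PowerSeries.coeff_mk, LinearMap.coe_mk, AddHom.coe_mk, smul_eq_mul, map_add,
        PowerSeries.coeff_mul, map_sum, Derivation.leibniz, Finset.sum_add_distrib]
      congr 1
      exact Finset.Nat.sum_antidiagonal_swap (n := n)
        (f := fun p => PowerSeries.coeff p.1 g * pderiv l (PowerSeries.coeff p.2 f))
  have d1 : ∀ l : Fin 2, pdc l (PowerSeries.X : PowerSeries (MvPolynomial (Fin 2) k)) = 0 := by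
    intro l
    ext n : 1
    rw [pdc, PowerSeries.coeff_mk, PowerSeries.coeff_X]
    split_ifs <;> simp
  have d2 : ∀ l : Fin 2, pdc l (PowerSeries.C w * PowerSeries.X ^ q) =
      PowerSeries.C (pderiv l w) * PowerSeries.X ^ q := by
    intro l
    ext n : 1
    rw [pdc, PowerSeries.coeff_mk, PowerSeries.coeff_C_mul, PowerSeries.coeff_C_mul,
      PowerSeries.coeff_X_pow]
    split_ifs <;> simp
  have hp1 : ∀ f, pdc 1 (S f) = 0 := by
    intro f
    obtain ⟨D, hD⟩ := hpdc 1
    rw [← hD, hder, hD, hD, d1, d2]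
    have : pderiv 1 w = 0 := by simp [hw]
    rw [this]
    simp
  have hp0 : ∀ f, pdc 0 (S f) = S (MvPowerSeries.pderiv k 1 f) *
      (PowerSeries.C (C (1 / u i.succ)) * PowerSeries.X ^ q) := by
    intro f
    obtain ⟨D, hD⟩ := hpdc 0
    rw [← hD, hder, hD, hD, d1, d2]
    have : pderiv 0 w = C (1 / u i.succ) := by simp [hw]
    rw [this]
    ring
  have hd : ∀ f, PowerSeries.derivative _ (S f) = S (MvPowerSeries.pderiv k 0 f) +
      S (MvPowerSeries.pderiv k 1 f) *
        PowerSeries.derivative _ (PowerSeries.C w * PowerSeries.X ^ q) := by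
    intro f
    have := hder ((PowerSeries.derivative (MvPolynomial (Fin 2) k)).restrictScalars k) f
    rw [Derivation.restrictScalars_apply, Derivation.restrictScalars_apply,
      Derivation.restrictScalars_apply, PowerSeries.derivative_X, mul_one] at this
    exact this
  have hgoal : (-(((-((ν * 1 + q : ℕ) : ℤ), (N + a) * 1 + 1 * q) : ℤ × ℕ).1 : ℚ) /
      (((-((ν * 1 + q : ℕ) : ℤ), (N + a) * 1 + 1 * q) : ℤ × ℕ).2 : ℚ)) =
      ((ν + q : ℕ) : ℚ) / ((N + a + q : ℕ) : ℚ) := by
    push_cast
    ring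
  rw [hgoal]
  refine SR.of_cm_var hy0 i ?_
  refine SRI.special (x := fun i => S (x0 i)) (by omega) (by omega) hdiv'
    (fun l => hp1 _) (j := S j0 * PowerSeries.C (C (1 / u i.succ))) ?_
    (j0 := MvPowerSeries.constantCoeff j0 * (1 / u i.succ))
    (mul_ne_zero hj0 (one_div_ne_zero hu1)) ?_ (g1 := ∑ e, PowerSeries.C (C (y e)) * g e)
    (g2 := g i.succ) hyv ?_ (hxF _) ?_ ?_ ?_ _
  · show PowerSeries.derivative _ (S (x0 0)) * pdc 0 (S (x0 1)) -
      pdc 0 (S (x0 0)) * PowerSeries.derivative _ (S (x0 1)) = _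
    rw [hd, hd, hp0, hp0]
    have h1 : S (MvPowerSeries.X 0 ^ (ν - 1) * j0) = S (MvPowerSeries.pderiv k 0 (x0 0)) *
        S (MvPowerSeries.pderiv k 1 (x0 1)) - S (MvPowerSeries.pderiv k 1 (x0 0)) *
        S (MvPowerSeries.pderiv k 0 (x0 1)) := by
      rw [← hJ, map_sub, map_mul, map_mul]
    rw [map_mul, map_pow, hS0] at h1
    rw [show ν + q - 1 = ν - 1 + q by omega, pow_add _ (ν - 1)]
    linear_combination (-(PowerSeries.C (C (1 / u i.succ)) * PowerSeries.X ^ q)) * h1
  · rw [map_mul, hcc, PowerSeries.constantCoeff_C, C_mul]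
  · rw [cmF, map_sum, Finset.mul_sum]
    refine Finset.sum_congr rfl fun e _ => ?_
    rw [map_mul, hxF, MvPolynomial.aeval_C]
    have h1 : (algebraMap k (PowerSeries (MvPolynomial (Fin 2) k))) (y e) =
        PowerSeries.C (C (y e)) := by
      rw [PowerSeries.algebraMap_apply]
      rfl
    rw [h1]
    ring
  · rw [map_sum]
    have h1 : ∀ e, PowerSeries.constantCoeff (PowerSeries.C (C (y e)) * g e) =
        C (y e * u e) * w + C (y e * v e) := by
      intro e
      rw [map_mul, PowerSeries.constantCoeff_C, hgc, C_mul, C_mul]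
      ring
    rw [Finset.sum_congr rfl fun e _ => h1 e, Finset.sum_add_distrib, ← Finset.sum_mul,
      ← map_sum, ← map_sum, hyu, C_0, zero_mul, zero_add]
  · rw [hgc, hw, mul_sub, ← mul_assoc, ← C_mul, ← C_mul, mul_one_div_cancel hu1,
      mul_div_cancel₀ _ hu1, C_1]
    ring
  · intro A hA
    have h1 : idl F ≤ (Ideal.span {(PowerSeries.X ^ (N + a + q) :
        PowerSeries (MvPolynomial (Fin 2) k))}).comap
          (aeval (fun i => S (x0 i)) : MvPolynomial (Fin 2) k →ₐ[k] _) := by
      rw [idl, Ideal.span_le]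
      rintro _ ⟨e, rfl⟩
      rw [SetLike.mem_coe, Ideal.mem_comap, Ideal.mem_span_singleton, hxF]
      exact Dvd.intro _ rfl
    have h2 := h1 hA
    rw [Ideal.mem_comap, Ideal.mem_span_singleton] at h2
    exact h2

end SPE

end Pool.Agent.H75.Mono
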