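import Pool.Agent.H75.Idl.I0

/-! # LIY, module SPQ: chains for `η_1 u_1 + η_2 u_2` -/

set_option autoImplicit false
set_option linter.unusedSectionVars false

namespace Pool.Agent.H75.Mono

open MvPolynomial Pool.Agent.H39.MonoR

section SPQ

variable {k : Type} [Field k] [CharZero k]

/-- power series in `u_l = X (inl l)` and `η_l = X (inr l)` -/
abbrev R4 (k : Type) : Type := MvPowerSeries (Fin 2 ⊕ Fin 2) k

/-- the exponent of `u_0^a u_1^b η_0^a η_1^b` -/
private noncomputable def spqd (a b : ℕ) : Fin 2 ⊕ Fin 2 →₀ ℕ :=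
  Finsupp.single (Sum.inl 0) a + Finsupp.single (Sum.inl 1) b +
    Finsupp.single (Sum.inr 0) a + Finsupp.single (Sum.inr 1) b

/-- `u^a η^b ↦ a! / (|a| + 1)!` if `a = b` and `|a| = j`, and `0` otherwise -/
private noncomputable def spqL (k : Type) [Field k] (j : ℕ) : R4 k →ₗ[k] k :=
  ∑ p ∈ Finset.HasAntidiagonal.antidiagonal j,
    (((p.1.factorial : k) * (p.2.factorial : k)) / ((j + 1).factorial : k)) •
      MvPowerSeries.coeff (spqd p.1 p.2)

private theorem spqL_apply (j : ℕ) (G : R4 k) : spqL k j G = ∑ p ∈ Finset.HasAntidiagonal.antidiagonal j,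
    (((p.1.factorial : k) * (p.2.factorial : k)) / ((j + 1).factorial : k)) *
      MvPowerSeries.coeff (spqd p.1 p.2) G := by
  unfold spqL
  rw [LinearMap.sum_apply]
  rfl

private theorem spq_fac (j : ℕ) : ((j + 1).factorial : k) ≠ 0 :=
  Nat.cast_ne_zero.2 (Nat.factorial_ne_zero _)

private theorem spq_two (j : ℕ) : ((2 : k) + (j : k)) ≠ 0 := by
  have h : ((j + 2 : ℕ) : k) ≠ 0 := Nat.cast_ne_zero.2 (by omega)
  push_cast at h
  rwa [add_comm] at h

/-- shifting the first index -/
private theorem spq_s0 {δ δ' : Fin 2 ⊕ Fin 2 →₀ ℕ}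
    (hδ : δ + δ' = Finsupp.single (Sum.inl 0) 1 + Finsupp.single (Sum.inr 0) 1)
    (h0 : δ (Sum.inl 0) + δ (Sum.inr 0) ≠ 0) (j : ℕ) (G : R4 k) :
    ((2 : k) + (j : k)) * spqL k (j + 1) (MvPowerSeries.monomial δ 1 * G) =
      ∑ p ∈ Finset.HasAntidiagonal.antidiagonal j,
    (((p.1.factorial : k) * (p.2.factorial : k)) / ((j + 1).factorial : k)) *
      (((p.1 : k) + 1) * MvPowerSeries.coeff (spqd p.1 p.2 + δ') G) := by
  rw [spqL_apply, Finset.Nat.sum_antidiagonal_succ]
  have h1 : MvPowerSeries.coeff (spqd 0 (j + 1)) (MvPowerSeries.monomial δ 1 * G) = 0 := by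
    rw [MvPowerSeries.coeff_monomial_mul, if_neg]
    intro hle
    have a1 := hle (Sum.inl 0)
    have a2 := hle (Sum.inr 0)
    unfold spqd at a1 a2
    simp at a1 a2
    omega
  rw [h1, mul_zero, zero_add, Finset.mul_sum]
  refine Finset.sum_congr rfl fun p _ => ?_
  have h2 : spqd (p.1 + 1) p.2 = δ + (spqd p.1 p.2 + δ') := by
    have : δ + (spqd p.1 p.2 + δ') = spqd p.1 p.2 + (δ + δ') := by abel
    rw [this, hδ]
    unfold spqd
    rw [Finsupp.single_add, Finsupp.single_add]
    abel
  have h3 : MvPowerSeries.coeff (spqd (p.1 + 1) p.2) (MvPowerSeries.monomial δ 1 * G) =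
      MvPowerSeries.coeff (spqd p.1 p.2 + δ') G := by
    rw [h2, MvPowerSeries.coeff_add_monomial_mul, one_mul]
  have h4 : ((j + 1 + 1).factorial : k) = ((2 : k) + (j : k)) * ((j + 1).factorial : k) := by
    rw [Nat.factorial_succ (j + 1)]
    push_cast
    ring
  have h5 : ((p.1 + 1).factorial : k) = ((p.1 : k) + 1) * (p.1.factorial : k) := by
    rw [Nat.factorial_succ]
    push_cast
    ring
  rw [h3, h4, h5]
  have := spq_fac (k := k) j
  have := spq_two (k := k) j
  field_simp

/-- shifting the second index -/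
private theorem spq_s1 {δ δ' : Fin 2 ⊕ Fin 2 →₀ ℕ}
    (hδ : δ + δ' = Finsupp.single (Sum.inl 1) 1 + Finsupp.single (Sum.inr 1) 1)
    (h0 : δ (Sum.inl 1) + δ (Sum.inr 1) ≠ 0) (j : ℕ) (G : R4 k) :
    ((2 : k) + (j : k)) * spqL k (j + 1) (MvPowerSeries.monomial δ 1 * G) =
      ∑ p ∈ Finset.HasAntidiagonal.antidiagonal j,
    (((p.1.factorial : k) * (p.2.factorial : k)) / ((j + 1).factorial : k)) *
      (((p.2 : k) + 1) * MvPowerSeries.coeff (spqd p.1 p.2 + δ') G) := by
  rw [spqL_apply, Finset.Nat.sum_antidiagonal_succ']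
  have h1 : MvPowerSeries.coeff (spqd (j + 1) 0) (MvPowerSeries.monomial δ 1 * G) = 0 := by
    rw [MvPowerSeries.coeff_monomial_mul, if_neg]
    intro hle
    have a1 := hle (Sum.inl 1)
    have a2 := hle (Sum.inr 1)
    unfold spqd at a1 a2
    simp at a1 a2
    omega
  rw [h1, mul_zero, zero_add, Finset.mul_sum]
  refine Finset.sum_congr rfl fun p _ => ?_
  have h2 : spqd p.1 (p.2 + 1) = δ + (spqd p.1 p.2 + δ') := by
    have : δ + (spqd p.1 p.2 + δ') = spqd p.1 p.2 + (δ + δ') := by abel
    rw [this, hδ]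
    unfold spqd
    rw [Finsupp.single_add, Finsupp.single_add]
    abel
  have h3 : MvPowerSeries.coeff (spqd p.1 (p.2 + 1)) (MvPowerSeries.monomial δ 1 * G) =
      MvPowerSeries.coeff (spqd p.1 p.2 + δ') G := by
    rw [h2, MvPowerSeries.coeff_add_monomial_mul, one_mul]
  have h4 : ((j + 1 + 1).factorial : k) = ((2 : k) + (j : k)) * ((j + 1).factorial : k) := by
    rw [Nat.factorial_succ (j + 1)]
    push_cast
    ring
  have h5 : ((p.2 + 1).factorial : k) = ((p.2 : k) + 1) * (p.2.factorial : k) := by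
    rw [Nat.factorial_succ]
    push_cast
    ring
  rw [h3, h4, h5]
  have := spq_fac (k := k) j
  have := spq_two (k := k) j
  field_simp

/-- `η_0 u_0 + η_1 u_1` -/
private noncomputable def spqq (k : Type) [Field k] : R4 k :=
  ∑ l : Fin 2, MvPowerSeries.X (Sum.inl l) * MvPowerSeries.X (Sum.inr l)

private theorem spqL_mul (j : ℕ) (G : R4 k) : spqL k (j + 1) (spqq k * G) = spqL k j G := by
  have e : ∀ l : Fin 2, (MvPowerSeries.X (Sum.inl l) * MvPowerSeries.X (Sum.inr l) : R4 k) =
      MvPowerSeries.monomial (Finsupp.single (Sum.inl l) 1 + Finsupp.single (Sum.inr l) 1) 1 := by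
    intro l
    rw [MvPowerSeries.X_def, MvPowerSeries.X_def, MvPowerSeries.monomial_mul_monomial, one_mul]
  have h0 := spq_s0 (k := k) (δ := Finsupp.single (Sum.inl 0) 1 + Finsupp.single (Sum.inr 0) 1)
    (δ' := 0) (add_zero _) (by simp) j G
  have h1 := spq_s1 (k := k) (δ := Finsupp.single (Sum.inl 1) 1 + Finsupp.single (Sum.inr 1) 1)
    (δ' := 0) (add_zero _) (by simp) j G
  have h2 : ((2 : k) + (j : k)) * spqL k (j + 1) (spqq k * G) =
      ((2 : k) + (j : k)) * spqL k j G := by
    unfold spqq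
    rw [Fin.sum_univ_two, e 0, e 1, add_mul (MvPowerSeries.monomial _ _), map_add, mul_add, h0, h1, spqL_apply, Finset.mul_sum,
      ← Finset.sum_add_distrib]
    refine Finset.sum_congr rfl fun p hp => ?_
    have h3 : (j : k) = (p.1 : k) + (p.2 : k) := by
      rw [← Finset.HasAntidiagonal.mem_antidiagonal.1 hp]
      push_cast
      ring
    rw [h3, add_zero]
    ring
  exact mul_left_cancel₀ (spq_two j) h2

private theorem spqL_dinr (l : Fin 2) (j : ℕ) (G : R4 k) :
    spqL k j (MvPowerSeries.pderiv k (Sum.inr l) G) =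
      ((2 : k) + (j : k)) * spqL k (j + 1) (MvPowerSeries.X (Sum.inl l) * G) := by
  fin_cases l
  · have h0 := spq_s0 (k := k) (δ := Finsupp.single (Sum.inl 0) 1)
      (δ' := Finsupp.single (Sum.inr 0) 1) rfl (by simp) j G
    show _ = _ * spqL k (j + 1) (MvPowerSeries.X (Sum.inl 0) * G)
    rw [MvPowerSeries.X_def, h0, spqL_apply]
    refine Finset.sum_congr rfl fun p hp => ?_
    congr 1
    show MvPowerSeries.coeff _ (MvPowerSeries.pderiv k (Sum.inr 0) G) = _
    rw [MvPowerSeries.coeff_pderiv, mul_comm]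
    congr 2
    unfold spqd
    simp
  · have h0 := spq_s1 (k := k) (δ := Finsupp.single (Sum.inl 1) 1)
      (δ' := Finsupp.single (Sum.inr 1) 1) rfl (by simp) j G
    show _ = _ * spqL k (j + 1) (MvPowerSeries.X (Sum.inl 1) * G)
    rw [MvPowerSeries.X_def, h0, spqL_apply]
    refine Finset.sum_congr rfl fun p hp => ?_
    congr 1
    show MvPowerSeries.coeff _ (MvPowerSeries.pderiv k (Sum.inr 1) G) = _
    rw [MvPowerSeries.coeff_pderiv, mul_comm]
    congr 2
    unfold spqd
    simp

private theorem spqL_dinl (l : Fin 2) (j : ℕ) (G : R4 k) :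
    spqL k j (MvPowerSeries.pderiv k (Sum.inl l) G) =
      ((2 : k) + (j : k)) * spqL k (j + 1) (MvPowerSeries.X (Sum.inr l) * G) := by
  fin_cases l
  · have h0 := spq_s0 (k := k) (δ := Finsupp.single (Sum.inr 0) 1)
      (δ' := Finsupp.single (Sum.inl 0) 1) (add_comm _ _) (by simp) j G
    show _ = _ * spqL k (j + 1) (MvPowerSeries.X (Sum.inr 0) * G)
    rw [MvPowerSeries.X_def, h0, spqL_apply]
    refine Finset.sum_congr rfl fun p hp => ?_
    congr 1
    show MvPowerSeries.coeff _ (MvPowerSeries.pderiv k (Sum.inl 0) G) = _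
    rw [MvPowerSeries.coeff_pderiv, mul_comm]
    congr 2
    unfold spqd
    simp
  · have h0 := spq_s1 (k := k) (δ := Finsupp.single (Sum.inr 1) 1)
      (δ' := Finsupp.single (Sum.inl 1) 1) (add_comm _ _) (by simp) j G
    show _ = _ * spqL k (j + 1) (MvPowerSeries.X (Sum.inr 1) * G)
    rw [MvPowerSeries.X_def, h0, spqL_apply]
    refine Finset.sum_congr rfl fun p hp => ?_
    congr 1
    show MvPowerSeries.coeff _ (MvPowerSeries.pderiv k (Sum.inl 1) G) = _
    rw [MvPowerSeries.coeff_pderiv, mul_comm]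
    congr 2
    unfold spqd
    simp

/-! ### orders in `u` -/

/-- all terms have degree at least `m` in `u` -/
private def spqO (m : ℕ) (G : R4 k) : Prop :=
  ∀ n : Fin 2 ⊕ Fin 2 →₀ ℕ, n (Sum.inl 0) + n (Sum.inl 1) < m → MvPowerSeries.coeff n G = 0

private theorem spqO_mul {m m' : ℕ} {G G' : R4 k} (h : spqO m G) (h' : spqO m' G') :
    spqO (m + m') (G * G') := by
  classical
  intro n hn
  rw [MvPowerSeries.coeff_mul]
  refine Finset.sum_eq_zero fun p hp => ?_
  have h1 := Finset.HasAntidiagonal.mem_antidiagonal.1 hp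
  have h2 : n (Sum.inl 0) = p.1 (Sum.inl 0) + p.2 (Sum.inl 0) := by rw [← h1]; rfl
  have h3 : n (Sum.inl 1) = p.1 (Sum.inl 1) + p.2 (Sum.inl 1) := by rw [← h1]; rfl
  by_cases h4 : p.1 (Sum.inl 0) + p.1 (Sum.inl 1) < m
  · rw [h _ h4, zero_mul]
  · rw [h' p.2 (by omega), mul_zero]

private theorem spqO_zero (m : ℕ) : spqO m (0 : R4 k) := fun n _ => map_zero _

private theorem spqO_add {m : ℕ} {G G' : R4 k} (h : spqO m G) (h' : spqO m G') :
    spqO m (G + G') := fun n hn => by rw [map_add, h n hn, h' n hn, add_zero]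

private theorem spqO_any (G : R4 k) : spqO 0 G := fun n hn => absurd hn (by omega)

private theorem spqL_O {j : ℕ} {G : R4 k} (h : spqO (j + 1) G) : spqL k j G = 0 := by
  rw [spqL_apply]
  refine Finset.sum_eq_zero fun p hp => ?_
  rw [h _ ?_, mul_zero]
  have h1 := Finset.HasAntidiagonal.mem_antidiagonal.1 hp
  unfold spqd
  simp
  omega

/-- an ideal which is mapped to series of order one -/
private theorem spqO_pow {σ : Type} {I : Ideal (MvPolynomial σ k)}
    (ψ : MvPolynomial σ k →ₐ[k] R4 k) (h : ∀ A ∈ I, spqO 1 (ψ A)) (m : ℕ) :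
    ∀ A ∈ I ^ m, spqO m (ψ A) := by
  induction m with
  | zero => exact fun A _ => spqO_any _
  | succ m ih =>
    let N : Ideal (MvPolynomial σ k) :=
      { carrier := {A | spqO (m + 1) (ψ A)}
        add_mem' := fun {a b} ha hb => by
          show spqO (m + 1) (ψ (a + b))
          rw [map_add]
          exact spqO_add ha hb
        zero_mem' := by
          show spqO (m + 1) (ψ 0)
          rw [map_zero]
          exact spqO_zero _
        smul_mem' := fun c a ha => by
          show spqO (m + 1) (ψ (c * a))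
          rw [map_mul]
          have := spqO_mul (spqO_any (ψ c)) ha
          rwa [zero_add] at this }
    have hN : I ^ (m + 1) ≤ N := by
      rw [pow_succ]
      refine Ideal.mul_le.2 fun a ha b hb => ?_
      show spqO (m + 1) (ψ (a * b))
      rw [map_mul]
      exact spqO_mul (ih a ha) (h b hb)
    exact fun A hA => hN hA

/-! ### chains given by linear forms -/

theorem SRI.of_forms {σ : Type} {f : MvPolynomial σ k} {I : Ideal (MvPolynomial σ k)} {s : ℚ}
    (e : ℕ → MvPolynomial σ k →ₗ[k] k) (hmul : ∀ m A, e (m + 1) (f * A) = e m A)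
    (hder : ∀ i m A, e m (pderiv i A) = ((s : k) + m) * e (m + 1) (pderiv i f * A))
    (hne : e 0 ≠ 0) (hI : ∀ m, ∀ A ∈ I ^ (m + 1), ∀ B, e m (A * B) = 0) : SRI k f I s := by
  let V := MvPolynomial σ k →ₗ[k] k
  let ρ : MvPolynomial σ k →ₐ[k] Module.End k V :=
    AlgHom.ofLinearMap
      { toFun := fun p =>
          { toFun := fun v => v ∘ₗ LinearMap.mulLeft k p
            map_add' := fun v w => rfl
            map_smul' := fun c v => rfl }
        map_add' := fun p q => LinearMap.ext fun v => LinearMap.ext fun A => by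
          show v ((p + q) * A) = v (p * A) + v (q * A)
          rw [add_mul, map_add]
        map_smul' := fun c p => LinearMap.ext fun v => LinearMap.ext fun A => by
          show v ((c • p) * A) = c • v (p * A)
          rw [smul_mul_assoc, map_smul] }
      (LinearMap.ext fun v => LinearMap.ext fun A => by
        show v (1 * A) = v A
        rw [one_mul])
      (fun p q => LinearMap.ext fun v => LinearMap.ext fun A => by
        show v ((p * q) * A) = v (q * (p * A))
        congr 1
        ring)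
  have hρ : ∀ p v A, ρ p v A = v (p * A) := fun p v A => rfl
  let D : σ → Module.End k V := fun i =>
    { toFun := fun v => -(v ∘ₗ (pderiv i : Derivation k _ _).toLinearMap)
      map_add' := fun v w => LinearMap.ext fun A => by
        show -(v (pderiv i A) + w (pderiv i A)) = -v (pderiv i A) + -w (pderiv i A)
        ring
      map_smul' := fun c v => LinearMap.ext fun A => by
        show -(c • v (pderiv i A)) = c • -v (pderiv i A)
        rw [smul_neg] }
  have hD : ∀ i v A, D i v A = -v (pderiv i A) := fun i v A => rfl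
  refine ⟨{ V := V, ρ := ρ, D := D, leib := ?_, e := e, mul := ?_, der := ?_, ne := hne }, ?_⟩
  · intro i p v
    refine LinearMap.ext fun A => ?_
    rw [hD, hρ, LinearMap.add_apply, hρ, hρ, hD, Derivation.leibniz, smul_eq_mul, smul_eq_mul,
      map_add, mul_comm A]
    ring
  · intro j
    refine LinearMap.ext fun A => ?_
    rw [hρ]
    exact hmul j A
  · intro i j
    refine LinearMap.ext fun A => ?_
    rw [hD, hder, LinearMap.smul_apply, hρ, smul_eq_mul]
    ring
  · intro j A hA
    refine LinearMap.ext fun B => ?_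
    rw [hρ]
    exact hI j A hA B

/-- chain rule -/
private theorem spq_chain {σ : Type} [Fintype σ] {B : Type} [CommRing B] [Algebra k B] (z : σ → B)
    (D : Derivation k B B) (p : MvPolynomial σ k) :
    D (aeval z p) = ∑ i, aeval z (pderiv i p) * D (z i) := by
  classical
  induction p using MvPolynomial.induction_on with
  | C a =>
    rw [algHom_C, Derivation.map_algebraMap]
    symm
    refine Finset.sum_eq_zero fun i _ => ?_
    rw [pderiv_C, map_zero, zero_mul]
  | add p q hp hq =>
    rw [map_add, map_add, hp, hq, ← Finset.sum_add_distrib]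
    refine Finset.sum_congr rfl fun i _ => ?_
    rw [map_add, map_add]
    ring
  | mul_X p i hp =>
    rw [map_mul, aeval_X, Derivation.leibniz, hp, smul_eq_mul, smul_eq_mul]
    have h1 : ∀ j, aeval z (pderiv j (p * X i)) * D (z j) =
        z i * (aeval z (pderiv j p) * D (z j)) + aeval z p * (if i = j then D (z j) else 0) := by
      intro j
      rw [Derivation.leibniz, smul_eq_mul, smul_eq_mul, map_add, map_mul, map_mul, aeval_X,
        pderiv_X, Pi.single_apply]
      by_cases hij : i = j
      · rw [if_pos hij, if_pos hij]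
        simp only [map_one]
        ring
      · rw [if_neg hij, if_neg hij]
        simp only [map_zero]
        ring
    simp only [h1]
    rw [Finset.sum_add_distrib, ← Finset.mul_sum, ← Finset.mul_sum, Finset.sum_ite_eq,
      if_pos (Finset.mem_univ i)]
    ring

/-- partial derivatives commute -/
private theorem spq_comm {σ : Type} (i j : σ) (f : MvPowerSeries σ k) :
    MvPowerSeries.pderiv k i (MvPowerSeries.pderiv k j f) =
      MvPowerSeries.pderiv k j (MvPowerSeries.pderiv k i f) := by
  classical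
  ext n
  rw [MvPowerSeries.coeff_pderiv, MvPowerSeries.coeff_pderiv, MvPowerSeries.coeff_pderiv,
    MvPowerSeries.coeff_pderiv]
  have h : n + Finsupp.single i 1 + Finsupp.single j 1 =
      n + Finsupp.single j 1 + Finsupp.single i 1 := by abel
  rw [h]
  by_cases hij : i = j
  · subst hij
    ring
  · have h1 : (n + Finsupp.single i 1 : σ →₀ ℕ) j = n j := by
      rw [Finsupp.add_apply, Finsupp.single_apply, if_neg hij, add_zero]
    have h2 : (n + Finsupp.single j 1 : σ →₀ ℕ) i = n i := by
      rw [Finsupp.add_apply, Finsupp.single_apply, if_neg (Ne.symm hij), add_zero]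
    rw [h1, h2]
    ring

/-- `u_0, u_1` are given by two polynomials `A_0, A_1` -/
theorem SRI.quad {F0 : MvPolynomial (Fin 2) k} {A1 : Fin 2 → MvPolynomial (Fin 2) k}
    {I : Ideal (MvPolynomial (Fin 2) k)} {x a : Fin 2 → R4 k}
    (hx : ∀ i l, MvPowerSeries.pderiv k (Sum.inr l) (x i) = 0)
    (ha : ∀ i l, MvPowerSeries.pderiv k (Sum.inr l) (a i) = 0)
    (h1 : ∀ l, aeval x (A1 l) = MvPowerSeries.X (Sum.inl l))
    (h0 : aeval x F0 = ∑ l, a l * MvPowerSeries.X (Sum.inl l))
    (hI : ∀ A ∈ I, ∀ n : Fin 2 ⊕ Fin 2 →₀ ℕ, n (Sum.inl 0) = 0 → n (Sum.inl 1) = 0 →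
      MvPowerSeries.coeff n (aeval x A : R4 k) = 0)
    (hJ : MvPowerSeries.constantCoeff (MvPowerSeries.pderiv k (Sum.inl 0) (x 0) *
      MvPowerSeries.pderiv k (Sum.inl 1) (x 1) - MvPowerSeries.pderiv k (Sum.inl 1) (x 0) *
      MvPowerSeries.pderiv k (Sum.inl 0) (x 1)) ≠ 0) (y0 : Fin 2 → k) :
    SRI k (rename Sum.inl F0 + ∑ l, (X (Sum.inr l) - C (y0 l)) * rename Sum.inl (A1 l) :
        MvPolynomial (Fin 2 ⊕ Fin 2) k)
      (I.map (rename Sum.inl : MvPolynomial (Fin 2) k →ₐ[k] MvPolynomial (Fin 2 ⊕ Fin 2) k))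
      2 := by
  classical
  -- the substitution
  set y : Fin 2 → R4 k := fun l => MvPowerSeries.C (y0 l) + MvPowerSeries.X (Sum.inr l) - a l
    with hy
  set ψ : MvPolynomial (Fin 2 ⊕ Fin 2) k →ₐ[k] R4 k := aeval (Sum.elim x y) with hψ
  have hψl : ∀ A : MvPolynomial (Fin 2) k, ψ (rename Sum.inl A) = aeval x A := by
    intro A
    rw [hψ, aeval_rename]
    rfl
  set f : MvPolynomial (Fin 2 ⊕ Fin 2) k :=
    rename Sum.inl F0 + ∑ l, (X (Sum.inr l) - C (y0 l)) * rename Sum.inl (A1 l) with hf
  have hψf : ψ f = spqq k := by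
    rw [hf, map_add, hψl, h0, map_sum]
    unfold spqq
    rw [← Finset.sum_add_distrib]
    refine Finset.sum_congr rfl fun l _ => ?_
    rw [map_mul, hψl, h1, map_sub]
    have e1 : ψ (X (Sum.inr l)) = y l := by
      rw [hψ, aeval_X]
      rfl
    have e2 : ψ (C (y0 l)) = MvPowerSeries.C (y0 l) := by
      rw [hψ, algHom_C]
      rfl
    rw [e1, e2, hy]
    ring
  set J : R4 k := MvPowerSeries.pderiv k (Sum.inl 0) (x 0) *
      MvPowerSeries.pderiv k (Sum.inl 1) (x 1) - MvPowerSeries.pderiv k (Sum.inl 1) (x 0) *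
      MvPowerSeries.pderiv k (Sum.inl 0) (x 1) with hJd
  -- the derivation in the direction `u_m`
  let D : Fin 2 → Derivation k (R4 k) (R4 k) := fun m => MvPowerSeries.pderiv k (Sum.inl m) +
    ∑ l : Fin 2, MvPowerSeries.pderiv k (Sum.inl m) (a l) • MvPowerSeries.pderiv k (Sum.inr l)
  have hD : ∀ m G, D m G = MvPowerSeries.pderiv k (Sum.inl m) G +
      ∑ l : Fin 2, MvPowerSeries.pderiv k (Sum.inl m) (a l) *
        MvPowerSeries.pderiv k (Sum.inr l) G := by
    intro m G
    show (MvPowerSeries.pderiv k (Sum.inl m) + ∑ l : Fin 2,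
      MvPowerSeries.pderiv k (Sum.inl m) (a l) • MvPowerSeries.pderiv k (Sum.inr l) :
        Derivation k (R4 k) (R4 k)) G = _
    rw [Derivation.add_apply, Fin.sum_univ_two, Fin.sum_univ_two, Derivation.add_apply,
      Derivation.smul_apply, Derivation.smul_apply, smul_eq_mul, smul_eq_mul]
  have hDx : ∀ m i, D m (x i) = MvPowerSeries.pderiv k (Sum.inl m) (x i) := by
    intro m i
    rw [hD]
    simp only [hx, mul_zero, Finset.sum_const_zero, add_zero]
  have hDy : ∀ m l, D m (y l) = 0 := by
    intro m l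
    have e1 : ∀ v, MvPowerSeries.pderiv k v (y l) = MvPowerSeries.pderiv k v
        (MvPowerSeries.X (Sum.inr l)) - MvPowerSeries.pderiv k v (a l) := by
      intro v
      rw [hy]
      show MvPowerSeries.pderiv k v (MvPowerSeries.C (y0 l) + MvPowerSeries.X (Sum.inr l) -
        a l) = _
      rw [map_sub, map_add, MvPowerSeries.pderiv_C, zero_add]
    rw [hD, e1, MvPowerSeries.pderiv_X_of_ne (by simp), zero_sub]
    rw [Finset.sum_eq_single l]
    · rw [e1, MvPowerSeries.pderiv_X_self, ha, sub_zero, mul_one]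
      ring
    · intro l' _ hl'
      rw [e1, ha, MvPowerSeries.pderiv_X_of_ne (by simpa using hl'.symm), sub_zero, mul_zero]
    · intro h
      exact absurd (Finset.mem_univ _) h
  have hDψ : ∀ m A, D m (ψ A) = ψ (pderiv (Sum.inl 0) A) * MvPowerSeries.pderiv k (Sum.inl m) (x 0)
      + ψ (pderiv (Sum.inl 1) A) * MvPowerSeries.pderiv k (Sum.inl m) (x 1) := by
    intro m A
    rw [hψ, spq_chain, Fintype.sum_sum_type, Fin.sum_univ_two]
    simp only [Sum.elim_inl, Sum.elim_inr, hDy, hDx, mul_zero, Finset.sum_const_zero, add_zero]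
  have hHψ : ∀ l A, MvPowerSeries.pderiv k (Sum.inr l) (ψ A) = ψ (pderiv (Sum.inr l) A) := by
    intro l A
    rw [hψ, spq_chain, Fintype.sum_sum_type]
    simp only [Sum.elim_inl, Sum.elim_inr, hx, mul_zero, Finset.sum_const_zero, zero_add]
    have e1 : ∀ l', MvPowerSeries.pderiv k (Sum.inr l) (y l') = if l' = l then 1 else 0 := by
      intro l'
      rw [hy]
      show MvPowerSeries.pderiv k (Sum.inr l) (MvPowerSeries.C (y0 l') +
        MvPowerSeries.X (Sum.inr l') - a l') = _
      rw [map_sub, map_add, MvPowerSeries.pderiv_C, zero_add, ha, sub_zero]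
      by_cases h : l' = l
      · rw [if_pos h, h, MvPowerSeries.pderiv_X_self]
      · rw [if_neg h, MvPowerSeries.pderiv_X_of_ne (by simpa using h)]
    simp only [e1, mul_ite, mul_one, mul_zero]
    rw [Finset.sum_ite_eq' Finset.univ l, if_pos (Finset.mem_univ l)]
  have hJη : ∀ l, MvPowerSeries.pderiv k (Sum.inr l) J = 0 := by
    intro l
    rw [hJd, map_sub, Derivation.leibniz, Derivation.leibniz]
    simp only [spq_comm (Sum.inr l), hx, map_zero, smul_zero, add_zero, sub_zero]
  -- integration by parts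
  have hLD : ∀ m j G, spqL k j (D m G) = ((2 : k) + (j : k)) * spqL k (j + 1) (D m (spqq k) * G) := by
    intro m j G
    have e1 : D m (spqq k) = MvPowerSeries.X (Sum.inr m) +
        ∑ l : Fin 2, MvPowerSeries.pderiv k (Sum.inl m) (a l) * MvPowerSeries.X (Sum.inl l) := by
      rw [hD]
      have e2 : ∀ v, MvPowerSeries.pderiv k v (spqq k) = ∑ l : Fin 2,
          (MvPowerSeries.X (Sum.inl l) * MvPowerSeries.pderiv k v (MvPowerSeries.X (Sum.inr l)) +
          MvPowerSeries.X (Sum.inr l) * MvPowerSeries.pderiv k v (MvPowerSeries.X (Sum.inl l))) := by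
        intro v
        unfold spqq
        rw [map_sum]
        refine Finset.sum_congr rfl fun l _ => ?_
        rw [Derivation.leibniz, smul_eq_mul, smul_eq_mul]
      have e3 : MvPowerSeries.pderiv k (Sum.inl m) (spqq k) = MvPowerSeries.X (Sum.inr m) := by
        rw [e2, Finset.sum_eq_single m]
        · rw [MvPowerSeries.pderiv_X_of_ne (by simp), MvPowerSeries.pderiv_X_self, mul_zero,
            zero_add, mul_one]
        · intro l _ hl
          rw [MvPowerSeries.pderiv_X_of_ne (by simp), MvPowerSeries.pderiv_X_of_ne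
            (by simpa using hl), mul_zero, mul_zero, add_zero]
        · intro h
          exact absurd (Finset.mem_univ _) h
      have e4 : ∀ l, MvPowerSeries.pderiv k (Sum.inr l) (spqq k) =
          MvPowerSeries.X (Sum.inl l) := by
        intro l
        rw [e2, Finset.sum_eq_single l]
        · rw [MvPowerSeries.pderiv_X_self, MvPowerSeries.pderiv_X_of_ne (by simp), mul_zero,
            add_zero, mul_one]
        · intro l' _ hl
          rw [MvPowerSeries.pderiv_X_of_ne (by simpa using hl), MvPowerSeries.pderiv_X_of_ne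
            (by simp), mul_zero, mul_zero, add_zero]
        · intro h
          exact absurd (Finset.mem_univ _) h
      rw [e3]
      simp only [e4]
    have e5 : ∀ l, MvPowerSeries.pderiv k (Sum.inl m) (a l) *
        MvPowerSeries.pderiv k (Sum.inr l) G = MvPowerSeries.pderiv k (Sum.inr l)
          (MvPowerSeries.pderiv k (Sum.inl m) (a l) * G) := by
      intro l
      rw [Derivation.leibniz, spq_comm, ha, map_zero, smul_zero, add_zero, smul_eq_mul]
    rw [hD, map_add, spqL_dinl, map_sum, e1]
    simp only [e5, spqL_dinr]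
    rw [← Finset.mul_sum, ← mul_add, ← map_sum, ← map_add]
    congr 2
    rw [add_mul, Finset.sum_mul]
    congr 1
    refine Finset.sum_congr rfl fun l _ => ?_
    ring
  -- the linear forms
  let e : ℕ → MvPolynomial (Fin 2 ⊕ Fin 2) k →ₗ[k] k := fun m =>
    spqL k m ∘ₗ LinearMap.mulRight k J ∘ₗ ψ.toLinearMap
  have he : ∀ m A, e m A = spqL k m (ψ A * J) := fun m A => rfl
  have hc : ((2 : ℚ) : k) = 2 := by norm_num
  refine SRI.of_forms e ?_ ?_ ?_ ?_
  · intro m A
    rw [he, he, map_mul ψ, hψf, mul_assoc, spqL_mul]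
  · intro i m A
    rw [he, he, map_mul ψ, hc]
    rcases i with i | l
    · -- `x_i`
      have g0 := hDψ 0 A
      have g1 := hDψ 1 A
      have f0 := hDψ 0 f
      have f1 := hDψ 1 f
      rw [hψf] at f0 f1
      have hcom : D 0 (MvPowerSeries.pderiv k (Sum.inl 1) (x 1)) =
          D 1 (MvPowerSeries.pderiv k (Sum.inl 0) (x 1)) := by
        rw [hD, hD, spq_comm (Sum.inl 0) (Sum.inl 1)]
        simp only [spq_comm (Sum.inr _) (Sum.inl _), hx, map_zero, mul_zero,
          Finset.sum_const_zero]
      have hcom0 : D 0 (MvPowerSeries.pderiv k (Sum.inl 1) (x 0)) =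
          D 1 (MvPowerSeries.pderiv k (Sum.inl 0) (x 0)) := by
        rw [hD, hD, spq_comm (Sum.inl 0) (Sum.inl 1)]
        simp only [spq_comm (Sum.inr _) (Sum.inl _), hx, map_zero, mul_zero,
          Finset.sum_const_zero]
      fin_cases i
      · have k1 : ψ (pderiv (Sum.inl 0) A) * J =
            D 0 (MvPowerSeries.pderiv k (Sum.inl 1) (x 1) * ψ A) -
              D 1 (MvPowerSeries.pderiv k (Sum.inl 0) (x 1) * ψ A) := by
          rw [Derivation.leibniz, Derivation.leibniz, smul_eq_mul, smul_eq_mul, smul_eq_mul,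
            smul_eq_mul, g0, g1, hcom, hJd]
          ring
        have k2 : ψ (pderiv (Sum.inl 0) f) * ψ A * J =
            D 0 (spqq k) * (MvPowerSeries.pderiv k (Sum.inl 1) (x 1) * ψ A) -
              D 1 (spqq k) * (MvPowerSeries.pderiv k (Sum.inl 0) (x 1) * ψ A) := by
          rw [f0, f1, hJd]
          ring
        show spqL k m (ψ (pderiv (Sum.inl 0) A) * J) =
          (2 + (m : k)) * spqL k (m + 1) (ψ (pderiv (Sum.inl 0) f) * ψ A * J)
        rw [k1, k2, map_sub, hLD, hLD, map_sub]
        ring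
      · have k1 : ψ (pderiv (Sum.inl 1) A) * J =
            D 1 (MvPowerSeries.pderiv k (Sum.inl 0) (x 0) * ψ A) -
              D 0 (MvPowerSeries.pderiv k (Sum.inl 1) (x 0) * ψ A) := by
          rw [Derivation.leibniz, Derivation.leibniz, smul_eq_mul, smul_eq_mul, smul_eq_mul,
            smul_eq_mul, g0, g1, hcom0, hJd]
          ring
        have k2 : ψ (pderiv (Sum.inl 1) f) * ψ A * J =
            D 1 (spqq k) * (MvPowerSeries.pderiv k (Sum.inl 0) (x 0) * ψ A) -
              D 0 (spqq k) * (MvPowerSeries.pderiv k (Sum.inl 1) (x 0) * ψ A) := by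
          rw [f0, f1, hJd]
          ring
        show spqL k m (ψ (pderiv (Sum.inl 1) A) * J) =
          (2 + (m : k)) * spqL k (m + 1) (ψ (pderiv (Sum.inl 1) f) * ψ A * J)
        rw [k1, k2, map_sub, hLD, hLD, map_sub]
        ring
    · -- `Y_l`
      have k1 : ψ (pderiv (Sum.inr l) A) * J = MvPowerSeries.pderiv k (Sum.inr l) (ψ A * J) := by
        rw [Derivation.leibniz, hJη, smul_zero, zero_add, hHψ, smul_eq_mul, mul_comm]
      have k2 : ψ (pderiv (Sum.inr l) f) = MvPowerSeries.X (Sum.inl l) := by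
        rw [← hHψ, hψf]
        unfold spqq
        rw [map_sum, Finset.sum_eq_single l]
        · rw [Derivation.leibniz, MvPowerSeries.pderiv_X_self, MvPowerSeries.pderiv_X_of_ne
            (by simp), smul_zero, add_zero, smul_eq_mul, mul_one]
        · intro l' _ hl
          rw [Derivation.leibniz, MvPowerSeries.pderiv_X_of_ne (by simpa using hl),
            MvPowerSeries.pderiv_X_of_ne (by simp), smul_zero, smul_zero, add_zero]
        · intro h
          exact absurd (Finset.mem_univ _) h
      rw [k1, k2, spqL_dinr, mul_assoc]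
  · intro h
    apply hJ
    have h2 := congrArg (fun v : MvPolynomial (Fin 2 ⊕ Fin 2) k →ₗ[k] k => v 1) h
    simp only [LinearMap.zero_apply] at h2
    rw [he, map_one ψ, one_mul, spqL_apply] at h2
    have h3 : spqd 0 0 = 0 := by
      unfold spqd
      simp
    simp [h3] at h2
    exact h2
  · intro m A hA B
    rw [he, map_mul ψ, mul_assoc]
    have h2 : spqO (m + 1) (ψ A) := by
      refine spqO_pow ψ ?_ (m + 1) A hA
      intro A' hA'
      refine Submodule.span_induction (p := fun A' _ => spqO 1 (ψ A')) ?_ ?_ ?_ ?_ hA'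
      · rintro _ ⟨A, hA, rfl⟩
        show spqO 1 (ψ (rename Sum.inl A))
        rw [hψl]
        intro n hn
        exact hI A hA n (by omega) (by omega)
      · show spqO 1 (ψ 0)
        rw [map_zero]
        exact spqO_zero _
      · intro u v _ _ hu hv
        rw [map_add]
        exact spqO_add hu hv
      · intro c u _ hu
        show spqO 1 (ψ (c * u))
        rw [map_mul]
        have := spqO_mul (spqO_any (ψ c)) hu
        rwa [zero_add] at this
    have h3 := spqO_mul h2 (spqO_any (ψ B * J))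
    rw [add_zero] at h3
    exact spqL_O h3

end SPQ

end Pool.Agent.H75.Mono
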