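import Pool.Agent.H75.Idl.I0
import Pool.Agent.H75.Plc.ABS

/-! # LIY, module SRW: chains from residues, with ideals -/

set_option autoImplicit false
set_option linter.unusedSectionVars false

namespace Pool.Agent.H75.Mono

open MvPolynomial Pool.Agent.H39.MonoR

section SRW

variable {k : Type} [Field k] [CharZero k]

theorem SRI.of_res {K : Type} [Field K] [CharZero K] [Algebra k K] (δ : Derivation k K K)
    {F : MvPolynomial (Fin 2) k} {x : Fin 2 → PowerSeries K} {N ν : ℕ} (hN : 0 < N)
    (hν : 0 < ν) {g : PowerSeries K} (hg : aeval x F = PowerSeries.X ^ N * g)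
    (hg0 : PowerSeries.constantCoeff g ≠ 0) {j : PowerSeries K}
    (hj : PowerSeries.derivative K (x 0) * cdr δ (x 1) -
      cdr δ (x 0) * PowerSeries.derivative K (x 1) = PowerSeries.X ^ (ν - 1) * j)
    (lam : K →ₗ[k] k) (hl : ∀ h : K, lam (δ h - (((ν : ℚ) / N : ℚ) : K) *
      (δ (PowerSeries.constantCoeff g) / PowerSeries.constantCoeff g) * h) = 0)
    (hl1 : lam (PowerSeries.constantCoeff j) ≠ 0) {I : Ideal (MvPolynomial (Fin 2) k)}
    (hI : ∀ A ∈ I, PowerSeries.X ^ N ∣ (aeval x A : PowerSeries K)) :
    SRI k F I ((ν : ℚ) / N) := by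
  obtain ⟨W, hW0, hW, hW1, hW2⟩ := abs_w δ hg0 ((ν : ℚ) / N)
  set J := PowerSeries.X ^ (ν - 1) * j with hJ
  have hCK : ∀ c : k, PowerSeries.derivative K (algebraMap k (PowerSeries K) c) = 0 := by
    intro c
    rw [PowerSeries.algebraMap_apply, PowerSeries.derivative_C]
  have hCδ : ∀ c : k, cdr δ (algebraMap k (PowerSeries K) c) = 0 := fun c =>
    Derivation.map_algebraMap (cdr δ) c
  have ch1 := abs_chain x (PowerSeries.derivative K) (fun a b => by
      rw [Derivation.leibniz, smul_eq_mul, smul_eq_mul]) (fun a b => map_add _ a b) hCK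
  have ch2 := abs_chain x (cdr δ) (fun a b => by
      rw [Derivation.leibniz, smul_eq_mul, smul_eq_mul]) (fun a b => map_add _ a b) hCδ
  -- the module
  let V := MvPolynomial (Fin 2) k →ₗ[k] k
  let ρ : MvPolynomial (Fin 2) k →ₐ[k] Module.End k V :=
    AlgHom.ofLinearMap
      { toFun := fun p =>
          { toFun := fun v => v ∘ₗ LinearMap.mulLeft k p
            map_add' := fun v w => rfl
            map_smul' := fun c v => rfl }
        map_add' := fun p q => LinearMap.ext fun v => LinearMap.ext fun A => by
          show v ((p + q) * A) = v (p * A) + v (q * A)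
          rw [add_mul, map_add]
        map_smul' := fun c p => LinearMap.ext fun v => LinearMap.ext fun A => by
          show v ((c • p) * A) = c • v (p * A)
          rw [smul_mul_assoc, map_smul] }
      (LinearMap.ext fun v => LinearMap.ext fun A => by
        show v (1 * A) = v A
        rw [one_mul])
      (fun p q => LinearMap.ext fun v => LinearMap.ext fun A => by
        show v ((p * q) * A) = v (q * (p * A))
        congr 1
        ring)
  have hρ : ∀ p v A, ρ p v A = v (p * A) := fun p v A => rfl
  let D : Fin 2 → Module.End k V := fun i =>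
    { toFun := fun v => -(v ∘ₗ (pderiv i : Derivation k _ _).toLinearMap)
      map_add' := fun v w => LinearMap.ext fun A => by
        show -(v (pderiv i A) + w (pderiv i A)) = -v (pderiv i A) + -w (pderiv i A)
        ring
      map_smul' := fun c v => LinearMap.ext fun A => by
        show -(c • v (pderiv i A)) = c • -v (pderiv i A)
        rw [smul_neg] }
  have hD : ∀ i v A, D i v A = -v (pderiv i A) := fun i v A => rfl
  let e : ℕ → V := fun m =>
    lam ∘ₗ ((PowerSeries.coeff (R := K) (N * m + ν - 1)).restrictScalars k) ∘ₗ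
      (LinearMap.mulRight k (J * W m)) ∘ₗ (aeval x : MvPolynomial (Fin 2) k →ₐ[k] _).toLinearMap
  have he : ∀ m A, e m A = lam (PowerSeries.coeff (N * m + ν - 1) (aeval x A * (J * W m))) :=
    fun m A => rfl
  have hmul : ∀ m A, e (m + 1) (F * A) = e m A := by
    intro m A
    rw [he, he, map_mul (aeval x), hg]
    have h1 : PowerSeries.X ^ N * g * aeval x A * (J * W (m + 1)) =
        PowerSeries.X ^ N * (aeval x A * (J * W m)) := by
      rw [← hW m]; ring
    have h2 : N * (m + 1) + ν - 1 = (N * m + ν - 1) + N := by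
      rw [mul_add, _root_.mul_one]; omega
    rw [h1, h2, PowerSeries.coeff_X_pow_mul]
  have hcomm : ∀ f : PowerSeries K, PowerSeries.derivative K (cdr δ f) =
      cdr δ (PowerSeries.derivative K f) := fun f => cdr_comm δ f
  have hlam : ∀ (m : ℕ) (z h : K), lam (((((ν : ℚ) / N : ℚ) : K) + m) * z -
      (δ h - (((ν : ℚ) / N : ℚ) : K) * (δ (PowerSeries.constantCoeff g) /
        PowerSeries.constantCoeff g) * h)) = (((((ν : ℚ) / N : ℚ)) : k) + m) * lam z := by
    intro m z h
    have h1 : ((((ν : ℚ) / N : ℚ) : K) + m) * z = ((((ν : ℚ) / N : ℚ) : k) + (m : k)) • z := by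
      rw [Algebra.smul_def, map_add, map_natCast, map_ratCast]
    rw [map_sub, hl, sub_zero, h1, map_smul, smul_eq_mul]
  have hder : ∀ i m A, -e m (pderiv i A) = (-(((((ν : ℚ) / N : ℚ)) : k) + m)) *
      e (m + 1) (pderiv i F * A) := by
    have h2 : ∀ m, N * (m + 1) + ν - 1 = (N * m + ν - 1) + N := by
      intro m
      rw [mul_add, _root_.mul_one]; omega
    intro i m A
    rw [neg_mul, neg_inj, he, he, h2]
    have c1 := ch1 F
    have c2 := ch2 F
    rw [hg] at c1 c2
    have d1 := ch1 A
    have d2 := ch2 A
    fin_cases i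
    · have h3 := abs_key δ hN hν hW _ hW1 hW2 hcomm (aeval x A) (x 1) m
      have h4 : (PowerSeries.derivative K (aeval x A) * cdr δ (x 1) -
          cdr δ (aeval x A) * PowerSeries.derivative K (x 1)) * W m =
          aeval x (pderiv 0 A) * (J * W m) := by
        rw [d1, d2, ← hj]; ring
      have h5 : (PowerSeries.derivative K (PowerSeries.X ^ N * g) * cdr δ (x 1) -
          cdr δ (PowerSeries.X ^ N * g) * PowerSeries.derivative K (x 1)) * aeval x A * W (m + 1) =
          aeval x (pderiv 0 F * A) * (J * W (m + 1)) := by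
        rw [c1, c2, ← hj, map_mul]; ring
      rw [h4, h5] at h3
      show lam (PowerSeries.coeff _ (aeval x (pderiv 0 A) * (J * W m))) = _ * lam
        (PowerSeries.coeff _ (aeval x (pderiv 0 F * A) * (J * W (m + 1))))
      rw [h3, hlam]
    · have h3 := abs_key δ hN hν hW _ hW1 hW2 hcomm (aeval x A) (x 0) m
      have h4 : (PowerSeries.derivative K (aeval x A) * cdr δ (x 0) -
          cdr δ (aeval x A) * PowerSeries.derivative K (x 0)) * W m =
          -(aeval x (pderiv 1 A) * (J * W m)) := by
        rw [d1, d2, ← hj]; ring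
      have h5 : (PowerSeries.derivative K (PowerSeries.X ^ N * g) * cdr δ (x 0) -
          cdr δ (PowerSeries.X ^ N * g) * PowerSeries.derivative K (x 0)) * aeval x A * W (m + 1) =
          -(aeval x (pderiv 1 F * A) * (J * W (m + 1))) := by
        rw [c1, c2, ← hj, map_mul]; ring
      rw [h4, h5, map_neg, map_neg] at h3
      show lam (PowerSeries.coeff _ (aeval x (pderiv 1 A) * (J * W m))) = _ * lam
        (PowerSeries.coeff _ (aeval x (pderiv 1 F * A) * (J * W (m + 1))))
      have h6 := congrArg lam h3
      rw [hlam, map_neg, map_neg] at h6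
      linear_combination -h6
  -- values on `J`
  have hlow : ∀ B : PowerSeries K, PowerSeries.coeff (N * 0 + ν - 1) (B * (J * W 0)) =
      PowerSeries.constantCoeff B * PowerSeries.constantCoeff j := by
    intro B
    have h1 : B * (J * W 0) = PowerSeries.X ^ (ν - 1) * (B * (j * W 0)) := by rw [hJ]; ring
    have h2 : N * 0 + ν - 1 = 0 + (ν - 1) := by rw [mul_zero, zero_add, zero_add]
    rw [h1, h2, PowerSeries.coeff_X_pow_mul, PowerSeries.coeff_zero_eq_constantCoeff_apply,
      map_mul, map_mul, hW0, _root_.mul_one]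
  have hpow : ∀ (m : ℕ) (A : MvPolynomial (Fin 2) k), A ∈ I ^ (m + 1) →
      PowerSeries.X ^ (N * (m + 1)) ∣ (aeval x A : PowerSeries K) := by
    intro m
    induction m with
    | zero =>
      intro A hA
      rw [zero_add, pow_one] at hA
      rw [zero_add, Nat.mul_one]
      exact hI A hA
    | succ m ih =>
      intro A hA
      rw [pow_succ] at hA
      refine Submodule.mul_induction_on hA (fun a ha b hb => ?_) (fun a b ha hb => ?_)
      · rw [map_mul, Nat.mul_succ, pow_add]
        exact mul_dvd_mul (ih a ha) (hI b hb)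
      · rw [map_add]
        exact dvd_add ha hb
  refine ⟨{ V := V
            ρ := ρ
            D := D
            leib := fun i p v => LinearMap.ext fun A => ?_
            e := e
            mul := fun m => LinearMap.ext fun A => ?_
            der := fun i m => LinearMap.ext fun A => ?_
            ne := ?_ }, ?_⟩
  · show -v (p * pderiv i A) = v (pderiv i p * A) + -v (pderiv i (p * A))
    rw [Derivation.leibniz, map_add, smul_eq_mul, smul_eq_mul, mul_comm A]
    ring
  · exact hmul m A
  · exact hder i m A
  · intro h0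
    have h1 : e 0 1 = 0 := by rw [h0]; rfl
    rw [he, hlow, map_one, map_one, one_mul] at h1
    exact hl1 h1
  · intro m A hA
    refine LinearMap.ext fun B => ?_
    show e m (A * B) = 0
    obtain ⟨z, hz⟩ := hpow m A hA
    rw [he, map_mul (aeval x), hz]
    have h1 : PowerSeries.X ^ (N * (m + 1)) * z * aeval x B * (J * W m) =
        PowerSeries.X ^ (N * (m + 1) + (ν - 1)) * (z * aeval x B * (j * W m)) := by
      rw [hJ, pow_add]; ring
    rw [h1, PowerSeries.coeff_X_pow_mul', if_neg, map_zero]
    rw [Nat.mul_succ]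
    omega

end SRW

end Pool.Agent.H75.Mono
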