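import Pool.Agent.H75.Idl.I0
import Pool.Agent.H75.Plc.BEZ

/-! # LIY, module STV: the strata of the common zeros -/

set_option autoImplicit false

namespace Pool.Agent.H75.Mono

open MvPolynomial Pool.Agent.H39.MonoR

section STV

variable {k : Type} [Field k] [Algebra k ℂ] [IsAlgClosed k] {r : ℕ}

omit [Algebra k ℂ] [IsAlgClosed k] in
/-- elimination for an irreducible polynomial and a polynomial which it does not divide -/
private theorem stv_res {P : MvPolynomial (Fin 2) k} (hP : Irreducible P)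
    (Q : MvPolynomial (Fin 2) k) : Q ≠ 0 → ¬ P ∣ Q → ∀ i : Fin 2,
      ∃ (A B : MvPolynomial (Fin 2) k) (r : Polynomial k),
        r ≠ 0 ∧ A * P + B * Q = Polynomial.aeval (X i : MvPolynomial (Fin 2) k) r := by
  classical
  induction Q using UniqueFactorizationMonoid.induction_on_prime with
  | h₁ => intro h; exact absurd rfl h
  | h₂ u hu =>
    intro _ _ i
    obtain ⟨v, rfl⟩ := hu
    refine ⟨0, ↑v⁻¹, 1, one_ne_zero, ?_⟩
    simp
  | h₃ Q R hQ hR ih =>
    intro h0 hd i
    have hR0 : R ≠ 0 := hR.ne_zero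
    have hdR : ¬ P ∣ R := fun h => hd (h.mul_right _)
    have hdQ : ¬ P ∣ Q := fun h => hd (h.mul_left _)
    have hna : ¬ Associated P R := fun h => hdR h.dvd
    obtain ⟨A1, B1, r1, hr1, e1⟩ := exists_res hP hR.irreducible hna i
    obtain ⟨A2, B2, r2, hr2, e2⟩ := ih hQ hdQ i
    refine ⟨A1 * (A2 * P + B2 * Q) + B1 * R * A2, B1 * B2, r1 * r2, mul_ne_zero hr1 hr2, ?_⟩
    rw [map_mul, ← e1, ← e2]
    ring

omit [Algebra k ℂ] [IsAlgClosed k] in
private theorem stv_degreeOf_pderiv (P : MvPolynomial (Fin 2) k) (j : Fin 2)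
    (h : pderiv j P ≠ 0) : degreeOf j (pderiv j P) < degreeOf j P := by
  classical
  have hpos : 0 < degreeOf j P := by
    rcases Nat.eq_zero_or_pos (degreeOf j P) with h0 | h0
    · exfalso
      apply h
      apply pderiv_eq_zero_of_notMem_vars
      intro hm
      rw [mem_vars_iff_mem_support] at hm
      obtain ⟨d, hd, hdj⟩ := hm
      rw [Finsupp.mem_support_iff] at hdj
      have := monomial_le_degreeOf j hd
      omega
    · exact h0
  rw [degreeOf_lt_iff hpos]
  intro m hm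
  rw [P.as_sum, map_sum] at hm
  obtain ⟨s, hs, hms⟩ := Finset.mem_biUnion.1 (MvPolynomial.support_sum hm)
  rw [pderiv_monomial] at hms
  have := MvPolynomial.support_monomial_subset hms
  rw [Finset.mem_singleton] at this
  subst this
  have hsj : s j ≤ degreeOf j P := monomial_le_degreeOf j hs
  have hsj0 : s j ≠ 0 := by
    intro h0
    rw [h0] at hms
    simp at hms
  simp only [Finsupp.coe_tsub, Pi.sub_apply, Finsupp.single_eq_same]
  omega

omit [Algebra k ℂ] [IsAlgClosed k] in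
private theorem stv_not_dvd_pderiv {P : MvPolynomial (Fin 2) k} {j : Fin 2}
    (h : pderiv j P ≠ 0) : ¬ P ∣ pderiv j P := by
  rintro ⟨C, hC⟩
  have hlt := stv_degreeOf_pderiv P j h
  have hP : P ≠ 0 := by rintro rfl; simp at h
  have hC0 : C ≠ 0 := by rintro rfl; rw [mul_zero] at hC; exact h hC
  rw [hC, degreeOf_mul_eq hP hC0] at hlt
  omega

/-- a root in `ℂ` of a polynomial over `k` lies in `k` -/
private theorem stv_root {r : Polynomial k} (hr : r ≠ 0) {z : ℂ}
    (h : Polynomial.aeval z r = 0) : ∃ a ∈ r.roots, z = algebraMap k ℂ a := by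
  have hs := IsAlgClosed.splits r
  rw [hs.eq_prod_roots, map_mul, map_multiset_prod, Multiset.map_map] at h
  rcases mul_eq_zero.1 h with h | h
  · rw [Polynomial.aeval_C] at h
    exfalso
    apply hr
    rw [← Polynomial.leadingCoeff_eq_zero]
    exact (map_eq_zero_iff _ (algebraMap k ℂ).injective).1 h
  · rw [Multiset.prod_eq_zero_iff, Multiset.mem_map] at h
    obtain ⟨a, ha, ha0⟩ := h
    refine ⟨a, ha, ?_⟩
    simp only [Function.comp_apply, map_sub, Polynomial.aeval_X, Polynomial.aeval_C] at ha0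
    exact sub_eq_zero.1 ha0

/-- common zeros of two coprime polynomials -/
private theorem stv_common {P Q : MvPolynomial (Fin 2) k} (hP : Irreducible P) (hQ : Q ≠ 0)
    (hd : ¬ P ∣ Q) : {z : Fin 2 → k | eval z P = 0 ∧ eval z Q = 0}.Finite ∧
      ∀ x : Fin 2 → ℂ, aeval x P = 0 → aeval x Q = 0 → ∃ z : Fin 2 → k,
        ∀ i, x i = algebraMap k ℂ (z i) := by
  classical
  choose A B r hr e using stv_res hP Q hQ hd
  constructor
  · apply (Set.Finite.pi (fun i : Fin 2 => ((r i).roots.toFinset : Set k).toFinite)).subset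
    intro z hz
    rw [Set.mem_univ_pi]
    intro i
    rw [Finset.mem_coe, Multiset.mem_toFinset, Polynomial.mem_roots (hr i)]
    have := congrArg (eval z) (e i)
    rw [map_add, map_mul, map_mul, hz.1, hz.2, mul_zero, mul_zero, add_zero] at this
    have h2 : eval z (Polynomial.aeval (X i : MvPolynomial (Fin 2) k) (r i)) =
        (r i).eval (z i) := by
      have := Polynomial.aeval_algHom_apply (MvPolynomial.aeval z : MvPolynomial (Fin 2) k →ₐ[k] k)
        (X i) (r i)
      rw [MvPolynomial.aeval_X] at this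
      rw [← Polynomial.coe_aeval_eq_eval, this]
      rfl
    rw [h2] at this
    exact this.symm
  · intro x hx hx'
    have key : ∀ i, ∃ a : k, x i = algebraMap k ℂ a := by
      intro i
      have := congrArg (aeval x) (e i)
      rw [map_add, map_mul, map_mul, hx, hx', mul_zero, mul_zero, add_zero,
        ← Polynomial.aeval_algHom_apply, MvPolynomial.aeval_X] at this
      obtain ⟨a, -, ha⟩ := stv_root (hr i) this.symm
      exact ⟨a, ha⟩
    choose z hz using key
    exact ⟨z, hz⟩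

omit [IsAlgClosed k] in
private theorem stv_aeval_image (z : Fin 2 → k) (P : MvPolynomial (Fin 2) k) {x : Fin 2 → ℂ}
    (hx : ∀ i, x i = algebraMap k ℂ (z i)) : aeval x P = algebraMap k ℂ (eval z P) := by
  have : x = fun i => algebraMap k ℂ (z i) := funext hx
  rw [this]
  have := MvPolynomial.aeval_algebraMap_apply ℂ z P
  rw [show (fun i => algebraMap k ℂ (z i)) = (algebraMap k ℂ ∘ z) from rfl, this]
  rfl

omit [Algebra k ℂ] [IsAlgClosed k] in
private theorem stv_exists_pderiv [CharZero k] {P : MvPolynomial (Fin 2) k}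
    (hP : Irreducible P) : ∃ j, pderiv j P ≠ 0 := by
  by_contra hcon
  push Not at hcon
  have hC : P = C (coeff 0 P) := by
    ext m
    rw [coeff_C]
    split_ifs with h
    · rw [← h]
    · obtain ⟨i, hi⟩ : ∃ i, m i ≠ 0 := by
        by_contra hc
        push Not at hc
        apply h
        ext i
        rw [hc i]
        rfl
      have h1 := coeff_pderiv (i := i) P (m - Finsupp.single i 1)
      rw [hcon i, coeff_zero] at h1
      have h2 : m - Finsupp.single i 1 + Finsupp.single i 1 = m := by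
        apply tsub_add_cancel_of_le
        rw [Finsupp.single_le_iff]
        omega
      rw [h2] at h1
      have h3 : (((m - Finsupp.single i 1 : Fin 2 →₀ ℕ) i : ℕ) : k) + 1 ≠ 0 :=
        Nat.cast_add_one_ne_zero _
      exact (mul_eq_zero.1 h1.symm).resolve_right h3
  rcases eq_or_ne (coeff 0 P) 0 with h0 | h0
  · rw [h0, C_0] at hC
    exact hP.ne_zero hC
  · apply hP.not_isUnit
    rw [hC]
    exact (isUnit_iff_ne_zero.2 h0).map C


omit [Algebra k ℂ] [IsAlgClosed k] in
private theorem stv_mult {F : Fin (r + 1) → MvPolynomial (Fin 2) k} {e0 : Fin (r + 1)}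
    (h0 : F e0 ≠ 0) {P : MvPolynomial (Fin 2) k} (hP : Irreducible P) (hd : ∀ e, P ∣ F e) :
    ∃ (m : ℕ) (Q : Fin (r + 1) → MvPolynomial (Fin 2) k), 0 < m ∧ (∀ e, F e = P ^ m * Q e) ∧
      ∃ e, ¬ P ∣ Q e := by
  classical
  have hfin : FiniteMultiplicity P (F e0) :=
    FiniteMultiplicity.of_not_isUnit hP.not_isUnit h0
  obtain ⟨N, hN⟩ := hfin
  have hex : ∃ n, ¬ ∀ e, P ^ (n + 1) ∣ F e := ⟨N, fun h => hN (h e0)⟩
  have hn := Nat.find_spec hex
  have hmin : ∀ m < Nat.find hex, ∀ e, P ^ (m + 1) ∣ F e := fun m hm =>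
    not_not.1 (Nat.find_min hex hm)
  obtain ⟨n, hnn⟩ : ∃ n, n = Nat.find hex := ⟨_, rfl⟩
  rw [← hnn] at hn hmin
  have hpos : 0 < n := by
    rcases Nat.eq_zero_or_pos n with h | h
    · exfalso
      apply hn
      intro e
      rw [h, zero_add, pow_one]
      exact hd e
    · exact h
  have hall : ∀ e, P ^ n ∣ F e := by
    intro e
    have := hmin (n - 1) (by omega) e
    rwa [Nat.sub_add_cancel hpos] at this
  choose Q hQ using hall
  refine ⟨n, Q, hpos, hQ, ?_⟩
  by_contra hcon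
  push Not at hcon
  apply hn
  intro e
  rw [hQ e, pow_succ]
  exact mul_dvd_mul_left _ (hcon e)

theorem exists_stv {F : Fin (r + 1) → MvPolynomial (Fin 2) k} (hF : ∃ e, F e ≠ 0) :
    ∃ (Sg : Finset (Fin 2 → k)) (n : ℕ) (Pf : Fin n → MvPolynomial (Fin 2) k)
      (Qf : Fin n → Fin (r + 1) → MvPolynomial (Fin 2) k) (m : Fin n → ℕ),
      Stv F Sg Pf Qf m := by
  classical
  let _ : StrongNormalizationMonoid (MvPolynomial (Fin 2) k) :=
    UniqueFactorizationMonoid.strongNormalizationMonoid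
  have _ : CharZero k := by
    refine ⟨fun a b h => ?_⟩
    have := congrArg (algebraMap k ℂ) h
    simpa using this
  obtain ⟨e0, hF0⟩ := hF
  obtain ⟨S, hS⟩ : ∃ S : Finset (MvPolynomial (Fin 2) k),
    S = (UniqueFactorizationMonoid.normalizedFactors (F e0)).toFinset := ⟨_, rfl⟩
  have hmem : ∀ P, P ∈ S ↔ P ∈ UniqueFactorizationMonoid.normalizedFactors (F e0) := by
    intro P
    rw [hS, Multiset.mem_toFinset]
  have hirr : ∀ P ∈ S, Irreducible P := fun P hP =>
    UniqueFactorizationMonoid.irreducible_of_normalized_factor P ((hmem P).1 hP)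
  have hassoc : ∀ P ∈ S, ∀ P' ∈ S, P ≠ P' → ¬ P ∣ P' := by
    intro P hP P' hP' hne hd
    have ha : Associated P P' := (hirr P hP).associated_of_dvd (hirr P' hP') hd
    apply hne
    rw [← UniqueFactorizationMonoid.normalize_normalized_factor P ((hmem P).1 hP),
      ← UniqueFactorizationMonoid.normalize_normalized_factor P' ((hmem P').1 hP')]
    exact normalize_eq_normalize ha.dvd ha.symm.dvd
  -- a zero of `F e0`
  have hzero : ∀ x : Fin 2 → ℂ, aeval x (F e0) = 0 → ∃ P ∈ S, aeval x P = 0 := by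
    intro x hx
    obtain ⟨u, hu⟩ := UniqueFactorizationMonoid.prod_normalizedFactors hF0
    rw [← hu, map_mul, map_multiset_prod] at hx
    have hunit : aeval x (↑u : MvPolynomial (Fin 2) k) ≠ (0 : ℂ) :=
      (u.isUnit.map (aeval x : MvPolynomial (Fin 2) k →ₐ[k] ℂ)).ne_zero
    have h2 := (mul_eq_zero.1 hx).resolve_right hunit
    rw [Multiset.prod_eq_zero_iff, Multiset.mem_map] at h2
    obtain ⟨P, hP, hP0⟩ := h2
    exact ⟨P, (hmem P).2 hP, hP0⟩
  -- the common factors
  obtain ⟨S', hS'⟩ : ∃ S' : Finset (MvPolynomial (Fin 2) k),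
    S' = S.filter fun P => ∀ e, P ∣ F e := ⟨_, rfl⟩
  have hmem' : ∀ P, P ∈ S' ↔ P ∈ S ∧ ∀ e, P ∣ F e := by
    intro P
    rw [hS', Finset.mem_filter]
  have hex : ∀ P : S', ∃ (m : ℕ) (Q : Fin (r + 1) → MvPolynomial (Fin 2) k),
      0 < m ∧ (∀ e, F e = P.1 ^ m * Q e) ∧ ∃ e, ¬ P.1 ∣ Q e := by
    rintro ⟨P, hP⟩
    obtain ⟨h1, h2⟩ := (hmem' P).1 hP
    exact stv_mult hF0 (hirr P h1) h2
  choose m Q hm hQ hnd using hex
  obtain ⟨R, hR⟩ : ∃ R : Finset (MvPolynomial (Fin 2) k), R = S ∪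
      (S ×ˢ (Finset.univ : Finset (Fin 2))).image (fun q => pderiv q.2 q.1) ∪
      (Finset.univ : Finset (Fin (r + 1))).image F ∪
      ((Finset.univ : Finset S') ×ˢ (Finset.univ : Finset (Fin (r + 1)))).image
        (fun q => Q q.1 q.2) := ⟨_, rfl⟩
  have hR1 : ∀ P ∈ S, P ∈ R := by
    intro P hP
    rw [hR]
    exact Finset.mem_union_left _ (Finset.mem_union_left _ (Finset.mem_union_left _ hP))
  have hR2 : ∀ P ∈ S, ∀ j, pderiv j P ∈ R := by
    intro P hP j
    rw [hR]
    exact Finset.mem_union_left _ (Finset.mem_union_left _ (Finset.mem_union_right _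
      (Finset.mem_image.2 ⟨(P, j), Finset.mem_product.2 ⟨hP, Finset.mem_univ _⟩, rfl⟩)))
  have hR3 : ∀ e, F e ∈ R := by
    intro e
    rw [hR]
    exact Finset.mem_union_left _ (Finset.mem_union_right _
      (Finset.mem_image.2 ⟨e, Finset.mem_univ _, rfl⟩))
  have hR4 : ∀ (P : S') (e : Fin (r + 1)), Q P e ∈ R := by
    intro P e
    rw [hR]
    exact Finset.mem_union_right _ (Finset.mem_image.2 ⟨(P, e),
      Finset.mem_product.2 ⟨Finset.mem_univ _, Finset.mem_univ _⟩, rfl⟩)
  obtain ⟨Z, hZ⟩ : ∃ Z : Set (Fin 2 → k), Z = {z | (∀ e, eval z (F e) = 0) ∧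
    ∃ P ∈ S, ∃ T ∈ R, ¬ P ∣ T ∧ eval z P = 0 ∧ eval z T = 0} := ⟨_, rfl⟩
  have hne : ∀ (P T : MvPolynomial (Fin 2) k), ¬ P ∣ T → T ≠ 0 := by
    rintro P T h rfl
    exact h (dvd_zero P)
  have hZfin : Z.Finite := by
    have h1 : ∀ P ∈ S, {z : Fin 2 → k | ∃ T ∈ R, ¬ P ∣ T ∧ eval z P = 0 ∧
        eval z T = 0}.Finite := by
      intro P hP
      have h2 : ∀ T ∈ R, {z : Fin 2 → k | ¬ P ∣ T ∧ eval z P = 0 ∧ eval z T = 0}.Finite := by
        intro T _
        by_cases hd : P ∣ T
        · convert Set.finite_empty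
          ext z
          simp [hd]
        · exact (stv_common (hirr P hP) (hne P T hd) hd).1.subset fun z hz => hz.2
      refine (R.finite_toSet.biUnion h2).subset ?_
      rintro z ⟨T, hT, h⟩
      rw [Set.mem_iUnion₂]
      exact ⟨T, hT, h⟩
    refine (S.finite_toSet.biUnion h1).subset ?_
    intro z hz
    rw [hZ] at hz
    obtain ⟨-, P, hP, h⟩ := hz
    rw [Set.mem_iUnion₂]
    exact ⟨P, hP, h⟩
  refine ⟨hZfin.toFinset, S'.card, fun i => (S'.equivFin.symm i).1,
    fun i => Q (S'.equivFin.symm i), fun i => m (S'.equivFin.symm i), ?_, ?_, ?_⟩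
  · intro z hz e
    rw [Set.Finite.mem_toFinset, hZ] at hz
    exact hz.1 e
  · intro i
    exact ⟨hm _, hQ _, hirr _ ((hmem' _).1 (S'.equivFin.symm i).2).1, hnd _⟩
  · intro x hx hnx
    have hsing : ∀ P ∈ S, ∀ T ∈ R, ¬ P ∣ T → aeval x P = 0 → aeval x T ≠ 0 := by
      intro P hP T hT hd hP0 hT0
      obtain ⟨z, hz⟩ := (stv_common (hirr P hP) (hne P T hd) hd).2 x hP0 hT0
      have hev : ∀ U : MvPolynomial (Fin 2) k, aeval x U = 0 → eval z U = 0 := by
        intro U hU
        rw [stv_aeval_image z U hz] at hU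
        exact (map_eq_zero_iff _ (algebraMap k ℂ).injective).1 hU
      apply hnx
      refine ⟨z, ?_, hz⟩
      rw [Set.Finite.mem_toFinset, hZ]
      exact ⟨fun e => hev _ (hx e), P, hP, T, hT, hd, hev P hP0, hev T hT0⟩
    obtain ⟨P, hP, hP0⟩ := hzero x (hx e0)
    have hP' : P ∈ S' := by
      rw [hmem']
      refine ⟨hP, fun e => ?_⟩
      by_contra hd
      exact hsing P hP _ (hR3 e) hd hP0 (hx e)
    refine ⟨S'.equivFin ⟨P, hP'⟩, ⟨?_, ?_, ?_⟩, ?_⟩
    · simpa using hP0
    · simp only [Equiv.symm_apply_apply]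
      obtain ⟨e, he⟩ := hnd ⟨P, hP'⟩
      exact ⟨e, hsing P hP _ (hR4 _ _) he hP0⟩
    · simp only [Equiv.symm_apply_apply]
      obtain ⟨j, hj⟩ := stv_exists_pderiv (hirr P hP)
      exact ⟨j, hsing P hP _ (hR2 P hP j) (stv_not_dvd_pderiv hj) hP0⟩
    · intro i' hi'
      have h1 := ((hmem' _).1 (S'.equivFin.symm i').2).1
      apply hsing P hP _ (hR1 _ h1) _ hP0
      apply hassoc P hP _ h1
      intro h
      apply hi'
      have : S'.equivFin.symm i' = ⟨P, hP'⟩ := Subtype.ext h.symm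
      rw [← this, Equiv.apply_symm_apply]

end STV

end Pool.Agent.H75.Mono
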